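import Pool.Agent.BT.Defs
import Pool.Agent.SAF.A15
import Pool.Agent.SAF.A16
import Pool.Agent.SAG.AG

/-!
# BT/Ax: axes of two-ended groups acting on trees
-/

namespace Pool.Agent.BT

open MulAction
open Pool.Agent.SAF (InC orbs FinOrb FinOrb_iff oc Decomp SAn SA Conv hull TAct dist_edge
  exists_next subset_hull hull_conv hull_edge fix_of_pow_fix fix_of_finite_inv)

section

variable {X : Type} {G : SimpleGraph X}

private theorem nxu (hG : G.IsTree) {a b c c' : X} (h1 : G.Adj a c) (h2 : G.Adj a c')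
    (d1 : G.dist a b = G.dist c b + 1) (d2 : G.dist a b = G.dist c' b + 1) : c = c' := by
  obtain ⟨p, -, hp⟩ := hG.connected.exists_path_of_dist c b
  obtain ⟨p', -, hp'⟩ := hG.connected.exists_path_of_dist c' b
  have k1 : (SimpleGraph.Walk.cons h1 p).IsPath := by
    apply SimpleGraph.Walk.isPath_of_length_eq_dist
    rw [SimpleGraph.Walk.length_cons, hp, d1]
  have k2 : (SimpleGraph.Walk.cons h2 p').IsPath := by
    apply SimpleGraph.Walk.isPath_of_length_eq_dist
    rw [SimpleGraph.Walk.length_cons, hp', d2]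
  have e : SimpleGraph.Walk.cons h1 p = SimpleGraph.Walk.cons h2 p' :=
    (hG.existsUnique_path a b).unique k1 k2
  have e2 := congrArg (fun q : G.Walk a b => q.snd) e
  simpa using e2

/-- a geodesic which crosses an edge passes through it -/
private theorem crossE (hG : G.IsTree) {u v a b : X} (h : G.Adj u v)
    (h1 : G.dist a v = G.dist a u + 1) (h2 : G.dist b u = G.dist b v + 1) :
    G.dist a b = G.dist a u + G.dist u b := by
  have hu := (Pool.Agent.SAF.Conv.edge hG (hull_conv hG ({a, b} : Set X)) h (subset_hull _ (Or.inl rfl))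
    (subset_hull _ (Or.inr rfl)) h1 h2).1
  obtain ⟨a', ha', b', hb', e⟩ := hu
  rcases ha' with rfl | ha'
  · rcases hb' with rfl | hb'
    · rw [SimpleGraph.dist_self] at e
      have e1 : G.dist b' u = 0 := by omega
      have e2 : b' = u := hG.connected.dist_eq_zero_iff.1 e1
      rw [e1, zero_add, e2]
    · replace hb' : b' = b := hb'
      rw [hb'] at e
      exact e.symm
  · replace ha' : a' = b := ha'
    rcases hb' with rfl | hb'
    · rw [ha'] at e
      rw [SimpleGraph.dist_comm (u := b') (v := b), ← e, SimpleGraph.dist_comm (u := b),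
        SimpleGraph.dist_comm (u := u) (v := b'), Nat.add_comm]
    · replace hb' : b' = b := hb'
      rw [ha', hb', SimpleGraph.dist_self] at e
      omega

private theorem through (hG : G.IsTree) {a b c p q : X} (hp : G.Adj b p) (hq : G.Adj b q)
    (dp : G.dist b a = G.dist p a + 1) (dq : G.dist b c = G.dist q c + 1) (hne : p ≠ q) :
    G.dist a c = G.dist a b + G.dist b c := by
  have h1 : G.dist a b = G.dist a p + 1 := by
    rw [SimpleGraph.dist_comm, dp, SimpleGraph.dist_comm]
  have h2 : G.dist c p = G.dist c b + 1 := by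
    rcases (dist_edge hG hp c).1 with h | h
    · exact h
    · exfalso
      apply hne
      refine nxu hG hp hq ?_ dq
      rw [SimpleGraph.dist_comm, h, SimpleGraph.dist_comm]
  have h3 := crossE hG hp.symm h1 h2
  have h4 : G.dist p c = G.dist b c + 1 := by
    rw [SimpleGraph.dist_comm, h2, SimpleGraph.dist_comm]
  omega

/-- local geodesics are geodesics -/
private theorem concat (hG : G.IsTree) {a b c e : X} (hbc : b ≠ c)
    (h1 : G.dist a c = G.dist a b + G.dist b c) (h2 : G.dist b e = G.dist b c + G.dist c e) :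
    G.dist a e = G.dist a c + G.dist c e := by
  by_cases hce : c = e
  · rw [hce, SimpleGraph.dist_self, Nat.add_zero]
  obtain ⟨p, hp, dp⟩ := exists_next hG hbc.symm
  obtain ⟨q, hq, dq⟩ := exists_next hG hce
  have t1 : G.dist a p ≤ G.dist a b + G.dist b p := hG.connected.dist_triangle
  have t2 : G.dist a c ≤ G.dist a p + G.dist p c := hG.connected.dist_triangle
  have t3 : G.dist p c = 1 := SimpleGraph.dist_eq_one_iff_adj.2 hp.symm
  have t4 : G.dist c b = G.dist b c := SimpleGraph.dist_comm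
  have t5 : G.dist p b = G.dist b p := SimpleGraph.dist_comm
  have t6 : G.dist c a = G.dist a c := SimpleGraph.dist_comm
  have t7 : G.dist p a = G.dist a p := SimpleGraph.dist_comm
  have dpa : G.dist c a = G.dist p a + 1 := by omega
  have hne : p ≠ q := by
    rintro rfl
    have s1 : G.dist b e ≤ G.dist b p + G.dist p e := hG.connected.dist_triangle
    omega
  exact through hG hp hq dpa dq hne

end

section

variable {H : Type} [Group H] {X : Type} [MulAction H X] {G : SimpleGraph X}

/-- a vertex of minimal displacement lies on the axis -/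
private theorem two_step (hG : TAct H G) (t : H) (ht : ∀ x : X, t • x ≠ x) (x : X)
    (hmin : ∀ y, G.dist x (t • x) ≤ G.dist y (t • y)) :
    G.dist x (t • t • x) = G.dist x (t • x) + G.dist (t • x) (t • t • x) := by
  have hT := hG.tree
  obtain ⟨r, hr, dr⟩ := exists_next hT (ht x).symm
  obtain ⟨p, hp, dp⟩ := exists_next hT (ht x)
  have hq : G.Adj (t • x) (t • r) := hG.adj_smul t x r hr
  have dq : G.dist (t • x) (t • t • x) = G.dist (t • r) (t • t • x) + 1 := by
    rw [hG.dist_smul, hG.dist_smul, dr]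
  refine through hT hp hq dp dq ?_
  rintro rfl
  -- `t r` is next to `t x` on the way to `x`
  by_cases hrx : t • x = r
  · -- `d = 1`: inversion
    have e1 : G.dist r (t • x) = 0 := by rw [hrx, SimpleGraph.dist_self]
    have e2 : G.dist (t • x) x = 1 := by
      rw [SimpleGraph.dist_comm, dr, e1]
    have e3 : G.dist (t • r) x = 0 := by omega
    have e4 : t • r = x := hT.connected.dist_eq_zero_iff.1 e3
    exact hG.noinv t x r hr ⟨hrx, e4⟩
  · obtain ⟨p', hp', dp'⟩ := exists_next hT hrx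
    have s1 : G.dist (t • x) r = G.dist r (t • x) := SimpleGraph.dist_comm
    have s2 : G.dist (t • x) x = G.dist x (t • x) := SimpleGraph.dist_comm
    have s3 : G.dist r x = 1 := SimpleGraph.dist_eq_one_iff_adj.2 hr.symm
    have s4 : G.dist p' x ≤ G.dist p' r + G.dist r x := hT.connected.dist_triangle
    have s5 : G.dist (t • x) x ≤ G.dist (t • x) p' + G.dist p' x := hT.connected.dist_triangle
    have s6 : G.dist (t • x) p' = 1 := SimpleGraph.dist_eq_one_iff_adj.2 hp'
    have s7 : G.dist (t • x) x = G.dist p' x + 1 := by omega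
    have e : p' = t • r := nxu hT hp' hp s7 dp
    rw [e] at dp'
    have s8 : G.dist r (t • r) = G.dist (t • r) r := SimpleGraph.dist_comm
    have := hmin r
    omega

/-- the orbit of a vertex on the axis is a geodesic -/
private theorem axis0 (hG : TAct H G) (t : H) (ht : ∀ x : X, t • x ≠ x) :
    ∃ (x : X) (d : ℕ), 0 < d ∧ ∀ m k : ℕ, G.dist (t ^ m • x) (t ^ (m + k) • x) = k * d := by
  classical
  have hT := hG.tree
  obtain ⟨x0⟩ := hT.connected.nonempty
  obtain ⟨x, hx⟩ : ∃ x : X, ∀ y, G.dist x (t • x) ≤ G.dist y (t • y) := by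
    have hne : ∃ n : ℕ, ∃ x : X, G.dist x (t • x) = n := ⟨_, x0, rfl⟩
    obtain ⟨x, hx⟩ := Nat.find_spec hne
    refine ⟨x, fun y => ?_⟩
    rw [hx]
    exact Nat.find_min' hne ⟨y, rfl⟩
  have hd0 : 0 < G.dist x (t • x) := by
    rw [Nat.pos_iff_ne_zero]
    intro h
    exact ht x (hT.connected.dist_eq_zero_iff.1 h).symm
  refine ⟨x, G.dist x (t • x), hd0, ?_⟩
  have h2 := two_step hG t ht x hx
  have hstep : ∀ n : ℕ, G.dist (t ^ n • x) (t ^ (n + 1) • x) = G.dist x (t • x) := by
    intro n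
    rw [pow_succ, mul_smul, hG.dist_smul]
  have hstep2 : ∀ n : ℕ, G.dist (t ^ n • x) (t ^ (n + 2) • x) =
      G.dist (t ^ n • x) (t ^ (n + 1) • x) + G.dist (t ^ (n + 1) • x) (t ^ (n + 2) • x) := by
    intro n
    rw [hstep n, hstep (n + 1), pow_add, mul_smul, hG.dist_smul, sq, mul_smul, h2, hG.dist_smul]
  intro m k
  have key : ∀ k : ℕ, G.dist (t ^ m • x) (t ^ (m + k) • x) = k * G.dist x (t • x) ∧
      G.dist (t ^ m • x) (t ^ (m + (k + 1)) • x) = (k + 1) * G.dist x (t • x) := by
    intro k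
    induction k with
    | zero =>
      refine ⟨?_, ?_⟩
      · rw [Nat.add_zero, SimpleGraph.dist_self, Nat.zero_mul]
      · rw [Nat.zero_add, hstep m, Nat.one_mul]
    | succ k ih =>
      refine ⟨ih.2, ?_⟩
      have e0 : G.dist (t ^ (m + k) • x) (t ^ (m + (k + 1)) • x) = G.dist x (t • x) :=
        hstep (m + k)
      have e1 : G.dist (t ^ (m + (k + 1)) • x) (t ^ (m + (k + 1 + 1)) • x) = G.dist x (t • x) :=
        hstep (m + (k + 1))
      have hne : t ^ (m + k) • x ≠ t ^ (m + (k + 1)) • x := by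
        intro e
        rw [e, SimpleGraph.dist_self] at e0
        omega
      have h3 : G.dist (t ^ (m + k) • x) (t ^ (m + (k + 1 + 1)) • x) =
          G.dist (t ^ (m + k) • x) (t ^ (m + (k + 1)) • x) +
          G.dist (t ^ (m + (k + 1)) • x) (t ^ (m + (k + 1 + 1)) • x) := hstep2 (m + k)
      have h1 : G.dist (t ^ m • x) (t ^ (m + (k + 1)) • x) =
          G.dist (t ^ m • x) (t ^ (m + k) • x) +
          G.dist (t ^ (m + k) • x) (t ^ (m + (k + 1)) • x) := by
        rw [ih.1, ih.2, e0, Nat.succ_mul]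
      rw [concat hT hne h1 h3, ih.2, e1]
      ring
  exact (key k).1


/-- the direction at `x` is the same for two points which are nearer to each other than to `x` -/
private theorem same_dir (hG : G.IsTree) {a a' x p p' : X} (hp : G.Adj x p) (hp' : G.Adj x p')
    (dp : G.dist x a = G.dist p a + 1) (dp' : G.dist x a' = G.dist p' a' + 1)
    (h : G.dist a a' < G.dist a x) : p = p' := by
  by_contra hne
  have := through hG hp hp' dp dp' hne
  omega

/-- the intersection of all invariant subtrees -/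
def mst (G : SimpleGraph X) (A : Subgroup H) : Set X :=
  {w | ∀ C : Set X, Conv G C → C.Nonempty → (∀ a ∈ A, ∀ c ∈ C, a • c ∈ C) → w ∈ C}

/-- the group `A` has no fixed vertex -/
def Hyp (X : Type) [MulAction H X] (A : Subgroup H) : Prop := ∀ w : X, ∃ a ∈ A, a • w ≠ w

theorem mst_conv (A : Subgroup H) : Conv G (mst G A) := by
  intro a ha b hb w hw C hC hne hA
  exact hC a (ha C hC hne hA) b (hb C hC hne hA) w hw

theorem mst_mono {A B : Subgroup H} (h : B ≤ A) : mst G B ⊆ mst G A := by
  intro w hw C hC hne hA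
  exact hw C hC hne (fun b hb => hA b (h hb))

/-- the axis of a hyperbolic element -/
private theorem axis_elt (hG : TAct H G) (t : H) (ht : ∀ x : X, t • x ≠ x) :
    (mst G (Subgroup.zpowers t)).Nonempty ∧
    (∀ w ∈ mst G (Subgroup.zpowers t), ∀ a b c, G.Adj w a → G.Adj w b → G.Adj w c →
      a ∈ mst G (Subgroup.zpowers t) → b ∈ mst G (Subgroup.zpowers t) →
      c ∈ mst G (Subgroup.zpowers t) → a = b ∨ a = c ∨ b = c) ∧
    FinOrb ↥(Subgroup.zpowers t) (mst G (Subgroup.zpowers t)) := by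
  have hT := hG.tree
  obtain ⟨x, d, hd, hx⟩ := axis0 hG t ht
  have hZ : ∀ m : ℤ, ∀ k : ℕ, G.dist (t ^ m • x) (t ^ (m + (k : ℤ)) • x) = k * d := by
    intro m k
    rw [zpow_add, mul_smul, hG.dist_smul]
    have := hx 0 k
    rw [pow_zero, one_smul, Nat.zero_add] at this
    rw [zpow_natCast]
    exact this
  obtain ⟨s, hs⟩ : ∃ s : Set X, s = {y | ∃ n : ℤ, y = t ^ n • x} := ⟨_, rfl⟩
  have hsx : ∀ n : ℤ, t ^ n • x ∈ s := by
    intro n
    rw [hs]
    exact ⟨n, rfl⟩
  have hsinv : ∀ a ∈ Subgroup.zpowers t, ∀ w ∈ s, a • w ∈ s := by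
    rintro _ ⟨k, rfl⟩ w hw
    rw [hs] at hw ⊢
    obtain ⟨n, rfl⟩ := hw
    exact ⟨k + n, by rw [zpow_add, mul_smul]⟩
  -- the orbit lies in every invariant subtree
  have hin : ∀ C : Set X, Conv G C → C.Nonempty →
      (∀ a ∈ Subgroup.zpowers t, ∀ c ∈ C, a • c ∈ C) → ∀ n : ℤ, t ^ n • x ∈ C := by
    intro C hC hne hA n
    obtain ⟨c, hc⟩ := hne
    obtain ⟨r, hr⟩ : ∃ r : ℕ, r = G.dist x c := ⟨_, rfl⟩
    obtain ⟨N, hN⟩ : ∃ N : ℕ, N = r + 1 := ⟨_, rfl⟩
    have hNd : r < N * d := by
      have : N ≤ N * d := Nat.le_mul_of_pos_right N hd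
      omega
    -- four points
    have e1 : G.dist (t ^ (n - N) • x) (t ^ n • x) = N * d := by
      have := hZ (n - N) N
      rwa [sub_add_cancel] at this
    have e2 : G.dist (t ^ n • x) (t ^ (n + N) • x) = N * d := hZ n N
    have e3 : G.dist (t ^ (n - N) • x) (t ^ (n + N) • x) = N * d + N * d := by
      have := hZ (n - N) (N + N)
      have e : n - (N : ℤ) + ((N + N : ℕ) : ℤ) = n + N := by push_cast; ring
      rw [e] at this
      rw [this]
      ring
    have e4 : G.dist (t ^ (n - N) • x) (t ^ (n - N) • c) = r := by rw [hG.dist_smul, hr]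
    have e5 : G.dist (t ^ (n + N) • x) (t ^ (n + N) • c) = r := by rw [hG.dist_smul, hr]
    have hc1 : t ^ (n - N) • c ∈ C := hA _ ⟨_, rfl⟩ c hc
    have hc2 : t ^ (n + N) • c ∈ C := hA _ ⟨_, rfl⟩ c hc
    generalize t ^ (n - N) • x = a at e1 e3 e4
    generalize t ^ (n + N) • x = b at e2 e3 e5
    generalize t ^ (n - N) • c = a' at e4 hc1
    generalize t ^ (n + N) • c = b' at e5 hc2
    generalize t ^ n • x = y at e1 e2
    have e1' : G.dist y a = N * d := by rw [SimpleGraph.dist_comm, e1]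
    have e2' : G.dist b y = N * d := by rw [SimpleGraph.dist_comm, e2]
    have ya : y ≠ a := by
      rintro rfl
      rw [SimpleGraph.dist_self] at e1
      omega
    have yb : y ≠ b := by
      rintro rfl
      rw [SimpleGraph.dist_self] at e2
      omega
    have ya' : y ≠ a' := by
      rintro rfl
      omega
    have yb' : y ≠ b' := by
      rintro rfl
      omega
    obtain ⟨p, hp, dp⟩ := exists_next hT ya
    obtain ⟨q, hq, dq⟩ := exists_next hT yb
    obtain ⟨p', hp', dp'⟩ := exists_next hT ya'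
    obtain ⟨q', hq', dq'⟩ := exists_next hT yb'
    have hpp : p = p' := same_dir hT hp hp' dp dp' (by omega)
    have hqq : q = q' := same_dir hT hq hq' dq dq' (by omega)
    have hpq : p ≠ q := by
      rintro rfl
      have h1 : G.dist a b ≤ G.dist a p + G.dist p b := hT.connected.dist_triangle
      have h2 : G.dist a p = G.dist p a := SimpleGraph.dist_comm
      omega
    have := through hT hp' hq' dp' dq' (by rw [← hpp, ← hqq]; exact hpq)
    exact hC a' hc1 b' hc2 y this.symm
  have hmst : mst G (Subgroup.zpowers t) = hull G s := by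
    apply Set.Subset.antisymm
    · intro w hw
      apply hw _ (hull_conv hT s) ⟨t ^ (0 : ℤ) • x, subset_hull s (hsx 0)⟩
      exact fun a ha c hc => by
        obtain ⟨u, hu, v, hv, e⟩ := hc
        refine ⟨a • u, hsinv a ha u hu, a • v, hsinv a ha v hv, ?_⟩
        rw [hG.dist_smul, hG.dist_smul, hG.dist_smul]
        exact e
    · intro w hw C hC hne hA
      obtain ⟨u, hu, v, hv, e⟩ := hw
      rw [hs] at hu hv
      obtain ⟨m, rfl⟩ := hu
      obtain ⟨n, rfl⟩ := hv
      exact hC _ (hin C hC hne hA m) _ (hin C hC hne hA n) w e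
  rw [hmst]
  refine ⟨⟨t ^ (0 : ℤ) • x, subset_hull s (hsx 0)⟩, ?_, ?_⟩
  · -- at most two neighbours
    intro w hw a b c ha hb hc hma hmb hmc
    by_contra hno
    push Not at hno
    obtain ⟨hab, hac, hbc⟩ := hno
    have far : ∀ a, G.Adj w a → a ∈ hull G s → ∃ n : ℤ,
        G.dist w (t ^ n • x) = G.dist a (t ^ n • x) + 1 := by
      intro a ha hma
      obtain ⟨-, -, z, hz, -, e⟩ := hull_edge hT hw hma ha
      rw [hs] at hz
      obtain ⟨n, rfl⟩ := hz
      refine ⟨n, ?_⟩
      rw [SimpleGraph.dist_comm, e, SimpleGraph.dist_comm]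
    obtain ⟨i, hi⟩ := far a ha hma
    obtain ⟨j, hj⟩ := far b hb hmb
    obtain ⟨k, hk⟩ := far c hc hmc
    have tab := through hT ha hb hi hj hab
    have tac := through hT ha hc hi hk hac
    have tbc := through hT hb hc hj hk hbc
    have hdist : ∀ m n : ℤ, (G.dist (t ^ m • x) (t ^ n • x) : ℤ) = |n - m| * d := by
      intro m n
      rcases le_total m n with h | h
      · obtain ⟨l, hl⟩ := Int.eq_ofNat_of_zero_le (sub_nonneg.2 h)
        have := hZ m l
        have e : m + (l : ℤ) = n := by omega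
        rw [e] at this
        rw [this, abs_of_nonneg (sub_nonneg.2 h), hl]
        push_cast
        rfl
      · obtain ⟨l, hl⟩ := Int.eq_ofNat_of_zero_le (sub_nonneg.2 h)
        have := hZ n l
        have e : n + (l : ℤ) = m := by omega
        rw [e] at this
        rw [SimpleGraph.dist_comm, this, abs_of_nonpos (sub_nonpos.2 h)]
        push_cast
        have e2 : -(n - m) = (l : ℤ) := by omega
        rw [e2]
    have dij := hdist i j
    have dik := hdist i k
    have djk := hdist j k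
    have c1 : G.dist (t ^ i • x) w = G.dist w (t ^ i • x) := SimpleGraph.dist_comm
    have c2 : G.dist (t ^ j • x) w = G.dist w (t ^ j • x) := SimpleGraph.dist_comm
    rw [tab] at dij
    rw [tac] at dik
    rw [tbc] at djk
    have hdpos : (0 : ℤ) < d := by exact_mod_cast hd
    push_cast at dij dik djk
    -- one of the three is in the middle
    have hmid : |j - i| + |k - j| = |k - i| ∨ |j - i| + |k - i| = |k - j| ∨
        |k - i| + |k - j| = |j - i| := by
      rcases le_total i j with h1 | h1 <;> rcases le_total j k with h2 | h2 <;>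
        rcases le_total i k with h3 | h3 <;>
        simp only [abs_of_nonneg, abs_of_nonpos, sub_nonneg, sub_nonpos, h1, h2, h3] <;> omega
    have s1 : (0 : ℤ) ≤ G.dist a (t ^ i • x) := Int.natCast_nonneg _
    have s2 : (0 : ℤ) ≤ G.dist b (t ^ j • x) := Int.natCast_nonneg _
    have s3 : (0 : ℤ) ≤ G.dist c (t ^ k • x) := Int.natCast_nonneg _
    rw [c1] at dij dik
    rw [c2] at djk
    rw [hi] at dij dik
    rw [hj] at dij djk
    rw [hk] at dik djk
    push_cast at dij dik djk
    rcases hmid with h | h | h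
    · have := congrArg (fun z : ℤ => z * d) h
      simp only [add_mul] at this
      linarith
    · have := congrArg (fun z : ℤ => z * d) h
      simp only [add_mul] at this
      linarith
    · have := congrArg (fun z : ℤ => z * d) h
      simp only [add_mul] at this
      linarith
  · apply hG.hull_cofinite (Subgroup.zpowers t) inferInstance s hsinv
    refine FinOrb_iff.2 ⟨{x}, Set.finite_singleton _, ?_, ?_⟩
    · rintro _ rfl
      have := hsx 0
      rwa [zpow_zero, one_smul] at this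
    · intro y hy
      rw [hs] at hy
      obtain ⟨n, rfl⟩ := hy
      exact ⟨x, rfl, ⟨t ^ n, n, rfl⟩, rfl⟩

/-- powers have the same axis -/
private theorem mst_pow (hG : TAct H G) (t : H) (ht : ∀ x : X, t • x ≠ x) (m : ℤ) (hm : m ≠ 0) :
    mst G (Subgroup.zpowers t) ⊆ mst G (Subgroup.zpowers (t ^ m)) := by
  have htm : ∀ x : X, t ^ m • x ≠ x := by
    intro x hx
    have h1 : ∀ n : ℕ, 0 < n → ¬ (t ^ n • x = x) := by
      intro n hn h
      obtain ⟨y, hy⟩ := fix_of_pow_fix hG t n hn x h
      exact ht y hy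
    rcases lt_trichotomy m 0 with h | h | h
    · apply h1 m.natAbs (Int.natAbs_pos.2 hm)
      have e : ((m.natAbs : ℕ) : ℤ) = -m := by omega
      rw [← zpow_natCast, e, zpow_neg, inv_smul_eq_iff, hx]
    · exact hm h
    · apply h1 m.natAbs (Int.natAbs_pos.2 hm)
      have e : ((m.natAbs : ℕ) : ℤ) = m := by omega
      rw [← zpow_natCast, e, hx]
  intro w hw
  apply hw _ (mst_conv _) (axis_elt hG _ htm).1
  rintro _ ⟨k, rfl⟩ c hc C hC hne hA
  have h1 : c ∈ {y | t ^ k • y ∈ C} := by
    apply hc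
    · intro a ha b hb y hy
      refine hC _ ha _ hb _ ?_
      rw [hG.dist_smul, hG.dist_smul, hG.dist_smul]
      exact hy
    · obtain ⟨y, hy⟩ := hne
      refine ⟨(t ^ k)⁻¹ • y, ?_⟩
      change t ^ k • (t ^ k)⁻¹ • y ∈ C
      rwa [smul_inv_smul]
    · rintro _ ⟨l, rfl⟩ y hy
      have h2 := hA ((t ^ m) ^ l) ⟨l, rfl⟩ _ hy
      change t ^ k • (t ^ m) ^ l • y ∈ C
      have e : t ^ k * (t ^ m) ^ l = (t ^ m) ^ l * t ^ k := by
        rw [← zpow_mul, ← zpow_add, ← zpow_add, add_comm]
      rw [← mul_smul, e, mul_smul]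
      exact h2
  exact h1

/-- two elements of infinite order of a two-ended group have a common power -/
private theorem common_power {A : Subgroup H} (hA : InC ↥A) {g h : H} (hg : g ∈ A) (hh : h ∈ A)
    (ig : ∀ n : ℕ, 0 < n → g ^ n ≠ 1) (ih : ∀ n : ℕ, 0 < n → h ^ n ≠ 1) :
    ∃ n m : ℤ, n ≠ 0 ∧ m ≠ 0 ∧ g ^ n = h ^ m := by
  rcases hA with hf | ⟨z, -, hz⟩
  · exfalso
    obtain ⟨n, hn, e⟩ := isOfFinOrder_iff_pow_eq_one.1 (isOfFinOrder_of_finite (⟨g, hg⟩ : ↥A))
    exact ig n hn (congrArg Subtype.val e)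
  · have key : ∀ u : H, u ∈ A → (∀ n : ℕ, 0 < n → u ^ n ≠ 1) →
        ∃ n : ℕ, ∃ m : ℤ, 0 < n ∧ m ≠ 0 ∧ u ^ n = z.1 ^ m := by
      intro u hu iu
      obtain ⟨n, hn, -, hmem⟩ := Subgroup.exists_pow_mem_of_index_ne_zero hz.index_ne_zero
        (⟨u, hu⟩ : ↥A)
      obtain ⟨m, hm⟩ := hmem
      have e : u ^ n = z.1 ^ m := by
        have := congrArg Subtype.val hm
        simpa using this.symm
      refine ⟨n, m, hn, ?_, e⟩
      rintro rfl
      rw [zpow_zero] at e
      exact iu n hn e
    obtain ⟨n, m, hn, hm, e⟩ := key g hg ig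
    obtain ⟨n', m', hn', hm', e'⟩ := key h hh ih
    refine ⟨n * m', n' * m, mul_ne_zero (by exact_mod_cast hn.ne') hm',
      mul_ne_zero (by exact_mod_cast hn'.ne') hm, ?_⟩
    rw [zpow_mul, zpow_natCast, e, zpow_mul, zpow_natCast, e', ← zpow_mul, ← zpow_mul, mul_comm]

private theorem inf_of_hyp (hG : TAct H G) {t : H} (ht : ∀ x : X, t • x ≠ x) (n : ℕ) (hn : 0 < n) :
    t ^ n ≠ 1 := by
  intro e
  obtain ⟨x⟩ := hG.tree.connected.nonempty
  obtain ⟨y, hy⟩ := fix_of_pow_fix hG t n hn x (by rw [e, one_smul])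
  exact ht y hy

/-- a subgroup of finite index with a fixed vertex -/
private theorem fix_of_index (hG : TAct H G) {A B : Subgroup H}
    (hf : (B.subgroupOf A).FiniteIndex) {w : X} (hw : ∀ b ∈ B, b • w = w) :
    ∃ v : X, ∀ a ∈ A, a • v = v := by
  have hfin : Finite (↥A ⧸ B.subgroupOf A) := Subgroup.finite_quotient_of_finiteIndex
  obtain ⟨v, hv⟩ := fix_of_finite_inv hG {y | ∃ a ∈ A, y = a • w} (by
    apply (Set.finite_range (fun q : ↥A ⧸ B.subgroupOf A => (Quotient.out q).1 • w)).subset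
    rintro _ ⟨a, ha, rfl⟩
    refine ⟨QuotientGroup.mk (⟨a, ha⟩ : ↥A), ?_⟩
    have h1 : (QuotientGroup.mk (Quotient.out (QuotientGroup.mk (⟨a, ha⟩ : ↥A) :
        ↥A ⧸ B.subgroupOf A)) : ↥A ⧸ B.subgroupOf A) = QuotientGroup.mk (⟨a, ha⟩ : ↥A) :=
      Quotient.out_eq _
    have h2 := QuotientGroup.eq.1 h1
    have h3 := hw _ h2
    change ((Quotient.out (QuotientGroup.mk (⟨a, ha⟩ : ↥A) : ↥A ⧸ B.subgroupOf A)).1⁻¹ * a) • w = w
      at h3
    rw [mul_smul, inv_smul_eq_iff] at h3
    exact h3.symm) ⟨w, 1, A.one_mem, (one_smul _ _).symm⟩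
  refine ⟨v, fun a ha => hv a ?_⟩
  rintro _ ⟨b, hb, rfl⟩
  exact ⟨a * b, A.mul_mem ha hb, (mul_smul _ _ _).symm⟩

theorem hyp_iff_of_index (hG : TAct H G) {A B : Subgroup H} (hBA : B ≤ A)
    (hf : (B.subgroupOf A).FiniteIndex) : Hyp X B ↔ Hyp X A := by
  constructor
  · intro h w
    obtain ⟨b, hb, e⟩ := h w
    exact ⟨b, hBA hb, e⟩
  · intro h
    by_contra hno
    unfold Hyp at hno
    push Not at hno
    obtain ⟨w, hw⟩ := hno
    obtain ⟨v, hv⟩ := fix_of_index hG hf hw
    obtain ⟨a, ha, e⟩ := h v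
    exact e (hv a ha)

/-- a two-ended group without fixed vertex contains an element without fixed vertex -/
private theorem exists_hyp (hG : TAct H G) {A : Subgroup H} (hA : InC ↥A) (hn : Hyp X A) :
    ∃ t ∈ A, ∀ x : X, t • x ≠ x := by
  rcases hA with hf | ⟨z, -, hz⟩
  · exfalso
    have h1 : ((⊥ : Subgroup H).subgroupOf A).FiniteIndex := by
      have : Finite ↥A := hf
      infer_instance
    obtain ⟨x⟩ := hG.tree.connected.nonempty
    obtain ⟨v, hv⟩ := fix_of_index hG (w := x) h1 (fun b hb => by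
      rw [Subgroup.mem_bot.1 hb, one_smul])
    obtain ⟨a, ha, e⟩ := hn v
    exact e (hv a ha)
  · refine ⟨z.1, z.2, ?_⟩
    intro x hx
    have h1 : (Subgroup.zpowers z.1).subgroupOf A = Subgroup.zpowers z := by
      ext u
      rw [Subgroup.mem_subgroupOf]
      constructor
      · rintro ⟨k, hk⟩
        exact ⟨k, Subtype.ext (by simpa using hk)⟩
      · rintro ⟨k, rfl⟩
        exact ⟨k, by simp⟩
    have h2 : ((Subgroup.zpowers z.1).subgroupOf A).FiniteIndex := by
      rw [h1]
      exact hz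
    obtain ⟨v, hv⟩ := fix_of_index hG (w := x) h2 (by
      rintro _ ⟨k, rfl⟩
      have : z.1 ∈ stabilizer H x := hx
      exact (stabilizer H x).zpow_mem this k)
    obtain ⟨a, ha, e⟩ := hn v
    exact e (hv a ha)

private theorem mst_eq (hG : TAct H G) {A : Subgroup H} (hA : InC ↥A) {t : H} (htA : t ∈ A)
    (ht : ∀ x : X, t • x ≠ x) : mst G A = mst G (Subgroup.zpowers t) := by
  apply Set.Subset.antisymm
  · intro w hw
    apply hw _ (mst_conv _) (axis_elt hG t ht).1
    intro a ha c hc C hC hne hC'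
    obtain ⟨n, m, hn, hm, e⟩ := common_power hA
      (A.mul_mem (A.mul_mem (A.inv_mem ha) htA) ha) htA (g := a⁻¹ * t * a) (h := t)
      (by
        intro n hn e
        apply inf_of_hyp hG ht n hn
        have h1 : (a⁻¹ * t * a) ^ n = a⁻¹ * t ^ n * a := by
          have := conj_pow (i := n) (a := a⁻¹) (b := t)
          rwa [inv_inv] at this
        rw [h1] at e
        have : t ^ n = a * 1 * a⁻¹ := by
          rw [← e]
          group
        rw [this]
        group)
      (inf_of_hyp hG ht)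
    have h1 : c ∈ {y | a • y ∈ C} := by
      have h2 := mst_pow hG t ht m hm hc
      rw [← e] at h2
      apply h2
      · intro a' ha' b' hb' y hy
        refine hC _ ha' _ hb' _ ?_
        rw [hG.dist_smul, hG.dist_smul, hG.dist_smul]
        exact hy
      · obtain ⟨y, hy⟩ := hne
        refine ⟨a⁻¹ • y, ?_⟩
        change a • a⁻¹ • y ∈ C
        rwa [smul_inv_smul]
      · rintro _ ⟨l, rfl⟩ y hy
        have h3 : ((a⁻¹ * t * a) ^ n) ^ l = a⁻¹ * t ^ (n * l) * a := by
          rw [← zpow_mul]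
          have := conj_zpow (i := n * l) (a := a⁻¹) (b := t)
          rwa [inv_inv] at this
        change a • ((a⁻¹ * t * a) ^ n) ^ l • y ∈ C
        rw [h3, ← mul_smul]
        have h4 : a * (a⁻¹ * t ^ (n * l) * a) = t ^ (n * l) * a := by group
        rw [h4, mul_smul]
        exact hC' _ ⟨n * l, rfl⟩ _ hy
    exact h1
  · apply mst_mono
    rw [Subgroup.zpowers_le]
    exact htA

theorem axis (hG : TAct H G) (A : Subgroup H) (hA : InC ↥A) (hn : Hyp X A) :
    Conv G (mst G A) ∧ (mst G A).Nonempty ∧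
    (∀ w ∈ mst G A, ∀ a b c, G.Adj w a → G.Adj w b → G.Adj w c → a ∈ mst G A → b ∈ mst G A →
      c ∈ mst G A → a = b ∨ a = c ∨ b = c) ∧ FinOrb ↥A (mst G A) := by
  obtain ⟨t, htA, ht⟩ := exists_hyp hG hA hn
  have e := mst_eq hG hA htA ht
  obtain ⟨h1, h2, h3⟩ := axis_elt hG t ht
  refine ⟨mst_conv A, ?_, ?_, ?_⟩
  · rw [e]; exact h1
  · rw [e]; exact h2
  · rw [e]
    obtain ⟨F, hF, hFs, hc⟩ := FinOrb_iff.1 h3
    refine FinOrb_iff.2 ⟨F, hF, hFs, ?_⟩
    intro y hy
    obtain ⟨r, hr, ⟨g, hg⟩, hgr⟩ := hc y hy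
    exact ⟨r, hr, ⟨g, (Subgroup.zpowers_le.2 htA) hg⟩, hgr⟩

theorem axis_mono (hG : TAct H G) {A B : Subgroup H} (hA : InC ↥A) (hBA : B ≤ A) (hn : Hyp X B) :
    mst G B = mst G A := by
  have hB : InC ↥B := Pool.Agent.SAG.InC.mono hBA hA
  obtain ⟨t, htB, ht⟩ := exists_hyp hG hB hn
  rw [mst_eq hG hB htB ht, mst_eq hG hA (hBA htB) ht]

theorem finite_of_hyp (hG : TAct H G) {A B : Subgroup H} (hA : InC ↥A) (hn : Hyp X A) (hBA : B ≤ A)
    {w : X} (hB : ∀ b ∈ B, b • w = w) : Finite ↥B := by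
  obtain ⟨t, htA, ht⟩ := exists_hyp hG hA hn
  have hBC : InC ↥B := Pool.Agent.SAG.InC.mono hBA hA
  rcases hBC with hf | ⟨z, hz, -⟩
  · exact hf
  · exfalso
    obtain ⟨n, m, hn', hm, e⟩ := common_power hA htA (hBA z.2) (inf_of_hyp hG ht)
      (by
        intro k hk e
        exact hz k hk (Subtype.ext (by simpa using e)))
    have h1 : t ^ n • w = w := by
      rw [e]
      exact hB _ (B.zpow_mem z.2 m)
    have h2 : t ^ n.natAbs • w = w := by
      rcases le_total 0 n with h | h
      · have e : ((n.natAbs : ℕ) : ℤ) = n := by omega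
        rw [← zpow_natCast, e, h1]
      · have e : ((n.natAbs : ℕ) : ℤ) = -n := by omega
        rw [← zpow_natCast, e, zpow_neg, inv_smul_eq_iff, h1]
    obtain ⟨y, hy⟩ := fix_of_pow_fix hG t n.natAbs (Int.natAbs_pos.2 hn') w h2
    exact ht y hy

end

end Pool.Agent.BT
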