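import Pool.Agent.BT.Graph1

/-!
# BT: composition of bipartite moves on both sides
-/

namespace Pool.Agent.BT

open MulAction
open Pool.Agent.SAF (orbs FinOrb mk_eq_iff FinOrb_iff exists_rep)

/-- infinite stabiliser -/
def Heavy (H : Type) [Group H] {X : Type} [MulAction H X] (x : X) : Prop :=
  ¬ Finite ↥(stabilizer H x)

theorem Heavy.map {H X X' : Type} [Group H] [MulAction H X] [MulAction H X'] {F : X → X'}
    (hF : ∀ (h : H) (x : X), F (h • x) = h • F x) {x : X} (h : Heavy H x) : Heavy H (F x) :=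
  fun h' => h (finite_of_le (stab_le_of_equi hF x) h')

/-- `(f, q)` does not raise `mass I - mass U - mass W`, and in the case of equality cochains are
pulled back up to coboundaries. -/
def BRel (H : Type) [Group H] {U U' W W' : Type} [MulAction H U] [MulAction H U']
    [MulAction H W] [MulAction H W'] (f : U → U') (q : W → W') (I : Set (U × W)) : Prop :=
  (mass H ((fun i => (f i.1, q i.2)) '' I) - mass H (Set.univ : Set U') -
      mass H (Set.univ : Set W') ≤
    mass H I - mass H (Set.univ : Set U) - mass H (Set.univ : Set W)) ∧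
  (mass H I - mass H (Set.univ : Set U) - mass H (Set.univ : Set W) ≤
      mass H ((fun i => (f i.1, q i.2)) '' I) - mass H (Set.univ : Set U') -
      mass H (Set.univ : Set W') →
    ∀ φ : U × W → ZMod 2, (∀ i ∈ I, Heavy H i → φ i = 0) →
      ∃ (g : U → ZMod 2) (k : W → ZMod 2) (ψ : U' × W' → ZMod 2),
        (∀ x, Heavy H x → g x = 0) ∧ (∀ w, Heavy H w → k w = 0) ∧
        (∀ i ∈ (fun i : U × W => (f i.1, q i.2)) '' I, Heavy H i → ψ i = 0) ∧
        ∀ i ∈ I, φ i = ψ (f i.1, q i.2) + g i.1 + k i.2)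

section

variable {H U U' U'' W W' W'' : Type} [Group H] [MulAction H U] [MulAction H U']
  [MulAction H U''] [MulAction H W] [MulAction H W'] [MulAction H W'']

theorem BRel.of_move {I : Set (U × W)} {f : U → U'} {u u' : U} {z : W}
    (m : Move H I f u u' z) (hU : FinOrb H (Set.univ : Set U)) (hI : FinOrb H I)
    (hIs : ∀ (h : H) (i : U × W), i ∈ I → h • i ∈ I) : BRel H f (id : W → W) I := by
  have e0 : (fun i : U × W => (f i.1, (id : W → W) i.2)) = pm W f := rfl
  refine ⟨?_, fun e φ hφ => ?_⟩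
  · rw [e0]
    have := m.mass_le hU hI
    linarith
  · rw [e0] at e
    obtain ⟨g, ψ, hg, hψ, hs⟩ := m.exact hU hI hIs (by linarith) φ hφ
    refine ⟨g, fun _ => 0, ψ, hg, fun _ _ => rfl, hψ, fun i hi => ?_⟩
    rw [hs i hi, add_zero]
    rfl

theorem mass_swap {I : Set (U × W)} (hI : FinOrb H I)
    (hIs : ∀ (h : H) (i : U × W), i ∈ I → h • i ∈ I) :
    mass H (Prod.swap '' I) = mass H I :=
  mass_image_inj (F := Prod.swap) (fun _ _ => rfl) hI hIs
    (fun _ _ _ _ e => Prod.swap_injective e)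

theorem BRel.swap {I : Set (U × W)} {f : U → U'} {q : W → W'}
    (hf : ∀ (h : H) (x : U), f (h • x) = h • f x) (hq : ∀ (h : H) (x : W), q (h • x) = h • q x)
    (hI : FinOrb H I) (hIs : ∀ (h : H) (i : U × W), i ∈ I → h • i ∈ I)
    (m : BRel H q f (Prod.swap '' I)) : BRel H f q I := by
  have heq : ∀ (h : H) (x : U × W), (fun i : U × W => (f i.1, q i.2)) (h • x) =
      h • (fun i : U × W => (f i.1, q i.2)) x := by
    intro h x
    show (f (h • x.1), q (h • x.2)) = (h • f x.1, h • q x.2)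
    rw [hf, hq]
  have e1 : (fun i : W × U => (q i.1, f i.2)) '' (Prod.swap '' I) =
      Prod.swap '' ((fun i : U × W => (f i.1, q i.2)) '' I) := by
    rw [← Set.image_comp, ← Set.image_comp]
    rfl
  have e2 := mass_swap hI hIs
  have e3 := mass_swap (H := H) (I := (fun i : U × W => (f i.1, q i.2)) '' I)
    (FinOrb.image_equi heq hI) (by
      rintro h _ ⟨i, hi, rfl⟩
      exact ⟨h • i, hIs h i hi, heq h i⟩)
  obtain ⟨m1, m2⟩ := m
  rw [e1, e2, e3] at m1 m2
  refine ⟨by linarith, fun e φ hφ => ?_⟩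
  obtain ⟨g, k, ψ, hg, hk, hψ, hs⟩ := m2 (by linarith) (fun i => φ i.swap) (by
    rintro _ ⟨i, hi, rfl⟩ hh
    rw [Prod.swap_swap]
    apply hφ i hi
    exact Heavy.map (F := Prod.swap) (fun _ _ => rfl) hh)
  refine ⟨k, g, fun i => ψ i.swap, hk, hg, ?_, ?_⟩
  · intro i hi hh
    apply hψ
    · exact ⟨i, hi, rfl⟩
    · exact Heavy.map (F := Prod.swap) (fun _ _ => rfl) hh
  · intro i hi
    have := hs i.swap ⟨i, hi, rfl⟩
    rw [Prod.swap_swap] at this
    rw [this]
    show ψ (q i.2, f i.1) + g i.2 + k i.1 = ψ (q i.2, f i.1) + k i.1 + g i.2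
    ring

theorem BRel.trans {I : Set (U × W)} {f : U → U'} {q : W → W'} {f' : U' → U''} {q' : W' → W''}
    (hf : ∀ (h : H) (x : U), f (h • x) = h • f x) (hq : ∀ (h : H) (x : W), q (h • x) = h • q x)
    (m : BRel H f q I) (m' : BRel H f' q' ((fun i => (f i.1, q i.2)) '' I)) :
    BRel H (f' ∘ f) (q' ∘ q) I := by
  have e1 : (fun i : U' × W' => (f' i.1, q' i.2)) '' ((fun i : U × W => (f i.1, q i.2)) '' I) =
      (fun i : U × W => ((f' ∘ f) i.1, (q' ∘ q) i.2)) '' I := by
    rw [← Set.image_comp]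
    rfl
  obtain ⟨m1, m2⟩ := m
  obtain ⟨m1', m2'⟩ := m'
  rw [e1] at m1' m2'
  refine ⟨m1'.trans m1, fun e φ hφ => ?_⟩
  obtain ⟨g, k, ψ, hg, hk, hψ, hs⟩ := m2 (e.trans m1') φ hφ
  obtain ⟨g', k', ψ', hg', hk', hψ', hs'⟩ := m2' (m1.trans e) ψ hψ
  refine ⟨fun x => g' (f x) + g x, fun w => k' (q w) + k w, ψ', ?_, ?_, hψ', ?_⟩
  · intro x hx
    show g' (f x) + g x = 0
    rw [hg' _ (hx.map hf), hg x hx, add_zero]
  · intro x hx
    show k' (q x) + k x = 0
    rw [hk' _ (hx.map hq), hk x hx, add_zero]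
  · intro i hi
    rw [hs i hi, hs' _ ⟨i, hi, rfl⟩]
    show ψ' (f' (f i.1), q' (q i.2)) + g' (f i.1) + k' (q i.2) + g i.1 + k i.2 =
      ψ' (f' (f i.1), q' (q i.2)) + (g' (f i.1) + g i.1) + (k' (q i.2) + k i.2)
    ring

/-! ### the quotient by the relation generated by a pair -/

theorem genRel_smul {u u' : U} {x y : U} (h : H) (e : genRel H u u' x y) :
    genRel H u u' (h • x) (h • y) := by
  induction e with
  | rel x y e =>
    obtain ⟨k, rfl, rfl⟩ := e
    exact Relation.EqvGen.rel _ _ ⟨h * k, by rw [mul_smul], by rw [mul_smul]⟩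
  | refl x => exact Relation.EqvGen.refl _
  | symm x y _ ih => exact Relation.EqvGen.symm _ _ ih
  | trans x y w _ _ ih1 ih2 => exact Relation.EqvGen.trans _ _ _ ih1 ih2

/-- the quotient -/
def GQ (H : Type) [Group H] {U : Type} [MulAction H U] (u u' : U) : Type :=
  Quotient (Relation.EqvGen.setoid (fun a b : U => ∃ h : H, a = h • u ∧ b = h • u'))

/-- the quotient map -/
def gq (H : Type) [Group H] {U : Type} [MulAction H U] (u u' : U) : U → GQ H u u' :=
  Quotient.mk _

instance GQ.action (u u' : U) : MulAction H (GQ H u u') where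
  smul h := Quotient.map (fun x => h • x) (fun _ _ e => genRel_smul h e)
  one_smul := by
    intro x
    induction x using Quotient.inductionOn with
    | h a => exact congrArg (gq H u u') (one_smul H a)
  mul_smul := by
    intro h k x
    induction x using Quotient.inductionOn with
    | h a => exact congrArg (gq H u u') (mul_smul h k a)

theorem gq_smul (u u' : U) (h : H) (x : U) : gq H u u' (h • x) = h • gq H u u' x := rfl

theorem gq_surj (u u' : U) : Function.Surjective (gq H u u') := Quotient.mk_surjective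

theorem gq_eq {u u' x y : U} : gq H u u' x = gq H u u' y ↔ genRel H u u' x y := by
  unfold gq
  exact Quotient.eq (r := Relation.EqvGen.setoid (fun a b : U => ∃ h : H, a = h • u ∧ b = h • u'))

theorem gq_pair (u u' : U) : gq H u u' u = gq H u u' u' :=
  gq_eq.2 (Relation.EqvGen.rel _ _ ⟨1, by rw [one_smul], by rw [one_smul]⟩)

end

end Pool.Agent.BT
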