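import Pool.Agent.BT.Graph4

/-!
# BT: a connected graph has `bb ≥ - 1/|H|`
-/

namespace Pool.Agent.BT

open MulAction
open Pool.Agent.SAF (orbs FinOrb oc mk_eq_iff FinOrb_iff exists_rep)

theorem HG.conn_map {H V V' : Type} [Group H] [MulAction H V] [MulAction H V'] (G : HG H V)
    {f : V → V'} (hf : ∀ (h : H) (x : V), f (h • x) = h • f x) (hs : Function.Surjective f)
    (conn : ∀ x y, Relation.ReflTransGen G.E x y) :
    ∀ x y, Relation.ReflTransGen (G.map f hf).E x y := by
  intro x' y'
  obtain ⟨x, rfl⟩ := hs x'
  obtain ⟨y, rfl⟩ := hs y'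
  induction conn x y with
  | refl => exact Relation.ReflTransGen.refl
  | tail _ e ih => exact ih.tail ⟨_, _, rfl, rfl, e⟩

theorem bb_ge_aux {H : Type} [Group H] (n : ℕ) :
    ∀ (V : Type) [MulAction H V] (G : HG H V), FinOrb H G.darts →
      FinOrb H (Set.univ : Set V) → Nonempty V → (∀ x y, Relation.ReflTransGen G.E x y) →
      oc H G.darts ≤ n → - iw (⊤ : Subgroup H) ≤ G.bb := by
  induction n with
  | zero =>
    intro V _ G hD hV ne conn hn
    have hemp : G.darts = ∅ := by
      have h1 : (orbs H G.darts).ncard = 0 := Nat.le_zero.1 hn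
      rw [Set.ncard_eq_zero hD] at h1
      unfold orbs at h1
      exact Set.image_eq_empty.1 h1
    have hsub : ∀ x y : V, x = y := by
      intro x y
      induction conn x y with
      | refl => rfl
      | tail _ e ih =>
        rename_i b c _
        rw [ih]
        by_contra hne
        have : (b, c) ∈ G.darts := ⟨e, hne⟩
        rw [hemp] at this
        exact this.elim
    obtain ⟨v⟩ := ne
    have h1 : mass H (Set.univ : Set V) = iw (⊤ : Subgroup H) := by
      have h2 : orbs H (Set.univ : Set V) = {Quotient.mk'' v} := by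
        unfold orbs
        rw [Set.image_univ]
        ext q
        constructor
        · rintro ⟨x, rfl⟩
          show (Quotient.mk'' x : orbitRel.Quotient H V) = Quotient.mk'' v
          rw [hsub x v]
        · intro hq
          exact ⟨v, hq.symm⟩
      unfold mass
      rw [h2, finsum_mem_singleton, wq_out]
      unfold wq
      congr 1
      rw [eq_top_iff]
      intro h _
      exact hsub _ _
    have h3 : mass H G.darts = 0 := by
      rw [hemp]
      unfold mass orbs
      simp
    unfold HG.bb
    rw [h1, h3]
    linarith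
  | succ n ih =>
    intro V _ G hD hV ne conn hn
    by_cases hemp : G.darts = ∅
    · apply ih V G hD hV ne conn
      have : oc H G.darts = 0 := by
        unfold oc orbs
        rw [hemp]
        simp
      omega
    · obtain ⟨⟨u, u'⟩, hu⟩ := Set.nonempty_iff_ne_empty.2 hemp
      have m : GMove G (gq H u u') u u' :=
        ⟨gq_smul u u', gq_surj u u', fun x y e => gq_eq.1 e, gq_pair u u', Or.inl hu.1⟩
      have hV' : FinOrb H (Set.univ : Set (GQ H u u')) := by
        have := FinOrb.image_equi m.equi hV
        rwa [Set.image_univ, m.surj.range_eq] at this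
      have hD' := G.finOrb_darts_map hD (gq H u u') m.equi
      have h1 := (GRel.of_move G hD hV m).1
      refine le_trans ?_ h1
      obtain ⟨v⟩ := ne
      apply ih _ _ hD' hV' ⟨gq H u u' v⟩ (G.conn_map m.equi m.surj conn)
      have h2 : oc H (G.map (gq H u u') m.equi).darts < oc H G.darts := by
        classical
        have hch : ∀ p' : GQ H u u' × GQ H u u', ∃ p : V × V,
            p' ∈ (G.map (gq H u u') m.equi).darts →
              p ∈ G.darts ∧ gq H u u' p.1 = p'.1 ∧ gq H u u' p.2 = p'.2 := by
          intro p'
          by_cases hp : p' ∈ (G.map (gq H u u') m.equi).darts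
          · obtain ⟨⟨x, y, e1, e2, e⟩, hne⟩ := hp
            refine ⟨(x, y), fun _ => ⟨⟨e, fun h => hne ?_⟩, e1, e2⟩⟩
            rw [← e1, ← e2]
            exact congrArg _ h
          · exact ⟨(u, u'), fun h => absurd h hp⟩
        choose p hp using hch
        apply Pool.Agent.SAF.oc_lt_of_inj hD p (fun a ha => (hp a ha).1) ?_ hu
        · intro a ha h e
          obtain ⟨_, e1, e2⟩ := hp a ha
          apply ha.2
          rw [← e1, ← e2]
          have e3 : h • (p a).1 = u := congrArg Prod.fst e
          have e4 : h • (p a).2 = u' := congrArg Prod.snd e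
          have e5 : (p a).1 = h⁻¹ • u := by rw [← e3, inv_smul_smul]
          have e6 : (p a).2 = h⁻¹ • u' := by rw [← e4, inv_smul_smul]
          rw [e5, e6, m.equi, m.equi, m.fu]
        · rintro a ha b hb ⟨h, e⟩
          obtain ⟨_, e1, e2⟩ := hp a ha
          obtain ⟨_, e1', e2'⟩ := hp b hb
          refine ⟨h, Prod.ext ?_ ?_⟩
          · show h • a.1 = b.1
            rw [← e1, ← e1', ← m.equi]
            exact congrArg (fun q : V × V => gq H u u' q.1) e
          · show h • a.2 = b.2
            rw [← e2, ← e2', ← m.equi]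
            exact congrArg (fun q : V × V => gq H u u' q.2) e
      omega

/-- COROLLARY CH -/
theorem HG.bb_ge {H V : Type} [Group H] [MulAction H V] (G : HG H V) (hD : FinOrb H G.darts)
    (hV : FinOrb H (Set.univ : Set V)) (ne : Nonempty V)
    (conn : ∀ x y, Relation.ReflTransGen G.E x y) : - iw (⊤ : Subgroup H) ≤ G.bb :=
  bb_ge_aux _ V G hD hV ne conn le_rfl

end Pool.Agent.BT
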