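import Pool.Agent.BT.TM

/-!
# BT: graphs in which every edge outside a set `I` is a bridge relative to `I`

`Br E I x y`: there is `σ`, zero on `I`, whose coboundary is the indicator of the edge `x y`.
`ext_exists`: functions on edges which are coboundaries on `I` are coboundaries.
`mass_rooted`: if `I` is not empty and has mass zero then vertices and edges have the same mass.
`mass_unrooted`: if `I` is empty, the graph is a tree.
-/

namespace Pool.Agent.BT

open MulAction
open Pool.Agent.SAF (orbs FinOrb mk_eq_iff FinOrb_iff TAct Ori InC isTree_of_cut)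

open Classical in
/-- the edge `x y` is a bridge relative to `I` -/
def Br {V : Type} (E : V → V → Prop) (I : Set V) (x y : V) : Prop :=
  ∃ σ : V → ZMod 2, (∀ z ∈ I, σ z = 0) ∧
    ∀ a b, E a b → σ a + σ b = if (a = x ∧ b = y) ∨ (a = y ∧ b = x) then 1 else 0

section Ext

variable {V : Type}

theorem Br.symm {E : V → V → Prop} {I : Set V} {x y : V} (h : Br E I x y) : Br E I y x := by
  obtain ⟨σ, h1, h2⟩ := h
  refine ⟨σ, h1, fun a b hab => ?_⟩
  rw [h2 a b hab]
  congr 1
  exact propext ⟨fun h => h.symm.imp id id, fun h => h.symm.imp id id⟩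

/-- (BR1) -/
theorem Br.not_both {E : V → V → Prop} {I : Set V} {x y : V} (h : Br E I x y) (hE : E x y)
    (hx : x ∈ I) (hy : y ∈ I) : False := by
  obtain ⟨σ, h1, h2⟩ := h
  have := h2 x y hE
  rw [h1 x hx, h1 y hy, if_pos (Or.inl ⟨rfl, rfl⟩)] at this
  simp at this

theorem walk_sum_d {G : SimpleGraph V} (σ : V → ZMod 2) {a b : V} (w : G.Walk a b) :
    (w.edges.map (Sym2.lift ⟨fun x y => σ x + σ y, fun _ _ => add_comm _ _⟩)).sum =
      σ a + σ b := by
  induction w with
  | nil => simp [CharTwo.add_self_eq_zero]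
  | cons _ w ih =>
    rw [SimpleGraph.Walk.edges_cons, List.map_cons, List.sum_cons, ih, Sym2.lift_mk]
    simp only
    have h2 : ∀ x y z : ZMod 2, x + y + (y + z) = x + z := by decide
    exact h2 _ _ _

theorem sum_ind_count {T : Type} [DecidableEq T] (l : List T) (m : T) :
    (l.map (fun s => if s = m then (1 : ZMod 2) else 0)).sum = (l.count m : ZMod 2) := by
  induction l with
  | nil => simp
  | cons a l ih =>
    rw [List.map_cons, List.sum_cons, ih, List.count_cons]
    by_cases h : a = m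
    · rw [if_pos h, h]
      simp [add_comm]
    · rw [if_neg h]
      simp [h]

variable {P : Set V} {E : V → V → Prop} {I : Set V}

open Classical in
theorem ext_exists
    (E_symm : ∀ x y, E x y → E y x) (E_irr : ∀ x, ¬ E x x) (E_P : ∀ x y, E x y → x ∈ P)
    (conn : ∀ x ∈ P, ∀ y ∈ P, Relation.ReflTransGen E x y) (I_P : I ⊆ P)
    (hσ : ∀ x y, E x y → (x ∈ I ∧ y ∈ I) ∨ Br E I x y)
    (h : V → V → ZMod 2) (h_symm : ∀ x y, h x y = h y x)
    (g0 : V → ZMod 2) (hg0 : ∀ x y, E x y → x ∈ I → y ∈ I → h x y = g0 x + g0 y) :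
    ∃ g : V → ZMod 2, (∀ x ∈ I, g x = g0 x) ∧ ∀ x y, E x y → h x y = g x + g y := by
  by_cases hP : P.Nonempty
  swap
  · refine ⟨g0, fun _ _ => rfl, fun x y e => ?_⟩
    exact (hP ⟨x, E_P x y e⟩).elim
  obtain ⟨x0, hx0, hx0I⟩ : ∃ x0 ∈ P, I.Nonempty → x0 ∈ I := by
    by_cases hI : I.Nonempty
    · obtain ⟨i, hi⟩ := hI
      exact ⟨i, I_P hi, fun _ => hi⟩
    · obtain ⟨i, hi⟩ := hP
      exact ⟨i, hi, fun h => (hI h).elim⟩
  let G : SimpleGraph V :=
    { Adj := E
      symm := ⟨fun x y h => E_symm x y h⟩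
      loopless := ⟨fun x h => E_irr x h⟩ }
  have hreach : ∀ x ∈ P, G.Reachable x0 x := by
    intro x hx
    induction conn x0 hx0 x hx with
    | refl => exact SimpleGraph.Reachable.refl _
    | tail _ hbc ih =>
      exact (ih (E_P _ _ hbc)).trans (SimpleGraph.Adj.reachable (G := G) hbc)
  let k : Sym2 V → ZMod 2 := Sym2.lift ⟨fun x y => h x y + g0 x + g0 y, fun x y => by
    change h x y + g0 x + g0 y = h y x + g0 y + g0 x
    rw [h_symm x y]; ring⟩
  have hk : ∀ x y, k s(x, y) = h x y + g0 x + g0 y := fun _ _ => rfl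
  have key : ∀ (a b : V) (w : G.Walk a b), (a = b ∨ (a ∈ I ∧ b ∈ I)) →
      (w.edges.map k).sum = 0 := by
    intro a b w hab
    rw [Finset.sum_list_map_count]
    apply Finset.sum_eq_zero
    intro m hm
    rw [List.mem_toFinset] at hm
    have hmE := w.edges_subset_edgeSet hm
    induction m using Sym2.ind with
    | _ x y =>
    rw [SimpleGraph.mem_edgeSet] at hmE
    rcases hσ x y hmE with ⟨hx, hy⟩ | ⟨σ, h1, h2⟩
    · rw [hk, hg0 x y hmE hx hy]
      have h3 : ∀ x y : ZMod 2, x + y + x + y = 0 := by decide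
      rw [h3, smul_zero]
    · have h3 : (w.edges.count s(x, y) : ZMod 2) = 0 := by
        rw [← sum_ind_count]
        have h4 : w.edges.map (fun s => if s = s(x, y) then (1 : ZMod 2) else 0) =
            w.edges.map (Sym2.lift ⟨fun x y => σ x + σ y, fun _ _ => add_comm _ _⟩) := by
          apply List.map_congr_left
          intro m' hm'
          have hmE' := w.edges_subset_edgeSet hm'
          induction m' using Sym2.ind with
          | _ a b =>
          rw [SimpleGraph.mem_edgeSet] at hmE'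
          rw [Sym2.lift_mk]
          simp only
          rw [h2 a b hmE']
          congr 1
          exact propext Sym2.eq_iff
        rw [h4, walk_sum_d]
        rcases hab with rfl | ⟨ha, hb⟩
        · exact CharTwo.add_self_eq_zero _
        · rw [h1 a ha, h1 b hb, add_zero]
      rw [nsmul_eq_mul, h3, zero_mul]
  let S : ∀ x : V, ZMod 2 := fun x =>
    if hx : x ∈ P then ((Classical.choice (hreach x hx)).edges.map k).sum else 0
  have hS : ∀ x (hx : x ∈ P), S x = ((Classical.choice (hreach x hx)).edges.map k).sum := by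
    intro x hx
    exact dif_pos hx
  refine ⟨fun x => S x + g0 x, ?_, ?_⟩
  · intro x hx
    have h1 := key x0 x (Classical.choice (hreach x (I_P hx))) (Or.inr ⟨hx0I ⟨x, hx⟩, hx⟩)
    change S x + g0 x = g0 x
    rw [hS x (I_P hx), h1, zero_add]
  · intro x y e
    have hx := E_P x y e
    have hy := E_P y x (E_symm x y e)
    have h1 := key x0 x0 (((Classical.choice (hreach x hx)).concat (v := x) (w := y) e).append
      (Classical.choice (hreach y hy)).reverse) (Or.inl rfl)
    rw [SimpleGraph.Walk.edges_append, SimpleGraph.Walk.edges_concat, List.map_append,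
      List.sum_append, SimpleGraph.Walk.edges_reverse, List.map_reverse, List.sum_reverse,
      List.concat_eq_append, List.map_append, List.sum_append, List.map_singleton,
      List.sum_singleton, ← hS x hx, ← hS y hy, hk] at h1
    change h x y = S x + g0 x + (S y + g0 y)
    have h2 : ∀ s t a b c : ZMod 2, s + (c + a + b) + t = 0 → c = s + a + (t + b) := by decide
    exact h2 _ _ _ _ _ h1

/-! ### the root side of a bridge -/

/-- a function without coboundary is constant -/
theorem const_of_conn {τ : V → ZMod 2} (hτ : ∀ a b, E a b → τ a = τ b) {x y : V}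
    (h : Relation.ReflTransGen E x y) : τ x = τ y := by
  induction h with
  | refl => rfl
  | tail _ e ih => rw [ih, hτ _ _ e]

open Classical in
/-- (v, u) points to the root: `u` separates `v` from `I` -/
def Nx (E : V → V → Prop) (I : Set V) (v u : V) : Prop :=
  E v u ∧ ∃ σ : V → ZMod 2, (∀ z ∈ I, σ z = 0) ∧ σ v = 1 ∧
    ∀ a b, E a b → σ a + σ b = if (a = v ∧ b = u) ∨ (a = u ∧ b = v) then 1 else 0

theorem Nx.br {v u : V} (h : Nx E I v u) : Br E I v u :=
  ⟨h.2.choose, h.2.choose_spec.1, h.2.choose_spec.2.2⟩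

theorem nx_unique (I_ne : ∀ v u, E v u → ∃ i ∈ I, Relation.ReflTransGen E v i) {v u u' : V}
    (h : Nx E I v u) (h' : Nx E I v u') : u = u' := by
  by_contra hne
  obtain ⟨hE, σ, h1, h2, h3⟩ := h
  obtain ⟨hE', σ', h1', h2', h3'⟩ := h'
  obtain ⟨i, hi, hc⟩ := I_ne v u hE
  have hτ : ∀ a b, E a b → (fun x => σ x * σ' x + σ x + σ' x) a =
      (fun x => σ x * σ' x + σ x + σ' x) b := by
    intro a b hab
    change σ a * σ' a + σ a + σ' a = σ b * σ' b + σ b + σ' b
    have e1 := h3 a b hab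
    have e2 := h3' a b hab
    have k0 : ∀ x y : ZMod 2, x + y = 0 → x = y := by decide
    have kk : ∀ x y : ZMod 2, x = 1 → x * y + x + y = 1 := by decide
    have kk' : ∀ x y : ZMod 2, y = 1 → x * y + x + y = 1 := by decide
    by_cases c1 : (a = v ∧ b = u) ∨ (a = u ∧ b = v)
    · -- the edge is v u, so not v u'
      have c2 : ¬ ((a = v ∧ b = u') ∨ (a = u' ∧ b = v)) := by
        rintro (⟨c3, c4⟩ | ⟨c3, c4⟩)
        · rcases c1 with ⟨_, c5⟩ | ⟨c5, c6⟩
          · exact hne (c5.symm.trans c4)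
          · exact hne (by rw [← c5, c3, ← c6, c4])
        · rcases c1 with ⟨c5, c6⟩ | ⟨c5, c6⟩
          · exact hne (by rw [← c6, c4, ← c5, c3])
          · exact hne (c5.symm.trans c3)
      rw [if_neg c2] at e2
      have e3 := k0 _ _ e2
      have e4 : σ' a = 1 := by
        rcases c1 with ⟨c5, c6⟩ | ⟨c5, c6⟩
        · rw [c5, h2']
        · rw [e3, c6, h2']
      rw [kk' _ _ e4, kk' _ _ (e3 ▸ e4)]
    · rw [if_neg c1] at e1
      have e3 := k0 _ _ e1
      by_cases c2 : (a = v ∧ b = u') ∨ (a = u' ∧ b = v)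
      · have e4 : σ a = 1 := by
          rcases c2 with ⟨c5, c6⟩ | ⟨c5, c6⟩
          · rw [c5, h2]
          · rw [e3, c6, h2]
        rw [kk _ _ e4, kk _ _ (e3 ▸ e4)]
      · rw [if_neg c2] at e2
        rw [e3, k0 _ _ e2]
  have h5 := const_of_conn hτ hc
  change σ v * σ' v + σ v + σ' v = σ i * σ' i + σ i + σ' i at h5
  rw [h2, h2', h1 i hi, h1' i hi] at h5
  revert h5
  decide

theorem nx_exists (E_symm : ∀ x y, E x y → E y x)
    (hσ : ∀ x y, E x y → (x ∈ I ∧ y ∈ I) ∨ Br E I x y) {v i : V} (hv : v ∉ I)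
    (hi : i ∈ I) (hc : Relation.ReflTransGen E i v) : ∃ u, Nx E I v u := by
  have key : (∃ u, Nx E I v u) ∨ (v ≠ v ∧ ∀ τ : V → ZMod 2, (∀ z ∈ I, τ z = 0) →
      (∀ a b, E a b → a ≠ v → b ≠ v → τ a = τ b) → τ v = 0) := by
    have : ∀ x, Relation.ReflTransGen E i x → (∃ u, Nx E I v u) ∨ (x ≠ v ∧
        ∀ τ : V → ZMod 2, (∀ z ∈ I, τ z = 0) →
        (∀ a b, E a b → a ≠ v → b ≠ v → τ a = τ b) → τ x = 0) := by
      intro x hx
      induction hx with
      | refl =>
        right
        refine ⟨?_, fun τ hτ _ => hτ i hi⟩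
        rintro rfl
        exact hv hi
      | tail _ hbc ih =>
        rename_i b c _
        rcases ih with ih | ⟨hbv, ih⟩
        · exact Or.inl ih
        · by_cases hcv : c = v
          · left
            rw [hcv] at hbc
            rcases hσ v b (E_symm _ _ hbc) with h | ⟨σ, h1, h2⟩
            · exact (hv h.1).elim
            · refine ⟨b, E_symm _ _ hbc, σ, h1, ?_, h2⟩
              have h3 : σ b = 0 := by
                apply ih σ h1
                intro a a' haa' hav ha'v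
                have h4 := h2 a a' haa'
                rw [if_neg (by
                  rintro (⟨h5, -⟩ | ⟨-, h5⟩)
                  · exact hav h5
                  · exact ha'v h5)] at h4
                have k0 : ∀ x y : ZMod 2, x + y = 0 → x = y := by decide
                exact k0 _ _ h4
              have h4 := h2 v b (E_symm _ _ hbc)
              rw [if_pos (Or.inl ⟨rfl, rfl⟩), h3, add_zero] at h4
              exact h4
          · right
            refine ⟨hcv, fun τ hτ hτ2 => ?_⟩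
            rw [← hτ2 _ _ hbc hbv hcv]
            exact ih τ hτ hτ2
    exact this v hc
  rcases key with h | h
  · exact h
  · exact (h.1 rfl).elim

theorem nx_or {v u : V} (hE : E v u) (E_symm : ∀ x y, E x y → E y x) (h : Br E I v u) :
    Nx E I v u ∨ Nx E I u v := by
  obtain ⟨σ, h1, h2⟩ := h
  have h3 := h2 v u hE
  rw [if_pos (Or.inl ⟨rfl, rfl⟩)] at h3
  have k0 : ∀ x y : ZMod 2, x + y = 1 → x = 1 ∨ y = 1 := by decide
  rcases k0 _ _ h3 with h4 | h4
  · exact Or.inl ⟨hE, σ, h1, h4, h2⟩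
  · refine Or.inr ⟨E_symm _ _ hE, σ, h1, h4, fun a b hab => ?_⟩
    rw [h2 a b hab]
    congr 1
    exact propext ⟨fun h => h.symm.imp id id, fun h => h.symm.imp id id⟩

open Classical in
theorem nx_not_both (I_ne : ∀ v u, E v u → ∃ i ∈ I, Relation.ReflTransGen E v i) {v u : V}
    (h : Nx E I v u) (h' : Nx E I u v) : False := by
  obtain ⟨hE, σ, h1, h2, h3⟩ := h
  obtain ⟨hE', σ', h1', h2', h3'⟩ := h'
  obtain ⟨i, hi, hc⟩ := I_ne v u hE
  have hτ : ∀ a b, E a b → (fun x => σ x + σ' x) a = (fun x => σ x + σ' x) b := by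
    intro a b hab
    change σ a + σ' a = σ b + σ' b
    have e1 := h3 a b hab
    have e2 := h3' a b hab
    have e3 : (if (a = u ∧ b = v) ∨ (a = v ∧ b = u) then (1 : ZMod 2) else 0) =
        if (a = v ∧ b = u) ∨ (a = u ∧ b = v) then 1 else 0 := by
      congr 1
      exact propext ⟨fun h => h.symm.imp id id, fun h => h.symm.imp id id⟩
    have e4 : σ a + σ b = σ' a + σ' b := by
      rw [e1, e2]
      convert e3.symm
    have k0 : ∀ x y z w : ZMod 2, x + y = z + w → x + z = y + w := by decide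
    exact k0 _ _ _ _ e4
  have h5 := const_of_conn hτ hc
  change σ v + σ' v = σ i + σ' i at h5
  have h6 : σ' v = 0 := by
    have := h3' u v hE'
    rw [if_pos (Or.inl ⟨rfl, rfl⟩), h2'] at this
    have k0 : ∀ x : ZMod 2, 1 + x = 1 → x = 0 := by decide
    exact k0 _ this
  rw [h2, h6, h1 i hi, h1' i hi] at h5
  revert h5
  decide

end Ext

section Mass

variable {H V : Type} [Group H] [MulAction H V] {P : Set V} {E : V → V → Prop} {I : Set V}

theorem Br.smul (I_smul : ∀ (h : H) (x : V), x ∈ I → h • x ∈ I)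
    (E_smul : ∀ (h : H) (x y : V), E x y → E (h • x) (h • y)) {x y : V} (hb : Br E I x y)
    (h : H) : Br E I (h • x) (h • y) := by
  obtain ⟨σ, h1, h2⟩ := hb
  refine ⟨fun z => σ (h⁻¹ • z), fun z hz => h1 _ (I_smul _ _ hz), fun a b hab => ?_⟩
  change σ (h⁻¹ • a) + σ (h⁻¹ • b) = _
  rw [h2 _ _ (E_smul h⁻¹ _ _ hab)]
  congr 1
  simp only [inv_smul_eq_iff]

theorem Nx.smul (I_smul : ∀ (h : H) (x : V), x ∈ I → h • x ∈ I)
    (E_smul : ∀ (h : H) (x y : V), E x y → E (h • x) (h • y)) {x y : V} (hb : Nx E I x y)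
    (h : H) : Nx E I (h • x) (h • y) := by
  obtain ⟨hE, σ, h1, h2, h3⟩ := hb
  refine ⟨E_smul _ _ _ hE, fun z => σ (h⁻¹ • z), fun z hz => h1 _ (I_smul _ _ hz), ?_,
    fun a b hab => ?_⟩
  · change σ (h⁻¹ • h • x) = 1
    rw [inv_smul_smul, h2]
  · change σ (h⁻¹ • a) + σ (h⁻¹ • b) = _
    rw [h3 _ _ (E_smul h⁻¹ _ _ hab)]
    congr 1
    simp only [inv_smul_eq_iff]

theorem mass_zero_of {s : Set V} (hs : FinOrb H s) (h0 : ∀ x ∈ s, wq H x = 0) :
    mass H s = 0 := by
  rw [mass_eq_sum hs]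
  apply Finset.sum_eq_zero
  intro q hq
  rw [Set.Finite.mem_toFinset] at hq
  obtain ⟨x, hx, rfl⟩ := hq
  change wq H (Quotient.out (Quotient.mk'' x)) = 0
  rw [wq_out, h0 x hx]

/-- rooted case -/
theorem mass_rooted
    (E_symm : ∀ x y, E x y → E y x) (E_P : ∀ x y, E x y → x ∈ P)
    (conn : ∀ x ∈ P, ∀ y ∈ P, Relation.ReflTransGen E x y) (I_P : I ⊆ P) (I_ne : I.Nonempty)
    (I_smul : ∀ (h : H) (x : V), x ∈ I → h • x ∈ I)
    (P_smul : ∀ (h : H) (x : V), x ∈ P → h • x ∈ P)
    (E_smul : ∀ (h : H) (x y : V), E x y → E (h • x) (h • y))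
    (hσ : ∀ x y, E x y → (x ∈ I ∧ y ∈ I ∧ wq H (x, y) = 0) ∨ Br E I x y)
    (hI : ∀ x ∈ I, wq H x = 0)
    (finP : FinOrb H P) (finE : FinOrb H {p : V × V | E p.1 p.2}) :
    mass H P = mass H {p : V × V | E p.1 p.2} / 2 := by
  classical
  obtain ⟨i, hi⟩ := I_ne
  have hI_ne : ∀ v u, E v u → ∃ i ∈ I, Relation.ReflTransGen E v i :=
    fun v u e => ⟨i, hi, conn v (E_P _ _ e) i (I_P hi)⟩
  have hσ' : ∀ x y, E x y → (x ∈ I ∧ y ∈ I) ∨ Br E I x y := fun x y e =>
    (hσ x y e).imp (fun h => ⟨h.1, h.2.1⟩) id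
  -- vertices
  have e1 : P = I ∪ (P \ I) := (Set.union_sdiff_cancel I_P).symm
  have f1 : FinOrb H I := finP.mono I_P
  have f2 : FinOrb H (P \ I) := finP.mono Set.sdiff_subset
  have s2 : ∀ (h : H) (x : V), x ∈ P \ I → h • x ∈ P \ I := by
    rintro h x ⟨hx, hx2⟩
    refine ⟨P_smul h x hx, fun hx3 => hx2 ?_⟩
    have := I_smul h⁻¹ _ hx3
    rwa [inv_smul_smul] at this
  have m1 : mass H P = mass H (P \ I) := by
    conv_lhs => rw [e1]
    rw [mass_union f1 f2 I_smul (fun x hx hx2 => hx2.2 hx), mass_zero_of f1 hI, zero_add]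
  -- edges
  let N : Set (V × V) := {p | Nx E I p.1 p.2}
  have hNsub : N ⊆ {p : V × V | E p.1 p.2} := fun p hp => hp.1
  have fN : FinOrb H N := finE.mono hNsub
  have sN : ∀ (h : H) (p : V × V), p ∈ N → h • p ∈ N := fun h p hp =>
    Nx.smul I_smul E_smul hp h
  let Z : Set (V × V) := {p | E p.1 p.2 ∧ p.1 ∈ I ∧ p.2 ∈ I}
  have fZ : FinOrb H Z := finE.mono (fun p hp => hp.1)
  have sZ : ∀ (h : H) (p : V × V), p ∈ Z → h • p ∈ Z := fun h p hp =>
    ⟨E_smul _ _ _ hp.1, I_smul _ _ hp.2.1, I_smul _ _ hp.2.2⟩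
  have mZ : mass H Z = 0 := by
    apply mass_zero_of fZ
    rintro ⟨x, y⟩ ⟨h1, h2, h3⟩
    rcases hσ x y h1 with h | h
    · exact h.2.2
    · exact (h.not_both h1 h2 h3).elim
  have e2 : {p : V × V | E p.1 p.2} = Z ∪ (N ∪ Prod.swap '' N) := by
    ext ⟨x, y⟩
    constructor
    · intro h
      rcases hσ' x y h with h1 | h1
      · exact Or.inl ⟨h, h1⟩
      · right
        rcases nx_or h E_symm h1 with h2 | h2
        · exact Or.inl h2
        · exact Or.inr ⟨(y, x), h2, rfl⟩
    · rintro (h | h | ⟨⟨a, b⟩, h, e⟩)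
      · exact h.1
      · exact h.1
      · obtain ⟨rfl, rfl⟩ := Prod.mk.inj e
        exact E_symm _ _ h.1
  have fNs : FinOrb H (Prod.swap '' N) := FinOrb.image_equi (F := Prod.swap) (fun _ _ => rfl) fN
  have m2 := mass_prod_swap fN sN
  have m3 : mass H (N ∪ Prod.swap '' N) = mass H N + mass H (Prod.swap '' N) := by
    apply mass_union fN fNs sN
    rintro ⟨x, y⟩ h1 ⟨⟨a, b⟩, h2, e⟩
    obtain ⟨rfl, rfl⟩ := Prod.mk.inj e
    exact nx_not_both hI_ne h1 h2
  have fU : FinOrb H (N ∪ Prod.swap '' N) := by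
    have : orbs H (N ∪ Prod.swap '' N) = orbs H N ∪ orbs H (Prod.swap '' N) :=
      Set.image_union _ _ _
    unfold FinOrb
    rw [this]
    exact fN.union fNs
  have m4 : mass H {p : V × V | E p.1 p.2} = 2 * mass H N := by
    rw [e2, mass_union fZ fU sZ, mZ, m3, m2]
    · ring
    · rintro ⟨x, y⟩ ⟨h1, h2, h3⟩ (h | ⟨⟨a, b⟩, h, e⟩)
      · exact h.br.not_both h1 h2 h3
      · obtain ⟨rfl, rfl⟩ := Prod.mk.inj e
        exact h.br.not_both h.1 h3 h2
  have m5 : mass H N = mass H (P \ I) := by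
    rw [← mass_image_inj (F := fun p : V × V => p.1) (fun _ _ => rfl) fN sN (by
      rintro ⟨a, b⟩ h1 ⟨a', b'⟩ h2 (e : a = a')
      subst e
      exact Prod.ext rfl (nx_unique hI_ne h1 h2))]
    congr 1
    ext v
    constructor
    · rintro ⟨⟨a, b⟩, h, rfl⟩
      refine ⟨E_P _ _ h.1, fun hv => ?_⟩
      obtain ⟨σ, h1, h2, -⟩ := h.2
      have h3 : σ a = 0 := h1 a hv
      have h4 : σ a = 1 := h2
      rw [h3] at h4
      revert h4
      decide
    · rintro ⟨hv, hvI⟩
      obtain ⟨u, hu⟩ := nx_exists E_symm hσ' hvI hi (conn i (I_P hi) v hv)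
      exact ⟨(v, u), hu, rfl⟩
  rw [m1, m4, m5]
  ring

/-- unrooted case -/
theorem mass_unrooted
    (E_symm : ∀ x y, E x y → E y x) (E_irr : ∀ x, ¬ E x x) (E_P : ∀ x y, E x y → x ∈ P)
    (ne : P.Nonempty) (conn : ∀ x ∈ P, ∀ y ∈ P, Relation.ReflTransGen E x y)
    (P_smul : ∀ (h : H) (x : V), x ∈ P → h • x ∈ P)
    (E_smul : ∀ (h : H) (x y : V), E x y → E (h • x) (h • y))
    (noinv : ∀ (h : H) (x y : V), E x y → ¬ (h • x = y ∧ h • y = x))
    (hσ : ∀ x y, E x y → Br E ∅ x y)
    (finP : FinOrb H P) (finE : FinOrb H {p : V × V | E p.1 p.2}) (hC : InC H) :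
    mass H P - mass H {p : V × V | E p.1 p.2} / 2 = iw (⊤ : Subgroup H) := by
  apply tree_mass_rel P E E_symm E_irr E_P P_smul E_smul ne conn _ noinv finP finE hC
  intro v w e
  obtain ⟨σ, -, h2⟩ := hσ v w e
  refine ⟨σ, ?_, ?_⟩
  · intro h
    have h3 := h2 v w e
    rw [if_pos (Or.inl ⟨rfl, rfl⟩), h, CharTwo.add_self_eq_zero] at h3
    revert h3
    decide
  · intro a b hab hne
    by_contra hcon
    have h3 := h2 a b hab
    rw [if_neg hcon] at h3
    apply hne
    have k0 : ∀ x y : ZMod 2, x + y = 0 → x = y := by decide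
    exact k0 _ _ h3

end Mass

end Pool.Agent.BT
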