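import Pool.Agent.BT.PX
import Pool.Agent.BT.Ext
import Pool.Agent.SAF.A11

/-!
# Bounded torsion: pre-complexes, systems of subtrees

`PQ`: pentagon complexes without condition on the stabilisers (needed for the quotient by the line
arrows). `JS`, `Sy`: systems of subtrees of a decomposition. Critical complexes: see `PCrit`.
-/

namespace Pool.Agent.BT

open MulAction
open Pool.Agent.SAF (InC orbs FinOrb oc Decomp SAn SA Conv hull)

/-- finite subgroups have at most `M` elements -/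
def Bd (M : ℕ) (H : Type) [Group H] : Prop := ∀ A : Subgroup H, Finite ↥A → Nat.card ↥A ≤ M

/-! ### Pre-complexes -/

/-- pentagon complexes without condition on the stabilisers -/
structure PQ (H V : Type) [Group H] [MulAction H V] where
  ar : V → V → Prop
  rk : V → ℕ
  I : Type
  finI : Finite I
  pt : I → Fin 5 → V
  ar_rk : ∀ v a, ar v a → rk a < rk v
  ar_smul : ∀ (h : H) (v a : V), ar v a → ar (h • v) (h • a)
  rk_smul : ∀ (h : H) (v : V), rk (h • v) = rk v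
  two : ∀ v a b c, ar v a → ar v b → ar v c → a = b ∨ b = c ∨ a = c
  pt_E : ∀ i j, ar (pt i j) (pt i (j + 1)) ∨ ar (pt i (j + 1)) (pt i j)
  ne : Nonempty V
  conn : ∀ x y, Relation.ReflTransGen (fun a b => ar a b ∨ ar b a) x y
  H1 : ∀ φ : V → V → ZMod 2, (∀ x y, φ x y = φ y x) →
    (∀ x y z w, (ar x y ∨ ar y x) → (ar y z ∨ ar z y) → (ar z w ∨ ar w z) → (ar w x ∨ ar x w) →
      φ x y + φ y z + φ z w + φ w x = 0) →
    (∀ x y z, (ar x y ∨ ar y x) → (ar y z ∨ ar z y) → (ar z x ∨ ar x z) →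
      φ x y + φ y z + φ z x = 0) →
    (∀ (i : I) (h : H), ∑ j : Fin 5, φ (h • pt i j) (h • pt i (j + 1)) = 0) →
    ∃ g : V → ZMod 2, ∀ x y, (ar x y ∨ ar y x) → φ x y = g x + g y
  fin : FinOrb H (Set.univ : Set V)

/-- a pentagon complex as a pre-complex -/
def PX.pq {H V : Type} [Group H] [MulAction H V] (K : PX H V) : PQ H V where
  ar := K.ar
  rk := K.rk
  I := K.I
  finI := K.finI
  pt := K.pt
  ar_rk := K.ar_rk
  ar_smul := K.ar_smul
  rk_smul := K.rk_smul
  two := K.two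
  pt_E := K.pt_E
  ne := K.ne
  conn := K.conn
  H1 := K.H1
  fin := K.fin

section PQdefs

variable {H V : Type} [Group H] [MulAction H V] (K : PQ H V)

/-- adjacency -/
def PQ.E (x y : V) : Prop := K.ar x y ∨ K.ar y x

theorem PQ.E.symm {K : PQ H V} {x y : V} (h : K.E x y) : K.E y x := Or.symm h

theorem PQ.E_smul (h : H) {x y : V} (e : K.E x y) : K.E (h • x) (h • y) :=
  e.imp (K.ar_smul h _ _) (K.ar_smul h _ _)

theorem PQ.E_irr (x : V) : ¬ K.E x x := by
  rintro (h | h) <;> exact absurd (K.ar_rk _ _ h) (lt_irrefl _)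

/-- number of pentagons -/
noncomputable def PQ.A : ℕ := Nat.card K.I

end PQdefs

/-! ### Systems of subtrees -/

/-- the points of the tree on the side of `w'` of the edge `w w'` -/
def bey {X : Type} (G : SimpleGraph X) (w w' : X) : Set X := {x | G.dist x w = G.dist x w' + 1}

/-- the exits of `x` at `w`: the poles which are visible at `w`, and the directions at `w` -/
def exits {H V : Type} [Group H] [MulAction H V] (K : PQ H V) {X : Type}
    (G : SimpleGraph X) (J : V → Set X) (x : V) (w : X) : Set (V ⊕ X) :=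
  {s | (∃ a, s = Sum.inl a ∧ K.ar x a ∧ w ∈ J a) ∨ (∃ w', s = Sum.inr w' ∧ G.Adj w w' ∧ w' ∈ J x)}

/-- the axioms for a family of subtrees `J x` -/
structure JS {H V : Type} [Group H] [MulAction H V] (K : PQ H V) (D : Decomp H)
    (J : V → Set D.X) : Prop where
  conv : ∀ x, Conv D.G (J x)
  ne : ∀ x, (J x).Nonempty
  smul : ∀ (h : H) (x : V) (w : D.X), w ∈ J x → h • w ∈ J (h • x)
  one : ∀ x y, K.E x y → ∃ p, J x ∩ J y = {p}
  two : ∀ x, ∀ w ∈ J x, ∀ s ∈ exits K D.G J x w, ∀ t ∈ exits K D.G J x w,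
    ∀ u ∈ exits K D.G J x w, s = t ∨ s = u ∨ t = u
  cross : ∀ x, (∃ a, K.ar x a) → ∀ w w', D.G.Adj w w' → w ∈ J x → w' ∈ J x →
    ∃ a, K.ar x a ∧ J a ⊆ bey D.G w w'
  fin : FinOrb H {p : V × D.X | p.2 ∈ J p.1}

/-- A system: subtrees `J x` and `T x y`. The centre of a pentagon is the point `c` which lies in
`J x ∪ J y` for all its edges `x y`. -/
structure Sy {H V : Type} [Group H] [MulAction H V] (K : PQ H V) (D : Decomp H) where
  J : V → Set D.X
  T : V → V → Set D.X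
  js : JS K D J
  T_symm : ∀ x y, K.E x y → T x y = T y x
  T_smul : ∀ (h : H) (x y : V) (w : D.X), K.E x y → w ∈ T x y → h • w ∈ T (h • x) (h • y)
  T_conv : ∀ x y, K.E x y → Conv D.G (T x y)
  T_sub : ∀ x y, K.E x y → T x y ⊆ J x ∪ J y
  T_inter : ∀ x y, K.E x y → J x ∩ J y ⊆ T x y
  T_pent : ∀ (h : H) (i : K.I) (c : D.X),
    (∀ k, c ∈ J (h • K.pt i k) ∪ J (h • K.pt i (k + 1))) →
    ∀ k, c ∈ T (h • K.pt i k) (h • K.pt i (k + 1))
  T_four : ∀ x y z t, K.E x y → K.E y z → K.E z t → K.E t x → x ≠ z →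
    ∀ w w', D.G.Adj w w' → w ∈ J x → w' ∈ J x → w ∈ J z → w' ∈ J z →
    J y ⊆ bey D.G w w' → J t ⊆ bey D.G w' w →
    (w ∈ T x y ∧ w' ∈ T x y ∧ w ∈ T z y ∧ w' ∈ T z y) ∨
    (w ∈ T x t ∧ w' ∈ T x t ∧ w ∈ T z t ∧ w' ∈ T z t)

section Sydefs

variable {H V : Type} [Group H] [MulAction H V] {K : PQ H V} {D : Decomp H} (S : Sy K D)

/-- `c` is the centre of the closed walk `v` of length five -/
def Sy.IsC (v : Fin 5 → V) (c : D.X) : Prop := ∀ k, c ∈ S.J (v k) ∪ S.J (v (k + 1))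

/-- `x` and `z` cross the edge `w w'` and have a common neighbour, visible on this edge -/
def Sy.CN (w w' : D.X) (x z : V) : Prop :=
  D.G.Adj w w' ∧ w ∈ S.J x ∧ w' ∈ S.J x ∧ w ∈ S.J z ∧ w' ∈ S.J z ∧
    ∃ y, K.E x y ∧ K.E z y ∧ w ∈ S.T x y ∧ w' ∈ S.T x y ∧ w ∈ S.T z y ∧ w' ∈ S.T z y

/-- the generating relation of the slice at `w` -/
def Sy.SR (w : D.X) (x z : V) : Prop :=
  (K.E x z ∧ w ∈ S.J x ∧ w ∈ S.J z) ∨ ∃ w', S.CN w w' x z

/-- walls and slices are connected, every edge is crossed -/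
structure Sy.Conn : Prop where
  wall : ∀ w w', D.G.Adj w w' → ∀ x z, w ∈ S.J x → w' ∈ S.J x → w ∈ S.J z →
    w' ∈ S.J z → Relation.EqvGen (S.CN w w') x z
  slice : ∀ w, ∀ x z, w ∈ S.J x → w ∈ S.J z → Relation.EqvGen (S.SR w) x z
  crossed : ∀ w w', D.G.Adj w w' → ∃ x, w ∈ S.J x ∧ w' ∈ S.J x

/-- the sets `T x y` are cofinite -/
def Sy.TFin : Prop :=
  FinOrb H {p : (V × V) × D.X | K.E p.1.1 p.1.2 ∧ p.2 ∈ S.T p.1.1 p.1.2}

/-- finiteness of the subtrees at edges with infinite stabiliser -/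
def Sy.NL : Prop := ∀ x y, K.E x y → Infinite ↥(stabilizer H x ⊓ stabilizer H y) →
  (S.J x).Finite ∧ (S.J y).Finite

/-- the pentagons with centre in the orbit of `w` -/
def Sy.Iw (w : D.X) : Type := {i : K.I // ∃ h : H, S.IsC (fun k => h • K.pt i k) w}

end Sydefs

end Pool.Agent.BT
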