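import Pool.Agent.BT.TSOfSy

/-!
# BT: connected systems for a minimal counterexample
-/

namespace Pool.Agent.BT

open MulAction
open Pool.Agent.SAF (InC orbs FinOrb oc Decomp SAn SA Conv hull TAct FinOrb_iff exists_equivariant)

section

variable {H V : Type} [Group H] [MulAction H V] {K : PX H V}

/-- heavy things do not cross sinks -/
def Sy.SK {D : Decomp H} (S : Sy K.pq D) : Prop := ∀ x, K.Sink x → ∀ w u, D.G.Adj w u →
  w ∈ S.J x → u ∈ S.J x → ¬ Heavy H (x, w, u)

/-- the bridge property -/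
def Sy.BR {D : Decomp H} (S : Sy K.pq D) : Prop := ∀ w u, D.G.Adj w u → ∀ x y, K.E x y →
  w ∈ S.T x y → u ∈ S.T x y → Heavy H (x, y) ∨
    Br (fun a b => K.E a b ∧ w ∈ S.T a b ∧ u ∈ S.T a b)
    {z | w ∈ S.TV z ∧ u ∈ S.TV z ∧ Heavy H (z, w, u)} x y

/-- the minimality conditions at a bad vertex of the tree -/
theorem PCrit.hmin {M : ℕ} (hK : PCrit M K) {X : Type} [MulAction H X] {w : X}
    (hw : ¬ SA ↥(stabilizer H w)) (V' : Type) [MulAction ↥(stabilizer H w) V']
    (K' : PX ↥(stabilizer H w) V') : K.A ≤ K'.A ∧ (K'.A = K.A → K.hg.bb ≤ K'.hg.bb) :=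
  ⟨hK.min.1.1.1 _ _ K' (hK.bd.sub _) hw, hK.min.1.1.2 _ _ K' (hK.bd.sub _) hw⟩

theorem bad_out {X : Type} [MulAction H X] {w : X} (hw : ¬ SA ↥(stabilizer H w)) :
    ¬ SA ↥(stabilizer H (Quotient.out (Quotient.mk'' w : orbitRel.Quotient H X))) := by
  have h1 : (Quotient.mk'' (Quotient.out (Quotient.mk'' w : orbitRel.Quotient H X)) :
      orbitRel.Quotient H X) = Quotient.mk'' w := Quotient.out_eq' (s₁ := orbitRel H X) _
  obtain ⟨h, hh⟩ := SAF.mk_eq_iff.1 h1
  intro hs
  have h2 : SA ↥(stabilizer H (h • w)) := by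
    rw [hh]
    exact hs
  exact hw (SA_stab_smul h w h2)

theorem Sy.br_of_crit {M : ℕ} (hK : PCrit M K) {D : Decomp H} (S : Sy K.pq D) (hc : S.Conn) :
    S.BR := by
  intro w u a x y e h1 h2
  by_cases hh : Heavy H (x, y)
  · exact Or.inl hh
  right
  obtain ⟨w0, hw0, -⟩ := lemZ hK S hc
  have hC : ∀ x, ∀ w ∈ S.J x, InC ↥(stabilizer H x ⊓ stabilizer H w) :=
    fun x w _ => stab_inf_inC K x w
  have := (S.jt hc hC).br K.stab (Quotient.mk'' w0) (fun V' _ K' => hK.hmin (bad_out hw0) V' K')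
    (TE := S.T) (fun x y w e hw => S.T_sub x y e hw) (fun z => w ∈ S.TV z ∧ u ∈ S.TV z) a hh
  obtain ⟨σ, s1, s2⟩ := this
  exact ⟨σ, fun z hz => s1 z ⟨⟨hz.1, hz.2.1⟩, hz.2.2⟩, s2⟩

/-- from subtrees of a decomposition to a connected system of another one -/
theorem exists_conn {M : ℕ} (hK : PCrit M K) (D : Decomp H) {J : V → Set D.X} (js : JS K.pq D J)
    (hn : ∀ x y, K.E x y → Infinite ↥(stabilizer H x ⊓ stabilizer H y) →
      (J x).Finite ∧ (J y).Finite)
    (hsk : ∀ x, K.Sink x → (∃ q, J x = {q}) ∨ hyv D x) :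
    ∃ (D' : Decomp H) (S : Sy K.pq D') (pr : D'.X → D.X), S.Conn ∧ S.TFin ∧ S.NL ∧ S.SK ∧ S.BR ∧
      (∀ (h : H) l, pr (h • l) = h • pr l) ∧
      (∀ x, ∀ l ∈ S.J x, pr l ∈ J x) ∧
      (∀ x, ∀ w ∈ J x, ∃ l ∈ S.J x, pr l = w) ∧
      (∀ x, ∀ l ∈ S.J x, ∀ m ∈ S.J x, pr l = pr m → l = m) := by
  obtain ⟨S0, rfl, ht0, hn0⟩ := exists_sy_hull K D J js hK.clean hn
  obtain ⟨D', S, pr, hc, p1, p2, p3, p4, p5, p6⟩ := thmA K.pq D S0
  refine ⟨D', S, pr, hc, p5 ht0, p6 hn0, ?_, S.br_of_crit hK hc, p1, p2, p3, p4⟩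
  intro x hx w u a hw hu hh
  rcases hsk x hx with ⟨q, hq⟩ | hy
  · have e1 := p2 x w hw
    have e2 := p2 x u hu
    rw [hq] at e1 e2
    have := p4 x w hw u hu (e1.trans e2.symm)
    rw [this] at a
    exact D'.G.loopless.irrefl _ a
  · apply hh
    apply finite_of_hyp (tact D) (K.stab x) hy (w := pr w)
    · intro g hg
      exact congrArg Prod.fst (mem_stabilizer_iff.1 hg)
    · intro g hg
      have : g • w = w := congrArg (fun p : V × D'.X × D'.X => p.2.1) (mem_stabilizer_iff.1 hg)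
      rw [← p1, this]

/-! ### The first choice of subtrees -/

/-- fixed points of the elliptic vertices -/
theorem exists_q (_ : PX H V) (D : Decomp H) : ∃ q : V → D.X,
    ∀ (h : H) (x : V), ¬ hyv D x → q (h • x) = h • q x := by
  obtain ⟨d⟩ := D.tree.1.nonempty
  obtain ⟨c, hc1, hc2⟩ := exists_equivariant (H := H) (Y := V) (Z := Option D.X)
    (fun x z => ¬ hyv D x → z ≠ none) (by
      intro h x z hp hn e
      apply hp (fun hh => hn ((hyv_smul D h x).2 hh))
      cases z with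
      | none => rfl
      | some w => exact absurd e (by simp)) (by
      intro x
      by_cases hx : hyv D x
      · exact ⟨none, fun hn => absurd hx hn, fun h _ => rfl⟩
      · have hx' := hx
        unfold hyv Hyp at hx'
        push Not at hx'
        obtain ⟨w, hw⟩ := hx'
        refine ⟨some w, fun _ => by simp, ?_⟩
        intro h hh
        show some (h • w) = some w
        rw [hw h hh])
  refine ⟨fun X => (c X).getD d, ?_⟩
  intro h x hx
  show (c (h • x)).getD d = h • (c x).getD d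
  rw [hc2]
  have h1 := hc1 x hx
  cases hcx : c x with
  | none => exact absurd hcx h1
  | some w => rfl

/-- the subtrees of the sinks -/
def sL (D : Decomp H) (q : V → D.X) (x : V) : Set D.X :=
  {w | (hyv D x ∧ w ∈ mst D.G (stabilizer H x)) ∨ (¬ hyv D x ∧ w = q x)}

theorem sL_hyp {D : Decomp H} (q : V → D.X) {x : V} (hx : hyv D x) :
    sL D q x = mst D.G (stabilizer H x) := by
  ext w
  constructor
  · rintro (⟨-, h⟩ | ⟨h, -⟩)
    · exact h
    · exact absurd hx h
  · intro h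
    exact Or.inl ⟨hx, h⟩

theorem sL_ell {D : Decomp H} (q : V → D.X) {x : V} (hx : ¬ hyv D x) : sL D q x = {q x} := by
  ext w
  constructor
  · rintro (⟨h, -⟩ | ⟨-, h⟩)
    · exact absurd h hx
    · exact h
  · intro h
    exact Or.inr ⟨hx, h⟩

theorem sqdat {M : ℕ} (hK : PCrit M K) (D : Decomp H) (q : V → D.X)
    (hq : ∀ (h : H) (x : V), ¬ hyv D x → q (h • x) = h • q x) : QDat K.pq D (sL D q) q where
  L_conv := by
    intro x _
    by_cases hx : hyv D x
    · rw [sL_hyp q hx]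
      exact (axis (tact D) _ (K.stab x) hx).1
    · rw [sL_ell q hx]
      exact conv_single D.tree _
  L_ne := by
    intro x _
    by_cases hx : hyv D x
    · rw [sL_hyp q hx]
      exact (axis (tact D) _ (K.stab x) hx).2.1
    · rw [sL_ell q hx]
      exact Set.singleton_nonempty _
  L_two := by
    intro x _
    by_cases hx : hyv D x
    · rw [sL_hyp q hx]
      exact (axis (tact D) _ (K.stab x) hx).2.2.1
    · rw [sL_ell q hx]
      rintro w hw a b c h1 - - ha - -
      rw [Set.mem_singleton_iff] at hw ha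
      rw [hw, ha] at h1
      exact absurd h1 (D.G.loopless.irrefl _)
  L_smul := by
    intro h x w hw
    by_cases hx : hyv D x
    · rw [sL_hyp q hx] at hw
      rw [sL_hyp q ((hyv_smul D h x).2 hx)]
      exact mst_smul (tact D) h x hw
    · rw [sL_ell q hx] at hw
      rw [sL_ell q (fun hh => hx ((hyv_smul D h x).1 hh)), hq h x hx]
      rw [Set.mem_singleton_iff] at hw
      rw [hw]
      rfl
  L_fin := by
    intro x _
    by_cases hx : hyv D x
    · rw [sL_hyp q hx]
      exact (axis (tact D) _ (K.stab x) hx).2.2.2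
    · rw [sL_ell q hx]
      exact finOrb_of_finite (Set.finite_singleton _)
  q_smul := by
    rintro h x ⟨a, ha⟩
    apply hq
    intro hx
    obtain ⟨w, hw⟩ := soft_ell hK D ha
    obtain ⟨g, hg, e⟩ := hx w
    exact e (hw g hg)

theorem not_hyv_of_fix {D : Decomp H} {x : V} {w : D.X} (hw : ∀ h ∈ stabilizer H x, h • w = w) :
    ¬ hyv D x := by
  intro hx
  obtain ⟨g, hg, e⟩ := hx w
  exact e (hw g hg)

theorem E_cases {x y : V} (e : K.E x y) : (∃ a, K.ar x a) ∨ ∃ a, K.ar y a :=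
  e.imp (fun h => ⟨_, h⟩) (fun h => ⟨_, h⟩)

/-- an edge with infinite stabiliser has elliptic ends -/
theorem ell_of_heavy {M : ℕ} (hK : PCrit M K) (D : Decomp H) {x y : V} (e : K.E x y)
    (hi : Infinite ↥(stabilizer H x ⊓ stabilizer H y)) : ¬ hyv D x ∧ ¬ hyv D y := by
  have key : ∀ x y, K.ar x y → Infinite ↥(stabilizer H x ⊓ stabilizer H y) →
      ¬ hyv D x ∧ ¬ hyv D y := by
    intro x y e hi
    obtain ⟨w, hw⟩ := soft_ell hK D e
    refine ⟨not_hyv_of_fix hw, ?_⟩
    intro hy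
    have := finite_of_hyp (tact D) (K.stab y) hy (B := stabilizer H x ⊓ stabilizer H y)
      inf_le_right (w := w) (fun b hb => hw b hb.1)
    exact not_finite_iff_infinite.2 hi this
  rcases e with e | e
  · exact key x y e hi
  · rw [inf_comm] at hi
    exact (key y x e hi).symm

/-- first system -/
theorem exists_first {M : ℕ} (hK : PCrit M K) (D : Decomp H) :
    ∃ (D' : Decomp H) (S : Sy K.pq D') (pr : D'.X → D.X), S.Conn ∧ S.TFin ∧ S.NL ∧ S.SK ∧ S.BR ∧
      (∀ (h : H) l, pr (h • l) = h • pr l) := by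
  obtain ⟨q, hq⟩ := exists_q K D
  obtain ⟨J, hJ, js, hfin⟩ := exists_jq K.pq D (sL D q) q (sqdat hK D q hq)
  have hfin' : ∀ x, ¬ hyv D x → (J x).Finite := by
    intro x hx
    by_cases ha : ∃ a, K.ar x a
    · exact hfin x ha
    · push Not at ha
      rw [hJ.sink x ha, sL_ell q hx]
      exact Set.finite_singleton _
  obtain ⟨D', S, pr, h1, h2, h3, h4, h5, h6, -⟩ := exists_conn hK D js (by
    intro x y e hi
    obtain ⟨a, b⟩ := ell_of_heavy hK D e hi
    exact ⟨hfin' x a, hfin' y b⟩) (by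
    intro x hx
    by_cases hy : hyv D x
    · exact Or.inr hy
    · left
      refine ⟨q x, ?_⟩
      rw [hJ.sink x hx, sL_ell q hy])
  exact ⟨D', S, pr, h1, h2, h3, h4, h5, h6⟩

end

end Pool.Agent.BT
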