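import Pool.Agent.BT.JQDef

/-!
# BT: subtrees from points
-/

namespace Pool.Agent.BT

open MulAction
open Pool.Agent.SAF (InC orbs FinOrb oc Decomp SAn SA Conv hull TAct mk_eq_iff FinOrb_iff)

section TreeAux
variable {X : Type} {G : SimpleGraph X}

/-- the neighbour in the direction of `b` is unique -/
theorem next_unique_q (hG : G.IsTree) {w c d b : X} (hc : G.Adj w c) (hd : G.Adj w d)
    (h1 : G.dist b w = G.dist b c + 1) (h2 : G.dist b w = G.dist b d + 1) : c = d := by
  by_contra hne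
  have hdw : G.dist d w = 1 := SimpleGraph.dist_eq_one_iff_adj.2 hd.symm
  have h3 : G.dist d c = G.dist d w + 1 := by
    rcases hG.dist_eq_dist_add_one_of_adj d hc with h3 | h3
    · exfalso
      have : G.dist d c = 0 := by omega
      exact hne ((hG.connected.dist_eq_zero_iff).1 this).symm
    · exact h3
  have c1 := dist_cross hG hc h3 h1
  have c2 : G.dist d b = G.dist b d := SimpleGraph.dist_comm
  have c3 : G.dist c b = G.dist b c := SimpleGraph.dist_comm
  omega

theorem conv_singleton (hG : G.IsTree) (p : X) : Conv G {p} := by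
  intro a ha b hb w h
  rw [Set.mem_singleton_iff] at ha hb ⊢
  rw [ha, hb, SimpleGraph.dist_self] at h
  have : G.dist p w = 0 := by omega
  exact ((hG.connected.dist_eq_zero_iff).1 this).symm

theorem brg_comm (A B : Set X) : brg G A B = brg G B A := by
  ext w
  constructor
  · intro h b hb a ha
    have := h a ha b hb
    have c1 : G.dist b w = G.dist w b := SimpleGraph.dist_comm
    have c2 : G.dist w a = G.dist a w := SimpleGraph.dist_comm
    have c3 : G.dist b a = G.dist a b := SimpleGraph.dist_comm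
    omega
  · intro h b hb a ha
    have := h a ha b hb
    have c1 : G.dist b w = G.dist w b := SimpleGraph.dist_comm
    have c2 : G.dist w a = G.dist a w := SimpleGraph.dist_comm
    have c3 : G.dist b a = G.dist a b := SimpleGraph.dist_comm
    omega

/-- a convex set is on one side of an edge, or contains it -/
theorem conv_tri_q (hG : G.IsTree) {C : Set X} (hC : Conv G C) {w w' : X}
    (h : G.Adj w w') : C ⊆ bey G w w' ∨ C ⊆ bey G w' w ∨ (w ∈ C ∧ w' ∈ C) := by
  by_cases h1 : C ⊆ bey G w w'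
  · exact Or.inl h1
  by_cases h2 : C ⊆ bey G w' w
  · exact Or.inr (Or.inl h2)
  right; right
  obtain ⟨a, ha, ha'⟩ := Set.not_subset.1 h1
  obtain ⟨b, hb, hb'⟩ := Set.not_subset.1 h2
  have ea : G.dist a w' = G.dist a w + 1 := (side_or hG h a).resolve_left ha'
  have eb : G.dist b w = G.dist b w' + 1 := (side_or hG h b).resolve_right hb'
  have h3 := dist_cross hG h ea eb
  have h4 : G.dist w w' = 1 := SimpleGraph.dist_eq_one_iff_adj.2 h
  have c1 : G.dist w' b = G.dist b w' := SimpleGraph.dist_comm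
  have c2 : G.dist w b = G.dist b w := SimpleGraph.dist_comm
  constructor
  · apply hC a ha b hb
    omega
  · apply hC a ha b hb
    omega

theorem bey_irr_l {w w' : X} : w ∉ bey G w w' := by
  intro h
  change G.dist w w = G.dist w w' + 1 at h
  rw [SimpleGraph.dist_self] at h
  omega

theorem bey_not_both {w w' x : X} (h : x ∈ bey G w w') (h' : x ∈ bey G w' w) : False := by
  change G.dist x w = G.dist x w' + 1 at h
  change G.dist x w' = G.dist x w + 1 at h'
  omega

end TreeAux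

section JQ
variable {H V : Type} [Group H] [MulAction H V]

theorem poles_disj (K : PQ H V) {X : Type} (J : V → Set X) {x : V}
    (ha : ∃ a, K.ar x a) (hne : ∀ a, K.ar x a → (J a).Nonempty)
    (hno : ¬ ∃ w, ∀ a, K.ar x a → w ∈ J a) :
    ∃ a b, K.ar x a ∧ K.ar x b ∧ a ≠ b ∧ (∀ c, K.ar x c → c = a ∨ c = b) ∧
      ¬ (J a ∩ J b).Nonempty := by
  obtain ⟨a, ha⟩ := ha
  have h1 : ∃ b, K.ar x b ∧ b ≠ a := by
    by_contra hc
    push Not at hc
    obtain ⟨w, hw⟩ := hne a ha
    apply hno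
    refine ⟨w, fun c hc' => ?_⟩
    rw [hc c hc']
    exact hw
  obtain ⟨b, hb, hba⟩ := h1
  have h2 : ∀ c, K.ar x c → c = a ∨ c = b := by
    intro c hc
    rcases K.two x a b c ha hb hc with e | e | e
    · exact absurd e.symm hba
    · exact Or.inr e.symm
    · exact Or.inl e.symm
  refine ⟨a, b, ha, hb, hba.symm, h2, ?_⟩
  rintro ⟨w, hw1, hw2⟩
  apply hno
  refine ⟨w, fun c hc => ?_⟩
  rcases h2 c hc with rfl | rfl
  · exact hw1
  · exact hw2

theorem common_conv (K : PQ H V) {X : Type} {G : SimpleGraph X} (J : V → Set X) {x : V}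
    (hc : ∀ a, K.ar x a → Conv G (J a)) : Conv G {w | ∀ a, K.ar x a → w ∈ J a} := by
  intro u hu v hv w h a ha
  exact hc a ha u (hu a ha) v (hv a ha) w h

/-! ### existence -/

open Classical in
/-- one step of the recursion -/
noncomputable def stepJ (K : PQ H V) (D : Decomp H) (L : V → Set D.X) (q : V → D.X) (x : V)
    (Ja : V → Set D.X) : Set D.X :=
  if ∀ a, ¬ K.ar x a then L x
  else if ∃ w, ∀ a, K.ar x a → w ∈ Ja a then
    {p | (∀ a, K.ar x a → p ∈ Ja a) ∧ ∀ w, (∀ a, K.ar x a → w ∈ Ja a) →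
      D.G.dist (q x) w = D.G.dist (q x) p + D.G.dist p w}
  else {w | ∃ a b, K.ar x a ∧ K.ar x b ∧ ¬ (Ja a ∩ Ja b).Nonempty ∧ w ∈ brg D.G (Ja a) (Ja b)}

theorem stepJ_congr (K : PQ H V) (D : Decomp H) (L : V → Set D.X) (q : V → D.X) (x : V)
    (J1 J2 : V → Set D.X) (h : ∀ a, K.ar x a → J1 a = J2 a) :
    stepJ K D L q x J1 = stepJ K D L q x J2 := by
  have h1 : ∀ w, (∀ a, K.ar x a → w ∈ J1 a) ↔ (∀ a, K.ar x a → w ∈ J2 a) := by
    intro w
    constructor
    · intro hw a ha
      rw [← h a ha]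
      exact hw a ha
    · intro hw a ha
      rw [h a ha]
      exact hw a ha
  have h2 : {w | ∃ a b, K.ar x a ∧ K.ar x b ∧ ¬ (J1 a ∩ J1 b).Nonempty ∧
      w ∈ brg D.G (J1 a) (J1 b)} = {w | ∃ a b, K.ar x a ∧ K.ar x b ∧ ¬ (J2 a ∩ J2 b).Nonempty ∧
      w ∈ brg D.G (J2 a) (J2 b)} := by
    ext w
    constructor
    · rintro ⟨a, b, ha, hb, h3, h4⟩
      rw [h a ha, h b hb] at h3 h4
      exact ⟨a, b, ha, hb, h3, h4⟩
    · rintro ⟨a, b, ha, hb, h3, h4⟩
      rw [← h a ha, ← h b hb] at h3 h4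
      exact ⟨a, b, ha, hb, h3, h4⟩
  unfold stepJ
  by_cases c0 : ∀ a, ¬ K.ar x a
  · rw [if_pos c0, if_pos c0]
  · rw [if_neg c0, if_neg c0]
    by_cases c1 : ∃ w, ∀ a, K.ar x a → w ∈ J1 a
    · have c2 : ∃ w, ∀ a, K.ar x a → w ∈ J2 a := by
        obtain ⟨w, hw⟩ := c1
        exact ⟨w, (h1 w).1 hw⟩
      rw [if_pos c1, if_pos c2]
      ext p
      constructor
      · rintro ⟨a1, a2⟩
        exact ⟨(h1 p).1 a1, fun w hw => a2 w ((h1 w).2 hw)⟩
      · rintro ⟨a1, a2⟩
        exact ⟨(h1 p).2 a1, fun w hw => a2 w ((h1 w).1 hw)⟩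
    · have c2 : ¬ ∃ w, ∀ a, K.ar x a → w ∈ J2 a := by
        rintro ⟨w, hw⟩
        exact c1 ⟨w, (h1 w).2 hw⟩
      rw [if_neg c1, if_neg c2]
      exact h2

/-- the subtrees -/
noncomputable def jq (K : PQ H V) (D : Decomp H) (L : V → Set D.X) (q : V → D.X) : V → Set D.X :=
  WellFounded.fix (InvImage.wf K.rk Nat.lt_wfRel.wf) (fun x rec =>
    stepJ K D L q x (fun a => {w | ∃ h : K.rk a < K.rk x, w ∈ rec a h}))

theorem jq_eq (K : PQ H V) (D : Decomp H) (L : V → Set D.X) (q : V → D.X) {x : V}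
    : jq K D L q x = stepJ K D L q x (jq K D L q) := by
  conv_lhs => rw [jq, WellFounded.fix_eq]
  apply stepJ_congr
  intro a ha
  ext w
  constructor
  · rintro ⟨h, hw⟩
    exact hw
  · intro hw
    exact ⟨K.ar_rk x a ha, hw⟩

theorem step_pt {K : PQ H V} {D : Decomp H} {L : V → Set D.X} {q : V → D.X} {J : V → Set D.X}
    {x : V} (e : J x = stepJ K D L q x J) (ha : ∃ a, K.ar x a)
    (hc : ∀ a, K.ar x a → Conv D.G (J a)) (hw : ∃ w, ∀ a, K.ar x a → w ∈ J a) :
    ∃ p, J x = {p} ∧ (∀ a, K.ar x a → p ∈ J a) ∧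
      ∀ w, (∀ a, K.ar x a → w ∈ J a) → D.G.dist (q x) w = D.G.dist (q x) p + D.G.dist p w := by
  obtain ⟨p, ⟨hp1, hp2⟩, hu⟩ := exists_proj D.tree (common_conv K (G := D.G) J hc) hw (q x)
  refine ⟨p, ?_, hp1, hp2⟩
  rw [e, stepJ, if_neg (by push Not; exact ha), if_pos hw]
  ext z
  constructor
  · rintro ⟨h1, h2⟩
    exact hu z ⟨h1, h2⟩
  · intro hz
    rw [Set.mem_singleton_iff] at hz
    subst hz
    exact ⟨hp1, hp2⟩

theorem step_br {K : PQ H V} {D : Decomp H} {L : V → Set D.X} {q : V → D.X} {J : V → Set D.X}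
    {x : V} (e : J x = stepJ K D L q x J)
    (hn : ∀ a, K.ar x a → (J a).Nonempty) (a b : V) (ha : K.ar x a) (hb : K.ar x b)
    (hd : ¬ (J a ∩ J b).Nonempty) : J x = brg D.G (J a) (J b) := by
  have hno : ¬ ∃ w, ∀ a, K.ar x a → w ∈ J a := by
    rintro ⟨w, hw⟩
    exact hd ⟨w, hw a ha, hw b hb⟩
  have hab : a ≠ b := by
    rintro rfl
    obtain ⟨w, hw⟩ := hn a ha
    exact hd ⟨w, hw, hw⟩
  rw [e, stepJ, if_neg (by push Not; exact ⟨a, ha⟩), if_neg hno]
  ext w
  constructor
  · rintro ⟨c, d, hc, hd', h1, h2⟩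
    have hcd : c ≠ d := by
      rintro rfl
      obtain ⟨w, hw⟩ := hn c hc
      exact h1 ⟨w, hw, hw⟩
    have hc' : c = a ∨ c = b := by
      rcases K.two x a b c ha hb hc with e | e | e
      · exact absurd e hab
      · exact Or.inr e.symm
      · exact Or.inl e.symm
    have hd'' : d = a ∨ d = b := by
      rcases K.two x a b d ha hb hd' with e | e | e
      · exact absurd e hab
      · exact Or.inr e.symm
      · exact Or.inl e.symm
    rcases hc' with rfl | rfl
    · rcases hd'' with rfl | rfl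
      · exact absurd rfl hcd
      · exact h2
    · rcases hd'' with rfl | rfl
      · rw [brg_comm]
        exact h2
      · exact absurd rfl hcd
  · intro h
    exact ⟨a, b, ha, hb, hd, h⟩

theorem exists_isJQ (K : PQ H V) (D : Decomp H) (L : V → Set D.X) (q : V → D.X)
    (h : QDat K D L q) : ∃ J : V → Set D.X, IsJQ K D L q J := by
  have key : ∀ n : ℕ, ∀ x, K.rk x < n → Conv D.G (jq K D L q x) ∧
      (jq K D L q x).Nonempty := by
    intro n
    induction n with
    | zero => intro x hn; exact absurd hn (Nat.not_lt_zero _)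
    | succ n ih =>
      intro x hn
      have hpol : ∀ a, K.ar x a → Conv D.G (jq K D L q a) ∧ (jq K D L q a).Nonempty := by
        intro a ha
        apply ih a
        have := K.ar_rk x a ha
        omega
      have e := jq_eq K D L q (x := x)
      by_cases h0 : ∀ a, ¬ K.ar x a
      · rw [e, stepJ, if_pos h0]
        exact ⟨h.L_conv x h0, h.L_ne x h0⟩
      · push Not at h0
        by_cases hw : ∃ w, ∀ a, K.ar x a → w ∈ jq K D L q a
        · obtain ⟨p, hp, -⟩ := step_pt e h0 (fun a ha => (hpol a ha).1) hw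
          rw [hp]
          exact ⟨conv_singleton D.tree p, ⟨p, rfl⟩⟩
        · obtain ⟨a, b, ha, hb, hab, -, hd⟩ := poles_disj K (jq K D L q) h0
            (fun a ha => (hpol a ha).2) hw
          have e2 := step_br e (fun a ha => (hpol a ha).2) a b ha hb hd
          obtain ⟨s1, s2, ⟨p, s3⟩, s4, s5⟩ := brg_spec D.tree (hpol a ha).1 (hpol b hb).1
            (hpol a ha).2 (hpol b hb).2 hd
          rw [e2]
          refine ⟨s1, p, ?_⟩
          have : p ∈ brg D.G (jq K D L q a) (jq K D L q b) ∩ jq K D L q a := by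
            rw [s3]; rfl
          exact this.1
  have key' : ∀ x, Conv D.G (jq K D L q x) ∧ (jq K D L q x).Nonempty := fun x =>
    key (K.rk x + 1) x (Nat.lt_succ_self _)
  refine ⟨jq K D L q, ⟨?_, ?_, ?_⟩⟩
  · intro x h0
    rw [jq_eq K D L q, stepJ, if_pos h0]
  · intro x h0 hw
    exact step_pt (jq_eq K D L q) h0 (fun a ha => (key' a ).1) hw
  · intro x a b ha hb hd
    exact step_br (jq_eq K D L q) (fun a ha => (key' a ).2) a b ha hb hd

/-! ### properties of all solutions -/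

section Props

variable {K : PQ H V} {D : Decomp H} {L : V → Set D.X} {q : V → D.X} {J : V → Set D.X}

theorem IsJQ.good (h : QDat K D L q) (hJ : IsJQ K D L q J) : ∀ x, Conv D.G (J x) ∧
    (J x).Nonempty := by
  have key : ∀ n : ℕ, ∀ x, K.rk x < n → Conv D.G (J x) ∧ (J x).Nonempty := by
    intro n
    induction n with
    | zero => intro x hn; exact absurd hn (Nat.not_lt_zero _)
    | succ n ih =>
      intro x hn
      have hpol : ∀ a, K.ar x a → Conv D.G (J a) ∧ (J a).Nonempty := by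
        intro a ha
        apply ih a
        have := K.ar_rk x a ha
        omega
      by_cases h0 : ∀ a, ¬ K.ar x a
      · rw [hJ.sink x h0]
        exact ⟨h.L_conv x h0, h.L_ne x h0⟩
      · push Not at h0
        by_cases hw : ∃ w, ∀ a, K.ar x a → w ∈ J a
        · obtain ⟨p, hp, -⟩ := hJ.pt x h0 hw
          rw [hp]
          exact ⟨conv_singleton D.tree p, ⟨p, rfl⟩⟩
        · obtain ⟨a, b, ha, hb, hab, -, hd⟩ := poles_disj K J h0
            (fun a ha => (hpol a ha).2) hw
          have e2 := hJ.br x a b ha hb hd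
          obtain ⟨s1, s2, ⟨p, s3⟩, s4, s5⟩ := brg_spec D.tree (hpol a ha).1 (hpol b hb).1
            (hpol a ha).2 (hpol b hb).2 hd
          rw [e2]
          refine ⟨s1, p, ?_⟩
          have : p ∈ brg D.G (J a) (J b) ∩ J a := by
            rw [s3]; rfl
          exact this.1
  exact fun x => key (K.rk x + 1) x (Nat.lt_succ_self _)

/-- the two cases for a vertex with poles -/
theorem IsJQ.cases (h : QDat K D L q) (hJ : IsJQ K D L q J) {x : V}
    (ha : ∃ a, K.ar x a) :
    (∃ p, J x = {p} ∧ (∀ a, K.ar x a → p ∈ J a) ∧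
      ∀ w, (∀ a, K.ar x a → w ∈ J a) → D.G.dist (q x) w = D.G.dist (q x) p + D.G.dist p w) ∨
    (∃ a b, K.ar x a ∧ K.ar x b ∧ a ≠ b ∧ (∀ c, K.ar x c → c = a ∨ c = b) ∧
      ¬ (J a ∩ J b).Nonempty ∧ J x = brg D.G (J a) (J b)) := by
  by_cases hw : ∃ w, ∀ a, K.ar x a → w ∈ J a
  · exact Or.inl (hJ.pt x ha hw)
  · obtain ⟨a, b, ha, hb, hab, h1, hd⟩ := poles_disj K J ha
      (fun a ha => (hJ.good h a).2) hw
    exact Or.inr ⟨a, b, ha, hb, hab, h1, hd, hJ.br x a b ha hb hd⟩

theorem IsJQ.smul (h : QDat K D L q) (hJ : IsJQ K D L q J) : ∀ x, ∀ (g : H) (w : D.X),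
    w ∈ J x → g • w ∈ J (g • x) := by
  have key : ∀ n : ℕ, ∀ x, K.rk x < n → ∀ (g : H) (w : D.X),
      w ∈ J x → g • w ∈ J (g • x) := by
    intro n
    induction n with
    | zero => intro x hn; exact absurd hn (Nat.not_lt_zero _)
    | succ n ih =>
      intro x hn g w hw
      have hpos : ∀ a, K.ar x a → ∀ w, w ∈ J a → g • w ∈ J (g • a) := by
        intro a ha w hw
        apply ih a  _ g w hw
        have := K.ar_rk x a ha
        omega
      have hneg : ∀ a, K.ar x a → ∀ w, g • w ∈ J (g • a) → w ∈ J a := by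
        intro a ha w hw
        have h1 : g⁻¹ • g • w ∈ J (g⁻¹ • g • a) := by
          apply ih (g • a) _ g⁻¹ (g • w) hw
          rw [K.rk_smul]
          have := K.ar_rk x a ha
          omega
        rwa [inv_smul_smul, inv_smul_smul] at h1
      have hAs : ∀ a, K.ar (g • x) a → K.ar x (g⁻¹ • a) := by
        intro a ha
        have := K.ar_smul g⁻¹ _ _ ha
        rwa [inv_smul_smul] at this
      by_cases h0 : ∀ a, ¬ K.ar x a
      · have h0' : ∀ a, ¬ K.ar (g • x) a := fun a ha => h0 _ (hAs a ha)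
        rw [hJ.sink x h0] at hw
        rw [hJ.sink _ h0']
        exact h.L_smul g x w hw
      · push Not at h0
        have h0' : ∃ a, K.ar (g • x) a := by
          obtain ⟨a, ha⟩ := h0
          exact ⟨g • a, K.ar_smul g _ _ ha⟩
        rcases hJ.cases h h0 with ⟨p, hp1, hp2, hp3⟩ | ⟨a, b, ha, hb, hab, -, hd, he⟩
        · rw [hp1, Set.mem_singleton_iff] at hw
          subst hw
          have hcom : ∀ a, K.ar (g • x) a → g • w ∈ J a := by
            intro a ha
            have h1 := hpos _ (hAs a ha) w (hp2 _ (hAs a ha))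
            rwa [smul_inv_smul] at h1
          obtain ⟨p', hp1', hp2', hp3'⟩ := hJ.pt _ h0' ⟨_, hcom⟩
          have h1 := hp3' _ hcom
          have h2 := hp3 (g⁻¹ • p') (by
            intro a ha
            apply hneg a ha
            rw [smul_inv_smul]
            exact hp2' _ (K.ar_smul g _ _ ha))
          have d1 : D.G.dist (q x) (g⁻¹ • p') = D.G.dist (g • q x) p' := by
            rw [← D.tact.dist_smul g (q x) (g⁻¹ • p'), smul_inv_smul]
          have d2 : D.G.dist (q x) w = D.G.dist (g • q x) (g • w) :=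
            (D.tact.dist_smul g (q x) w).symm
          have d3 : D.G.dist w (g⁻¹ • p') = D.G.dist (g • w) p' := by
            rw [← D.tact.dist_smul g w (g⁻¹ • p'), smul_inv_smul]
          rw [h.q_smul g x h0] at h1
          rw [d1, d2, d3] at h2
          have c1 : D.G.dist (g • w) p' = D.G.dist p' (g • w) := SimpleGraph.dist_comm
          have h3 : D.G.dist p' (g • w) = 0 := by omega
          have h4 := (D.tree.connected.dist_eq_zero_iff).1 h3
          rw [hp1', h4]
          rfl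
        · have hd' : ¬ (J (g • a) ∩ J (g • b)).Nonempty := by
            rintro ⟨z, hz1, hz2⟩
            apply hd
            refine ⟨g⁻¹ • z, hneg a ha _ ?_, hneg b hb _ ?_⟩
            · rwa [smul_inv_smul]
            · rwa [smul_inv_smul]
          rw [hJ.br _ _ _ (K.ar_smul g _ _ ha) (K.ar_smul g _ _ hb) hd']
          rw [he] at hw
          intro u hu v hv
          have h1 := hw (g⁻¹ • u) (hneg a ha _ (by rwa [smul_inv_smul])) (g⁻¹ • v)
            (hneg b hb _ (by rwa [smul_inv_smul]))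
          rw [← D.tact.dist_smul g, ← D.tact.dist_smul g w, ← D.tact.dist_smul g (g⁻¹ • u) (g⁻¹ • v),
            smul_inv_smul, smul_inv_smul] at h1
          exact h1
  exact fun x => key (K.rk x + 1) x (Nat.lt_succ_self _)

theorem IsJQ.fin_soft (h : QDat K D L q) (hJ : IsJQ K D L q J) : ∀ x, (∃ a, K.ar x a) →
    (J x).Finite := by
  intro x ha
  rcases hJ.cases h ha with ⟨p, hp1, -, -⟩ | ⟨a, b, ha, hb, -, -, hd, he⟩
  · rw [hp1]
    exact Set.finite_singleton p
  · rw [he]
    exact (brg_spec D.tree (hJ.good h a).1 (hJ.good h b).1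
      (hJ.good h a).2 (hJ.good h b).2 hd).2.1

theorem IsJQ.one_A (h : QDat K D L q) (hJ : IsJQ K D L q J) {x y : V}
    (hy : K.ar x y) : ∃ p, J x ∩ J y = {p} := by
  rcases hJ.cases h ⟨y, hy⟩ with ⟨p, hp1, hp2, -⟩ | ⟨a, b, ha, hb, -, hc, hd, he⟩
  · refine ⟨p, ?_⟩
    rw [hp1]
    ext z
    constructor
    · rintro ⟨h1, -⟩
      exact h1
    · intro hz
      rw [Set.mem_singleton_iff] at hz
      subst hz
      exact ⟨rfl, hp2 y hy⟩
  · obtain ⟨-, -, s3, s4, -⟩ := brg_spec D.tree (hJ.good h a).1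
      (hJ.good h b).1
      (hJ.good h a).2 (hJ.good h b).2 hd
    rw [he]
    rcases hc y hy with rfl | rfl
    · exact s3
    · exact s4

theorem IsJQ.js (h : QDat K D L q) (hJ : IsJQ K D L q J) : JS K D J where
  conv x := (hJ.good h x).1
  ne x := (hJ.good h x).2
  smul g x w hw := hJ.smul h x g w hw
  one x y e := by
    rcases e with h1 | h1
    · exact hJ.one_A h h1
    · obtain ⟨p, hp⟩ := hJ.one_A h h1
      exact ⟨p, by rw [Set.inter_comm]; exact hp⟩
  two x w hw s hs t ht u hu := by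
    by_cases h0 : ∀ a, ¬ K.ar x a
    · have hr : ∀ s ∈ exits K D.G J x w, ∃ w', s = Sum.inr w' ∧ D.G.Adj w w' ∧ w' ∈ L x := by
        rintro s (⟨a, -, ha, -⟩ | ⟨w', e, h1, h2⟩)
        · exact absurd ha (h0 a)
        · refine ⟨w', e, h1, ?_⟩
          rwa [hJ.sink x h0] at h2
      obtain ⟨a, rfl, a1, a2⟩ := hr s hs
      obtain ⟨b, rfl, b1, b2⟩ := hr t ht
      obtain ⟨c, rfl, c1, c2⟩ := hr u hu
      rw [hJ.sink x h0] at hw
      rcases h.L_two x h0 w hw a b c a1 b1 c1 a2 b2 c2 with e | e | e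
      · exact Or.inl (by rw [e])
      · exact Or.inr (Or.inl (by rw [e]))
      · exact Or.inr (Or.inr (by rw [e]))
    · push Not at h0
      rcases hJ.cases h h0 with ⟨p, hp1, hp2, -⟩ | ⟨a, b, ha, hb, -, hc, hd, he⟩
      · have hr : ∀ s ∈ exits K D.G J x w, ∃ a, s = Sum.inl a ∧ K.ar x a := by
          rintro s (⟨a, e, ha, -⟩ | ⟨w', e, h1, h2⟩)
          · exact ⟨a, e, ha⟩
          · exfalso
            rw [hp1, Set.mem_singleton_iff] at hw h2
            rw [hw, h2] at h1
            exact D.G.loopless.irrefl _ h1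
        obtain ⟨a, rfl, a1⟩ := hr s hs
        obtain ⟨b, rfl, b1⟩ := hr t ht
        obtain ⟨c, rfl, c1⟩ := hr u hu
        rcases K.two x a b c a1 b1 c1 with e | e | e
        · exact Or.inl (by rw [e])
        · exact Or.inr (Or.inr (by rw [e]))
        · exact Or.inr (Or.inl (by rw [e]))
      · have ga := hJ.good h a
        have gb := hJ.good h b
        obtain ⟨-, -, -, -, s5⟩ := brg_spec D.tree ga.1 gb.1 ga.2 gb.2 hd
        -- towards one pole
        let tw : V → V ⊕ D.X → Prop := fun a s => s = Sum.inl a ∧ w ∈ J a ∨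
          ∃ w', s = Sum.inr w' ∧ D.G.Adj w w' ∧ J a ⊆ bey D.G w w'
        have hto : ∀ s ∈ exits K D.G J x w, tw a s ∨ tw b s := by
          rintro s (⟨c, e, hc', hwc⟩ | ⟨w', e, h1, h2⟩)
          · rcases hc c hc' with rfl | rfl
            · exact Or.inl (Or.inl ⟨e, hwc⟩)
            · exact Or.inr (Or.inl ⟨e, hwc⟩)
          · rw [he] at hw h2
            rcases (s5 w w' h1).1 ⟨hw, h2⟩ with ⟨h3, -⟩ | ⟨-, h3⟩
            · exact Or.inl (Or.inr ⟨w', e, h1, h3⟩)
            · exact Or.inr (Or.inr ⟨w', e, h1, h3⟩)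
        have huni : ∀ c, (J c).Nonempty → ∀ s t, tw c s → tw c t → s = t := by
          rintro c ⟨z, hz⟩ s t (⟨e1, h1⟩ | ⟨w', e1, h1, h2⟩) (⟨e2, h3⟩ | ⟨w'', e2, h3, h4⟩)
          · rw [e1, e2]
          · exact absurd (h4 h1) bey_irr_l
          · exact absurd (h2 h3) bey_irr_l
          · rw [e1, e2, next_unique_q D.tree h1 h3 (h2 hz) (h4 hz)]
        rcases hto s hs with h1 | h1 <;> rcases hto t ht with h2 | h2 <;>
          rcases hto u hu with h3 | h3
        · exact Or.inl (huni a ga.2 _ _ h1 h2)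
        · exact Or.inl (huni a ga.2 _ _ h1 h2)
        · exact Or.inr (Or.inl (huni a ga.2 _ _ h1 h3))
        · exact Or.inr (Or.inr (huni b gb.2 _ _ h2 h3))
        · exact Or.inr (Or.inr (huni a ga.2 _ _ h2 h3))
        · exact Or.inr (Or.inl (huni b gb.2 _ _ h1 h3))
        · exact Or.inl (huni b gb.2 _ _ h1 h2)
        · exact Or.inl (huni b gb.2 _ _ h1 h2)
  cross x ha w w' e hw hw' := by
    rcases hJ.cases h ha with ⟨p, hp1, -, -⟩ | ⟨a, b, ha, hb, -, -, hd, he⟩
    · exfalso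
      rw [hp1, Set.mem_singleton_iff] at hw hw'
      rw [hw, hw'] at e
      exact D.G.loopless.irrefl _ e
    · have ga := hJ.good h a
      have gb := hJ.good h b
      obtain ⟨-, -, -, -, s5⟩ := brg_spec D.tree ga.1 gb.1 ga.2 gb.2 hd
      rw [he] at hw hw'
      rcases (s5 w w' e).1 ⟨hw, hw'⟩ with ⟨h3, -⟩ | ⟨-, h3⟩
      · exact ⟨a, ha, h3⟩
      · exact ⟨b, hb, h3⟩
  fin := by
    classical
    obtain ⟨F, hF, hFs, hFr⟩ := FinOrb_iff.1 K.fin
    have hx : ∀ x ∈ F, ∃ E : Set D.X, E.Finite ∧ E ⊆ J x ∧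
        ∀ w ∈ J x, ∃ f ∈ E, ∃ g : H, g • x = x ∧ g • f = w := by
      intro x hxF
      by_cases h0 : ∀ a, ¬ K.ar x a
      · obtain ⟨E, hE, hEs, hEr⟩ := FinOrb_iff.1 (h.L_fin x h0)
        rw [hJ.sink x h0]
        refine ⟨E, hE, hEs, fun w hw => ?_⟩
        obtain ⟨f, hf, g, hg⟩ := hEr w hw
        exact ⟨f, hf, g.1, g.2, hg⟩
      · push Not at h0
        exact ⟨J x, hJ.fin_soft h x h0, Set.Subset.rfl, fun w hw =>
          ⟨w, hw, 1, one_smul _ _, one_smul _ _⟩⟩
    choose! E hE1 hE2 hE3 using hx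
    refine FinOrb_iff.2 ⟨⋃ x ∈ F, (fun w => (x, w)) '' E x, ?_, ?_, ?_⟩
    · exact hF.biUnion (fun x hx => (hE1 x hx).image _)
    · intro p hp
      simp only [Set.mem_iUnion] at hp
      obtain ⟨x, hx, w, hw, rfl⟩ := hp
      exact hE2 x hx hw
    · rintro ⟨y, w⟩ h2
      obtain ⟨x, hx, g, rfl⟩ := hFr y trivial
      have h3 : g⁻¹ • w ∈ J x := by
        have := hJ.smul h _ g⁻¹ w h2
        rwa [inv_smul_smul] at this
      obtain ⟨f, hf, k, hk1, hk2⟩ := hE3 x hx _ h3
      refine ⟨(x, f), ?_, g * k, ?_⟩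
      · simp only [Set.mem_iUnion]
        exact ⟨x, hx, f, hf, rfl⟩
      · refine Prod.ext ?_ ?_
        · change (g * k) • x = g • x
          rw [mul_smul, hk1]
        · change (g * k) • f = w
          rw [mul_smul, hk2, smul_inv_smul]

end Props

theorem exists_jq (K : PQ H V) (D : Decomp H) (L : V → Set D.X) (q : V → D.X)
    (h : QDat K D L q) : ∃ J : V → Set D.X, IsJQ K D L q J ∧ JS K D J ∧
      (∀ x, (∃ a, K.ar x a) → (J x).Finite) := by
  obtain ⟨J, hJ⟩ := exists_isJQ K D L q h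
  exact ⟨J, hJ, hJ.js h, hJ.fin_soft h⟩

/-- the status of `x` relative to an edge is determined by the statuses of its poles and by the
side of `q x` -/
theorem jq_status (K : PQ H V) (D : Decomp H) (L : V → Set D.X) (q : V → D.X) (h : QDat K D L q)
    (J : V → Set D.X) (hJ : IsJQ K D L q J) {w w' : D.X} (e : D.G.Adj w w') (x : V)
    (ha : ∃ a, K.ar x a) :
    ((w ∈ J x ∧ w' ∈ J x) ↔ ∃ a b, K.ar x a ∧ K.ar x b ∧ J a ⊆ bey D.G w w' ∧ J b ⊆ bey D.G w' w) ∧
    (J x ⊆ bey D.G w w' ↔ (¬ ∃ a, K.ar x a ∧ J a ⊆ bey D.G w' w) ∧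
      ((∃ a, K.ar x a ∧ J a ⊆ bey D.G w w') ∨ q x ∈ bey D.G w w')) := by
  have hg : ∀ a, K.ar x a → Conv D.G (J a) ∧ (J a).Nonempty := fun a ha =>
    hJ.good h a
  have hdisj : ∀ a b, K.ar x a → K.ar x b → J a ⊆ bey D.G w w' → J b ⊆ bey D.G w' w →
      ¬ (J a ∩ J b).Nonempty := by
    rintro a b - - h1 h2 ⟨z, hz1, hz2⟩
    exact bey_not_both (h1 hz1) (h2 hz2)
  constructor
  · constructor
    · rintro ⟨hw, hw'⟩
      rcases hJ.cases h ha with ⟨p, hp1, -, -⟩ | ⟨a, b, ha, hb, -, -, hd, he⟩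
      · exfalso
        rw [hp1, Set.mem_singleton_iff] at hw hw'
        rw [hw, hw'] at e
        exact D.G.loopless.irrefl _ e
      · obtain ⟨-, -, -, -, s5⟩ := brg_spec D.tree (hg a ha).1 (hg b hb).1 (hg a ha).2
          (hg b hb).2 hd
        rw [he] at hw hw'
        rcases (s5 w w' e).1 ⟨hw, hw'⟩ with ⟨h3, h4⟩ | ⟨h3, h4⟩
        · exact ⟨a, b, ha, hb, h3, h4⟩
        · exact ⟨b, a, hb, ha, h4, h3⟩
    · rintro ⟨a, b, ha, hb, h1, h2⟩
      have hd := hdisj a b ha hb h1 h2
      obtain ⟨-, -, -, -, s5⟩ := brg_spec D.tree (hg a ha).1 (hg b hb).1 (hg a ha).2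
        (hg b hb).2 hd
      rw [hJ.br x a b ha hb hd]
      exact (s5 w w' e).2 (Or.inl ⟨h1, h2⟩)
  · rcases hJ.cases h ha with ⟨p, hp1, hp2, hp3⟩ | ⟨a, b, ha, hb, hab, hc, hd, he⟩
    · -- no pole subtree on one side: they all contain the edge
      have hin : ∀ (u u' : D.X), D.G.Adj u u' → (¬ ∃ a, K.ar x a ∧ J a ⊆ bey D.G u u') →
          (¬ ∃ a, K.ar x a ∧ J a ⊆ bey D.G u' u) → q x ∈ bey D.G u' u → p ∈ bey D.G u u' →
          False := by
        intro u u' e h1 h2 h3 h4
        have h5 : ∀ a, K.ar x a → u ∈ J a := by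
          intro a ha
          rcases conv_tri_q D.tree (hg a ha).1 e with h6 | h6 | h6
          · exact absurd ⟨a, ha, h6⟩ h1
          · exact absurd ⟨a, ha, h6⟩ h2
          · exact h6.1
        have h6 := hp3 u h5
        have h3' : D.G.dist (q x) u' = D.G.dist (q x) u + 1 := h3
        have h4' : D.G.dist p u = D.G.dist p u' + 1 := h4
        have h7 := dist_cross D.tree e h3' h4'
        have c1 : D.G.dist u' p = D.G.dist p u' := SimpleGraph.dist_comm
        omega
      constructor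
      · intro hsub
        have hp : p ∈ bey D.G w w' := hsub (by rw [hp1]; rfl)
        have h1 : ¬ ∃ a, K.ar x a ∧ J a ⊆ bey D.G w' w := by
          rintro ⟨a, ha, h2⟩
          exact bey_not_both hp (h2 (hp2 a ha))
        refine ⟨h1, ?_⟩
        by_contra hcon
        push Not at hcon
        have h2 : q x ∈ bey D.G w' w := (side_or D.tree e (q x)).resolve_left hcon.2
        exact hin w w' e (fun ⟨a, ha, h3⟩ => hcon.1 a ha h3) h1 h2 hp
      · rintro ⟨h1, h2⟩ z hz
        rw [hp1, Set.mem_singleton_iff] at hz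
        subst hz
        by_cases h3 : ∃ a, K.ar x a ∧ J a ⊆ bey D.G w w'
        · obtain ⟨a, ha, h4⟩ := h3
          exact h4 (hp2 a ha)
        · have h4 := h2.resolve_left h3
          rcases side_or D.tree e z with h5 | h5
          · exact h5
          · exact (hin w' w e.symm h1 h3 h4 h5).elim
    · obtain ⟨-, -, ⟨pa, s3⟩, ⟨pb, s4⟩, s5⟩ := brg_spec D.tree (hg a ha).1 (hg b hb).1 (hg a ha).2
        (hg b hb).2 hd
      have hpa : pa ∈ brg D.G (J a) (J b) ∩ J a := by rw [s3]; rfl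
      have hpb : pb ∈ brg D.G (J a) (J b) ∩ J b := by rw [s4]; rfl
      constructor
      · intro hsub
        rw [he] at hsub
        have h1 : ¬ ∃ c, K.ar x c ∧ J c ⊆ bey D.G w' w := by
          rintro ⟨c, hc', h2⟩
          rcases hc c hc' with rfl | rfl
          · exact bey_not_both (hsub hpa.1) (h2 hpa.2)
          · exact bey_not_both (hsub hpb.1) (h2 hpb.2)
        refine ⟨h1, Or.inl ?_⟩
        by_contra hcon
        push Not at hcon
        rcases conv_tri_q D.tree (hg a ha).1 e with h6 | h6 | h6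
        · exact hcon a ha h6
        · exact h1 ⟨a, ha, h6⟩
        · rcases conv_tri_q D.tree (hg b hb).1 e with h7 | h7 | h7
          · exact hcon b hb h7
          · exact h1 ⟨b, hb, h7⟩
          · exact hd ⟨w, h6.1, h7.1⟩
      · rintro ⟨h1, -⟩
        -- one side contains a pole subtree
        have key : ∀ c d, K.ar x c → K.ar x d → ¬ (J c ∩ J d).Nonempty → J x = brg D.G (J c) (J d) →
            J c ⊆ bey D.G w w' → J x ⊆ bey D.G w w' := by
          intro c d hc hd' hcd hbr hsub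
          have hgc := hg c hc
          have hgd := hg d hd'
          obtain ⟨t1, -, ⟨pc, t3⟩, ⟨pd, t4⟩, t5⟩ := brg_spec D.tree hgc.1 hgd.1 hgc.2 hgd.2 hcd
          rw [hbr]
          have hpc : pc ∈ brg D.G (J c) (J d) ∩ J c := by rw [t3]; rfl
          rcases conv_tri_q D.tree t1 e with h2 | h2 | h2
          · exact h2
          · exact (bey_not_both (hsub hpc.2) (h2 hpc.1)).elim
          · rcases (t5 w w' e).1 h2 with ⟨-, h3⟩ | ⟨h3, -⟩
            · exact absurd ⟨d, hd', h3⟩ h1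
            · exact (bey_not_both (hsub hpc.2) (h3 hpc.2)).elim
        rcases conv_tri_q D.tree (hg a ha).1 e with h6 | h6 | h6
        · exact key a b ha hb hd he h6
        · exact absurd ⟨a, ha, h6⟩ h1
        · rcases conv_tri_q D.tree (hg b hb).1 e with h7 | h7 | h7
          · exact key b a hb ha (fun ⟨z, z1, z2⟩ => hd ⟨z, z2, z1⟩) (by rw [he, brg_comm]) h7
          · exact absurd ⟨b, hb, h7⟩ h1
          · exact (hd ⟨w, h6.1, h7.1⟩).elim

end JQ

end Pool.Agent.BT
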