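import Pool.Agent.BT.PRed

/-!
# Pentagon complexes: the cleaning theorem
-/

namespace Pool.Agent.BT

open MulAction
open Pool.Agent.SAF (InC orbs FinOrb oc Decomp SAn SA)

section

variable {H V V' : Type} [Group H] [MulAction H V] [MulAction H V']

namespace PX

/-- clean complexes: no vertex with exactly one pole, girth at least five -/
structure Clean (K : PX H V) : Prop where
  out : ∀ s a, K.ar s a → ∃ b, K.ar s b ∧ b ≠ a
  c3 : ∀ x y z, K.E x y → K.E y z → K.E z x → False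
  c4 : ∀ x y z w, K.E x y → K.E y z → K.E z w → K.E w x → x = z ∨ y = w

/-- the stabiliser of a soft vertex is the stabiliser of its pair of poles -/
def Stb (K : PX H V) (s : V) : Prop := ∀ a b, K.Pol s a b → ∀ g ∈ pst (H := H) a b, g • s = s

/-- poles of old vertices after an enlargement -/
theorem Pol.pol_ef {K : PX H V} {s a b : V} (p : K.Pol s a b) {v : V} {c d : EV H s a b}
    (q : p.qd.px.Pol (ef (H := H) s a b v) c d) :
    ∃ c' d', K.Pol v c' d' ∧ ef (H := H) s a b c' = c ∧ ef (H := H) s a b d' = d := by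
  obtain ⟨c', h1, e1⟩ := p.ar_ef.1 q.pa
  obtain ⟨d', h2, e2⟩ := p.ar_ef.1 q.pb
  exact ⟨c', d', ⟨h1, h2, fun e => q.ne (by rw [← e1, ← e2, e])⟩, e1, e2⟩

theorem Pol.ef_lt {K : PX H V} {s a b : V} (p : K.Pol s a b) {v w : V} (h : K.rk v < K.rk s ∨
    ∀ k : H, k • s ≠ v) (e : ef (H := H) s a b v = ef (H := H) s a b w) : v = w := by
  rcases p.ef_inj e with e | ⟨k, l, rfl, rfl, -⟩
  · exact e
  · rcases h with h | h
    · rw [K.rk_smul] at h
      exact absurd h (lt_irrefl _)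
    · exact absurd rfl (h k)

/-- stability of old vertices of small rank is not changed -/
theorem Pol.stb_old {K : PX H V} {s a b : V} (p : K.Pol s a b) {v : V} (hv : K.rk v ≤ K.rk s)
    (hv' : ∀ k : H, k • s ≠ v) (h : K.Stb v) : p.qd.px.Stb (ef (H := H) s a b v) := by
  intro c d q g hg
  obtain ⟨c', d', p', rfl, rfl⟩ := p.pol_ef q
  rw [← p.ef_smul]
  congr 1
  apply h c' d' p' g
  have rc : K.rk c' < K.rk s := lt_of_lt_of_le (K.ar_rk _ _ p'.pa) hv
  have rd : K.rk d' < K.rk s := lt_of_lt_of_le (K.ar_rk _ _ p'.pb) hv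
  have rgc : K.rk (g • c') < K.rk s := by rw [K.rk_smul]; exact rc
  have rgd : K.rk (g • d') < K.rk s := by rw [K.rk_smul]; exact rd
  rw [mem_pst] at hg ⊢
  rcases hg with ⟨h1, h2⟩ | ⟨h1, h2⟩
  · left
    rw [← p.ef_smul] at h1 h2
    exact ⟨p.ef_lt (Or.inl rgc) h1, p.ef_lt (Or.inl rgd) h2⟩
  · right
    rw [← p.ef_smul] at h1 h2
    exact ⟨p.ef_lt (Or.inl rgc) h1, p.ef_lt (Or.inl rgd) h2⟩

/-- the enlarged vertex is stable -/
theorem Pol.stb_new {K : PX H V} {s a b : V} (p : K.Pol s a b) (k : H) :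
    p.qd.px.Stb (ef (H := H) s a b (k • s)) := by
  intro c d q g hg
  obtain ⟨c', d', p', rfl, rfl⟩ := p.pol_ef q
  rw [← p.ef_smul, ← mul_smul, p.ef_s, p.ef_s]
  congr 1
  rw [eq_comm, QuotientGroup.eq]
  -- `g` preserves the pair of poles of `k • s`
  have rs : K.rk (k • s) = K.rk s := K.rk_smul _ _
  have rc : K.rk c' < K.rk s := by rw [← rs]; exact K.ar_rk _ _ p'.pa
  have rd : K.rk d' < K.rk s := by rw [← rs]; exact K.ar_rk _ _ p'.pb
  have rgc : K.rk (g • c') < K.rk s := by rw [K.rk_smul]; exact rc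
  have rgd : K.rk (g • d') < K.rk s := by rw [K.rk_smul]; exact rd
  have hg' : g ∈ pst (H := H) c' d' := by
    rw [mem_pst] at hg ⊢
    rcases hg with ⟨h1, h2⟩ | ⟨h1, h2⟩
    · left
      rw [← p.ef_smul] at h1 h2
      exact ⟨p.ef_lt (Or.inl rgc) h1, p.ef_lt (Or.inl rgd) h2⟩
    · right
      rw [← p.ef_smul] at h1 h2
      exact ⟨p.ef_lt (Or.inl rgc) h1, p.ef_lt (Or.inl rgd) h2⟩
  have pk := p.smul k
  have hk : g ∈ pst (H := H) (k • a) (k • b) := by
    rcases pk.only p'.pa with e1 | e1 <;> rcases pk.only p'.pb with e2 | e2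
    · exact absurd (e1.trans e2.symm) p'.ne
    · rw [← e1, ← e2]; exact hg'
    · rw [← e1, ← e2]
      rcases mem_pst.1 hg' with ⟨h1, h2⟩ | ⟨h1, h2⟩
      · exact mem_pst.2 (Or.inl ⟨h2, h1⟩)
      · exact mem_pst.2 (Or.inr ⟨h2, h1⟩)
    · exact absurd (e1.trans e2.symm) p'.ne
  have h3 : ∀ c d : V, g • k • c = k • d → (k⁻¹ * (g * k)) • c = d := by
    intro c d e
    rw [mul_smul, mul_smul, e, inv_smul_smul]
  rcases mem_pst.1 hk with ⟨h1, h2⟩ | ⟨h1, h2⟩
  · exact mem_pst.2 (Or.inl ⟨h3 _ _ h1, h3 _ _ h2⟩)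
  · exact mem_pst.2 (Or.inr ⟨h3 _ _ h1, h3 _ _ h2⟩)

/-- the unstable vertices of rank `r` -/
def Un (K : PX H V) (r : ℕ) : Set V := {s | K.rk s = r ∧ ¬ K.Stb s}

end PX

open PX

theorem sweep_inner : ∀ (n r : ℕ) (V : Type) [MulAction H V] (K : PX H V),
    (∀ v, K.rk v < r → K.Stb v) → oc H (K.Un r) = n →
    ∃ (V' : Type) (_ : MulAction H V') (K' : PX H V') (f : V → V'), Red K K' f ∧
      oc H (Set.univ : Set V') ≤ oc H (Set.univ : Set V) ∧ (∀ v, K'.rk (f v) = K.rk v) ∧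
      ∀ v, K'.rk v < r + 1 → K'.Stb v := by
  intro n
  induction n using Nat.strong_induction_on with
  | _ n ih =>
    intro r V _ K hr hn
    by_cases hall : ∀ v, K.rk v < r + 1 → K.Stb v
    · exact ⟨V, inferInstance, K, id, Red.refl K, le_rfl, fun _ => rfl, hall⟩
    · push Not at hall
      obtain ⟨s, hs1, hs2⟩ := hall
      have hrs : K.rk s = r := by
        by_contra hne
        exact hs2 (hr s (by omega))
      have hs2' := hs2
      unfold PX.Stb at hs2'
      push Not at hs2'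
      obtain ⟨a, b, p, -⟩ := hs2'
      have hold : ∀ v, p.qd.px.rk (ef (H := H) s a b v) < r + 1 →
          ¬ p.qd.px.Stb (ef (H := H) s a b v) → (∀ k : H, k • s ≠ v) ∧ K.rk v = r ∧
            ¬ K.Stb v := by
        intro v h1 h2
        rw [p.rk_ef] at h1
        rcases p.ef_cases v with ⟨k, rfl, -⟩ | ⟨hv, -⟩
        · exact absurd (p.stb_new k) h2
        · have h3 : ¬ K.Stb v := fun h => h2 (p.stb_old (by omega) hv h)
          refine ⟨hv, ?_, h3⟩
          by_contra hne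
          exact h3 (hr v (by omega))
      have hlt : oc H (p.qd.px.Un r) < n := by
        rw [← hn]
        choose g hg using p.ef_surj
        have hfin : FinOrb H (K.Un r) := SAF.FinOrb.mono (Set.subset_univ _) K.fin
        refine SAF.oc_lt_of_inj hfin g ?_ ?_ (b0 := s) ⟨hrs, hs2⟩ ?_
        · rintro c ⟨h1, h2⟩
          rw [← hg c] at h1 h2
          obtain ⟨-, h3, h4⟩ := hold (g c) (by omega) h2
          exact ⟨h3, h4⟩
        · rintro c _ d _ ⟨h, e⟩
          refine ⟨h, ?_⟩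
          rw [← hg c, ← hg d, ← p.ef_smul, e]
        · rintro c ⟨h1, h2⟩ h e
          rw [← hg c] at h1 h2
          obtain ⟨h3, -, -⟩ := hold (g c) (by omega) h2
          exact h3 h⁻¹ (inv_smul_eq_iff.2 e.symm)
      obtain ⟨V', i', K', f, h1, h2, h3, h4⟩ := ih _ hlt r (EV H s a b) p.qd.px (by
        intro c hc
        obtain ⟨v, rfl⟩ := p.ef_surj c
        by_contra hcon
        obtain ⟨-, h3, -⟩ := hold v (by omega) hcon
        rw [p.rk_ef] at hc
        omega) rfl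
      refine ⟨V', i', K', fun v => f (ef (H := H) s a b v), p.red.trans h1,
        h2.trans p.oc_eq, ?_, h4⟩
      intro v
      rw [h3, p.rk_ef]

theorem sweep : ∀ (r : ℕ) (V : Type) [MulAction H V] (K : PX H V),
    ∃ (V' : Type) (_ : MulAction H V') (K' : PX H V') (f : V → V'), Red K K' f ∧
      oc H (Set.univ : Set V') ≤ oc H (Set.univ : Set V) ∧ (∀ v, K'.rk (f v) = K.rk v) ∧
      ∀ v, K'.rk v < r → K'.Stb v := by
  intro r
  induction r with
  | zero =>
    intro V _ K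
    exact ⟨V, inferInstance, K, id, Red.refl K, le_rfl, fun _ => rfl, fun v h => absurd h (by omega)⟩
  | succ r ih =>
    intro V _ K
    obtain ⟨V1, i1, K1, f1, a1, a2, a3, a4⟩ := ih V K
    obtain ⟨V2, i2, K2, f2, b1, b2, b3, b4⟩ := sweep_inner _ r V1 K1 a4 rfl
    exact ⟨V2, i2, K2, fun v => f2 (f1 v), a1.trans b1, b2.trans a2,
      fun v => by rw [b3, a3], b4⟩

theorem PX.rk_bdd (K : PX H V) : ∃ R, ∀ v, K.rk v < R := by
  obtain ⟨F, hF, -, hc⟩ := SAF.FinOrb_iff.1 K.fin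
  obtain ⟨R, hR⟩ := (hF.image K.rk).bddAbove
  refine ⟨R + 1, fun v => ?_⟩
  obtain ⟨w, hw, h, rfl⟩ := hc v trivial
  rw [K.rk_smul]
  exact Nat.lt_succ_of_le (hR (Set.mem_image_of_mem _ hw))

/-- all soft vertices can be made stable -/
theorem sweep_all (K : PX H V) :
    ∃ (V' : Type) (_ : MulAction H V') (K' : PX H V') (f : V → V'), Red K K' f ∧
      oc H (Set.univ : Set V') ≤ oc H (Set.univ : Set V) ∧ ∀ v, K'.Stb v := by
  obtain ⟨R, hR⟩ := K.rk_bdd
  obtain ⟨V1, i1, K1, f1, a1, a2, a3, a4⟩ := sweep R V K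
  refine ⟨V1, i1, K1, f1, a1, a2, fun v => a4 v ?_⟩
  obtain ⟨w, rfl⟩ := a1.surj v
  rw [a3]
  exact hR w

namespace PX

variable {K : PX H V}

theorem abs_hair {s a : V} (h : K.ar s a) (h' : ∀ b, K.ar s b → b = a) : K.Abs s a where
  ne := by
    rintro k rfl
    have := K.ar_rk _ _ h
    rw [K.rk_smul] at this
    exact lt_irrefl _ this
  st := by
    intro k hk
    apply h'
    have := K.ar_smul k _ _ h
    rwa [hk] at this
  rk := (K.ar_rk _ _ h).le
  edge := fun b hb => Or.inl (h' b hb)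
  nb := Or.inl (Or.inl h)
  soft := ⟨a, h⟩

theorem abs_same {s s' a b : V} (hst : ∀ v, K.Stb v) (p : K.Pol s a b) (p' : K.Pol s' a b)
    (hne : s ≠ s') (hr : K.rk s' ≤ K.rk s) : K.Abs s s' where
  ne := by
    rintro h rfl
    apply hne
    symm
    apply hst s a b p
    have q := p.smul h
    rw [mem_pst]
    rcases q.only p'.pa with e1 | e1 <;> rcases q.only p'.pb with e2 | e2
    · exact absurd (e1.trans e2.symm) p.ne
    · exact Or.inl ⟨e1.symm, e2.symm⟩
    · exact Or.inr ⟨e2.symm, e1.symm⟩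
    · exact absurd (e1.trans e2.symm) p.ne
  st := fun h hh => hst s' a b p' h (p.st_le hh)
  rk := hr
  edge := by
    intro c hc
    rcases p.only hc with rfl | rfl
    · exact Or.inr (Or.inl p'.pa)
    · exact Or.inr (Or.inl p'.pb)
  nb := Or.inr ⟨a, Or.inr p.pa, Or.inr p'.pa⟩
  soft := ⟨a, p.pa⟩

theorem exists_abs_same {s s' a b : V} (hst : ∀ v, K.Stb v) (p : K.Pol s a b)
    (p' : K.Pol s' a b) (hne : s ≠ s') : ∃ u x, K.Abs u x := by
  rcases le_total (K.rk s') (K.rk s) with h | h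
  · exact ⟨_, _, abs_same hst p p' hne h⟩
  · exact ⟨_, _, abs_same hst p' p hne.symm h⟩

/-- an element of the stabiliser fixes poles of different ranks -/
theorem Pol.fix {s a b : V} (p : K.Pol s a b) (hr : K.rk a ≠ K.rk b) {h : H} (hh : h • s = s) :
    h • a = a ∧ h • b = b := by
  rcases mem_pst.1 (p.st_le (mem_stabilizer_iff.2 hh)) with h1 | ⟨h1, h2⟩
  · exact h1
  · exfalso
    apply hr
    rw [← h1, K.rk_smul]

theorem abs_c3 {s a b : V} (p : K.Pol s a b) (h : K.ar a b) : K.Abs s a where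
  ne := by
    rintro k rfl
    have := K.ar_rk _ _ p.pa
    rw [K.rk_smul] at this
    exact lt_irrefl _ this
  st := fun k hk => (p.fix (K.ar_rk _ _ h).ne' hk).1
  rk := (K.ar_rk _ _ p.pa).le
  edge := by
    intro c hc
    rcases p.only hc with rfl | rfl
    · exact Or.inl rfl
    · exact Or.inr (Or.inl h)
  nb := Or.inl (Or.inl p.pa)
  soft := ⟨a, p.pa⟩

theorem exists_abs_iii {s a b c : V} (hst : ∀ v, K.Stb v) (p : K.Pol s a b) (h1 : K.ar a c)
    (h2 : K.ar b c) : ∃ u x, K.Abs u x := by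
  by_cases hc : ∀ h : H, h • s = s → h • c = c
  · refine ⟨s, c, ⟨?_, hc, ?_, ?_, ?_, ⟨a, p.pa⟩⟩⟩
    · rintro k rfl
      have e1 := K.ar_rk _ _ p.pa
      have e2 := K.ar_rk _ _ h1
      rw [K.rk_smul] at e2
      omega
    · exact ((K.ar_rk _ _ h1).trans (K.ar_rk _ _ p.pa)).le
    · intro d hd
      rcases p.only hd with rfl | rfl
      · exact Or.inr (Or.inr h1)
      · exact Or.inr (Or.inr h2)
    · exact Or.inr ⟨a, Or.inr p.pa, Or.inl h1⟩
  · push Not at hc
    obtain ⟨h, hh, hne⟩ := hc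
    have g1 := K.ar_smul h _ _ h1
    have g2 := K.ar_smul h _ _ h2
    have hq : K.Pol a c (h • c) ∧ K.Pol b c (h • c) := by
      rcases mem_pst.1 (p.st_le (mem_stabilizer_iff.2 hh)) with ⟨e1, e2⟩ | ⟨e1, e2⟩
      · rw [e1] at g1
        rw [e2] at g2
        exact ⟨⟨h1, g1, hne.symm⟩, ⟨h2, g2, hne.symm⟩⟩
      · rw [e1] at g1
        rw [e2] at g2
        exact ⟨⟨h1, g2, hne.symm⟩, ⟨h2, g1, hne.symm⟩⟩
    exact exists_abs_same hst hq.1 hq.2 p.ne

theorem exists_abs_iv {s a b c : V} (hst : ∀ v, K.Stb v) (h1 : K.ar s a) (h2 : K.ar a b)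
    (h3 : K.ar b c) (h4 : K.ar s c) : ∃ u x, K.Abs u x := by
  have r1 := K.ar_rk _ _ h1
  have r2 := K.ar_rk _ _ h2
  have r3 := K.ar_rk _ _ h3
  have p : K.Pol s a c := ⟨h1, h4, fun e => by rw [e] at r2; omega⟩
  have hfix : ∀ h : H, h • s = s → h • a = a ∧ h • c = c := fun h hh => p.fix (by omega) hh
  by_cases hb : ∀ h : H, h • s = s → h • b = b
  · refine ⟨s, b, ⟨?_, hb, by omega, ?_, ?_, ⟨a, p.pa⟩⟩⟩
    · rintro k rfl
      rw [K.rk_smul] at r2
      omega
    · intro d hd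
      rcases p.only hd with rfl | rfl
      · exact Or.inr (Or.inr h2)
      · exact Or.inr (Or.inl h3)
    · exact Or.inr ⟨a, Or.inr p.pa, Or.inl h2⟩
  · push Not at hb
    obtain ⟨h, hh, hne⟩ := hb
    obtain ⟨e1, e2⟩ := hfix h hh
    have g2 := K.ar_smul h _ _ h2
    have g3 := K.ar_smul h _ _ h3
    rw [e1] at g2
    rw [e2] at g3
    exact exists_abs_iii hst ⟨h2, g2, hne.symm⟩ h3 g3

theorem exists_abs_c3 {x y z : V} (h1 : K.E x y) (h2 : K.E y z)
    (h3 : K.E z x) : ∃ u v, K.Abs u v := by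
  have key : ∀ x y z, K.E x y → K.E y z → K.E z x → K.rk y ≤ K.rk x → K.rk z ≤ K.rk x →
      ∃ u v, K.Abs u v := by
    intro x y z h1 h2 h3 r1 r2
    have a1 : K.ar x y := h1.resolve_right (fun h => by have := K.ar_rk _ _ h; omega)
    have a2 : K.ar x z := h3.resolve_left (fun h => by have := K.ar_rk _ _ h; omega)
    rcases h2 with h2 | h2
    · exact ⟨_, _, abs_c3 ⟨a1, a2, fun e => K.E_irr _ (e ▸ Or.inl h2)⟩ h2⟩
    · exact ⟨_, _, abs_c3 ⟨a2, a1, fun e => K.E_irr _ (e ▸ Or.inl h2)⟩ h2⟩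
  rcases le_total (K.rk x) (K.rk y) with r1 | r1 <;> rcases le_total (K.rk y) (K.rk z) with r2 | r2 <;>
    rcases le_total (K.rk z) (K.rk x) with r3 | r3
  all_goals first
    | exact key x y z h1 h2 h3 (by omega) (by omega)
    | exact key y z x h2 h3 h1 (by omega) (by omega)
    | exact key z x y h3 h1 h2 (by omega) (by omega)

theorem exists_abs_c4 {x y z w : V} (hst : ∀ v, K.Stb v) (h1 : K.E x y) (h2 : K.E y z)
    (h3 : K.E z w) (h4 : K.E w x) (hxz : x ≠ z) (hyw : y ≠ w) : ∃ u v, K.Abs u v := by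
  have key : ∀ x y z w, K.E x y → K.E y z → K.E z w → K.E w x → x ≠ z → y ≠ w →
      K.rk y ≤ K.rk x → K.rk w ≤ K.rk x → ∃ u v, K.Abs u v := by
    intro x y z w h1 h2 h3 h4 hxz hyw r1 r2
    have a1 : K.ar x y := h1.resolve_right (fun h => by have := K.ar_rk _ _ h; omega)
    have a2 : K.ar x w := h4.resolve_left (fun h => by have := K.ar_rk _ _ h; omega)
    rcases h2 with h2 | h2 <;> rcases h3 with h3 | h3
    · exact exists_abs_iv hst a1 h2 h3 a2
    · exact exists_abs_iii hst ⟨a1, a2, hyw⟩ h2 h3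
    · exact exists_abs_same hst (s := x) (s' := z) ⟨a1, a2, hyw⟩ ⟨h2, h3, hyw⟩ hxz
    · exact exists_abs_iv hst a2 h3 h2 a1
  rcases le_total (K.rk x) (K.rk y) with r1 | r1 <;> rcases le_total (K.rk y) (K.rk z) with r2 | r2 <;>
    rcases le_total (K.rk z) (K.rk w) with r3 | r3 <;>
    rcases le_total (K.rk w) (K.rk x) with r4 | r4
  all_goals first
    | exact key x y z w h1 h2 h3 h4 hxz hyw (by omega) (by omega)
    | exact key y z w x h2 h3 h4 h1 hyw hxz.symm (by omega) (by omega)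
    | exact key z w x y h3 h4 h1 h2 hxz.symm hyw.symm (by omega) (by omega)
    | exact key w x y z h4 h1 h2 h3 hyw.symm hxz (by omega) (by omega)

/-- a stable complex without possible absorption is clean -/
theorem clean_of (hst : ∀ v, K.Stb v) (hno : ¬ ∃ u x, K.Abs u x) : K.Clean where
  out := by
    intro s a h
    by_contra hcon
    push Not at hcon
    exact hno ⟨s, a, abs_hair h hcon⟩
  c3 := fun x y z h1 h2 h3 => hno (exists_abs_c3 h1 h2 h3)
  c4 := by
    intro x y z w h1 h2 h3 h4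
    by_contra hcon
    push Not at hcon
    exact hno (exists_abs_c4 hst h1 h2 h3 h4 hcon.1 hcon.2)

end PX

/-- THE CLEANING THEOREM -/
theorem exists_clean' : ∀ (n : ℕ) (V : Type) [MulAction H V] (K : PX H V),
    oc H (Set.univ : Set V) = n →
    ∃ (V' : Type) (_ : MulAction H V') (K' : PX H V') (f : V → V'), Red K K' f ∧ K'.Clean := by
  intro n
  induction n using Nat.strong_induction_on with
  | _ n ih =>
    intro V _ K hn
    obtain ⟨V1, i1, K1, f1, r1, h1, st1⟩ := sweep_all K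
    by_cases h : ∃ u x, K1.Abs u x
    · obtain ⟨u, x, a⟩ := h
      obtain ⟨V2, i2, K2, f2, r2, c2⟩ := ih _ (lt_of_lt_of_le a.oc_lt (h1.trans hn.le)) _ a.qd.px rfl
      exact ⟨V2, i2, K2, fun v => f2 (a.f (f1 v)), (r1.trans a.red).trans r2, c2⟩
    · exact ⟨V1, i1, K1, f1, r1, PX.clean_of st1 h⟩

theorem exists_clean (K : PX H V) :
    ∃ (V' : Type) (_ : MulAction H V') (K' : PX H V') (f : V → V'), Red K K' f ∧ K'.Clean :=
  exists_clean' _ V K rfl

end

end Pool.Agent.BT
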