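import Pool.Agent.BT.PBase

/-!
# Pentagon complexes: the potentials
-/

namespace Pool.Agent.BT

open MulAction
open Pool.Agent.SAF (InC orbs FinOrb oc Decomp SAn SA)

namespace PX

variable {H V : Type} [Group H] [MulAction H V]

/-- the pair is an edge of a translate of a pentagon -/
def InP (K : PX H V) (x y : V) : Prop :=
  ∃ (h : H) (i : K.I) (j : Fin 5), (x = h • K.pt i j ∧ y = h • K.pt i (j + 1)) ∨
    (y = h • K.pt i j ∧ x = h • K.pt i (j + 1))

/-- the vertex lies on a translate of a pentagon -/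
def VP (K : PX H V) (v : V) : Prop := ∃ (h : H) (i : K.I) (j : Fin 5), v = h • K.pt i j

/-- the arrows in pentagons -/
def PA (K : PX H V) : Set (V × V) := {p | K.ar p.1 p.2 ∧ K.InP p.1 p.2}

/-- the sinks on pentagons -/
def PS (K : PX H V) : Set V := {v | K.Sink v ∧ K.VP v}

/-- mass of the (light) arrows in pentagons -/
noncomputable def Ew (K : PX H V) : ℚ := mass H K.PA

/-- number of orbits of sinks on pentagons -/
noncomputable def Ns (K : PX H V) : ℕ := oc H K.PS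

variable {K : PX H V}

theorem InP.symm {x y : V} (h : K.InP x y) : K.InP y x := by
  obtain ⟨g, i, j, h⟩ := h
  exact ⟨g, i, j, h.symm⟩

theorem InP.smul (g : H) {x y : V} (h : K.InP x y) : K.InP (g • x) (g • y) := by
  obtain ⟨a, i, j, h⟩ := h
  refine ⟨g * a, i, j, ?_⟩
  rcases h with ⟨rfl, rfl⟩ | ⟨rfl, rfl⟩
  · left; simp only [mul_smul, and_self]
  · right; simp only [mul_smul, and_self]

theorem InP.E {x y : V} (h : K.InP x y) : K.E x y := by
  obtain ⟨g, i, j, h⟩ := h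
  have e := K.E_smul g (x := K.pt i j) (y := K.pt i (j + 1)) (K.pt_E i j)
  rcases h with ⟨rfl, rfl⟩ | ⟨rfl, rfl⟩
  · exact e
  · exact e.symm

theorem VP.smul (g : H) {x : V} (h : K.VP x) : K.VP (g • x) := by
  obtain ⟨a, i, j, rfl⟩ := h
  exact ⟨g * a, i, j, (mul_smul _ _ _).symm⟩

theorem VP_pt (i : K.I) (j : Fin 5) : K.VP (K.pt i j) := ⟨1, i, j, (one_smul _ _).symm⟩

theorem InP_pt (i : K.I) (j : Fin 5) : K.InP (K.pt i j) (K.pt i (j + 1)) :=
  ⟨1, i, j, Or.inl ⟨(one_smul _ _).symm, (one_smul _ _).symm⟩⟩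

theorem InP.vp {x y : V} (h : K.InP x y) : K.VP x := by
  obtain ⟨g, i, j, h⟩ := h
  rcases h with ⟨rfl, rfl⟩ | ⟨rfl, rfl⟩
  · exact ⟨g, i, j, rfl⟩
  · exact ⟨g, i, j + 1, rfl⟩

theorem VP.inp {x : V} (h : K.VP x) : ∃ y, K.InP x y := by
  obtain ⟨g, i, j, rfl⟩ := h
  exact ⟨g • K.pt i (j + 1), g, i, j, Or.inl ⟨rfl, rfl⟩⟩

theorem PA_smul (K : PX H V) (g : H) (p : V × V) (hp : p ∈ K.PA) : g • p ∈ K.PA :=
  ⟨K.ar_smul g _ _ hp.1, hp.2.smul g⟩

theorem PS_smul (K : PX H V) (g : H) (v : V) (hv : v ∈ K.PS) : g • v ∈ K.PS := by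
  refine ⟨?_, hv.2.smul g⟩
  intro a ha
  have := K.ar_smul g⁻¹ _ _ ha
  rw [inv_smul_smul] at this
  exact hv.1 _ this

theorem Ew_nonneg (K : PX H V) : 0 ≤ K.Ew := mass_nonneg _

theorem PS_fin (K : PX H V) : FinOrb H K.PS := SAF.FinOrb.mono (Set.subset_univ _) K.fin

end PX

end Pool.Agent.BT
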