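import Pool.Agent.BT.Defs
import Pool.Agent.BT.PClean
import Pool.Agent.BT.PPot

/-!
# Pentagon complexes: minimal counterexamples (definitions)
-/

namespace Pool.Agent.BT

open MulAction
open Pool.Agent.SAF (InC orbs FinOrb oc Decomp SAn SA)

section

variable {H V : Type} [Group H] [MulAction H V]

/-- `x`, `y`, `z` are consecutive vertices of a translate of a pentagon -/
def PX.Cor (K : PX H V) (x y z : V) : Prop := ∃ (h : H) (i : K.I) (j : Fin 5),
  (x = h • K.pt i j ∧ y = h • K.pt i (j + 1) ∧ z = h • K.pt i (j + 2)) ∨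
  (z = h • K.pt i j ∧ y = h • K.pt i (j + 1) ∧ x = h • K.pt i (j + 2))

/-- every edge lies in a pentagon -/
def PX.AllP (K : PX H V) : Prop := ∀ x y, K.E x y → K.InP x y

/-- links are connected -/
def PX.LinkC (K : PX H V) : Prop := ∀ x y z, K.E x y → K.E x z →
  Relation.ReflTransGen (fun a b => K.Cor a x b) y z

end

/-- at most the number of pentagons of any complex of a group with torsion bounded by `M` which is
not strongly accessible -/
def PMinA (M n : ℕ) : Prop := ∀ (H : Type) [Group H] (V : Type) [MulAction H V] (K : PX H V),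
  Bd M H → ¬ SA H → n ≤ K.A

def PMinB (M n : ℕ) (b : ℚ) : Prop := PMinA M n ∧
  ∀ (H : Type) [Group H] (V : Type) [MulAction H V] (K : PX H V),
  Bd M H → ¬ SA H → K.A = n → b ≤ K.hg.bb

def PMinE (M n : ℕ) (b e : ℚ) : Prop := PMinB M n b ∧
  ∀ (H : Type) [Group H] (V : Type) [MulAction H V] (K : PX H V),
  Bd M H → ¬ SA H → K.A = n → K.hg.bb = b → K.Ew ≤ e

def PMinS (M n : ℕ) (b e : ℚ) (s : ℕ) : Prop := PMinE M n b e ∧
  ∀ (H : Type) [Group H] (V : Type) [MulAction H V] (K : PX H V),
  Bd M H → ¬ SA H → K.A = n → K.hg.bb = b → K.Ew = e → K.Ns ≤ s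

/-- a minimal counterexample -/
structure PCrit (M : ℕ) {H V : Type} [Group H] [MulAction H V] (K : PX H V) : Prop where
  bd : Bd M H
  bad : ¬ SA H
  clean : K.Clean
  allP : K.AllP
  link : K.LinkC
  min : PMinS M K.A K.hg.bb K.Ew K.Ns

end Pool.Agent.BT
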