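import Pool.Agent.SAG.AS
import Pool.Agent.SAG.AF
import Pool.Agent.SAG.AG

/-!
# BT: finite and two-ended groups are strongly accessible

If there is a decomposition then all its vertex stabilisers are finite: otherwise a vertex
stabiliser has finite index, its vertex has a finite orbit, and there is a fixed vertex.
-/

namespace Pool.Agent.BT

open MulAction
open Pool.Agent.SAF (InC orbs FinOrb oc Decomp SAn SA Conv hull TAct)
open Pool.Agent.SAG (IO)

private theorem sac_index_pow {G : Type} [Group G] {g : G} (h : (Subgroup.zpowers g).FiniteIndex)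
    {n : ℤ} (hn : n ≠ 0) : (Subgroup.zpowers (g ^ n)).FiniteIndex := by
  have hfin : Finite (G ⧸ Subgroup.zpowers g) := inferInstance
  have hfin' : Finite (G ⧸ Subgroup.zpowers (g ^ n)) := by
    refine Finite.of_surjective (fun p : (G ⧸ Subgroup.zpowers g) × (Finset.Ico (0 : ℤ) |n|) =>
      (QuotientGroup.mk (p.1.out * g ^ p.2.1) : G ⧸ Subgroup.zpowers (g ^ n))) ?_
    intro q
    obtain ⟨u, rfl⟩ := QuotientGroup.mk_surjective q
    have h1 : (QuotientGroup.mk ((QuotientGroup.mk u : G ⧸ Subgroup.zpowers g).out) :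
        G ⧸ Subgroup.zpowers g) = QuotientGroup.mk u := Quotient.out_eq' _
    rw [QuotientGroup.eq] at h1
    obtain ⟨k, hk⟩ := h1
    replace hk : g ^ k = ((QuotientGroup.mk u : G ⧸ Subgroup.zpowers g).out)⁻¹ * u := hk
    refine ⟨(QuotientGroup.mk u, ⟨k % n, ?_⟩), ?_⟩
    · rw [Finset.mem_Ico]
      exact ⟨Int.emod_nonneg _ hn, Int.emod_lt_abs _ hn⟩
    · show (QuotientGroup.mk _ : G ⧸ Subgroup.zpowers (g ^ n)) = QuotientGroup.mk u
      rw [QuotientGroup.eq]
      refine ⟨k / n, ?_⟩
      show (g ^ n) ^ (k / n) = _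
      rw [mul_inv_rev, mul_assoc, ← hk, ← zpow_neg, ← zpow_add, ← zpow_mul]
      congr 1
      have h5 := Int.emod_add_mul_ediv k n
      change n * (k / n) = -(k % n) + k
      linarith
  exact Subgroup.finiteIndex_of_finite_quotient

/-- a subgroup of a finite or two-ended group is finite or has finite index -/
theorem finite_or_index {G : Type} [Group G] (h : InC G) (A : Subgroup G) :
    Finite ↥A ∨ A.FiniteIndex := by
  rcases h with h | ⟨g, h1, h2⟩
  · exact Or.inl inferInstance
  by_cases hA : ∃ n : ℤ, n ≠ 0 ∧ g ^ n ∈ A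
  · obtain ⟨n, hn, hm⟩ := hA
    right
    have h3 : (Subgroup.zpowers (g ^ n)).FiniteIndex := sac_index_pow h2 hn
    exact Subgroup.finiteIndex_of_le (by rw [Subgroup.zpowers_le]; exact hm)
  · left
    have hfin : Finite (G ⧸ Subgroup.zpowers g) := inferInstance
    refine Finite.of_injective (fun a : A => (QuotientGroup.mk a.1 : G ⧸ Subgroup.zpowers g)) ?_
    intro a b e
    replace e := QuotientGroup.eq.1 e
    obtain ⟨k, hk⟩ := e
    replace hk : g ^ k = a.1⁻¹ * b.1 := hk
    by_cases hk0 : k = 0
    · rw [hk0, zpow_zero] at hk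
      exact Subtype.ext (inv_mul_eq_one.1 hk.symm)
    · exact absurd ⟨k, hk0, by rw [hk]; exact A.mul_mem (A.inv_mem a.2) b.2⟩ hA

/-- in a decomposition of a group in the class all vertex stabilisers are finite -/
theorem finite_stab_of_InC {H : Type} [Group H] (h : InC H) (D : Decomp H) (x : D.X) :
    Finite ↥(stabilizer H x) := by
  rcases finite_or_index h (stabilizer H x) with h1 | h1
  · exact h1
  · exfalso
    have h2 : Finite (H ⧸ stabilizer H x) := Subgroup.finite_quotient_of_finiteIndex
    have h3 : Finite ↥(orbit H x) := Finite.of_equiv _ (orbitEquivQuotientStabilizer H x).symm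
    obtain ⟨w, hw⟩ := Pool.Agent.SAG.fix_of_finite_orbit D.tact (⊤ : Subgroup H) x (by
      refine (Set.toFinite (orbit H x)).subset ?_
      rintro w ⟨a, -, rfl⟩
      exact ⟨a, rfl⟩)
    obtain ⟨g, hg⟩ := D.nofix w
    exact hg (hw g (Subgroup.mem_top g))

theorem SA_of_InC {H : Type} [Group H] (h : InC H) : SA H := by
  by_cases hD : Nonempty (Decomp H)
  · obtain ⟨D⟩ := hD
    refine Pool.Agent.SAF.SA.of_decomp D fun x => ?_
    have := finite_stab_of_InC h D x
    exact Pool.Agent.SAG.SA_finite
  · exact Pool.Agent.SAF.SA.of_empty (not_nonempty_iff.1 hD)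

end Pool.Agent.BT
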