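import Pool.Agent.BT.ThA3

/-!
# BT: Theorem A

Every system can be made connected: the new tree has as vertices the components of the slices.
-/

namespace Pool.Agent.BT

open MulAction
open Pool.Agent.SAF (InC orbs FinOrb oc Decomp SAn SA Conv hull)
open TA

namespace TA

variable {X : Type} {G : SimpleGraph X}

/-- two convex sets which meet have a convex union -/
theorem conv_union (hG : G.IsTree) {A B : Set X} (hA : Conv G A) (hB : Conv G B) {p : X}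
    (pA : p ∈ A) (pB : p ∈ B) : Conv G (A ∪ B) := by
  apply SAF.conv_of_rtg hG
  have sym : ∀ u v : X, Relation.ReflTransGen
      (fun u v => G.Adj u v ∧ u ∈ A ∪ B ∧ v ∈ A ∪ B) u v →
      Relation.ReflTransGen (fun u v => G.Adj u v ∧ u ∈ A ∪ B ∧ v ∈ A ∪ B) v u := by
    intro u v h
    induction h with
    | refl => exact Relation.ReflTransGen.refl
    | tail _ h2 ih => exact Relation.ReflTransGen.head ⟨h2.1.symm, h2.2.2, h2.2.1⟩ ih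
  have key : ∀ a, a ∈ A ∪ B → Relation.ReflTransGen
      (fun u v => G.Adj u v ∧ u ∈ A ∪ B ∧ v ∈ A ∪ B) a p := by
    rintro a (ha | ha)
    · refine Relation.ReflTransGen.mono ?_ _ _ (hA.rtg hG ha pA)
      intro u v k
      exact ⟨k.1, Or.inl k.2.1, Or.inl k.2.2⟩
    · refine Relation.ReflTransGen.mono ?_ _ _ (hB.rtg hG ha pB)
      intro u v k
      exact ⟨k.1, Or.inr k.2.1, Or.inr k.2.2⟩
  intro a ha b hb
  exact (key a ha).trans (sym _ _ (key b hb))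

theorem helly3 (hG : G.IsTree) {A B C : Set X} (hA : Conv G A) (hB : Conv G B) (hC : Conv G C)
    (h1 : (A ∩ B).Nonempty) (h2 : (A ∩ C).Nonempty) (h3 : (B ∩ C).Nonempty) :
    (A ∩ B ∩ C).Nonempty := by
  obtain ⟨u, u0, u1⟩ := h1
  obtain ⟨p, p0, p1⟩ := h2
  obtain ⟨r, r0, r1⟩ := h3
  obtain ⟨m, m1, m2, m3⟩ := helly_aux hG hA hB hC p0 p1 r0 r1 u0 u1
  exact ⟨m, ⟨m1, m2⟩, m3⟩

theorem helly4 (hG : G.IsTree) {A B C E : Set X} (hA : Conv G A) (hB : Conv G B) (hC : Conv G C)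
    (hE : Conv G E) (h1 : (A ∩ B).Nonempty) (h2 : (A ∩ C).Nonempty) (h3 : (B ∩ C).Nonempty)
    (h4 : (A ∩ E).Nonempty) (h5 : (B ∩ E).Nonempty) (h6 : (C ∩ E).Nonempty) :
    (A ∩ B ∩ C ∩ E).Nonempty := by
  obtain ⟨m, ⟨⟨m1, m2⟩, ⟨m3, _⟩⟩, m5, m6⟩ := helly3 hG (hA.inter hE) (hB.inter hE) (hC.inter hE)
    (by
      obtain ⟨m, ⟨m1, m2⟩, m3⟩ := helly3 hG hA hB hE h1 h4 h5
      exact ⟨m, ⟨m1, m3⟩, m2, m3⟩)
    (by
      obtain ⟨m, ⟨m1, m2⟩, m3⟩ := helly3 hG hA hC hE h2 h4 h6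
      exact ⟨m, ⟨m1, m3⟩, m2, m3⟩)
    (by
      obtain ⟨m, ⟨m1, m2⟩, m3⟩ := helly3 hG hB hC hE h3 h5 h6
      exact ⟨m, ⟨m1, m3⟩, m2, m3⟩)
  exact ⟨m, ⟨⟨m1, m3⟩, m5⟩, m6⟩

theorem helly5 (hG : G.IsTree) {A B C E F : Set X} (hA : Conv G A) (hB : Conv G B)
    (hC : Conv G C) (hE : Conv G E) (hF : Conv G F) (h1 : (A ∩ B).Nonempty)
    (h2 : (A ∩ C).Nonempty) (h3 : (B ∩ C).Nonempty) (h4 : (A ∩ E).Nonempty)
    (h5 : (B ∩ E).Nonempty) (h6 : (C ∩ E).Nonempty) (h7 : (A ∩ F).Nonempty)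
    (h8 : (B ∩ F).Nonempty) (h9 : (C ∩ F).Nonempty) (h10 : (E ∩ F).Nonempty) :
    ∃ m, m ∈ A ∧ m ∈ B ∧ m ∈ C ∧ m ∈ E ∧ m ∈ F := by
  have tr : ∀ {P Q : Set X}, Conv G P → Conv G Q → (P ∩ Q).Nonempty → (P ∩ F).Nonempty →
      (Q ∩ F).Nonempty → ((P ∩ F) ∩ (Q ∩ F)).Nonempty := by
    intro P Q hP hQ k1 k2 k3
    obtain ⟨m, ⟨m1, m2⟩, m3⟩ := helly3 hG hP hQ hF k1 k2 k3
    exact ⟨m, ⟨m1, m3⟩, m2, m3⟩
  obtain ⟨m, ⟨⟨⟨m1, m0⟩, m2, _⟩, m3, _⟩, m4, _⟩ := helly4 hG (hA.inter hF) (hB.inter hF)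
    (hC.inter hF) (hE.inter hF) (tr hA hB h1 h7 h8) (tr hA hC h2 h7 h9) (tr hB hC h3 h8 h9)
    (tr hA hE h4 h7 h10) (tr hB hE h5 h8 h10) (tr hC hE h6 h9 h10)
  exact ⟨m, m1, m2, m3, m4, m0⟩

end TA

namespace Sy

variable {H : Type} [Group H] {V : Type} [MulAction H V] {K : PQ H V} {D : Decomp H} (S : Sy K D)

/-- centres exist -/
theorem cen : S.Cen := by
  intro v hv
  have hU : ∀ k, Conv D.G (S.J (v k) ∪ S.J (v (k + 1))) := by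
    intro k
    obtain ⟨p, p0, p1⟩ := S.one_ex (hv k)
    exact conv_union D.tree (S.js.conv _) (S.js.conv _) p0 p1
  obtain ⟨p0, a0, b0⟩ := S.one_ex (hv 0)
  obtain ⟨p1, a1, b1⟩ := S.one_ex (hv 1)
  obtain ⟨p2, a2, b2⟩ := S.one_ex (hv 2)
  obtain ⟨p3, a3, b3⟩ := S.one_ex (hv 3)
  obtain ⟨p4, a4, b4⟩ := S.one_ex (hv 4)
  obtain ⟨m, m0, m1, m2, m3, m4⟩ := helly5 D.tree (hU 0) (hU 1) (hU 2) (hU 3) (hU 4)
    ⟨p0, Or.inl a0, Or.inl b0⟩ ⟨p1, Or.inr a1, Or.inl b1⟩ ⟨p1, Or.inl a1, Or.inl b1⟩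
    ⟨p4, Or.inl b4, Or.inr a4⟩ ⟨p2, Or.inr a2, Or.inl b2⟩ ⟨p2, Or.inl a2, Or.inl b2⟩
    ⟨p0, Or.inl a0, Or.inr a0⟩ ⟨p0, Or.inl b0, Or.inr a0⟩ ⟨p3, Or.inr a3, Or.inl b3⟩
    ⟨p3, Or.inl a3, Or.inl b3⟩
  refine ⟨m, fun k => ?_⟩
  fin_cases k
  · exact m0
  · exact m1
  · exact m2
  · exact m3
  · exact m4

theorem J'_one {x y : V} (e : K.E x y) : ∃ p, S.J' x ∩ S.J' y = {p} := by
  obtain ⟨p, p0, p1⟩ := S.one_ex e
  obtain ⟨n, hn, en⟩ := S.J'_ex p0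
  have hn' : n ∈ S.J' y := S.J'_E e hn (by rw [en]; exact p1)
  refine ⟨n, Set.eq_singleton_iff_unique_mem.2 ⟨⟨hn, hn'⟩, ?_⟩⟩
  rintro m ⟨h1, h2⟩
  exact S.J'_inj h1 hn (S.one_eq e (S.J'_pr h1) (S.J'_pr h2) (S.J'_pr hn) (S.J'_pr hn'))

/-- a common point of new subtrees over adjacent vertices -/
theorem J'_one_ex {x y : V} (e : K.E x y) : ∃ n, n ∈ S.J' x ∧ n ∈ S.J' y := by
  obtain ⟨p, p0, p1⟩ := S.one_ex e
  obtain ⟨n, hn, en⟩ := S.J'_ex p0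
  exact ⟨n, hn, S.J'_E e hn (by rw [en]; exact p1)⟩

theorem ex_map {x : V} {l : S.LV} {s : V ⊕ S.LV} (hs : s ∈ exits K S.LG S.J' x l) :
    Sum.map id S.pr s ∈ exits K D.G S.J x (S.pr l) := by
  rcases hs with ⟨a, rfl, h1, h2⟩ | ⟨m, rfl, h1, h2⟩
  · exact Or.inl ⟨a, rfl, h1, S.J'_pr h2⟩
  · exact Or.inr ⟨S.pr m, rfl, (h1 : S.LAdj l m).1, S.J'_pr h2⟩

theorem ex_inj {x : V} {l : S.LV} {s t : V ⊕ S.LV} (hs : s ∈ exits K S.LG S.J' x l)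
    (ht : t ∈ exits K S.LG S.J' x l) (e : Sum.map id S.pr s = Sum.map id S.pr t) : s = t := by
  rcases hs with ⟨a, rfl, h1, h2⟩ | ⟨m, rfl, h1, h2⟩
  · rcases ht with ⟨b, rfl, k1, k2⟩ | ⟨n, rfl, k1, k2⟩
    · exact congrArg Sum.inl (Sum.inl.inj e)
    · cases e
  · rcases ht with ⟨b, rfl, k1, k2⟩ | ⟨n, rfl, k1, k2⟩
    · cases e
    · exact congrArg Sum.inr (S.J'_inj h2 k2 (Sum.inr.inj e))

theorem J'_cross (hcen : S.Cen) {x : V} (hx : ∃ a, K.ar x a) {l l' : S.LV} (h : S.LG.Adj l l')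
    (hl : l ∈ S.J' x) (hl' : l' ∈ S.J' x) : ∃ a, K.ar x a ∧ S.J' a ⊆ bey S.LG l l' := by
  have hD : D.G.Adj (S.pr l) (S.pr l') := (h : S.LAdj l l').1
  obtain ⟨a, ha, hs⟩ := S.js.cross x hx _ _ hD (S.J'_pr hl) (S.J'_pr hl')
  refine ⟨a, ha, ?_⟩
  obtain ⟨n, hn, hn'⟩ := S.J'_one_ex (Or.inl ha : K.E x a)
  apply conv_sd (S.LG_tree hcen) (S.J'_conv hcen a) h _ hn'
  · exact (S.bey_iff hl hl' hn).2 (hs (S.J'_pr hn'))
  · rintro ⟨k, -⟩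
    exact bey_not (hs (S.J'_pr k)) (bey_self hD.symm)

theorem side_dn (hl : ∀ {x y : V}, K.E x y → ∃ n, n ∈ S.J' x ∧ n ∈ S.J' y) {x y : V}
    (e : K.E x y) {l l' : S.LV} (h : S.LG.Adj l l') (h1 : l ∈ S.J' x) (h2 : l' ∈ S.J' x)
    (hs : S.J' y ⊆ bey S.LG l l') : S.J y ⊆ bey D.G (S.pr l) (S.pr l') := by
  obtain ⟨n, hn, hn'⟩ := hl e
  have hD : D.G.Adj (S.pr l) (S.pr l') := (h : S.LAdj l l').1
  apply conv_sd D.tree (S.js.conv y) hD _ (S.J'_pr hn')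
  · exact (S.bey_iff h1 h2 hn).1 (hs hn')
  · intro k
    exact S.not_both hD e ⟨S.J'_pr h1, S.J'_pr h2⟩ k

theorem J'_fin : FinOrb H {p : V × S.LV | p.2 ∈ S.J' p.1} := by
  apply FinOrb.of_inj S.js.fin (fun p : V × S.LV => (p.1, S.pr p.2))
  · intro p hp
    exact S.J'_pr hp
  · rintro ⟨x, l⟩ hl ⟨y, m⟩ hm ⟨h, e⟩
    have hl' : l ∈ S.J' x := hl
    have hm' : m ∈ S.J' y := hm
    have e1 : h • x = y := congrArg Prod.fst e
    have e2 : h • S.pr l = S.pr m := congrArg Prod.snd e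
    have e3 : h • l ∈ S.J' y := by
      have := S.J'_smul h x l hl'
      rw [e1] at this
      exact this
    have e4 : h • l = m := S.J'_inj e3 hm' (by rw [S.pr_smul]; exact e2)
    exact ⟨h, Prod.ext e1 e4⟩

theorem T'_fin (hT : S.TFin) :
    FinOrb H {p : (V × V) × S.LV | K.E p.1.1 p.1.2 ∧ p.2 ∈ S.T' p.1.1 p.1.2} := by
  apply FinOrb.of_inj hT (fun p : (V × V) × S.LV => (p.1, S.pr p.2))
  · rintro p hp
    exact ⟨hp.1, hp.2.1⟩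
  · rintro ⟨⟨x, y⟩, l⟩ hl ⟨⟨x', y'⟩, m⟩ hm ⟨h, k⟩
    have hl' : l ∈ S.J' x ∨ l ∈ S.J' y := hl.2.2
    have hm' : m ∈ S.J' x' ∨ m ∈ S.J' y' := hm.2.2
    have he : K.E x' y' := hm.1
    have k1 : h • x = x' := congrArg (fun p => p.1.1) k
    have k2 : h • y = y' := congrArg (fun p => p.1.2) k
    have k3 : h • S.pr l = S.pr m := congrArg Prod.snd k
    have k4 : S.pr (h • l) = S.pr m := by rw [S.pr_smul]; exact k3
    have hl2 : h • l ∈ S.J' x' ∨ h • l ∈ S.J' y' := by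
      rw [← k1, ← k2]
      exact hl'.imp (S.J'_smul h x l) (S.J'_smul h y l)
    have k5 : h • l = m := by
      rcases hl2 with a | a
      · rcases hm' with b | b
        · exact S.J'_inj a b k4
        · exact S.J'_inj (S.J'_E he a (by rw [k4]; exact S.J'_pr b)) b k4
      · rcases hm' with b | b
        · exact S.J'_inj (S.J'_E he.symm a (by rw [k4]; exact S.J'_pr b)) b k4
        · exact S.J'_inj a b k4
    exact ⟨h, Prod.ext (Prod.ext k1 k2) k5⟩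

theorem J'_js (hcen : S.Cen) : JS K (S.LD hcen) S.J' where
  conv x := S.J'_conv hcen x
  ne x := S.J'_ne x
  smul h x l := S.J'_smul h x l
  one x y e := S.J'_one e
  two x l hl s hs t ht u hu := by
    rcases S.js.two x _ (S.J'_pr hl) _ (S.ex_map hs) _ (S.ex_map ht) _ (S.ex_map hu) with
      k | k | k
    · exact Or.inl (S.ex_inj hs ht k)
    · exact Or.inr (Or.inl (S.ex_inj hs hu k))
    · exact Or.inr (Or.inr (S.ex_inj ht hu k))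
  cross x hx l l' h hl hl' := S.J'_cross hcen hx h hl hl'
  fin := S.J'_fin

theorem T'_smul (h : H) {x y : V} (e : K.E x y) {l : S.LV} (hl : l ∈ S.T' x y) :
    h • l ∈ S.T' (h • x) (h • y) := by
  refine ⟨?_, ?_⟩
  · rw [S.pr_smul]
    exact S.T_smul h x y _ e hl.1
  · exact hl.2.imp (S.J'_smul h x l) (S.J'_smul h y l)

/-- the new system -/
def S' (hcen : S.Cen) : Sy K (S.LD hcen) where
  J := S.J'
  T := S.T'
  js := S.J'_js hcen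
  T_symm x y e := by
    apply Set.ext
    intro l
    constructor
    · rintro ⟨h1, h2⟩
      exact ⟨by rw [← S.T_symm x y e]; exact h1, h2.symm⟩
    · rintro ⟨h1, h2⟩
      exact ⟨by rw [S.T_symm x y e]; exact h1, h2.symm⟩
  T_smul h x y l e hl := S.T'_smul h e hl
  T_conv x y e := S.T'_conv hcen e
  T_sub x y e l hl := hl.2
  T_inter x y e l hl := ⟨S.T_inter x y e ⟨S.J'_pr hl.1, S.J'_pr hl.2⟩, Or.inl hl.1⟩
  T_pent h i c hc k := by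
    refine ⟨S.T_pent h i (S.pr c) ?_ k, hc k⟩
    intro j
    exact (hc j).imp S.J'_pr S.J'_pr
  T_four x y z t e1 e2 e3 e4 hxz l l' h h1 h2 h3 h4 hy ht := by
    have hD : D.G.Adj (S.pr l) (S.pr l') := (h : S.LAdj l l').1
    have k1 := S.side_dn S.J'_one_ex e1 h h1 h2 hy
    have k2 := S.side_dn S.J'_one_ex e4.symm (SimpleGraph.Adj.symm h) h2 h1 ht
    rcases S.T_four x y z t e1 e2 e3 e4 hxz _ _ hD (S.J'_pr h1) (S.J'_pr h2) (S.J'_pr h3)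
      (S.J'_pr h4) k1 k2 with ⟨t1, t2, t3, t4⟩ | ⟨t1, t2, t3, t4⟩
    · exact Or.inl ⟨⟨t1, Or.inl h1⟩, ⟨t2, Or.inl h2⟩, ⟨t3, Or.inl h3⟩, ⟨t4, Or.inl h4⟩⟩
    · exact Or.inr ⟨⟨t1, Or.inl h1⟩, ⟨t2, Or.inl h2⟩, ⟨t3, Or.inl h3⟩, ⟨t4, Or.inl h4⟩⟩

theorem CN_up (hcen : S.Cen) {l l' : S.LV} {x z : V} (hl : l ∈ S.J' x) (hl' : l' ∈ S.J' x)
    (k : S.CN (S.pr l) (S.pr l') x z) : (S.S' hcen).CN l l' x z := by
  have t := S.J'_wall (Relation.EqvGen.rel _ _ k)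
  obtain ⟨a, -, -, -, -, y, e1, e2, c1, c2, c3, c4⟩ := k
  exact ⟨⟨a, x, hl, hl'⟩, hl, hl', t.1.1 hl, t.2.1 hl', y, e1, e2, ⟨c1, Or.inl hl⟩,
    ⟨c2, Or.inl hl'⟩, ⟨c3, Or.inl (t.1.1 hl)⟩, ⟨c4, Or.inl (t.2.1 hl')⟩⟩

theorem wall_up (hcen : S.Cen) {l l' : S.LV} {x z : V}
    (k : Relation.EqvGen (S.CN (S.pr l) (S.pr l')) x z) :
    l ∈ S.J' x → l' ∈ S.J' x → Relation.EqvGen ((S.S' hcen).CN l l') x z := by
  induction k with
  | rel x y h =>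
    intro h1 h2
    exact Relation.EqvGen.rel _ _ (S.CN_up hcen h1 h2 h)
  | refl x =>
    intro _ _
    exact Relation.EqvGen.refl _
  | symm x y h ih =>
    intro h1 h2
    have t := S.J'_wall h
    exact (ih (t.1.2 h1) (t.2.2 h2)).symm _ _
  | trans x y z h h' ih1 ih2 =>
    intro h1 h2
    have t := S.J'_wall h
    exact (ih1 h1 h2).trans _ _ _ (ih2 (t.1.1 h1) (t.2.1 h2))

theorem S'_conn (hcen : S.Cen) : (S.S' hcen).Conn where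
  wall l l' h x z h1 h2 h3 h4 := by
    have hD : D.G.Adj (S.pr l) (S.pr l') := (h : S.LAdj l l').1
    obtain ⟨g, hg⟩ := S.exists_cutL hcen (S.Wc_cl hD x)
    have k1 : g l ≠ g l' := (hg x l l' h1 h2 hD).2
      ⟨⟨⟨S.J'_pr h1, S.J'_pr h2⟩, Relation.EqvGen.refl _⟩, Or.inl ⟨rfl, rfl⟩⟩
    have k2 := ((hg z l l' h3 h4 hD).1 k1).1.2
    exact S.wall_up hcen k2 h1 h2
  slice l x z h1 h2 := by
    obtain ⟨a, ea⟩ := h1
    obtain ⟨b, eb⟩ := h2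
    have key : ∀ q r : S.V1, Relation.EqvGen S.lr q r → S.cm q = l →
        Relation.EqvGen ((S.S' hcen).SR l) q.1.1 r.1.1 := by
      intro q r k
      induction k with
      | rel q r h =>
        intro hq
        subst hq
        obtain ⟨h1, h2⟩ := h
        have hx : S.cm q ∈ S.J' q.1.1 := S.J'_cm q
        apply Relation.EqvGen.rel
        rcases id h2 with ⟨e, k1, k2⟩ | ⟨w', k⟩
        · exact Or.inl ⟨e, hx, S.J'_E e hx k2⟩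
        · obtain ⟨l', hl', el'⟩ := S.J'_ex (CN.l S k).2
          refine Or.inr ⟨l', S.CN_up hcen hx hl' ?_⟩
          rw [el']
          exact k
      | refl q =>
        intro _
        exact Relation.EqvGen.refl _
      | symm q r h ih =>
        intro hq
        have : S.cm q = S.cm r := Quotient.sound h
        exact (ih (this.trans hq)).symm _ _
      | trans q r s h h' ih1 ih2 =>
        intro hq
        have : S.cm q = S.cm r := Quotient.sound h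
        exact (ih1 hq).trans _ _ _ (ih2 (this.symm.trans hq))
    exact key ⟨(x, S.pr l), a⟩ ⟨(z, S.pr l), b⟩ (Quotient.exact (ea.trans eb.symm)) ea
  crossed l l' h := (h : S.LAdj l l').2

theorem S'_TFin (hcen : S.Cen) (hT : S.TFin) : (S.S' hcen).TFin := S.T'_fin hT

theorem J'_finite {x : V} (h : (S.J x).Finite) : (S.J' x).Finite := by
  apply Set.Finite.of_finite_image (f := S.pr)
  · apply h.subset
    rintro _ ⟨l, hl, rfl⟩
    exact S.J'_pr hl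
  · intro a ha b hb e
    exact S.J'_inj ha hb e

theorem S'_NL (hcen : S.Cen) (hN : S.NL) : (S.S' hcen).NL := by
  intro x y e hi
  obtain ⟨h1, h2⟩ := hN x y e hi
  exact ⟨S.J'_finite h1, S.J'_finite h2⟩

end Sy

/-- **Theorem A.** A system can be made connected. -/
theorem thmA {H V : Type} [Group H] [MulAction H V] (K : PQ H V) (D : Decomp H) (S : Sy K D) :
    ∃ (D' : Decomp H) (S' : Sy K D') (pr : D'.X → D.X), S'.Conn ∧
      (∀ (h : H) l, pr (h • l) = h • pr l) ∧ (∀ x, ∀ l ∈ S'.J x, pr l ∈ S.J x) ∧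
      (∀ x, ∀ w ∈ S.J x, ∃ l ∈ S'.J x, pr l = w) ∧
      (∀ x, ∀ l ∈ S'.J x, ∀ m ∈ S'.J x, pr l = pr m → l = m) ∧
      (S.TFin → S'.TFin) ∧ (S.NL → S'.NL) :=
  ⟨S.LD S.cen, S.S' S.cen, S.pr, S.S'_conn S.cen, S.pr_smul, fun _ _ h => S.J'_pr h,
    fun _ _ h => S.J'_ex h, fun _ _ h1 _ h2 e => S.J'_inj h1 h2 e, S.S'_TFin S.cen, S.S'_NL S.cen⟩

end Pool.Agent.BT
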