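import Pool.Agent.BT.XWall

/-!
# BT: the centre of a closed walk of length five
-/

namespace Pool.Agent.BT

open Pool.Agent.SAF (Conv exists_next dist_edge conv_of_rtg)

variable {X : Type} {G : SimpleGraph X}

/-- the union of two convex sets which meet is convex -/
theorem x_conv_union (hG : G.IsTree) {A B : Set X} (hA : Conv G A) (hB : Conv G B) {p : X}
    (pA : p ∈ A) (pB : p ∈ B) : Conv G (A ∪ B) := by
  have toA : ∀ a ∈ A, ∀ b ∈ A,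
      Relation.ReflTransGen (fun u v => G.Adj u v ∧ u ∈ A ∪ B ∧ v ∈ A ∪ B) a b := fun a ha b hb =>
    Relation.ReflTransGen.mono (fun u v h => ⟨h.1, Or.inl h.2.1, Or.inl h.2.2⟩) _ _ (hA.rtg hG ha hb)
  have toB : ∀ a ∈ B, ∀ b ∈ B,
      Relation.ReflTransGen (fun u v => G.Adj u v ∧ u ∈ A ∪ B ∧ v ∈ A ∪ B) a b := fun a ha b hb =>
    Relation.ReflTransGen.mono (fun u v h => ⟨h.1, Or.inr h.2.1, Or.inr h.2.2⟩) _ _ (hB.rtg hG ha hb)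
  apply conv_of_rtg hG
  rintro a (ha | ha) b (hb | hb)
  · exact toA a ha b hb
  · exact (toA a ha p pA).trans (toB p pB b hb)
  · exact (toB a ha p pB).trans (toA p pA b hb)
  · exact toB a ha b hb

theorem x_helly (hG : G.IsTree) {A B C : Set X} (hA : Conv G A) (hB : Conv G B) (hC : Conv G C)
    (h1 : (A ∩ B).Nonempty) (h2 : (B ∩ C).Nonempty) (h3 : (A ∩ C).Nonempty) :
    (A ∩ B ∩ C).Nonempty := by
  obtain ⟨x, hx1, hx2⟩ := h1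
  obtain ⟨z, hz1, hz2⟩ := h2
  obtain ⟨y, hy1, hy2⟩ := h3
  obtain ⟨m, m1, m2, m3⟩ := x_helly3 hG hA hB hC hy1 hy2 hz1 hz2 _ x rfl hx1 hx2
  exact ⟨m, ⟨m1, m2⟩, m3⟩

theorem x_helly4 (hG : G.IsTree) {A B C D : Set X} (hA : Conv G A) (hB : Conv G B) (hC : Conv G C)
    (hD : Conv G D) (ab : (A ∩ B).Nonempty) (ac : (A ∩ C).Nonempty) (ad : (A ∩ D).Nonempty)
    (bc : (B ∩ C).Nonempty) (bd : (B ∩ D).Nonempty) (cd : (C ∩ D).Nonempty) :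
    (A ∩ B ∩ C ∩ D).Nonempty :=
  x_helly hG (hA.inter hB) hC hD (x_helly hG hA hB hC ab bc ac) cd (x_helly hG hA hB hD ab bd ad)

theorem x_helly5 (hG : G.IsTree) {A B C D E : Set X} (hA : Conv G A) (hB : Conv G B)
    (hC : Conv G C) (hD : Conv G D) (hE : Conv G E) (ab : (A ∩ B).Nonempty)
    (ac : (A ∩ C).Nonempty) (ad : (A ∩ D).Nonempty) (ae : (A ∩ E).Nonempty)
    (bc : (B ∩ C).Nonempty) (bd : (B ∩ D).Nonempty) (be : (B ∩ E).Nonempty)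
    (cd : (C ∩ D).Nonempty) (ce : (C ∩ E).Nonempty) (de : (D ∩ E).Nonempty) :
    (A ∩ B ∩ C ∩ D ∩ E).Nonempty :=
  x_helly4 hG (hA.inter hB) hC hD hE (x_helly hG hA hB hC ab bc ac) (x_helly hG hA hB hD ab bd ad)
    (x_helly hG hA hB hE ab be ae) cd ce de

/-- exactly one of two consecutive sets contains both ends of an edge of their union -/
theorem x_one (hG : G.IsTree) {A B : Set X} (hA : Conv G A) (hB : Conv G B) {p w u : X}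
    (hp : A ∩ B = {p}) (h : G.Adj w u) (hw : w ∈ A ∪ B) (hu : u ∈ A ∪ B) :
    (w ∈ A ∧ u ∈ A ↔ ¬ (w ∈ B ∧ u ∈ B)) := by
  have h1 : G.dist w u = 1 := SimpleGraph.dist_eq_one_iff_adj.2 h
  have h2 : G.dist u w = 1 := SimpleGraph.dist_eq_one_iff_adj.2 h.symm
  have hpp : p ∈ A ∩ B := by rw [hp]; rfl
  constructor
  · rintro ⟨a1, a2⟩ ⟨b1, b2⟩
    have e1 : w ∈ A ∩ B := ⟨a1, b1⟩
    have e2 : u ∈ A ∩ B := ⟨a2, b2⟩
    rw [hp] at e1 e2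
    exact G.ne_of_adj h ((show w = p from e1).trans (show u = p from e2).symm)
  · intro hn
    by_cases hwA : w ∈ A
    · refine ⟨hwA, ?_⟩
      by_contra huA
      have huB : u ∈ B := hu.resolve_left huA
      rcases (dist_edge hG h p).1 with d | d
      · have := hB.edge hG h hpp.2 huB d (by rw [SimpleGraph.dist_self]; omega)
        exact hn this
      · have := hA.edge hG h hwA hpp.1 (by rw [SimpleGraph.dist_self]; omega) d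
        exact huA this.2
    · exfalso
      have hwB : w ∈ B := hw.resolve_left hwA
      have huA : u ∈ A := hu.resolve_right (fun huB => hn ⟨hwB, huB⟩)
      rcases (dist_edge hG h p).1 with d | d
      · have := hA.edge hG h hpp.1 huA d (by rw [SimpleGraph.dist_self]; omega)
        exact hwA this.1
      · have := hB.edge hG h hwB hpp.2 (by rw [SimpleGraph.dist_self]; omega) d
        exact hn this

/-- the centre of a closed walk of length five -/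
theorem x_centre (hG : G.IsTree) (J : Fin 5 → Set X)
    (hJ : ∀ k, Conv G (J k)) (h1 : ∀ k, ∃ p, J k ∩ J (k + 1) = {p}) :
    ∃! c, ∀ k, c ∈ J k ∪ J (k + 1) := by
  have hne : ∀ k, ∃ p, p ∈ J k ∧ p ∈ J (k + 1) := by
    intro k
    obtain ⟨p, hp⟩ := h1 k
    have h : p ∈ J k ∩ J (k + 1) := by rw [hp]; rfl
    exact ⟨p, h.1, h.2⟩
  have hU : ∀ k, Conv G (J k ∪ J (k + 1)) := by
    intro k
    obtain ⟨p, a, b⟩ := hne k
    exact x_conv_union hG (hJ k) (hJ (k + 1)) a b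
  obtain ⟨p0, a0, b0⟩ : ∃ p, p ∈ J 0 ∧ p ∈ J 1 := hne 0
  obtain ⟨p1, a1, b1⟩ : ∃ p, p ∈ J 1 ∧ p ∈ J 2 := hne 1
  obtain ⟨p2, a2, b2⟩ : ∃ p, p ∈ J 2 ∧ p ∈ J 3 := hne 2
  obtain ⟨p3, a3, b3⟩ : ∃ p, p ∈ J 3 ∧ p ∈ J 4 := hne 3
  obtain ⟨p4, a4, b4⟩ : ∃ p, p ∈ J 4 ∧ p ∈ J 0 := hne 4
  have U0 : Conv G (J 0 ∪ J 1) := hU 0
  have U1 : Conv G (J 1 ∪ J 2) := hU 1
  have U2 : Conv G (J 2 ∪ J 3) := hU 2
  have U3 : Conv G (J 3 ∪ J 4) := hU 3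
  have U4 : Conv G (J 4 ∪ J 0) := hU 4
  obtain ⟨c, ⟨⟨⟨c0, c1⟩, c2⟩, c3⟩, c4⟩ := x_helly5 hG U0 U1 U2 U3 U4
    ⟨p0, Or.inr b0, Or.inl b0⟩ ⟨p1, Or.inr a1, Or.inl b1⟩ ⟨p4, Or.inl b4, Or.inr a4⟩
    ⟨p0, Or.inl a0, Or.inr a0⟩
    ⟨p1, Or.inr b1, Or.inl b1⟩ ⟨p2, Or.inr a2, Or.inl b2⟩ ⟨p0, Or.inl b0, Or.inr a0⟩
    ⟨p2, Or.inr b2, Or.inl b2⟩ ⟨p3, Or.inr a3, Or.inl b3⟩ ⟨p3, Or.inr b3, Or.inl b3⟩
  refine ⟨c, ?_, ?_⟩
  · intro k
    fin_cases k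
    · exact c0
    · exact c1
    · exact c2
    · exact c3
    · exact c4
  · intro c' hc'
    have hc : ∀ k, c ∈ J k ∪ J (k + 1) := by
      intro k
      fin_cases k
      · exact c0
      · exact c1
      · exact c2
      · exact c3
      · exact c4
    by_contra hne'
    obtain ⟨u, hu, e⟩ := exists_next hG (a := c) (b := c') (Ne.symm hne')
    have e1 : G.dist c u = 1 := SimpleGraph.dist_eq_one_iff_adj.2 hu
    have hcu : ∀ k, u ∈ J k ∪ J (k + 1) := fun k => hU k c (hc k) c' (hc' k) u (by omega)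
    have key : ∀ k, (c ∈ J k ∧ u ∈ J k ↔ ¬ (c ∈ J (k + 1) ∧ u ∈ J (k + 1))) := by
      intro k
      obtain ⟨p, hp⟩ := h1 k
      exact x_one hG (hJ k) (hJ (k + 1)) hp hu (hc k) (hcu k)
    have k0 : (c ∈ J 0 ∧ u ∈ J 0 ↔ ¬ (c ∈ J 1 ∧ u ∈ J 1)) := key 0
    have k1 : (c ∈ J 1 ∧ u ∈ J 1 ↔ ¬ (c ∈ J 2 ∧ u ∈ J 2)) := key 1
    have k2 : (c ∈ J 2 ∧ u ∈ J 2 ↔ ¬ (c ∈ J 3 ∧ u ∈ J 3)) := key 2
    have k3 : (c ∈ J 3 ∧ u ∈ J 3 ↔ ¬ (c ∈ J 4 ∧ u ∈ J 4)) := key 3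
    have k4 : (c ∈ J 4 ∧ u ∈ J 4 ↔ ¬ (c ∈ J 0 ∧ u ∈ J 0)) := key 4
    clear * - k0 k1 k2 k3 k4
    tauto

end Pool.Agent.BT
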