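import Pool.Agent.BT.XBr
import Pool.Agent.BT.XCtr

/-!
# BT: from `Sy` to `JT`
-/

namespace Pool.Agent.BT

open MulAction
open Pool.Agent.SAF (orbs FinOrb mk_eq_iff FinOrb_iff TAct Conv InC Decomp exists_next dist_edge)

namespace Sy

variable {H V : Type} [Group H] [MulAction H V] {K : PQ H V} {D : Decomp H} (S : Sy K D)

theorem tact (D : Decomp H) : TAct H D.G := ⟨D.tree, D.adj_smul, D.noinv⟩

/-- the common point of adjacent subtrees -/
theorem exists_p : ∃ p : V → V → D.X, ∀ x y, K.E x y → S.J x ∩ S.J y = {p x y} := by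
  classical
  have h : ∀ x y, ∃ p : D.X, K.E x y → S.J x ∩ S.J y = {p} := by
    intro x y
    by_cases e : K.E x y
    · obtain ⟨p, hp⟩ := S.js.one x y e
      exact ⟨p, fun _ => hp⟩
    · obtain ⟨w, _⟩ := S.js.ne x
      exact ⟨w, fun h => absurd h e⟩
  choose p hp using h
  exact ⟨p, hp⟩

noncomputable def pp (x y : V) : D.X := S.exists_p.choose x y

theorem pp_spec {x y : V} (e : K.E x y) : S.J x ∩ S.J y = {S.pp x y} :=
  S.exists_p.choose_spec x y e

theorem exists_c (i : K.I) : ∃ c : D.X, S.IsC (K.pt i) c := by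
  obtain ⟨c, h, _⟩ := x_centre D.tree (fun k => S.J (K.pt i k)) (fun k => S.js.conv _)
    (fun k => S.js.one _ _ (K.pt_E i k))
  exact ⟨c, h⟩

theorem isC_unique {i : K.I} {h : H} {c c' : D.X} (hc : S.IsC (fun k => h • K.pt i k) c)
    (hc' : S.IsC (fun k => h • K.pt i k) c') : c = c' := by
  obtain ⟨d, _, hu⟩ := x_centre D.tree (fun k => S.J (h • K.pt i k)) (fun k => S.js.conv _)
    (fun k => S.js.one _ _ (K.E_smul h (K.pt_E i k)))
  exact (hu c hc).trans (hu c' hc').symm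

noncomputable def cc (i : K.I) : D.X := (S.exists_c i).choose

theorem cc_spec (i : K.I) : S.IsC (K.pt i) (S.cc i) := (S.exists_c i).choose_spec

theorem isC_smul {i : K.I} {c : D.X} (h : H) (hc : S.IsC (K.pt i) c) :
    S.IsC (fun k => h • K.pt i k) (h • c) := by
  intro k
  exact (hc k).imp (S.js.smul h _ _) (S.js.smul h _ _)

/-- the centre of a translate -/
theorem isC_iff {i : K.I} {h : H} {c : D.X} : S.IsC (fun k => h • K.pt i k) c ↔
    c = h • S.cc i := by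
  constructor
  · intro hc
    exact S.isC_unique hc (S.isC_smul h (S.cc_spec i))
  · rintro rfl
    exact S.isC_smul h (S.cc_spec i)

/-- every vertex of the tree lies in some `J x` -/
theorem cover (hc : S.Conn) (w : D.X) : ∃ x, w ∈ S.J x := by
  obtain ⟨h, hh⟩ := D.nofix w
  obtain ⟨u, hu, _⟩ := exists_next D.tree (Ne.symm hh)
  obtain ⟨x, hx, _⟩ := hc.crossed w u hu
  exact ⟨x, hx⟩

/-- ports -/
theorem finJ2 : FinOrb H {q : V × D.X × D.X | D.G.Adj q.2.1 q.2.2 ∧ q.2.1 ∈ S.J q.1 ∧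
    q.2.2 ∈ S.J q.1} := by
  classical
  obtain ⟨F, hF, hFs, hcov⟩ := FinOrb_iff.1 S.js.fin
  have hfin : ∀ (x : V) (w : D.X), w ∈ S.J x → {u | D.G.Adj w u ∧ u ∈ S.J x}.Finite := by
    intro x w hw
    by_contra hinf
    obtain ⟨t, ht, hcard⟩ := (Set.not_finite.1 hinf : Set.Infinite _).exists_subset_card_eq 3
    obtain ⟨a, b, c, hab, hac, hbc, rfl⟩ := Finset.card_eq_three.1 hcard
    have ha := ht (show a ∈ _ by simp)
    have hb := ht (show b ∈ _ by simp)
    have hc := ht (show c ∈ _ by simp)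
    rcases S.js.two x w hw (Sum.inr a) (Or.inr ⟨a, rfl, ha.1, ha.2⟩) (Sum.inr b)
      (Or.inr ⟨b, rfl, hb.1, hb.2⟩) (Sum.inr c) (Or.inr ⟨c, rfl, hc.1, hc.2⟩) with h | h | h
    · exact hab (Sum.inr.inj h)
    · exact hac (Sum.inr.inj h)
    · exact hbc (Sum.inr.inj h)
  rw [FinOrb_iff]
  refine ⟨⋃ f ∈ F, (fun u => (f.1, f.2, u)) '' {u | D.G.Adj f.2 u ∧ u ∈ S.J f.1}, ?_, ?_, ?_⟩
  · exact hF.biUnion (fun f hf => (hfin f.1 f.2 (hFs hf)).image _)
  · intro q hq
    simp only [Set.mem_iUnion] at hq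
    obtain ⟨f, hf, u, hu, rfl⟩ := hq
    exact ⟨hu.1, hFs hf, hu.2⟩
  · rintro ⟨x, w, u⟩ ⟨h1, h2, h3⟩
    obtain ⟨f, hf, h, e⟩ := hcov (x, w) h2
    have e1 : h • f.1 = x := congrArg Prod.fst e
    have e2 : h • f.2 = w := congrArg Prod.snd e
    refine ⟨(f.1, f.2, h⁻¹ • u), ?_, h, ?_⟩
    · simp only [Set.mem_iUnion]
      refine ⟨f, hf, h⁻¹ • u, ⟨?_, ?_⟩, rfl⟩
      · have := D.adj_smul h⁻¹ _ _ h1
        have h1 : D.G.Adj w u := h1
        have := D.adj_smul h⁻¹ _ _ h1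
        rwa [← e2, inv_smul_smul] at this
      · have h3 : u ∈ S.J x := h3
        have := S.js.smul h⁻¹ _ _ h3
        rwa [← e1, inv_smul_smul] at this
    · show (h • f.1, h • f.2, h • h⁻¹ • u) = (x, w, u)
      rw [e1, e2, smul_inv_smul]

/-- symmetric relations -/
theorem rtg_of_eqv {α : Type} {r : α → α → Prop} (hs : ∀ a b, r a b → r b a) {x y : α}
    (h : Relation.EqvGen r x y) : Relation.ReflTransGen r x y := by
  induction h with
  | rel x y h => exact Relation.ReflTransGen.single h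
  | refl x => exact Relation.ReflTransGen.refl
  | symm x y _ ih =>
    have : ∀ a b, Relation.ReflTransGen r a b → Relation.ReflTransGen r b a := by
      intro a b h
      induction h with
      | refl => exact Relation.ReflTransGen.refl
      | tail _ e ih => exact Relation.ReflTransGen.head (hs _ _ e) ih
    exact this _ _ ih
  | trans x y z _ _ ih1 ih2 => exact ih1.trans ih2

/-- THE CONVERSION -/
noncomputable def jt (hc : S.Conn)
    (hC : ∀ x, ∀ w ∈ S.J x, InC ↥(stabilizer H x ⊓ stabilizer H w)) : JT H V D.X where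
  K := K
  T := D.G
  act := tact D
  edgeC := D.edgeC
  finX := D.finV
  finT := D.finE
  J := S.J
  J_smul := S.js.smul
  J_conv := S.js.conv
  J_ne := S.js.ne
  p := S.pp
  p_l x y e := by
    have h : S.pp x y ∈ S.J x ∩ S.J y := by
      rw [S.pp_spec e]
      rfl
    exact h.1
  p_r x y e := by
    have h : S.pp x y ∈ S.J x ∩ S.J y := by
      rw [S.pp_spec e]
      rfl
    exact h.2
  p_u x y w e h1 h2 := by
    have h : w ∈ S.J x ∩ S.J y := ⟨h1, h2⟩
    rw [S.pp_spec e] at h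
    exact h
  two1 x w a b u hw ha hb hwa hwb hab hu hux := by
    rcases S.js.two x w hw (Sum.inl a) (Or.inl ⟨a, rfl, ha, hwa⟩) (Sum.inl b)
      (Or.inl ⟨b, rfl, hb, hwb⟩) (Sum.inr u) (Or.inr ⟨u, rfl, hu, hux⟩) with h | h | h
    · exact hab (Sum.inl.inj h)
    · exact absurd h (by simp)
    · exact absurd h (by simp)
  two2 x w a u v hw ha hwa hu hv hux hvx := by
    rcases S.js.two x w hw (Sum.inl a) (Or.inl ⟨a, rfl, ha, hwa⟩) (Sum.inr u)
      (Or.inr ⟨u, rfl, hu, hux⟩) (Sum.inr v) (Or.inr ⟨v, rfl, hv, hvx⟩) with h | h | h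
    · exact absurd h (by simp)
    · exact absurd h (by simp)
    · exact Sum.inr.inj h
  two3 x w u v z hw hu hv hz hux hvx hzx := by
    rcases S.js.two x w hw (Sum.inr u) (Or.inr ⟨u, rfl, hu, hux⟩) (Sum.inr v)
      (Or.inr ⟨v, rfl, hv, hvx⟩) (Sum.inr z) (Or.inr ⟨z, rfl, hz, hzx⟩) with h | h | h
    · exact Or.inl (Sum.inr.inj h)
    · exact Or.inr (Or.inr (Sum.inr.inj h))
    · exact Or.inr (Or.inl (Sum.inr.inj h))
  cover := S.cover hc
  stabC x w hw := hC x w hw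
  fJ := S.js.fin
  fJ2 := S.finJ2
  c := S.cc
  c_J i j := S.cc_spec i j
  walls w u x y h h1 h2 h3 h4 := by
    have := rtg_of_eqv (r := S.CN w u) (by
      rintro a b ⟨k1, k2, k3, k4, k5, q, e1, e2, t1, t2, t3, t4⟩
      exact ⟨k1, k4, k5, k2, k3, q, e2, e1, t3, t4, t1, t2⟩) (hc.wall w u h x y h1 h2 h3 h4)
    refine Relation.ReflTransGen.mono (fun a b hab => ?_) _ _ this
    obtain ⟨k1, k2, k3, k4, k5, q, e1, e2, _⟩ := hab
    exact ⟨⟨k2, k3⟩, ⟨k4, k5⟩, q, e1.symm, e2.symm⟩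

/-- THEOREM B -/
theorem card_Iw (hc : S.Conn)
    (hC : ∀ x, ∀ w ∈ S.J x, InC ↥(stabilizer H x ⊓ stabilizer H w)) (w : D.X) :
    ((S.jt hc hC).pxw w).A = Nat.card (S.Iw w) := by
  show Nat.card ((S.jt hc hC).IW w) = Nat.card (S.Iw w)
  apply Nat.card_congr
  apply Equiv.subtypeEquivRight
  intro i
  show (∃ h : H, h • w = S.cc i) ↔ ∃ h : H, S.IsC (fun k => h • K.pt i k) w
  constructor
  · rintro ⟨h, e⟩
    refine ⟨h⁻¹, S.isC_iff.2 ?_⟩
    rw [← e, inv_smul_smul]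
  · rintro ⟨h, e⟩
    refine ⟨h⁻¹, ?_⟩
    rw [S.isC_iff.1 e, inv_smul_smul]

end Sy

/-- THEOREM B -/
theorem exists_Xw {H V : Type} [Group H] [MulAction H V] (K : PQ H V) {D : Decomp H} (S : Sy K D)
    (hc : S.Conn) (hC : ∀ x, ∀ w ∈ S.J x, InC ↥(stabilizer H x ⊓ stabilizer H w)) (w : D.X) :
    ∃ (V' : Type) (_ : MulAction ↥(stabilizer H w) V') (L : PX ↥(stabilizer H w) V'),
      L.A = Nat.card (S.Iw w) :=
  ⟨_, _, (S.jt hc hC).pxw w, S.card_Iw hc hC w⟩

end Pool.Agent.BT
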