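import Pool.Agent.BT.TS0
import Pool.Agent.BT.PCrit
import Pool.Agent.BT.ThA4
import Pool.Agent.BT.SAC
import Pool.Agent.BT.XOfSy
import Pool.Agent.BT.JQ
import Pool.Agent.SAG.AG
import Pool.Agent.SAF.ABase

/-!
# BT: in a minimal counterexample all centres lie in one orbit
-/

namespace Pool.Agent.BT

open MulAction
open Pool.Agent.SAF (InC orbs FinOrb oc Decomp SAn SA Conv hull TAct bad_vertex)

theorem Bd.sub {M : ℕ} {H : Type} [Group H] (h : Bd M H) (S : Subgroup H) : Bd M ↥S := by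
  intro A hA
  have e : ↥A ≃* ↥(A.map S.subtype) := A.equivMapOfInjective S.subtype S.subtype_injective
  have : Finite ↥(A.map S.subtype) := Finite.of_equiv _ e.toEquiv
  rw [Nat.card_congr e.toEquiv]
  exact h _ this

theorem SA_stab_smul {H X : Type} [Group H] [MulAction H X] (h : H) (w : X)
    (hs : SA ↥(stabilizer H (h • w))) : SA ↥(stabilizer H w) :=
  Pool.Agent.SAF.SA.iso (stabilizerEquivStabilizer (G := H) (a := w) (b := h • w) (g := h)
    rfl).symm hs

section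

variable {H V : Type} [Group H] [MulAction H V]

theorem stab_inf_inC (K : PX H V) {X : Type} [MulAction H X] (x : V) (w : X) :
    InC ↥(stabilizer H x ⊓ stabilizer H w) :=
  Pool.Agent.SAG.InC.mono inf_le_left (K.stab x)

/-- the slices of a system of a pre-complex: if each slice has fewer pentagons than a minimal
counterexample then the group is strongly accessible -/
theorem exists_all {M : ℕ} {n : ℕ} (hM : Bd M H) (hb : ¬ SA H) (hn : PMinA M n)
    (K : PQ H V) (hK : K.A ≤ n) {D : Decomp H} (S : Sy K D) (hc : S.Conn)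
    (hC : ∀ x, ∀ w ∈ S.J x, InC ↥(stabilizer H x ⊓ stabilizer H w)) :
    ∃ w : D.X, ¬ SA ↥(stabilizer H w) ∧ K.A = n ∧
      ∀ i : K.I, ∃ h : H, S.IsC (fun k => h • K.pt i k) w := by
  obtain ⟨w, hw⟩ := bad_vertex D hb
  obtain ⟨V', _, L, hL⟩ := exists_Xw K S hc hC w
  have h1 : n ≤ L.A := hn _ _ L (hM.sub _) hw
  have := K.finI
  have h2 : Nat.card (S.Iw w) ≤ K.A := by
    unfold Sy.Iw PQ.A
    exact Nat.card_le_card_of_injective (fun i => i.1) Subtype.val_injective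
  refine ⟨w, hw, by omega, ?_⟩
  intro i
  by_contra hi
  have h3 : Nat.card (S.Iw w) < K.A := by
    unfold Sy.Iw PQ.A
    exact Finite.card_subtype_lt hi
  omega

theorem lemZ {M : ℕ} {K : PX H V} (hK : PCrit M K) {D : Decomp H} (S : Sy K.pq D) (hc : S.Conn) :
    ∃ w : D.X, ¬ SA ↥(stabilizer H w) ∧ ∀ i : K.I, ∃ h : H,
      S.IsC (fun k => h • K.pt i k) w := by
  obtain ⟨w, h1, -, h2⟩ := exists_all hK.bd hK.bad hK.min.1.1.1 K.pq le_rfl S hc
    (fun x w _ => stab_inf_inC K x w)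
  exact ⟨w, h1, h2⟩

theorem Sy.IsC_smul {K : PQ H V} {D : Decomp H} (S : Sy K D) (h : H) {v : Fin 5 → V} {c : D.X}
    (e : S.IsC v c) : S.IsC (fun k => h • v k) (h • c) := by
  intro k
  rcases e k with e | e
  · exact Or.inl (S.js.smul h _ _ e)
  · exact Or.inr (S.js.smul h _ _ e)

theorem JS.centre {K : PQ H V} {D : Decomp H} {J : V → Set D.X} (js : JS K D J) (v : Fin 5 → V)
    (hv : ∀ k, K.E (v k) (v (k + 1))) : ∃! c, ∀ k, c ∈ J (v k) ∪ J (v (k + 1)) :=
  x_centre D.tree (fun k => J (v k)) (fun _ => js.conv _) (fun k => js.one _ _ (hv k))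

theorem lemZ' {M : ℕ} {K : PX H V} (hK : PCrit M K) {D : Decomp H} {J : V → Set D.X}
    (js : JS K.pq D J) (i : K.I) (c : D.X)
    (h : ∀ k, c ∈ J (K.pt i k) ∪ J (K.pt i (k + 1))) : ¬ InC ↥(stabilizer H c) := by
  intro hC
  obtain ⟨S, rfl⟩ := exists_sy_full K.pq D J js
  obtain ⟨D', S', pr, hc, p1, p2, -, -, -, -⟩ := thmA K.pq D S
  obtain ⟨w, hw, hall⟩ := lemZ hK S' hc
  obtain ⟨g, hg⟩ := hall i
  have h1 : S'.IsC (K.pt i) (g⁻¹ • w) := by
    have := S'.IsC_smul g⁻¹ hg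
    simpa using this
  have h2 : ∀ k, pr (g⁻¹ • w) ∈ S.J (K.pt i k) ∪ S.J (K.pt i (k + 1)) := by
    intro k
    rcases h1 k with e | e
    · exact Or.inl (p2 _ _ e)
    · exact Or.inr (p2 _ _ e)
  have h3 : pr (g⁻¹ • w) = c := (js.centre (K.pt i) (K.pt_E i)).unique h2 h
  have h4 : stabilizer H (g⁻¹ • w) ≤ stabilizer H c := by
    intro k hk
    rw [mem_stabilizer_iff] at hk ⊢
    rw [← h3, ← p1, hk]
  exact hw (SA_stab_smul g⁻¹ w (SA_of_InC (Pool.Agent.SAG.InC.mono h4 hC)))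

end

end Pool.Agent.BT
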