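import Pool.Agent.BT.FlipG
import Pool.Agent.BT.LemZ

/-!
# BT/Flip: all sinks can be seen
-/

namespace Pool.Agent.BT

open MulAction
open Pool.Agent.SAF (InC orbs FinOrb oc Decomp SAn SA Conv hull TAct)

variable {H V : Type} [Group H] [MulAction H V]

/-- all vertex groups elliptic: there are `D'` and a system all of whose sinks are seen -/
theorem exists_seen {M : ℕ} {K : PX H V} (hK : PCrit M K) (D : Decomp H)
    (hell : ∀ (D : Decomp H) (x : V), ∃ w : D.X, ∀ h ∈ stabilizer H x, h • w = w) :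
    ∃ (D1 : Decomp H) (q : V → D1.X) (J : V → Set D1.X), QDat K.pq D1 (fun x => {q x}) q ∧
      IsJQ K.pq D1 (fun x => {q x}) q J ∧ JS K.pq D1 J ∧ (∀ x, (J x).Finite) ∧
      (∀ x, K.Sink x → ∃ (h : H) (i : K.I) (k : Fin 5), x = h • K.pt i k ∧
        ∀ k', q x ∈ J (h • K.pt i k') ∪ J (h • K.pt i (k' + 1))) := by
  obtain ⟨D1, q, J, h1, h2, h3, h4, -, h5⟩ := exists_seen_gen hK.allP hK.link D
    (fun js i c h => lemZ' hK js i c h) (fun D x _ _ => hell D x)
  have e : (Lq H (D := D1) q : V → Set D1.X) = fun x => {q x} := by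
    funext x
    exact if_pos (hell D1 x)
  rw [e] at h1 h2
  exact ⟨D1, q, J, h1, h2, h3, fun x => h4 x (hell D1 x), fun x hx => h5 x hx (hell D1 x)⟩

end Pool.Agent.BT
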