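import Pool.Agent.BT.KN

/-!
# BT: `light_one` for edges, `false_of_seen`
-/

namespace Pool.Agent.BT

open MulAction
open Pool.Agent.SAF (orbs FinOrb mk_eq_iff FinOrb_iff TAct Conv InC exists_next dist_edge SA oc)

namespace TS

variable {H V X : Type} [Group H] [MulAction H V] [MulAction H X] (S : TS H V X)

theorem heavy_swap {x y : V} (h : Heavy H (x, y)) : Heavy H (y, x) := by
  intro hf
  apply h
  refine finite_of_le ?_ hf
  intro k hk
  exact mem_stabilizer_iff.2 (Prod.ext (congrArg Prod.snd (mem_stabilizer_iff.1 hk))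
    (congrArg Prod.fst (mem_stabilizer_iff.1 hk)))

theorem light_one_E {M : ℕ} (hK : PCrit M S.K) {x y : V} (hE : S.K.E x y)
    (hl : ¬ Heavy H (x, y)) {c c' : X} (hc : S.W x y c) (hc' : S.W x y c') : c = c' := by
  rcases hE with h | h
  · exact S.light_one hK h hl hc hc'
  · exact S.light_one hK h (fun h2 => hl (heavy_swap h2)) hc.symm hc'.symm

theorem false_of_seen {M : ℕ} (hK : PCrit M S.K)
    (hseen : ∀ x, S.K.Sink x → ∃ (h : H) (i : S.K.I) (k : Fin 5),
      x = h • S.K.pt i k ∧ h • S.c i ∈ S.J x)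
    (hfix : ∀ w : X, ∃ h : H, h • w ≠ w) : False := by
  apply S.not_all_seen hK hfix
  intro x hx _
  obtain ⟨h, i, k, e, hc⟩ := hseen x hx
  exact ⟨h • S.K.pt i (k + 1), h • S.c i, hc, h, i, k, rfl, Or.inl ⟨e, rfl⟩⟩

end TS

end Pool.Agent.BT
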