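import Pool.Agent.BT.POpt
import Pool.Agent.BT.SAC

/-!
# Pentagon complexes: a minimal counterexample exists (final form)
-/

namespace Pool.Agent.BT

open Pool.Agent.SAF (InC SA)

theorem exists_pcrit (G : Type) [Group G] [Group.IsFinitelyPresented G] {M : ℕ} (hM : Bd M G)
    (hb : ¬ SA G) : ∃ (H : Type) (_ : Group H) (V : Type) (_ : MulAction H V) (K : PX H V),
      PCrit M K :=
  exists_pcrit' (fun _ _ h => SA_of_InC h) G hM hb

end Pool.Agent.BT
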