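import Pool.Agent.BT.End
import Pool.Agent.BT.KF
import Pool.Agent.BT.Flip
import Pool.Agent.BT.PEx

/-!
# BT: there is no minimal counterexample
-/

namespace Pool.Agent.BT.Z

open MulAction
open Pool.Agent.SAF (InC orbs FinOrb oc Decomp SAn SA Conv hull TAct FinOrb_iff exists_equivariant
  exists_decomp)

section

variable {H V : Type} [Group H] [MulAction H V] {K : PX H V}

theorem exists_edge {M : ℕ} (hK : PCrit M K) (x : V) : ∃ y, K.E x y := by
  by_contra hcon
  push Not at hcon
  have h1 : ∀ z, Relation.ReflTransGen (fun a b => K.ar a b ∨ K.ar b a) x z → z = x := by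
    intro z hz
    induction hz with
    | refl => rfl
    | tail _ e ih =>
      subst ih
      exact absurd e (hcon _)
  have h2 : ∀ h : H, h • x = x := fun h => h1 _ (K.conn x (h • x))
  apply hK.bad
  apply SA_of_InC
  have h3 : stabilizer H x = ⊤ := by
    rw [eq_top_iff]
    intro h _
    exact h2 h
  exact SAF.InC.iso Subgroup.topEquiv (h3 ▸ K.stab x)

theorem all_ell {M : ℕ} (hK : PCrit M K) (D : Decomp H) (x : V) :
    ∃ w : D.X, ∀ h ∈ stabilizer H x, h • w = w := by
  by_contra hcon
  have hx : hyv D x := by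
    intro w
    by_contra h1
    push Not at h1
    exact hcon ⟨w, h1⟩
  obtain ⟨D', S, pr, hc, ht, hn, hsk, hbr, hpr⟩ := exists_first hK D
  have hl : ∀ y, K.E x y → ¬ Heavy H (x, y) := by
    intro y e hh
    have hi : Infinite ↥(stabilizer H x ⊓ stabilizer H y) := by
      rw [← not_finite_iff_infinite]
      intro hf
      apply hh
      apply finite_of_le _ hf
      intro g hg
      rw [mem_stabilizer_iff] at hg
      exact ⟨congrArg Prod.fst hg, congrArg Prod.snd hg⟩
    exact (ell_of_heavy hK D e hi).1 hx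
  let TT : TS H V D'.X := S.ts hK.clean hc ht hn hsk hbr
  have hKT : PCrit M TT.K := hK
  obtain ⟨y, e⟩ := exists_edge hK x
  obtain ⟨c, hcW⟩ := TS.W.of_inP (S := TT) (x := x) (y := y) (hK.allP x y e)
  have key : ∀ z, Relation.ReflTransGen (fun a b => K.Cor a x b) y z → TT.W x z c := by
    intro z hz
    induction hz with
    | refl => exact hcW
    | tail _ hcor ih =>
      obtain ⟨h, i, j, h1⟩ := hcor
      rename_i a b _
      have ha : TT.W x a (h • TT.c i) := by
        rcases h1 with ⟨e1, e2, e3⟩ | ⟨e1, e2, e3⟩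
        · exact ⟨h, i, j, rfl, Or.inr ⟨e1, e2⟩⟩
        · refine ⟨h, i, j + 1, rfl, Or.inl ⟨e2, ?_⟩⟩
          rw [e3]
          show h • K.pt i (j + 2) = h • K.pt i (j + 1 + 1)
          rw [add_assoc]
          rfl
      have hb : TT.W x b (h • TT.c i) := by
        rcases h1 with ⟨e1, e2, e3⟩ | ⟨e1, e2, e3⟩
        · refine ⟨h, i, j + 1, rfl, Or.inl ⟨e2, ?_⟩⟩
          rw [e3]
          show h • K.pt i (j + 2) = h • K.pt i (j + 1 + 1)
          rw [add_assoc]
          rfl
        · exact ⟨h, i, j, rfl, Or.inr ⟨e1, e2⟩⟩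
      have he : K.E x a := ih.inP.E
      have := TT.light_one_E hKT (x := x) (y := a) he (hl a he) ih ha
      rw [this]
      exact hb
  apply hcon
  refine ⟨pr c, ?_⟩
  intro g hg
  have hg' : g • x = x := hg
  have e2 : K.E x (g • y) := by
    have := K.E_smul g e
    rwa [hg'] at this
  have h2 := key (g • y) (hK.link x y (g • y) e e2)
  have h3 := hcW.smul g
  rw [hg'] at h3
  have := TT.light_one_E hKT e2 (hl _ e2) h3 h2
  rw [← hpr, this]

theorem no_crit {M : ℕ} (hK : PCrit M K) : False := by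
  obtain ⟨D⟩ := exists_decomp hK.bad
  obtain ⟨D1, q, J, hQ, hJ, js, hfin, hseen⟩ := exists_seen hK D (all_ell hK)
  obtain ⟨S1, hS1, -, -⟩ := exists_sy_hull K D1 J js hK.clean (fun x y _ _ => ⟨hfin x, hfin y⟩)
  obtain ⟨D', S, pr, hc, ht, hn, hsk, hbr, hpr, p1, p2, p3⟩ := exists_conn hK D1 js
    (fun x y _ _ => ⟨hfin x, hfin y⟩) (fun x hx => Or.inl ⟨q x, hJ.sink x hx⟩)
  let TT : TS H V D'.X := S.ts hK.clean hc ht hn hsk hbr
  have hKT : PCrit M TT.K := hK
  refine TT.false_of_seen hKT ?_ (fun w => D'.nofix w)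
  intro x hx
  obtain ⟨h, i, k, e, hk⟩ := hseen x hx
  refine ⟨h, i, k, e, ?_⟩
  show h • S.cc i ∈ S.J x
  have hcs : S.IsC (fun k => h • K.pt i k) (h • S.cc i) := S.isC_smul h (S.cc_spec i)
  have h1 : S1.IsC (fun k => h • K.pt i k) (pr (h • S.cc i)) := by
    intro k'
    rw [hS1]
    exact (hcs k').imp (p1 _ _) (p1 _ _)
  have h2 : S1.IsC (fun k => h • K.pt i k) (q x) := by
    intro k'
    rw [hS1]
    exact hk k'
  have h3 : pr (h • S.cc i) = q x := S1.isC_unique h1 h2
  rcases hcs k with h4 | h4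
  · rw [e]
    exact h4
  · have e5 : K.E x (h • K.pt i (k + 1)) := by
      rw [e]
      exact K.E_smul h (K.pt_E i k)
    have h6 := S.p_l (x := x) (y := h • K.pt i (k + 1)) e5
    have h7 := S.p_r (x := x) (y := h • K.pt i (k + 1)) e5
    have h8 : pr (S.p x (h • K.pt i (k + 1))) = q x := by
      have := p1 _ _ h6
      rw [hJ.sink x hx] at this
      exact this
    have h9 := p3 _ _ h4 _ h7 (h3.trans h8.symm)
    rw [h9]
    exact h6

end

/-- THEOREM: finitely presented groups with bounded torsion are strongly accessible -/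
theorem main (G : Type) [Group G] [Group.IsFinitelyPresented G] {M : ℕ} (hM : Bd M G) : SA G := by
  by_contra hb
  obtain ⟨H, iH, V, iV, K, hK⟩ := exists_pcrit G hM hb
  exact no_crit hK

end Pool.Agent.BT.Z
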