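import Pool.Agent.BT.Graph1

/-!
# BT: masses along a map to an `H`-set (fibration lemma), products with finite `H`-sets
-/

namespace Pool.Agent.BT

open MulAction
open Pool.Agent.SAF (orbs FinOrb mk_eq_iff FinOrb_iff exists_rep)

section Sub

variable {H X : Type} [Group H] [MulAction H X]

theorem stabilizer_sub (A : Subgroup H) (x : X) :
    stabilizer ↥A x = (stabilizer H x).subgroupOf A := by
  ext a
  rfl

theorem iw_subgroupOf {A B : Subgroup H} (h : B ≤ A) : iw (B.subgroupOf A) = iw B := by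
  unfold iw
  rw [Nat.card_congr (Subgroup.subgroupOfEquivOfLe h).toEquiv]

theorem wq_sub (A : Subgroup H) {x : X} (h : stabilizer H x ≤ A) : wq ↥A x = wq H x := by
  unfold wq
  rw [stabilizer_sub, iw_subgroupOf h]

/-- orbits of a subgroup are contained in orbits of the group -/
def osub (A : Subgroup H) : orbitRel.Quotient ↥A X → orbitRel.Quotient H X :=
  Quotient.map' id (by
    rintro a b ⟨g, hg⟩
    exact ⟨g.1, hg⟩)

theorem osub_mk (A : Subgroup H) (x : X) :
    osub A (Quotient.mk'' x : orbitRel.Quotient ↥A X) = Quotient.mk'' x := rfl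

end Sub

section Fib

variable {H X Y : Type} [Group H] [MulAction H X] [MulAction H Y]

/-- the fibre over `y`, as a set with the action of the stabiliser of `y` -/
def fib (π : X → Y) (s : Set X) (y : Y) : Set X := {x | x ∈ s ∧ π x = y}

theorem finOrb_fib {π : X → Y} (hπ : ∀ (h : H) (x : X), π (h • x) = h • π x)
    {s : Set X} (hs : FinOrb H s) (y : Y) : FinOrb ↥(stabilizer H y) (fib π s y) := by
  apply Pool.Agent.SAF.FinOrb.of_inj hs (fun x => x) (fun x hx => hx.1)
  rintro a ⟨ha, ea⟩ b ⟨hb, eb⟩ ⟨h, e⟩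
  have hh : h ∈ stabilizer H y := by
    rw [mem_stabilizer_iff, ← ea, ← hπ]
    rw [show h • a = b from e, eb, ea]
  exact ⟨⟨h, hh⟩, e⟩

open Classical in
theorem sum_fib {π : X → Y} (hπ : ∀ (h : H) (x : X), π (h • x) = h • π x)
    {s : Set X} (hs : FinOrb H s) (hsm : ∀ (h : H) (x : X), x ∈ s → h • x ∈ s) (y : Y) :
    ∑ q ∈ hs.toFinset.filter (fun q => omap hπ q = Quotient.mk'' y), wq H (Quotient.out q) =
      mass ↥(stabilizer H y) (fib π s y) := by
  have hf := finOrb_fib hπ hs y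
  rw [mass_eq_sum hf]
  symm
  apply Finset.sum_bij (fun q _ => osub (stabilizer H y) q)
  · intro q hq
    rw [Set.Finite.mem_toFinset] at hq
    obtain ⟨x, ⟨hx, e⟩, rfl⟩ := hq
    rw [Finset.mem_filter, Set.Finite.mem_toFinset]
    refine ⟨⟨x, hx, rfl⟩, ?_⟩
    change omap hπ (Quotient.mk'' x) = _
    rw [omap_mk, e]
  · intro q hq q' hq' e
    rw [Set.Finite.mem_toFinset] at hq hq'
    obtain ⟨x, ⟨hx, ex⟩, rfl⟩ := hq
    obtain ⟨x', ⟨hx', ex'⟩, rfl⟩ := hq'
    change (Quotient.mk'' x : orbitRel.Quotient H X) = Quotient.mk'' x' at e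
    obtain ⟨h, hh⟩ := mk_eq_iff.1 e
    have hst : h ∈ stabilizer H y := by
      rw [mem_stabilizer_iff, ← ex', ← hπ, hh, ex, ex']
    exact mk_eq_iff.2 ⟨⟨h, hst⟩, hh⟩
  · intro q hq
    rw [Finset.mem_filter, Set.Finite.mem_toFinset] at hq
    obtain ⟨⟨x, hx, rfl⟩, e⟩ := hq
    change (Quotient.mk'' (π x) : orbitRel.Quotient H Y) = Quotient.mk'' y at e
    obtain ⟨h, hh⟩ := mk_eq_iff.1 e.symm
    refine ⟨Quotient.mk'' (h • x), ?_, ?_⟩
    · rw [Set.Finite.mem_toFinset]
      exact ⟨h • x, ⟨hsm h x hx, by rw [hπ, hh]⟩, rfl⟩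
    · rw [osub_mk]
      exact mk_eq_iff.2 ⟨h, rfl⟩
  · intro q hq
    rw [Set.Finite.mem_toFinset] at hq
    obtain ⟨x, ⟨hx, ex⟩, rfl⟩ := hq
    change wq ↥(stabilizer H y) (Quotient.out (Quotient.mk'' x)) =
      wq H (Quotient.out (Quotient.mk'' x))
    rw [wq_out, wq_out]
    apply wq_sub
    rw [← ex]
    exact stab_le_of_equi hπ x

open Classical in
/-- Fibration lemma. -/
theorem mass_fib {π : X → Y} (hπ : ∀ (h : H) (x : X), π (h • x) = h • π x)
    {s : Set X} (hs : FinOrb H s) (hsm : ∀ (h : H) (x : X), x ∈ s → h • x ∈ s)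
    (r : orbitRel.Quotient H Y → Y) (t : Finset (orbitRel.Quotient H Y))
    (hr : ∀ q ∈ t, (Quotient.mk'' (r q) : orbitRel.Quotient H Y) = q)
    (ht : ∀ x ∈ s, (Quotient.mk'' (π x) : orbitRel.Quotient H Y) ∈ t) :
    mass H s = ∑ q ∈ t, mass ↥(stabilizer H (r q)) (fib π s (r q)) := by
  rw [mass_eq_sum hs]
  have h1 : ∀ q ∈ hs.toFinset, omap hπ q ∈ t := by
    intro q hq
    rw [Set.Finite.mem_toFinset] at hq
    obtain ⟨x, hx, rfl⟩ := hq
    exact ht x hx
  rw [← Finset.sum_fiberwise_of_maps_to h1]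
  apply Finset.sum_congr rfl
  intro q hq
  rw [← sum_fib hπ hs hsm (r q), hr q hq]

end Fib

section Fin

variable {K Z : Type} [Group K] [MulAction K Z]

theorem iw_top_of_infinite (h : ¬ Finite K) : iw (⊤ : Subgroup K) = 0 := by
  rw [iw_eq_zero]
  intro hf
  exact h (Finite.of_equiv _ (Subgroup.topEquiv (G := K)).toEquiv)

/-- mass of a finite invariant set -/
theorem mass_finite {s : Set Z} (hs : s.Finite) (hsm : ∀ (k : K) (z : Z), z ∈ s → k • z ∈ s) :
    mass K s = s.ncard * iw (⊤ : Subgroup K) := by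
  classical
  have ho : FinOrb K s := Set.Finite.image _ hs
  rw [mass_eq_sum ho]
  by_cases hK : Finite K
  · have hKc : Nat.card ↥(⊤ : Subgroup K) = Nat.card K :=
      Nat.card_congr (Subgroup.topEquiv (G := K)).toEquiv
    have hpos : (0:ℚ) < (Nat.card K : ℚ) := Nat.cast_pos.2 Nat.card_pos
    have key : ∀ q ∈ ho.toFinset, wq K (Quotient.out q) =
        ((hs.toFinset.filter (fun z => (Quotient.mk'' z : orbitRel.Quotient K Z) = q)).card : ℚ)
          * iw (⊤ : Subgroup K) := by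
      intro q hq
      rw [Set.Finite.mem_toFinset] at hq
      obtain ⟨z, hz, rfl⟩ := hq
      change wq K (Quotient.out (Quotient.mk'' z)) = _
      rw [wq_out]
      have e1 : ((hs.toFinset.filter (fun z' => (Quotient.mk'' z' : orbitRel.Quotient K Z) =
          (fun y => (Quotient.mk'' y : orbitRel.Quotient K Z)) z)) : Set Z) = orbit K z := by
        ext z'
        rw [Finset.coe_filter, Set.mem_ofPred_eq, Set.Finite.mem_toFinset, mem_orbit_iff]
        constructor
        · rintro ⟨-, e⟩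
          obtain ⟨k, hk⟩ := mk_eq_iff.1 e
          exact ⟨k, hk⟩
        · rintro ⟨k, rfl⟩
          exact ⟨hsm k z hz, mk_eq_iff.2 ⟨k, rfl⟩⟩
      have e2 : (hs.toFinset.filter (fun z' => (Quotient.mk'' z' : orbitRel.Quotient K Z) =
          (fun y => (Quotient.mk'' y : orbitRel.Quotient K Z)) z)).card =
          Nat.card ↥(orbit K z) := by
        rw [← Set.ncard_coe_finset, e1]
        rfl
      rw [e2]
      have e3 : Nat.card ↥(orbit K z) * Nat.card ↥(stabilizer K z) = Nat.card K := by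
        rw [← Nat.card_prod]
        exact Nat.card_congr (orbitProdStabilizerEquivGroup K z)
      unfold wq iw
      rw [hKc, ← e3]
      have h2 : (0:ℚ) < (Nat.card ↥(stabilizer K z) : ℚ) := Nat.cast_pos.2 Nat.card_pos
      have h3 : (0:ℚ) < (Nat.card ↥(orbit K z) : ℚ) := by
        have : 0 < Nat.card ↥(orbit K z) := by
          rcases Nat.eq_zero_or_pos (Nat.card ↥(orbit K z)) with h | h
          · rw [h, zero_mul] at e3
            exact absurd e3 (Nat.card_pos.ne)
          · exact h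
        exact_mod_cast this
      push_cast
      field_simp
    rw [Finset.sum_congr rfl key, ← Finset.sum_mul, ← Nat.cast_sum]
    congr 2
    rw [← Finset.card_eq_sum_card_fiberwise, Set.ncard_eq_toFinset_card s hs]
    intro z hz
    rw [Finset.mem_coe, Set.Finite.mem_toFinset] at hz ⊢
    exact ⟨z, hz, rfl⟩
  · rw [iw_top_of_infinite hK, mul_zero]
    apply Finset.sum_eq_zero
    intro q hq
    rw [Set.Finite.mem_toFinset] at hq
    obtain ⟨z, hz, rfl⟩ := hq
    change wq K (Quotient.out (Quotient.mk'' z)) = _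
    rw [wq_out]
    unfold wq
    rw [iw_eq_zero]
    intro hf
    apply hK
    have h1 : (orbit K z).Finite := by
      apply hs.subset
      rintro _ ⟨k, rfl⟩
      exact hsm k z hz
    have h2 : Finite ↥(orbit K z) := h1
    exact Finite.of_equiv _ (orbitProdStabilizerEquivGroup K z)

end Fin

section Prod

variable {H X Z : Type} [Group H] [MulAction H X] [MulAction H Z]

theorem finOrb_prod {s : Set X} (hs : FinOrb H s) [Finite Z] :
    FinOrb H (s ×ˢ (Set.univ : Set Z)) := by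
  rw [FinOrb_iff] at hs ⊢
  obtain ⟨F, hF, hFs, h⟩ := hs
  refine ⟨F ×ˢ Set.univ, hF.prod Set.finite_univ, Set.prod_mono hFs le_rfl, ?_⟩
  rintro ⟨x, z⟩ ⟨hx, -⟩
  obtain ⟨f, hf, g, hg⟩ := h x hx
  exact ⟨(f, g⁻¹ • z), ⟨hf, trivial⟩, g, Prod.ext hg (smul_inv_smul g z)⟩

/-- product with a finite `H`-set -/
theorem mass_prod {s : Set X} (hs : FinOrb H s) (hsm : ∀ (h : H) (x : X), x ∈ s → h • x ∈ s)
    [Finite Z] : mass H (s ×ˢ (Set.univ : Set Z)) = Nat.card Z * mass H s := by
  classical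
  have hp : FinOrb H (s ×ˢ (Set.univ : Set Z)) := finOrb_prod hs
  have hπ : ∀ (h : H) (p : X × Z), (h • p).1 = h • p.1 := fun _ _ => rfl
  have hsm' : ∀ (h : H) (p : X × Z), p ∈ s ×ˢ (Set.univ : Set Z) →
      h • p ∈ s ×ˢ (Set.univ : Set Z) := fun h p hp => ⟨hsm h _ hp.1, trivial⟩
  rw [mass_fib (π := Prod.fst) hπ hp hsm' Quotient.out hs.toFinset
    (fun q _ => Quotient.out_eq' (s₁ := orbitRel H X) q)
    (by
      intro p hp
      rw [Set.Finite.mem_toFinset]
      exact ⟨p.1, hp.1, rfl⟩), mass_eq_sum hs, Finset.mul_sum]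
  apply Finset.sum_congr rfl
  intro q hq
  rw [Set.Finite.mem_toFinset] at hq
  set x : X := Quotient.out q with hx
  have hxs : x ∈ s := by
    obtain ⟨y, hy, e⟩ := hq
    have e2 : (Quotient.mk'' x : orbitRel.Quotient H X) = Quotient.mk'' y := by
      rw [show (Quotient.mk'' y : orbitRel.Quotient H X) = q from e]
      exact Quotient.out_eq' (s₁ := orbitRel H X) q
    obtain ⟨h, hh⟩ := mk_eq_iff.1 e2
    rw [← hh]
    exact hsm h y hy
  have hfe : fib (Prod.fst : X × Z → X) (s ×ˢ (Set.univ : Set Z)) x =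
      (fun z : Z => (x, z)) '' Set.univ := by
    ext ⟨a, b⟩
    constructor
    · rintro ⟨-, e⟩
      exact ⟨b, trivial, Prod.ext e.symm rfl⟩
    · rintro ⟨z, -, e⟩
      obtain ⟨rfl, rfl⟩ := Prod.mk.inj e
      exact ⟨⟨hxs, trivial⟩, rfl⟩
  have hfin : (fib (Prod.fst : X × Z → X) (s ×ˢ (Set.univ : Set Z)) x).Finite := by
    rw [hfe]
    exact Set.finite_univ.image _
  rw [mass_finite (K := ↥(stabilizer H x)) hfin (by
    rintro k p ⟨h1, h2⟩
    refine ⟨hsm' k.1 p h1, ?_⟩
    change k.1 • p.1 = x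
    rw [show p.1 = x from h2]
    exact mem_stabilizer_iff.1 k.2)]
  congr 1
  · rw [hfe, Set.ncard_image_of_injective _ (Prod.mk_right_injective x), Set.ncard_univ]
  · unfold wq iw
    rw [Nat.card_congr (Subgroup.topEquiv (G := ↥(stabilizer H x))).toEquiv]

end Prod

end Pool.Agent.BT
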