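import Pool.Agent.SAF.A10

/-!
# BT/Sub: the barycentric subdivision of a decomposition
-/

namespace Pool.Agent.BT

open MulAction
open Pool.Agent.SAF (InC orbs FinOrb FinOrb_iff oc Decomp SAn SA Conv hull isTree_of_cut exists_cut
  connected_of_rtg)

namespace Subd

variable {H : Type} [Group H] (D : Decomp H)

/-- vertices of the subdivision: vertices and edges -/
def SX : Type := D.X ⊕ {e : Sym2 D.X // e ∈ D.G.edgeSet}

theorem map_mem (h : H) (e : Sym2 D.X) (he : e ∈ D.G.edgeSet) :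
    Sym2.map (fun x => h • x) e ∈ D.G.edgeSet := by
  induction e using Sym2.ind with
  | h a b =>
    rw [Sym2.map_mk]
    exact D.adj_smul h a b he

instance actSX : MulAction H (SX D) where
  smul h z := match z with
    | Sum.inl w => Sum.inl (h • w)
    | Sum.inr e => Sum.inr ⟨Sym2.map (fun x => h • x) e.1, map_mem D h e.1 e.2⟩
  one_smul z := by
    rcases z with w | ⟨e, he⟩
    · exact congrArg Sum.inl (one_smul H w)
    · refine congrArg Sum.inr (Subtype.ext ?_)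
      induction e using Sym2.ind with
      | h a b =>
        change Sym2.map (fun x => (1 : H) • x) s(a, b) = s(a, b)
        rw [Sym2.map_mk, one_smul, one_smul]
  mul_smul g h z := by
    rcases z with w | ⟨e, he⟩
    · exact congrArg Sum.inl (mul_smul g h w)
    · refine congrArg Sum.inr (Subtype.ext ?_)
      induction e using Sym2.ind with
      | h a b =>
        change Sym2.map (fun x => (g * h) • x) s(a, b) =
          Sym2.map (fun x => g • x) (Sym2.map (fun x => h • x) s(a, b))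
        rw [Sym2.map_mk, Sym2.map_mk, Sym2.map_mk, mul_smul, mul_smul]

/-- a vertex of the tree as a vertex of the subdivision -/
def sv (w : D.X) : SX D := Sum.inl w

open Classical in
/-- the midpoint of an edge -/
noncomputable def sm (w w' : D.X) : SX D :=
  if h : D.G.Adj w w' then Sum.inr ⟨s(w, w'), h⟩ else Sum.inl w

variable {D}

theorem sm_eq {w w' : D.X} (h : D.G.Adj w w') : sm D w w' = Sum.inr ⟨s(w, w'), h⟩ := by
  unfold sm
  rw [dif_pos h]

theorem sv_smul (h : H) (w : D.X) : sv D (h • w) = h • sv D w := rfl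

theorem sm_smul (h : H) {w w' : D.X} (e : D.G.Adj w w') :
    sm D (h • w) (h • w') = h • sm D w w' := by
  rw [sm_eq e, sm_eq (D.adj_smul h _ _ e)]
  rfl

theorem sm_symm {w w' : D.X} (e : D.G.Adj w w') : sm D w w' = sm D w' w := by
  rw [sm_eq e, sm_eq e.symm]
  exact congrArg Sum.inr (Subtype.ext Sym2.eq_swap)

theorem sv_inj : Function.Injective (sv D) := Sum.inl_injective

theorem cases (z : SX D) : (∃ w, z = sv D w) ∨ ∃ w w', D.G.Adj w w' ∧ z = sm D w w' := by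
  rcases z with w | ⟨e, he⟩
  · exact Or.inl ⟨w, rfl⟩
  · right
    induction e using Sym2.ind with
    | h a b => exact ⟨a, b, he, (sm_eq he).symm⟩

theorem sv_ne_sm (u : D.X) {w w' : D.X} (e : D.G.Adj w w') : sv D u ≠ sm D w w' := by
  rw [sm_eq e]
  exact Sum.inl_ne_inr

theorem sm_inj {w w' u u' : D.X} (e : D.G.Adj w w') (e' : D.G.Adj u u')
    (h : sm D w w' = sm D u u') : (w = u ∧ w' = u') ∨ (w = u' ∧ w' = u) := by
  rw [sm_eq e, sm_eq e'] at h
  have h1 := congrArg Subtype.val (Sum.inr_injective h)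
  exact Sym2.eq_iff.1 h1

variable (D)

/-- adjacency of the subdivision -/
def SAdj (y z : SX D) : Prop := ∃ w w', D.G.Adj w w' ∧
  ((y = sv D w ∧ z = sm D w w') ∨ (z = sv D w ∧ y = sm D w w'))

/-- the subdivision -/
def SG : SimpleGraph (SX D) where
  Adj := SAdj D
  symm := ⟨fun _ _ ⟨w, w', h, e⟩ => ⟨w, w', h, e.symm⟩⟩
  loopless := ⟨by
    rintro y ⟨w, w', h, ⟨e1, e2⟩ | ⟨e1, e2⟩⟩
    · exact sv_ne_sm w h (e1.symm.trans e2)
    · exact sv_ne_sm w h (e1.symm.trans e2)⟩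

theorem adj_sm {w w' : D.X} (h : D.G.Adj w w') : (SG D).Adj (sv D w) (sm D w w') :=
  ⟨w, w', h, Or.inl ⟨rfl, rfl⟩⟩

theorem rtg_sv (w w' : D.X) : (SG D).Reachable (sv D w) (sv D w') := by
  obtain ⟨p⟩ := D.tree.connected w w'
  induction p with
  | nil => exact SimpleGraph.Reachable.refl _
  | cons h _ ih =>
    refine SimpleGraph.Reachable.trans ?_ ih
    refine SimpleGraph.Reachable.trans (adj_sm D h).reachable ?_
    rw [sm_symm h]
    exact (adj_sm D h.symm).symm.reachable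

theorem SG_conn : (SG D).Connected := by
  obtain ⟨r⟩ := D.tree.connected.nonempty
  have key : ∀ z, (SG D).Reachable (sv D r) z := by
    intro z
    rcases cases z with ⟨w, rfl⟩ | ⟨w, w', h, rfl⟩
    · exact rtg_sv D r w
    · exact (rtg_sv D r w).trans (adj_sm D h).reachable
  have : Nonempty (SX D) := ⟨sv D r⟩
  exact ⟨fun a b => (key a).symm.trans (key b)⟩

theorem SG_tree : (SG D).IsTree := by
  classical
  apply isTree_of_cut _ (SG_conn D)
  have key : ∀ u u' : D.X, D.G.Adj u u' → ∃ g : SX D → ZMod 2, g (sv D u) ≠ g (sm D u u') ∧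
      ∀ a b, (SG D).Adj a b → g a ≠ g b →
        (a = sv D u ∧ b = sm D u u') ∨ (a = sm D u u' ∧ b = sv D u) := by
    intro u u' huu
    obtain ⟨g, hg, -, -⟩ := exists_cut D.G D.tree u u' huu
    have hgu : g u ≠ g u' := (hg u u' huu).2 (Or.inl ⟨rfl, rfl⟩)
    let g1 : SX D → ZMod 2 := fun z => Sum.elim g
      (fun e : {e : Sym2 D.X // e ∈ D.G.edgeSet} => if e.1 = s(u, u') then g u'
        else g (Quot.out e.1).1) z
    have g1v : ∀ w, g1 (sv D w) = g w := fun w => rfl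
    have g1m : ∀ w w', D.G.Adj w w' → ¬ ((w = u ∧ w' = u') ∨ (w = u' ∧ w' = u)) →
        g1 (sm D w w') = g w := by
      intro w w' h hne
      have h1 : g w = g w' := by
        by_contra hne'
        exact hne ((hg w w' h).1 hne')
      have h2 : s(w, w') ≠ s(u, u') := fun e => hne (Sym2.eq_iff.1 e)
      have h3 : g1 (sm D w w') = g (Quot.out s(w, w')).1 := by
        rw [sm_eq h]
        change (if s(w, w') = s(u, u') then g u' else g (Quot.out s(w, w')).1) = _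
        rw [if_neg h2]
      rw [h3]
      have h4 : s((Quot.out s(w, w')).1, (Quot.out s(w, w')).2) = s(w, w') := Quot.out_eq _
      rcases Sym2.eq_iff.1 h4 with ⟨e1, -⟩ | ⟨e1, -⟩
      · rw [e1]
      · rw [e1, h1]
    have g1u : g1 (sm D u u') = g u' := by
      rw [sm_eq huu]
      change (if s(u, u') = s(u, u') then g u' else _) = _
      rw [if_pos rfl]
    refine ⟨g1, ?_, ?_⟩
    · rw [g1v, g1u]
      exact hgu
    · have key2 : ∀ w w', D.G.Adj w w' → g1 (sv D w) ≠ g1 (sm D w w') →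
          w = u ∧ sm D w w' = sm D u u' := by
        intro w w' h hne
        by_cases hc : (w = u ∧ w' = u') ∨ (w = u' ∧ w' = u)
        · rcases hc with ⟨rfl, rfl⟩ | ⟨rfl, rfl⟩
          · exact ⟨rfl, rfl⟩
          · exfalso
            apply hne
            rw [g1v, sm_symm h, g1u]
        · exfalso
          apply hne
          rw [g1v, g1m w w' h hc]
      rintro a b ⟨w, w', h, ⟨rfl, rfl⟩ | ⟨rfl, rfl⟩⟩ hne
      · obtain ⟨e1, e2⟩ := key2 w w' h hne
        left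
        rw [e1]
        rw [e1] at e2
        exact ⟨rfl, e2⟩
      · obtain ⟨e1, e2⟩ := key2 w w' h hne.symm
        right
        rw [e1]
        rw [e1] at e2
        exact ⟨e2, rfl⟩
  rintro y z ⟨w, w', h, ⟨rfl, rfl⟩ | ⟨rfl, rfl⟩⟩
  · exact key w w' h
  · obtain ⟨g, h1, h2⟩ := key w w' h
    exact ⟨g, h1.symm, fun a b hab hg => (h2 a b hab hg).symm⟩

theorem SG_smul (h : H) (y z : SX D) (e : (SG D).Adj y z) : (SG D).Adj (h • y) (h • z) := by
  obtain ⟨w, w', hw, ⟨rfl, rfl⟩ | ⟨rfl, rfl⟩⟩ := e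
  · exact ⟨h • w, h • w', D.adj_smul h _ _ hw, Or.inl ⟨rfl, (sm_smul h hw).symm⟩⟩
  · exact ⟨h • w, h • w', D.adj_smul h _ _ hw, Or.inr ⟨rfl, (sm_smul h hw).symm⟩⟩

theorem stab_eq {w w' : D.X} (h : D.G.Adj w w') :
    stabilizer H (sv D w) ⊓ stabilizer H (sm D w w') = stabilizer H w ⊓ stabilizer H w' := by
  ext g
  rw [Subgroup.mem_inf, Subgroup.mem_inf, mem_stabilizer_iff, mem_stabilizer_iff,
    mem_stabilizer_iff, mem_stabilizer_iff, ← sm_smul g h, ← sv_smul]
  constructor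
  · rintro ⟨e1, e2⟩
    have e1' := sv_inj e1
    refine ⟨e1', ?_⟩
    rcases sm_inj (D.adj_smul g _ _ h) h e2 with ⟨-, e⟩ | ⟨e, -⟩
    · exact e
    · exact absurd (e1'.symm.trans e) h.ne
  · rintro ⟨e1, e2⟩
    rw [e1, e2]
    exact ⟨rfl, rfl⟩

/-- the subdivision as a decomposition -/
noncomputable def sub : Decomp H where
  X := SX D
  act := actSX D
  G := SG D
  tree := SG_tree D
  adj_smul := SG_smul D
  noinv := by
    rintro h x y ⟨w, w', hw, ⟨rfl, rfl⟩ | ⟨rfl, rfl⟩⟩ ⟨e1, e2⟩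
    · exact sv_ne_sm (h • w) hw e1
    · exact sv_ne_sm (h • w) hw e2
  finV := by
    obtain ⟨F, hF, -, hF2⟩ := FinOrb_iff.1 D.finV
    obtain ⟨F', hF', hF'1, hF'2⟩ := FinOrb_iff.1 D.finE
    refine FinOrb_iff.2 ⟨sv D '' F ∪ (fun p : D.X × D.X => sm D p.1 p.2) '' F',
      (hF.image _).union (hF'.image _), fun _ _ => trivial, ?_⟩
    intro z _
    rcases cases z with ⟨w, rfl⟩ | ⟨w, w', h, rfl⟩
    · obtain ⟨f, hf, g, rfl⟩ := hF2 w trivial
      exact ⟨sv D f, Or.inl ⟨f, hf, rfl⟩, g, rfl⟩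
    · obtain ⟨p, hp, g, e⟩ := hF'2 (w, w') h
      obtain ⟨rfl, rfl⟩ := Prod.mk.inj e
      exact ⟨sm D p.1 p.2, Or.inr ⟨p, hp, rfl⟩, g, (sm_smul g (hF'1 hp)).symm⟩
  finE := by
    obtain ⟨F', hF', hF'1, hF'2⟩ := FinOrb_iff.1 D.finE
    refine FinOrb_iff.2 ⟨(fun p : D.X × D.X => (sv D p.1, sm D p.1 p.2)) '' F' ∪
      (fun p : D.X × D.X => (sm D p.1 p.2, sv D p.1)) '' F',
      (hF'.image _).union (hF'.image _), ?_, ?_⟩
    · rintro _ (⟨p, hp, rfl⟩ | ⟨p, hp, rfl⟩)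
      · exact adj_sm D (hF'1 hp)
      · exact (adj_sm D (hF'1 hp)).symm
    · rintro ⟨y, z⟩ ⟨w, w', h, ⟨e1, e2⟩ | ⟨e1, e2⟩⟩
      · dsimp only at e1 e2
        subst e1
        subst e2
        obtain ⟨p, hp, g, e⟩ := hF'2 (w, w') h
        obtain ⟨rfl, rfl⟩ := Prod.mk.inj e
        exact ⟨_, Or.inl ⟨p, hp, rfl⟩, g, Prod.ext rfl (sm_smul g (hF'1 hp)).symm⟩
      · dsimp only at e1 e2
        subst e1
        subst e2
        obtain ⟨p, hp, g, e⟩ := hF'2 (w, w') h
        obtain ⟨rfl, rfl⟩ := Prod.mk.inj e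
        exact ⟨_, Or.inr ⟨p, hp, rfl⟩, g, Prod.ext (sm_smul g (hF'1 hp)).symm rfl⟩
  edgeC := by
    rintro x y ⟨w, w', hw, ⟨rfl, rfl⟩ | ⟨rfl, rfl⟩⟩
    · rw [stab_eq D hw]
      exact D.edgeC w w' hw
    · rw [inf_comm, stab_eq D hw]
      exact D.edgeC w w' hw
  nofix := by
    intro z
    rcases cases z with ⟨w, rfl⟩ | ⟨w, w', hw, rfl⟩
    · obtain ⟨h, hh⟩ := D.nofix w
      exact ⟨h, fun e => hh (sv_inj e)⟩
    · obtain ⟨h, hh⟩ := D.nofix w
      refine ⟨h, fun e => ?_⟩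
      rw [← sm_smul h hw] at e
      rcases sm_inj (D.adj_smul h _ _ hw) hw e with ⟨e1, -⟩ | ⟨e1, e2⟩
      · exact hh e1
      · exact D.noinv h w w' hw ⟨e1, e2⟩

end Subd

theorem exists_sub {H : Type} [Group H] (D : Decomp H) :
    ∃ (D1 : Decomp H) (v : D.X → D1.X) (m : D.X → D.X → D1.X),
      (∀ (h : H) w, v (h • w) = h • v w) ∧
      (∀ (h : H) w w', D.G.Adj w w' → m (h • w) (h • w') = h • m w w') ∧
      (∀ w w', D.G.Adj w w' → m w w' = m w' w) ∧
      Function.Injective v ∧ (∀ z, (∃ w, z = v w) ∨ ∃ w w', D.G.Adj w w' ∧ z = m w w') ∧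
      (∀ u w w', D.G.Adj w w' → v u ≠ m w w') ∧
      (∀ w w' u u', D.G.Adj w w' → D.G.Adj u u' → m w w' = m u u' →
        (w = u ∧ w' = u') ∨ (w = u' ∧ w' = u)) ∧
      (∀ y z, D1.G.Adj y z ↔ ∃ w w', D.G.Adj w w' ∧
        ((y = v w ∧ z = m w w') ∨ (z = v w ∧ y = m w w'))) :=
  ⟨Subd.sub D, Subd.sv D, Subd.sm D, Subd.sv_smul, fun h _ _ e => Subd.sm_smul h e,
    fun _ _ e => Subd.sm_symm e, Subd.sv_inj, Subd.cases, fun u _ _ e => Subd.sv_ne_sm u e,
    fun _ _ _ _ e e' h => Subd.sm_inj e e' h, fun _ _ => Iff.rfl⟩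

end Pool.Agent.BT
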