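import Pool.Agent.BT.Tree

/-!
# BT: one fold of a bipartite graph, the inequality

`U`, `W` are `H`-sets, `I` an invariant set of pairs. A move identifies two elements `u`, `u'` of
`U` which have a common neighbour `z` in `W` (with all translates).
-/

namespace Pool.Agent.BT

open MulAction
open Pool.Agent.SAF (orbs FinOrb mk_eq_iff FinOrb_iff exists_rep)

variable {H U U' W : Type} [Group H] [MulAction H U] [MulAction H U'] [MulAction H W]

/-- the relation generated by a pair -/
def genRel (H : Type) [Group H] {U : Type} [MulAction H U] (u u' : U) : U → U → Prop :=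
  Relation.EqvGen (fun a b => ∃ h : H, a = h • u ∧ b = h • u')

theorem genRel_diff {u u' : U} (hd : ∀ h : H, h • u ≠ u') {x y : U} (h : genRel H u u' x y) :
    x = y ∨ ∃ h k : H, k ∈ stabilizer H u ⊔ stabilizer H u' ∧ (x = h • u ∨ x = h • u') ∧
      (y = (h * k) • u ∨ y = (h * k) • u') := by
  have hd2 : ∀ h k : H, h • u ≠ k • u' := by
    intro h k e
    apply hd (k⁻¹ * h)
    rw [mul_smul, e, inv_smul_smul]
  induction h with
  | rel x y e =>
    obtain ⟨h, e1, e2⟩ := e
    exact Or.inr ⟨h, 1, Subgroup.one_mem _, Or.inl e1, Or.inr (by rw [mul_one]; exact e2)⟩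
  | refl x => exact Or.inl rfl
  | symm x y _ ih =>
    rcases ih with e | ⟨h, k, hk, h1, h2⟩
    · exact Or.inl e.symm
    · refine Or.inr ⟨h * k, k⁻¹, Subgroup.inv_mem _ hk, h2, ?_⟩
      rw [mul_inv_cancel_right]
      exact h1
  | trans x y w _ _ ih1 ih2 =>
    rcases ih1 with e | ⟨h, k, hk, h1, h2⟩
    · rw [e]; exact ih2
    rcases ih2 with e | ⟨h', k', hk', h1', h2'⟩
    · rw [← e]; exact Or.inr ⟨h, k, hk, h1, h2⟩
    right
    have key : (h * k)⁻¹ * h' ∈ stabilizer H u ⊔ stabilizer H u' := by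
      rcases h2 with e2 | e2 <;> rcases h1' with e1 | e1
      · apply Subgroup.mem_sup_left
        rw [mem_stabilizer_iff, mul_smul, ← e1, e2, inv_smul_smul]
      · exact absurd (e2.symm.trans e1) (hd2 _ _)
      · exact absurd (e1.symm.trans e2) (hd2 _ _)
      · apply Subgroup.mem_sup_right
        rw [mem_stabilizer_iff, mul_smul, ← e1, e2, inv_smul_smul]
    refine ⟨h, k * ((h * k)⁻¹ * h') * k', Subgroup.mul_mem _ (Subgroup.mul_mem _ hk key) hk',
      h1, ?_⟩
    have : h * (k * ((h * k)⁻¹ * h') * k') = h' * k' := by group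
    rw [this]
    exact h2'

theorem genRel_same {u : U} (g : H) {x y : U} (h : genRel H u (g • u) x y) :
    x = y ∨ ∃ h k : H, k ∈ stabilizer H u ⊔ Subgroup.zpowers g ∧ x = h • u ∧
      y = (h * k) • u := by
  induction h with
  | rel x y e =>
    obtain ⟨h, e1, e2⟩ := e
    refine Or.inr ⟨h, g, Subgroup.mem_sup_right (Subgroup.mem_zpowers g), e1, ?_⟩
    rw [mul_smul]; exact e2
  | refl x => exact Or.inl rfl
  | symm x y _ ih =>
    rcases ih with e | ⟨h, k, hk, h1, h2⟩
    · exact Or.inl e.symm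
    · refine Or.inr ⟨h * k, k⁻¹, Subgroup.inv_mem _ hk, h2, ?_⟩
      rw [mul_inv_cancel_right]
      exact h1
  | trans x y w _ _ ih1 ih2 =>
    rcases ih1 with e | ⟨h, k, hk, h1, h2⟩
    · rw [e]; exact ih2
    rcases ih2 with e | ⟨h', k', hk', h1', h2'⟩
    · rw [← e]; exact Or.inr ⟨h, k, hk, h1, h2⟩
    right
    have key : (h * k)⁻¹ * h' ∈ stabilizer H u ⊔ Subgroup.zpowers g := by
      apply Subgroup.mem_sup_left
      rw [mem_stabilizer_iff, mul_smul, ← h1', h2, inv_smul_smul]
    refine ⟨h, k * ((h * k)⁻¹ * h') * k', Subgroup.mul_mem _ (Subgroup.mul_mem _ hk key) hk',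
      h1, ?_⟩
    have : h * (k * ((h * k)⁻¹ * h') * k') = h' * k' := by group
    rw [this]
    exact h2'

/-- a move: `f` identifies exactly the translates of `u` and `u'`, which have the common
neighbour `z` -/
structure Move (H : Type) [Group H] {U U' W : Type} [MulAction H U] [MulAction H U']
    [MulAction H W] (I : Set (U × W)) (f : U → U') (u u' : U) (z : W) : Prop where
  equi : ∀ (h : H) (x : U), f (h • x) = h • f x
  surj : Function.Surjective f
  ker : ∀ x y : U, f x = f y → genRel H u u' x y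
  fu : f u = f u'
  hu : (u, z) ∈ I
  hu' : (u', z) ∈ I

variable {I : Set (U × W)} {f : U → U'} {u u' : U} {z : W}

/-- the map on pairs -/
def pm (W : Type) {U U' : Type} (f : U → U') : U × W → U' × W := fun p => (f p.1, p.2)

theorem pm_equi (hf : ∀ (h : H) (x : U), f (h • x) = h • f x) (h : H) (p : U × W) :
    pm W f (h • p) = h • pm W f p := by
  show (f (h • p.1), h • p.2) = (h • f p.1, h • p.2)
  rw [hf]

theorem stab_pair_le (x : U) (w : W) : stabilizer H (x, w) ≤ stabilizer H x :=
  stab_le_of_equi (F := Prod.fst) (fun _ _ => rfl) (x, w)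

namespace Move

theorem stab_le_diff (m : Move H I f u u' z) (hd : ∀ h : H, h • u ≠ u') :
    stabilizer H (f u) ≤ stabilizer H u ⊔ stabilizer H u' := by
  have hd2 : ∀ h k : H, h • u ≠ k • u' := by
    intro h k e
    apply hd (k⁻¹ * h)
    rw [mul_smul, e, inv_smul_smul]
  intro h hh
  rw [mem_stabilizer_iff, ← m.equi] at hh
  rcases genRel_diff hd (m.ker _ _ hh) with e | ⟨h1, k, hk, e1, e2⟩
  · exact Subgroup.mem_sup_left (mem_stabilizer_iff.2 e)
  · rcases e1 with e1 | e1
    · rcases e2 with e2 | e2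
      · have s1 : h⁻¹ * h1 ∈ stabilizer H u ⊔ stabilizer H u' := by
          apply Subgroup.mem_sup_left
          rw [mem_stabilizer_iff, mul_smul, ← e1, inv_smul_smul]
        have s2 : h1 * k ∈ stabilizer H u ⊔ stabilizer H u' :=
          Subgroup.mem_sup_left (mem_stabilizer_iff.2 e2.symm)
        have s3 := Subgroup.mul_mem _ (Subgroup.mul_mem _ s2 (Subgroup.inv_mem _ hk))
          (Subgroup.inv_mem _ s1)
        have : h1 * k * k⁻¹ * (h⁻¹ * h1)⁻¹ = h := by group
        rwa [this] at s3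
      · exact absurd ((one_smul H u).trans e2) (hd2 1 _)
    · exact absurd e1 (hd2 _ _)

theorem stab_le_same {g : H} (m : Move H I f u (g • u) z) :
    stabilizer H (f u) ≤ stabilizer H u ⊔ Subgroup.zpowers g := by
  intro h hh
  rw [mem_stabilizer_iff, ← m.equi] at hh
  rcases genRel_same g (m.ker _ _ hh) with e | ⟨h1, k, hk, e1, e2⟩
  · exact Subgroup.mem_sup_left (mem_stabilizer_iff.2 e)
  · have s1 : h⁻¹ * h1 ∈ stabilizer H u ⊔ Subgroup.zpowers g := by
      apply Subgroup.mem_sup_left
      rw [mem_stabilizer_iff, mul_smul, ← e1, inv_smul_smul]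
    have s2 : h1 * k ∈ stabilizer H u ⊔ Subgroup.zpowers g :=
      Subgroup.mem_sup_left (mem_stabilizer_iff.2 e2.symm)
    have s3 := Subgroup.mul_mem _ (Subgroup.mul_mem _ s2 (Subgroup.inv_mem _ hk))
      (Subgroup.inv_mem _ s1)
    have : h1 * k * k⁻¹ * (h⁻¹ * h1)⁻¹ = h := by group
    rwa [this] at s3

/-- outside the class of `u`, the map is injective -/
theorem inj_off (m : Move H I f u u' z) (x y : U) (e : f x = f y) :
    x = y ∨ ∃ h : H, h • f u = f x := by
  by_cases hd : ∀ h : H, h • u ≠ u'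
  · rcases genRel_diff hd (m.ker _ _ e) with e | ⟨h1, k, hk, e1 | e1, e2⟩
    · exact Or.inl e
    · exact Or.inr ⟨h1, by rw [e1, m.equi]⟩
    · exact Or.inr ⟨h1, by rw [e1, m.equi, m.fu]⟩
  · push Not at hd
    obtain ⟨g, rfl⟩ := hd
    rcases genRel_same g (m.ker _ _ e) with e | ⟨h1, k, hk, e1, e2⟩
    · exact Or.inl e
    · exact Or.inr ⟨h1, by rw [e1, m.equi]⟩

/-- the class of `u` consists of translates of `u` and `u'` -/
theorem fiber (m : Move H I f u u' z) (x : U) (e : ∃ h : H, h • f x = f u) :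
    (∃ h : H, h • u = x) ∨ ∃ h : H, h • u' = x := by
  obtain ⟨h, hh⟩ := e
  rw [← m.equi] at hh
  by_cases hd : ∀ h : H, h • u ≠ u'
  · rcases genRel_diff hd (m.ker _ _ hh) with e | ⟨h1, k, hk, e1 | e1, e2⟩
    · exact Or.inl ⟨h⁻¹, by rw [← e, inv_smul_smul]⟩
    · exact Or.inl ⟨h⁻¹ * h1, by rw [mul_smul, ← e1, inv_smul_smul]⟩
    · exact Or.inr ⟨h⁻¹ * h1, by rw [mul_smul, ← e1, inv_smul_smul]⟩
  · push Not at hd
    obtain ⟨g, rfl⟩ := hd
    rcases genRel_same g (m.ker _ _ hh) with e | ⟨h1, k, hk, e1, e2⟩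
    · exact Or.inl ⟨h⁻¹, by rw [← e, inv_smul_smul]⟩
    · exact Or.inl ⟨h⁻¹ * h1, by rw [mul_smul, ← e1, inv_smul_smul]⟩

/-- the loss of the vertices, different orbits -/
theorem loss_diff (m : Move H I f u u' z) (hU : FinOrb H (Set.univ : Set U))
    (hd : ∀ h : H, h • u ≠ u') :
    mass H (Set.univ : Set U) - mass H (Set.univ : Set U') ≤
      iw (stabilizer H u) + iw (stabilizer H u') - iw (stabilizer H u ⊔ stabilizer H u') := by
  classical
  have h1 := mass_sub_le m.equi hU (fun _ _ _ => Set.mem_univ _) (Set.mem_univ u)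
    (fun x _ y _ e => m.inj_off x y e)
  rw [Set.image_univ, m.surj.range_eq] at h1
  have hne : (Quotient.mk'' u : orbitRel.Quotient H U) ≠ Quotient.mk'' u' := by
    intro e
    obtain ⟨h, hh⟩ := mk_eq_iff.1 e.symm
    exact hd h hh
  have h2 := defect_le_of_fiber m.equi hU (f u)
    {(Quotient.mk'' u : orbitRel.Quotient H U), Quotient.mk'' u'} (by
      intro x _ e
      rw [Finset.mem_insert, Finset.mem_singleton]
      rcases m.fiber x e with ⟨h, hh⟩ | ⟨h, hh⟩
      · exact Or.inl (mk_eq_iff.2 ⟨h, hh⟩)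
      · exact Or.inr (mk_eq_iff.2 ⟨h, hh⟩))
  rw [Finset.sum_pair hne, wq_out, wq_out] at h2
  have h3 : iw (stabilizer H u ⊔ stabilizer H u') ≤ wq H (f u) := iw_anti (m.stab_le_diff hd)
  unfold wq at h2 h3
  linarith

/-- the loss of the vertices, same orbit -/
theorem loss_same {g : H} (m : Move H I f u (g • u) z) (hU : FinOrb H (Set.univ : Set U)) :
    mass H (Set.univ : Set U) - mass H (Set.univ : Set U') ≤
      iw (stabilizer H u) - iw (stabilizer H u ⊔ Subgroup.zpowers g) := by
  classical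
  have h1 := mass_sub_le m.equi hU (fun _ _ _ => Set.mem_univ _) (Set.mem_univ u)
    (fun x _ y _ e => m.inj_off x y e)
  rw [Set.image_univ, m.surj.range_eq] at h1
  have h2 := defect_le_of_fiber m.equi hU (f u)
    {(Quotient.mk'' u : orbitRel.Quotient H U)} (by
      intro x _ e
      rw [Finset.mem_singleton]
      rcases m.fiber x e with ⟨h, hh⟩ | ⟨h, hh⟩
      · exact (mk_eq_iff.2 ⟨h, hh⟩)
      · exact (mk_eq_iff.2 ⟨h * g, by rw [mul_smul, hh]⟩))
  rw [Finset.sum_singleton, wq_out] at h2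
  have h3 : iw (stabilizer H u ⊔ Subgroup.zpowers g) ≤ wq H (f u) := iw_anti m.stab_le_same
  unfold wq at h2 h3
  linarith

/-- the loss of the pairs, different orbits of pairs -/
theorem gain_diff (m : Move H I f u u' z) (hI : FinOrb H I)
    (hd : ∀ h : H, h • (u, z) ≠ (u', z)) :
    iw (stabilizer H (u, z)) + iw (stabilizer H (u', z)) - wq H (pm W f (u, z)) ≤
      defect (pm_equi (W := W) m.equi) hI (Quotient.mk'' (pm W f (u, z))) := by
  have h1 := defect_ge_two (pm_equi (W := W) m.equi) hI m.hu m.hu' hd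
    ⟨1, by rw [one_smul]; show (f u', z) = (f u, z); rw [m.fu]⟩
  unfold wq at h1 ⊢
  exact h1

theorem stab_pm_diff (m : Move H I f u u' z) :
    stabilizer H (u, z) ⊔ stabilizer H (u', z) ≤ stabilizer H (pm W f (u, z)) := by
  apply sup_le
  · exact stab_le_of_equi (pm_equi (W := W) m.equi) (u, z)
  · have : pm W f (u, z) = pm W f (u', z) := by
      show (f u, z) = (f u', z)
      rw [m.fu]
    rw [this]
    exact stab_le_of_equi (pm_equi (W := W) m.equi) (u', z)

theorem stab_pm_same {k : H} (m : Move H I f u (k • u) z) (hk : k • z = z) :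
    stabilizer H (u, z) ⊔ Subgroup.zpowers k ≤ stabilizer H (pm W f (u, z)) := by
  apply sup_le
  · exact stab_le_of_equi (pm_equi (W := W) m.equi) (u, z)
  · rw [Subgroup.zpowers_le, mem_stabilizer_iff]
    show (k • f u, k • z) = (f u, z)
    rw [← m.equi, ← m.fu, hk]

/-- The loss of vertices is at most the loss of pairs over the class of `(u, z)`. -/
theorem loss_le (m : Move H I f u u' z) (hU : FinOrb H (Set.univ : Set U)) (hI : FinOrb H I) :
    mass H (Set.univ : Set U) - mass H (Set.univ : Set U') ≤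
      defect (pm_equi (W := W) m.equi) hI (Quotient.mk'' (pm W f (u, z))) := by
  by_cases hd : ∀ h : H, h • (u, z) ≠ (u', z)
  · have h1 := m.gain_diff hI hd
    have h2 : wq H (pm W f (u, z)) ≤ iw (stabilizer H (u, z) ⊔ stabilizer H (u', z)) :=
      iw_anti m.stab_pm_diff
    by_cases hd' : ∀ h : H, h • u ≠ u'
    · have h3 := m.loss_diff hU hd'
      have m1 := iw_mono (stabilizer H (u', z)) (stab_pair_le (H := H) u z)
      have m2 := iw_mono (stabilizer H u) (stab_pair_le (H := H) u' z)
      rw [sup_comm (stabilizer H u'), sup_comm (stabilizer H (u', z)) (stabilizer H u)] at m2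
      linarith
    · push Not at hd'
      obtain ⟨g, rfl⟩ := hd'
      have h3 := m.loss_same hU
      have a1 := iw_anti (stab_pair_le (H := H) u z)
      have a2 := iw_anti (A := stabilizer H (g • u, z))
        (B := stabilizer H (u, z) ⊔ stabilizer H (g • u, z)) le_sup_right
      have a3 := iw_nonneg (stabilizer H u ⊔ Subgroup.zpowers g)
      linarith
  · push Not at hd
    obtain ⟨k, hk⟩ := hd
    have hk1 : k • u = u' := congrArg Prod.fst hk
    have hk2 : k • z = z := congrArg Prod.snd hk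
    subst hk1
    have h1 := defect_ge_one (pm_equi (W := W) m.equi) hI m.hu
    have h2 : wq H (pm W f (u, z)) ≤ iw (stabilizer H (u, z) ⊔ Subgroup.zpowers k) :=
      iw_anti (m.stab_pm_same hk2)
    have h3 := m.loss_same hU
    have m1 := iw_mono (Subgroup.zpowers k) (stab_pair_le (H := H) u z)
    unfold wq at h1 h2
    linarith

/-- CLAIM 1: a move does not raise `mass I - mass U`. -/
theorem mass_le (m : Move H I f u u' z) (hU : FinOrb H (Set.univ : Set U)) (hI : FinOrb H I) :
    mass H (Set.univ : Set U) - mass H (Set.univ : Set U') ≤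
      mass H I - mass H (pm W f '' I) :=
  (m.loss_le hU hI).trans (defect_le (pm_equi (W := W) m.equi) hI m.hu)

end Move

end Pool.Agent.BT
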