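import Pool.Agent.BT.Fold1

/-!
# BT: one fold of a bipartite graph, the case of equality

If a move does not change `mass I - mass U`, every cochain on `I` which vanishes on the elements
with infinite stabiliser is a pull back up to a coboundary of the same kind.
-/

namespace Pool.Agent.BT

open MulAction
open Pool.Agent.SAF (orbs FinOrb mk_eq_iff FinOrb_iff exists_rep)

variable {H U U' W : Type} [Group H] [MulAction H U] [MulAction H U'] [MulAction H W]

theorem finite_smul_iff {X : Type} [MulAction H X] (h : H) (x : X) :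
    Finite ↥(stabilizer H (h • x)) ↔ Finite ↥(stabilizer H x) := by
  have := wq_smul h x
  unfold wq at this
  rw [← iw_pos, ← iw_pos, this]

theorem exists_orbfun {u : U} {α : H → ZMod 2} (hα : RInv (stabilizer H u) α) :
    ∃ g : U → ZMod 2, (∀ h : H, g (h • u) = α h) ∧ ∀ x, (∀ h : H, h • u ≠ x) → g x = 0 := by
  classical
  refine ⟨fun x => if hx : ∃ h : H, h • u = x then α hx.choose else 0, ?_, ?_⟩
  · intro h
    have hx : ∃ k : H, k • u = h • u := ⟨h, rfl⟩
    show (if hx : ∃ k : H, k • u = h • u then α hx.choose else 0) = α h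
    rw [dif_pos hx]
    obtain ⟨k, hk⟩ : ∃ k, k = hx.choose := ⟨_, rfl⟩
    have h1 : k • u = h • u := by rw [hk]; exact hx.choose_spec
    rw [← hk]
    have h2 : k⁻¹ * h ∈ stabilizer H u := by
      rw [mem_stabilizer_iff, mul_smul, ← h1, inv_smul_smul]
    have h3 := hα k _ h2
    rw [mul_inv_cancel_left] at h3
    exact h3.symm
  · intro x hx
    show (if hx : ∃ k : H, k • u = x then α hx.choose else 0) = 0
    rw [dif_neg]
    rintro ⟨k, hk⟩
    exact hx k hk

variable {I : Set (U × W)} {f : U → U'} {u u' : U} {z : W}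

namespace Move

/-- assembling the solution -/
theorem assemble (m : Move H I f u u' z) (hI : FinOrb H I)
    (φ : U × W → ZMod 2) (hφ : ∀ i ∈ I, ¬ Finite ↥(stabilizer H i) → φ i = 0)
    (M : Subgroup H) (hM : M ≤ stabilizer H (pm W f (u, z))) (S : ℚ)
    (hD : mass H I - mass H (pm W f '' I) ≤
      defect (pm_equi (W := W) m.equi) hI (Quotient.mk'' (pm W f (u, z))))
    (hS1 : defect (pm_equi (W := W) m.equi) hI (Quotient.mk'' (pm W f (u, z))) ≤ S - iw M)
    (hS2 : S - wq H (pm W f (u, z)) ≤
      defect (pm_equi (W := W) m.equi) hI (Quotient.mk'' (pm W f (u, z))))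
    (hS3 : ∀ i ∈ I, (∃ h : H, h • pm W f i = pm W f (u, z)) → (∀ h : H, h • (u, z) ≠ i) →
      (∀ h : H, h • (u', z) ≠ i) → S + wq H i - wq H (pm W f (u, z)) ≤
      defect (pm_equi (W := W) m.equi) hI (Quotient.mk'' (pm W f (u, z))))
    (g : U → ZMod 2) (g0 : ∀ x, ¬ Finite ↥(stabilizer H x) → g x = 0)
    (κ : H → ZMod 2) (κM : RInv M κ) (κ0 : ¬ Finite ↥M → ∀ h, κ h = 0)
    (hκ1 : ∀ h : H, φ (h • (u, z)) + g (h • u) = κ h)
    (hκ2 : ∀ h : H, φ (h • (u', z)) + g (h • u') = κ h) :
    ∃ ψ : U' × W → ZMod 2, (∀ i ∈ pm W f '' I, ¬ Finite ↥(stabilizer H i) → ψ i = 0) ∧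
      ∀ i ∈ I, φ i = ψ (pm W f i) + g i.1 := by
  classical
  set D := defect (pm_equi (W := W) m.equi) hI (Quotient.mk'' (pm W f (u, z))) with hDdef
  have heq := pm_equi (W := W) m.equi
  have hMw : iw M ≤ wq H (pm W f (u, z)) := by linarith
  have hMw' : wq H (pm W f (u, z)) ≤ iw M := iw_anti hM
  have hpair : pm W f (u', z) = pm W f (u, z) := by
    show (f u', z) = (f u, z)
    rw [m.fu]
  -- heavy elements
  have hheavy : ∀ i ∈ I, ¬ Finite ↥(stabilizer H i) → φ i + g i.1 = 0 := by
    intro i hi hf
    rw [hφ i hi hf, g0 i.1 (fun h => hf (finite_of_le (stab_pair_le i.1 i.2) h)), add_zero]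
  -- outside the class of `(u, z)`
  have R1 : ∀ i ∈ I, (¬ ∃ h : H, h • pm W f i = pm W f (u, z)) → Finite ↥(stabilizer H i) →
      Finite ↥(stabilizer H (pm W f i)) ∧ ∀ j ∈ I, pm W f j = pm W f i → j = i := by
    intro i hi hc hf
    have hw := iw_pos.2 hf
    have h1 := defect_add_le heq hI hi m.hu (fun h e => hc ⟨h, e⟩)
    have h2 := defect_ge_one heq hI hi
    have h3 := wq_le_of_equi heq i
    have h4 : wq H (pm W f i) = wq H i := by
      have h5 : defect heq hI (Quotient.mk'' (pm W f i)) ≤ 0 := by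
        have h6 : D = defect heq hI (Quotient.mk'' (pm W f (u, z))) := rfl
        linarith
      linarith
    have h7 : Finite ↥(stabilizer H (pm W f i)) := by
      apply iw_pos.1
      have : iw (stabilizer H (pm W f i)) = iw (stabilizer H i) := h4
      rw [this]; exact hw
    have h8 : stabilizer H i = stabilizer H (pm W f i) :=
      eq_of_iw_eq (stab_le_of_equi heq i) hf h4
    refine ⟨h7, fun j hj e => ?_⟩
    by_cases hji : ∃ h : H, h • i = j
    · obtain ⟨h, rfl⟩ := hji
      have h9 : h ∈ stabilizer H (pm W f i) := by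
        rw [mem_stabilizer_iff, ← heq, e]
      rw [← h8, mem_stabilizer_iff] at h9
      exact h9
    · exfalso
      push Not at hji
      have h9 := defect_ge_two heq hI hi hj hji ⟨1, by rw [one_smul, e]⟩
      have h5 : defect heq hI (Quotient.mk'' (pm W f i)) ≤ 0 := by
        have h6 : D = defect heq hI (Quotient.mk'' (pm W f (u, z))) := rfl
        linarith
      have h10 : wq H j ≤ 0 := by linarith
      have h11 := wq_le_of_equi heq j
      rw [e, h4] at h11
      have h12 : wq H i = iw (stabilizer H i) := rfl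
      linarith
  -- inside the class
  have R2 : ∀ i ∈ I, (∃ h : H, h • pm W f i = pm W f (u, z)) → Finite ↥(stabilizer H i) →
      (∃ h : H, h • (u, z) = i) ∨ ∃ h : H, h • (u', z) = i := by
    intro i hi hc hf
    by_contra hne
    push Not at hne
    have h1 := hS3 i hi hc hne.1 hne.2
    have h2 : wq H i ≤ 0 := by linarith
    have h3 := iw_pos.2 hf
    have h4 : wq H i = iw (stabilizer H i) := rfl
    linarith
  have hκ : ∀ i ∈ I, ((∃ h : H, h • (u, z) = i) ∨ ∃ h : H, h • (u', z) = i) →
      ∃ h : H, φ i + g i.1 = κ h ∧ pm W f i = h • pm W f (u, z) := by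
    rintro i _ (⟨h, rfl⟩ | ⟨h, rfl⟩)
    · exact ⟨h, hκ1 h, heq h _⟩
    · exact ⟨h, hκ2 h, by rw [heq h (u', z), hpair]⟩
  have V0 : ∀ i ∈ I, ¬ Finite ↥(stabilizer H (pm W f i)) → φ i + g i.1 = 0 := by
    intro i hi hf
    by_cases hfi : Finite ↥(stabilizer H i)
    · by_cases hc : ∃ h : H, h • pm W f i = pm W f (u, z)
      · obtain ⟨h, h1, h2⟩ := hκ i hi (R2 i hi hc hfi)
        rw [h1]
        apply κ0
        intro hMf
        rw [h2, finite_smul_iff] at hf
        have h3 := iw_pos.2 hMf
        apply hf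
        apply iw_pos.1
        exact lt_of_lt_of_le h3 hMw
      · exact absurd (R1 i hi hc hfi).1 hf
    · exact hheavy i hi hfi
  have V : ∀ i ∈ I, ∀ j ∈ I, pm W f i = pm W f j → φ i + g i.1 = φ j + g j.1 := by
    intro i hi j hj e
    by_cases hf : Finite ↥(stabilizer H (pm W f i))
    · have hfi : Finite ↥(stabilizer H i) := finite_of_le (stab_le_of_equi heq i) hf
      have hfj : Finite ↥(stabilizer H j) := finite_of_le (stab_le_of_equi heq j)
        (by rw [← e]; exact hf)
      by_cases hc : ∃ h : H, h • pm W f i = pm W f (u, z)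
      · obtain ⟨h, h1, h2⟩ := hκ i hi (R2 i hi hc hfi)
        obtain ⟨h', h1', h2'⟩ := hκ j hj (R2 j hj (by rw [← e]; exact hc) hfj)
        rw [h1, h1']
        have hfF : Finite ↥(stabilizer H (pm W f (u, z))) := by
          rw [h2, finite_smul_iff] at hf
          exact hf
        have hMf : Finite ↥M := finite_of_le hM hfF
        have hMe : M = stabilizer H (pm W f (u, z)) :=
          eq_of_iw_eq hM hMf (le_antisymm hMw' hMw)
        have h3 : h⁻¹ * h' ∈ M := by
          rw [hMe, mem_stabilizer_iff, mul_smul, ← h2', ← e, h2, inv_smul_smul]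
        have h4 := κM h _ h3
        rw [mul_inv_cancel_left] at h4
        exact h4.symm
      · rw [(R1 i hi hc hfi).2 j hj e.symm]
    · rw [V0 i hi hf, V0 j hj (by rw [← e]; exact hf)]
  refine ⟨fun p => if hp : ∃ i ∈ I, pm W f i = p then φ hp.choose + g hp.choose.1 else 0,
    ?_, ?_⟩
  · rintro _ ⟨i, hi, rfl⟩ hf
    have hp : ∃ j ∈ I, pm W f j = pm W f i := ⟨i, hi, rfl⟩
    show (if hp : ∃ j ∈ I, pm W f j = pm W f i then φ hp.choose + g hp.choose.1 else 0) = 0
    rw [dif_pos hp]
    exact V0 _ hp.choose_spec.1 (by rw [hp.choose_spec.2]; exact hf)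
  · intro i hi
    have hp : ∃ j ∈ I, pm W f j = pm W f i := ⟨i, hi, rfl⟩
    show φ i = (if hp : ∃ j ∈ I, pm W f j = pm W f i then φ hp.choose + g hp.choose.1 else 0) +
      g i.1
    rw [dif_pos hp, V _ hp.choose_spec.1 i hi hp.choose_spec.2]
    have := zmod2_add_self (g i.1)
    linear_combination -this

/-- CLAIM 2: exactness in the case of equality -/
theorem exact (m : Move H I f u u' z) (hU : FinOrb H (Set.univ : Set U)) (hI : FinOrb H I)
    (hIs : ∀ (h : H) (i : U × W), i ∈ I → h • i ∈ I)
    (e : mass H I - mass H (pm W f '' I) ≤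
      mass H (Set.univ : Set U) - mass H (Set.univ : Set U'))
    (φ : U × W → ZMod 2) (hφ : ∀ i ∈ I, ¬ Finite ↥(stabilizer H i) → φ i = 0) :
    ∃ (g : U → ZMod 2) (ψ : U' × W → ZMod 2), (∀ x, ¬ Finite ↥(stabilizer H x) → g x = 0) ∧
      (∀ i ∈ pm W f '' I, ¬ Finite ↥(stabilizer H i) → ψ i = 0) ∧
      ∀ i ∈ I, φ i = ψ (pm W f i) + g i.1 := by
  have heq := pm_equi (W := W) m.equi
  have hD := e.trans (m.loss_le hU hI)
  have hD' := defect_le heq hI m.hu
  have zz : ∀ i ∈ I, ¬ Finite ↥(stabilizer H i) → ∀ h : H, φ (h • i) = 0 := by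
    intro i hi hf h
    apply hφ _ (hIs h i hi)
    rw [finite_smul_iff]
    exact hf
  have inv : ∀ i : U × W, RInv (stabilizer H i) (fun h => φ (h • i)) := by
    intro i h a ha
    show φ ((h * a) • i) = φ (h • i)
    rw [mul_smul, mem_stabilizer_iff.1 ha]
  by_cases hd : ∀ h : H, h • (u, z) ≠ (u', z)
  · have hM := m.stab_pm_diff
    have hM' : wq H (pm W f (u, z)) ≤ iw (stabilizer H (u, z) ⊔ stabilizer H (u', z)) :=
      iw_anti hM
    have hg := m.gain_diff hI hd
    by_cases hd' : ∀ h : H, h • u ≠ u'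
    · -- different orbits
      have h3 := m.loss_diff hU hd'
      have hineq : iw (stabilizer H (u, z)) + iw (stabilizer H (u', z)) -
          iw (stabilizer H (u, z) ⊔ stabilizer H (u', z)) ≤ iw (stabilizer H u) +
          iw (stabilizer H u') - iw (stabilizer H u ⊔ stabilizer H u') := by linarith
      have m1 := iw_mono (stabilizer H (u', z)) (stab_pair_le (H := H) u z)
      have m2 := iw_mono (stabilizer H u) (stab_pair_le (H := H) u' z)
      rw [sup_comm (stabilizer H u'), sup_comm (stabilizer H (u', z)) (stabilizer H u)] at m2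
      obtain ⟨αP, αQ, κ, hαP, hαQ, hκ, zP, zQ, zκ, s1, s2⟩ := tree_diff
        (stab_pair_le (H := H) u z) (stab_pair_le (H := H) u' z) hineq
        (fun h => φ (h • (u, z))) (fun h => φ (h • (u', z))) (inv _) (inv _)
        (zz _ m.hu) (zz _ m.hu')
      obtain ⟨g1, g1a, g1b⟩ := exists_orbfun hαP
      obtain ⟨g2, g2a, g2b⟩ := exists_orbfun hαQ
      have hd2 : ∀ h k : H, h • u ≠ k • u' := by
        intro h k e
        apply hd' (k⁻¹ * h)
        rw [mul_smul, e, inv_smul_smul]
      have hg0 : ∀ x, ¬ Finite ↥(stabilizer H x) → g1 x + g2 x = 0 := by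
        intro x hx
        by_cases hx1 : ∃ h : H, h • u = x
        · obtain ⟨h, rfl⟩ := hx1
          rw [g1a, g2b _ (fun k => (hd2 h k).symm), zP (by rwa [finite_smul_iff] at hx), add_zero]
        · push Not at hx1
          rw [g1b x hx1]
          by_cases hx2 : ∃ h : H, h • u' = x
          · obtain ⟨h, rfl⟩ := hx2
            rw [g2a, zQ (by rwa [finite_smul_iff] at hx), add_zero]
          · push Not at hx2
            rw [g2b x hx2, add_zero]
      obtain ⟨ψ, hψ1, hψ2⟩ := m.assemble hI φ hφ _ hM
        (iw (stabilizer H (u, z)) + iw (stabilizer H (u', z))) hD (by linarith) hg (by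
          intro i hi hc n1 n2
          exact defect_ge_three heq hI m.hu m.hu' hi hd n1 n2
            ⟨1, by rw [one_smul]; show (f u', z) = (f u, z); rw [m.fu]⟩ hc)
        (fun x => g1 x + g2 x) hg0 κ hκ zκ (by
          intro h
          show φ (h • (u, z)) + (g1 (h • u) + g2 (h • u)) = κ h
          rw [g1a, g2b _ (fun k => (hd2 h k).symm)]
          have h4 := s1 h
          have h5 := zmod2_add_self (αP h)
          simp only at h4
          linear_combination h4 + h5) (by
          intro h
          show φ (h • (u', z)) + (g1 (h • u') + g2 (h • u')) = κ h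
          rw [g2a, g1b _ (fun k => hd2 k h)]
          have h4 := s2 h
          have h5 := zmod2_add_self (αQ h)
          simp only at h4
          linear_combination h4 + h5)
      exact ⟨_, ψ, hg0, hψ1, hψ2⟩
    · -- same orbit, different orbits of pairs
      push Not at hd'
      obtain ⟨g, rfl⟩ := hd'
      have h3 := m.loss_same hU
      have a1 := iw_anti (stab_pair_le (H := H) u z)
      have a2 := iw_anti (A := stabilizer H (g • u, z))
        (B := stabilizer H (u, z) ⊔ stabilizer H (g • u, z)) le_sup_right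
      have a3 := iw_nonneg (stabilizer H u ⊔ Subgroup.zpowers g)
      have hineq : iw (stabilizer H (u, z)) + iw (stabilizer H (g • u, z)) -
          iw (stabilizer H (u, z) ⊔ stabilizer H (g • u, z)) ≤ iw (stabilizer H u) -
          iw (stabilizer H u ⊔ Subgroup.zpowers g) := by linarith
      obtain ⟨αP, κ, hαP, hκ, zP, zκ, s1, s2⟩ := tree_same (P := stabilizer H u)
        (Q := stabilizer H (g • u)) g (by
          intro a
          rw [mem_stabilizer_iff, mem_stabilizer_iff, mul_smul, mul_smul, inv_smul_eq_iff])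
        (wq_smul g u)
        (stab_pair_le (H := H) u z) (stab_pair_le (H := H) (g • u) z) hineq
        (fun h => φ (h • (u, z))) (fun h => φ (h • (g • u, z))) (inv _) (inv _)
        (zz _ m.hu) (zz _ m.hu')
      obtain ⟨g1, g1a, g1b⟩ := exists_orbfun hαP
      have hg0 : ∀ x, ¬ Finite ↥(stabilizer H x) → g1 x = 0 := by
        intro x hx
        by_cases hx1 : ∃ h : H, h • u = x
        · obtain ⟨h, rfl⟩ := hx1
          rw [g1a, zP (by rwa [finite_smul_iff] at hx)]
        · push Not at hx1
          exact g1b x hx1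
      obtain ⟨ψ, hψ1, hψ2⟩ := m.assemble hI φ hφ _ hM
        (iw (stabilizer H (u, z)) + iw (stabilizer H (g • u, z))) hD (by linarith) hg (by
          intro i hi hc n1 n2
          exact defect_ge_three heq hI m.hu m.hu' hi hd n1 n2
            ⟨1, by rw [one_smul]; show (f (g • u), z) = (f u, z); rw [m.fu]⟩ hc)
        g1 hg0 κ hκ zκ (by
          intro h
          rw [g1a]
          have h4 := s1 h
          have h5 := zmod2_add_self (αP h)
          linear_combination h4 + h5) (by
          intro h
          rw [← mul_smul, g1a]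
          have h4 := s2 h
          have h5 := zmod2_add_self (αP (h * g))
          linear_combination h4 + h5)
      exact ⟨_, ψ, hg0, hψ1, hψ2⟩
  · -- same orbit of pairs
    push Not at hd
    obtain ⟨k, hk⟩ := hd
    have hk1 : k • u = u' := congrArg Prod.fst hk
    have hk2 : k • z = z := congrArg Prod.snd hk
    subst hk1
    have h1 := defect_ge_one heq hI m.hu
    have hM := m.stab_pm_same hk2
    have h2 : wq H (pm W f (u, z)) ≤ iw (stabilizer H (u, z) ⊔ Subgroup.zpowers k) := iw_anti hM
    have h3 := m.loss_same hU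
    have m1 := iw_mono (Subgroup.zpowers k) (stab_pair_le (H := H) u z)
    have hineq : iw (stabilizer H (u, z)) - iw (stabilizer H (u, z) ⊔ Subgroup.zpowers k) ≤
        iw (stabilizer H u) - iw (stabilizer H u ⊔ Subgroup.zpowers k) := by
      have h4 : wq H (u, z) = iw (stabilizer H (u, z)) := rfl
      linarith
    obtain ⟨αP, κ, hαP, hκ, zP, zκ, s1⟩ := tree_dart k (stab_pair_le (H := H) u z) hineq
      (fun h => φ (h • (u, z))) (inv _) (zz _ m.hu)
    obtain ⟨g1, g1a, g1b⟩ := exists_orbfun hαP
    have hg0 : ∀ x, ¬ Finite ↥(stabilizer H x) → g1 x = 0 := by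
      intro x hx
      by_cases hx1 : ∃ h : H, h • u = x
      · obtain ⟨h, rfl⟩ := hx1
        rw [g1a, zP (by rwa [finite_smul_iff] at hx)]
      · push Not at hx1
        exact g1b x hx1
    have e1 : ∀ h : H, φ (h • (u, z)) + g1 (h • u) = κ h := by
      intro h
      rw [g1a]
      have h4 := s1 h
      have h5 := zmod2_add_self (αP h)
      linear_combination h4 + h5
    obtain ⟨ψ, hψ1, hψ2⟩ := m.assemble hI φ hφ _ hM
      (wq H (u, z)) hD (by
        have h4 : wq H (u, z) = iw (stabilizer H (u, z)) := rfl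
        linarith) h1 (by
        intro i hi hc n1 n2
        exact defect_ge_two heq hI m.hu hi n1 hc)
      g1 hg0 κ hκ zκ e1 (by
        intro h
        have h6 : h • ((k • u, z) : U × W) = (h * k) • (u, z) := by
          rw [mul_smul]
          show h • ((k • u, z) : U × W) = h • ((k • u, k • z) : U × W)
          rw [hk2]
        rw [h6, ← mul_smul, e1]
        exact hκ h k (Subgroup.mem_sup_right (Subgroup.mem_zpowers k)))
    exact ⟨_, ψ, hg0, hψ1, hψ2⟩

end Move

end Pool.Agent.BT
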