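import Pool.Agent.BT.Graph4

/-!
# BT: when is a quotient map a finite sequence of moves?

`Mg G F` is the smallest invariant equivalence relation which contains every pair `x, y` with
`F x = F y` that is adjacent or has a common neighbour up to the relation. If it contains all
pairs with `F x = F y`, and the stabilisers of the target are finitely generated, then `F` is a
finite sequence of moves.
-/

namespace Pool.Agent.BT

open MulAction
open Pool.Agent.SAF (orbs FinOrb mk_eq_iff FinOrb_iff exists_rep)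

variable {H V V' : Type} [Group H] [MulAction H V] [MulAction H V']

/-- the closure of the moves inside the kernel of `F` -/
inductive Mg (G : HG H V) (F : V → V') : V → V → Prop
  | refl (x : V) : Mg G F x x
  | symm (x y : V) : Mg G F x y → Mg G F y x
  | trans (x y z : V) : Mg G F x y → Mg G F y z → Mg G F x z
  | smul (h : H) (x y : V) : Mg G F x y → Mg G F (h • x) (h • y)
  | adj (x y : V) : F x = F y → G.E x y → Mg G F x y
  | nb (x y z z' : V) : F x = F y → Mg G F z z' → G.E z x → G.E z' y → Mg G F x y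

/-- post-composition with a bijection -/
theorem Folds.post {G : HG H V} {V1 : Type} [MulAction H V1] {f : V → V1} (F : Folds G f)
    {V2 : Type} [MulAction H V2] (e : V1 → V2) (he : ∀ (h : H) (x : V1), e (h • x) = h • e x)
    (hb : Function.Bijective e) : Folds G (e ∘ f) := by
  cases F with
  | iso f hf hb' =>
    exact Folds.iso _ (fun h x => by
      show e (f (h • x)) = h • e (f x)
      rw [hf, he]) (hb.comp hb')
  | step f g hf F u u' m =>
    refine Folds.step f (e ∘ g) hf F u u' ⟨?_, ?_, ?_, ?_, m.adj⟩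
    · intro h x
      show e (g (h • x)) = h • e (g x)
      rw [m.equi, he]
    · exact hb.2.comp m.surj
    · intro x y exy
      exact m.ker x y (hb.1 exy)
    · show e (g u) = e (g u')
      rw [m.fu]

theorem fl_genRel {V1 V2 : Type} [MulAction H V1] [MulAction H V2]
    (k : V1 → V2) (hk : ∀ (h : H) (w : V1), k (h • w) = h • k w) {w w' : V1} (e : k w = k w')
    {a b : V1} (h : genRel H w w' a b) : k a = k b := by
  induction h with
  | rel x y h =>
    obtain ⟨c, rfl, rfl⟩ := h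
    rw [hk, hk, e]
  | refl x => rfl
  | symm x y _ ih => exact ih.symm
  | trans x y z _ _ ih1 ih2 => exact ih1.trans ih2

/-- one step: from a finite sequence of moves `f` below `F` to one which identifies `x` and `y` -/
theorem fl_step {G : HG H V} {F : V → V'} (hF : ∀ (h : H) (x : V), F (h • x) = h • F x)
    {V1 : Type} [MulAction H V1] {f : V → V1} (Ff : Folds G f) (hb : ∀ a b, f a = f b → F a = F b)
    {x y : V} (e : F x = F y)
    (adj : (∃ x' y', f x' = f x ∧ f y' = f y ∧ G.E x' y') ∨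
      ∃ x' y' z z', f x' = f x ∧ f y' = f y ∧ f z = f z' ∧ G.E z x' ∧ G.E z' y') :
    ∃ (V2 : Type) (_ : MulAction H V2) (g : V → V2), Folds G g ∧
      (∀ a b, g a = g b → F a = F b) ∧ (∀ a b, f a = f b → g a = g b) ∧ g x = g y := by
  have hf := Ff.equi
  have hs := Ff.surj
  -- factor `F` through `f`
  choose s hs' using hs
  have hk : ∀ a, F (s (f a)) = F a := fun a => hb _ _ (hs' _)
  have hke : ∀ (h : H) (a : V1), F (s (h • a)) = h • F (s a) := by
    intro h a
    rw [← hF]
    apply hb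
    rw [hs', hf, hs']
  have key : ∀ a b, genRel H (f x) (f y) a b → F (s a) = F (s b) := by
    intro a b h
    exact fl_genRel (fun a => F (s a)) hke (by
      show F (s (f x)) = F (s (f y))
      rw [hk, hk, e]) h
  refine ⟨GQ H (f x) (f y), GQ.action (f x) (f y), gq H (f x) (f y) ∘ f, ?_, ?_, ?_, ?_⟩
  · refine Folds.step f (gq H (f x) (f y)) hf Ff (f x) (f y)
      ⟨gq_smul _ _, gq_surj _ _, fun a b h => gq_eq.1 h, gq_pair _ _, ?_⟩
    rcases adj with ⟨x', y', e1, e2, e3⟩ | ⟨x', y', z, z', e1, e2, e3, e4, e5⟩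
    · exact Or.inl ⟨x', y', e1, e2, e3⟩
    · exact Or.inr ⟨f z, ⟨z, x', rfl, e1, e4⟩, ⟨z', y', e3.symm, e2, e5⟩⟩
  · intro a b h
    have h1 := key _ _ (gq_eq.1 h)
    rwa [hk, hk] at h1
  · intro a b h
    show gq H (f x) (f y) (f a) = gq H (f x) (f y) (f b)
    rw [h]
  · exact gq_pair _ _

/-- every pair of `Mg` can be identified -/
theorem fl_mg {G : HG H V} {F : V → V'} (hF : ∀ (h : H) (x : V), F (h • x) = h • F x)
    {x y : V} (m : Mg G F x y) :
    F x = F y ∧ ∀ (V1 : Type) [MulAction H V1] (f : V → V1), Folds G f →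
    (∀ a b, f a = f b → F a = F b) →
    ∃ (V2 : Type) (_ : MulAction H V2) (g : V → V2), Folds G g ∧
      (∀ a b, g a = g b → F a = F b) ∧ (∀ a b, f a = f b → g a = g b) ∧ g x = g y := by
  induction m with
  | refl x => exact ⟨rfl, fun V1 _ f Ff hb => ⟨V1, inferInstance, f, Ff, hb, fun _ _ h => h, rfl⟩⟩
  | symm x y _ ih =>
    refine ⟨ih.1.symm, fun V1 _ f Ff hb => ?_⟩
    obtain ⟨V2, i2, g, g1, g2, g3, g4⟩ := ih.2 V1 f Ff hb
    exact ⟨V2, i2, g, g1, g2, g3, g4.symm⟩
  | trans x y z _ _ ih1 ih2 =>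
    refine ⟨ih1.1.trans ih2.1, fun V1 _ f Ff hb => ?_⟩
    obtain ⟨V2, i2, g, g1, g2, g3, g4⟩ := ih1.2 V1 f Ff hb
    obtain ⟨V3, i3, k, k1, k2, k3, k4⟩ := ih2.2 V2 g g1 g2
    exact ⟨V3, i3, k, k1, k2, fun a b h => k3 _ _ (g3 _ _ h), (k3 _ _ g4).trans k4⟩
  | smul h x y _ ih =>
    refine ⟨by rw [hF, hF, ih.1], fun V1 _ f Ff hb => ?_⟩
    obtain ⟨V2, i2, g, g1, g2, g3, g4⟩ := ih.2 V1 f Ff hb
    refine ⟨V2, i2, g, g1, g2, g3, ?_⟩
    rw [g1.equi, g1.equi, g4]
  | adj x y e a =>
    refine ⟨e, fun V1 _ f Ff hb => ?_⟩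
    exact fl_step hF Ff hb e (Or.inl ⟨x, y, rfl, rfl, a⟩)
  | nb x y z z' e _ a b ih =>
    refine ⟨e, fun V1 _ f Ff hb => ?_⟩
    obtain ⟨V2, i2, g, g1, g2, g3, g4⟩ := ih.2 V1 f Ff hb
    obtain ⟨V3, i3, k, k1, k2, k3, k4⟩ := fl_step hF g1 g2 e
      (Or.inr ⟨x, y, z, z', rfl, rfl, g4, a, b⟩)
    exact ⟨V3, i3, k, k1, k2, fun a b h => k3 _ _ (g3 _ _ h), k4⟩

/-- finitely many pairs can be identified -/
theorem fl_fin {G : HG H V} {F : V → V'} (hF : ∀ (h : H) (x : V), F (h • x) = h • F x)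
    {S : Set (V × V)} (hS : S.Finite) (hm : ∀ p ∈ S, Mg G F p.1 p.2) :
    ∃ (V2 : Type) (_ : MulAction H V2) (g : V → V2), Folds G g ∧
      (∀ a b, g a = g b → F a = F b) ∧ ∀ p ∈ S, g p.1 = g p.2 := by
  induction S, hS using Set.Finite.induction_on with
  | empty =>
    exact ⟨V, inferInstance, id, Folds.iso id (fun _ _ => rfl) Function.bijective_id,
      fun _ _ h => congrArg F h, fun _ h => h.elim⟩
  | insert _ _ ih =>
    rename_i p S _ _
    obtain ⟨V1, i1, f, f1, f2, f3⟩ := ih (fun q hq => hm q (Or.inr hq))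
    obtain ⟨V2, i2, g, g1, g2, g3, g4⟩ := (fl_mg hF (hm p (Or.inl rfl))).2 V1 f f1 f2
    refine ⟨V2, i2, g, g1, g2, ?_⟩
    rintro q (rfl | hq)
    · exact g4
    · exact g3 _ _ (f3 q hq)

/-- THE LIST LEMMA -/
theorem folds_of_mg {G : HG H V} {F : V → V'} (hF : ∀ (h : H) (x : V), F (h • x) = h • F x)
    (hs : Function.Surjective F) (hV : FinOrb H (Set.univ : Set V))
    (hfg : ∀ v : V', (stabilizer H v).FG) (hm : ∀ x y, F x = F y → Mg G F x y) : Folds G F := by
  classical
  obtain ⟨T, hT, _, hT2⟩ := FinOrb_iff.1 hV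
  -- connecting elements
  have hc : ∀ p : V × V, ∃ k : H, (∃ k' : H, F p.1 = k' • F p.2) → F p.1 = k • F p.2 := by
    intro p
    by_cases h : ∃ k' : H, F p.1 = k' • F p.2
    · exact ⟨h.choose, fun _ => h.choose_spec⟩
    · exact ⟨1, fun h' => absurd h' h⟩
  choose k hk using hc
  -- generators
  have hg : ∀ t : V, ∃ s : Finset H, Subgroup.closure (s : Set H) = stabilizer H (F t) :=
    fun t => hfg (F t)
  choose s hs' using hg
  let S1 : Set (V × V) := (fun p : V × V => (p.1, k p • p.2)) ''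
    {p : V × V | p ∈ T ×ˢ T ∧ ∃ k' : H, F p.1 = k' • F p.2}
  let S2 : Set (V × V) := ⋃ t ∈ T, (fun g : H => (t, g • t)) '' (s t : Set H)
  have hS1 : S1.Finite := ((hT.prod hT).subset (fun p hp => hp.1)).image _
  have hS2 : S2.Finite := hT.biUnion (fun t _ => (s t).finite_toSet.image _)
  obtain ⟨V2, i2, g, g1, g2, g3⟩ := fl_fin hF (hS1.union hS2) (by
    rintro p (⟨q, ⟨_, hq⟩, rfl⟩ | hp)
    · apply hm
      show F q.1 = F (k q • q.2)
      rw [hF, ← hk q hq]
    · simp only [S2, Set.mem_iUnion] at hp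
      obtain ⟨t, _, γ, hγ, rfl⟩ := hp
      apply hm
      show F t = F (γ • t)
      rw [hF]
      have : γ ∈ stabilizer H (F t) := by
        rw [← hs' t]
        exact Subgroup.subset_closure hγ
      exact (mem_stabilizer_iff.1 this).symm)
  -- the stabilisers
  have hst : ∀ t ∈ T, ∀ γ : H, γ • F t = F t → g (γ • t) = g t := by
    intro t ht γ hγ
    have h1 : stabilizer H (F t) ≤ stabilizer H (g t) := by
      rw [← hs' t, Subgroup.closure_le]
      intro δ hδ
      show δ • g t = g t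
      rw [← g1.equi]
      exact (g3 (t, δ • t) (Or.inr (by
        simp only [S2, Set.mem_iUnion]
        exact ⟨t, ht, δ, hδ, rfl⟩))).symm
    rw [g1.equi]
    exact h1 hγ
  have hker : ∀ a b, F a = F b → g a = g b := by
    intro a b e
    obtain ⟨t, ht, h, rfl⟩ := hT2 a (Set.mem_univ _)
    obtain ⟨t', ht', h', rfl⟩ := hT2 b (Set.mem_univ _)
    rw [hF, hF] at e
    have e1 : F t = (h⁻¹ * h') • F t' := by
      rw [mul_smul, ← e, inv_smul_smul]
    have e2 := hk (t, t') ⟨_, e1⟩
    have e3 : g t = g (k (t, t') • t') := g3 (t, k (t, t') • t') (Or.inl ⟨(t, t'),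
      ⟨⟨ht, ht'⟩, _, e1⟩, rfl⟩)
    have e2' : F t = k (t, t') • F t' := e2
    have e4 : ((k (t, t'))⁻¹ * (h⁻¹ * h')) • F t' = F t' := by
      rw [mul_smul, ← e1, e2', inv_smul_smul]
    have e5 := hst t' ht' _ e4
    rw [g1.equi, g1.equi, e3, g1.equi]
    have e6 : h' • g t' = (h * k (t, t')) • g (((k (t, t'))⁻¹ * (h⁻¹ * h')) • t') := by
      rw [g1.equi, smul_smul]
      congr 1
      group
    rw [e6, e5, mul_smul]
  -- conclusion
  have hgs := g1.surj
  choose r hr using hgs
  have hre : ∀ a, F (r (g a)) = F a := fun a => g2 _ _ (hr _)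
  have hfin : (fun w : V2 => F (r w)) ∘ g = F := by
    funext a
    exact hre a
  rw [← hfin]
  apply g1.post
  · intro h w
    show F (r (h • w)) = h • F (r w)
    rw [← hF]
    apply g2
    rw [hr, g1.equi, hr]
  · constructor
    · intro a b e
      have h1 := hker _ _ e
      rwa [hr, hr] at h1
    · intro w
      obtain ⟨a, rfl⟩ := hs w
      exact ⟨g a, hre a⟩

end Pool.Agent.BT
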