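import Pool.Agent.BT.Mass

/-!
# BT: masses and fibrations
-/

namespace Pool.Agent.BT

open MulAction
open Pool.Agent.SAF (orbs FinOrb mk_eq_iff FinOrb_iff exists_rep)

variable {H Y B : Type} [Group H] [MulAction H Y] [MulAction H B]

/-- the part of `s` over `b` -/
def fibre (ρ : Y → B) (s : Set Y) (b : B) : Set Y := {y | y ∈ s ∧ ρ y = b}

theorem mk_fib {ρ : Y → B} (hρ : ∀ (h : H) (y : Y), ρ (h • y) = h • ρ y) {b : B} {y y' : Y}
    (hy : ρ y = b) (hy' : ρ y' = b) :
    ((Quotient.mk'' y : orbitRel.Quotient H Y) = Quotient.mk'' y' ↔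
      (Quotient.mk'' y : orbitRel.Quotient ↥(stabilizer H b) Y) = Quotient.mk'' y') := by
  rw [mk_eq_iff, mk_eq_iff]
  constructor
  · rintro ⟨h, rfl⟩
    refine ⟨⟨h, ?_⟩, rfl⟩
    rw [mem_stabilizer_iff]
    rw [hρ, hy'] at hy
    exact hy
  · rintro ⟨h, e⟩
    exact ⟨h.1, e⟩

theorem wq_fib {ρ : Y → B} (hρ : ∀ (h : H) (y : Y), ρ (h • y) = h • ρ y) {b : B} {y : Y}
    (hy : ρ y = b) : wq ↥(stabilizer H b) y = wq H y := by
  have hle : stabilizer H y ≤ stabilizer H b := by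
    intro h hh
    rw [mem_stabilizer_iff] at hh ⊢
    rw [← hy, ← hρ, hh]
  have e1 : stabilizer ↥(stabilizer H b) y = (stabilizer H y).subgroupOf (stabilizer H b) := by
    ext h
    exact Iff.rfl
  unfold wq iw
  rw [e1, Nat.card_congr (Subgroup.subgroupOfEquivOfLe hle).toEquiv]

theorem finOrb_fibre {ρ : Y → B} (hρ : ∀ (h : H) (y : Y), ρ (h • y) = h • ρ y) {s : Set Y}
    (hs : FinOrb H s) (b : B) : FinOrb ↥(stabilizer H b) (fibre ρ s b) := by
  apply Pool.Agent.SAF.FinOrb.of_inj hs (fun y => y) (fun y hy => hy.1)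
  rintro a ha c hc ⟨h, e⟩
  have h1 : (Quotient.mk'' c : orbitRel.Quotient H Y) = Quotient.mk'' a := mk_eq_iff.2 ⟨h, e⟩
  exact mk_eq_iff.1 ((mk_fib hρ hc.2 ha.2).1 h1)

open Classical in
/-- mass is additive along an equivariant map -/
theorem mass_fub {ρ : Y → B} (hρ : ∀ (h : H) (y : Y), ρ (h • y) = h • ρ y) {s : Set Y}
    (hs : FinOrb H s) (hsm : ∀ (h : H) (y : Y), y ∈ s → h • y ∈ s) :
    mass H s = ∑ q ∈ (FinOrb.image_equi hρ hs).toFinset,
      mass ↥(stabilizer H (Quotient.out q)) (fibre ρ s (Quotient.out q)) := by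
  rw [mass_eq_sum hs]
  rw [← Finset.sum_fiberwise_of_maps_to (g := omap hρ)
    (t := (FinOrb.image_equi hρ hs).toFinset) (by
      intro q hq
      rw [Set.Finite.mem_toFinset] at hq ⊢
      obtain ⟨x, hx, rfl⟩ := hq
      exact ⟨ρ x, ⟨x, hx, rfl⟩, rfl⟩)]
  apply Finset.sum_congr rfl
  intro q hq
  set b : B := Quotient.out q with hb
  have hbq : (Quotient.mk'' b : orbitRel.Quotient H B) = q := Quotient.out_eq' q
  have hfo := finOrb_fibre hρ hs b
  rw [mass_eq_sum hfo]
  symm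
  -- the map from the orbits of the stabiliser
  refine Finset.sum_bij (fun (p : orbitRel.Quotient ↥(stabilizer H b) Y) _ =>
    (Quotient.mk'' (Quotient.out p) : orbitRel.Quotient H Y)) ?_ ?_ ?_ ?_
  · intro p hp
    rw [Set.Finite.mem_toFinset] at hp
    obtain ⟨y, hy, rfl⟩ := hp
    have h1 : (Quotient.mk'' (Quotient.out (Quotient.mk'' y :
        orbitRel.Quotient ↥(stabilizer H b) Y)) : orbitRel.Quotient ↥(stabilizer H b) Y) =
        Quotient.mk'' y := Quotient.out_eq' _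
    obtain ⟨k, hk⟩ := mk_eq_iff.1 h1
    have h2 : (Quotient.mk'' (Quotient.out (Quotient.mk'' y :
        orbitRel.Quotient ↥(stabilizer H b) Y)) : orbitRel.Quotient H Y) = Quotient.mk'' y :=
      mk_eq_iff.2 ⟨k.1, hk⟩
    rw [Finset.mem_filter, Set.Finite.mem_toFinset, h2]
    refine ⟨⟨y, hy.1, rfl⟩, ?_⟩
    rw [omap_mk, hy.2, hbq]
  · intro p hp p' hp' e
    rw [Set.Finite.mem_toFinset] at hp hp'
    have hmem : ∀ p : orbitRel.Quotient ↥(stabilizer H b) Y,
        p ∈ orbs ↥(stabilizer H b) (fibre ρ s b) → ρ (Quotient.out p) = b := by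
      rintro _ ⟨y, hy, rfl⟩
      have h1 : (Quotient.mk'' (Quotient.out (Quotient.mk'' y :
          orbitRel.Quotient ↥(stabilizer H b) Y)) : orbitRel.Quotient ↥(stabilizer H b) Y) =
          Quotient.mk'' y := Quotient.out_eq' _
      obtain ⟨k, hk⟩ := mk_eq_iff.1 h1
      have hk' : k.1 • y = Quotient.out (Quotient.mk'' y :
        orbitRel.Quotient ↥(stabilizer H b) Y) := hk
      rw [← hk', hρ, hy.2]
      exact k.2
    have e2 := (mk_fib hρ (hmem p hp) (hmem p' hp')).1 e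
    have e3 : p = Quotient.mk'' (Quotient.out p) := (Quotient.out_eq' p).symm
    have e4 : p' = Quotient.mk'' (Quotient.out p') := (Quotient.out_eq' p').symm
    rw [e3, e4]
    exact e2
  · intro q' hq'
    rw [Finset.mem_filter, Set.Finite.mem_toFinset] at hq'
    obtain ⟨⟨y, hy, rfl⟩, e⟩ := hq'
    rw [omap_mk, ← hbq] at e
    obtain ⟨h, hh⟩ := mk_eq_iff.1 e.symm
    have hy2 : h • y ∈ fibre ρ s b := ⟨hsm h y hy, by rw [hρ, hh]⟩
    refine ⟨Quotient.mk'' (h • y), ?_, ?_⟩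
    · rw [Set.Finite.mem_toFinset]
      exact ⟨h • y, hy2, rfl⟩
    · have h1 : (Quotient.mk'' (Quotient.out (Quotient.mk'' (h • y) :
          orbitRel.Quotient ↥(stabilizer H b) Y)) : orbitRel.Quotient ↥(stabilizer H b) Y) =
          Quotient.mk'' (h • y) := Quotient.out_eq' _
      obtain ⟨k, hk⟩ := mk_eq_iff.1 h1
      exact mk_eq_iff.2 ⟨k.1 * h, by rw [mul_smul]; exact hk⟩
  · intro p hp
    rw [Set.Finite.mem_toFinset] at hp
    obtain ⟨y, hy, rfl⟩ := hp
    have h1 : (Quotient.mk'' (Quotient.out (Quotient.mk'' y :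
        orbitRel.Quotient ↥(stabilizer H b) Y)) : orbitRel.Quotient ↥(stabilizer H b) Y) =
        Quotient.mk'' y := Quotient.out_eq' _
    obtain ⟨k, hk⟩ := mk_eq_iff.1 h1
    have hk' : k.1 • y = Quotient.out (Quotient.mk'' y :
      orbitRel.Quotient ↥(stabilizer H b) Y) := hk
    rw [wq_out, wq_out, wq_fib hρ hy.2]
    rw [← hk', wq_smul]

/-- a version with a finite set of representatives -/
theorem mass_fub' {ρ : Y → B} (hρ : ∀ (h : H) (y : Y), ρ (h • y) = h • ρ y) {s : Set Y}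
    (hs : FinOrb H s) (hsm : ∀ (h : H) (y : Y), y ∈ s → h • y ∈ s)
    (hB : FinOrb H (Set.univ : Set B)) :
    mass H s = ∑ q ∈ hB.toFinset,
      mass ↥(stabilizer H (Quotient.out q)) (fibre ρ s (Quotient.out q)) := by
  rw [mass_fub hρ hs hsm]
  apply Finset.sum_subset
  · intro q hq
    rw [Set.Finite.mem_toFinset] at hq ⊢
    exact Pool.Agent.SAF.orbs_mono (Set.subset_univ _) hq
  · intro q _ hq
    rw [Set.Finite.mem_toFinset] at hq
    have : fibre ρ s (Quotient.out q) = ∅ := by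
      ext y
      constructor
      · rintro ⟨hy, e⟩
        exfalso
        apply hq
        refine ⟨ρ y, ⟨y, hy, rfl⟩, ?_⟩
        show (Quotient.mk'' (ρ y) : orbitRel.Quotient H B) = q
        rw [e]
        exact Quotient.out_eq' q
      · exact fun h => h.elim
    rw [this]
    unfold mass orbs
    simp

end Pool.Agent.BT
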