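import Pool.Agent.BT.Fold2

/-!
# BT: graphs with a group action, masses of darts and edges
-/

namespace Pool.Agent.BT

open MulAction
open Pool.Agent.SAF (orbs FinOrb mk_eq_iff FinOrb_iff exists_rep)

/-! ### two-to-one maps -/

section Fib

variable {H X X' : Type} [Group H] [MulAction H X] [MulAction H X']

theorem iw_index_two {A B : Subgroup H} (h : A ≤ B) (e : (A.subgroupOf B).index = 2) :
    iw A = 2 * iw B := by
  have h3 := Subgroup.card_mul_index (A.subgroupOf B)
  rw [Nat.card_congr (Subgroup.subgroupOfEquivOfLe h).toEquiv, e] at h3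
  unfold iw
  rw [← h3]
  push_cast
  rw [mul_inv]
  ring

/-- the two points of a fibre which are exchanged -/
theorem iw_swap {F : X → X'} (hF : ∀ (h : H) (x : X), F (h • x) = h • F x)
    {s : Set X} (hsm : ∀ (h : H) (x : X), x ∈ s → h • x ∈ s) {a b : X} (ha : a ∈ s)
    (hab : a ≠ b) (e : F a = F b) (hfib : ∀ c ∈ s, F c = F a → c = a ∨ c = b)
    (k : H) (hk : k • a = b) : wq H a = 2 * wq H (F a) := by
  apply iw_index_two (stab_le_of_equi hF a)
  have hkF : k ∈ stabilizer H (F a) := by
    rw [mem_stabilizer_iff, ← hF, hk, e]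
  have hmem : ∀ c ∈ stabilizer H (F a), c • a = a ∨ c • a = b := by
    intro c hc
    apply hfib _ (hsm c a ha)
    rw [hF, mem_stabilizer_iff.1 hc]
  rw [Subgroup.index_eq_two_iff]
  refine ⟨⟨k, hkF⟩, ?_⟩
  rintro ⟨c, hc⟩
  simp only [Subgroup.mem_subgroupOf, Subgroup.coe_mul, mem_stabilizer_iff]
  have h1 := hmem c hc
  have h2 := hmem (c * k) (Subgroup.mul_mem _ hc hkF)
  rcases h1 with h1 | h1
  · right
    refine ⟨h1, fun h3 => ?_⟩
    rw [mul_smul, hk] at h3
    exact hab (smul_left_cancel c (h1.trans h3.symm))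
  · left
    refine ⟨?_, fun h3 => hab (h3.symm.trans h1)⟩
    rcases h2 with h2 | h2
    · exact h2
    · exfalso
      rw [mul_smul, hk] at h2
      exact hab (smul_left_cancel c (h1.trans h2.symm))

/-- Fibres of size two over `T` and of size one elsewhere. -/
theorem mass_fiber {F : X → X'} (hF : ∀ (h : H) (x : X), F (h • x) = h • F x)
    {s : Set X} (hs : FinOrb H s) (hsm : ∀ (h : H) (x : X), x ∈ s → h • x ∈ s)
    (T : Set X')
    (h2 : ∀ a ∈ s, F a ∈ T → ∃ b ∈ s, a ≠ b ∧ F a = F b ∧
      ∀ c ∈ s, F c = F a → c = a ∨ c = b)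
    (h1 : ∀ a ∈ s, F a ∉ T → ∀ b ∈ s, F b = F a → b = a) :
    mass H s = mass H (F '' s) + mass H (T ∩ F '' s) := by
  classical
  have hs' := FinOrb.image_equi hF hs
  have hT' : FinOrb H (T ∩ F '' s) := hs'.mono Set.inter_subset_right
  have key : mass H s - mass H (F '' s) = mass H (T ∩ F '' s) := by
    rw [mass_sub hF hs, mass_eq_sum hT']
    have hsub : hT'.toFinset ⊆ hs'.toFinset := by
      intro q hq
      rw [Set.Finite.mem_toFinset] at hq ⊢
      exact Pool.Agent.SAF.orbs_mono Set.inter_subset_right hq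
    rw [← Finset.sum_subset hsub (f := fun q' => defect hF hs q')]
    · apply Finset.sum_congr rfl
      intro q hq
      rw [Set.Finite.mem_toFinset] at hq
      obtain ⟨_, ⟨hT, ⟨a, ha, rfl⟩⟩, rfl⟩ := hq
      show defect hF hs (Quotient.mk'' (F a)) = _
      rw [wq_out]
      obtain ⟨b, hb, hab, e, hfib⟩ := h2 a ha hT
      have hfilter : hs.toFinset.filter (fun q => omap hF q = Quotient.mk'' (F a)) =
          {(Quotient.mk'' a : orbitRel.Quotient H X), Quotient.mk'' b} := by
        ext q
        rw [Finset.mem_filter, Set.Finite.mem_toFinset, Finset.mem_insert,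
          Finset.mem_singleton]
        constructor
        · rintro ⟨⟨y, hy, rfl⟩, e'⟩
          rw [omap_mk] at e'
          obtain ⟨h, hh⟩ := mk_eq_iff.1 e'.symm
          rw [← hF] at hh
          rcases hfib _ (hsm h y hy) hh with e1 | e1
          · exact Or.inl (mk_eq_iff.2 ⟨h⁻¹, by rw [← e1, inv_smul_smul]⟩)
          · exact Or.inr (mk_eq_iff.2 ⟨h⁻¹, by rw [← e1, inv_smul_smul]⟩)
        · rintro (rfl | rfl)
          · exact ⟨⟨a, ha, rfl⟩, rfl⟩
          · exact ⟨⟨b, hb, rfl⟩, by rw [omap_mk, e]⟩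
      unfold defect
      rw [hfilter, wq_out]
      by_cases hk : ∃ k : H, k • a = b
      · obtain ⟨k, hk⟩ := hk
        have e2 : (Quotient.mk'' b : orbitRel.Quotient H X) = Quotient.mk'' a :=
          mk_eq_iff.2 ⟨k, hk⟩
        rw [e2, Finset.pair_eq_singleton, Finset.sum_singleton, wq_out,
          iw_swap hF hsm ha hab e hfib k hk]
        ring
      · have hne : (Quotient.mk'' a : orbitRel.Quotient H X) ≠ Quotient.mk'' b := by
          intro e2
          obtain ⟨k, hk'⟩ := mk_eq_iff.1 e2.symm
          exact hk ⟨k, hk'⟩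
        rw [Finset.sum_pair hne, wq_out, wq_out]
        have st : ∀ c ∈ s, F c = F a → (∀ d, (d = a ∨ d = b) → (∃ h : H, h • c = d) → d = c) →
            wq H c = wq H (F a) := by
          intro c hc ec hd
          have : stabilizer H c = stabilizer H (F a) := by
            apply le_antisymm
            · rw [← ec]; exact stab_le_of_equi hF c
            · intro h hh
              rw [mem_stabilizer_iff] at hh ⊢
              have h3 : F (h • c) = F a := by rw [hF, ec, hh]
              exact hd _ (hfib _ (hsm h c hc) h3) ⟨h, rfl⟩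
          unfold wq
          rw [this]
        rw [st a ha rfl, st b hb e.symm]
        · ring
        · rintro d (rfl | rfl) ⟨h, hh⟩
          · exfalso
            exact hk ⟨h⁻¹, by rw [← hh, inv_smul_smul]⟩
          · rfl
        · rintro d (rfl | rfl) ⟨h, hh⟩
          · rfl
          · exfalso
            exact hk ⟨h, hh⟩
    · intro q hq hq'
      rw [Set.Finite.mem_toFinset] at hq hq'
      obtain ⟨_, ⟨a, ha, rfl⟩, rfl⟩ := hq
      show defect hF hs (Quotient.mk'' (F a)) = 0
      have hT : F a ∉ T := fun h => hq' ⟨F a, ⟨h, ⟨a, ha, rfl⟩⟩, rfl⟩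
      have hfib := h1 a ha hT
      have hfilter : hs.toFinset.filter (fun q => omap hF q = Quotient.mk'' (F a)) =
          {(Quotient.mk'' a : orbitRel.Quotient H X)} := by
        ext q
        rw [Finset.mem_filter, Set.Finite.mem_toFinset, Finset.mem_singleton]
        constructor
        · rintro ⟨⟨y, hy, rfl⟩, e'⟩
          rw [omap_mk] at e'
          obtain ⟨h, hh⟩ := mk_eq_iff.1 e'.symm
          rw [← hF] at hh
          have e1 := hfib _ (hsm h y hy) hh
          exact (mk_eq_iff.2 ⟨h⁻¹, by rw [← e1, inv_smul_smul]⟩)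
        · rintro rfl
          exact ⟨⟨a, ha, rfl⟩, rfl⟩
      unfold defect
      rw [hfilter, wq_out, Finset.sum_singleton, wq_out]
      have : stabilizer H a = stabilizer H (F a) := by
        apply le_antisymm (stab_le_of_equi hF a)
        intro h hh
        rw [mem_stabilizer_iff] at hh ⊢
        exact hfib _ (hsm h a ha) (by rw [hF, hh])
      unfold wq
      rw [this, sub_self]
  linarith

theorem mass_image_inj {F : X → X'} (hF : ∀ (h : H) (x : X), F (h • x) = h • F x)
    {s : Set X} (hs : FinOrb H s) (hsm : ∀ (h : H) (x : X), x ∈ s → h • x ∈ s)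
    (hinj : ∀ a ∈ s, ∀ b ∈ s, F a = F b → a = b) : mass H (F '' s) = mass H s := by
  have := mass_fiber hF hs hsm ∅ (fun _ _ h => h.elim)
    (fun a ha _ b hb e => hinj b hb a ha e)
  rw [Set.empty_inter] at this
  have h0 : mass H (∅ : Set X') = 0 := by
    unfold mass orbs
    simp
  rw [h0, add_zero] at this
  exact this.symm

/-- Equal masses: light elements of the target have exactly one preimage orbit ... -/
theorem eq_of_mass_eq {F : X → X'} (hF : ∀ (h : H) (x : X), F (h • x) = h • F x)
    {s : Set X} (hs : FinOrb H s) (e : mass H s ≤ mass H (F '' s)) {a b : X}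
    (ha : a ∈ s) (hb : b ∈ s) (hab : F a = F b) (hf : Finite ↥(stabilizer H a)) :
    a = b ∧ Finite ↥(stabilizer H (F a)) := by
  have h1 := defect_le hF hs ha
  have h2 := defect_ge_one hF hs ha
  have h3 := wq_le_of_equi hF a
  have hw : 0 < wq H a := iw_pos.2 hf
  have h4 : wq H (F a) = wq H a := by linarith
  have h7 : Finite ↥(stabilizer H (F a)) := iw_pos.1 (by
    show 0 < wq H (F a)
    rw [h4]; exact hw)
  refine ⟨?_, h7⟩
  have h8 : stabilizer H a = stabilizer H (F a) := eq_of_iw_eq (stab_le_of_equi hF a) hf h4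
  by_cases hk : ∃ h : H, h • a = b
  · obtain ⟨h, rfl⟩ := hk
    have h9 : h ∈ stabilizer H (F a) := by
      rw [mem_stabilizer_iff, ← hF, hab]
    rw [← h8, mem_stabilizer_iff] at h9
    exact h9.symm
  · exfalso
    push Not at hk
    have h9 := defect_ge_two hF hs ha hb hk ⟨1, by rw [one_smul, hab]⟩
    have h10 := wq_le_of_equi hF b
    rw [← hab, h4] at h10
    linarith

end Fib

end Pool.Agent.BT
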