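import Pool.Agent.BT.Bip

/-!
# BT: graphs with a group action: darts, edges, quotient graphs
-/

namespace Pool.Agent.BT

open MulAction
open scoped Pointwise
open Pool.Agent.SAF (orbs FinOrb mk_eq_iff FinOrb_iff exists_rep)

/-- a graph on an `H`-set -/
structure HG (H V : Type) [Group H] [MulAction H V] where
  E : V → V → Prop
  symm : ∀ x y, E x y → E y x
  smul : ∀ (h : H) (x y : V), E x y → E (h • x) (h • y)

namespace HG

variable {H V V' : Type} [Group H] [MulAction H V] [MulAction H V']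

/-- the darts: ordered pairs of different adjacent vertices -/
def darts (G : HG H V) : Set (V × V) := {p | G.E p.1 p.2 ∧ p.1 ≠ p.2}

/-- `-χ` -/
noncomputable def bb (G : HG H V) : ℚ :=
  mass H G.darts / 2 - mass H (Set.univ : Set V)

/-- the quotient graph -/
def map (G : HG H V) (f : V → V') (hf : ∀ (h : H) (x : V), f (h • x) = h • f x) : HG H V' where
  E x' y' := ∃ x y, f x = x' ∧ f y = y' ∧ G.E x y
  symm := by
    rintro _ _ ⟨x, y, rfl, rfl, e⟩
    exact ⟨y, x, rfl, rfl, G.symm _ _ e⟩
  smul := by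
    rintro h _ _ ⟨x, y, rfl, rfl, e⟩
    exact ⟨h • x, h • y, hf h x, hf h y, G.smul h _ _ e⟩

theorem darts_smul (G : HG H V) (h : H) (p : V × V) (hp : p ∈ G.darts) : h • p ∈ G.darts :=
  ⟨G.smul h _ _ hp.1, fun e => hp.2 (smul_left_cancel h e)⟩

/-- the edges as two element sets -/
def Ed (G : HG H V) : Type := {s : Set V // ∃ x y, G.E x y ∧ x ≠ y ∧ s = {x, y}}

theorem smul_pair (h : H) (x y : V) : h • ({x, y} : Set V) = {h • x, h • y} := by
  rw [← Set.image_smul, Set.image_pair]

instance (G : HG H V) : MulAction H G.Ed where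
  smul h s := ⟨h • s.1, by
    obtain ⟨x, y, e, hne, hs⟩ := s.2
    exact ⟨h • x, h • y, G.smul h _ _ e, fun e => hne (smul_left_cancel h e), by
      rw [hs, smul_pair]⟩⟩
  one_smul s := Subtype.ext (one_smul H s.1)
  mul_smul a b s := Subtype.ext (mul_smul a b s.1)

theorem Ed.smul_val {G : HG H V} (h : H) (s : G.Ed) : (h • s).1 = h • s.1 := rfl

/-- the edge between two vertices -/
def ed (G : HG H V) {x y : V} (e : G.E x y) (hne : x ≠ y) : G.Ed := ⟨{x, y}, x, y, e, hne, rfl⟩

/-- incidence -/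
def inc (G : HG H V) : Set (V × G.Ed) := {p | p.1 ∈ p.2.1}

theorem inc_smul (G : HG H V) (h : H) (p : V × G.Ed) (hp : p ∈ G.inc) : h • p ∈ G.inc := by
  show h • p.1 ∈ h • p.2.1
  exact Set.smul_mem_smul_set hp

/-- the darts as a type -/
def DT (G : HG H V) : Type := {p : V × V // p ∈ G.darts}

instance (G : HG H V) : MulAction H G.DT where
  smul h p := ⟨h • p.1, G.darts_smul h _ p.2⟩
  one_smul p := Subtype.ext (one_smul H p.1)
  mul_smul a b p := Subtype.ext (mul_smul a b p.1)

theorem finOrb_DT (G : HG H V) (hD : FinOrb H G.darts) : FinOrb H (Set.univ : Set G.DT) := by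
  apply Pool.Agent.SAF.FinOrb.of_inj hD (fun p : G.DT => p.1) (fun p _ => p.2)
  rintro a _ b _ ⟨h, e⟩
  exact ⟨h, Subtype.ext e⟩

/-- from darts to incidences -/
def toInc (G : HG H V) (p : G.DT) : V × G.Ed := (p.1.1, G.ed p.2.1 p.2.2)

theorem toInc_smul (G : HG H V) (h : H) (p : G.DT) : G.toInc (h • p) = h • G.toInc p := by
  apply Prod.ext
  · rfl
  · apply Subtype.ext
    show ({h • p.1.1, h • p.1.2} : Set V) = h • ({p.1.1, p.1.2} : Set V)
    rw [smul_pair]

theorem pair_eq {x y z : V} (h : ({x, y} : Set V) = {x, z}) (hxy : x ≠ y) : y = z := by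
  have : y ∈ ({x, z} : Set V) := by rw [← h]; simp
  rcases this with h1 | h1
  · exact absurd h1.symm hxy
  · exact h1

theorem toInc_inj (G : HG H V) : Function.Injective G.toInc := by
  intro p p' e
  have e1 : p.1.1 = p'.1.1 := congrArg (fun q : V × G.Ed => q.1) e
  have e2 : ({p.1.1, p.1.2} : Set V) = {p'.1.1, p'.1.2} :=
    congrArg (fun q : V × G.Ed => q.2.1) e
  rw [← e1] at e2
  exact Subtype.ext (Prod.ext e1 (pair_eq e2 p.2.2))

theorem range_toInc (G : HG H V) : Set.range G.toInc = G.inc := by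
  ext ⟨x, s⟩
  constructor
  · rintro ⟨p, hp⟩
    rw [← hp]
    show p.1.1 ∈ ({p.1.1, p.1.2} : Set V)
    simp
  · intro hx
    obtain ⟨s, a, b, e, hne, rfl⟩ := s
    have hx' : x = a ∨ x = b := hx
    rcases hx' with rfl | rfl
    · exact ⟨⟨(x, b), e, hne⟩, rfl⟩
    · refine ⟨⟨(x, a), G.symm _ _ e, hne.symm⟩, ?_⟩
      apply Prod.ext
      · rfl
      · apply Subtype.ext
        show ({x, a} : Set V) = {a, x}
        rw [Set.pair_comm]

theorem finOrb_inc (G : HG H V) (hD : FinOrb H G.darts) : FinOrb H G.inc := by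
  rw [← range_toInc, ← Set.image_univ]
  exact FinOrb.image_equi G.toInc_smul (G.finOrb_DT hD)

theorem mass_inc_eq_darts (G : HG H V) (hD : FinOrb H G.darts) :
    mass H G.inc = mass H G.darts := by
  have hT := G.finOrb_DT hD
  have h1 := mass_image_inj G.toInc_smul hT (fun _ _ _ => Set.mem_univ _)
    (fun a _ b _ e => G.toInc_inj e)
  have h2 := mass_image_inj (F := fun p : G.DT => p.1) (fun _ _ => rfl) hT
    (fun _ _ _ => Set.mem_univ _) (fun a _ b _ e => Subtype.ext e)
  rw [Set.image_univ, range_toInc] at h1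
  have h3 : (fun p : G.DT => p.1) '' Set.univ = G.darts := by
    ext p
    constructor
    · rintro ⟨q, _, rfl⟩
      exact q.2
    · intro hp
      exact ⟨⟨p, hp⟩, Set.mem_univ _, rfl⟩
  rw [h3] at h2
  rw [h1, h2]

theorem snd_inc (G : HG H V) : (Prod.snd : V × G.Ed → G.Ed) '' G.inc = Set.univ := by
  ext s
  constructor
  · exact fun _ => Set.mem_univ _
  · intro _
    obtain ⟨a, b, e, hne, hs⟩ := s.2
    exact ⟨(a, s), by show a ∈ s.1; rw [hs]; simp, rfl⟩

theorem finOrb_Ed (G : HG H V) (hD : FinOrb H G.darts) : FinOrb H (Set.univ : Set G.Ed) := by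
  rw [← snd_inc]
  exact FinOrb.image_equi (F := Prod.snd) (fun _ _ => rfl) (G.finOrb_inc hD)

theorem mass_inc (G : HG H V) (hD : FinOrb H G.darts) :
    mass H G.inc = 2 * mass H (Set.univ : Set G.Ed) := by
  have := mass_fiber (F := (Prod.snd : V × G.Ed → G.Ed)) (fun _ _ => rfl) (G.finOrb_inc hD)
    G.inc_smul Set.univ (by
      rintro ⟨a, s⟩ ha _
      obtain ⟨x, y, e, hne, hs⟩ := s.2
      have ha' : a ∈ s.1 := ha
      have hfib : ∀ c ∈ G.inc, c.2 = s → c.1 = x ∨ c.1 = y := by
        rintro ⟨c, t⟩ hc rfl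
        have hc' : c ∈ t.1 := hc
        rw [hs] at hc'
        exact hc'
      rw [hs] at ha'
      rcases ha' with rfl | ha'
      · refine ⟨(y, s), ?_, ?_, rfl, ?_⟩
        · show y ∈ s.1
          rw [hs]; simp
        · intro h
          exact hne (congrArg Prod.fst h)
        · intro c hc ec
          have ec' : c.2 = s := ec
          rcases hfib c hc ec' with h | h
          · exact Or.inl (Prod.ext h ec')
          · exact Or.inr (Prod.ext h ec')
      · have ha'' : a = y := ha'
        subst ha''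
        refine ⟨(x, s), ?_, ?_, rfl, ?_⟩
        · show x ∈ s.1
          rw [hs]; simp
        · intro h
          exact hne (congrArg Prod.fst h).symm
        · intro c hc ec
          have ec' : c.2 = s := ec
          rcases hfib c hc ec' with h | h
          · exact Or.inr (Prod.ext h ec')
          · exact Or.inl (Prod.ext h ec'))
    (fun _ _ h => absurd (Set.mem_univ _) h)
  rw [snd_inc, Set.univ_inter] at this
  rw [this]; ring

theorem mass_darts (G : HG H V) (hD : FinOrb H G.darts) :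
    mass H G.darts = 2 * mass H (Set.univ : Set G.Ed) := by
  rw [← mass_inc_eq_darts G hD, mass_inc G hD]

theorem bb_eq (G : HG H V) (hD : FinOrb H G.darts) :
    G.bb = mass H G.inc - mass H (Set.univ : Set V) - mass H (Set.univ : Set G.Ed) := by
  unfold bb
  rw [mass_inc G hD, mass_darts G hD]
  ring

theorem finOrb_darts_map (G : HG H V) (hD : FinOrb H G.darts) (f : V → V')
    (hf : ∀ (h : H) (x : V), f (h • x) = h • f x) : FinOrb H (G.map f hf).darts := by
  apply (FinOrb.image_equi (F := fun p : V × V => (f p.1, f p.2)) (by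
    intro h p
    show (f (h • p.1), f (h • p.2)) = (h • f p.1, h • f p.2)
    rw [hf, hf]) hD).mono
  rintro ⟨_, _⟩ ⟨⟨x, y, rfl, rfl, e⟩, hne⟩
  exact ⟨(x, y), ⟨e, fun h => hne (by show f x = f y; rw [show x = y from h])⟩, rfl⟩

end HG

end Pool.Agent.BT
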