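import Pool.Agent.BT.Graph2

/-!
# BT: comparison of a graph with a quotient graph through the subdivision
-/

namespace Pool.Agent.BT

open MulAction
open scoped Pointwise
open Pool.Agent.SAF (orbs FinOrb mk_eq_iff FinOrb_iff exists_rep)

variable {H V V' W1 : Type} [Group H] [MulAction H V] [MulAction H V'] [MulAction H W1]

/-- `f` does not raise `bb`, and in the case of equality symmetric cochains which vanish on heavy
edges are pulled back up to coboundaries. -/
def GRel {H V V' : Type} [Group H] [MulAction H V] [MulAction H V'] (G : HG H V) (f : V → V')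
    (hf : ∀ (h : H) (x : V), f (h • x) = h • f x) : Prop :=
  (G.map f hf).bb ≤ G.bb ∧ (G.bb ≤ (G.map f hf).bb →
    ∀ φ : V → V → ZMod 2, (∀ x y, φ x y = φ y x) →
      (∀ x y, G.E x y → x ≠ y → Heavy H (x, y) → φ x y = 0) →
      ∃ (g : V → ZMod 2) (ψ : V' → V' → ZMod 2), (∀ x, Heavy H x → g x = 0) ∧
        (∀ x y, ψ x y = ψ y x) ∧ (∀ x, ψ x x = 0) ∧ (∀ x y, Heavy H (x, y) → ψ x y = 0) ∧
        ∀ x y, G.E x y → x ≠ y → φ x y = ψ (f x) (f y) + g x + g y)

theorem image_smul_set {f : V → V'} (hf : ∀ (h : H) (x : V), f (h • x) = h • f x) (h : H)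
    (s : Set V) : f '' (h • s) = h • (f '' s) := by
  rw [← Set.image_smul, ← Set.image_smul, Set.image_image, Set.image_image]
  apply Set.image_congr
  intro x _
  exact hf h x

/-- the endpoints give a well defined map on the quotient of the edges -/
theorem exists_ends (G : HG H V) {f : V → V'} (hf : ∀ (h : H) (x : V), f (h • x) = h • f x)
    {q : G.Ed → W1} (hq : ∀ (h : H) (s : G.Ed), q (h • s) = h • q s)
    (hqs : Function.Surjective q) (hqf : ∀ s t, q s = q t → f '' s.1 = f '' t.1) :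
    ∃ F : W1 → Set V', (∀ s, F (q s) = f '' s.1) ∧ ∀ (h : H) (w : W1), F (h • w) = h • F w := by
  choose r hr using hqs
  have h1 : ∀ s, f '' (r (q s)).1 = f '' s.1 := fun s => hqf _ _ (hr _)
  refine ⟨fun w => f '' (r w).1, h1, ?_⟩
  intro h w
  show f '' (r (h • w)).1 = h • (f '' (r w).1)
  rw [← image_smul_set hf]
  have h2 := h1 (h • r w)
  rw [hq, hr] at h2
  exact h2

section Cmp

variable (G : HG H V) (hD : FinOrb H G.darts) {f : V → V'}
  (hf : ∀ (h : H) (x : V), f (h • x) = h • f x) {q : G.Ed → W1}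
  (hq : ∀ (h : H) (s : G.Ed), q (h • s) = h • q s) (hqs : Function.Surjective q)
  (F : W1 → Set V') (hF : ∀ s, F (q s) = f '' s.1)
  (hFs : ∀ (h : H) (w : W1), F (h • w) = h • F w)

/-- the elements with two endpoints -/
def two (F : W1 → Set V') : Set W1 := {w | ∃ a b, a ≠ b ∧ F w = {a, b}}

include hD hf hq hqs hF in
theorem mass_I2 : mass H ((fun i : V × G.Ed => (f i.1, q i.2)) '' G.inc) =
    mass H (Set.univ : Set W1) + mass H (two F) := by
  have heq : ∀ (h : H) (x : V × G.Ed), (fun i : V × G.Ed => (f i.1, q i.2)) (h • x) =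
      h • (fun i : V × G.Ed => (f i.1, q i.2)) x := by
    intro h x
    show (f (h • x.1), q (h • x.2)) = (h • f x.1, h • q x.2)
    rw [hf, hq]
  have hend : ∀ i ∈ ((fun i : V × G.Ed => (f i.1, q i.2)) '' G.inc), i.1 ∈ F i.2 := by
    rintro _ ⟨i, hi, rfl⟩
    show f i.1 ∈ F (q i.2)
    rw [hF]
    exact ⟨i.1, hi, rfl⟩
  have hend' : ∀ (x : V') (w : W1), x ∈ F w →
      (x, w) ∈ ((fun i : V × G.Ed => (f i.1, q i.2)) '' G.inc) := by
    intro x w hx
    obtain ⟨s, rfl⟩ := hqs w
    rw [hF] at hx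
    obtain ⟨y, hy, rfl⟩ := hx
    exact ⟨(y, s), hy, rfl⟩
  have hform : ∀ w : W1, ∃ a b, F w = {a, b} := by
    intro w
    obtain ⟨s, rfl⟩ := hqs w
    obtain ⟨x, y, _, _, hs⟩ := s.2
    refine ⟨f x, f y, ?_⟩
    rw [hF, hs, Set.image_pair]
  have hsm2 : ∀ (h : H) (x : V' × W1), x ∈ ((fun i : V × G.Ed => (f i.1, q i.2)) '' G.inc) →
      h • x ∈ ((fun i : V × G.Ed => (f i.1, q i.2)) '' G.inc) := by
    rintro h _ ⟨i, hi, rfl⟩
    exact ⟨h • i, G.inc_smul h i hi, heq h i⟩
  have := mass_fiber (F := (Prod.snd : V' × W1 → W1))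
    (s := ((fun i : V × G.Ed => (f i.1, q i.2)) '' G.inc)) (fun _ _ => rfl)
    (FinOrb.image_equi heq (G.finOrb_inc hD)) hsm2 (two F) (by
      rintro ⟨x, w⟩ hi ⟨a, b, hab, hw⟩
      have hx := hend _ hi
      have hw' : F w = {a, b} := hw
      have hx' : x ∈ F w := hx
      rw [hw'] at hx'
      have fib : ∀ c ∈ ((fun i : V × G.Ed => (f i.1, q i.2)) '' G.inc), c.2 = w →
          c.1 = a ∨ c.1 = b := by
        intro c hc ec
        have h1 := hend c hc
        rw [ec, hw'] at h1
        exact h1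
      rcases hx' with rfl | hx'
      · refine ⟨(b, w), hend' _ _ (by rw [hw']; simp), ?_, rfl, ?_⟩
        · intro h
          exact hab (congrArg Prod.fst h)
        · intro c hc ec
          have ec' : c.2 = w := ec
          rcases fib c hc ec' with h | h
          · exact Or.inl (Prod.ext h ec')
          · exact Or.inr (Prod.ext h ec')
      · have hx'' : x = b := hx'
        subst hx''
        refine ⟨(a, w), hend' _ _ (by rw [hw']; simp), ?_, rfl, ?_⟩
        · intro h
          exact hab (congrArg Prod.fst h).symm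
        · intro c hc ec
          have ec' : c.2 = w := ec
          rcases fib c hc ec' with h | h
          · exact Or.inr (Prod.ext h ec')
          · exact Or.inl (Prod.ext h ec')) (by
      rintro ⟨x, w⟩ hi hT ⟨y, w'⟩ hj e
      have e' : w' = w := e
      subst e'
      obtain ⟨a, b, hw⟩ := hform w'
      have hab : a = b := by
        by_contra hne
        exact hT ⟨a, b, hne, hw⟩
      subst hab
      have h1 : x ∈ F w' := hend (x, w') hi
      have h2 : y ∈ F w' := hend (y, w') hj
      rw [hw, Set.pair_eq_singleton, Set.mem_singleton_iff] at h1 h2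
      rw [h1, h2])
  have hsnd : (Prod.snd : V' × W1 → W1) '' ((fun i : V × G.Ed => (f i.1, q i.2)) '' G.inc) =
      Set.univ := by
    ext w
    constructor
    · exact fun _ => Set.mem_univ _
    · intro _
      obtain ⟨a, b, hw⟩ := hform w
      exact ⟨(a, w), hend' _ _ (by rw [hw]; simp), rfl⟩
  rw [hsnd, Set.inter_univ] at this
  exact this

omit [MulAction H W1] in
include hqs hF in
theorem image_two : F '' two F = (fun s : (G.map f hf).Ed => s.1) '' Set.univ := by
  ext s
  constructor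
  · rintro ⟨w, ⟨a, b, hab, hw⟩, rfl⟩
    obtain ⟨t, rfl⟩ := hqs w
    obtain ⟨x, y, e, hne, ht⟩ := t.2
    have h1 : F (q t) = {f x, f y} := by rw [hF, ht, Set.image_pair]
    have h2 : f x ≠ f y := by
      intro e
      rw [h1, ← e, Set.pair_eq_singleton] at hw
      have ha : a ∈ ({f x} : Set V') := by rw [hw]; simp
      have hb : b ∈ ({f x} : Set V') := by rw [hw]; simp
      exact hab (ha.trans hb.symm)
    exact ⟨(G.map f hf).ed ⟨x, y, rfl, rfl, e⟩ h2, Set.mem_univ _, h1.symm⟩
  · rintro ⟨⟨s, x', y', ⟨x, y, rfl, rfl, e⟩, hne, rfl⟩, _, rfl⟩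
    have hxy : x ≠ y := fun h => hne (by rw [h])
    refine ⟨q (G.ed e hxy), ⟨f x, f y, hne, ?_⟩, ?_⟩
    · rw [hF]; exact Set.image_pair _ _ _
    · rw [hF]; exact Set.image_pair _ _ _

theorem mass_Ed_val (G' : HG H V') (hD' : FinOrb H G'.darts) :
    mass H ((fun s : G'.Ed => s.1) '' Set.univ) = mass H (Set.univ : Set G'.Ed) :=
  mass_image_inj (F := fun s : G'.Ed => s.1) (fun _ _ => rfl) (G'.finOrb_Ed hD')
    (fun _ _ _ => Set.mem_univ _) (fun _ _ _ _ e => Subtype.ext e)

end Cmp

/-- a heavy element with two endpoints gives heavy incidences -/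
theorem heavy_inc {F : W1 → Set V'} (hFs : ∀ (h : H) (w : W1), F (h • w) = h • F w)
    {a b : V'} {w : W1} (hw : F w = {a, b}) (hh : Heavy H w) : Heavy H (a, w) := by
  intro hf
  apply hh
  have hmem : ∀ k ∈ stabilizer H w, k • a = a ∨ k • a = b := by
    intro k hk
    have h1 : k • a ∈ F w := by
      rw [← mem_stabilizer_iff.1 hk, hFs]
      apply Set.smul_mem_smul_set
      rw [hw]; simp
    rw [hw] at h1
    exact h1
  have hsub : ∀ k ∈ stabilizer H w, k • a = a → k ∈ stabilizer H (a, w) := by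
    intro k hk e
    rw [mem_stabilizer_iff] at hk ⊢
    show (k • a, k • w) = (a, w)
    rw [e, hk]
  have hA : ((stabilizer H (a, w) : Subgroup H) : Set H).Finite := Set.toFinite _
  by_cases hk : ∃ k ∈ stabilizer H w, k • a = b
  · obtain ⟨k, hk, ek⟩ := hk
    have : ((stabilizer H w : Subgroup H) : Set H).Finite := by
      apply (hA.union (hA.image (fun x => k * x))).subset
      intro c hc
      rcases hmem c hc with e | e
      · exact Or.inl (hsub c hc e)
      · right
        refine ⟨k⁻¹ * c, hsub _ (Subgroup.mul_mem _ (Subgroup.inv_mem _ hk) hc) ?_, ?_⟩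
        · rw [mul_smul, e, ← ek, inv_smul_smul]
        · show k * (k⁻¹ * c) = c
          rw [mul_inv_cancel_left]
    exact this.to_subtype
  · push Not at hk
    apply finite_of_le _ hf
    intro c hc
    rcases hmem c hc with e | e
    · exact hsub c hc e
    · exact absurd e (hk c hc)

/-- From the subdivision to the graph. -/
theorem GRel.of_brel (G : HG H V) (hD : FinOrb H G.darts) {f : V → V'}
    (hf : ∀ (h : H) (x : V), f (h • x) = h • f x) {q : G.Ed → W1}
    (hq : ∀ (h : H) (s : G.Ed), q (h • s) = h • q s) (hqs : Function.Surjective q)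
    (hqf : ∀ s t, q s = q t → f '' s.1 = f '' t.1) (m : BRel H f q G.inc) : GRel G f hf := by
  classical
  obtain ⟨F, hF, hFs⟩ := exists_ends G hf hq hqs hqf
  have hD' := G.finOrb_darts_map hD f hf
  have e1 := mass_I2 G hD hf hq hqs F hF
  have e2 := image_two G hf hqs F hF
  have e3 := mass_Ed_val (G.map f hf) hD'
  have hW1 : FinOrb H (Set.univ : Set W1) := by
    rw [← hqs.range_eq, ← Set.image_univ]
    exact FinOrb.image_equi hq (G.finOrb_Ed hD)
  have hT : FinOrb H (two F) := hW1.mono (Set.subset_univ _)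
  have e4 := mass_image_le hFs hT
  have e5 : (G.map f hf).bb = mass H (Set.univ : Set (G.map f hf).Ed) -
      mass H (Set.univ : Set V') := by
    unfold HG.bb
    rw [HG.mass_darts _ hD']
    ring
  have e6 := G.bb_eq hD
  obtain ⟨m1, m2⟩ := m
  refine ⟨by rw [e5, ← e3, ← e2]; linarith, fun e φ hsym hφ => ?_⟩
  rw [e5, ← e3, ← e2, e6] at e
  have hmassT : mass H (two F) ≤ mass H (F '' two F) := by linarith
  -- choose the endpoints
  have hch : ∀ s : G.Ed, ∃ p : V × V, G.E p.1 p.2 ∧ p.1 ≠ p.2 ∧ s.1 = {p.1, p.2} := by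
    intro s
    obtain ⟨x, y, e, hne, hs⟩ := s.2
    exact ⟨(x, y), e, hne, hs⟩
  choose p hp1 hp2 hp3 using hch
  let φ' : V × G.Ed → ZMod 2 := fun i => if i.1 = (p i.2).1 then φ (p i.2).1 (p i.2).2 else 0
  have hφ' : ∀ i ∈ G.inc, Heavy H i → φ' i = 0 := by
    rintro ⟨v, s⟩ _ hh
    show (if v = (p s).1 then φ (p s).1 (p s).2 else 0) = 0
    split_ifs with hv
    · apply hφ _ _ (hp1 s) (hp2 s)
      intro hf'
      apply hh
      apply finite_of_le _ hf'
      intro k hk
      rw [mem_stabilizer_iff] at hk ⊢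
      have hk1 : k • v = v := congrArg Prod.fst hk
      have hk2 : k • s = s := congrArg Prod.snd hk
      have hk3 : k • s.1 = s.1 := congrArg Subtype.val hk2
      show (k • (p s).1, k • (p s).2) = ((p s).1, (p s).2)
      rw [← hv, hk1]
      suffices h0 : k • (p s).2 = (p s).2 by rw [h0]
      have h1 : k • (p s).2 ∈ s.1 := by
        rw [← hk3]
        apply Set.smul_mem_smul_set
        rw [hp3 s]; simp
      rw [hp3 s] at h1
      rcases h1 with h1 | h1
      · exfalso
        apply hp2 s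
        have h2 : k • (p s).1 = (p s).1 := by rw [← hv]; exact hk1
        exact (smul_left_cancel k (h1.trans h2.symm)).symm
      · exact h1
    · rfl
  have hsum : ∀ x y (e : G.E x y) (hne : x ≠ y),
      φ x y = φ' (x, G.ed e hne) + φ' (y, G.ed e hne) := by
    intro x y e hne
    set s := G.ed e hne with hs
    have h1 : ({x, y} : Set V) = {(p s).1, (p s).2} := hp3 s
    show φ x y = (if x = (p s).1 then φ (p s).1 (p s).2 else 0) +
      (if y = (p s).1 then φ (p s).1 (p s).2 else 0)
    have hx : x = (p s).1 ∨ x = (p s).2 := by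
      have : x ∈ ({(p s).1, (p s).2} : Set V) := by rw [← h1]; simp
      exact this
    rcases hx with hx | hx
    · have hy : y = (p s).2 := by
        rw [← hx] at h1
        exact HG.pair_eq h1 hne
      rw [if_pos hx, if_neg (fun h => hne (hx.trans h.symm)), add_zero, ← hx, ← hy]
    · have hy : y = (p s).1 := by
        rw [← hx, Set.pair_comm (p s).1 x] at h1
        exact HG.pair_eq h1 hne
      rw [if_neg (fun h => hne (h.trans hy.symm)), if_pos hy, zero_add, ← hx, ← hy]
      exact hsym x y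
  obtain ⟨g, k, ψ', hg, hk, hψ', hs⟩ := m2 (by linarith) φ' hφ'
  -- heavy elements with two endpoints
  have hheavy : ∀ w a b, F w = {a, b} → Heavy H w → ψ' (a, w) = 0 ∧ ψ' (b, w) = 0 := by
    intro w a b hw hh
    have hI : ∀ x ∈ F w, (x, w) ∈ ((fun i : V × G.Ed => (f i.1, q i.2)) '' G.inc) := by
      intro x hx
      obtain ⟨s, rfl⟩ := hqs w
      rw [hF] at hx
      obtain ⟨y, hy, rfl⟩ := hx
      exact ⟨(y, s), hy, rfl⟩
    refine ⟨hψ' _ (hI a (by rw [hw]; simp)) (heavy_inc hFs hw hh),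
      hψ' _ (hI b (by rw [hw]; simp)) (heavy_inc (a := b) (b := a) hFs (by
        rw [hw, Set.pair_comm]) hh)⟩
  have hWD : ∀ w w' a b, a ≠ b → F w = {a, b} → F w' = {a, b} →
      ψ' (a, w) + ψ' (b, w) = ψ' (a, w') + ψ' (b, w') := by
    intro w w' a b hab hw hw'
    have hT1 : w ∈ two F := ⟨a, b, hab, hw⟩
    have hT2 : w' ∈ two F := ⟨a, b, hab, hw'⟩
    by_cases h1 : Finite ↥(stabilizer H w)
    · rw [(eq_of_mass_eq hFs hT hmassT hT1 hT2 (hw.trans hw'.symm) h1).1]
    by_cases h2 : Finite ↥(stabilizer H w')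
    · rw [(eq_of_mass_eq hFs hT hmassT hT2 hT1 (hw'.trans hw.symm) h2).1]
    obtain ⟨a1, a2⟩ := hheavy w a b hw h1
    obtain ⟨a3, a4⟩ := hheavy w' a b hw' h2
    rw [a1, a2, a3, a4]
  let ψ : V' → V' → ZMod 2 := fun a b =>
    if h : a ≠ b ∧ ∃ w, F w = {a, b} then ψ' (a, h.2.choose) + ψ' (b, h.2.choose) else 0
  have hψval : ∀ a b w, a ≠ b → F w = {a, b} → ψ a b = ψ' (a, w) + ψ' (b, w) := by
    intro a b w hab hw
    have h : a ≠ b ∧ ∃ w, F w = {a, b} := ⟨hab, w, hw⟩
    show (if h : a ≠ b ∧ ∃ w, F w = {a, b} then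
      ψ' (a, h.2.choose) + ψ' (b, h.2.choose) else 0) = _
    rw [dif_pos h]
    exact hWD _ _ a b hab h.2.choose_spec hw
  have hψ0 : ∀ a b, ¬ (a ≠ b ∧ ∃ w, F w = {a, b}) → ψ a b = 0 := by
    intro a b h
    show (if h : a ≠ b ∧ ∃ w, F w = {a, b} then
      ψ' (a, h.2.choose) + ψ' (b, h.2.choose) else 0) = _
    rw [dif_neg h]
  refine ⟨g, ψ, hg, ?_, ?_, ?_, ?_⟩
  · intro a b
    by_cases h : a ≠ b ∧ ∃ w, F w = {a, b}
    · obtain ⟨hab, w, hw⟩ := h
      rw [hψval a b w hab hw, hψval b a w hab.symm (by rw [hw, Set.pair_comm]), add_comm]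
    · rw [hψ0 a b h, hψ0 b a]
      rintro ⟨hab, w, hw⟩
      exact h ⟨hab.symm, w, by rw [hw, Set.pair_comm]⟩
  · intro a
    apply hψ0
    rintro ⟨h, _⟩
    exact h rfl
  · intro a b hh
    by_cases h : a ≠ b ∧ ∃ w, F w = {a, b}
    · obtain ⟨hab, w, hw⟩ := h
      rw [hψval a b w hab hw]
      have hT1 : w ∈ two F := ⟨a, b, hab, hw⟩
      have hwh : Heavy H w := by
        intro h1
        have h2 := (eq_of_mass_eq hFs hT hmassT hT1 hT1 rfl h1).2
        apply hh
        apply finite_of_le _ h2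
        intro k hk
        rw [mem_stabilizer_iff] at hk ⊢
        have hk1 : k • a = a := congrArg Prod.fst hk
        have hk2 : k • b = b := congrArg Prod.snd hk
        rw [hw, HG.smul_pair, hk1, hk2]
      obtain ⟨a1, a2⟩ := hheavy w a b hw hwh
      rw [a1, a2, add_zero]
    · exact hψ0 a b h
  · intro x y e hne
    rw [hsum x y e hne]
    set s := G.ed e hne with hsdef
    have i1 : ((x, s) : V × G.Ed) ∈ G.inc := by
      show x ∈ ({x, y} : Set V)
      simp
    have i2 : ((y, s) : V × G.Ed) ∈ G.inc := by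
      show y ∈ ({x, y} : Set V)
      simp
    rw [hs _ i1, hs _ i2]
    have hFq : F (q s) = {f x, f y} := by
      rw [hF]; exact Set.image_pair _ _ _
    show ψ' (f x, q s) + g x + k s + (ψ' (f y, q s) + g y + k s) = ψ (f x) (f y) + g x + g y
    have h2 := zmod2_add_self (k s)
    by_cases hxy : f x = f y
    · have h3 : ψ (f x) (f y) = 0 := hψ0 _ _ (fun h => h.1 hxy)
      rw [h3, hxy]
      have h4 := zmod2_add_self (ψ' (f y, q s))
      linear_combination h2 + h4
    · rw [hψval _ _ _ hxy hFq]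
      linear_combination h2

end Pool.Agent.BT
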