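import Pool.Agent.BT.Graph3

/-!
# BT: the fold lemma for graphs

`GRel G f`: `bb (G.map f) ≤ bb G`, and exactness in the case of equality. It holds for every
finite sequence of moves which identify two vertices that are adjacent or have a common neighbour.
-/

namespace Pool.Agent.BT

open MulAction
open scoped Pointwise
open Pool.Agent.SAF (orbs FinOrb mk_eq_iff FinOrb_iff exists_rep)

variable {H V V' V'' : Type} [Group H] [MulAction H V] [MulAction H V'] [MulAction H V'']

omit [MulAction H V] in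
theorem genRel_image {W : Type} [MulAction H W]
    (F : W → Set V') (hF : ∀ (h : H) (w : W), F (h • w) = h • F w) {w w' : W} (e : F w = F w')
    {a b : W} (h : genRel H w w' a b) : F a = F b := by
  induction h with
  | rel x y h =>
    obtain ⟨k, rfl, rfl⟩ := h
    rw [hF, hF, e]
  | refl x => rfl
  | symm x y _ ih => exact ih.symm
  | trans x y z _ _ ih1 ih2 => exact ih1.trans ih2

/-- a move of a graph: `f` identifies exactly the translates of `u` and `u'`, which are adjacent
or have a common neighbour -/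
structure GMove (G : HG H V) (f : V → V') (u u' : V) : Prop where
  equi : ∀ (h : H) (x : V), f (h • x) = h • f x
  surj : Function.Surjective f
  ker : ∀ x y : V, f x = f y → genRel H u u' x y
  fu : f u = f u'
  adj : G.E u u' ∨ ∃ z, G.E z u ∧ G.E z u'

theorem BRel.of_bij {W : Type} [MulAction H W] {I : Set (V × W)} {f : V → V'}
    (hf : ∀ (h : H) (x : V), f (h • x) = h • f x) (hb : Function.Bijective f)
    (hV : FinOrb H (Set.univ : Set V)) (hI : FinOrb H I)
    (hIs : ∀ (h : H) (i : V × W), i ∈ I → h • i ∈ I) : BRel H f (id : W → W) I := by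
  have e1 : mass H ((fun i : V × W => (f i.1, (id : W → W) i.2)) '' I) = mass H I :=
    mass_image_inj (pm_equi (W := W) hf) hI hIs (by
      rintro ⟨a, b⟩ _ ⟨c, d⟩ _ e
      have e1 : f a = f c := congrArg Prod.fst e
      have e2 : b = d := congrArg Prod.snd e
      rw [hb.1 e1, e2])
  have e2 := mass_image_inj hf hV (fun _ _ _ => Set.mem_univ _) (fun a _ b _ e => hb.1 e)
  rw [Set.image_univ, hb.2.range_eq] at e2
  refine ⟨by rw [e1, e2], fun _ φ hφ => ?_⟩
  obtain ⟨g, hg⟩ := hb.2.hasRightInverse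
  have hgf : ∀ x, g (f x) = x := fun x => hb.1 (hg (f x))
  have hge : ∀ (h : H) (x : V'), g (h • x) = h • g x := by
    intro h x
    apply hb.1
    rw [hg, hf, hg]
  refine ⟨fun _ => 0, fun _ => 0, fun i => φ (g i.1, i.2), fun _ _ => rfl, fun _ _ => rfl,
    ?_, ?_⟩
  · rintro _ ⟨i, hi, rfl⟩ hh
    show φ (g (f i.1), i.2) = 0
    rw [hgf]
    apply hφ i hi
    have := Heavy.map (F := fun j : V' × W => (g j.1, j.2)) (fun h x => by
      show (g (h • x.1), h • x.2) = (h • g x.1, h • x.2)
      rw [hge]) hh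
    have this' : Heavy H (g (f i.1), i.2) := this
    rw [hgf] at this'
    exact this'
  · intro i _
    show φ i = φ (g (f i.1), i.2) + 0 + 0
    rw [hgf, add_zero, add_zero]

theorem GRel.of_bij (G : HG H V) (hD : FinOrb H G.darts) (hV : FinOrb H (Set.univ : Set V))
    {f : V → V'} (hf : ∀ (h : H) (x : V), f (h • x) = h • f x) (hb : Function.Bijective f) :
    GRel G f hf :=
  GRel.of_brel G hD hf (q := id) (fun _ _ => rfl) Function.surjective_id
    (fun s t e => by rw [show s = t from e])
    (BRel.of_bij hf hb hV (G.finOrb_inc hD) G.inc_smul)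

theorem GRel.of_move (G : HG H V) (hD : FinOrb H G.darts) (hV : FinOrb H (Set.univ : Set V))
    {f : V → V'} {u u' : V} (m : GMove G f u u') : GRel G f m.equi := by
  by_cases huu : u = u'
  · -- trivial
    subst huu
    apply GRel.of_bij G hD hV m.equi ⟨?_, m.surj⟩
    intro x y e
    have h1 := m.ker x y e
    have : ∀ a b : V, genRel H u u a b → a = b := by
      intro a b h
      induction h with
      | rel x y h =>
        obtain ⟨k, rfl, rfl⟩ := h
        rfl
      | refl x => rfl
      | symm x y _ ih => exact ih.symm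
      | trans x y z _ _ ih1 ih2 => exact ih1.trans ih2
    exact this x y h1
  by_cases hadj : G.E u u'
  · -- adjacent
    have m' : Move H G.inc f u u' (G.ed hadj huu) :=
      ⟨m.equi, m.surj, m.ker, m.fu, by show u ∈ ({u, u'} : Set V); simp,
        by show u' ∈ ({u, u'} : Set V); simp⟩
    exact GRel.of_brel G hD m.equi (q := id) (fun _ _ => rfl) Function.surjective_id
      (fun s t e => by rw [show s = t from e])
      (BRel.of_move m' hV (G.finOrb_inc hD) G.inc_smul)
  · -- common neighbour
    obtain ⟨z, h1, h2⟩ := m.adj.resolve_left hadj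
    have hzu : z ≠ u := by
      rintro rfl
      exact hadj h2
    have hzu' : z ≠ u' := by
      rintro rfl
      exact hadj (G.symm _ _ h1)
    set s1 := G.ed h1 hzu with hs1
    set s2 := G.ed h2 hzu' with hs2
    let W1 := GQ H s1 s2
    let q : G.Ed → W1 := gq H s1 s2
    have hq : ∀ (h : H) (s : G.Ed), q (h • s) = h • q s := gq_smul s1 s2
    have hqs : Function.Surjective q := gq_surj s1 s2
    have hqf : ∀ s t, q s = q t → f '' s.1 = f '' t.1 := by
      intro s t e
      apply genRel_image (fun s : G.Ed => f '' s.1) (fun h s => by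
        show f '' (h • s.1) = h • f '' s.1
        exact image_smul_set m.equi h s.1) (w := s1) (w' := s2) _ (gq_eq.1 e)
      show f '' ({z, u} : Set V) = f '' ({z, u'} : Set V)
      rw [Set.image_pair, Set.image_pair, m.fu]
    have hsI : FinOrb H (Prod.swap '' G.inc) :=
      FinOrb.image_equi (F := Prod.swap) (fun _ _ => rfl) (G.finOrb_inc hD)
    have hsIs : ∀ (h : H) (i : G.Ed × V), i ∈ Prod.swap '' G.inc → h • i ∈ Prod.swap '' G.inc := by
      rintro h _ ⟨i, hi, rfl⟩
      exact ⟨h • i, G.inc_smul h i hi, rfl⟩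
    have m1 : Move H (Prod.swap '' G.inc) q s1 s2 z :=
      ⟨hq, hqs, fun x y e => gq_eq.1 e, gq_pair s1 s2,
        ⟨(z, s1), by show z ∈ ({z, u} : Set V); simp, rfl⟩,
        ⟨(z, s2), by show z ∈ ({z, u'} : Set V); simp, rfl⟩⟩
    have b1 : BRel H (id : V → V) q G.inc :=
      BRel.swap (fun _ _ => rfl) hq (G.finOrb_inc hD) G.inc_smul
        (BRel.of_move m1 (G.finOrb_Ed hD) hsI hsIs)
    let I1 : Set (V × W1) := (fun i : V × G.Ed => ((id : V → V) i.1, q i.2)) '' G.inc
    have heq1 : ∀ (h : H) (x : V × G.Ed), (fun i : V × G.Ed => ((id : V → V) i.1, q i.2)) (h • x) =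
        h • (fun i : V × G.Ed => ((id : V → V) i.1, q i.2)) x := by
      intro h x
      show (h • x.1, q (h • x.2)) = (h • x.1, h • q x.2)
      rw [hq]
    have hI1 : FinOrb H I1 := FinOrb.image_equi heq1 (G.finOrb_inc hD)
    have hI1s : ∀ (h : H) (i : V × W1), i ∈ I1 → h • i ∈ I1 := by
      rintro h _ ⟨i, hi, rfl⟩
      exact ⟨h • i, G.inc_smul h i hi, heq1 h i⟩
    have m2 : Move H I1 f u u' (q s1) :=
      ⟨m.equi, m.surj, m.ker, m.fu,
        ⟨(u, s1), by show u ∈ ({z, u} : Set V); simp, rfl⟩,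
        ⟨(u', s2), by show u' ∈ ({z, u'} : Set V); simp, by
          show ((u', q s2) : V × W1) = (u', q s1)
          rw [show q s1 = q s2 from gq_pair s1 s2]⟩⟩
    have b2 : BRel H f (id : W1 → W1) I1 := BRel.of_move m2 hV hI1 hI1s
    have b3 : BRel H (f ∘ id) (id ∘ q) G.inc := BRel.trans (fun _ _ => rfl) hq b1 b2
    exact GRel.of_brel G hD m.equi hq hqs hqf b3

theorem HG.map_map (G : HG H V) {f : V → V'} (hf : ∀ (h : H) (x : V), f (h • x) = h • f x)
    {g : V' → V''} (hg : ∀ (h : H) (x : V'), g (h • x) = h • g x)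
    (hgf : ∀ (h : H) (x : V), (g ∘ f) (h • x) = h • (g ∘ f) x) :
    (G.map f hf).map g hg = G.map (g ∘ f) hgf := by
  have : ∀ x y, ((G.map f hf).map g hg).E x y ↔ (G.map (g ∘ f) hgf).E x y := by
    intro x y
    constructor
    · rintro ⟨_, _, rfl, rfl, a, b, rfl, rfl, e⟩
      exact ⟨a, b, rfl, rfl, e⟩
    · rintro ⟨a, b, rfl, rfl, e⟩
      exact ⟨f a, f b, rfl, rfl, a, b, rfl, rfl, e⟩
  have h2 : ((G.map f hf).map g hg).E = (G.map (g ∘ f) hgf).E := by
    funext x y
    exact propext (this x y)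
  cases h3 : (G.map f hf).map g hg
  cases h4 : G.map (g ∘ f) hgf
  rw [h3, h4] at h2
  simp only at h2
  subst h2
  rfl

theorem GRel.trans {G : HG H V} {f : V → V'} {hf : ∀ (h : H) (x : V), f (h • x) = h • f x}
    {g : V' → V''} {hg : ∀ (h : H) (x : V'), g (h • x) = h • g x}
    (hgf : ∀ (h : H) (x : V), (g ∘ f) (h • x) = h • (g ∘ f) x)
    (m : GRel G f hf) (m' : GRel (G.map f hf) g hg) : GRel G (g ∘ f) hgf := by
  obtain ⟨m1, m2⟩ := m
  obtain ⟨m1', m2'⟩ := m'
  rw [HG.map_map G hf hg hgf] at m1' m2'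
  refine ⟨m1'.trans m1, fun e φ hsym hφ => ?_⟩
  obtain ⟨k, ψ, hk, hψs, hψ0, hψh, hs⟩ := m2 (e.trans m1') φ hsym hφ
  obtain ⟨k', ψ', hk', hψs', hψ0', hψh', hs'⟩ := m2' (m1.trans e) ψ hψs
    (fun x y _ _ h => hψh x y h)
  refine ⟨fun x => k' (f x) + k x, ψ', ?_, hψs', hψ0', hψh', ?_⟩
  · intro x hx
    show k' (f x) + k x = 0
    rw [hk' _ (hx.map hf), hk x hx, add_zero]
  · intro x y e hne
    rw [hs x y e hne]
    show ψ (f x) (f y) + k x + k y =
      ψ' (g (f x)) (g (f y)) + (k' (f x) + k x) + (k' (f y) + k y)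
    by_cases hxy : f x = f y
    · rw [hxy, hψ0, hψ0']
      have := zmod2_add_self (k' (f y))
      linear_combination -this
    · rw [hs' (f x) (f y) ⟨x, y, rfl, rfl, e⟩ hxy]
      ring

/-- finite sequences of moves -/
inductive Folds {H V : Type} [Group H] [MulAction H V] (G : HG H V) :
    ∀ {V' : Type} [MulAction H V'], (V → V') → Prop
  | iso {V' : Type} [MulAction H V'] (f : V → V')
      (hf : ∀ (h : H) (x : V), f (h • x) = h • f x) (hb : Function.Bijective f) : Folds G f
  | step {V' V'' : Type} [MulAction H V'] [MulAction H V''] (f : V → V') (g : V' → V'')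
      (hf : ∀ (h : H) (x : V), f (h • x) = h • f x) (F : Folds G f) (u u' : V')
      (m : GMove (G.map f hf) g u u') : Folds G (g ∘ f)

theorem Folds.equi {G : HG H V} {f : V → V'} (F : Folds G f) :
    ∀ (h : H) (x : V), f (h • x) = h • f x := by
  induction F with
  | iso f hf hb => exact hf
  | step _ g hf _ _ _ m _ =>
    intro h x
    show g _ = h • g _
    rw [hf, m.equi]

theorem Folds.surj {G : HG H V} {f : V → V'} (F : Folds G f) : Function.Surjective f := by
  induction F with
  | iso f hf hb => exact hb.2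
  | step _ _ _ _ _ _ m ih => exact m.surj.comp ih

/-- THE FOLD LEMMA -/
theorem Folds.rel {G : HG H V} (hD : FinOrb H G.darts) (hV : FinOrb H (Set.univ : Set V))
    {f : V → V'} (F : Folds G f) (hf : ∀ (h : H) (x : V), f (h • x) = h • f x) :
    GRel G f hf := by
  induction F with
  | iso f hf' hb => exact GRel.of_bij G hD hV hf hb
  | step f g hf' F u u' m ih =>
    refine GRel.trans (hf := hf') (hg := m.equi) hf (ih hf') (GRel.of_move _ ?_ ?_ m)
    · exact G.finOrb_darts_map hD f hf'
    · have := FinOrb.image_equi hf' hV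
      rwa [Set.image_univ, F.surj.range_eq] at this

theorem Folds.bb_le {G : HG H V} (hD : FinOrb H G.darts) (hV : FinOrb H (Set.univ : Set V))
    {f : V → V'} (F : Folds G f) : (G.map f F.equi).bb ≤ G.bb := (F.rel hD hV F.equi).1

end Pool.Agent.BT
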