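import Pool.Agent.SAG.AG
import Pool.Agent.SAF.A00

/-!
# BT: groups which act on a line
-/

namespace Pool.Agent.BT

open MulAction
open Pool.Agent.SAF (InC orbs FinOrb oc Decomp SAn SA Conv hull TAct)

theorem InC.of_injective {G G' : Type} [Group G] [Group G'] (f : G →* G')
    (hf : Function.Injective f) (h : InC G') : InC G :=
  (Pool.Agent.SAG.InC.sub h f.range).iso (MonoidHom.ofInjective hf).symm

theorem set_finite_of_three {X : Type} {N : Set X}
    (h : ∀ a ∈ N, ∀ b ∈ N, ∀ c ∈ N, a = b ∨ a = c ∨ b = c) : N.Finite := by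
  by_cases hne : ∃ a, a ∈ N
  · obtain ⟨a, ha⟩ := hne
    by_cases hb : ∃ b ∈ N, b ≠ a
    · obtain ⟨b, hb, hba⟩ := hb
      refine (Set.toFinite {a, b}).subset ?_
      intro c hc
      rcases h a ha b hb c hc with e | e | e
      · exact absurd e.symm hba
      · exact Or.inl e.symm
      · exact Or.inr e.symm
    · push Not at hb
      refine (Set.finite_singleton a).subset ?_
      intro c hc
      exact hb c hc
  · have : N = ∅ := by
      ext a
      constructor
      · intro ha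
        exact hne ⟨a, ha⟩
      · intro ha
        exact ha.elim
    rw [this]
    exact Set.finite_empty

/-- a group which acts on a line (convex, at most two neighbours) -/
theorem inC_of_line {H : Type} [Group H] (D : Decomp H) (A : Subgroup H) {L : Set D.X}
    (hL : Conv D.G L) (hd : ∀ w ∈ L, ∀ a b c, D.G.Adj w a → D.G.Adj w b → D.G.Adj w c → a ∈ L →
      b ∈ L → c ∈ L → a = b ∨ a = c ∨ b = c) (hA : ∀ a ∈ A, ∀ w ∈ L, a • w ∈ L) {w w' : D.X}
    (hw : w ∈ L) (hw' : w' ∈ L) (e : D.G.Adj w w') : InC ↥(A ⊓ stabilizer H w) := by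
  have hN : {z | D.G.Adj w z ∧ z ∈ L}.Finite := by
    apply set_finite_of_three
    rintro a ⟨ha1, ha2⟩ b ⟨hb1, hb2⟩ c ⟨hc1, hc2⟩
    exact hd w hw a b c ha1 hb1 hc1 ha2 hb2 hc2
  have horb : (orbit ↥(A ⊓ stabilizer H w) w').Finite := by
    refine hN.subset ?_
    rintro _ ⟨⟨g, hg1, hg2⟩, rfl⟩
    have h1 : D.G.Adj (g • w) (g • w') := D.adj_smul g _ _ e
    rw [mem_stabilizer_iff.1 hg2] at h1
    exact ⟨h1, hA g hg1 w' hw'⟩
  have hfin : Finite ↥(orbit ↥(A ⊓ stabilizer H w) w') := horb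
  have hidx : (stabilizer ↥(A ⊓ stabilizer H w) w').index ≠ 0 := by
    rw [MulAction.index_stabilizer]
    have h1 : (orbit ↥(A ⊓ stabilizer H w) w').Nonempty := ⟨w', mem_orbit_self w'⟩
    exact (Set.ncard_pos horb).2 h1 |>.ne'
  refine Pool.Agent.SAG.InC.of_index _ ?_ hidx
  let f : ↥(stabilizer ↥(A ⊓ stabilizer H w) w') →* ↥(stabilizer H w ⊓ stabilizer H w') :=
    { toFun := fun g => ⟨g.1.1, g.1.2.2, g.2⟩
      map_one' := rfl
      map_mul' := fun _ _ => rfl }
  refine InC.of_injective f ?_ (D.edgeC w w' e)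
  intro a b hab
  have h2 : (f a).1 = (f b).1 := by rw [hab]
  exact Subtype.ext (Subtype.ext h2)

end Pool.Agent.BT
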