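import Pool.Agent.BT.Fib
import Pool.Agent.SAG.AO

/-!
# BT: the mass of a tree

`tree_mass`: a group in the class `InC` acts on a tree without inversions, with finitely many
orbits. Then mass of the vertices minus half the mass of the ordered edges is `1 / |H|`.
-/

namespace Pool.Agent.BT

open MulAction
open Pool.Agent.SAF (orbs FinOrb mk_eq_iff FinOrb_iff TAct Ori InC isTree_of_cut)

section Union

variable {H X : Type} [Group H] [MulAction H X]

theorem mass_empty : mass H (∅ : Set X) = 0 := by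
  unfold mass orbs
  simp

theorem mass_union {s t : Set X} (hs : FinOrb H s) (ht : FinOrb H t)
    (hsm : ∀ (h : H) (x : X), x ∈ s → h • x ∈ s) (hd : ∀ x ∈ s, x ∉ t) :
    mass H (s ∪ t) = mass H s + mass H t := by
  have hu : orbs H (s ∪ t) = orbs H s ∪ orbs H t := Set.image_union _ _ _
  unfold mass
  rw [hu]
  apply finsum_mem_union _ hs ht
  rw [Set.disjoint_left]
  rintro q ⟨x, hx, rfl⟩ ⟨y, hy, e⟩
  obtain ⟨h, hh⟩ := mk_eq_iff.1 e
  have h1 := hsm h x hx
  rw [hh] at h1
  exact hd y h1 hy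

theorem mem_of_mk_one {A : Subgroup H} {h : H} (e : (h : H ⧸ A) = ((1 : H) : H ⧸ A)) : h ∈ A := by
  rw [QuotientGroup.eq, mul_one] at e
  exact inv_mem_iff.1 e

theorem finOrb_sub (A : Subgroup H) [A.FiniteIndex] {s : Set X} (hs : FinOrb H s) :
    FinOrb ↥A s := by
  have hp : FinOrb H (s ×ˢ (Set.univ : Set (H ⧸ A))) := finOrb_prod hs
  apply Pool.Agent.SAF.FinOrb.of_inj hp (fun x => (x, ((1 : H) : H ⧸ A)))
    (fun x hx => ⟨hx, trivial⟩)
  rintro a ha b hb ⟨h, e⟩
  have e1 : h • a = b := congrArg Prod.fst e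
  have e2 : ((h * 1 : H) : H ⧸ A) = ((1 : H) : H ⧸ A) := congrArg Prod.snd e
  rw [mul_one] at e2
  exact ⟨⟨h, mem_of_mk_one e2⟩, e1⟩

theorem mass_index (A : Subgroup H) [A.FiniteIndex] {s : Set X} (hs : FinOrb H s)
    (hsm : ∀ (h : H) (x : X), x ∈ s → h • x ∈ s) : mass ↥A s = A.index * mass H s := by
  have h1 := mass_prod (Z := H ⧸ A) hs hsm
  rw [show Nat.card (H ⧸ A) = A.index from rfl] at h1
  rw [← h1]
  have hπ : ∀ (h : H) (p : X × (H ⧸ A)), (h • p).2 = h • p.2 := fun _ _ => rfl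
  have hstab : stabilizer H ((1 : H) : H ⧸ A) = A := by
    ext h
    rw [mem_stabilizer_iff]
    constructor
    · intro e
      have e2 : ((h * 1 : H) : H ⧸ A) = ((1 : H) : H ⧸ A) := e
      rw [mul_one] at e2
      exact mem_of_mk_one e2
    · intro hh
      change ((h * 1 : H) : H ⧸ A) = ((1 : H) : H ⧸ A)
      rw [mul_one, QuotientGroup.eq, mul_one]
      exact A.inv_mem hh
  rw [mass_fib (π := Prod.snd) hπ (finOrb_prod hs) (fun h p hp => ⟨hsm h _ hp.1, trivial⟩)
    (fun _ => ((1 : H) : H ⧸ A)) {Quotient.mk'' ((1 : H) : H ⧸ A)}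
    (by
      intro q hq
      rw [Finset.mem_singleton] at hq
      exact hq.symm)
    (by
      rintro ⟨x, z⟩ -
      rw [Finset.mem_singleton]
      induction z using QuotientGroup.induction_on with
      | H g =>
        refine mk_eq_iff.2 ⟨g, ?_⟩
        change ((g * 1 : H) : H ⧸ A) = (g : H ⧸ A)
        rw [mul_one]), Finset.sum_singleton]
  have key : ∀ B : Subgroup H, B = A → mass ↥B s = mass ↥A s := by
    rintro _ rfl
    rfl
  rw [← key _ hstab]
  have hfe : fib (Prod.snd : X × (H ⧸ A) → H ⧸ A) (s ×ˢ (Set.univ : Set (H ⧸ A)))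
      ((1 : H) : H ⧸ A) = (fun x : X => (x, ((1 : H) : H ⧸ A))) '' s := by
    ext ⟨a, b⟩
    constructor
    · rintro ⟨h2, e⟩
      exact ⟨a, h2.1, Prod.ext rfl e.symm⟩
    · rintro ⟨z, hz, e⟩
      obtain ⟨rfl, rfl⟩ := Prod.mk.inj e
      exact ⟨⟨hz, trivial⟩, rfl⟩
  rw [hfe]
  symm
  have hs2 : FinOrb ↥(stabilizer H ((1 : H) : H ⧸ A)) s := by
    have : ∀ B : Subgroup H, B = A → FinOrb ↥B s := by
      rintro _ rfl
      exact finOrb_sub _ hs
    exact this _ hstab
  apply mass_image_inj (H := ↥(stabilizer H ((1 : H) : H ⧸ A)))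
    (F := fun x : X => (x, ((1 : H) : H ⧸ A)))
  · intro k x
    exact Prod.ext rfl (mem_stabilizer_iff.1 k.2).symm
  · exact hs2
  · intro k x hx
    exact hsm k.1 x hx
  · intro a _ b _ e
    exact congrArg Prod.fst e

theorem mass_prod_swap {s : Set (X × X)} (hs : FinOrb H s)
    (hsm : ∀ (h : H) (p : X × X), p ∈ s → h • p ∈ s) : mass H (Prod.swap '' s) = mass H s :=
  mass_image_inj (F := Prod.swap) (fun _ _ => rfl) hs hsm
    (fun _ _ _ _ e => Prod.swap_injective e)

theorem ori_mass {G : SimpleGraph X}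
    {f : X → X} (hf : Ori G f) (hfe : ∀ (h : H) (w : X), f (h • w) = h • f w)
    (hV : FinOrb H (Set.univ : Set X)) :
    mass H (Set.univ : Set X) - mass H {p : X × X | G.Adj p.1 p.2} / 2 =
      mass H {w | f w = w} := by
  have h1 : (Set.univ : Set X) = {w | f w = w} ∪ {w | f w ≠ w} := by
    ext w
    simp only [Set.mem_univ, true_iff]
    by_cases h : f w = w
    · exact Or.inl h
    · exact Or.inr h
  have ha : FinOrb H {w | f w = w} := hV.mono (Set.subset_univ _)
  have hb : FinOrb H {w | f w ≠ w} := hV.mono (Set.subset_univ _)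
  have hai : ∀ (h : H) (x : X), x ∈ {w | f w = w} → h • x ∈ {w | f w = w} := by
    intro h x hx
    change f (h • x) = h • x
    rw [hfe, show f x = x from hx]
  have hbi : ∀ (h : H) (x : X), x ∈ {w | f w ≠ w} → h • x ∈ {w | f w ≠ w} := by
    intro h x hx e
    apply hx
    apply MulAction.injective h
    change h • f x = h • x
    rw [← hfe]
    exact e
  have hF : ∀ (h : H) (x : X), (fun w : X => (w, f w)) (h • x) = h • (fun w : X => (w, f w)) x := by
    intro h x
    exact Prod.ext rfl (hfe h x)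
  have h2 : {p : X × X | G.Adj p.1 p.2} = ((fun w : X => (w, f w)) '' {w | f w ≠ w}) ∪
      (Prod.swap '' ((fun w : X => (w, f w)) '' {w | f w ≠ w})) := by
    ext ⟨a, b⟩
    constructor
    · intro h
      rcases hf.one a b h with e | e
      · refine Or.inl ⟨a, ?_, Prod.ext rfl e⟩
        change f a ≠ a
        rw [e]
        exact (G.ne_of_adj h).symm
      · refine Or.inr ⟨(b, a), ⟨b, ?_, Prod.ext rfl e⟩, rfl⟩
        change f b ≠ b
        rw [e]
        exact G.ne_of_adj h
    · rintro (⟨w, hw, e⟩ | ⟨_, ⟨w, hw, rfl⟩, e⟩)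
      · obtain ⟨rfl, rfl⟩ := Prod.mk.inj e
        exact (hf.ok _).resolve_left hw
      · obtain ⟨rfl, rfl⟩ := Prod.mk.inj e
        exact ((hf.ok _).resolve_left hw).symm
  have hP : FinOrb H ((fun w : X => (w, f w)) '' {w | f w ≠ w}) := FinOrb.image_equi hF hb
  have hPi : ∀ (h : H) (p : X × X), p ∈ ((fun w : X => (w, f w)) '' {w | f w ≠ w}) →
      h • p ∈ ((fun w : X => (w, f w)) '' {w | f w ≠ w}) := by
    rintro h _ ⟨w, hw, rfl⟩
    exact ⟨h • w, hbi h w hw, hF h w⟩
  have hP2 : FinOrb H (Prod.swap '' ((fun w : X => (w, f w)) '' {w | f w ≠ w})) :=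
    FinOrb.image_equi (F := Prod.swap) (fun _ _ => rfl) hP
  have m1 : mass H ((fun w : X => (w, f w)) '' {w | f w ≠ w}) = mass H {w | f w ≠ w} :=
    mass_image_inj hF hb hbi (fun a _ b _ e => congrArg Prod.fst e)
  have m2 := mass_prod_swap hP hPi
  rw [h2, mass_union hP hP2 hPi, m2, m1]
  · conv_lhs => rw [h1]
    rw [mass_union ha hb hai (fun x hx hx2 => hx2 hx)]
    ring
  · rintro _ ⟨w, hw, rfl⟩ ⟨_, ⟨w', hw', rfl⟩, e⟩
    have e1 : f w' = w := congrArg Prod.fst e
    have e2 : w' = f w := congrArg Prod.snd e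
    have hadj := (hf.ok w).resolve_left hw
    refine hf.ntwo w (f w) hadj ⟨rfl, ?_⟩
    rw [← e2]
    exact e1

theorem Ori.smul {G : SimpleGraph X} (hs : ∀ (h : H) (x y : X), G.Adj x y → G.Adj (h • x) (h • y))
    {f : X → X} (hf : Ori G f) (h : H) : Ori G (fun w => h • f (h⁻¹ • w)) := by
  refine ⟨?_, ?_, ?_⟩
  · intro w
    rcases hf.ok (h⁻¹ • w) with e | e
    · left
      rw [e, smul_inv_smul]
    · right
      have := hs h _ _ e
      rw [smul_inv_smul] at this
      exact this
  · intro w w' e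
    rcases hf.one _ _ (hs h⁻¹ _ _ e) with e1 | e1
    · left
      rw [e1, smul_inv_smul]
    · right
      rw [e1, smul_inv_smul]
  · rintro w w' e ⟨e1, e2⟩
    change h • f (h⁻¹ • w) = w' at e1
    change h • f (h⁻¹ • w') = w at e2
    apply hf.ntwo _ _ (hs h⁻¹ _ _ e)
    exact ⟨by rw [← e1, inv_smul_smul], by rw [← e2, inv_smul_smul]⟩

end Union

section Tree

variable {H X : Type} [Group H] [MulAction H X]

theorem tree_mass {G : SimpleGraph X} (hG : TAct H G) (hV : FinOrb H (Set.univ : Set X))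
    (hE : FinOrb H {p : X × X | G.Adj p.1 p.2}) (hC : InC H) :
    mass H (Set.univ : Set X) - mass H {p : X × X | G.Adj p.1 p.2} / 2 =
      iw (⊤ : Subgroup H) := by
  by_cases hfix : ∃ v : X, ∀ h : H, h • v = v
  · obtain ⟨v, hv⟩ := hfix
    obtain ⟨f, hf, hfv, -⟩ := Pool.Agent.SAF.exists_ori_vertex hG.tree v
    have hfe : ∀ (h : H) (w : X), f (h • w) = h • f w := by
      intro h w
      have h1 : (fun w => h • f (h⁻¹ • w)) = f := by
        refine Pool.Agent.SAF.Ori.eq_of_fix hG.tree (Ori.smul hG.adj_smul hf h) hf (v := v) ?_ hfv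
        rw [hv, hfv, hv]
      have h2 := congrFun h1 (h • w)
      change h • f (h⁻¹ • h • w) = f (h • w) at h2
      rw [inv_smul_smul] at h2
      exact h2.symm
    rw [ori_mass hf hfe hV]
    have h3 : {w | f w = w} = {v} := by
      ext w
      constructor
      · intro hw
        exact Pool.Agent.SAF.Ori.fix_unique hG.tree hf hw hfv
      · rintro rfl
        exact hfv
    rw [h3, mass_finite (K := H) (Set.finite_singleton v) (by
      rintro k z hz
      rw [Set.mem_singleton_iff] at hz ⊢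
      rw [hz, hv]), Set.ncard_singleton, Nat.cast_one, one_mul]
  · have hne : Nonempty X := hG.tree.connected.nonempty
    -- no finite orbit
    have hno : ∀ x : X, ¬ (orbit H x).Finite := by
      intro x hx
      obtain ⟨w, hw⟩ := Pool.Agent.SAF.fix_of_finite_inv hG (orbit H x) hx ⟨x, mem_orbit_self x⟩
      apply hfix
      refine ⟨w, fun h => hw h ?_⟩
      rintro _ ⟨k, rfl⟩
      exact ⟨h * k, mul_smul h k x⟩
    have hinf : ¬ Finite H := by
      intro hfin
      obtain ⟨x⟩ := hne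
      exact hno x (Set.finite_range _)
    rcases hC with hfin | ⟨t, ht, hidx⟩
    · exact absurd hfin hinf
    have hsub : ∀ x : X, t • x ≠ x := by
      intro x hx
      apply hno x
      have hz : Subgroup.zpowers t ≤ stabilizer H x := by
        rw [Subgroup.zpowers_le]
        exact hx
      have : (stabilizer H x).FiniteIndex := Subgroup.finiteIndex_of_le hz
      have h1 : Finite (H ⧸ stabilizer H x) := Subgroup.finite_quotient_of_finiteIndex
      have h2 : Finite ↥(orbit H x) := Finite.of_equiv _ (orbitEquivQuotientStabilizer H x).symm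
      exact h2
    obtain ⟨f, hf, hno2, hcomm⟩ := Pool.Agent.SAG.exists_end_canonical hG t hsub
    have hA : Subgroup.zpowers t ≤ Subgroup.centralizer {t} := by
      rw [Subgroup.zpowers_le, Subgroup.mem_centralizer_iff]
      intro m hm
      rw [Set.mem_singleton_iff] at hm
      rw [hm]
    have hAi : (Subgroup.centralizer {t}).FiniteIndex := Subgroup.finiteIndex_of_le hA
    have h1 := ori_mass (H := ↥(Subgroup.centralizer {t})) hf (by
      rintro ⟨a, ha⟩ w
      rw [Subgroup.mem_centralizer_iff] at ha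
      exact hcomm a (ha t rfl).symm w) (finOrb_sub _ hV)
    rw [mass_index _ hV (fun _ _ _ => trivial), mass_index _ hE (fun h p hp => hG.adj_smul h _ _ hp)]
      at h1
    have h2 : {w | f w = w} = (∅ : Set X) := by
      ext w
      constructor
      · intro hw
        exact (hno2 w hw).elim
      · intro hw
        exact hw.elim
    rw [h2, mass_empty] at h1
    have h3 : ((Subgroup.centralizer {t}).index : ℚ) ≠ 0 := by
      exact_mod_cast hAi.index_ne_zero
    rw [iw_top_of_infinite hinf]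
    have h4 : ((Subgroup.centralizer {t}).index : ℚ) *
        (mass H (Set.univ : Set X) - mass H {p : X × X | G.Adj p.1 p.2} / 2) = 0 := by
      rw [← h1]
      ring
    exact (mul_eq_zero.1 h4).resolve_left h3

/-- relational form -/
theorem tree_mass_rel (P : Set X) (A : X → X → Prop)
    (A_symm : ∀ x y, A x y → A y x) (A_irr : ∀ x, ¬ A x x) (A_P : ∀ x y, A x y → x ∈ P)
    (P_smul : ∀ (h : H) (x : X), x ∈ P → h • x ∈ P)
    (A_smul : ∀ (h : H) (x y : X), A x y → A (h • x) (h • y))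
    (ne : P.Nonempty) (conn : ∀ x ∈ P, ∀ y ∈ P, Relation.ReflTransGen A x y)
    (cut : ∀ v w, A v w → ∃ g : X → ZMod 2, g v ≠ g w ∧
      ∀ a b, A a b → g a ≠ g b → (a = v ∧ b = w) ∨ (a = w ∧ b = v))
    (noinv : ∀ (h : H) (x y : X), A x y → ¬ (h • x = y ∧ h • y = x))
    (finP : FinOrb H P) (finA : FinOrb H {p : X × X | A p.1 p.2}) (hC : InC H) :
    mass H P - mass H {p : X × X | A p.1 p.2} / 2 = iw (⊤ : Subgroup H) := by
  let X' := {x : X // x ∈ P}
  let act : MulAction H X' :=
    { smul := fun h x => ⟨h • x.1, P_smul h _ x.2⟩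
      one_smul := fun x => Subtype.ext (one_smul H x.1)
      mul_smul := fun a b x => Subtype.ext (mul_smul a b x.1) }
  have hsm : ∀ (h : H) (x : X'), (h • x).1 = h • x.1 := fun _ _ => rfl
  let G : SimpleGraph X' :=
    { Adj := fun x y => A x.1 y.1
      symm := ⟨fun x y h => A_symm _ _ h⟩
      loopless := ⟨fun x h => A_irr _ h⟩ }
  have tree : G.IsTree := by
    apply isTree_of_cut
    · have hne : Nonempty X' := ⟨⟨ne.some, ne.some_mem⟩⟩
      refine ⟨fun a b => ?_⟩
      have key : ∀ y : X, Relation.ReflTransGen A a.1 y → ∃ hy : y ∈ P,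
          G.Reachable a ⟨y, hy⟩ := by
        intro y hy
        induction hy with
        | refl => exact ⟨a.2, SimpleGraph.Reachable.refl _⟩
        | tail _ h ih =>
          obtain ⟨h1, h2⟩ := ih
          refine ⟨A_P _ _ (A_symm _ _ h), h2.trans (SimpleGraph.Adj.reachable ?_)⟩
          exact h
      obtain ⟨_, h⟩ := key b.1 (conn _ a.2 _ b.2)
      exact h
    · intro v w hvw
      obtain ⟨g, h1, h2⟩ := cut v.1 w.1 hvw
      refine ⟨fun x => g x.1, h1, fun a b hab hg => ?_⟩
      rcases h2 a.1 b.1 hab hg with ⟨e1, e2⟩ | ⟨e1, e2⟩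
      · exact Or.inl ⟨Subtype.ext e1, Subtype.ext e2⟩
      · exact Or.inr ⟨Subtype.ext e1, Subtype.ext e2⟩
  have hTA : TAct H G := ⟨tree, fun h x y e => A_smul h _ _ e, fun h x y e hh =>
    noinv h x.1 y.1 e ⟨congrArg Subtype.val hh.1, congrArg Subtype.val hh.2⟩⟩
  have hV : FinOrb H (Set.univ : Set X') := Pool.Agent.SAF.FinOrb.of_inj finP (fun x => x.1)
    (fun x _ => x.2) (fun a _ b _ ⟨h, e⟩ => ⟨h, Subtype.ext e⟩)
  have hE : FinOrb H {p : X' × X' | G.Adj p.1 p.2} :=
    Pool.Agent.SAF.FinOrb.of_inj finA (fun p => (p.1.1, p.2.1)) (fun p hp => hp)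
      (fun a _ b _ ⟨h, e⟩ => ⟨h, Prod.ext (Subtype.ext (congrArg Prod.fst e))
        (Subtype.ext (congrArg Prod.snd e))⟩)
  have h1 := tree_mass hTA hV hE hC
  have h2 : mass H P = mass H (Set.univ : Set X') := by
    rw [← mass_image_inj (F := fun x : X' => x.1) hsm hV (fun _ _ _ => trivial)
      (fun a _ b _ e => Subtype.ext e)]
    congr 1
    ext x
    constructor
    · intro hx
      exact ⟨⟨x, hx⟩, trivial, rfl⟩
    · rintro ⟨y, -, rfl⟩
      exact y.2
  have h3 : mass H {p : X × X | A p.1 p.2} = mass H {p : X' × X' | G.Adj p.1 p.2} := by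
    rw [← mass_image_inj (F := fun p : X' × X' => (p.1.1, p.2.1)) (fun _ _ => rfl) hE
      (fun h p hp => A_smul h _ _ hp)
      (fun a _ b _ e => Prod.ext (Subtype.ext (congrArg Prod.fst e))
        (Subtype.ext (congrArg Prod.snd e)))]
    congr 1
    ext ⟨x, y⟩
    constructor
    · intro hx
      exact ⟨(⟨x, A_P _ _ hx⟩, ⟨y, A_P _ _ (A_symm _ _ hx)⟩), hx, rfl⟩
    · rintro ⟨⟨a, b⟩, hab, e⟩
      obtain ⟨rfl, rfl⟩ := Prod.mk.inj e
      exact hab
  rw [h2, h3, h1]

end Tree

end Pool.Agent.BT
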