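import Pool.Agent.BT.PClean
import Pool.Agent.BT.TM

/-!
# Pentagon complexes: the value of `-χ`, reductions which do not change it
-/

namespace Pool.Agent.BT

open MulAction
open Pool.Agent.SAF (InC orbs FinOrb oc Decomp SAn SA)

section MassExtra

variable {H X : Type} [Group H] [MulAction H X]

theorem mass_diff {s t : Set X} (hs : FinOrb H s) (hst : t ⊆ s)
    (htm : ∀ (h : H) (x : X), x ∈ t → h • x ∈ t) : mass H s = mass H t + mass H (s \ t) := by
  have h1 : s = t ∪ (s \ t) := (Set.union_sdiff_cancel hst).symm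
  conv_lhs => rw [h1]
  exact mass_union (SAF.FinOrb.mono hst hs) (SAF.FinOrb.mono Set.sdiff_subset hs) htm
    (fun x hx hx' => hx'.2 hx)

theorem mass_mono {s t : Set X} (hs : FinOrb H s) (hst : t ⊆ s)
    (htm : ∀ (h : H) (x : X), x ∈ t → h • x ∈ t) : mass H t ≤ mass H s := by
  rw [mass_diff hs hst htm]
  have := mass_nonneg (H := H) (s \ t)
  linarith

theorem wq_le_mass {s : Set X} (hs : FinOrb H s) {x : X} (hx : x ∈ s) : wq H x ≤ mass H s := by
  rw [mass_eq_sum hs, ← wq_out (H := H) x]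
  apply Finset.single_le_sum (f := fun q => wq H (Quotient.out q)) (fun q _ => wq_nonneg _)
  exact (Set.Finite.mem_toFinset _).2 ⟨x, hx, rfl⟩

theorem mem_of_mass_le {s t : Set X} (hs : FinOrb H s) (hst : t ⊆ s)
    (htm : ∀ (h : H) (x : X), x ∈ t → h • x ∈ t) (hle : mass H s ≤ mass H t) {x : X}
    (hx : x ∈ s) (hf : Finite ↥(stabilizer H x)) : x ∈ t := by
  by_contra hne
  have h1 := mass_diff hs hst htm
  have h2 := wq_le_mass (SAF.FinOrb.mono Set.sdiff_subset hs) (x := x) (s := s \ t) ⟨hx, hne⟩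
  have h3 : 0 < wq H x := iw_pos.2 hf
  linarith

end MassExtra

namespace PX

variable {H V V' : Type} [Group H] [MulAction H V] [MulAction H V']

theorem poles_finite (K : PX H V) (v : V) : {a | K.ar v a}.Finite := by
  by_cases h1 : ∃ a, K.ar v a
  · obtain ⟨a, ha⟩ := h1
    by_cases h2 : ∃ b, K.ar v b ∧ a ≠ b
    · obtain ⟨b, hb, hne⟩ := h2
      apply (Set.toFinite ({a, b} : Set V)).subset
      intro c hc
      rcases (⟨ha, hb, hne⟩ : K.Pol v a b).only hc with e | e
      · exact Or.inl e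
      · exact Or.inr e
    · push Not at h2
      apply (Set.finite_singleton a).subset
      intro c hc
      exact (h2 c hc).symm
  · push Not at h1
    have : {a | K.ar v a} = ∅ := by
      ext a
      simp only [Set.mem_ofPred_eq, Set.mem_empty_iff_false, iff_false]
      exact h1 a
    rw [this]
    exact Set.finite_empty

/-- the arrows -/
def AR (K : PX H V) : Set (V × V) := {p | K.ar p.1 p.2}

/-- the vertices with two poles -/
def O2 (K : PX H V) : Set V := {v | ∃ a b, K.Pol v a b}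

/-- the sinks -/
def SK (K : PX H V) : Set V := {v | K.Sink v}

theorem finAR (K : PX H V) : FinOrb H K.AR := by
  obtain ⟨F, hF, -, hc⟩ := SAF.FinOrb_iff.1 K.fin
  rw [SAF.FinOrb_iff]
  refine ⟨⋃ v ∈ F, (fun a => (v, a)) '' {a | K.ar v a},
    hF.biUnion (fun v _ => (K.poles_finite v).image _), ?_, ?_⟩
  · intro p hp
    simp only [Set.mem_iUnion] at hp
    obtain ⟨v, _, a, ha, rfl⟩ := hp
    exact ha
  · rintro ⟨v, a⟩ hva
    obtain ⟨w, hw, h, e⟩ := hc v trivial
    refine ⟨(w, h⁻¹ • a), ?_, h, ?_⟩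
    · simp only [Set.mem_iUnion]
      refine ⟨w, hw, h⁻¹ • a, ?_, rfl⟩
      have := K.ar_smul h⁻¹ _ _ hva
      rw [← e, inv_smul_smul] at this
      exact this
    · exact Prod.ext e (smul_inv_smul h a)

theorem AR_smul (K : PX H V) (h : H) (p : V × V) (hp : p ∈ K.AR) : h • p ∈ K.AR :=
  K.ar_smul h _ _ hp

theorem O2_smul (K : PX H V) (h : H) (v : V) (hv : v ∈ K.O2) : h • v ∈ K.O2 := by
  obtain ⟨a, b, p⟩ := hv
  exact ⟨_, _, p.smul h⟩

theorem SK_smul (K : PX H V) (h : H) (v : V) (hv : v ∈ K.SK) : h • v ∈ K.SK := by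
  intro a ha
  have := K.ar_smul h⁻¹ _ _ ha
  rw [inv_smul_smul] at this
  exact hv _ this

theorem mem_darts {K : PX H V} {p : V × V} : p ∈ K.hg.darts ↔ K.E p.1 p.2 :=
  ⟨fun h => h.1, fun h => ⟨h, h.ne⟩⟩

theorem fin_darts (K : PX H V) : FinOrb H K.hg.darts := by
  have h1 : FinOrb H ((fun p : V × V => (p.2, p.1)) '' K.AR) :=
    FinOrb.image_equi (F := fun p : V × V => (p.2, p.1)) (fun _ _ => rfl) K.finAR
  have h2 : K.hg.darts ⊆ K.AR ∪ (fun p : V × V => (p.2, p.1)) '' K.AR := by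
    rintro ⟨x, y⟩ hp
    rcases (mem_darts.1 hp) with h | h
    · exact Or.inl h
    · exact Or.inr ⟨(y, x), h, rfl⟩
  apply SAF.FinOrb.mono h2
  rw [SAF.FinOrb_iff] at h1 ⊢
  obtain ⟨F1, a1, a2, a3⟩ := SAF.FinOrb_iff.1 K.finAR
  obtain ⟨F2, b1, b2, b3⟩ := h1
  refine ⟨F1 ∪ F2, a1.union b1, Set.union_subset_union a2 b2, ?_⟩
  rintro y (hy | hy)
  · obtain ⟨f, hf, h⟩ := a3 y hy
    exact ⟨f, Or.inl hf, h⟩
  · obtain ⟨f, hf, h⟩ := b3 y hy
    exact ⟨f, Or.inr hf, h⟩

open Classical in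
/-- orientation of an edge -/
noncomputable def orn (K : PX H V) (p : V × V) : V × V := if K.ar p.1 p.2 then p else (p.2, p.1)

theorem orn_smul (K : PX H V) (h : H) (p : V × V) : K.orn (h • p) = h • K.orn p := by
  unfold orn
  by_cases hp : K.ar p.1 p.2
  · have h2 : K.ar (h • p).1 (h • p).2 := K.ar_smul h _ _ hp
    rw [if_pos hp, if_pos h2]
  · have h2 : ¬ K.ar (h • p).1 (h • p).2 := by
      intro h2
      apply hp
      have := K.ar_smul h⁻¹ _ _ h2
      simpa using this
    rw [if_neg hp, if_neg h2]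
    rfl

theorem mass_darts (K : PX H V) : mass H K.hg.darts = 2 * mass H K.AR := by
  have hno : ∀ x y, K.ar x y → ¬ K.ar y x := fun x y h h' =>
    absurd (K.ar_rk _ _ h) (not_lt.2 (K.ar_rk _ _ h').le)
  have himg : K.orn '' K.hg.darts = K.AR := by
    ext p
    constructor
    · rintro ⟨q, hq, rfl⟩
      unfold orn
      by_cases hp : K.ar q.1 q.2
      · rw [if_pos hp]; exact hp
      · rw [if_neg hp]
        exact (mem_darts.1 hq).resolve_left hp
    · intro hp
      refine ⟨p, mem_darts.2 (Or.inl hp), ?_⟩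
      unfold orn
      exact if_pos hp
  have hcase : ∀ p ∈ K.hg.darts, K.orn p = p ∨ K.orn p = (p.2, p.1) := by
    intro p _
    unfold orn
    by_cases hp : K.ar p.1 p.2
    · left; exact if_pos hp
    · right; exact if_neg hp
  have key := mass_fiber (F := K.orn) K.orn_smul K.fin_darts
    (fun h p hp => mem_darts.2 (K.E_smul h (mem_darts.1 hp))) Set.univ
    (by
      rintro ⟨x, y⟩ ha _
      have hE := mem_darts.1 ha
      refine ⟨(y, x), mem_darts.2 hE.symm, ?_, ?_, ?_⟩
      · intro e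
        exact hE.ne (congrArg Prod.fst e)
      · unfold orn
        rcases hE with h | h
        · rw [if_pos h, if_neg (hno _ _ h)]
        · rw [if_pos h, if_neg (hno _ _ h)]
      · rintro ⟨u, v⟩ hc e
        have h1 := hcase _ hc
        have h2 := hcase _ ha
        rw [e] at h1
        simp only at h1 h2
        rcases h1 with h1 | h1 <;> rcases h2 with h2 | h2 <;> rw [h2] at h1 <;>
          simp only [Prod.mk.injEq] at h1 ⊢ <;> obtain ⟨rfl, rfl⟩ := h1 <;> simp)
    (fun a _ h => absurd trivial h)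
  rw [himg, Set.univ_inter] at key
  rw [key]; ring

theorem mass_AR (K : PX H V) : mass H K.AR = mass H (Set.univ : Set V) - mass H K.SK +
    mass H K.O2 := by
  have himg : (Prod.fst : V × V → V) '' K.AR = Set.univ \ K.SK := by
    ext v
    constructor
    · rintro ⟨⟨v, a⟩, h, rfl⟩
      exact ⟨trivial, fun hs => hs a h⟩
    · rintro ⟨-, hs⟩
      have : ∃ a, K.ar v a := by
        by_contra hcon
        push Not at hcon
        exact hs hcon
      obtain ⟨a, ha⟩ := this
      exact ⟨(v, a), ha, rfl⟩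
  have key := mass_fiber (F := (Prod.fst : V × V → V)) (fun _ _ => rfl) K.finAR K.AR_smul K.O2
    (by
      rintro ⟨v, c⟩ hc ⟨a, b, p⟩
      have hc : K.ar v c := hc
      have p : K.Pol v a b := p
      rcases p.only hc with rfl | rfl
      · refine ⟨(v, b), p.pb, fun e => p.ne (congrArg Prod.snd e), rfl, ?_⟩
        rintro ⟨w, d⟩ hd e
        have e : w = v := e
        subst e
        rcases p.only hd with rfl | rfl
        · exact Or.inl rfl
        · exact Or.inr rfl
      · refine ⟨(v, a), p.pa, fun e => p.ne (congrArg Prod.snd e).symm, rfl, ?_⟩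
        rintro ⟨w, d⟩ hd e
        have e : w = v := e
        subst e
        rcases p.only hd with rfl | rfl
        · exact Or.inr rfl
        · exact Or.inl rfl)
    (by
      rintro ⟨v, a⟩ ha hn ⟨w, b⟩ hb e
      have e : w = v := e
      subst e
      by_contra hne
      exact hn ⟨a, b, ha, hb, fun e => hne (by rw [e])⟩)
  have h1 : K.O2 ∩ (Set.univ \ K.SK) = K.O2 := by
    ext v
    constructor
    · exact fun h => h.1
    · rintro ⟨a, b, p⟩
      exact ⟨⟨a, b, p⟩, trivial, fun hs => hs a p.pa⟩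
  have h2 := mass_diff (s := (Set.univ : Set V)) K.fin (Set.subset_univ K.SK) K.SK_smul
  rw [himg, h1] at key
  rw [key]
  linarith

/-- `-χ` of the graph of a pentagon complex -/
theorem bb_eq (K : PX H V) : K.hg.bb = mass H K.O2 - mass H K.SK := by
  unfold HG.bb
  rw [K.mass_darts, K.mass_AR]
  ring

end PX

section

variable {H V V' : Type} [Group H] [MulAction H V] [MulAction H V']

open PX

theorem Red.mass_SK {K : PX H V} {K' : PX H V'} {f : V → V'} (r : Red K K' f) :
    mass H K'.SK = mass H K.SK := by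
  have h1 : f '' K.SK = K'.SK := by
    ext c
    constructor
    · rintro ⟨v, hv, rfl⟩
      exact r.sink v hv
    · intro hc
      obtain ⟨v, hv, e⟩ := r.ssurj c hc
      exact ⟨v, hv, e⟩
  rw [← h1]
  exact mass_image_inj r.equi (SAF.FinOrb.mono (Set.subset_univ _) K.fin) K.SK_smul
    (fun a ha b hb e => r.sinj a b ha hb e)

/-- `-χ` does not go up under a reduction; if it stays equal then light vertices with two poles
are not touched -/
theorem Red.bb {K : PX H V} {K' : PX H V'} {f : V → V'} (r : Red K K' f) :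
    K'.hg.bb ≤ K.hg.bb ∧ (K.hg.bb ≤ K'.hg.bb → ∀ v, v ∈ K.O2 → Finite ↥(stabilizer H v) →
      f v ∈ K'.O2 ∧ (∀ h : H, h • f v = f v → h • v = v) ∧
      (∀ w, w ∈ K.O2 → f w ∈ K'.O2 → f w = f v → w = v) ∧
      ∀ d, K'.ar (f v) d ↔ ∃ w, K.ar v w ∧ f w = d) := by
  set S : Set V := {v | v ∈ K.O2 ∧ f v ∈ K'.O2} with hS
  have hSsub : S ⊆ K.O2 := fun _ h => h.1
  have hfin2 : FinOrb H K.O2 := SAF.FinOrb.mono (Set.subset_univ _) K.fin
  have hfinS : FinOrb H S := SAF.FinOrb.mono hSsub hfin2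
  have hSm : ∀ (h : H) (x : V), x ∈ S → h • x ∈ S := by
    rintro h x ⟨h1, h2⟩
    refine ⟨K.O2_smul h x h1, ?_⟩
    rw [r.equi]
    exact K'.O2_smul h _ h2
  have hrep : ∀ c ∈ K'.O2, ∃ v ∈ S, f v = c ∧ ∀ d, K'.ar c d ↔ ∃ w, K.ar v w ∧ f w = d := by
    intro c hc
    obtain ⟨v, rfl, hv⟩ := r.rep c
    obtain ⟨a, b, p⟩ := hc
    obtain ⟨a', h1, h2⟩ := (hv a).1 p.pa
    obtain ⟨b', h3, h4⟩ := (hv b).1 p.pb
    refine ⟨v, ⟨⟨a', b', h1, h3, fun e => p.ne (by rw [← h2, ← h4, e])⟩, ⟨a, b, p⟩⟩, rfl, hv⟩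
  have himg : f '' S = K'.O2 := by
    ext c
    constructor
    · rintro ⟨v, hv, rfl⟩
      exact hv.2
    · intro hc
      obtain ⟨v, hv, e, -⟩ := hrep c hc
      exact ⟨v, hv, e⟩
  have h1 : mass H (f '' S) ≤ mass H S := mass_image_le r.equi hfinS
  have h2 : mass H S ≤ mass H K.O2 := mass_mono hfin2 hSsub hSm
  rw [himg] at h1
  have h3 := r.mass_SK
  constructor
  · rw [K.bb_eq, K'.bb_eq, h3]
    linarith
  · intro hle v hv hf
    rw [K.bb_eq, K'.bb_eq, h3] at hle
    have hvS : v ∈ S := mem_of_mass_le hfin2 hSsub hSm (by linarith) hv hf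
    have huniq : ∀ w ∈ S, f w = f v → w = v := by
      intro w hw e
      exact (eq_of_mass_eq r.equi hfinS (by rw [himg]; linarith) hvS hw e.symm hf).1.symm
    refine ⟨hvS.2, ?_, ?_, ?_⟩
    · intro h e
      apply huniq _ (hSm h v hvS)
      rw [r.equi, e]
    · intro w hw hw' e
      exact huniq w ⟨hw, hw'⟩ e
    · obtain ⟨w, hw, e, hd⟩ := hrep _ hvS.2
      rw [huniq w hw e] at hd
      exact hd

end

end Pool.Agent.BT
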