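import Pool.Agent.BT.LemZ
import Pool.Agent.BT.Ax
import Pool.Agent.BT.LineC
import Pool.Agent.BT.PNeut
import Pool.Agent.SAF.A30
import Pool.Agent.SAF.A16

/-!
# BT: the quotient by the line arrows; vertices with poles are elliptic
-/

namespace Pool.Agent.BT

open MulAction
open Pool.Agent.SAF (InC orbs FinOrb oc Decomp SAn SA Conv hull TAct FinOrb_iff exists_equivariant)

section Quot

variable {H V V' : Type} [Group H] [MulAction H V] [MulAction H V']

/-- the data for a quotient pre-complex -/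
structure QP (K : PX H V) (f : V → V') where
  ar : V' → V' → Prop
  rk : V' → ℕ
  equi : ∀ (h : H) (x : V), f (h • x) = h • f x
  surj : Function.Surjective f
  ar_rk : ∀ v a, ar v a → rk a < rk v
  ar_smul : ∀ (h : H) (v a : V'), ar v a → ar (h • v) (h • a)
  rk_smul : ∀ (h : H) (v : V'), rk (h • v) = rk v
  two : ∀ v a b c, ar v a → ar v b → ar v c → a = b ∨ b = c ∨ a = c
  e1 : ∀ x y, K.E x y → f x = f y ∨ (ar (f x) (f y) ∨ ar (f y) (f x))
  e2 : ∀ c d, (ar c d ∨ ar d c) → ∃ x y, K.E x y ∧ f x = c ∧ f y = d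
  mg : ∀ x y, f x = f y → Mg K.hg f x y

/-- the quotient complex -/
noncomputable def QP.px {K : PX H V} {f : V → V'} (Q : QP K f) : PQ H V' where
  ar := Q.ar
  rk := Q.rk
  I := {i : K.I // ∀ j, f (K.pt i j) ≠ f (K.pt i (j + 1))}
  finI := by
    have := K.finI
    infer_instance
  pt := fun i j => f (K.pt i.1 j)
  ar_rk := Q.ar_rk
  ar_smul := Q.ar_smul
  rk_smul := Q.rk_smul
  two := Q.two
  pt_E := fun i j => (Q.e1 _ _ (K.pt_E i.1 j)).resolve_left (i.2 j)
  ne := K.ne.map f
  conn := by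
    intro c d
    obtain ⟨x, rfl⟩ := Q.surj c
    obtain ⟨y, rfl⟩ := Q.surj d
    have := K.conn x y
    induction this with
    | refl => exact Relation.ReflTransGen.refl
    | tail _ e ih =>
      rcases Q.e1 _ _ e with h | h
      · rw [← h]; exact ih
      · exact ih.tail h
  H1 := by
    intro φ hs h4 h3 hp
    obtain ⟨g, hg⟩ := K.H1 (fun x y => lz φ (f x) (f y)) (fun x y => lz_symm φ hs _ _)
      (fun x y z w e1 e2 e3 e4 => lz4 (E := fun a b => Q.ar a b ∨ Q.ar b a) hs h3
        h4 (Q.e1 _ _ e1) (Q.e1 _ _ e2) (Q.e1 _ _ e3) (Q.e1 _ _ e4))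
      (fun x y z e1 e2 e3 => lz3 (E := fun a b => Q.ar a b ∨ Q.ar b a) hs h3
        (Q.e1 _ _ e1) (Q.e1 _ _ e2) (Q.e1 _ _ e3))
      (fun i h => by
        by_cases hi : ∀ j, f (K.pt i j) ≠ f (K.pt i (j + 1))
        · have := hp ⟨i, hi⟩ h
          rw [← this]
          apply Finset.sum_congr rfl
          intro j _
          rw [Q.equi, Q.equi]
          apply lz_ne
          intro e
          exact hi j (smul_left_cancel h e)
        · push Not at hi
          obtain ⟨j, hj⟩ := hi
          apply lz5 (E := fun a b => Q.ar a b ∨ Q.ar b a) hs h3 h4 (fun j => f (h • K.pt i j))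
          · intro j
            exact Q.e1 _ _ (K.E_smul h (K.pt_E i j))
          · exact ⟨j, by rw [Q.equi, Q.equi, hj]⟩)
    have hc : ∀ x y, f x = f y → g x = g y := by
      intro x y e
      have := (mg_const Q.equi (fun x y e => hg x y e) (Q.mg x y e) 1).1
      rwa [one_smul, one_smul] at this
    choose r hr using Q.surj
    refine ⟨fun c => g (r c), ?_⟩
    intro c d e
    obtain ⟨x, y, exy, rfl, rfl⟩ := Q.e2 c d e
    have h1 := hg x y exy
    have h2 : f x ≠ f y := by
      intro h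
      rw [h] at e
      rcases e with e | e
      · exact absurd (Q.ar_rk _ _ e) (lt_irrefl _)
      · exact absurd (Q.ar_rk _ _ e) (lt_irrefl _)
    simp only [lz_ne φ h2] at h1
    show φ (f x) (f y) = g (r (f x)) + g (r (f y))
    rw [h1, hc (r (f x)) x (hr _), hc (r (f y)) y (hr _)]
  fin := by
    apply SAF.FinOrb.image K.fin f
    · intro b _
      obtain ⟨x, rfl⟩ := Q.surj b
      exact ⟨x, trivial, 1, one_smul _ _⟩
    · rintro a _ _ _ ⟨h, rfl⟩
      exact ⟨h, (Q.equi h a).symm⟩

theorem QP.card_le {K : PX H V} {f : V → V'} (Q : QP K f) : Q.px.A ≤ K.A := by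
  have := K.finI
  exact Nat.card_le_card_of_injective (fun i : Q.px.I => i.1) Subtype.val_injective

theorem QP.card_lt {K : PX H V} {f : V → V'} (Q : QP K f) {x y : V} (h : K.InP x y)
    (e : f x = f y) : Q.px.A < K.A := by
  have := K.finI
  obtain ⟨g, i, j, hh⟩ := h
  have hi : ¬ ∀ j, f (K.pt i j) ≠ f (K.pt i (j + 1)) := by
    intro hall
    apply hall j
    rcases hh with ⟨rfl, rfl⟩ | ⟨rfl, rfl⟩
    · rw [Q.equi, Q.equi] at e
      exact smul_left_cancel g e
    · rw [Q.equi, Q.equi] at e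
      exact (smul_left_cancel g e).symm
  exact Finite.card_subtype_lt hi

end Quot

/-! ### Hyperbolic vertices -/

section Hyp

variable {H X : Type} [Group H] [MulAction H X] {G : SimpleGraph X}

theorem Hyp.mono {A B : Subgroup H} (h : A ≤ B) (hA : Hyp X A) : Hyp X B := by
  intro w
  obtain ⟨a, ha, e⟩ := hA w
  exact ⟨a, h ha, e⟩

variable {V : Type} [MulAction H V]

theorem mem_stab_conj {h k : H} {x : V} : k ∈ stabilizer H (h • x) ↔
    h⁻¹ * k * h ∈ stabilizer H x := by
  rw [mem_stabilizer_iff, mem_stabilizer_iff, mul_smul, mul_smul]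
  constructor
  · intro e; rw [e, inv_smul_smul]
  · intro e
    have := congrArg (fun y => h • y) e
    simpa using this

theorem hyp_smul (h : H) (x : V) (hx : Hyp X (stabilizer H x)) :
    Hyp X (stabilizer H (h • x)) := by
  intro w
  obtain ⟨a, ha, e⟩ := hx (h⁻¹ • w)
  refine ⟨h * a * h⁻¹, ?_, ?_⟩
  · rw [mem_stab_conj]
    have : h⁻¹ * (h * a * h⁻¹) * h = a := by group
    rw [this]; exact ha
  · intro e2
    apply e
    rw [mul_smul, mul_smul] at e2
    have := congrArg (fun y => h⁻¹ • y) e2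
    simpa using this

theorem hyp_smul_iff (h : H) (x : V) : Hyp X (stabilizer H (h • x)) ↔ Hyp X (stabilizer H x) := by
  constructor
  · intro hh
    have := hyp_smul h⁻¹ (h • x) hh
    rwa [inv_smul_smul] at this
  · exact hyp_smul h x

theorem mst_smul (hG : TAct H G) (h : H) (x : V) {w : X} (hw : w ∈ mst G (stabilizer H x)) :
    h • w ∈ mst G (stabilizer H (h • x)) := by
  intro C hC hne hinv
  have h1 : w ∈ {u | h • u ∈ C} := by
    apply hw
    · intro a ha b hb u hu
      apply hC _ ha _ hb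
      rw [hG.dist_smul, hG.dist_smul, hG.dist_smul]
      exact hu
    · obtain ⟨c, hc⟩ := hne
      refine ⟨h⁻¹ • c, ?_⟩
      show h • h⁻¹ • c ∈ C
      rwa [smul_inv_smul]
    · intro a ha c hc
      show h • a • c ∈ C
      have := hinv (h * a * h⁻¹) (by
        rw [mem_stab_conj]
        have : h⁻¹ * (h * a * h⁻¹) * h = a := by group
        rw [this]; exact ha) _ hc
      rw [mul_smul, mul_smul, inv_smul_smul] at this
      exact this
  exact h1

theorem mst_inv (A : Subgroup H) {a : H} (ha : a ∈ A) {w : X} (hw : w ∈ mst G A) :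
    a • w ∈ mst G A := by
  intro C hC hne hinv
  exact hinv a ha _ (hw C hC hne hinv)

end Hyp

/-! ### The line arrows -/

section Line

variable {H V : Type} [Group H] [MulAction H V] (K : PX H V) (D : Decomp H)

theorem tact (D : Decomp H) : TAct H D.G := ⟨D.tree, D.adj_smul, D.noinv⟩

/-- hyperbolic vertices -/
def hyv (x : V) : Prop := Hyp D.X (stabilizer H x)

theorem hyv_smul (h : H) (x : V) : hyv D (h • x) ↔ hyv D x := hyp_smul_iff h x

variable {K D}

/-- the stabiliser of an arrow has finite index in the stabiliser of its source -/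
theorem arrow_index {x a : V} (ha : K.ar x a) :
    ((stabilizer H x ⊓ stabilizer H a).subgroupOf (stabilizer H x)).FiniteIndex := by
  have h1 : (stabilizer H x ⊓ stabilizer H a).subgroupOf (stabilizer H x) =
      stabilizer ↥(stabilizer H x) a := by
    ext k
    rw [Subgroup.mem_subgroupOf]
    constructor
    · rintro ⟨-, h2⟩
      exact h2
    · intro h2
      exact ⟨k.2, h2⟩
  rw [h1]
  have hfin : Finite (orbit ↥(stabilizer H x) a) := by
    have h2 : orbit ↥(stabilizer H x) a ⊆ {b | K.ar x b} := by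
      rintro _ ⟨k, rfl⟩
      have := K.ar_smul k.1 x a ha
      rw [show k.1 • x = x from k.2] at this
      exact this
    exact ((K.poles_finite x).subset h2).to_subtype
  have h3 : (stabilizer ↥(stabilizer H x) a).index ≠ 0 := by
    rw [Subgroup.index, Nat.card_congr (orbitEquivQuotientStabilizer ↥(stabilizer H x) a).symm]
    exact Nat.card_ne_zero.2 ⟨⟨⟨a, mem_orbit_self a⟩⟩, hfin⟩
  exact ⟨h3⟩

theorem hyv_pole {x a : V} (ha : K.ar x a) (hx : hyv D x) :
    hyv D a ∧ mst D.G (stabilizer H a) = mst D.G (stabilizer H x) := by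
  have h1 : Hyp D.X (stabilizer H x ⊓ stabilizer H a) :=
    (hyp_iff_of_index (tact D) inf_le_left (arrow_index ha)).2 hx
  exact ⟨h1.mono inf_le_right, (axis_mono (tact D) (K.stab a) inf_le_right h1).symm.trans
    (axis_mono (tact D) (K.stab x) inf_le_left h1)⟩

variable (K D)

/-- the relation generated by the line arrows -/
def lst : Setoid V := Relation.EqvGen.setoid (fun x a => K.ar x a ∧ hyv D x)

/-- the quotient -/
def LQ : Type := Quotient (lst K D)

/-- the class of a vertex -/
def lq (x : V) : LQ K D := Quotient.mk (lst K D) x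

variable {K D}

theorem lst_smul (h : H) {x y : V} (e : lst K D x y) : lst K D (h • x) (h • y) := by
  induction e with
  | rel x y e => exact Relation.EqvGen.rel _ _ ⟨K.ar_smul h _ _ e.1, (hyv_smul D h x).2 e.2⟩
  | refl x => exact Relation.EqvGen.refl _
  | symm x y _ ih => exact Relation.EqvGen.symm _ _ ih
  | trans x y z _ _ ih1 ih2 => exact Relation.EqvGen.trans _ _ _ ih1 ih2

theorem lst_cases {x y : V} (e : lst K D x y) : x = y ∨ (hyv D x ∧ hyv D y ∧
    mst D.G (stabilizer H x) = mst D.G (stabilizer H y)) := by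
  induction e with
  | rel x y e => exact Or.inr ⟨e.2, (hyv_pole e.1 e.2).1, (hyv_pole e.1 e.2).2.symm⟩
  | refl x => exact Or.inl rfl
  | symm x y _ ih =>
    rcases ih with rfl | ⟨h1, h2, h3⟩
    · exact Or.inl rfl
    · exact Or.inr ⟨h2, h1, h3.symm⟩
  | trans x y z _ _ ih1 ih2 =>
    rcases ih1 with rfl | ⟨h1, h2, h3⟩
    · exact ih2
    · rcases ih2 with rfl | ⟨h4, h5, h6⟩
      · exact Or.inr ⟨h1, h2, h3⟩
      · exact Or.inr ⟨h1, h5, h3.trans h6⟩

instance actLQ : MulAction H (LQ K D) where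
  smul h := Quotient.map (fun p => h • p) (fun _ _ e => lst_smul h e)
  one_smul l := by
    induction l using Quotient.inductionOn with
    | h p => exact congrArg (Quotient.mk (lst K D)) (one_smul H p)
  mul_smul a b l := by
    induction l using Quotient.inductionOn with
    | h p => exact congrArg (Quotient.mk (lst K D)) (mul_smul a b p)

theorem lq_smul (h : H) (x : V) : lq K D (h • x) = h • lq K D x := rfl

theorem lq_eq {x y : V} : lq K D x = lq K D y ↔ lst K D x y :=
  ⟨fun h => Quotient.exact h, fun h => Quotient.sound h⟩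

theorem lq_surj : Function.Surjective (lq K D) := Quotient.mk_surjective

theorem lq_inj {x y : V} (hx : ¬ hyv D x) (e : lq K D x = lq K D y) : x = y := by
  rcases lst_cases (lq_eq.1 e) with h | h
  · exact h
  · exact absurd h.1 hx

open Classical in
/-- the rank -/
noncomputable def lrk (K : PX H V) (D : Decomp H) : LQ K D → ℕ :=
  Quotient.lift (fun x => if hyv D x then 0 else K.rk x + 1) (by
    intro x y e
    rcases lst_cases e with h | ⟨h1, h2, -⟩
    · rw [h]
    · show (if hyv D x then 0 else K.rk x + 1) = (if hyv D y then 0 else K.rk y + 1)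
      rw [if_pos h1, if_pos h2])

theorem lrk_pos {x : V} (hx : ¬ hyv D x) : lrk K D (lq K D x) = K.rk x + 1 := if_neg hx

theorem lrk_zero {x : V} (hx : hyv D x) : lrk K D (lq K D x) = 0 := if_pos hx

theorem lrk_le (x : V) : lrk K D (lq K D x) ≤ K.rk x + 1 := by
  by_cases hx : hyv D x
  · rw [lrk_zero hx]; omega
  · rw [lrk_pos hx]

/-- the arrows of the quotient -/
def lar (K : PX H V) (D : Decomp H) (X Y : LQ K D) : Prop :=
  ∃ x y, lq K D x = X ∧ lq K D y = Y ∧ K.ar x y ∧ ¬ hyv D x

theorem lar_iff {x : V} {Y : LQ K D} (h : lar K D (lq K D x) Y) :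
    ¬ hyv D x ∧ ∃ y, K.ar x y ∧ lq K D y = Y := by
  obtain ⟨x', y, e1, e2, h1, h2⟩ := h
  have := lq_inj h2 e1
  subst this
  exact ⟨h2, y, h1, e2⟩

/-- the quotient by the line arrows -/
noncomputable def lQP (K : PX H V) (D : Decomp H) : QP K (lq K D) where
  ar := lar K D
  rk := lrk K D
  equi := fun h x => rfl
  surj := lq_surj
  ar_rk := by
    rintro _ _ ⟨x, y, rfl, rfl, h1, h2⟩
    rw [lrk_pos h2]
    have := K.ar_rk _ _ h1
    have := lrk_le (K := K) (D := D) y
    omega
  ar_smul := by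
    rintro h _ _ ⟨x, y, rfl, rfl, h1, h2⟩
    exact ⟨h • x, h • y, rfl, rfl, K.ar_smul h _ _ h1, fun hh => h2 ((hyv_smul D h x).1 hh)⟩
  rk_smul := by
    intro h v
    obtain ⟨x, rfl⟩ := lq_surj v
    rw [← lq_smul]
    by_cases hx : hyv D x
    · rw [lrk_zero hx, lrk_zero ((hyv_smul D h x).2 hx)]
    · rw [lrk_pos hx, lrk_pos (fun hh => hx ((hyv_smul D h x).1 hh)), K.rk_smul]
  two := by
    intro v a b c h1 h2 h3
    obtain ⟨x, rfl⟩ := lq_surj v
    obtain ⟨-, a', ha, rfl⟩ := lar_iff h1
    obtain ⟨-, b', hb, rfl⟩ := lar_iff h2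
    obtain ⟨-, c', hc, rfl⟩ := lar_iff h3
    rcases K.two _ _ _ _ ha hb hc with e | e | e
    · exact Or.inl (by rw [e])
    · exact Or.inr (Or.inl (by rw [e]))
    · exact Or.inr (Or.inr (by rw [e]))
  e1 := by
    have key : ∀ x y, K.ar x y → lq K D x = lq K D y ∨ lar K D (lq K D x) (lq K D y) := by
      intro x y h
      by_cases hx : hyv D x
      · exact Or.inl (lq_eq.2 (Relation.EqvGen.rel _ _ ⟨h, hx⟩))
      · exact Or.inr ⟨x, y, rfl, rfl, h, hx⟩
    rintro x y (h | h)
    · rcases key _ _ h with e | e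
      · exact Or.inl e
      · exact Or.inr (Or.inl e)
    · rcases key _ _ h with e | e
      · exact Or.inl e.symm
      · exact Or.inr (Or.inr e)
  e2 := by
    rintro c d (⟨x, y, rfl, rfl, h1, h2⟩ | ⟨x, y, rfl, rfl, h1, h2⟩)
    · exact ⟨x, y, Or.inl h1, rfl, rfl⟩
    · exact ⟨y, x, Or.inr h1, rfl, rfl⟩
  mg := by
    intro x y e
    have e' := lq_eq.1 e
    induction e' with
    | rel x y h => exact Mg.adj _ _ e (Or.inl h.1)
    | refl x => exact Mg.refl _
    | symm x y _ ih => exact Mg.symm _ _ (ih e.symm)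
    | trans x y z h1 h2 ih1 ih2 =>
      exact Mg.trans _ _ _ (ih1 (lq_eq.2 h1)) (ih2 (lq_eq.2 h2))

/-! ### Subtrees for the quotient -/

theorem conv_single {X : Type} {G : SimpleGraph X} (hG : G.IsTree) (q : X) : Conv G {q} := by
  intro a ha b hb w hw
  rw [Set.mem_singleton_iff] at ha hb
  subst ha hb
  rw [SimpleGraph.dist_self] at hw
  have h0 : G.dist b w = 0 := by omega
  exact ((hG.1.preconnected b w).dist_eq_zero_iff.1 h0).symm

/-- fixed points of the elliptic classes -/
theorem exists_lqq (K : PX H V) (D : Decomp H) : ∃ q : LQ K D → D.X,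
    ∀ (h : H) (x : V), ¬ hyv D x → q (h • lq K D x) = h • q (lq K D x) := by
  obtain ⟨d⟩ := D.tree.1.nonempty
  obtain ⟨c, hc1, hc2⟩ := exists_equivariant (H := H) (Y := LQ K D) (Z := Option D.X)
    (fun X z => ∀ x, lq K D x = X → ¬ hyv D x → z ≠ none) (by
      intro h X z hp x hx hn e
      apply hp (h⁻¹ • x) _ (fun hh => hn ((hyv_smul D h⁻¹ x).1 hh))
      · cases z with
        | none => rfl
        | some w => exact absurd e (by simp)
      · rw [lq_smul, hx, inv_smul_smul]) (by
      intro X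
      obtain ⟨x, rfl⟩ := lq_surj X
      by_cases hx : hyv D x
      · refine ⟨none, ?_, fun h _ => rfl⟩
        intro y hy hn
        exfalso
        apply hn
        have := lq_inj hn hy
        rwa [this]
      · have hx' := hx
        unfold hyv Hyp at hx'
        push Not at hx'
        obtain ⟨w, hw⟩ := hx'
        refine ⟨some w, fun _ _ _ => by simp, ?_⟩
        intro h hh
        rw [← lq_smul] at hh
        have h1 := lq_inj hx hh.symm
        show some (h • w) = some w
        rw [hw h h1.symm])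
  refine ⟨fun X => (c X).getD d, ?_⟩
  intro h x hx
  show (c (h • lq K D x)).getD d = h • (c (lq K D x)).getD d
  rw [hc2]
  have h1 := hc1 (lq K D x) x rfl hx
  cases hcx : c (lq K D x) with
  | none => exact absurd hcx h1
  | some w => rfl

/-- the subtrees of the sinks -/
def lL (K : PX H V) (D : Decomp H) (q : LQ K D → D.X) (X : LQ K D) : Set D.X :=
  {w | ∃ x, lq K D x = X ∧ ((hyv D x ∧ w ∈ mst D.G (stabilizer H x)) ∨ (¬ hyv D x ∧ w = q X))}

theorem lL_hyp (q : LQ K D → D.X) {x : V} (hx : hyv D x) :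
    lL K D q (lq K D x) = mst D.G (stabilizer H x) := by
  ext w
  constructor
  · rintro ⟨y, hy, ⟨h1, h2⟩ | ⟨h1, -⟩⟩
    · rcases lst_cases (lq_eq.1 hy) with rfl | ⟨-, -, h3⟩
      · exact h2
      · rwa [h3] at h2
    · exact absurd (lq_inj h1 hy ▸ hx) h1
  · intro hw
    exact ⟨x, rfl, Or.inl ⟨hx, hw⟩⟩

theorem lL_ell (q : LQ K D → D.X) {x : V} (hx : ¬ hyv D x) :
    lL K D q (lq K D x) = {q (lq K D x)} := by
  ext w
  constructor
  · rintro ⟨y, hy, ⟨h1, h2⟩ | ⟨-, h2⟩⟩
    · have := lq_inj hx hy.symm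
      subst this
      exact absurd h1 hx
    · exact h2
  · intro hw
    exact ⟨x, rfl, Or.inr ⟨hx, hw⟩⟩

theorem lqdat (K : PX H V) (D : Decomp H) (q : LQ K D → D.X)
    (hq : ∀ (h : H) (x : V), ¬ hyv D x → q (h • lq K D x) = h • q (lq K D x)) :
    QDat (lQP K D).px D (lL K D q) q where
  L_conv := by
    intro X _
    obtain ⟨x, rfl⟩ := lq_surj X
    by_cases hx : hyv D x
    · rw [lL_hyp q hx]
      exact (axis (tact D) _ (K.stab x) hx).1
    · rw [lL_ell q hx]
      exact conv_single D.tree _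
  L_ne := by
    intro X _
    obtain ⟨x, rfl⟩ := lq_surj X
    by_cases hx : hyv D x
    · rw [lL_hyp q hx]
      exact (axis (tact D) _ (K.stab x) hx).2.1
    · rw [lL_ell q hx]
      exact Set.singleton_nonempty _
  L_two := by
    intro X _
    obtain ⟨x, rfl⟩ := lq_surj X
    by_cases hx : hyv D x
    · rw [lL_hyp q hx]
      exact (axis (tact D) _ (K.stab x) hx).2.2.1
    · rw [lL_ell q hx]
      rintro w hw a b c h1 - - ha - -
      rw [Set.mem_singleton_iff] at hw ha
      rw [hw, ha] at h1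
      exact absurd h1 (D.G.loopless.irrefl _)
  L_smul := by
    intro h X w hw
    obtain ⟨x, rfl⟩ := lq_surj X
    by_cases hx : hyv D x
    · rw [lL_hyp q hx] at hw
      rw [← lq_smul, lL_hyp q ((hyv_smul D h x).2 hx)]
      exact mst_smul (tact D) h x hw
    · rw [lL_ell q hx] at hw
      rw [← lq_smul, lL_ell q (fun hh => hx ((hyv_smul D h x).1 hh)), lq_smul, hq h x hx]
      rw [Set.mem_singleton_iff] at hw
      rw [hw]
      rfl
  L_fin := by
    intro X _
    obtain ⟨x, rfl⟩ := lq_surj X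
    by_cases hx : hyv D x
    · rw [lL_hyp q hx]
      obtain ⟨F, hF, hFs, hF2⟩ := FinOrb_iff.1 (axis (tact D) _ (K.stab x) hx).2.2.2
      refine FinOrb_iff.2 ⟨F, hF, hFs, ?_⟩
      intro y hy
      obtain ⟨r, hr, g, hg⟩ := hF2 y hy
      refine ⟨r, hr, ⟨g.1, ?_⟩, hg⟩
      rw [mem_stabilizer_iff, ← lq_smul, show g.1 • x = x from g.2]
    · rw [lL_ell q hx]
      refine FinOrb_iff.2 ⟨{q (lq K D x)}, Set.finite_singleton _, subset_rfl, ?_⟩
      intro y hy
      exact ⟨y, hy, 1, one_smul _ _⟩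
  q_smul := by
    rintro h X ⟨a, ha⟩
    obtain ⟨x, rfl⟩ := lq_surj X
    exact hq h x (lar_iff ha).1

/-- the stabilisers in the slices -/
theorem lq_stab (K : PX H V) (D : Decomp H) (q : LQ K D → D.X)
    (hq : ∀ (h : H) (x : V), ¬ hyv D x → q (h • lq K D x) = h • q (lq K D x))
    {J : LQ K D → Set D.X} (hJ : IsJQ (lQP K D).px D (lL K D q) q J) (X : LQ K D) (w : D.X)
    (hw : w ∈ J X) : InC ↥(stabilizer H X ⊓ stabilizer H w) := by
  obtain ⟨x, rfl⟩ := lq_surj X
  by_cases hx : hyv D x
  · have h1 : J (lq K D x) = mst D.G (stabilizer H x) := by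
      rw [hJ.sink _ (fun a ha => (lar_iff ha).1 hx), lL_hyp q hx]
    rw [h1] at hw
    obtain ⟨c1, -, c3, -⟩ := axis (tact D) _ (K.stab x) hx
    obtain ⟨a, ha, hne⟩ := hx w
    have haw := mst_inv (G := D.G) _ ha hw
    obtain ⟨w', e1, e2⟩ := SAF.exists_next D.tree (Ne.symm hne)
    have hw' : w' ∈ mst D.G (stabilizer H x) := by
      apply c1 _ hw _ haw
      rw [e2, (SimpleGraph.dist_eq_one_iff_adj).2 e1]
      omega
    refine inC_of_line D (stabilizer H (lq K D x)) c1 c3 ?_ hw hw' e1
    intro b hb u hu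
    have := (lqdat K D q hq).L_smul b (lq K D x) u (by rw [lL_hyp q hx]; exact hu)
    rw [show b • lq K D x = lq K D x from hb, lL_hyp q hx] at this
    exact this
  · apply SAG.InC.mono _ (K.stab x)
    rintro h ⟨h1, -⟩
    have h2 : lq K D (h • x) = lq K D x := h1
    exact (lq_inj hx h2.symm).symm

/-- NO VERTEX WITH POLES IS HYPERBOLIC -/
theorem soft_ell {M : ℕ} {K : PX H V} (hK : PCrit M K) (D : Decomp H) {x a : V}
    (hA : K.ar x a) : ∃ w : D.X, ∀ h ∈ stabilizer H x, h • w = w := by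
  by_contra hcon
  have hx : hyv D x := by
    unfold hyv Hyp
    push Not at hcon
    exact hcon
  obtain ⟨q, hq⟩ := exists_lqq K D
  obtain ⟨J, hJ, js, -⟩ := exists_jq (lQP K D).px D (lL K D q) q (lqdat K D q hq)
  obtain ⟨S, hS⟩ := exists_sy_full (lQP K D).px D J js
  obtain ⟨D', S', pr, hc, p1, p2, -, -, -, -⟩ := thmA (lQP K D).px D S
  have hcard : (lQP K D).px.A < K.A := (lQP K D).card_lt (hK.allP _ _ (Or.inl hA))
    (lq_eq.2 (Relation.EqvGen.rel _ _ ⟨hA, hx⟩))
  obtain ⟨w, -, h1, -⟩ := exists_all hK.bd hK.bad hK.min.1.1.1 (lQP K D).px hcard.le S' hc (by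
    intro X l hl
    have h2 := lq_stab K D q hq hJ X (pr l) (by rw [← hS]; exact p2 X l hl)
    apply SAG.InC.mono _ h2
    apply inf_le_inf le_rfl
    intro k hk
    rw [mem_stabilizer_iff] at hk ⊢
    rw [← p1, hk])
  omega

end Line

end Pool.Agent.BT
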