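import Pool.Agent.BT.Proj

/-!
# BT: subtrees from points, definitions

`L x` are subtrees for the sinks, `q x` are points for the other vertices. `J x = L x` for a sink;
if `x` has poles and their subtrees have a common point then `J x` is the projection of `q x` to the
set of the common points; otherwise `J x` is the bridge between the subtrees of the two poles.
-/

namespace Pool.Agent.BT

open MulAction
open Pool.Agent.SAF (InC orbs FinOrb oc Decomp SAn SA Conv hull TAct)

section JQ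
variable {H V : Type} [Group H] [MulAction H V]

/-- input data: subtrees `L x` for the sinks, points `q x` for the others -/
structure QDat (K : PQ H V) (D : Decomp H) (L : V → Set D.X) (q : V → D.X) : Prop where
  L_conv : ∀ x, (∀ a, ¬ K.ar x a) → Conv D.G (L x)
  L_ne : ∀ x, (∀ a, ¬ K.ar x a) → (L x).Nonempty
  L_two : ∀ x, (∀ a, ¬ K.ar x a) → ∀ w ∈ L x, ∀ a b c, D.G.Adj w a → D.G.Adj w b →
    D.G.Adj w c → a ∈ L x → b ∈ L x → c ∈ L x → a = b ∨ a = c ∨ b = c
  L_smul : ∀ (h : H) (x : V) (w : D.X), w ∈ L x → h • w ∈ L (h • x)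
  L_fin : ∀ x, (∀ a, ¬ K.ar x a) → FinOrb ↥(stabilizer H x) (L x)
  q_smul : ∀ (h : H) (x : V), (∃ a, K.ar x a) → q (h • x) = h • q x

/-- the equations for the subtrees -/
structure IsJQ (K : PQ H V) (D : Decomp H) (L : V → Set D.X) (q : V → D.X) (J : V → Set D.X) :
    Prop where
  sink : ∀ x, (∀ a, ¬ K.ar x a) → J x = L x
  pt : ∀ x, (∃ a, K.ar x a) → (∃ w, ∀ a, K.ar x a → w ∈ J a) →
    ∃ p, J x = {p} ∧ (∀ a, K.ar x a → p ∈ J a) ∧
      ∀ w, (∀ a, K.ar x a → w ∈ J a) → D.G.dist (q x) w = D.G.dist (q x) p + D.G.dist p w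
  br : ∀ x, ∀ a b, K.ar x a → K.ar x b → ¬ (J a ∩ J b).Nonempty → J x = brg D.G (J a) (J b)

end JQ

end Pool.Agent.BT
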