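import Pool.Agent.BT.XMass

/-!
# BT: the bridge

In the case of equality every light edge is the only edge of the wall graph with odd value.
-/

namespace Pool.Agent.BT

open MulAction
open Pool.Agent.SAF (orbs FinOrb mk_eq_iff FinOrb_iff exists_rep Conv exists_next dist_edge)

/-- the neighbour in the direction of `b` is unique -/
theorem x_next_unique {X : Type} {T : SimpleGraph X} (hT : T.IsTree) {w c d b : X}
    (hc : T.Adj w c) (hd : T.Adj w d) (h1 : T.dist b w = T.dist b c + 1)
    (h2 : T.dist b w = T.dist b d + 1) : c = d := by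
  by_contra hne
  have e1 : T.dist w c = 1 := SimpleGraph.dist_eq_one_iff_adj.2 hc
  have e2 : T.dist d w = 1 := SimpleGraph.dist_eq_one_iff_adj.2 hd.symm
  have e3 : T.dist w d = 1 := SimpleGraph.dist_eq_one_iff_adj.2 hd
  have h3 : T.dist d c = T.dist d w + 1 := by
    rcases (dist_edge hT hc d).1 with h | h
    · exact h
    · exfalso
      have : T.dist d c = 0 := by omega
      exact hne ((hT.connected.dist_eq_zero_iff).1 this).symm
  have h4 := (Pool.Agent.SAF.hull_conv hT ({b, d} : Set X)).edge hT hc (a := d) (b := b)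
    ⟨d, Or.inr rfl, d, Or.inr rfl, by rw [SimpleGraph.dist_self]⟩
    ⟨b, Or.inl rfl, b, Or.inl rfl, by rw [SimpleGraph.dist_self]⟩ h3 h1
  have s1 : T.dist w b = T.dist b w := SimpleGraph.dist_comm
  have s2 : T.dist d b = T.dist b d := SimpleGraph.dist_comm
  obtain ⟨a, ha, a', ha', e⟩ := h4.1
  rcases ha with rfl | ha
  · rcases ha' with rfl | ha'
    · rw [SimpleGraph.dist_self] at e
      omega
    · have ha' : a' = d := ha'
      subst ha'
      omega
  · have ha : a = d := ha
    subst ha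
    rcases ha' with rfl | ha'
    · omega
    · have ha' : a' = a := ha'
      subst ha'
      rw [SimpleGraph.dist_self] at e
      omega

theorem z2 (a : ZMod 2) : a + a = 0 := by
  revert a
  decide

/-- degenerate closed walks of length four -/
theorem psi_sq {W : Type} {ψ : W → W → ZMod 2} (hs : ∀ a b, ψ a b = ψ b a) (h0 : ∀ a, ψ a a = 0)
    {a b c d : W} (h : a = c ∨ b = d ∨ (a = b ∧ c = d) ∨ (b = c ∧ d = a)) :
    ψ a b + ψ b c + ψ c d + ψ d a = 0 := by
  rcases h with rfl | rfl | ⟨rfl, rfl⟩ | ⟨rfl, rfl⟩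
  · rw [hs b a, hs d a]
    linear_combination z2 (ψ a b) + z2 (ψ a d)
  · rw [hs c b, hs b a]
    linear_combination z2 (ψ b c) + z2 (ψ a b)
  · rw [h0, h0, hs c a]
    linear_combination z2 (ψ a c)
  · rw [h0, h0, hs b d]
    linear_combination z2 (ψ d b)

namespace XS

variable {H V X : Type} [Group H] [MulAction H V] [MulAction H X] {S : XS H V X}

theorem dist_smul_le (S : XS H V X) (h : H) (x y : X) :
    S.T.dist (h • x) (h • y) ≤ S.T.dist x y := by
  obtain ⟨p, hp⟩ := S.tree.connected.exists_walk_length_eq_dist x y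
  let φ : S.T →g S.T := ⟨fun z => h • z, fun {a b} e => S.T_smul h a b e⟩
  have h1 : S.T.dist (h • x) (h • y) ≤ (p.map φ).length := SimpleGraph.dist_le (p.map φ)
  rw [SimpleGraph.Walk.length_map, hp] at h1
  exact h1

theorem dist_smul (S : XS H V X) (h : H) (x y : X) : S.T.dist (h • x) (h • y) = S.T.dist x y := by
  refine le_antisymm (S.dist_smul_le h x y) ?_
  have h1 := S.dist_smul_le h⁻¹ (h • x) (h • y)
  rwa [inv_smul_smul, inv_smul_smul] at h1

theorem p_smul (S : XS H V X) (h : H) {x y : V} (e : S.G.E x y) :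
    S.p (h • x) (h • y) = h • S.p x y := by
  symm
  exact S.p_u _ _ _ (S.G.smul h x y e) (S.J_smul h x _ (S.p_l x y e)) (S.J_smul h y _ (S.p_r x y e))

/-- a neighbour of a crossing vertex does not cross -/
theorem not_cr {x y : V} {w w' : X} (e : S.G.E x y) (hx : S.Cr x w w') : ¬ S.Cr y w w' := by
  intro hy
  have h1 := S.p_u x y w e hx.2.1 hy.2.1
  have h2 := S.p_u x y w' e hx.2.2 hy.2.2
  exact S.T.ne_of_adj hx.1 (h1.trans h2.symm)

variable {V0 : Type} [MulAction H V0] (R : XR S V0)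

/-- a coboundary decomposition of a cochain on the horizontal edges -/
structure XCo (φ : V → V → ZMod 2) (g : S.V1 → ZMod 2) (ψ : V0 → V0 → ZMod 2) : Prop where
  ψs : ∀ a b, ψ a b = ψ b a
  ψ0 : ∀ a, ψ a a = 0
  ψh : ∀ a b, Heavy H (a, b) → ψ a b = 0
  gh : ∀ a, Heavy H a → g a = 0
  hor : ∀ x y w hx hy, S.G.E x y →
    φ x y = ψ (FF R (S.pt x w hx)) (FF R (S.pt y w hy)) + g (S.pt x w hx) + g (S.pt y w hy)
  up : ∀ x w w' (h : S.Cr x w w'), 0 = ψ (FF R (S.pt x w h.2.1)) (FF R (S.port x w w' h)) +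
    g (S.pt x w h.2.1) + g (S.port x w w' h)
  tr : ∀ x w w' (h : S.Cr x w w'), 0 = ψ (FF R (S.port x w w' h)) (FF R (S.port x w' w h.symm)) +
    g (S.port x w w' h) + g (S.port x w' w h.symm)

variable {R} {φ : V → V → ZMod 2} {g : S.V1 → ZMod 2} {ψ : V0 → V0 → ZMod 2}

theorem XCo.tr2 (C : XCo R φ g ψ) {x y : V} {w w' : X} (h : S.Cr x w w') (h' : S.Cr y w w') :
    g (S.port x w w' h) + g (S.port y w w' h') =
      g (S.port x w' w h.symm) + g (S.port y w' w h'.symm) := by
  have h1 := C.tr x w w' h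
  have h2 := C.tr y w w' h'
  rw [FF_port R h' h, FF_port R h'.symm h.symm] at h2
  have h3 := z2 (ψ (FF R (S.port x w w' h)) (FF R (S.port x w' w h.symm)))
  have h4 := z2 (g (S.port x w' w h.symm))
  have h5 := z2 (g (S.port y w' w h'.symm))
  linear_combination - h1 - h2 - h3 - h4 - h5


/-- the closed walk at the corner -/
theorem sq_base {q u u' : V} {w w' : X} (hu : S.Cr u w w') (hu' : S.Cr u' w w')
    (hq : w ∈ S.J q) (e : S.G.E q u) (e' : S.G.E q u') :
    FF R (S.pt q w hq) = FF R (S.port u w w' hu) ∨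
      FF R (S.pt u w hu.2.1) = FF R (S.pt u' w hu'.2.1) ∨
      (FF R (S.pt q w hq) = FF R (S.pt u w hu.2.1) ∧
        FF R (S.port u w w' hu) = FF R (S.pt u' w hu'.2.1)) ∨
      (FF R (S.pt u w hu.2.1) = FF R (S.port u w w' hu) ∧
        FF R (S.pt u' w hu'.2.1) = FF R (S.pt q w hq)) := by
  apply R.c4
  · exact L_hor R w hq hu.2.1 e
  · exact L_up R hu
  · rw [FF_port R hu hu']
    exact (S.GLoc.map R.f R.equi).symm _ _ (L_up R hu')
  · exact (S.GLoc.map R.f R.equi).symm _ _ (L_hor R w hq hu'.2.1 e')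

/-- the closed walk in the strip -/
theorem sq_strip {u u' : V} {v w w' : X} (hu : S.Cr u w w') (hu' : S.Cr u' w w')
    (cu : S.Cr u w v) (cu' : S.Cr u' w v) :
    FF R (S.port u w v cu) = FF R (S.port u w w' hu) ∨
      FF R (S.pt u w hu.2.1) = FF R (S.pt u' w hu'.2.1) ∨
      (FF R (S.port u w v cu) = FF R (S.pt u w hu.2.1) ∧
        FF R (S.port u w w' hu) = FF R (S.pt u' w hu'.2.1)) ∨
      (FF R (S.pt u w hu.2.1) = FF R (S.port u w w' hu) ∧
        FF R (S.pt u' w hu'.2.1) = FF R (S.port u w v cu)) := by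
  apply R.c4
  · exact (S.GLoc.map R.f R.equi).symm _ _ (L_up R cu)
  · exact L_up R hu
  · rw [FF_port R hu hu']
    exact (S.GLoc.map R.f R.equi).symm _ _ (L_up R hu')
  · rw [FF_port R cu cu']
    exact L_up R cu'

theorem XCo.port_step (C : XCo R φ g ψ) {q u u' : V} (e : S.G.E q u) (e' : S.G.E q u')
    (ep : S.p q u' = S.p q u) :
    ∀ (n : ℕ) (w w' : X) (hu : S.Cr u w w') (hu' : S.Cr u' w w'), S.T.dist (S.p q u) w = n →
      S.T.dist (S.p q u) w' = n + 1 →
      g (S.port u w w' hu) + g (S.port u' w w' hu') = φ q u + φ q u' := by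
  have hq : S.p q u ∈ S.J q := S.p_l q u e
  have hpu : S.p q u ∈ S.J u := S.p_r q u e
  have hpu' : S.p q u ∈ S.J u' := by rw [← ep]; exact S.p_r q u' e'
  intro n
  induction n with
  | zero =>
    intro w w' hu hu' h0 h1
    have hw : S.p q u = w := (S.tree.connected.dist_eq_zero_iff).1 h0
    have hqw : w ∈ S.J q := hw ▸ hq
    have h1 := psi_sq C.ψs C.ψ0 (sq_base (R := R) hu hu' hqw e e')
    have h2 := C.hor q u w hqw hu.2.1 e
    have h3 := C.hor q u' w hqw hu'.2.1 e'
    have h4 := C.up u w w' hu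
    have h5 := C.up u' w w' hu'
    rw [FF_port R hu' hu] at h5
    rw [C.ψs (FF R (S.port u w w' hu)) (FF R (S.pt u' w hu'.2.1)),
      C.ψs (FF R (S.pt u' w hu'.2.1)) (FF R (S.pt q w hqw))] at h1
    have k1 := z2 (g (S.pt q w hqw))
    have k2 := z2 (g (S.pt u w hu.2.1))
    have k3 := z2 (g (S.pt u' w hu'.2.1))
    have k4 := z2 (ψ (FF R (S.pt q w hqw)) (FF R (S.pt u w hu.2.1)))
    have k5 := z2 (ψ (FF R (S.pt q w hqw)) (FF R (S.pt u' w hu'.2.1)))
    linear_combination - h4 - h5 - h2 - h3 - h1 - k1 - k2 - k3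
  | succ n ih =>
    intro w w' hu hu' h0 h1
    have hne : w ≠ S.p q u := by
      rintro h
      rw [← h, SimpleGraph.dist_self] at h0
      omega
    obtain ⟨v, hv, ev⟩ := exists_next S.tree hne
    have s1 : S.T.dist (S.p q u) w = S.T.dist w (S.p q u) := SimpleGraph.dist_comm
    have s2 : S.T.dist (S.p q u) v = S.T.dist v (S.p q u) := SimpleGraph.dist_comm
    have s3 : S.T.dist w v = 1 := SimpleGraph.dist_eq_one_iff_adj.2 hv
    have hvu : v ∈ S.J u := S.J_conv u w hu.2.1 _ hpu v (by omega)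
    have hvu' : v ∈ S.J u' := S.J_conv u' w hu'.2.1 _ hpu' v (by omega)
    have cu : S.Cr u v w := ⟨hv.symm, hvu, hu.2.1⟩
    have cu' : S.Cr u' v w := ⟨hv.symm, hvu', hu'.2.1⟩
    have m1 := ih v w cu cu' (by omega) (by omega)
    rw [C.tr2 cu cu'] at m1
    have h1 := psi_sq C.ψs C.ψ0 (sq_strip (R := R) hu hu' cu.symm cu'.symm)
    have h2 := C.up u w w' hu
    have h3 := C.up u' w w' hu'
    have h4 := C.up u w v cu.symm
    have h5 := C.up u' w v cu'.symm
    rw [FF_port R hu' hu] at h3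
    rw [FF_port R cu'.symm cu.symm] at h5
    rw [C.ψs (FF R (S.port u w v cu.symm)) (FF R (S.pt u w hu.2.1)),
      C.ψs (FF R (S.port u w w' hu)) (FF R (S.pt u' w hu'.2.1))] at h1
    have k2 := z2 (g (S.pt u w hu.2.1))
    have k3 := z2 (g (S.pt u' w hu'.2.1))
    have k4 := z2 (g (S.port u w v cu.symm))
    have k5 := z2 (g (S.port u' w v cu'.symm))
    linear_combination m1 - h2 - h3 - h4 - h5 - h1 - k2 - k3 - k4 - k5

theorem XCo.port_all (C : XCo R φ g ψ) {q u u' : V} (e : S.G.E q u) (e' : S.G.E q u')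
    {w w' : X} (hu : S.Cr u w w') (hu' : S.Cr u' w w') :
    g (S.port u w w' hu) + g (S.port u' w w' hu') = φ q u + φ q u' := by
  have ep := corner_p hu hu' e e'
  rcases (dist_edge S.tree hu.1 (S.p q u)).1 with h1 | h1
  · exact C.port_step e e' ep _ w w' hu hu' rfl h1
  · rw [C.tr2 hu hu']
    exact C.port_step e e' ep _ w' w hu.symm hu'.symm rfl h1

/-! ### heavy corners -/

/-- two points which are fixed by an infinite group -/
theorem heavy_of {W : Type} [MulAction H W] {I : Subgroup H} (hI : ¬ Finite ↥I) {a : W}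
    (h : ∀ i ∈ I, i • a = a) : Heavy H a := by
  intro hf
  apply hI
  exact finite_of_le (fun i hi => mem_stabilizer_iff.2 (h i hi)) hf

theorem FF_port_fix {I : Subgroup H} {u : V} {w w' : X} (hu : S.Cr u w w')
    (hw : ∀ i ∈ I, i • w = w) (hw' : ∀ i ∈ I, i • w' = w') :
    ∀ i ∈ I, i • FF R (S.port u w w' hu) = FF R (S.port u w w' hu) := by
  intro i hi
  rw [← FF_smul]
  have e : i • S.port u w w' hu = S.port (i • u) (i • w) (i • w') (hu.smul S i) := rfl
  rw [e]
  have hc := hu.smul S i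
  unfold FF
  rw [S.pi1_port, S.pi1_port]
  congr 1
  apply Subtype.ext
  show ((i • w, Sum.inr (i • w')) : X × (V ⊕ X)) = (w, Sum.inr w')
  rw [hw i hi, hw' i hi]

theorem FF_pt_smul {i : H} {u : V} {w : X} (hu : w ∈ S.J u) (hu' : w ∈ S.J (i • u))
    (hw : i • w = w) : i • FF R (S.pt u w hu) = FF R (S.pt (i • u) w hu') := by
  rw [← FF_smul]
  congr 1
  apply Subtype.ext
  show ((i • u, i • w, i • w) : V × X × X) = (i • u, w, w)
  rw [hw]

theorem XCo.heavy_step (C : XCo R φ g ψ) {I : Subgroup H} (hI : ¬ Finite ↥I) {q u : V}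
    (e : S.G.E q u) (hIq : ∀ i ∈ I, i • q = q) (hIP : ∀ i ∈ I, i • S.p q u = S.p q u) :
    ∀ (n : ℕ) (w w' : X) (hu : S.Cr u w w'), S.T.dist (S.p q u) w = n →
      S.T.dist (S.p q u) w' = n + 1 → (∀ i ∈ I, i • w = w) → (∀ i ∈ I, i • w' = w') →
      g (S.port u w w' hu) = φ q u := by
  have hq : S.p q u ∈ S.J q := S.p_l q u e
  have hpu : S.p q u ∈ S.J u := S.p_r q u e
  intro n
  induction n with
  | zero =>
    intro w w' hu h0 h1 hw hw'
    have hpw : S.p q u = w := (S.tree.connected.dist_eq_zero_iff).1 h0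
    have hqw : w ∈ S.J q := hpw ▸ hq
    -- the local point of `q` is fixed
    have fq : ∀ i ∈ I, i • S.pt q w hqw = S.pt q w hqw := by
      intro i hi
      apply Subtype.ext
      show ((i • q, i • w, i • w) : V × X × X) = (q, w, w)
      rw [hw i hi, hIq i hi]
    have fq' : ∀ i ∈ I, i • FF R (S.pt q w hqw) = FF R (S.pt q w hqw) := by
      intro i hi
      rw [← FF_smul, fq i hi]
    have ft := FF_port_fix (R := R) hu hw hw'
    have h2 := C.hor q u w hqw hu.2.1 e
    have h4 := C.up u w w' hu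
    have h5 : g (S.pt q w hqw) = 0 := C.gh _ (heavy_of hI fq)
    have key : ψ (FF R (S.pt q w hqw)) (FF R (S.pt u w hu.2.1)) +
        ψ (FF R (S.pt u w hu.2.1)) (FF R (S.port u w w' hu)) = 0 := by
      by_cases h : FF R (S.pt q w hqw) = FF R (S.port u w w' hu)
      · rw [← h, C.ψs (FF R (S.pt u w hu.2.1)) (FF R (S.pt q w hqw))]
        exact z2 _
      · have hfix : ∀ i ∈ I, i • FF R (S.pt u w hu.2.1) = FF R (S.pt u w hu.2.1) := by
          intro i hi
          have hiu : S.Cr (i • u) w w' := by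
            have := hu.smul S i
            rwa [hw i hi, hw' i hi] at this
          have hie : S.G.E q (i • u) := by
            have := S.G.smul i _ _ e
            rwa [hIq i hi] at this
          have hs := FF_pt_smul (R := R) (i := i) hu.2.1 hiu.2.1 (hw i hi)
          rcases sq_base (R := R) hu hiu hqw e hie with c | c | ⟨c1, c2⟩ | ⟨c1, c2⟩
          · exact absurd c h
          · rw [hs, ← c]
          · exfalso
            apply h
            rw [c2, ← hs, ← c1, fq' i hi]
          · exfalso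
            apply h
            rw [← c2, ← hs, c1, ft i hi]
        have hh : ∀ i ∈ I, i • (FF R (S.pt q w hqw), FF R (S.pt u w hu.2.1)) =
            (FF R (S.pt q w hqw), FF R (S.pt u w hu.2.1)) := fun i hi =>
          Prod.ext (fq' i hi) (hfix i hi)
        have hh' : ∀ i ∈ I, i • (FF R (S.pt u w hu.2.1), FF R (S.port u w w' hu)) =
            (FF R (S.pt u w hu.2.1), FF R (S.port u w w' hu)) := fun i hi =>
          Prod.ext (hfix i hi) (ft i hi)
        rw [C.ψh _ _ (heavy_of hI hh), C.ψh _ _ (heavy_of hI hh'), add_zero]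
    rw [h5, add_zero] at h2
    have k2 := z2 (g (S.pt u w hu.2.1))
    linear_combination - h2 - h4 - key - k2
  | succ n ih =>
    intro w w' hu h0 h1 hw hw'
    have hne : w ≠ S.p q u := by
      rintro h
      rw [← h, SimpleGraph.dist_self] at h0
      omega
    obtain ⟨v, hv, ev⟩ := exists_next S.tree hne
    have s1 : S.T.dist (S.p q u) w = S.T.dist w (S.p q u) := SimpleGraph.dist_comm
    have s2 : S.T.dist (S.p q u) v = S.T.dist v (S.p q u) := SimpleGraph.dist_comm
    have s3 : S.T.dist w v = 1 := SimpleGraph.dist_eq_one_iff_adj.2 hv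
    have hvu : v ∈ S.J u := S.J_conv u w hu.2.1 _ hpu v (by omega)
    have cu : S.Cr u v w := ⟨hv.symm, hvu, hu.2.1⟩
    have hvI : ∀ i ∈ I, i • v = v := by
      intro i hi
      have h2 : S.T.Adj w (i • v) := by
        have := S.T_smul i _ _ hv
        rwa [hw i hi] at this
      have h3 : S.T.dist (S.p q u) (i • v) = S.T.dist (S.p q u) v := by
        have := S.dist_smul i (S.p q u) v
        rwa [hIP i hi] at this
      exact x_next_unique S.tree (b := S.p q u) h2 hv (by omega) (by omega)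
    have m1 := ih v w cu (by omega) (by omega) hvI hw
    have ht := FF_port_fix (R := R) cu.symm hw hvI
    have ht0 := FF_port_fix (R := R) cu hvI hw
    have ht' := FF_port_fix (R := R) hu hw hw'
    have hne2 : FF R (S.port u w v cu.symm) ≠ FF R (S.port u w w' hu) := by
      intro h
      unfold FF at h
      rw [S.pi1_port, S.pi1_port] at h
      have h6 : v = w' := R.tinj _ _ _ _ _ h
      subst h6
      omega
    have hfix : ∀ i ∈ I, i • FF R (S.pt u w hu.2.1) = FF R (S.pt u w hu.2.1) := by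
      intro i hi
      have hiu : S.Cr (i • u) w w' := by
        have := hu.smul S i
        rwa [hw i hi, hw' i hi] at this
      have hiv : S.Cr (i • u) w v := by
        have := cu.symm.smul S i
        rwa [hw i hi, hvI i hi] at this
      have hs := FF_pt_smul (R := R) (i := i) hu.2.1 hiu.2.1 (hw i hi)
      rcases sq_strip (R := R) hu hiu cu.symm hiv with c | c | ⟨c1, c2⟩ | ⟨c1, c2⟩
      · exact absurd c hne2
      · rw [hs, ← c]
      · exfalso
        apply hne2
        rw [c2, ← hs, ← c1, ht i hi]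
      · exfalso
        apply hne2
        rw [← c2, ← hs, c1, ht' i hi]
    have e1 : ψ (FF R (S.pt u w hu.2.1)) (FF R (S.port u w v cu.symm)) = 0 :=
      C.ψh _ _ (heavy_of hI (fun i hi => Prod.ext (hfix i hi) (ht i hi)))
    have e2 : ψ (FF R (S.pt u w hu.2.1)) (FF R (S.port u w w' hu)) = 0 :=
      C.ψh _ _ (heavy_of hI (fun i hi => Prod.ext (hfix i hi) (ht' i hi)))
    have e3 : ψ (FF R (S.port u v w cu)) (FF R (S.port u w v cu.symm)) = 0 :=
      C.ψh _ _ (heavy_of hI (fun i hi => Prod.ext (ht0 i hi) (ht i hi)))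
    have h2 := C.up u w w' hu
    have h4 := C.up u w v cu.symm
    have h5 := C.tr u v w cu
    rw [e1, zero_add] at h4
    rw [e2, zero_add] at h2
    rw [e3, zero_add] at h5
    have k2 := z2 (g (S.pt u w hu.2.1))
    linear_combination m1 - h2 + h5 - h4 - k2

/-- heavy corners -/
theorem XCo.heavy_corner (C : XCo R φ g ψ) {q u : V} (e : S.G.E q u) {w w' : X}
    (hu : S.Cr u w w')
    (hI : ¬ Finite ↥(stabilizer H q ⊓ (stabilizer H w ⊓ stabilizer H w') : Subgroup H)) :
    g (S.port u w w' hu) = φ q u := by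
  have h1 : ∀ i ∈ (stabilizer H q ⊓ (stabilizer H w ⊓ stabilizer H w') : Subgroup H),
      i • q = q := fun i hi => hi.1
  have h2 : ∀ i ∈ (stabilizer H q ⊓ (stabilizer H w ⊓ stabilizer H w') : Subgroup H),
      i • w = w := fun i hi => hi.2.1
  have h3 : ∀ i ∈ (stabilizer H q ⊓ (stabilizer H w ⊓ stabilizer H w') : Subgroup H),
      i • w' = w' := fun i hi => hi.2.2
  have hP : ∀ i ∈ (stabilizer H q ⊓ (stabilizer H w ⊓ stabilizer H w') : Subgroup H),
      i • S.p q u = S.p q u := by
    intro i hi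
    have hiu : S.Cr (i • u) w w' := by
      have := hu.smul S i
      rwa [h2 i hi, h3 i hi] at this
    have hie : S.G.E q (i • u) := by
      have := S.G.smul i _ _ e
      rwa [h1 i hi] at this
    have e1 := corner_p hu hiu e hie
    have e2 := S.p_smul i e
    rw [h1 i hi] at e2
    rw [← e2, e1]
  rcases (dist_edge S.tree hu.1 (S.p q u)).1 with h | h
  · exact C.heavy_step hI e h1 hP _ w w' hu rfl h h2 h3
  · have m := C.heavy_step hI e h1 hP _ w' w hu.symm rfl h h3 h2
    have h5 := C.tr u w w' hu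
    have ht := FF_port_fix (R := R) hu h2 h3
    have ht' := FF_port_fix (R := R) hu.symm h3 h2
    have e3 : ψ (FF R (S.port u w w' hu)) (FF R (S.port u w' w hu.symm)) = 0 :=
      C.ψh _ _ (heavy_of hI (fun i hi => Prod.ext (ht i hi) (ht' i hi)))
    rw [e3, zero_add] at h5
    have k3 := z2 (g (S.port u w' w hu.symm))
    linear_combination m - h5 - k3

/-! ### the bridge -/

open Classical in
/-- the indicator of an edge -/
noncomputable def ind (x0 y0 : V) (x y : V) : ZMod 2 :=
  if (x = x0 ∧ y = y0) ∨ (x = y0 ∧ y = x0) then 1 else 0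

theorem ind_symm (x0 y0 x y : V) : ind x0 y0 x y = ind x0 y0 y x := by
  unfold ind
  congr 1
  apply propext
  constructor
  · rintro (⟨a, b⟩ | ⟨a, b⟩)
    · exact Or.inr ⟨b, a⟩
    · exact Or.inl ⟨b, a⟩
  · rintro (⟨a, b⟩ | ⟨a, b⟩)
    · exact Or.inr ⟨b, a⟩
    · exact Or.inl ⟨b, a⟩

/-- from equality to the decomposition -/
theorem exists_xco (hV : FinOrb H (Set.univ : Set S.V1)) (hD : FinOrb H S.G1.darts)
    (R : XR S V0) (hF : Folds S.G1 (FF R))
    (heq : S.G1.bb ≤ (S.G1.map (FF R) (FF_smul R)).bb) {x0 y0 : V}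
    (hl : Finite ↥(stabilizer H (x0, y0))) :
    ∃ g ψ, XCo R (ind x0 y0) g ψ := by
  classical
  let φ1 : S.V1 → S.V1 → ZMod 2 := fun a b =>
    if a ∈ S.PT ∧ b ∈ S.PT then ind x0 y0 a.1.1 b.1.1 else 0
  have hs : ∀ a b, φ1 a b = φ1 b a := by
    intro a b
    by_cases h : a ∈ S.PT ∧ b ∈ S.PT
    · simp only [φ1]
      rw [if_pos h, if_pos ⟨h.2, h.1⟩, ind_symm]
    · simp only [φ1]
      rw [if_neg h, if_neg (fun h' => h ⟨h'.2, h'.1⟩)]
  have hh : ∀ a b, S.G1.E a b → a ≠ b → Heavy H (a, b) → φ1 a b = 0 := by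
    intro a b _ _ h
    by_contra hne
    apply h
    simp only [φ1] at hne
    have h1 : a ∈ S.PT ∧ b ∈ S.PT := by
      by_contra h'
      rw [if_neg h'] at hne
      exact hne rfl
    rw [if_pos h1] at hne
    unfold ind at hne
    have h2 : (a.1.1 = x0 ∧ b.1.1 = y0) ∨ (a.1.1 = y0 ∧ b.1.1 = x0) := by
      by_contra h'
      rw [if_neg h'] at hne
      exact hne rfl
    refine finite_of_le ?_ hl
    intro i hi
    rw [mem_stabilizer_iff] at hi ⊢
    have e1 : i • a = a := congrArg Prod.fst hi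
    have e2 : i • b = b := congrArg Prod.snd hi
    have e3 : i • a.1.1 = a.1.1 := congrArg (fun q : S.V1 => q.1.1) e1
    have e4 : i • b.1.1 = b.1.1 := congrArg (fun q : S.V1 => q.1.1) e2
    rcases h2 with ⟨c, d⟩ | ⟨c, d⟩
    · rw [c] at e3
      rw [d] at e4
      exact Prod.ext e3 e4
    · rw [c] at e3
      rw [d] at e4
      exact Prod.ext e4 e3
  obtain ⟨g, ψ, gh, ψs, ψ0, ψh, key⟩ := (hF.rel hD hV (FF_smul R)).2 heq φ1 hs hh
  refine ⟨g, ψ, ψs, ψ0, ψh, gh, ?_, ?_, ?_⟩
  · intro x y w hx hy e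
    have hne : S.pt x w hx ≠ S.pt y w hy := by
      intro h
      have h1 : x = y := congrArg (fun q : S.V1 => q.1.1) h
      subst h1
      exact S.irr x e
    have := key _ _ (E_hor w hx hy e) hne
    simp only [φ1] at this
    rwa [if_pos ⟨S.pt_mem x w hx, S.pt_mem y w hy⟩] at this
  · intro x w w' h
    have hne : S.pt x w h.2.1 ≠ S.port x w w' h := by
      intro e
      exact S.port_mem x w w' h (e ▸ S.pt_mem x w h.2.1)
    have := key _ _ (E_up h) hne
    simp only [φ1] at this
    rwa [if_neg (fun c => S.port_mem x w w' h c.2)] at this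
  · intro x w w' h
    have hne : S.port x w w' h ≠ S.port x w' w h.symm := by
      intro e
      have e2 : ((x, w, w') : V × X × X) = (x, w', w) := congrArg Subtype.val e
      exact S.T.ne_of_adj h.1 (Prod.mk.inj (Prod.mk.inj e2).2).1
    have := key _ _ (E_tr h) hne
    simp only [φ1] at this
    rwa [if_neg (fun c => S.port_mem x w w' h c.1)] at this

/-- THE BRIDGE -/
theorem bridge (hV : FinOrb H (Set.univ : Set S.V1)) (hD : FinOrb H S.G1.darts)
    (R : XR S V0) (hF : Folds S.G1 (FF R))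
    (heq : S.G1.bb ≤ (S.G1.map (FF R) (FF_smul R)).bb) {x0 y0 : V}
    (hl : Finite ↥(stabilizer H (x0, y0))) (w w' : X) :
    ∃ σ : V → ZMod 2,
      (∀ q u, S.G.E q u → S.Cr u w w' → σ q + σ u = ind x0 y0 q u) ∧
      ∀ s, ¬ Finite ↥(stabilizer H s ⊓ (stabilizer H w ⊓ stabilizer H w') : Subgroup H) →
        σ s = 0 := by
  classical
  obtain ⟨g, ψ, C⟩ := exists_xco hV hD R hF heq hl
  let σ : V → ZMod 2 := fun x =>
    if h : S.Cr x w w' then g (S.port x w w' h) else
      if h2 : ∃ u, S.G.E x u ∧ S.Cr u w w' then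
        g (S.port h2.choose w w' h2.choose_spec.2) + ind x0 y0 x h2.choose
      else 0
  refine ⟨σ, ?_, ?_⟩
  · intro q u e hu
    have hq : ¬ S.Cr q w w' := not_cr (S.G.symm _ _ e) hu
    have h2 : ∃ u, S.G.E q u ∧ S.Cr u w w' := ⟨u, e, hu⟩
    simp only [σ]
    rw [dif_neg hq, dif_pos h2, dif_pos hu]
    have h3 := C.port_all h2.choose_spec.1 e h2.choose_spec.2 hu
    have k := z2 (ind x0 y0 q h2.choose)
    linear_combination h3 + k
  · intro s hI
    by_cases hs : S.Cr s w w'
    · simp only [σ]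
      rw [dif_pos hs]
      apply C.gh
      apply heavy_of hI
      intro i hi
      apply Subtype.ext
      show ((i • s, i • w, i • w') : V × X × X) = (s, w, w')
      rw [mem_stabilizer_iff.1 hi.1, mem_stabilizer_iff.1 hi.2.1, mem_stabilizer_iff.1 hi.2.2]
    · by_cases h2 : ∃ u, S.G.E s u ∧ S.Cr u w w'
      · simp only [σ]
        rw [dif_neg hs, dif_pos h2, C.heavy_corner h2.choose_spec.1 h2.choose_spec.2 hI]
        exact z2 _
      · simp only [σ]
        rw [dif_neg hs, dif_neg h2]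

end XS

end Pool.Agent.BT
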