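import Pool.Agent.BT.PQ
import Pool.Agent.BT.XBridge

/-!
# BT: systems of subtrees for a pentagon complex

`JT H V X`: a pentagon complex `K` (`PQ`: no condition on the stabilisers of the vertices), a tree
`T`, subtrees `J x` with at most two exits, centres of the pentagons, connected walls.
-/

namespace Pool.Agent.BT

open MulAction
open Pool.Agent.SAF (orbs FinOrb mk_eq_iff FinOrb_iff TAct Conv InC)

structure JT (H V X : Type) [Group H] [MulAction H V] [MulAction H X] where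
  K : PQ H V
  T : SimpleGraph X
  act : TAct H T
  edgeC : ∀ w u : X, T.Adj w u → InC ↥(stabilizer H w ⊓ stabilizer H u)
  finX : FinOrb H (Set.univ : Set X)
  finT : FinOrb H {p : X × X | T.Adj p.1 p.2}
  J : V → Set X
  J_smul : ∀ (h : H) (x : V) (w : X), w ∈ J x → h • w ∈ J (h • x)
  J_conv : ∀ x, Conv T (J x)
  J_ne : ∀ x, (J x).Nonempty
  p : V → V → X
  p_l : ∀ x y, K.E x y → p x y ∈ J x
  p_r : ∀ x y, K.E x y → p x y ∈ J y
  p_u : ∀ x y w, K.E x y → w ∈ J x → w ∈ J y → w = p x y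
  -- at most two exits
  two1 : ∀ x w a b u, w ∈ J x → K.ar x a → K.ar x b → w ∈ J a → w ∈ J b → a ≠ b →
    T.Adj w u → u ∉ J x
  two2 : ∀ x w a u v, w ∈ J x → K.ar x a → w ∈ J a → T.Adj w u → T.Adj w v → u ∈ J x →
    v ∈ J x → u = v
  two3 : ∀ x w u v z, w ∈ J x → T.Adj w u → T.Adj w v → T.Adj w z → u ∈ J x →
    v ∈ J x → z ∈ J x → u = v ∨ v = z ∨ u = z
  cover : ∀ w, ∃ x, w ∈ J x
  stabC : ∀ x w, w ∈ J x → InC ↥(stabilizer H x ⊓ stabilizer H w)
  fJ : FinOrb H {q : V × X | q.2 ∈ J q.1}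
  fJ2 : FinOrb H {q : V × X × X | T.Adj q.2.1 q.2.2 ∧ q.2.1 ∈ J q.1 ∧ q.2.2 ∈ J q.1}
  -- centres
  c : K.I → X
  c_J : ∀ i j, c i ∈ J (K.pt i j) ∨ c i ∈ J (K.pt i (j + 1))
  -- connected walls
  walls : ∀ w u x y, T.Adj w u → w ∈ J x → u ∈ J x → w ∈ J y → u ∈ J y →
    Relation.ReflTransGen (fun a b => (w ∈ J a ∧ u ∈ J a) ∧ (w ∈ J b ∧ u ∈ J b) ∧
      ∃ q, K.E q a ∧ K.E q b) x y

namespace JT

variable {H V X : Type} [Group H] [MulAction H V] [MulAction H X] (S : JT H V X)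

/-- the underlying system -/
def xs : XS H V X where
  G := S.K.hg
  irr := S.K.E_irr
  T := S.T
  tree := S.act.tree
  T_smul := S.act.adj_smul
  J := S.J
  J_smul := S.J_smul
  J_conv := S.J_conv
  p := S.p
  p_l := S.p_l
  p_r := S.p_r
  p_u := S.p_u

theorem xs_walls : XS.Walls S.xs := by
  intro w w' x y hx hy
  have h := S.walls w w' x y hx.1 hx.2.1 hx.2.2 hy.2.1 hy.2.2
  induction h with
  | refl => exact Relation.ReflTransGen.refl
  | tail _ e ih =>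
    rename_i b c _
    exact (ih ⟨hx.1, e.1.1, e.1.2⟩).tail ⟨⟨hx.1, e.1⟩, ⟨hx.1, e.2.1⟩, e.2.2⟩

theorem finOrb_V1 : FinOrb H (Set.univ : Set S.xs.V1) := by
  have h1 : FinOrb H S.xs.PT := by
    apply Pool.Agent.SAF.FinOrb.of_inj S.fJ (fun q : S.xs.V1 => (q.1.1, q.1.2.1))
      (fun q _ => q.2.1)
    rintro ⟨⟨a, w, w'⟩, ha⟩ ha' ⟨⟨b, v, v'⟩, hb⟩ hb' ⟨h, e⟩
    refine ⟨h, Subtype.ext ?_⟩
    have e1 : w' = w := ha'
    have e2 : v' = v := hb'
    subst e1 e2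
    have e3 : h • a = b := congrArg Prod.fst e
    have e4 : h • w' = v' := congrArg Prod.snd e
    show ((h • a, h • w', h • w') : V × X × X) = (b, v', v')
    rw [e3, e4]
  have h2 : FinOrb H S.xs.PO := by
    apply Pool.Agent.SAF.FinOrb.of_inj S.fJ2 (fun q : S.xs.V1 => q.1) (by
      intro q hq
      rcases S.xs.V1_cases q with ⟨x, w, h, rfl⟩ | ⟨x, w, w', h, rfl⟩
      · exact absurd rfl hq
      · exact h)
    rintro a _ b _ ⟨h, e⟩
    exact ⟨h, Subtype.ext e⟩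
  rw [← S.xs.PT_union_PO]
  unfold FinOrb orbs at h1 h2 ⊢
  rw [Set.image_union]
  exact h1.union h2

end JT

end Pool.Agent.BT
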