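import Pool.Agent.BT.TM
import Pool.Agent.SAF.A11

/-!
# BT: vertices and edges of a cofinite tree
-/

namespace Pool.Agent.BT

open MulAction
open Pool.Agent.SAF (orbs FinOrb mk_eq_iff FinOrb_iff TAct)

theorem mass_le_of_subset {H X : Type} [Group H] [MulAction H X] {s t : Set X}
    (hst : s ⊆ t) (ht : FinOrb H t) : mass H s ≤ mass H t := by
  have hs : FinOrb H s := ht.mono hst
  rw [mass_eq_sum hs, mass_eq_sum ht]
  apply Finset.sum_le_sum_of_subset_of_nonneg
  · intro q hq
    rw [Set.Finite.mem_toFinset] at hq ⊢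
    exact Set.image_mono hst hq
  · intro q _ _
    exact wq_nonneg _

/-- all the vertex orbits but one have mass at most the mass of the edges -/
theorem tree_count {H X : Type} [Group H] [MulAction H X] {T : SimpleGraph X} (act : TAct H T)
    (hX : FinOrb H (Set.univ : Set X)) (hT : FinOrb H {p : X × X | T.Adj p.1 p.2}) (w0 : X) :
    mass H {w : X | ∀ h : H, h • w0 ≠ w} ≤ mass H {p : X × X | T.Adj p.1 p.2} / 2 := by
  classical
  have hex : ∀ x : X, ∃ k : ℕ, ∃ h : H, T.dist (h • w0) x = k := fun x => ⟨_, 1, rfl⟩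
  let n : X → ℕ := fun x => Nat.find (hex x)
  have hn : ∀ x, ∃ h : H, T.dist (h • w0) x = n x := fun x => Nat.find_spec (hex x)
  have hle : ∀ (x : X) (h : H), n x ≤ T.dist (h • w0) x := fun x h =>
    Nat.find_min' (hex x) ⟨h, rfl⟩
  have hinv1 : ∀ (g : H) (x : X), n (g • x) ≤ n x := by
    intro g x
    obtain ⟨h, hh⟩ := hn x
    have h1 := hle (g • x) (g * h)
    rwa [mul_smul, act.dist_smul, hh] at h1
  have hinv : ∀ (g : H) (x : X), n (g • x) = n x := by
    intro g x
    apply le_antisymm (hinv1 g x)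
    have := hinv1 g⁻¹ (g • x)
    rwa [inv_smul_smul] at this
  let A1 : Set (X × X) := {p | T.Adj p.1 p.2 ∧ n p.2 < n p.1}
  have hA1 : A1 ⊆ {p : X × X | T.Adj p.1 p.2} := fun p hp => hp.1
  have fA1 : FinOrb H A1 := hT.mono hA1
  have iA1 : ∀ (h : H) (p : X × X), p ∈ A1 → h • p ∈ A1 := by
    rintro h ⟨x, y⟩ ⟨h1, h2⟩
    refine ⟨act.adj_smul h _ _ h1, ?_⟩
    change n (h • y) < n (h • x)
    rw [hinv, hinv]
    exact h2
  have fA2 : FinOrb H (Prod.swap '' A1) :=
    FinOrb.image_equi (F := Prod.swap) (fun _ _ => rfl) fA1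
  have m2 := mass_prod_swap fA1 iA1
  have hu : A1 ∪ Prod.swap '' A1 ⊆ {p : X × X | T.Adj p.1 p.2} := by
    rintro p (hp | ⟨q, hq, rfl⟩)
    · exact hp.1
    · exact hq.1.symm
  have m3 := mass_le_of_subset hu hT
  rw [mass_union fA1 fA2 iA1 (by
    rintro p hp ⟨q, hq, rfl⟩
    have h1 := hp.2
    have h2 := hq.2
    change n q.1 < n q.2 at h1
    omega), m2] at m3
  have m4 : mass H ((fun p : X × X => p.1) '' A1) ≤ mass H A1 :=
    mass_image_le (F := fun p : X × X => p.1) (fun _ _ => rfl) fA1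
  have m5 : (fun p : X × X => p.1) '' A1 = {w : X | ∀ h : H, h • w0 ≠ w} := by
    ext x
    constructor
    · rintro ⟨⟨a, b⟩, ⟨h1, h2⟩, rfl⟩ h e
      have h3 : n a ≤ 0 := by
        have := hle a h
        rw [e, SimpleGraph.dist_self] at this
        exact this
      change n b < n a at h2
      omega
    · intro hx
      obtain ⟨h, hh⟩ := hn x
      obtain ⟨w, hw⟩ := act.tree.connected.exists_walk_length_eq_dist x (h • w0)
      cases w with
      | nil => exact absurd rfl (hx h)
      | cons hadj p =>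
        rename_i y
        refine ⟨(x, y), ⟨hadj, ?_⟩, rfl⟩
        change n y < n x
        have h1 := hle y h
        have h2 := SimpleGraph.dist_le p
        rw [SimpleGraph.Walk.length_cons] at hw
        rw [SimpleGraph.dist_comm] at h1 hh
        omega
  rw [m5] at m4
  linarith

end Pool.Agent.BT
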