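import Pool.Agent.BT.KH1
import Pool.Agent.BT.XCount

/-!
# BT: masses of the slices

`mass_fst`, `mass_snd`: Fubini for subsets of products. `TV_mass`, `TE_mass`, `DE_mass`: the three
families of trees.
-/

namespace Pool.Agent.BT

open MulAction
open Pool.Agent.SAF (orbs FinOrb mk_eq_iff FinOrb_iff TAct Conv InC exists_next dist_edge)

section Fub

variable {H Y Z : Type} [Group H] [MulAction H Y] [MulAction H Z] {s : Set (Y × Z)}

theorem finOrb_slice_fst (hs : FinOrb H s) (y : Y) :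
    FinOrb ↥(stabilizer H y) {z | (y, z) ∈ s} := by
  have h1 := finOrb_fib (π := Prod.fst) (fun _ _ => rfl) hs y
  have h2 := FinOrb.image_equi (H := ↥(stabilizer H y)) (F := (Prod.snd : Y × Z → Z))
    (fun _ _ => rfl) h1
  refine h2.mono ?_
  intro z hz
  exact ⟨(y, z), ⟨hz, rfl⟩, rfl⟩

theorem finOrb_slice_snd (hs : FinOrb H s) (z : Z) :
    FinOrb ↥(stabilizer H z) {y | (y, z) ∈ s} := by
  have h1 := finOrb_fib (π := Prod.snd) (fun _ _ => rfl) hs z
  have h2 := FinOrb.image_equi (H := ↥(stabilizer H z)) (F := (Prod.fst : Y × Z → Y))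
    (fun _ _ => rfl) h1
  refine h2.mono ?_
  intro y hy
  exact ⟨(y, z), ⟨hy, rfl⟩, rfl⟩

theorem slice_smul_fst (hsm : ∀ (h : H) (p : Y × Z), p ∈ s → h • p ∈ s) (y : Y)
    (k : ↥(stabilizer H y)) (z : Z) (hz : (y, z) ∈ s) : (y, k • z) ∈ s := by
  have h1 := hsm (k : H) _ hz
  have h2 : ((k : H) • y, (k : H) • z) ∈ s := h1
  rw [mem_stabilizer_iff.1 k.2] at h2
  exact h2

theorem slice_smul_snd (hsm : ∀ (h : H) (p : Y × Z), p ∈ s → h • p ∈ s) (z : Z)
    (k : ↥(stabilizer H z)) (y : Y) (hy : (y, z) ∈ s) : (k • y, z) ∈ s := by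
  have h1 := hsm (k : H) _ hy
  have h2 : ((k : H) • y, (k : H) • z) ∈ s := h1
  rw [mem_stabilizer_iff.1 k.2] at h2
  exact h2

theorem mass_fib_fst (hs : FinOrb H s) (hsm : ∀ (h : H) (p : Y × Z), p ∈ s → h • p ∈ s) (y : Y) :
    mass ↥(stabilizer H y) (fib Prod.fst s y) = mass ↥(stabilizer H y) {z | (y, z) ∈ s} := by
  have h1 := finOrb_slice_fst hs y
  have h2 : fib Prod.fst s y = (fun z : Z => (y, z)) '' {z | (y, z) ∈ s} := by
    ext ⟨a, b⟩
    constructor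
    · rintro ⟨h, e⟩
      obtain rfl : a = y := e
      exact ⟨b, h, rfl⟩
    · rintro ⟨z, hz, e⟩
      obtain ⟨rfl, rfl⟩ := Prod.mk.inj e
      exact ⟨hz, rfl⟩
  rw [h2]
  apply mass_image_inj (H := ↥(stabilizer H y)) (F := fun z : Z => (y, z))
  · intro k z
    exact Prod.ext (mem_stabilizer_iff.1 k.2).symm rfl
  · exact h1
  · exact fun k z hz => slice_smul_fst hsm y k z hz
  · intro a _ b _ e
    exact congrArg Prod.snd e

theorem mass_fib_snd (hs : FinOrb H s) (hsm : ∀ (h : H) (p : Y × Z), p ∈ s → h • p ∈ s) (z : Z) :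
    mass ↥(stabilizer H z) (fib Prod.snd s z) = mass ↥(stabilizer H z) {y | (y, z) ∈ s} := by
  have h1 := finOrb_slice_snd hs z
  have h2 : fib Prod.snd s z = (fun y : Y => (y, z)) '' {y | (y, z) ∈ s} := by
    ext ⟨a, b⟩
    constructor
    · rintro ⟨h, e⟩
      obtain rfl : b = z := e
      exact ⟨a, h, rfl⟩
    · rintro ⟨y, hy, e⟩
      obtain ⟨rfl, rfl⟩ := Prod.mk.inj e
      exact ⟨hy, rfl⟩
  rw [h2]
  apply mass_image_inj (H := ↥(stabilizer H z)) (F := fun y : Y => (y, z))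
  · intro k y
    exact Prod.ext rfl (mem_stabilizer_iff.1 k.2).symm
  · exact h1
  · exact fun k y hy => slice_smul_snd hsm z k y hy
  · intro a _ b _ e
    exact congrArg Prod.fst e

/-- Fubini over the first factor -/
theorem mass_fst (hs : FinOrb H s) (hsm : ∀ (h : H) (p : Y × Z), p ∈ s → h • p ∈ s)
    (r : orbitRel.Quotient H Y → Y) (t : Finset (orbitRel.Quotient H Y))
    (hr : ∀ q ∈ t, (Quotient.mk'' (r q) : orbitRel.Quotient H Y) = q)
    (ht : ∀ p ∈ s, (Quotient.mk'' p.1 : orbitRel.Quotient H Y) ∈ t) :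
    mass H s = ∑ q ∈ t, mass ↥(stabilizer H (r q)) {z | (r q, z) ∈ s} := by
  rw [mass_fib (π := Prod.fst) (fun _ _ => rfl) hs hsm r t hr ht]
  exact Finset.sum_congr rfl (fun q _ => mass_fib_fst hs hsm (r q))

/-- Fubini over the second factor -/
theorem mass_snd (hs : FinOrb H s) (hsm : ∀ (h : H) (p : Y × Z), p ∈ s → h • p ∈ s)
    (r : orbitRel.Quotient H Z → Z) (t : Finset (orbitRel.Quotient H Z))
    (hr : ∀ q ∈ t, (Quotient.mk'' (r q) : orbitRel.Quotient H Z) = q)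
    (ht : ∀ p ∈ s, (Quotient.mk'' p.2 : orbitRel.Quotient H Z) ∈ t) :
    mass H s = ∑ q ∈ t, mass ↥(stabilizer H (r q)) {y | (y, r q) ∈ s} := by
  rw [mass_fib (π := Prod.snd) (fun _ _ => rfl) hs hsm r t hr ht]
  exact Finset.sum_congr rfl (fun q _ => mass_fib_snd hs hsm (r q))

theorem iw_top_stab (y : Y) : iw (⊤ : Subgroup ↥(stabilizer H y)) = wq H y := by
  unfold wq iw
  rw [Nat.card_congr (Subgroup.topEquiv (G := ↥(stabilizer H y))).toEquiv]

/-- if the mass of every slice is given by the weight of the base point -/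
theorem fub_fst {s2 : Set (Y × Z)} {W : Type} [MulAction H W] {s3 : Set (Y × W)} {b : Set Y}
    (hs : FinOrb H s2) (hsm : ∀ (h : H) (p : Y × Z), p ∈ s2 → h • p ∈ s2)
    (hs3 : FinOrb H s3) (hsm3 : ∀ (h : H) (p : Y × W), p ∈ s3 → h • p ∈ s3)
    (hb : FinOrb H b) (hbm : ∀ (h : H) (y : Y), y ∈ b → h • y ∈ b)
    (h2 : ∀ p ∈ s2, p.1 ∈ b) (h3 : ∀ p ∈ s3, p.1 ∈ b)
    (key : ∀ y ∈ b, mass ↥(stabilizer H y) {z | (y, z) ∈ s2} -
      mass ↥(stabilizer H y) {z | (y, z) ∈ s3} / 2 = wq H y) :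
    mass H s2 - mass H s3 / 2 = mass H b := by
  have hr : ∀ q ∈ hb.toFinset, (Quotient.mk'' (Quotient.out q) : orbitRel.Quotient H Y) = q :=
    fun q _ => Quotient.out_eq' (s₁ := orbitRel H Y) q
  rw [mass_fst hs hsm Quotient.out hb.toFinset hr
    (fun p hp => by
      rw [Set.Finite.mem_toFinset]
      exact ⟨p.1, h2 p hp, rfl⟩),
    mass_fst hs3 hsm3 Quotient.out hb.toFinset hr
    (fun p hp => by
      rw [Set.Finite.mem_toFinset]
      exact ⟨p.1, h3 p hp, rfl⟩), mass_eq_sum hb, Finset.sum_div, ← Finset.sum_sub_distrib]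
  apply Finset.sum_congr rfl
  intro q hq
  apply key
  rw [Set.Finite.mem_toFinset] at hq
  obtain ⟨y, hy, e⟩ := hq
  have e1 : (Quotient.mk'' (Quotient.out q) : orbitRel.Quotient H Y) = Quotient.mk'' y := by
    rw [show (Quotient.mk'' y : orbitRel.Quotient H Y) = q from e]
    exact Quotient.out_eq' (s₁ := orbitRel H Y) q
  obtain ⟨h, hh⟩ := mk_eq_iff.1 e1
  rw [← hh]
  exact hbm h y hy

theorem fub_snd {s2 : Set (Y × Z)} {W : Type} [MulAction H W] {s3 : Set (W × Z)} {b : Set Z}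
    (hs : FinOrb H s2) (hsm : ∀ (h : H) (p : Y × Z), p ∈ s2 → h • p ∈ s2)
    (hs3 : FinOrb H s3) (hsm3 : ∀ (h : H) (p : W × Z), p ∈ s3 → h • p ∈ s3)
    (hb : FinOrb H b) (hbm : ∀ (h : H) (y : Z), y ∈ b → h • y ∈ b)
    (h2 : ∀ p ∈ s2, p.2 ∈ b) (h3 : ∀ p ∈ s3, p.2 ∈ b)
    (key : ∀ z ∈ b, mass ↥(stabilizer H z) {y | (y, z) ∈ s2} -
      mass ↥(stabilizer H z) {y | (y, z) ∈ s3} / 2 = wq H z) :
    mass H s2 - mass H s3 / 2 = mass H b := by
  have hr : ∀ q ∈ hb.toFinset, (Quotient.mk'' (Quotient.out q) : orbitRel.Quotient H Z) = q :=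
    fun q _ => Quotient.out_eq' (s₁ := orbitRel H Z) q
  rw [mass_snd hs hsm Quotient.out hb.toFinset hr
    (fun p hp => by
      rw [Set.Finite.mem_toFinset]
      exact ⟨p.2, h2 p hp, rfl⟩),
    mass_snd hs3 hsm3 Quotient.out hb.toFinset hr
    (fun p hp => by
      rw [Set.Finite.mem_toFinset]
      exact ⟨p.2, h3 p hp, rfl⟩), mass_eq_sum hb, Finset.sum_div, ← Finset.sum_sub_distrib]
  apply Finset.sum_congr rfl
  intro q hq
  apply key
  rw [Set.Finite.mem_toFinset] at hq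
  obtain ⟨y, hy, e⟩ := hq
  have e1 : (Quotient.mk'' (Quotient.out q) : orbitRel.Quotient H Z) = Quotient.mk'' y := by
    rw [show (Quotient.mk'' y : orbitRel.Quotient H Z) = q from e]
    exact Quotient.out_eq' (s₁ := orbitRel H Z) q
  obtain ⟨h, hh⟩ := mk_eq_iff.1 e1
  rw [← hh]
  exact hbm h y hy

end Fub

theorem rtg_mono {Y : Type} {R R' : Y → Y → Prop} (h : ∀ a b, R a b → R' a b) {x y : Y}
    (e : Relation.ReflTransGen R x y) : Relation.ReflTransGen R' x y := by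
  induction e with
  | refl => exact Relation.ReflTransGen.refl
  | tail _ e ih => exact ih.tail (h _ _ e)

/-- mass of a convex subset -/
theorem conv_mass {G X : Type} [Group G] [MulAction G X] {T : SimpleGraph X} (hG : TAct G T)
    {C : Set X} (hC : Conv T C) (hne : C.Nonempty) (hsm : ∀ (g : G) (x : X), x ∈ C → g • x ∈ C)
    (hin : InC G) (f1 : FinOrb G C)
    (f2 : FinOrb G {p : X × X | p.1 ∈ C ∧ p.2 ∈ C ∧ T.Adj p.1 p.2}) :
    mass G C - mass G {p : X × X | p.1 ∈ C ∧ p.2 ∈ C ∧ T.Adj p.1 p.2} / 2 =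
      iw (⊤ : Subgroup G) := by
  apply tree_mass_rel (H := G) C (fun a b => a ∈ C ∧ b ∈ C ∧ T.Adj a b)
  · exact fun x y h => ⟨h.2.1, h.1, h.2.2.symm⟩
  · exact fun x h => T.ne_of_adj h.2.2 rfl
  · exact fun x y h => h.1
  · exact hsm
  · exact fun g x y h => ⟨hsm g x h.1, hsm g y h.2.1, hG.adj_smul g x y h.2.2⟩
  · exact hne
  · intro x hx y hy
    exact rtg_mono (fun a b h => ⟨h.2.1, h.2.2, h.1⟩) (Pool.Agent.SAF.Conv.rtg hG.tree hC hx hy)
  · intro v w h
    obtain ⟨g, hg, -, -⟩ := Pool.Agent.SAF.exists_cut T hG.tree v w h.2.2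
    refine ⟨g, (hg v w h.2.2).2 (Or.inl ⟨rfl, rfl⟩), fun a b hab hne => ?_⟩
    exact (hg a b hab.2.2).1 hne
  · exact fun g x y h => hG.noinv g x y h.2.2
  · exact f1
  · exact f2
  · exact hin

theorem TAct.sub {G X : Type} [Group G] [MulAction G X] {T : SimpleGraph X} (hG : TAct G T)
    (A : Subgroup G) : TAct ↥A T :=
  ⟨hG.tree, fun h x y e => hG.adj_smul (h : G) x y e, fun h x y e => hG.noinv (h : G) x y e⟩

namespace TS

variable {H V X : Type} [Group H] [MulAction H V] [MulAction H X] (S : TS H V X)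

/-- the four incidence sets -/
def sV : Set (V × X) := {q : V × X | q.2 ∈ S.TV q.1}
def sV2 : Set (V × X × X) := {q | q.2.1 ∈ S.TV q.1 ∧ q.2.2 ∈ S.TV q.1 ∧ S.T.Adj q.2.1 q.2.2}
def sE : Set ((V × V) × X) := {q | S.K.E q.1.1 q.1.2 ∧ q.2 ∈ S.TE q.1.1 q.1.2}
def sE2 : Set ((V × V) × X × X) := {q | S.K.E q.1.1 q.1.2 ∧ q.2.1 ∈ S.TE q.1.1 q.1.2 ∧
    q.2.2 ∈ S.TE q.1.1 q.1.2 ∧ S.T.Adj q.2.1 q.2.2}

theorem sV_smul (h : H) (q : V × X) (hq : q ∈ S.sV) : h • q ∈ S.sV := S.TV_smul h _ _ hq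
theorem sV2_smul (h : H) (q : V × X × X) (hq : q ∈ S.sV2) : h • q ∈ S.sV2 :=
  ⟨S.TV_smul h _ _ hq.1, S.TV_smul h _ _ hq.2.1, S.act.adj_smul h _ _ hq.2.2⟩
theorem sE_smul (h : H) (q : (V × V) × X) (hq : q ∈ S.sE) : h • q ∈ S.sE :=
  ⟨S.K.E_smul h hq.1, S.TE_smul h _ _ _ hq.1 hq.2⟩
theorem sE2_smul (h : H) (q : (V × V) × X × X) (hq : q ∈ S.sE2) : h • q ∈ S.sE2 :=
  ⟨S.K.E_smul h hq.1, S.TE_smul h _ _ _ hq.1 hq.2.1, S.TE_smul h _ _ _ hq.1 hq.2.2.1,
    S.act.adj_smul h _ _ hq.2.2.2⟩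

theorem TV_mass (x : V) : mass ↥(stabilizer H x) {z | (x, z) ∈ S.sV} -
    mass ↥(stabilizer H x) {p | (x, p) ∈ S.sV2} / 2 = wq H x := by
  rw [← iw_top_stab]
  obtain ⟨z, hz⟩ := S.J_ne x
  exact conv_mass (TAct.sub S.act _) (S.TV_conv x) ⟨z, S.J_TV x z hz⟩
    (fun k y hy => slice_smul_fst S.sV_smul x k y hy) (S.K.stab x)
    (finOrb_slice_fst S.fV x) (finOrb_slice_fst S.fV2 x)

theorem TE_mass {x y : V} (hE : S.K.E x y) : mass ↥(stabilizer H (x, y)) {z | ((x, y), z) ∈ S.sE} -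
    mass ↥(stabilizer H (x, y)) {p | ((x, y), p) ∈ S.sE2} / 2 = wq H (x, y) := by
  rw [← iw_top_stab]
  have e1 : {z | ((x, y), z) ∈ S.sE} = S.TE x y := by
    ext z
    exact ⟨fun h => h.2, fun h => ⟨hE, h⟩⟩
  have e2 : {p | ((x, y), p) ∈ S.sE2} =
      {p : X × X | p.1 ∈ S.TE x y ∧ p.2 ∈ S.TE x y ∧ S.T.Adj p.1 p.2} := by
    ext z
    exact ⟨fun h => h.2, fun h => ⟨hE, h⟩⟩
  have f1 := finOrb_slice_fst S.fE (x, y)
  have f2 := finOrb_slice_fst S.fE2 (x, y)
  change FinOrb _ {z | ((x, y), z) ∈ S.sE} at f1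
  change FinOrb _ {z | ((x, y), z) ∈ S.sE2} at f2
  rw [e1] at f1 ⊢
  rw [e2] at f2 ⊢
  refine conv_mass (TAct.sub S.act _) (S.TE_conv x y hE) ⟨_, S.p_TE x y hE⟩ ?_ ?_ f1 f2
  · intro k z hz
    have h1 := slice_smul_fst S.sE_smul (x, y) k z ⟨hE, hz⟩
    exact h1.2
  · let f : ↥(stabilizer H (x, y)) →* ↥(stabilizer H x) :=
      { toFun := fun k => ⟨k.1, congrArg Prod.fst (mem_stabilizer_iff.1 k.2)⟩
        map_one' := rfl
        map_mul' := fun _ _ => rfl }
    refine InC.inj f ?_ (S.K.stab x)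
    intro a b e
    exact Subtype.ext (congrArg (fun t : ↥(stabilizer H x) => (t : H)) e)

/-- the graph over an edge is not empty -/
theorem neD {w u : X} (h : S.T.Adj w u) : ∃ x, w ∈ S.TV x ∧ u ∈ S.TV x := by
  by_contra hcon
  push Not at hcon
  obtain ⟨g, hg, -, -⟩ := Pool.Agent.SAF.exists_cut S.T S.act.tree w u h
  have h1 : ∀ x a b, a ∈ S.TV x → b ∈ S.TV x → g a = g b := by
    intro x a b ha hb
    induction Pool.Agent.SAF.Conv.rtg S.act.tree (S.TV_conv x) ha hb with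
    | refl => rfl
    | tail _ e ih =>
      rw [ih e.2.1]
      by_contra hne
      rcases (hg _ _ e.1).1 hne with ⟨e1, e2⟩ | ⟨e1, e2⟩
      · have h3 := e.2.1
        have h4 := e.2.2
        rw [e1] at h3
        rw [e2] at h4
        exact hcon x h3 h4
      · have h3 := e.2.1
        have h4 := e.2.2
        rw [e1] at h3
        rw [e2] at h4
        exact hcon x h4 h3
  obtain ⟨x, hx⟩ := S.neN w
  obtain ⟨y, hy⟩ := S.neN u
  have h2 : ∀ z, ∀ b ∈ S.TV z, g w = g b := by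
    intro z
    induction S.K.conn x z with
    | refl => exact fun b hb => h1 x w b hx hb
    | tail _ e ih =>
      rename_i c d _
      intro b hb
      have hE : S.K.E c d := e
      have h3 := S.p_TE c d hE
      rw [ih (S.p c d) (S.TE_TV _ _ _ hE h3)]
      exact h1 d _ b (S.TE_TV _ _ _ hE.symm (S.TE_symm _ _ _ hE h3)) hb
  exact (hg w u h).2 (Or.inl ⟨rfl, rfl⟩) (h2 y u hy)

theorem DE_heavy {w u : X} {x y : V} (h : S.DE w u x y) (hh : Heavy H (x, y)) :
    ¬ Finite ↥((stabilizer H (x, y) ⊓ stabilizer H w) ⊓ stabilizer H u) := by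
  have hfin := S.TE_fin x y h.1 hh
  have hinv : ∀ k ∈ stabilizer H (x, y), ∀ z ∈ S.TE x y, k • z ∈ S.TE x y := by
    intro k hk z hz
    have h1 := S.TE_smul k x y z h.1 hz
    have h2 : k • x = x := congrArg Prod.fst (mem_stabilizer_iff.1 hk)
    have h3 : k • y = y := congrArg Prod.snd (mem_stabilizer_iff.1 hk)
    rwa [h2, h3] at h1
  have s1 : ¬ Finite ↥(stabilizer H (x, y) ⊓ stabilizer H w) :=
    inf_of_orbit hfin (fun k hk => hinv k hk w h.2.1) hh
  exact inf_of_orbit hfin (fun k hk => hinv k hk.1 u h.2.2) s1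

theorem DE_mass {w u : X} (hwu : S.T.Adj w u) :
    mass ↥(stabilizer H (w, u)) {x | (x, (w, u)) ∈ S.sV2} -
    mass ↥(stabilizer H (w, u)) {q | (q, (w, u)) ∈ S.sE2} / 2 = wq H (w, u) := by
  rw [← iw_top_stab]
  have e1 : {x | (x, (w, u)) ∈ S.sV2} = {x | w ∈ S.TV x ∧ u ∈ S.TV x} := by
    ext z
    exact ⟨fun h => ⟨h.1, h.2.1⟩, fun h => ⟨h.1, h.2, hwu⟩⟩
  have e2 : {q | (q, (w, u)) ∈ S.sE2} = {p : V × V | S.DE w u p.1 p.2} := by
    ext z
    exact ⟨fun h => ⟨h.1, h.2.1, h.2.2.1⟩, fun h => ⟨h.1, h.2.1, h.2.2, hwu⟩⟩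
  have f1 := finOrb_slice_snd S.fV2 (w, u)
  have f2 := finOrb_slice_snd S.fE2 (w, u)
  change FinOrb _ {z | (z, (w, u)) ∈ S.sV2} at f1
  change FinOrb _ {z | (z, (w, u)) ∈ S.sE2} at f2
  rw [e1] at f1 ⊢
  rw [e2] at f2 ⊢
  have hk : ∀ k : ↥(stabilizer H (w, u)), (k : H) • w = w ∧ (k : H) • u = u := fun k =>
    ⟨congrArg Prod.fst (mem_stabilizer_iff.1 k.2), congrArg Prod.snd (mem_stabilizer_iff.1 k.2)⟩
  have sP : ∀ (k : ↥(stabilizer H (w, u))) (x : V), x ∈ {x | w ∈ S.TV x ∧ u ∈ S.TV x} →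
      k • x ∈ {x | w ∈ S.TV x ∧ u ∈ S.TV x} := by
    rintro k x ⟨h1, h2⟩
    have h3 := S.TV_smul (k : H) _ _ h1
    have h4 := S.TV_smul (k : H) _ _ h2
    rw [(hk k).1] at h3
    rw [(hk k).2] at h4
    exact ⟨h3, h4⟩
  have sD : ∀ (k : ↥(stabilizer H (w, u))) (x y : V), S.DE w u x y →
      S.DE w u (k • x) (k • y) := by
    rintro k x y ⟨h0, h1, h2⟩
    have h3 := S.TE_smul (k : H) _ _ _ h0 h1
    have h4 := S.TE_smul (k : H) _ _ _ h0 h2
    rw [(hk k).1] at h3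
    rw [(hk k).2] at h4
    exact ⟨S.K.E_smul (k : H) h0, h3, h4⟩
  have sI : ∀ (k : ↥(stabilizer H (w, u))) (x : V), x ∈ S.Inf w u → k • x ∈ S.Inf w u := by
    intro k x h
    have h1 := Inf.smul h (k : H)
    rw [(hk k).1, (hk k).2] at h1
    exact h1
  -- infinite stabilisers
  have hinf : ∀ x ∈ S.Inf w u, ¬ Finite ↥(stabilizer ↥(stabilizer H (w, u)) x) := by
    intro x hx hf
    apply hx.2.2
    have : Function.Injective (fun k : ↥(stabilizer H (x, w, u)) =>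
        (⟨⟨k.1, by
          have h1 := mem_st3.1 k.2
          exact mem_stabilizer_iff.2 (Prod.ext h1.2.1 h1.2.2)⟩,
          (mem_st3.1 k.2).1⟩ : ↥(stabilizer ↥(stabilizer H (w, u)) x))) := by
      intro a b e
      exact Subtype.ext (congrArg
        (fun t : ↥(stabilizer ↥(stabilizer H (w, u)) x) => (t.1 : H)) e)
    exact Finite.of_injective _ this
  by_cases hI : (S.Inf w u).Nonempty
  · have hG : ¬ Finite ↥(stabilizer H (w, u)) := by
      intro hf
      obtain ⟨x, hx⟩ := hI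
      exact hinf x hx inferInstance
    rw [iw_top_of_infinite hG]
    have := mass_rooted (H := ↥(stabilizer H (w, u))) (P := {x | w ∈ S.TV x ∧ u ∈ S.TV x})
      (E := S.DE w u) (I := S.Inf w u) (fun x y h => h.symm) (fun x y h => h.TV)
      (by
        rintro x ⟨h1, h2⟩ y ⟨h3, h5⟩
        exact S.connD w u x y hwu h1 h2 h3 h5)
      (fun x h => ⟨h.1, h.2.1⟩) hI sI sP sD
      (by
        intro x y h
        rcases S.br w u hwu x y h.1 h.2.1 h.2.2 with h1 | h1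
        · left
          have h2 := S.DE_heavy h h1
          have h3 : Heavy H (x, w, u) := by
            refine not_finite_mono ?_ h2
            rintro k ⟨⟨k1, k2⟩, k3⟩
            exact mem_st3.2 ⟨congrArg Prod.fst (mem_stabilizer_iff.1 k1), k2, k3⟩
          have h4 : Heavy H (y, w, u) := by
            refine not_finite_mono ?_ h2
            rintro k ⟨⟨k1, k2⟩, k3⟩
            exact mem_st3.2 ⟨congrArg Prod.snd (mem_stabilizer_iff.1 k1), k2, k3⟩
          refine ⟨⟨h.TV.1, h.TV.2, h3⟩, ⟨h.symm.TV.1, h.symm.TV.2, h4⟩, ?_⟩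
          unfold wq
          rw [iw_eq_zero]
          intro hf
          apply h2
          have : Function.Injective (fun k : ↥((stabilizer H (x, y) ⊓ stabilizer H w) ⊓
              stabilizer H u) => (⟨⟨k.1, mem_stabilizer_iff.2 (Prod.ext k.2.1.2 k.2.2)⟩,
                mem_stabilizer_iff.2 (mem_stabilizer_iff.1 k.2.1.1)⟩ :
                ↥(stabilizer ↥(stabilizer H (w, u)) (x, y)))) := by
            intro a b e
            exact Subtype.ext (congrArg
              (fun t : ↥(stabilizer ↥(stabilizer H (w, u)) (x, y)) => (t.1 : H)) e)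
          exact Finite.of_injective _ this
        · exact Or.inr h1)
      (by
        intro x hx
        unfold wq
        rw [iw_eq_zero]
        exact hinf x hx) f1 f2
    rw [this]
    ring
  · have hI' : S.Inf w u = ∅ := Set.not_nonempty_iff_eq_empty.1 hI
    obtain ⟨x0, hx0⟩ := S.neD hwu
    apply mass_unrooted (H := ↥(stabilizer H (w, u))) (P := {x | w ∈ S.TV x ∧ u ∈ S.TV x})
      (E := S.DE w u) (fun x y h => h.symm) (fun x h => S.K.E_irr x h.1)
      (fun x y h => h.TV) ⟨x0, hx0⟩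
      (by
        rintro x ⟨h1, h2⟩ y ⟨h3, h5⟩
        exact S.connD w u x y hwu h1 h2 h3 h5) sP sD
    · rintro k x y h ⟨h1, h2⟩
      have h3 : S.K.rk y = S.K.rk x := by
        rw [← h1]
        exact S.K.rk_smul (k : H) x
      rcases h.1 with h4 | h4
      · have := S.K.ar_rk _ _ h4
        omega
      · have := S.K.ar_rk _ _ h4
        omega
    · intro x y h
      rcases S.br w u hwu x y h.1 h.2.1 h.2.2 with h1 | h1
      · exfalso
        have h2 := S.DE_heavy h h1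
        have h3 : Heavy H (x, w, u) := by
          refine not_finite_mono ?_ h2
          rintro k ⟨⟨k1, k2⟩, k3⟩
          exact mem_st3.2 ⟨congrArg Prod.fst (mem_stabilizer_iff.1 k1), k2, k3⟩
        exact hI ⟨x, h.TV.1, h.TV.2, h3⟩
      · change Br (S.DE w u) (S.Inf w u) x y at h1
        rw [hI'] at h1
        exact h1
    · exact f1
    · exact f2
    · let f : ↥(stabilizer H (w, u)) →* ↥(stabilizer H w ⊓ stabilizer H u) :=
        { toFun := fun k => ⟨k.1, (hk k).1, (hk k).2⟩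
          map_one' := rfl
          map_mul' := fun _ _ => rfl }
      refine InC.inj f ?_ (S.edgeC w u hwu)
      intro a b e
      exact Subtype.ext (congrArg
        (fun t : ↥(stabilizer H w ⊓ stabilizer H u) => (t : H)) e)

/-- the total masses -/
theorem tot_V : mass H S.sV - mass H S.sV2 / 2 = mass H (Set.univ : Set V) :=
  fub_fst S.fV S.sV_smul S.fV2 S.sV2_smul S.K.fin (fun _ _ _ => trivial) (fun _ _ => trivial)
    (fun _ _ => trivial) (fun x _ => S.TV_mass x)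

theorem fin_E : FinOrb H {q : V × V | S.K.E q.1 q.2} := by
  have h1 := FinOrb.image_equi (H := H) (F := (Prod.fst : (V × V) × X → V × V))
    (fun _ _ => rfl) S.fE
  refine h1.mono ?_
  rintro q hq
  exact ⟨(q, S.p q.1 q.2), ⟨hq, S.p_TE _ _ hq⟩, rfl⟩

theorem tot_E : mass H S.sE - mass H S.sE2 / 2 = mass H {q : V × V | S.K.E q.1 q.2} :=
  fub_fst S.fE S.sE_smul S.fE2 S.sE2_smul S.fin_E
    (fun h q hq => S.K.E_smul h hq) (fun _ h => h.1) (fun _ h => h.1)
    (fun _ hq => S.TE_mass hq)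

/-- vertices and edges of the tree -/
theorem tot_T : mass H S.sV2 - mass H S.sE2 / 2 = mass H {p : X × X | S.T.Adj p.1 p.2} :=
  fub_snd S.fV2 S.sV2_smul S.fE2 S.sE2_smul S.finT
    (fun h p hp => S.act.adj_smul h _ _ hp) (fun _ h => h.2.2) (fun _ h => h.2.2.2)
    (fun _ hp => S.DE_mass hp)

end TS

end Pool.Agent.BT
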