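import Pool.Agent.BT.KB1
import Pool.Agent.BT.PNeut

/-!
# BT: `b (K^w) ≤ b K`
-/

namespace Pool.Agent.BT

open MulAction
open Pool.Agent.SAF (orbs FinOrb mk_eq_iff FinOrb_iff TAct Conv InC exists_next dist_edge)

namespace TS

variable {H V X : Type} [Group H] [MulAction H V] [MulAction H X] (S : TS H V X)

variable {S} in
theorem wq_zero_of {w : X} {x : V} {u : X} {Z : Type} [MulAction H Z] {z : Z}
    (hx : Heavy H (x, w, u)) (hz : ∀ k : H, k • x = x → k • w = w → k • u = u → k • z = z) :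
    wq ↥(stabilizer H w) z = 0 := by
  unfold wq
  rw [iw_eq_zero]
  intro hf
  apply hx
  have : Function.Injective (fun k : ↥(stabilizer H (x, w, u)) =>
      (⟨⟨k.1, (mem_st3.1 k.2).2.1⟩, by
        have h1 := mem_st3.1 k.2
        exact hz k.1 h1.1 h1.2.1 h1.2.2⟩ : ↥(stabilizer ↥(stabilizer H w) z))) := by
    intro a b e
    exact Subtype.ext (congrArg (fun t : ↥(stabilizer ↥(stabilizer H w) z) => (t.1 : H)) e)
  exact Finite.of_injective _ this

theorem mass_NV_le (w : X) : mass ↥(stabilizer H w) {x | (x, w) ∈ S.sV} ≤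
    mass ↥(stabilizer H w) (Set.univ : Set (S.KV w)) := by
  have f0 : FinOrb ↥(stabilizer H w) {x | (x, w) ∈ S.sV} := finOrb_slice_snd S.fV w
  have hR : {x | S.Rl w x} ⊆ {x | (x, w) ∈ S.sV} := fun x hx => hx.1
  have fR : FinOrb ↥(stabilizer H w) {x | S.Rl w x} := f0.mono hR
  have sR : ∀ (k : ↥(stabilizer H w)) (x : V), x ∈ {x | S.Rl w x} → k • x ∈ {x | S.Rl w x} := by
    intro k x hx
    have h1 : S.PK w (Sum.inl x) := hx
    have h2 := PK.smul h1 (k : H)
    rw [mem_stabilizer_iff.1 k.2] at h2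
    exact h2
  have e0 : {x | (x, w) ∈ S.sV} = {x | S.Rl w x} ∪ ({x | (x, w) ∈ S.sV} \ {x | S.Rl w x}) :=
    (Set.union_sdiff_cancel hR).symm
  have fD : FinOrb ↥(stabilizer H w) ({x | (x, w) ∈ S.sV} \ {x | S.Rl w x}) :=
    f0.mono Set.sdiff_subset
  have m0 : mass ↥(stabilizer H w) {x | (x, w) ∈ S.sV} =
      mass ↥(stabilizer H w) {x | S.Rl w x} := by
    rw [e0, mass_union fR fD sR (fun x hx hx2 => hx2.2 hx)]
    rw [mass_zero_of fD, add_zero]
    rintro x ⟨h1, h2⟩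
    have h3 : ∃ u, S.FH x w u := by
      by_contra h4
      exact h2 ⟨h1, h4⟩
    obtain ⟨u, hu⟩ := h3
    exact wq_zero_of hu.2.2.2 (fun k h1 _ _ => h1)
  have m1 : mass ↥(stabilizer H w) ((Sum.inl : V → V ⊕ X) '' {x | S.Rl w x}) =
      mass ↥(stabilizer H w) {x | S.Rl w x} :=
    mass_image_inj (F := (Sum.inl : V → V ⊕ X)) (fun _ _ => rfl) fR sR
      (fun a _ b _ e => Sum.inl_injective e)
  have hRK : FinOrb ↥(stabilizer H w) {s : S.KV w | ∃ x, s.1 = Sum.inl x} :=
    (S.KV_fin w).mono (Set.subset_univ _)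
  have m2 : mass ↥(stabilizer H w) ((fun s : S.KV w => s.1) '' {s : S.KV w | ∃ x, s.1 = Sum.inl x}) =
      mass ↥(stabilizer H w) {s : S.KV w | ∃ x, s.1 = Sum.inl x} := by
    apply mass_image_inj (F := fun s : S.KV w => s.1) (fun _ _ => rfl) hRK
    · rintro k s ⟨x, hx⟩
      refine ⟨k • x, ?_⟩
      change (k : H) • s.1 = _
      rw [hx]
      rfl
    · intro a _ b _ e
      exact Subtype.ext e
  have e1 : (fun s : S.KV w => s.1) '' {s : S.KV w | ∃ x, s.1 = Sum.inl x} =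
      (Sum.inl : V → V ⊕ X) '' {x | S.Rl w x} := by
    ext s
    constructor
    · rintro ⟨s, ⟨x, hx⟩, rfl⟩
      refine ⟨x, ?_, hx.symm⟩
      have := s.2
      rw [hx] at this
      exact this
    · rintro ⟨x, hx, rfl⟩
      exact ⟨⟨Sum.inl x, hx⟩, ⟨x, rfl⟩, rfl⟩
  rw [m0, ← m1, ← e1, m2]
  exact mass_le_of_subset (Set.subset_univ _) (S.KV_fin w)

theorem mass_ND_ge (w : X) : mass ↥(stabilizer H w) (S.KW w).hg.darts ≤
    mass ↥(stabilizer H w) {q | (q, w) ∈ S.sE} := by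
  have f0 : FinOrb ↥(stabilizer H w) {q | (q, w) ∈ S.sE} := finOrb_slice_snd S.fE w
  have fd : FinOrb ↥(stabilizer H w) (S.KW w).hg.darts := (S.KW w).fin_darts
  -- images
  have hΦ : ∀ (k : ↥(stabilizer H w)) (q : V × V),
      (fun q : V × V => (S.atv w q.1, S.atv w q.2)) (k • q) =
      k • (fun q : V × V => (S.atv w q.1, S.atv w q.2)) q := by
    intro k q
    have h1 := S.atv_smul (w := w) (x := q.1) (k : H)
    have h2 := S.atv_smul (w := w) (x := q.2) (k : H)
    rw [mem_stabilizer_iff.1 k.2] at h1 h2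
    exact Prod.ext h1 h2
  have m1 := mass_image_le (F := fun q : V × V => (S.atv w q.1, S.atv w q.2)) hΦ f0
  have fA := FinOrb.image_equi (F := fun q : V × V => (S.atv w q.1, S.atv w q.2)) hΦ f0
  have hv : ∀ (k : ↥(stabilizer H w)) (q : S.KV w × S.KV w),
      (fun q : S.KV w × S.KV w => (q.1.1, q.2.1)) (k • q) =
      k • (fun q : S.KV w × S.KV w => (q.1.1, q.2.1)) q := fun _ _ => rfl
  have sd : ∀ (k : ↥(stabilizer H w)) (q : S.KV w × S.KV w), q ∈ (S.KW w).hg.darts →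
      k • q ∈ (S.KW w).hg.darts := (S.KW w).hg.darts_smul
  have m2 : mass ↥(stabilizer H w) ((fun q : S.KV w × S.KV w => (q.1.1, q.2.1)) ''
      (S.KW w).hg.darts) = mass ↥(stabilizer H w) (S.KW w).hg.darts :=
    mass_image_inj hv fd sd (by
      intro a _ b _ e
      exact Prod.ext (Subtype.ext (congrArg Prod.fst e)) (Subtype.ext (congrArg Prod.snd e)))
  have fB := FinOrb.image_equi (F := fun q : S.KV w × S.KV w => (q.1.1, q.2.1)) hv fd
  have sA : ∀ (k : ↥(stabilizer H w)) (q : (V ⊕ X) × (V ⊕ X)),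
      q ∈ (fun q : V × V => (S.atv w q.1, S.atv w q.2)) '' {q | (q, w) ∈ S.sE} →
      k • q ∈ (fun q : V × V => (S.atv w q.1, S.atv w q.2)) '' {q | (q, w) ∈ S.sE} := by
    rintro k _ ⟨q, hq, rfl⟩
    exact ⟨k • q, slice_smul_snd S.sE_smul w k q hq, hΦ k q⟩
  have fZ : FinOrb ↥(stabilizer H w) ((fun q : S.KV w × S.KV w => (q.1.1, q.2.1)) ''
      (S.KW w).hg.darts \ (fun q : V × V => (S.atv w q.1, S.atv w q.2)) ''
      {q | (q, w) ∈ S.sE}) := fB.mono Set.sdiff_subset
  have m3 : mass ↥(stabilizer H w) ((fun q : S.KV w × S.KV w => (q.1.1, q.2.1)) ''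
      (S.KW w).hg.darts \ (fun q : V × V => (S.atv w q.1, S.atv w q.2)) ''
      {q | (q, w) ∈ S.sE}) = 0 := by
    apply mass_zero_of fZ
    rintro _ ⟨⟨⟨s, t⟩, hst, rfl⟩, hn⟩
    have key : ∀ s t : S.KV w, S.KA w s.1 t.1 → (s.1, t.1) ∉
        (fun q : V × V => (S.atv w q.1, S.atv w q.2)) '' {q | (q, w) ∈ S.sE} →
        wq ↥(stabilizer H w) (s.1, t.1) = 0 ∧ wq ↥(stabilizer H w) (t.1, s.1) = 0 := by
      rintro ⟨s, ps⟩ ⟨t, pt⟩ h hn
      cases h with
      | rr x a h1 h2 =>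
        exfalso
        apply hn
        refine ⟨(x, a), ⟨Or.inl h1, h2⟩, ?_⟩
        exact Prod.ext (atv_near ps.2) (atv_near pt.2)
      | rt x a u h1 h2 h3 =>
        exfalso
        apply hn
        refine ⟨(x, a), ⟨Or.inl h1, h2⟩, ?_⟩
        exact Prod.ext (atv_near ps.2) (atv_far h3)
      | cr x u h1 h2 h3 h4 =>
        constructor
        · apply wq_zero_of h4.2.2
          intro k k1 k2 k3
          exact Prod.ext (congrArg Sum.inl k1) (congrArg Sum.inr k3)
        · apply wq_zero_of h4.2.2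
          intro k k1 k2 k3
          exact Prod.ext (congrArg Sum.inr k3) (congrArg Sum.inl k1)
    rcases (PX.mem_darts.1 hst) with h | h
    · exact (key s t h hn).1
    · refine (key t s h ?_).2
      rintro ⟨⟨x, y⟩, hq, e⟩
      apply hn
      refine ⟨(y, x), ⟨hq.1.symm, S.TE_symm _ _ _ hq.1 hq.2⟩, ?_⟩
      exact Prod.ext (congrArg Prod.snd e) (congrArg Prod.fst e)
  have hsub : (fun q : S.KV w × S.KV w => (q.1.1, q.2.1)) '' (S.KW w).hg.darts ⊆
      (fun q : V × V => (S.atv w q.1, S.atv w q.2)) '' {q | (q, w) ∈ S.sE} ∪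
      ((fun q : S.KV w × S.KV w => (q.1.1, q.2.1)) ''
      (S.KW w).hg.darts \ (fun q : V × V => (S.atv w q.1, S.atv w q.2)) ''
      {q | (q, w) ∈ S.sE}) := by
    rw [Set.union_sdiff_self]
    exact Set.subset_union_right
  have m4 := mass_le_of_subset hsub (finOrb_union fA fZ)
  rw [mass_union fA fZ sA (fun x hx hx2 => hx2.2 hx), m3, add_zero, m2] at m4
  linarith

theorem bb_KW (w : X) : (S.KW w).hg.bb ≤ mass ↥(stabilizer H w) {q | (q, w) ∈ S.sE} / 2 -
    mass ↥(stabilizer H w) {x | (x, w) ∈ S.sV} := by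
  have h1 := S.mass_NV_le w
  have h2 := S.mass_ND_ge w
  unfold HG.bb
  linarith

theorem bb_KW_ge (w : X) : - wq H w ≤ (S.KW w).hg.bb := by
  rw [← iw_top_stab]
  exact HG.bb_ge _ (S.KW w).fin_darts (S.KW w).fin (S.KW w).ne (S.KW w).conn

theorem bb_K : S.K.hg.bb = mass H {q : V × V | S.K.E q.1 q.2} / 2 -
    mass H (Set.univ : Set V) := by
  unfold HG.bb
  congr 3
  ext q
  exact PX.mem_darts

theorem bb_le (w0 : X) : (S.KW w0).hg.bb ≤ S.K.hg.bb := by
  classical
  -- a section which takes the value `w0`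
  let q0 : orbitRel.Quotient H X := Quotient.mk'' w0
  let r : orbitRel.Quotient H X → X := fun q => if q = q0 then w0 else Quotient.out q
  have r0 : r q0 = w0 := if_pos rfl
  have r1 : ∀ q, q ≠ q0 → r q = Quotient.out q := fun q hq => if_neg hq
  have hr : ∀ q ∈ S.finX.toFinset, (Quotient.mk'' (r q) : orbitRel.Quotient H X) = q := by
    intro q _
    by_cases h : q = q0
    · rw [h, r0]
    · rw [r1 q h]
      exact Quotient.out_eq' (s₁ := orbitRel H X) q
  have hmem : ∀ x : X, (Quotient.mk'' x : orbitRel.Quotient H X) ∈ S.finX.toFinset := by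
    intro x
    rw [Set.Finite.mem_toFinset]
    exact ⟨x, trivial, rfl⟩
  have sV := mass_snd (s := S.sV) S.fV S.sV_smul r S.finX.toFinset hr (fun p _ => hmem p.2)
  have sE := mass_snd (s := S.sE) S.fE S.sE_smul r S.finX.toFinset hr (fun p _ => hmem p.2)
  have t1 := S.tot_V
  have t2 := S.tot_E
  have t3 := S.tot_T
  have t4 := S.bb_K
  have t5 := tree_count S.act S.finX S.finT w0
  -- the other orbits
  have hq0 : q0 ∈ S.finX.toFinset := hmem w0
  have sum1 : mass H S.sE / 2 - mass H S.sV =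
      ∑ q ∈ S.finX.toFinset, (mass ↥(stabilizer H (r q)) {x | (x, r q) ∈ S.sE} / 2 -
        mass ↥(stabilizer H (r q)) {x | (x, r q) ∈ S.sV}) := by
    rw [Finset.sum_sub_distrib, ← Finset.sum_div]
    rw [sE, sV]
  rw [← Finset.add_sum_erase _ _ hq0, r0] at sum1
  have rest : - mass H {w : X | ∀ h : H, h • w0 ≠ w} ≤
      ∑ q ∈ S.finX.toFinset.erase q0, (mass ↥(stabilizer H (r q)) {x | (x, r q) ∈ S.sE} / 2 -
        mass ↥(stabilizer H (r q)) {x | (x, r q) ∈ S.sV}) := by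
    have fo : FinOrb H {w : X | ∀ h : H, h • w0 ≠ w} := S.finX.mono (Set.subset_univ _)
    rw [mass_eq_sum fo, ← Finset.sum_neg_distrib]
    have e1 : fo.toFinset = S.finX.toFinset.erase q0 := by
      ext q
      rw [Finset.mem_erase, Set.Finite.mem_toFinset, Set.Finite.mem_toFinset]
      constructor
      · rintro ⟨x, hx, rfl⟩
        refine ⟨?_, ⟨x, trivial, rfl⟩⟩
        intro e
        obtain ⟨h, hh⟩ := mk_eq_iff.1 e
        exact hx h hh
      · rintro ⟨hne, ⟨x, -, rfl⟩⟩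
        refine ⟨x, ?_, rfl⟩
        intro h e
        apply hne
        exact mk_eq_iff.2 ⟨h, e⟩
    rw [e1]
    apply Finset.sum_le_sum
    intro q hq
    have hq' := (Finset.mem_erase.1 hq).1
    rw [← r1 q hq']
    have h1 := S.bb_KW (r q)
    have h2 := S.bb_KW_ge (r q)
    linarith
  have h0 := S.bb_KW w0
  linarith

end TS

end Pool.Agent.BT
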