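import Pool.Agent.BT.PPot
import Pool.Agent.BT.Defs
import Pool.Agent.BT.XCount

/-!
# Bounded kernels

`KBd M H`: finite subgroups of infinite subgroups in the class have order at most `M`.
-/

namespace Pool.Agent.BT

open MulAction
open Pool.Agent.SAF (InC orbs FinOrb oc Decomp SAn SA mk_eq_iff)

/-- finite subgroups of infinite subgroups in the class have order at most `M` -/
def KBd (M : ℕ) (H : Type) [Group H] : Prop :=
  ∀ A F : Subgroup H, InC ↥A → ¬ Finite ↥A → F ≤ A → Finite ↥F → Nat.card ↥F ≤ M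

theorem Bd.kbd {M : ℕ} {H : Type} [Group H] (h : Bd M H) : KBd M H :=
  fun _ F _ _ _ hf => h F hf

theorem KBd.sub {M : ℕ} {H : Type} [Group H] (h : KBd M H) (S : Subgroup H) : KBd M ↥S := by
  intro A F hA hi hFA hF
  have e : ∀ B : Subgroup ↥S, Nonempty (↥B ≃* ↥(B.map S.subtype)) := fun B =>
    ⟨B.equivMapOfInjective _ S.subtype_injective⟩
  obtain ⟨eA⟩ := e A
  obtain ⟨eF⟩ := e F
  have h1 := h (A.map S.subtype) (F.map S.subtype) (Pool.Agent.SAF.InC.iso eA hA)
    (fun hf => hi (Finite.of_equiv _ eA.symm.toEquiv)) (Subgroup.map_mono hFA)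
    (Finite.of_equiv _ eF.toEquiv)
  rwa [← Nat.card_congr eF.toEquiv] at h1

namespace PX

variable {H V : Type} [Group H] [MulAction H V] (K : PX H V)

/-- a finite stabiliser has a subgroup of index at most two which fixes a given pole -/
theorem card_pole {v a : V} (e : K.ar v a) :
    Nat.card ↥(stabilizer H v) ≤ 2 * Nat.card ↥(stabilizer H v ⊓ stabilizer H a) := by
  classical
  have hsub : orbit ↥(stabilizer H v) a ⊆ {b | K.ar v b} := by
    rintro _ ⟨h, rfl⟩
    have := K.ar_smul h.1 v a e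
    rwa [show h.1 • v = v from h.2] at this
  have hfin : {b | K.ar v b}.Finite ∧ {b | K.ar v b}.ncard ≤ 2 := by
    by_cases hb : ∃ b, K.ar v b ∧ b ≠ a
    · obtain ⟨b, hb, hne⟩ := hb
      have hs : {b | K.ar v b} ⊆ {a, b} := by
        intro c hc
        rcases K.two v a b c e hb hc with h | h | h
        · exact absurd h.symm hne
        · exact Or.inr h.symm
        · exact Or.inl h.symm
      exact ⟨(Set.toFinite _).subset hs, (Set.ncard_le_ncard hs (Set.toFinite _)).trans
        (Set.ncard_pair hne.symm).le⟩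
    · push Not at hb
      have hs : {b | K.ar v b} ⊆ {a} := fun c hc => hb c hc
      refine ⟨(Set.finite_singleton a).subset hs, (Set.ncard_le_ncard hs
        (Set.finite_singleton a)).trans ?_⟩
      rw [Set.ncard_singleton]
      omega
  have h1 : Nat.card ↥(orbit ↥(stabilizer H v) a) ≤ 2 := by
    rw [Nat.card_coe_set_eq]
    exact (Set.ncard_le_ncard hsub hfin.1).trans hfin.2
  have h2 := Nat.card_congr (orbitProdStabilizerEquivGroup ↥(stabilizer H v) a)
  rw [Nat.card_prod] at h2
  have h3 : Nat.card ↥(stabilizer ↥(stabilizer H v) a) =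
      Nat.card ↥(stabilizer H v ⊓ stabilizer H a) := by
    apply Nat.card_congr
    exact ⟨fun g => ⟨g.1.1, g.1.2, g.2⟩, fun g => ⟨⟨g.1, g.2.1⟩, g.2.2⟩, fun _ => rfl,
      fun _ => rfl⟩
  rw [← h2, h3]
  exact Nat.mul_le_mul_right _ h1

theorem card_stab_aux {M M' : ℕ} (hM : KBd M H)
    (hs : ∀ v, K.Sink v → Finite ↥(stabilizer H v) → Nat.card ↥(stabilizer H v) ≤ M') :
    ∀ (n : ℕ) (v : V), oc H {u | K.rk u < K.rk v} = n → Finite ↥(stabilizer H v) →
      Nat.card ↥(stabilizer H v) ≤ 2 ^ n * max M M' := by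
  intro n
  induction n using Nat.strong_induction_on with
  | _ n ih =>
    intro v hn hf
    have h2n : 1 ≤ 2 ^ n := Nat.one_le_two_pow
    by_cases hv : K.Sink v
    · exact (hs v hv hf).trans ((le_max_right M M').trans (Nat.le_mul_of_pos_left _ h2n))
    · unfold PX.Sink at hv
      push Not at hv
      obtain ⟨a, ha⟩ := hv
      have hr := K.ar_rk v a ha
      have hlt : oc H {u | K.rk u < K.rk a} < n := by
        rw [← hn]
        unfold SAF.oc
        apply Set.ncard_lt_ncard _ (SAF.FinOrb.mono (Set.subset_univ _) K.fin)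
        refine ⟨SAF.orbs_mono (fun u hu => lt_trans hu hr), ?_⟩
        intro hsub
        have h1 : (Quotient.mk'' a : orbitRel.Quotient H V) ∈ orbs H {u | K.rk u < K.rk a} :=
          hsub ⟨a, hr, rfl⟩
        obtain ⟨b, hb, e⟩ := h1
        obtain ⟨h, rfl⟩ := mk_eq_iff.1 e
        rw [Set.mem_ofPred_eq, K.rk_smul] at hb
        exact lt_irrefl _ hb
      have h1 := K.card_pole ha
      have hB : Finite ↥(stabilizer H v ⊓ stabilizer H a) := finite_of_le inf_le_left hf
      have h3 : Nat.card ↥(stabilizer H v ⊓ stabilizer H a) ≤ 2 ^ (n - 1) * max M M' := by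
        have h2n' : 1 ≤ 2 ^ (n - 1) := Nat.one_le_two_pow
        by_cases hfa : Finite ↥(stabilizer H a)
        · have h4 := ih _ hlt a rfl hfa
          have h5 : Nat.card ↥(stabilizer H v ⊓ stabilizer H a) ≤ Nat.card ↥(stabilizer H a) :=
            Nat.card_le_card_of_injective (Subgroup.inclusion inf_le_right)
              (Subgroup.inclusion_injective _)
          refine h5.trans (h4.trans (Nat.mul_le_mul_right _ ?_))
          exact Nat.pow_le_pow_right (by norm_num) (by omega)
        · have h4 := hM (stabilizer H a) (stabilizer H v ⊓ stabilizer H a) (K.stab a) hfa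
            inf_le_right hB
          exact h4.trans ((le_max_left M M').trans (Nat.le_mul_of_pos_left _ h2n'))
      have h6 : 2 ^ n = 2 * 2 ^ (n - 1) := by
        rw [← pow_succ', Nat.sub_add_cancel (by omega)]
      rw [h6, mul_assoc]
      omega

/-- bound for the finite stabilisers -/
theorem card_stab_le {M M' : ℕ} (hM : KBd M H)
    (hs : ∀ v, K.Sink v → Finite ↥(stabilizer H v) → Nat.card ↥(stabilizer H v) ≤ M') (v : V)
    (hf : Finite ↥(stabilizer H v)) :
    Nat.card ↥(stabilizer H v) ≤ 2 ^ oc H (Set.univ : Set V) * max M M' := by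
  refine (K.card_stab_aux hM hs _ v rfl hf).trans (Nat.mul_le_mul_right _ ?_)
  apply Nat.pow_le_pow_right (by norm_num)
  exact Set.ncard_le_ncard (SAF.orbs_mono (Set.subset_univ _)) K.fin

/-- number of orbits if every vertex is in a pentagon -/
theorem oc_le_of_VP (hv : ∀ v, K.VP v) : oc H (Set.univ : Set V) ≤ 5 * K.A := by
  have := K.finI
  have h1 : orbs H (Set.univ : Set V) ⊆ Set.range (fun q : K.I × Fin 5 =>
      (Quotient.mk'' (K.pt q.1 q.2) : orbitRel.Quotient H V)) := by
    rintro _ ⟨v, -, rfl⟩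
    obtain ⟨g, i, j, rfl⟩ := hv v
    exact ⟨(i, j), mk_eq_iff.2 ⟨g⁻¹, inv_smul_smul _ _⟩⟩
  have h2 : oc H (Set.univ : Set V) ≤ Nat.card (K.I × Fin 5) := by
    unfold SAF.oc
    refine (Set.ncard_le_ncard h1 (Set.finite_range _)).trans ?_
    rw [← Set.image_univ]
    refine (Set.ncard_image_le Set.finite_univ).trans ?_
    rw [Set.ncard_univ]
  rw [Nat.card_prod] at h2
  simp only [Nat.card_eq_fintype_card, Fintype.card_fin] at h2
  unfold PX.A
  omega

end PX

section

variable {H X : Type} [Group H] [MulAction H X]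

/-- weights are multiples of `1 / N!` if the finite stabilisers have at most `N` elements -/
theorem wq_int' {N : ℕ} {x : X} (hN : Finite ↥(stabilizer H x) → Nat.card ↥(stabilizer H x) ≤ N) :
    ∃ k : ℤ, ((N.factorial : ℕ) : ℚ) * wq H x = k := by
  by_cases hf : Finite ↥(stabilizer H x)
  · have h1 : 0 < Nat.card ↥(stabilizer H x) := Nat.card_pos
    obtain ⟨k, hk⟩ := Nat.dvd_factorial h1 (hN hf)
    refine ⟨k, ?_⟩
    unfold wq iw
    rw [hk]
    push_cast
    have h2 : ((Nat.card ↥(stabilizer H x) : ℕ) : ℚ) ≠ 0 := Nat.cast_ne_zero.2 h1.ne'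
    field_simp
  · refine ⟨0, ?_⟩
    have h1 : wq H x = 0 := iw_eq_zero.2 hf
    rw [h1]; simp

theorem mass_int' {N : ℕ} {s : Set X} (hs : FinOrb H s)
    (hN : ∀ x ∈ s, Finite ↥(stabilizer H x) → Nat.card ↥(stabilizer H x) ≤ N) :
    ∃ k : ℤ, ((N.factorial : ℕ) : ℚ) * mass H s = k := by
  have h1 : ∀ q ∈ Set.Finite.toFinset hs, ∃ k : ℤ,
      ((N.factorial : ℕ) : ℚ) * wq H (Quotient.out q) = k := by
    intro q hq
    rw [Set.Finite.mem_toFinset] at hq
    obtain ⟨x, hx, rfl⟩ := hq
    obtain ⟨k, hk⟩ := wq_int' (hN x hx)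
    refine ⟨k, ?_⟩
    rw [wq_out, hk]
  rw [mass_eq_sum hs, Finset.mul_sum]
  choose! k hk using h1
  refine ⟨∑ q ∈ Set.Finite.toFinset hs, k q, ?_⟩
  push_cast
  exact Finset.sum_congr rfl (fun q hq => hk q hq)

end

end Pool.Agent.BT
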