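import Pool.Agent.BT.KB2
import Pool.Agent.BT.PCrit

/-!
# BT: in a minimal complex every light arrow has one centre (`light_one`)
-/

namespace Pool.Agent.BT

open MulAction
open Pool.Agent.SAF (orbs FinOrb mk_eq_iff FinOrb_iff TAct Conv InC exists_next dist_edge SA oc)

theorem Bd.sub {M : ℕ} {H : Type} [Group H] (h : Bd M H) (A : Subgroup H) : Bd M ↥A := by
  intro B hB
  have h1 : Finite ↥(B.map A.subtype) :=
    Finite.of_equiv _ (B.equivMapOfInjective A.subtype A.subtype_injective).toEquiv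
  have h2 := h _ h1
  rwa [Nat.card_congr (B.equivMapOfInjective A.subtype A.subtype_injective).toEquiv.symm] at h2

namespace TS

variable {H V X : Type} [Group H] [MulAction H V] [MulAction H X] (S : TS H V X)

/-- `c` is the centre of a pentagon through `x y` -/
def W (x y : V) (c : X) : Prop := ∃ (h : H) (i : S.K.I) (j : Fin 5), h • S.c i = c ∧
  ((x = h • S.K.pt i j ∧ y = h • S.K.pt i (j + 1)) ∨
    (y = h • S.K.pt i j ∧ x = h • S.K.pt i (j + 1)))

variable {S} in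
theorem W.inP {x y : V} {c : X} (h : S.W x y c) : S.K.InP x y := by
  obtain ⟨g, i, j, -, h⟩ := h
  exact ⟨g, i, j, h⟩

variable {S} in
theorem W.symm {x y : V} {c : X} (h : S.W x y c) : S.W y x c := by
  obtain ⟨g, i, j, h1, h⟩ := h
  exact ⟨g, i, j, h1, h.symm⟩

variable {S} in
theorem W.of_inP {x y : V} (h : S.K.InP x y) : ∃ c, S.W x y c := by
  obtain ⟨g, i, j, h⟩ := h
  exact ⟨g • S.c i, g, i, j, rfl, h⟩

variable {S} in
theorem W.TE {x y : V} {c : X} (h : S.W x y c) : c ∈ S.TE x y := by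
  obtain ⟨g, i, j, rfl, h⟩ := h
  have h1 := w_TE (S := S) (w := g • S.c i) (i := i) (h := g) rfl j
  rcases h with ⟨rfl, rfl⟩ | ⟨rfl, rfl⟩
  · exact h1
  · exact S.TE_symm _ _ _ (hpt_E i g j) h1

variable {S} in
theorem W.smul {x y : V} {c : X} (h : S.W x y c) (g : H) : S.W (g • x) (g • y) (g • c) := by
  obtain ⟨k, i, j, rfl, h⟩ := h
  refine ⟨g * k, i, j, mul_smul _ _ _, ?_⟩
  rcases h with ⟨rfl, rfl⟩ | ⟨rfl, rfl⟩
  · exact Or.inl ⟨(mul_smul _ _ _).symm, (mul_smul _ _ _).symm⟩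
  · exact Or.inr ⟨(mul_smul _ _ _).symm, (mul_smul _ _ _).symm⟩

theorem A_le (w : X) : (S.KW w).A ≤ S.K.A := by
  have := S.K.finI
  exact Nat.card_le_card_of_injective (fun i : S.KI w => i.1) Subtype.val_injective

theorem centres {w : X} (h : S.K.A ≤ (S.KW w).A) (i : S.K.I) : ∃ g : H, g • S.c i = w := by
  by_contra hcon
  have := S.K.finI
  have h1 : Nat.card {i : S.K.I // ∃ h : H, h • S.c i = w} < Nat.card S.K.I :=
    Finite.card_subtype_lt hcon
  exact absurd h1 (not_lt.2 h)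

theorem exists_bad (S : TS H V X) (hb : ¬ SA H) : ∃ w : X, ¬ SA ↥(stabilizer H w) :=
  Pool.Agent.SAF.exists_bad_of_tree S.T S.act.tree S.act.adj_smul S.act.noinv S.finX S.finT
    S.edgeC hb

/-- the pentagon edges over `w` give pentagon edges of `K^w` -/
theorem kInP {w : X} {x y : V} (h : S.W x y w) (hx : w ∈ S.TV x) (hy : w ∈ S.TV y) :
    (S.KW w).InP (S.kat w x hx) (S.kat w y hy) := by
  obtain ⟨g, i, j, hg, h⟩ := h
  have hi : ∃ h : H, h • S.c i = w := ⟨g, hg⟩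
  let i' : S.KI w := ⟨i, hi⟩
  have hk : g * (hi.choose)⁻¹ ∈ stabilizer H w := by
    rw [mem_stabilizer_iff, mul_smul]
    have e1 : (hi.choose)⁻¹ • w = S.c i := inv_smul_eq_iff.2 hi.choose_spec.symm
    rw [e1, hg]
  have key : ∀ (j : Fin 5) (z : V) (hz : w ∈ S.TV z), z = g • S.K.pt i j →
      S.kat w z hz = (⟨g * (hi.choose)⁻¹, hk⟩ : ↥(stabilizer H w)) • (S.KW w).pt i' j := by
    intro j z hz e
    apply Subtype.ext
    change S.atv w z = (g * (hi.choose)⁻¹) • S.atv w (hi.choose • S.K.pt i j)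
    have e1 := S.atv_smul (w := w) (x := hi.choose • S.K.pt i j) (g * (hi.choose)⁻¹)
    rw [mem_stabilizer_iff.1 hk, mul_smul, inv_smul_smul] at e1
    rw [e]
    exact e1
  refine ⟨⟨g * (hi.choose)⁻¹, hk⟩, i', j, ?_⟩
  rcases h with ⟨h1, h2⟩ | ⟨h1, h2⟩
  · exact Or.inl ⟨key j x hx h1, key (j + 1) y hy h2⟩
  · exact Or.inr ⟨key j y hy h1, key (j + 1) x hx h2⟩

variable {S}

/-- a light arrow over `w`: the tail is real, and the arrow is kept -/
theorem light_KA {w : X} {x a : V} (h : S.K.ar x a) (hw : w ∈ S.TE x a)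
    (hl : ¬ Heavy H (x, a)) : S.atv w x = Sum.inl x ∧ S.KA w (S.atv w x) (S.atv w a) := by
  have h1 : ¬ ∃ u, S.FH x w u := by
    rintro ⟨u, hu⟩
    have hE' : S.K.E a x := Or.inr h
    obtain ⟨h5, h6, h7⟩ := far_TE hE' (S.TE_symm _ _ _ (Or.inl h) hw) hu.1
    have hDE : S.DE w u x a := ⟨Or.inl h, hw, S.TE_symm _ _ _ hE' h7⟩
    rcases S.br w u hu.1.2.1 x a hDE.1 hDE.2.1 hDE.2.2 with h8 | h8
    · exact hl h8
    · have ha : a ∈ S.Inf w u := Inf.pole h hu.2 (S.J_TV _ _ h5) (S.J_TV _ _ h6)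
      exact Br.not_both (E := S.DE w u) (I := S.Inf w u) h8 hDE hu.2 ha
  refine ⟨atv_near h1, ?_⟩
  rw [atv_near h1]
  rcases S.atv_cases w a with ⟨h3, h4⟩ | ⟨u, h3, h4⟩
  · rw [h4]
    exact KA.rr x a h hw
  · rw [h4]
    exact KA.rt x a u h hw h3

/-- light arrows over `w` are not identified -/
theorem light_inj {w : X} {x a x' a' : V} (h : S.K.ar x a) (hw : w ∈ S.TE x a)
    (hl : ¬ Heavy H (x, a)) (h' : S.K.ar x' a') (hw' : w ∈ S.TE x' a')
    (hl' : ¬ Heavy H (x', a')) (e1 : S.atv w x = S.atv w x') (e2 : S.atv w a = S.atv w a') :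
    x = x' ∧ a = a' := by
  have h1 := (light_KA h hw hl).1
  have h2 := (light_KA h' hw' hl').1
  rw [h1, h2] at e1
  have hxx : x = x' := Sum.inl_injective e1
  subst hxx
  refine ⟨rfl, ?_⟩
  rcases S.atv_cases w a with ⟨h3, h4⟩ | ⟨u, h3, h4⟩
  · rcases S.atv_cases w a' with ⟨h5, h6⟩ | ⟨u', h5, h6⟩
    · rw [h4, h6] at e2
      exact Sum.inl_injective e2
    · rw [h4, h6] at e2
      cases e2
  · rcases S.atv_cases w a' with ⟨h5, h6⟩ | ⟨u', h5, h6⟩
    · rw [h4, h6] at e2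
      cases e2
    · rw [h4, h6] at e2
      have hu : u = u' := Sum.inr_injective e2
      subst hu
      have k1 := far_TE (Or.inl h) hw h3.1
      have k2 := far_TE (Or.inl h') hw' h5.1
      have hD : S.DE w u x a := ⟨Or.inl h, hw, k1.2.2⟩
      have hD' : S.DE w u x a' := ⟨Or.inl h', hw', k2.2.2⟩
      have hnx : ∀ b, S.DE w u x b → b ∈ S.Inf w u → ¬ Heavy H (x, b) →
          Nx (S.DE w u) (S.Inf w u) x b := by
        intro b hb hbI hbl
        rcases S.br w u h3.1.2.1 x b hb.1 hb.2.1 hb.2.2 with h8 | h8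
        · exact absurd h8 hbl
        · rcases nx_or (E := S.DE w u) (I := S.Inf w u) hb (fun _ _ e => e.symm) h8 with h9 | h9
          · exact h9
          · exfalso
            obtain ⟨-, σ, s1, s2, -⟩ := h9
            rw [s1 b hbI] at s2
            revert s2
            decide
      refine nx_unique (E := S.DE w u) (I := S.Inf w u) ?_ (hnx a hD h3.2 hl) (hnx a' hD' h5.2 hl')
      intro v t ht
      refine ⟨a, h3.2, ?_⟩
      exact S.connD w u v a h3.1.2.1 ht.TV.1 ht.TV.2 h3.2.1 h3.2.2.1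

variable (S)

/-- arrows with a centre -/
def WW : Set ((V × V) × X) := {q | S.K.ar q.1.1 q.1.2 ∧ S.W q.1.1 q.1.2 q.2}

theorem WW_fin : FinOrb H S.WW := by
  refine FinOrb.mono ?_ S.fE
  rintro q ⟨h1, h2⟩
  exact ⟨Or.inl h1, h2.TE⟩

theorem WW_smul (h : H) (q : (V × V) × X) (hq : q ∈ S.WW) : h • q ∈ S.WW :=
  ⟨S.K.ar_smul h _ _ hq.1, hq.2.smul h⟩

theorem Ew_le_WW : S.K.Ew ≤ mass H S.WW := by
  have h1 := mass_image_le (F := (Prod.fst : (V × V) × X → V × V)) (fun _ _ => rfl) S.WW_fin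
  have h2 : (Prod.fst : (V × V) × X → V × V) '' S.WW = S.K.PA := by
    ext p
    constructor
    · rintro ⟨q, hq, rfl⟩
      exact ⟨hq.1, hq.2.inP⟩
    · rintro ⟨h3, h4⟩
      obtain ⟨c, hc⟩ := W.of_inP h4
      exact ⟨(p, c), ⟨h3, hc⟩, rfl⟩
  rw [h2] at h1
  exact h1

theorem WW_le {w : X} (hc : ∀ i : S.K.I, ∃ g : H, g • S.c i = w) :
    mass H S.WW ≤ (S.KW w).Ew := by
  classical
  have h0 := mass_snd S.WW_fin S.WW_smul (fun _ => w) {Quotient.mk'' w}
    (by
      intro q hq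
      rw [Finset.mem_singleton] at hq
      exact hq.symm)
    (by
      rintro ⟨q, c⟩ ⟨h1, ⟨g, i, j, e, h2⟩⟩
      rw [Finset.mem_singleton]
      obtain ⟨k, hk⟩ := hc i
      refine mk_eq_iff.2 ⟨g * k⁻¹, ?_⟩
      rw [mul_smul, ← hk, inv_smul_smul]
      exact e)
  rw [Finset.sum_singleton] at h0
  rw [h0]
  have f0 : FinOrb ↥(stabilizer H w) {q | (q, w) ∈ S.WW} := finOrb_slice_snd S.WW_fin w
  have s0 : ∀ (k : ↥(stabilizer H w)) (q : V × V), q ∈ {q | (q, w) ∈ S.WW} →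
      k • q ∈ {q | (q, w) ∈ S.WW} := fun k q hq => slice_smul_snd S.WW_smul w k q hq
  let L : Set (V × V) := {q | (q, w) ∈ S.WW ∧ ¬ Heavy H q}
  have hL : L ⊆ {q | (q, w) ∈ S.WW} := fun q hq => hq.1
  have fL : FinOrb ↥(stabilizer H w) L := f0.mono hL
  have sL : ∀ (k : ↥(stabilizer H w)) (q : V × V), q ∈ L → k • q ∈ L := by
    rintro k q ⟨h1, h2⟩
    refine ⟨s0 k q h1, fun h3 => h2 ?_⟩
    intro hf
    exact h3 ((finite_smul_iff (k : H) q).2 hf)
  have m0 : mass ↥(stabilizer H w) {q | (q, w) ∈ S.WW} = mass ↥(stabilizer H w) L := by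
    rw [mass_diff f0 hL sL]
    have : mass ↥(stabilizer H w) ({q | (q, w) ∈ S.WW} \ L) = 0 := by
      apply mass_zero_of (f0.mono Set.sdiff_subset)
      rintro ⟨x, a⟩ ⟨h1, h2⟩
      have h3 : Heavy H (x, a) := by
        by_contra h4
        exact h2 ⟨h1, h4⟩
      unfold wq
      rw [iw_eq_zero]
      intro hf
      -- the stabiliser of `w` in the stabiliser of the arrow has finite index
      have hE : S.K.E x a := Or.inl h1.1
      have hfin := S.TE_fin x a hE h3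
      have hw : w ∈ S.TE x a := W.TE h1.2
      have s1 : ¬ Finite ↥(stabilizer H (x, a) ⊓ stabilizer H w) := by
        apply inf_of_orbit hfin _ h3
        intro k hk
        have e1 := S.TE_smul k x a w hE hw
        have e2 : k • x = x := congrArg Prod.fst (mem_stabilizer_iff.1 hk)
        have e3 : k • a = a := congrArg Prod.snd (mem_stabilizer_iff.1 hk)
        rwa [e2, e3] at e1
      apply s1
      have : Function.Injective (fun k : ↥(stabilizer H (x, a) ⊓ stabilizer H w) =>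
          (⟨⟨k.1, k.2.2⟩, k.2.1⟩ : ↥(stabilizer ↥(stabilizer H w) (x, a)))) := by
        intro a1 b1 e
        exact Subtype.ext (congrArg
          (fun t : ↥(stabilizer ↥(stabilizer H w) (x, a)) => (t.1 : H)) e)
      exact Finite.of_injective _ this
    rw [this, add_zero]
  rw [m0]
  -- images
  have hΦ : ∀ (k : ↥(stabilizer H w)) (q : V × V),
      (fun q : V × V => (S.atv w q.1, S.atv w q.2)) (k • q) =
      k • (fun q : V × V => (S.atv w q.1, S.atv w q.2)) q := by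
    intro k q
    have h1 := S.atv_smul (w := w) (x := q.1) (k : H)
    have h2 := S.atv_smul (w := w) (x := q.2) (k : H)
    rw [mem_stabilizer_iff.1 k.2] at h1 h2
    exact Prod.ext h1 h2
  have m1 : mass ↥(stabilizer H w) ((fun q : V × V => (S.atv w q.1, S.atv w q.2)) '' L) =
      mass ↥(stabilizer H w) L := by
    apply mass_image_inj (F := fun q : V × V => (S.atv w q.1, S.atv w q.2)) hΦ fL sL
    rintro ⟨x, a⟩ ⟨h1, h2⟩ ⟨x', a'⟩ ⟨h3, h4⟩ e
    obtain ⟨e1, e2⟩ := light_inj h1.1 (W.TE h1.2) h2 h3.1 (W.TE h3.2) h4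
      (congrArg Prod.fst e) (congrArg Prod.snd e)
    exact Prod.ext e1 e2
  have fPA : FinOrb ↥(stabilizer H w) (S.KW w).PA :=
    FinOrb.mono (fun p hp => PX.mem_darts.2 (Or.inl hp.1)) (S.KW w).fin_darts
  have hv : ∀ (k : ↥(stabilizer H w)) (q : S.KV w × S.KV w),
      (fun q : S.KV w × S.KV w => (q.1.1, q.2.1)) (k • q) =
      k • (fun q : S.KV w × S.KV w => (q.1.1, q.2.1)) q := fun _ _ => rfl
  have m2 : mass ↥(stabilizer H w) ((fun q : S.KV w × S.KV w => (q.1.1, q.2.1)) ''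
      (S.KW w).PA) = (S.KW w).Ew :=
    mass_image_inj hv fPA (S.KW w).PA_smul (by
      intro a _ b _ e
      exact Prod.ext (Subtype.ext (congrArg Prod.fst e)) (Subtype.ext (congrArg Prod.snd e)))
  rw [← m1, ← m2]
  apply mass_le_of_subset _ (FinOrb.image_equi
    (F := fun q : S.KV w × S.KV w => (q.1.1, q.2.1)) hv fPA)
  rintro _ ⟨⟨x, a⟩, ⟨h1, h2⟩, rfl⟩
  have hE : S.K.E x a := Or.inl h1.1
  have hw : w ∈ S.TE x a := W.TE h1.2
  have hx : w ∈ S.TV x := S.TE_TV _ _ _ hE hw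
  have ha : w ∈ S.TV a := S.TE_TV _ _ _ hE.symm (S.TE_symm _ _ _ hE hw)
  refine ⟨(S.kat w x hx, S.kat w a ha), ⟨?_, S.kInP h1.2 hx ha⟩, rfl⟩
  exact (light_KA h1.1 hw h2).2

/-- the values of a minimal complex -/
theorem crit_eq {M : ℕ} (hK : PCrit M S.K) {w : X} (hw : ¬ SA ↥(stabilizer H w)) :
    (∀ i : S.K.I, ∃ g : H, g • S.c i = w) ∧ (S.KW w).Ns ≤ S.K.Ns ∧
      mass H S.WW ≤ S.K.Ew := by
  obtain ⟨⟨⟨m1, m2⟩, m3⟩, m4⟩ := hK.min
  have hb := hK.bd.sub (stabilizer H w)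
  have a1 := m1 _ _ (S.KW w) hb hw
  have a2 : (S.KW w).A = S.K.A := le_antisymm (S.A_le w) a1
  have hc := S.centres a1
  have b1 := m2 _ _ (S.KW w) hb hw a2
  have b2 : (S.KW w).hg.bb = S.K.hg.bb := le_antisymm (S.bb_le w) b1
  have e1 := m3 _ _ (S.KW w) hb hw a2 b2
  have e2 := S.Ew_le_WW
  have e3 := S.WW_le hc
  have e4 : (S.KW w).Ew = S.K.Ew := le_antisymm e1 (e2.trans e3)
  exact ⟨hc, m4 _ _ (S.KW w) hb hw a2 b2 e4, by rw [← e4]; exact e3⟩

theorem heavy_pair {x a : V} (hf : Finite ↥(stabilizer H x ⊓ stabilizer H a)) :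
    Finite ↥(stabilizer H (x, a)) := by
  refine finite_of_le ?_ hf
  intro k hk
  exact ⟨congrArg Prod.fst (mem_stabilizer_iff.1 hk), congrArg Prod.snd (mem_stabilizer_iff.1 hk)⟩

/-- every light arrow of a minimal complex has one centre -/
theorem light_one {M : ℕ} (hK : PCrit M S.K) {x a : V} (hx : S.K.ar x a)
    (hf : ¬ Heavy H (x, a)) {c c' : X} (hc : S.W x a c) (hc' : S.W x a c') : c = c' := by
  obtain ⟨w, hw⟩ := S.exists_bad hK.bad
  obtain ⟨-, -, h3⟩ := S.crit_eq hK hw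
  have himg : (Prod.fst : (V × V) × X → V × V) '' S.WW = S.K.PA := by
    ext p
    constructor
    · rintro ⟨q, hq, rfl⟩
      exact ⟨hq.1, hq.2.inP⟩
    · rintro ⟨h3, h4⟩
      obtain ⟨c, hc⟩ := W.of_inP h4
      exact ⟨(p, c), ⟨h3, hc⟩, rfl⟩
  have h4 : mass H S.WW ≤ mass H ((Prod.fst : (V × V) × X → V × V) '' S.WW) := by
    rw [himg]
    exact h3
  have h5 : Finite ↥(stabilizer H ((x, a), c)) := by
    have h6 : Finite ↥(stabilizer H (x, a)) := by
      by_contra h7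
      exact hf h7
    refine finite_of_le ?_ h6
    intro k hk
    exact congrArg Prod.fst (mem_stabilizer_iff.1 hk)
  have h6 := (eq_of_mass_eq (F := (Prod.fst : (V × V) × X → V × V)) (fun _ _ => rfl) S.WW_fin h4
    (a := ((x, a), c)) (b := ((x, a), c')) ⟨hx, hc⟩ ⟨hx, hc'⟩ rfl h5).1
  exact congrArg Prod.snd h6

end TS

end Pool.Agent.BT
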