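import Pool.Agent.BT.KVtx

/-!
# BT: `K^w` is a pentagon complex (first cohomology)
-/

namespace Pool.Agent.BT

open MulAction
open Pool.Agent.SAF (orbs FinOrb mk_eq_iff FinOrb_iff TAct Conv InC exists_next dist_edge)

namespace TS

variable {H V X : Type} [Group H] [MulAction H V] [MulAction H X] {S : TS H V X}

/-- exactly one end of an arrow over an edge crosses the edge -/
theorem DE_cross {w u : X} {x y : V} (h : S.DE w u x y) (hwu : S.T.Adj w u) :
    ((w ∈ S.J x ∧ u ∈ S.J x) ∧ ¬ (w ∈ S.J y ∧ u ∈ S.J y)) ∨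
    ((w ∈ S.J y ∧ u ∈ S.J y) ∧ ¬ (w ∈ S.J x ∧ u ∈ S.J x)) := by
  obtain ⟨hE, hw, hu⟩ := h
  have hnot : ¬ ((w ∈ S.J x ∧ u ∈ S.J x) ∧ (w ∈ S.J y ∧ u ∈ S.J y)) := by
    rintro ⟨⟨a, b⟩, ⟨c, d⟩⟩
    have e1 := S.p_u x y w hE a c
    have e2 := S.p_u x y u hE b d
    exact S.T.ne_of_adj hwu (e1.trans e2.symm)
  have hd : S.T.dist w u = 1 := SimpleGraph.dist_eq_one_iff_adj.2 hwu
  have c1 : S.T.dist (S.p x y) u = S.T.dist u (S.p x y) := SimpleGraph.dist_comm
  have c2 : S.T.dist (S.p x y) w = S.T.dist w (S.p x y) := SimpleGraph.dist_comm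
  have c3 : S.T.dist u w = S.T.dist w u := SimpleGraph.dist_comm
  have key : ∀ z t : V, S.p x y ∈ S.J z → S.p x y ∈ S.J t → w ∈ S.J z → u ∈ S.J t →
      (w ∈ S.J t) ∨ (u ∈ S.J z) := by
    intro z t hz ht hwz hut
    rcases (dist_edge S.act.tree hwu (S.p x y)).1 with e | e
    · left
      exact S.J_conv t u hut _ ht w (by omega)
    · right
      exact S.J_conv z w hwz _ hz u (by omega)
  rcases S.TE_J x y w hE hw with a | a <;> rcases S.TE_J x y u hE hu with b | b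
  · exact Or.inl ⟨⟨a, b⟩, fun h => hnot ⟨⟨a, b⟩, h⟩⟩
  · rcases key x y (S.p_l x y hE) (S.p_r x y hE) a b with c | c
    · exact Or.inr ⟨⟨c, b⟩, fun h => hnot ⟨h, ⟨c, b⟩⟩⟩
    · exact Or.inl ⟨⟨a, c⟩, fun h => hnot ⟨⟨a, c⟩, h⟩⟩
  · rcases key y x (S.p_r x y hE) (S.p_l x y hE) a b with c | c
    · exact Or.inl ⟨⟨c, b⟩, fun h => hnot ⟨⟨c, b⟩, h⟩⟩
    · exact Or.inr ⟨⟨a, c⟩, fun h => hnot ⟨h, ⟨a, c⟩⟩⟩
  · exact Or.inr ⟨⟨a, b⟩, fun h => hnot ⟨h, ⟨a, b⟩⟩⟩

theorem DE.symm {w u : X} {x y : V} (h : S.DE w u x y) : S.DE w u y x :=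
  ⟨h.1.symm, S.TE_symm _ _ _ h.1 h.2.1, S.TE_symm _ _ _ h.1 h.2.2⟩

theorem DE.TV {w u : X} {x y : V} (h : S.DE w u x y) : w ∈ S.TV x ∧ u ∈ S.TV x :=
  ⟨S.TE_TV _ _ _ h.1 h.2.1, S.TE_TV _ _ _ h.1 h.2.2⟩

section H1

variable {w : X} (ψ : V ⊕ X → V ⊕ X → ZMod 2)

open Classical in
/-- the values on the heavy vertices over the edge `w u` -/
noncomputable def g0 (S : TS H V X) (w : X) (ψ : V ⊕ X → V ⊕ X → ZMod 2) (u : X) (z : V) :
    ZMod 2 :=
  if S.Tw z w u then 0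
  else if w ∈ S.J z ∧ u ∈ S.J z then ψ (Sum.inl z) (Sum.inr u)
  else if h : ∃ x, w ∈ S.J x ∧ u ∈ S.J x ∧ x ∈ S.Inf w u ∧ S.DE w u x z then
    ψ (Sum.inl h.choose) (Sum.inr u) + ψ (Sum.inl h.choose) (S.atv w z)
  else 0

theorem g0_far {u : X} {z : V} (h : S.Tw z w u) : g0 S w ψ u z = 0 := by
  unfold g0
  rw [if_pos h]

theorem g0_cross {u : X} {z : V} (h1 : w ∈ S.J z) (h2 : u ∈ S.J z) :
    g0 S w ψ u z = ψ (Sum.inl z) (Sum.inr u) := by
  unfold g0
  rw [if_neg (fun h => h.1 h1), if_pos ⟨h1, h2⟩]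

theorem g0_near {u : X} {z : V} (h1 : ¬ S.Tw z w u) (h2 : ¬ (w ∈ S.J z ∧ u ∈ S.J z))
    (h3 : ∃ x, w ∈ S.J x ∧ u ∈ S.J x ∧ x ∈ S.Inf w u ∧ S.DE w u x z) :
    ∃ x, w ∈ S.J x ∧ u ∈ S.J x ∧ x ∈ S.Inf w u ∧ S.DE w u x z ∧
      g0 S w ψ u z = ψ (Sum.inl x) (Sum.inr u) + ψ (Sum.inl x) (S.atv w z) := by
  obtain ⟨a, b, c, d⟩ := h3.choose_spec
  refine ⟨h3.choose, a, b, c, d, ?_⟩
  unfold g0
  rw [if_neg h1, if_neg h2, dif_pos h3]

/-- edges of `K^w` on `V ⊕ X` -/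
def EK (S : TS H V X) (w : X) (s t : V ⊕ X) : Prop :=
  S.PK w s ∧ S.PK w t ∧ (S.KA w s t ∨ S.KA w t s)

theorem EK.symm {s t : V ⊕ X} (h : EK S w s t) : EK S w t s := ⟨h.2.1, h.1, h.2.2.symm⟩

theorem EK.of_E {x y : V} (hE : S.K.E x y) (hw : w ∈ S.TE x y) :
    EK S w (S.atv w x) (S.atv w y) :=
  ⟨PK_atv (S.TE_TV _ _ _ hE hw), PK_atv (S.TE_TV _ _ _ hE.symm (S.TE_symm _ _ _ hE hw)),
    KA.of_E hE hw⟩

theorem EK.cr {x : V} {u : X} (h : S.T.Adj w u) (h1 : w ∈ S.J x) (h2 : u ∈ S.J x)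
    (h3 : x ∈ S.Inf w u) : EK S w (Sum.inl x) (Sum.inr u) := by
  refine ⟨⟨S.J_TV _ _ h1, fun ⟨_, hu⟩ => hu.1.1 h1⟩, ⟨h, x, h3, Or.inl ⟨h1, h2⟩⟩, Or.inl ?_⟩
  exact KA.cr x u h h1 h2 h3

variable (hs : ∀ s t, ψ s t = ψ t s)
  (h4 : ∀ a b c d, EK S w a b → EK S w b c → EK S w c d → EK S w d a →
    ψ a b + ψ b c + ψ c d + ψ d a = 0)

include hs h4

theorem g0_ok {u : X} (hwu : S.T.Adj w u) {x y : V} (h : S.DE w u x y) (hx : x ∈ S.Inf w u)
    (hy : y ∈ S.Inf w u) :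
    ψ (S.atv w x) (S.atv w y) = g0 S w ψ u x + g0 S w ψ u y := by
  have main : ∀ x y : V, S.DE w u x y → x ∈ S.Inf w u → y ∈ S.Inf w u →
      (w ∈ S.J x ∧ u ∈ S.J x) → ¬ (w ∈ S.J y ∧ u ∈ S.J y) →
      ψ (S.atv w x) (S.atv w y) = g0 S w ψ u x + g0 S w ψ u y := by
    clear h hx hy x y
    intro x y h hx hy hcx hcy
    rw [atv_J hcx.1, g0_cross ψ hcx.1 hcx.2]
    by_cases hT : S.Tw y w u
    · rw [atv_far ⟨hT, hy⟩, g0_far ψ hT, add_zero]
    · obtain ⟨x', h1, h2, h3, h4', h5⟩ := g0_near ψ hT hcy ⟨x, hcx.1, hcx.2, hx, h⟩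
      rw [h5]
      have e1 := EK.cr (S := S) hwu hcx.1 hcx.2 hx
      have e2 := EK.cr (S := S) hwu h1 h2 h3
      have e3 := EK.of_E (S := S) (w := w) h.1 h.2.1
      have e4 := EK.of_E (S := S) (w := w) h4'.1 h4'.2.1
      rw [atv_J hcx.1] at e3
      rw [atv_J h1] at e4
      have e5 := h4 _ _ _ _ e1.symm e3 e4.symm e2
      rw [hs (Sum.inr u) (Sum.inl x), hs (S.atv w y) (Sum.inl x')] at e5
      have k : ∀ a b c d : ZMod 2, a + b + c + d = 0 → b = a + (d + c) := by decide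
      exact k _ _ _ _ e5
  rcases DE_cross h hwu with ⟨h1, h2⟩ | ⟨h1, h2⟩
  · exact main x y h hx hy h1 h2
  · rw [hs, main y x h.symm hy hx h1 h2, add_comm]

theorem exists_g {u : X} (hwu : S.T.Adj w u) : ∃ g : V → ZMod 2,
    (∀ x ∈ S.Inf w u, g x = g0 S w ψ u x) ∧
    ∀ x y, S.DE w u x y → ψ (S.atv w x) (S.atv w y) = g x + g y := by
  have hheavy : ∀ x y, S.DE w u x y → Heavy H (x, y) → Heavy H (x, w, u) ∧ Heavy H (y, w, u) := by
    intro x y h hh
    have hfin := S.TE_fin x y h.1 hh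
    have hinv : ∀ k ∈ stabilizer H (x, y), ∀ z ∈ S.TE x y, k • z ∈ S.TE x y := by
      intro k hk z hz
      have h1 := S.TE_smul k x y z h.1 hz
      have h2 : k • x = x := congrArg Prod.fst (mem_stabilizer_iff.1 hk)
      have h3 : k • y = y := congrArg Prod.snd (mem_stabilizer_iff.1 hk)
      rwa [h2, h3] at h1
    have s1 : ¬ Finite ↥(stabilizer H (x, y) ⊓ stabilizer H w) :=
      inf_of_orbit hfin (fun k hk => hinv k hk w h.2.1) hh
    have s2 : ¬ Finite ↥((stabilizer H (x, y) ⊓ stabilizer H w) ⊓ stabilizer H u) :=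
      inf_of_orbit hfin (fun k hk => hinv k hk.1 u h.2.2) s1
    constructor
    · refine not_finite_mono ?_ s2
      rintro k ⟨⟨k1, k2⟩, k3⟩
      exact mem_st3.2 ⟨congrArg Prod.fst (mem_stabilizer_iff.1 k1), k2, k3⟩
    · refine not_finite_mono ?_ s2
      rintro k ⟨⟨k1, k2⟩, k3⟩
      exact mem_st3.2 ⟨congrArg Prod.snd (mem_stabilizer_iff.1 k1), k2, k3⟩
  apply ext_exists (P := {z | w ∈ S.TV z ∧ u ∈ S.TV z}) (E := S.DE w u) (I := S.Inf w u)
  · exact fun x y h => h.symm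
  · exact fun x h => S.K.E_irr x h.1
  · exact fun x y h => h.TV
  · rintro x ⟨h1, h2⟩ y ⟨h3, h5⟩
    exact S.connD w u x y hwu h1 h2 h3 h5
  · exact fun x h => ⟨h.1, h.2.1⟩
  · intro x y h
    rcases S.br w u hwu x y h.1 h.2.1 h.2.2 with h1 | h1
    · left
      obtain ⟨h2, h3⟩ := hheavy x y h h1
      exact ⟨⟨h.TV.1, h.TV.2, h2⟩, ⟨h.symm.TV.1, h.symm.TV.2, h3⟩⟩
    · exact Or.inr h1
  · exact fun x y => hs _ _
  · exact fun x y h hx hy => g0_ok ψ hs h4 hwu h hx hy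

variable (h5 : ∀ (i : S.K.I) (h : H), h • S.c i = w →
    ∑ j : Fin 5, ψ (S.atv w (h • S.K.pt i j)) (S.atv w (h • S.K.pt i (j + 1))) = 0)

include h5

theorem H1_core : ∃ F : V ⊕ X → ZMod 2, ∀ s t, EK S w s t → ψ s t = F s + F t := by
  classical
  -- the functions over the edges at `w`
  have hg : ∀ u : X, ∃ g : V → ZMod 2, S.T.Adj w u →
      ((∀ x ∈ S.Inf w u, g x = g0 S w ψ u x) ∧
      ∀ x y, S.DE w u x y → ψ (S.atv w x) (S.atv w y) = g x + g y) := by
    intro u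
    by_cases hu : S.T.Adj w u
    · obtain ⟨g, h⟩ := exists_g ψ hs h4 hu
      exact ⟨g, fun _ => h⟩
    · exact ⟨fun _ => 0, fun h => absurd h hu⟩
  choose g hg using hg
  let G : X → V → ZMod 2 := fun u z => if w ∈ S.TV z ∧ u ∈ S.TV z then g u z else 0
  -- direction to `TE x y`
  let Dr : V → V → X → Prop := fun x y u => S.T.Adj w u ∧
    ∀ z ∈ S.TE x y, S.T.dist w z = S.T.dist u z + 1
  have Dr_ex : ∀ x y, S.K.E x y → w ∉ S.TE x y → ∃ u, Dr x y u := by
    intro x y hE hw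
    have hne : w ≠ S.p x y := by
      intro e
      rw [e] at hw
      exact hw (S.p_TE x y hE)
    obtain ⟨u, hu, e⟩ := exists_next S.act.tree hne
    refine ⟨u, hu, fun z hz => ?_⟩
    rcases (dist_edge S.act.tree hu z).1 with e' | e'
    · exfalso
      apply hw
      refine (Pool.Agent.SAF.Conv.edge S.act.tree (S.TE_conv x y hE) hu hz (S.p_TE x y hE)
        e' ?_).1
      rw [SimpleGraph.dist_comm, e, SimpleGraph.dist_comm]
    · rw [SimpleGraph.dist_comm, e', SimpleGraph.dist_comm]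
  let φ : V → V → ZMod 2 := fun x y => if S.K.E x y then (if w ∈ S.TE x y then
    ψ (S.atv w x) (S.atv w y) else (if h : ∃ u, Dr x y u then G h.choose x + G h.choose y
    else 0)) else 0
  have φ1 : ∀ x y, S.K.E x y → w ∈ S.TE x y → φ x y = ψ (S.atv w x) (S.atv w y) := by
    intro x y h1 h2
    change (if S.K.E x y then _ else _) = _
    rw [if_pos h1, if_pos h2]
  have φ2 : ∀ x y u, S.K.E x y → w ∉ S.TE x y → Dr x y u → φ x y = G u x + G u y := by
    intro x y u h1 h2 h3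
    have hex : ∃ u, Dr x y u := ⟨u, h3⟩
    have hu : hex.choose = u := tree_next_uniq S.act.tree hex.choose_spec.1 h3.1
      (hex.choose_spec.2 _ (S.p_TE x y h1)) (h3.2 _ (S.p_TE x y h1))
    change (if S.K.E x y then _ else _) = _
    rw [if_pos h1, if_neg h2, dif_pos hex, hu]
  have φ0 : ∀ x y, ¬ S.K.E x y → φ x y = 0 := by
    intro x y h1
    change (if S.K.E x y then _ else _) = _
    rw [if_neg h1]
  have φs : ∀ x y, φ x y = φ y x := by
    intro x y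
    by_cases h1 : S.K.E x y
    · by_cases h2 : w ∈ S.TE x y
      · rw [φ1 x y h1 h2, φ1 y x h1.symm (S.TE_symm _ _ _ h1 h2), hs]
      · have h2' : w ∉ S.TE y x := fun h => h2 (S.TE_symm _ _ _ h1.symm h)
        obtain ⟨u, hu⟩ := Dr_ex x y h1 h2
        have hu' : Dr y x u := ⟨hu.1, fun z hz => hu.2 z (S.TE_symm _ _ _ h1.symm hz)⟩
        rw [φ2 x y u h1 h2 hu, φ2 y x u h1.symm h2' hu', add_comm]
    · rw [φ0 x y h1, φ0 y x (fun h => h1 h.symm)]
  have dbl : ∀ a : ZMod 2, a + a = 0 := CharTwo.add_self_eq_zero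
  obtain ⟨f, hf⟩ := S.K.H1 φ φs (by
    intro a b c d e1 e2 e3 e4
    rcases S.clean.c4 a b c d e1 e2 e3 e4 with h | h
    · subst h
      rw [φs b a, φs d a]
      have k : ∀ p q : ZMod 2, p + p + q + q = 0 := by decide
      exact k _ _
    · subst h
      rw [φs c b, φs b a]
      have k : ∀ p q : ZMod 2, p + q + q + p = 0 := by decide
      exact k _ _) (by
    intro a b c e1 e2 e3
    exact (S.clean.c3 a b c e1 e2 e3).elim) (by
    intro i h
    by_cases hc : h • S.c i = w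
    · rw [← h5 i h hc]
      apply Finset.sum_congr rfl
      intro j _
      exact φ1 _ _ (hpt_E i h j) (w_TE hc j)
    · obtain ⟨u, hu, e⟩ := exists_next S.act.tree (Ne.symm hc)
      have key : ∀ j : Fin 5, φ (h • S.K.pt i j) (h • S.K.pt i (j + 1)) =
          G u (h • S.K.pt i j) + G u (h • S.K.pt i (j + 1)) := by
        intro j
        have hE := hpt_E i h j
        have hcT : h • S.c i ∈ S.TE (h • S.K.pt i j) (h • S.K.pt i (j + 1)) := w_TE rfl j
        by_cases hw : w ∈ S.TE (h • S.K.pt i j) (h • S.K.pt i (j + 1))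
        · have hd : S.T.dist w u = 1 := SimpleGraph.dist_eq_one_iff_adj.2 hu
          have hu' : u ∈ S.TE (h • S.K.pt i j) (h • S.K.pt i (j + 1)) :=
            S.TE_conv _ _ hE w hw _ hcT u (by omega)
          have hDE : S.DE w u (h • S.K.pt i j) (h • S.K.pt i (j + 1)) := ⟨hE, hw, hu'⟩
          rw [φ1 _ _ hE hw, (hg u hu).2 _ _ hDE]
          change _ = (if _ then _ else _) + (if _ then _ else _)
          rw [if_pos hDE.TV, if_pos hDE.symm.TV]
        · refine φ2 _ _ u hE hw ⟨hu, fun z hz => ?_⟩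
          rcases (dist_edge S.act.tree hu z).1 with e' | e'
          · exfalso
            apply hw
            refine (Pool.Agent.SAF.Conv.edge S.act.tree (S.TE_conv _ _ hE) hu hz hcT e' ?_).1
            rw [SimpleGraph.dist_comm, e, SimpleGraph.dist_comm]
          · rw [SimpleGraph.dist_comm, e', SimpleGraph.dist_comm]
      rw [Finset.sum_congr rfl (fun j _ => key j), Finset.sum_add_distrib]
      have h1 : ∑ j : Fin 5, G u (h • S.K.pt i (j + 1)) = ∑ j : Fin 5, G u (h • S.K.pt i j) :=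
        Equiv.sum_comp (Equiv.addRight (1 : Fin 5)) (fun j => G u (h • S.K.pt i j))
      rw [h1]
      exact dbl _)
  have hf' : ∀ x y, S.K.E x y → φ x y = f x + f y := hf
  -- constants
  have hconst : ∀ u, S.T.Adj w u → ∀ x y, w ∈ S.TV x → u ∈ S.TV x → w ∈ S.TV y → u ∈ S.TV y →
      f x + g u x = f y + g u y := by
    intro u hu x y h1 h2 h3 h6
    induction S.connD w u x y hu h1 h2 h3 h6 with
    | refl => rfl
    | tail _ e ih =>
      rename_i b c _
      have hDE : S.DE w u b c := e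
      have ih' := ih hDE.TV.1 hDE.TV.2
      rw [ih']
      have e1 := hf' b c hDE.1
      rw [φ1 _ _ hDE.1 hDE.2.1, (hg u hu).2 _ _ hDE] at e1
      have k : ∀ p q r s : ZMod 2, p + q = r + s → r + p = s + q := by decide
      exact k _ _ _ _ e1
  let F : V ⊕ X → ZMod 2 := fun s => match s with
    | Sum.inl x => f x
    | Sum.inr u => if h : ∃ x, w ∈ S.TV x ∧ u ∈ S.TV x then f h.choose + g u h.choose else 0
  have Fr : ∀ u x, S.T.Adj w u → w ∈ S.TV x → u ∈ S.TV x → F (Sum.inr u) = f x + g u x := by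
    intro u x hu h1 h2
    have hex : ∃ x, w ∈ S.TV x ∧ u ∈ S.TV x := ⟨x, h1, h2⟩
    change (if h : ∃ x, w ∈ S.TV x ∧ u ∈ S.TV x then _ else _) = _
    rw [dif_pos hex]
    exact hconst u hu _ _ hex.choose_spec.1 hex.choose_spec.2 h1 h2
  have main : ∀ s t, S.PK w s → S.PK w t → S.KA w s t → ψ s t = F s + F t := by
    intro s t ps pt h
    cases h with
    | rr x a h1 h2 =>
      have e1 := hf' x a (Or.inl h1)
      rw [φ1 _ _ (Or.inl h1) h2, atv_near ps.2, atv_near pt.2] at e1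
      exact e1
    | rt x a u h1 h2 h3 =>
      have e1 := hf' x a (Or.inl h1)
      rw [φ1 _ _ (Or.inl h1) h2, atv_near ps.2, atv_far h3] at e1
      rw [e1, Fr u a h3.1.2.1 h3.2.1 h3.2.2.1, (hg u h3.1.2.1).1 a h3.2, g0_far ψ h3.1, add_zero]
    | cr x u h1 h2 h3 h6 =>
      rw [Fr u x h1 h6.1 h6.2.1, (hg u h1).1 x h6, g0_cross ψ h2 h3]
      change _ = f x + (f x + _)
      have k : ∀ p q : ZMod 2, q = p + (p + q) := by decide
      exact k _ _
  refine ⟨F, fun s t h => ?_⟩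
  rcases h.2.2 with h' | h'
  · exact main s t h.1 h.2.1 h'
  · rw [hs, main t s h.2.1 h.1 h', add_comm]

end H1

variable (S) in
/-- the complex `K^w` -/
noncomputable def KW (w : X) : PX ↥(stabilizer H w) (S.KV w) where
  ar s t := S.KA w s.1 t.1
  rk := S.krk
  I := S.KI w
  finI := KI_fin w
  pt := S.kpt w
  ar_rk _ _ h := krk_lt h
  ar_smul k s t h := by
    have := KA.smul h (k : H)
    rw [mem_stabilizer_iff.1 k.2] at this
    exact this
  rk_smul := krk_smul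
  two s a b c h1 h2 h3 := by
    rcases KA.two a.2 b.2 c.2 h1 h2 h3 with e | e | e
    · exact Or.inl (Subtype.ext e)
    · exact Or.inr (Or.inl (Subtype.ext e))
    · exact Or.inr (Or.inr (Subtype.ext e))
  pt_E := kpt_E w
  ne := KV_ne w
  conn := KV_conn
  H1 φ hs h4 h3 h5 := by
    classical
    let ψ : V ⊕ X → V ⊕ X → ZMod 2 := fun s t =>
      if hs : S.PK w s then (if ht : S.PK w t then φ ⟨s, hs⟩ ⟨t, ht⟩ else 0) else 0
    have hψ : ∀ s t : S.KV w, ψ s.1 t.1 = φ s t := by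
      intro s t
      change (if hs : S.PK w s.1 then _ else _) = _
      rw [dif_pos s.2, dif_pos t.2]
      rfl
    have hψs : ∀ s t, ψ s t = ψ t s := by
      intro s t
      by_cases h1 : S.PK w s
      · by_cases h2 : S.PK w t
        · have e1 := hψ ⟨s, h1⟩ ⟨t, h2⟩
          have e2 := hψ ⟨t, h2⟩ ⟨s, h1⟩
          exact e1.trans ((hs _ _).trans e2.symm)
        · change (if hs : S.PK w s then _ else _) = (if hs : S.PK w t then _ else _)
          rw [dif_pos h1, dif_neg h2, dif_neg h2]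
      · by_cases h2 : S.PK w t
        · change (if hs : S.PK w s then _ else _) = (if hs : S.PK w t then _ else _)
          rw [dif_neg h1, dif_pos h2, dif_neg h1]
        · change (if hs : S.PK w s then _ else _) = (if hs : S.PK w t then _ else _)
          rw [dif_neg h1, dif_neg h2]
    obtain ⟨F, hF⟩ := H1_core (S := S) (w := w) ψ hψs (by
      intro a b c d e1 e2 e3 e4
      have := h4 ⟨a, e1.1⟩ ⟨b, e2.1⟩ ⟨c, e3.1⟩ ⟨d, e4.1⟩ e1.2.2 e2.2.2 e3.2.2 e4.2.2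
      rw [← hψ, ← hψ, ← hψ, ← hψ] at this
      exact this) (by
      intro i h hc
      have hi : ∃ h : H, h • S.c i = w := ⟨h, hc⟩
      let i' : S.KI w := ⟨i, hi⟩
      have hk : h * (hi.choose)⁻¹ ∈ stabilizer H w := by
        rw [mem_stabilizer_iff, mul_smul]
        have e1 : (hi.choose)⁻¹ • w = S.c i := inv_smul_eq_iff.2 hi.choose_spec.symm
        rw [e1, hc]
      have e := h5 i' ⟨_, hk⟩
      rw [← e]
      apply Finset.sum_congr rfl
      intro j _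
      have key : ∀ j, S.atv w (h • S.K.pt i j) =
          ((⟨h * (hi.choose)⁻¹, hk⟩ : ↥(stabilizer H w)) • S.kpt w i' j).1 := by
        intro j
        change _ = (h * (hi.choose)⁻¹) • S.atv w (hi.choose • S.K.pt i j)
        have e1 := S.atv_smul (w := w) (x := hi.choose • S.K.pt i j) (h * (hi.choose)⁻¹)
        rw [mem_stabilizer_iff.1 hk, mul_smul, inv_smul_smul] at e1
        exact e1
      rw [key j, key (j + 1), hψ])
    refine ⟨fun s => F s.1, fun s t h => ?_⟩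
    rw [← hψ]
    exact hF _ _ ⟨s.2, t.2, h⟩
  fin := S.KV_fin w
  stab := S.KV_stab w

end TS

end Pool.Agent.BT
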