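import Pool.Agent.BT.KE
import Pool.Agent.BT.SAC

/-!
# BT: in `K^w` there is a new sink on a pentagon (`not_all_seen`)
-/

namespace Pool.Agent.BT

open MulAction
open Pool.Agent.SAF (orbs FinOrb mk_eq_iff FinOrb_iff TAct Conv InC exists_next dist_edge SA oc)

namespace TS

variable {H V X : Type} [Group H] [MulAction H V] [MulAction H X] (S : TS H V X)

/-- some arrow has two centres -/
theorem two_centres (hP : S.K.AllP) (hL : S.K.LinkC) (hno : ∀ w : X, ∃ h : H, h • w ≠ w)
    (hne : ∃ x y, S.K.E x y) : ∃ x y c c', S.W x y c ∧ S.W x y c' ∧ c ≠ c' := by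
  by_contra hcon
  push Not at hcon
  -- two edges at one vertex have the same centre
  have h1 : ∀ x y z c c', S.K.E x y → S.K.E x z → S.W x y c → S.W x z c' → c = c' := by
    intro x y z c c' hy hz hc hc'
    have key : ∀ t, Relation.ReflTransGen (fun a b => S.K.Cor a x b) y t → S.W x t c := by
      intro t ht
      induction ht with
      | refl => exact hc
      | tail _ e ih =>
        rename_i a b _
        obtain ⟨g, i, j, h⟩ := e
        have k1 : S.W (g • S.K.pt i j) (g • S.K.pt i (j + 1)) (g • S.c i) :=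
          ⟨g, i, j, rfl, Or.inl ⟨rfl, rfl⟩⟩
        have k2 : S.W (g • S.K.pt i (j + 1)) (g • S.K.pt i (j + 2)) (g • S.c i) := by
          refine ⟨g, i, j + 1, rfl, Or.inl ⟨rfl, ?_⟩⟩
          rw [add_assoc]
          rfl
        rcases h with ⟨rfl, rfl, rfl⟩ | ⟨rfl, rfl, rfl⟩
        · have e1 := hcon _ _ _ _ ih k1.symm
          rw [e1]
          exact k2
        · have e1 := hcon _ _ _ _ ih k2
          rw [e1]
          exact k1.symm
    exact hcon x z c c' (key z (hL x y z hy hz)) hc'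
  obtain ⟨x0, y0, h0⟩ := hne
  obtain ⟨c, hc⟩ := W.of_inP (hP x0 y0 h0)
  have h2 : ∀ x, ∀ y c', S.K.E x y → S.W x y c' → c' = c := by
    intro x
    induction S.K.conn x0 x with
    | refl =>
      intro y c' hy hc'
      exact h1 x0 y y0 c' c hy h0 hc' hc
    | tail _ e ih =>
      rename_i a b _
      intro y c' hy hc'
      have hab : S.K.E a b := e
      obtain ⟨c'', hc''⟩ := W.of_inP (hP a b hab)
      have e1 := ih b c'' hab hc''
      rw [← e1]
      exact h1 b y a c' c'' hy hab.symm hc' hc''.symm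
  obtain ⟨g, hg⟩ := hno c
  exact hg (h2 _ _ _ (S.K.E_smul g h0) (hc.smul g))

/-- a heavy arrow with a centre which is not the meeting point gives a `t`-vertex on a pentagon -/
theorem exists_t {w : X} {x y : V} (hE : S.K.E x y) (hh : Heavy H (x, y)) (hw : S.W x y w)
    (hne : w ≠ S.p x y) : ∃ s : S.KV w, s ∈ (S.KW w).PS ∧ ∃ u, s.1 = Sum.inr u := by
  have main : ∀ x y : V, S.K.E x y → Heavy H (x, y) → S.W x y w → w ∈ S.J x → w ∉ S.J y →
      ∃ s : S.KV w, s ∈ (S.KW w).PS ∧ ∃ u, s.1 = Sum.inr u := by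
    clear hE hh hw hne x y
    intro x y hE hh hw hx hy
    obtain ⟨u, hu⟩ := Tw.ex hy
    have hT := hw.TE
    obtain ⟨h5, h6, h7⟩ := far_TE hE hT hu
    have hDE : S.DE w u x y := ⟨hE, hT, h7⟩
    have h8 := S.DE_heavy hDE hh
    have h9 : y ∈ S.Inf w u := by
      refine ⟨hDE.symm.TV.1, hDE.symm.TV.2, ?_⟩
      refine not_finite_mono ?_ h8
      rintro k ⟨⟨k1, k2⟩, k3⟩
      exact mem_st3.2 ⟨congrArg Prod.snd (mem_stabilizer_iff.1 k1), k2, k3⟩
    have hat : S.atv w y = Sum.inr u := atv_far ⟨hu, h9⟩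
    refine ⟨S.kat w y hDE.symm.TV.1, ⟨?_, ?_⟩, u, hat⟩
    · intro a ha
      have h10 : S.KA w (S.atv w y) a.1 := ha
      rw [hat] at h10
      cases h10
    · exact (S.kInP hw.symm hDE.symm.TV.1 hDE.TV.1).vp
  by_cases hx : w ∈ S.J x
  · by_cases hy : w ∈ S.J y
    · exact absurd (S.p_u x y w hE hx hy) hne
    · exact main x y hE hh hw hx hy
  · have hy : w ∈ S.J y := (S.TE_J x y w hE hw.TE).resolve_left hx
    refine main y x hE.symm ?_ hw.symm hy hx
    intro hf
    apply hh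
    refine finite_of_le ?_ hf
    intro k hk
    exact mem_stabilizer_iff.2 (Prod.ext (congrArg Prod.snd (mem_stabilizer_iff.1 hk))
      (congrArg Prod.fst (mem_stabilizer_iff.1 hk)))

/-- not every sink is seen -/
theorem not_all_seen {M : ℕ} (hK : PCrit M S.K) (hno : ∀ w : X, ∃ h : H, h • w ≠ w)
    (hs : ∀ x, S.K.Sink x → S.K.VP x → ∃ y, ∃ c ∈ S.J x, S.W x y c) : False := by
  classical
  -- there is an edge
  have hne : ∃ x y, S.K.E x y := by
    by_contra hcon
    push Not at hcon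
    have h1 : ∀ x y : V, x = y := by
      intro x y
      induction S.K.conn x y with
      | refl => rfl
      | tail _ e ih => exact absurd e (hcon _ _)
    obtain ⟨v⟩ := S.K.ne
    have h2 : ∀ h : H, h • v = v := fun h => h1 _ _
    have h3 : InC H := by
      have e : stabilizer H v = ⊤ := by
        rw [eq_top_iff]
        intro g _
        exact h2 g
      have h4 := S.K.stab v
      rw [e] at h4
      exact InC.inj (Subgroup.topEquiv (G := H)).symm.toMonoidHom
        (Subgroup.topEquiv (G := H)).symm.injective h4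
    exact hK.bad (SA_of_InC h3)
  obtain ⟨x, y, c, c', hc, hc', hcc⟩ := S.two_centres hK.allP hK.link hno hne
  have hE : S.K.E x y := hc.inP.E
  -- the arrow is heavy
  have hh : Heavy H (x, y) := by
    by_contra hl
    rcases hE with h | h
    · exact hcc (S.light_one hK h hl hc hc')
    · refine hcc (S.light_one hK h ?_ hc.symm hc'.symm)
      intro h2
      apply h2
      have h3 : Finite ↥(stabilizer H (x, y)) := by
        by_contra h4
        exact hl h4
      refine finite_of_le ?_ h3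
      intro k hk
      exact mem_stabilizer_iff.2 (Prod.ext (congrArg Prod.snd (mem_stabilizer_iff.1 hk))
        (congrArg Prod.fst (mem_stabilizer_iff.1 hk)))
  obtain ⟨w, hw, hwp⟩ : ∃ w, S.W x y w ∧ w ≠ S.p x y := by
    by_cases h : c = S.p x y
    · exact ⟨c', hc', fun h' => hcc (h.trans h'.symm)⟩
    · exact ⟨c, hc, h⟩
  obtain ⟨w1, hw1⟩ := S.exists_bad hK.bad
  obtain ⟨hcen, -, -⟩ := S.crit_eq hK hw1
  -- `w` is bad
  obtain ⟨g, i, j, hgi, -⟩ := id hw
  obtain ⟨k, hk⟩ := hcen i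
  have hww : (k * g⁻¹) • w = w1 := by
    rw [mul_smul, ← hgi, inv_smul_smul, hk]
  have hbad : ¬ SA ↥(stabilizer H w) := by
    intro h
    apply hw1
    exact h.iso (stabilizerEquivStabilizer (G := H) (a := w) (b := w1) (g := k * g⁻¹) hww.symm)
  obtain ⟨hcen', hNs, -⟩ := S.crit_eq hK hbad
  obtain ⟨s0, hs0, u0, hu0⟩ := S.exists_t hE hh hw hwp
  -- the map on sinks
  have hR : ∀ x ∈ S.K.PS, ∃ b : S.KV w, b ∈ (S.KW w).PS ∧ ∃ g : H, b.1 = Sum.inl (g • x) := by
    rintro x ⟨hx1, hx2⟩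
    obtain ⟨y, c, hcJ, hcW⟩ := hs x hx1 hx2
    obtain ⟨g, i, j, hgi, -⟩ := id hcW
    obtain ⟨k, hk⟩ := hcen' i
    have hcw : (k * g⁻¹) • c = w := by rw [mul_smul, ← hgi, inv_smul_smul, hk]
    have hJ := S.J_smul (k * g⁻¹) x c hcJ
    have hW := hcW.smul (k * g⁻¹)
    rw [hcw] at hJ hW
    have hat := atv_J hJ
    have hE2 := hW.inP.E
    have hTx : w ∈ S.TV ((k * g⁻¹) • x) := S.J_TV _ _ hJ
    have hTy : w ∈ S.TV ((k * g⁻¹) • y) := S.TE_TV _ _ _ hE2.symm (S.TE_symm _ _ _ hE2 hW.TE)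
    refine ⟨S.kat w _ hTx, ⟨?_, (S.kInP hW hTx hTy).vp⟩, k * g⁻¹, hat⟩
    intro a ha
    have h10 : S.KA w (S.atv w ((k * g⁻¹) • x)) a.1 := ha
    rw [hat] at h10
    have hns : ∀ b, ¬ S.K.ar ((k * g⁻¹) • x) b := by
      intro b hb
      have := S.K.ar_smul (k * g⁻¹)⁻¹ _ _ hb
      rw [inv_smul_smul] at this
      exact hx1 _ this
    generalize hz : (k * g⁻¹) • x = z at h10 hns
    generalize a.1 = t at h10
    cases h10 with
    | rr _ a h1 h2 => exact hns _ h1
    | rt _ a u h1 h2 h3 => exact hns _ h1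
    | cr _ u h1 h2 h3 h4 =>
      obtain ⟨b, hb, -⟩ := S.pole z w u h1 h2 h3 h4.2.2
      exact hns b hb
  have hlt : S.K.Ns < (S.KW w).Ns := by
    have hf : ∀ x : V, ∃ b : S.KV w, x ∈ S.K.PS → b ∈ (S.KW w).PS ∧
        ∃ g : H, b.1 = Sum.inl (g • x) := by
      intro x
      by_cases hx : x ∈ S.K.PS
      · obtain ⟨b, hb⟩ := hR x hx
        exact ⟨b, fun _ => hb⟩
      · exact ⟨s0, fun h => absurd h hx⟩
    choose f hf using hf
    refine Pool.Agent.SAF.oc_lt_of_inj (H' := ↥(stabilizer H w)) (S.KW w).PS_fin f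
      (fun a ha => (hf a ha).1) ?_ hs0 ?_
    · rintro a ha b hb ⟨h, e⟩
      obtain ⟨-, g1, e1⟩ := hf a ha
      obtain ⟨-, g2, e2⟩ := hf b hb
      have e3 := congrArg (fun t : S.KV w => t.1) e
      change (h : H) • (f a).1 = (f b).1 at e3
      rw [e1, e2] at e3
      have e4 : (h : H) • g1 • a = g2 • b := Sum.inl_injective e3
      refine ⟨g2⁻¹ * ((h : H) * g1), ?_⟩
      rw [mul_smul, mul_smul, e4, inv_smul_smul]
    · intro a ha h e
      obtain ⟨-, g1, e1⟩ := hf a ha
      have e3 := congrArg (fun t : S.KV w => t.1) e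
      change (h : H) • (f a).1 = s0.1 at e3
      rw [e1, hu0] at e3
      cases e3
  exact absurd hNs (not_le.2 hlt)

end TS

end Pool.Agent.BT
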