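import Pool.Agent.BT.PClean
import Pool.Agent.BT.Ext
import Pool.Agent.SAF.A11

/-!
# BT: systems of subtrees which contain the centres of the pentagons

`TS H V X`: a pentagon complex `K`, a tree `T`, subtrees `J x`, larger subtrees `TV x`, and subtrees
`TE x y` for adjacent vertices, which contain the centres of the pentagons. `Inf w u`: the vertices
over the edge `w u` with infinite stabiliser in the stabiliser of the edge. `DE w u`: the graph over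
the edge `w u`.
-/

namespace Pool.Agent.BT

open MulAction
open Pool.Agent.SAF (orbs FinOrb mk_eq_iff FinOrb_iff TAct Conv InC)

structure TS (H V X : Type) [Group H] [MulAction H V] [MulAction H X] where
  K : PX H V
  clean : K.Clean
  T : SimpleGraph X
  act : TAct H T
  edgeC : ∀ w u : X, T.Adj w u → InC ↥(stabilizer H w ⊓ stabilizer H u)
  finX : FinOrb H (Set.univ : Set X)
  finT : FinOrb H {p : X × X | T.Adj p.1 p.2}
  -- the subtrees `J`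
  J : V → Set X
  J_smul : ∀ (h : H) (x : V) (w : X), w ∈ J x → h • w ∈ J (h • x)
  J_conv : ∀ x, Conv T (J x)
  J_ne : ∀ x, (J x).Nonempty
  p : V → V → X
  p_l : ∀ x y, K.E x y → p x y ∈ J x
  p_r : ∀ x y, K.E x y → p x y ∈ J y
  p_u : ∀ x y w, K.E x y → w ∈ J x → w ∈ J y → w = p x y
  pole : ∀ (x : V) (w u : X), T.Adj w u → w ∈ J x → u ∈ J x → Heavy H (x, w, u) →
    ∃ a, K.ar x a ∧ T.dist w (p x a) = T.dist u (p x a) + 1
  -- the subtrees `TV`, `TE`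
  TV : V → Set X
  TV_smul : ∀ (h : H) (x : V) (w : X), w ∈ TV x → h • w ∈ TV (h • x)
  TV_conv : ∀ x, Conv T (TV x)
  J_TV : ∀ x w, w ∈ J x → w ∈ TV x
  TE : V → V → Set X
  TE_symm : ∀ x y w, K.E x y → w ∈ TE x y → w ∈ TE y x
  TE_smul : ∀ (h : H) (x y : V) (w : X), K.E x y → w ∈ TE x y →
    h • w ∈ TE (h • x) (h • y)
  TE_conv : ∀ x y, K.E x y → Conv T (TE x y)
  TE_TV : ∀ x y w, K.E x y → w ∈ TE x y → w ∈ TV x
  TE_J : ∀ x y w, K.E x y → w ∈ TE x y → w ∈ J x ∨ w ∈ J y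
  p_TE : ∀ x y, K.E x y → p x y ∈ TE x y
  TE_fin : ∀ x y, K.E x y → Heavy H (x, y) → (TE x y).Finite
  -- finitely many orbits
  fV : FinOrb H {q : V × X | q.2 ∈ TV q.1}
  fV2 : FinOrb H {q : V × X × X | q.2.1 ∈ TV q.1 ∧ q.2.2 ∈ TV q.1 ∧ T.Adj q.2.1 q.2.2}
  fE : FinOrb H {q : (V × V) × X | K.E q.1.1 q.1.2 ∧ q.2 ∈ TE q.1.1 q.1.2}
  fE2 : FinOrb H {q : (V × V) × X × X | K.E q.1.1 q.1.2 ∧ q.2.1 ∈ TE q.1.1 q.1.2 ∧
    q.2.2 ∈ TE q.1.1 q.1.2 ∧ T.Adj q.2.1 q.2.2}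
  -- centres
  c : K.I → X
  c_TE : ∀ i j, c i ∈ TE (K.pt i j) (K.pt i (j + 1))
  -- the slices are connected
  neN : ∀ w, ∃ x, w ∈ TV x
  connN : ∀ w x y, w ∈ TV x → w ∈ TV y →
    Relation.ReflTransGen (fun a b => K.E a b ∧ w ∈ TE a b) x y
  connD : ∀ w u x y, T.Adj w u → w ∈ TV x → u ∈ TV x → w ∈ TV y → u ∈ TV y →
    Relation.ReflTransGen (fun a b => K.E a b ∧ w ∈ TE a b ∧ u ∈ TE a b) x y
  -- light arrows over an edge are bridges
  br : ∀ w u, T.Adj w u → ∀ x y, K.E x y → w ∈ TE x y → u ∈ TE x y → Heavy H (x, y) ∨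
    Br (fun a b => K.E a b ∧ w ∈ TE a b ∧ u ∈ TE a b)
      {z | w ∈ TV z ∧ u ∈ TV z ∧ Heavy H (z, w, u)} x y

namespace TS

variable {H V X : Type} [Group H] [MulAction H V] [MulAction H X] (S : TS H V X)

/-- heavy vertices over the edge `w u` -/
def Inf (w u : X) : Set V := {z | w ∈ S.TV z ∧ u ∈ S.TV z ∧ Heavy H (z, w, u)}

/-- the graph over the vertex `w` -/
def NE (w : X) (a b : V) : Prop := S.K.E a b ∧ w ∈ S.TE a b

/-- the graph over the edge `w u` -/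
def DE (w u : X) (a b : V) : Prop := S.K.E a b ∧ w ∈ S.TE a b ∧ u ∈ S.TE a b

/-- `J x` lies behind `u`, seen from `w` -/
def Tw (x : V) (w u : X) : Prop := w ∉ S.J x ∧ S.T.Adj w u ∧
  ∃ z ∈ S.J x, S.T.dist w z = S.T.dist u z + 1

/-- `x` is far heavy at `w` via `u` -/
def FH (x : V) (w u : X) : Prop := S.Tw x w u ∧ x ∈ S.Inf w u

/-- `(x, w)` is real -/
def Rl (w : X) (x : V) : Prop := w ∈ S.TV x ∧ ¬ ∃ u, S.FH x w u

/-- there is a `t`-vertex at `w` for the edge `w u` -/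
def OT (w u : X) : Prop := S.T.Adj w u ∧ ∃ x, x ∈ S.Inf w u ∧
  ((w ∈ S.J x ∧ u ∈ S.J x) ∨ S.Tw x w u)

end TS

end Pool.Agent.BT
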