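import Pool.Agent.BT.KTS
import Pool.Agent.SAG.AG

/-!
# BT: the vertices and arrows of `K^w`
-/

namespace Pool.Agent.BT

open MulAction
open Pool.Agent.SAF (orbs FinOrb mk_eq_iff FinOrb_iff TAct Conv InC exists_next dist_edge)

theorem tree_next_uniq {X : Type} {T : SimpleGraph X} (hG : T.IsTree) {a b c c' : X}
    (h1 : T.Adj a c) (h2 : T.Adj a c') (d1 : T.dist a b = T.dist c b + 1)
    (d2 : T.dist a b = T.dist c' b + 1) : c = c' := by
  obtain ⟨p, -, hp⟩ := hG.connected.exists_path_of_dist c b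
  obtain ⟨p', -, hp'⟩ := hG.connected.exists_path_of_dist c' b
  have k1 : (SimpleGraph.Walk.cons h1 p).IsPath := by
    apply SimpleGraph.Walk.isPath_of_length_eq_dist
    rw [SimpleGraph.Walk.length_cons, hp, d1]
  have k2 : (SimpleGraph.Walk.cons h2 p').IsPath := by
    apply SimpleGraph.Walk.isPath_of_length_eq_dist
    rw [SimpleGraph.Walk.length_cons, hp', d2]
  have e : SimpleGraph.Walk.cons h1 p = SimpleGraph.Walk.cons h2 p' :=
    (hG.existsUnique_path a b).unique k1 k2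
  have e2 := congrArg (fun q : T.Walk a b => q.snd) e
  simpa using e2

section Grp

variable {G Z : Type} [Group G] [MulAction G Z]

/-- a finite orbit of an infinite group has infinite point stabilisers -/
theorem inf_of_orbit {A : Subgroup G} {z : Z} {s : Set Z} (hs : s.Finite)
    (h : ∀ k ∈ A, k • z ∈ s) (hA : ¬ Finite ↥A) : ¬ Finite ↥(A ⊓ stabilizer G z) := by
  intro hf
  apply hA
  have h1 : Finite ↥(orbit ↥A z) := by
    apply (hs.subset _ : (orbit ↥A z).Finite)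
    rintro _ ⟨k, rfl⟩
    exact h k.1 k.2
  have h2 : Finite ↥(stabilizer ↥A z) := by
    have : Function.Injective (fun k : ↥(stabilizer ↥A z) =>
        (⟨k.1.1, k.1.2, k.2⟩ : ↥(A ⊓ stabilizer G z))) := by
      intro a b e
      exact Subtype.ext (Subtype.ext (congrArg (fun t : ↥(A ⊓ stabilizer G z) => (t : G)) e))
    exact Finite.of_injective _ this
  exact Finite.of_equiv _ (orbitProdStabilizerEquivGroup ↥A z)

theorem not_finite_mono {A B : Subgroup G} (h : A ≤ B) (hA : ¬ Finite ↥A) : ¬ Finite ↥B :=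
  fun hB => hA (finite_of_le h hB)

theorem InC.inj {G G' : Type} [Group G] [Group G'] (f : G →* G') (hf : Function.Injective f)
    (h : InC G') : InC G := by
  have e : G ≃* f.range := MonoidHom.ofInjective hf
  exact Pool.Agent.SAF.InC.iso e.symm (Pool.Agent.SAG.InC.sub h f.range)

end Grp

namespace TS

variable {H V X : Type} [Group H] [MulAction H V] [MulAction H X] (S : TS H V X)

variable {S}

/-! ### directions -/

theorem Tw.ex {x : V} {w : X} (h : w ∉ S.J x) : ∃ u, S.Tw x w u := by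
  obtain ⟨z, hz⟩ := S.J_ne x
  have hne : w ≠ z := by
    rintro rfl
    exact h hz
  obtain ⟨u, hu, e⟩ := exists_next S.act.tree hne
  exact ⟨u, h, hu, z, hz, e⟩

theorem Tw.all {x : V} {w u : X} (h : S.Tw x w u) {z : X} (hz : z ∈ S.J x) :
    S.T.dist w z = S.T.dist u z + 1 := by
  obtain ⟨h1, h2, z0, hz0, e0⟩ := h
  rcases (dist_edge S.act.tree h2 z).1 with e | e
  · exfalso
    apply h1
    refine (Pool.Agent.SAF.Conv.edge S.act.tree (S.J_conv x) h2 hz hz0 e ?_).1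
    rw [SimpleGraph.dist_comm, e0, SimpleGraph.dist_comm]
  · rw [SimpleGraph.dist_comm, e, SimpleGraph.dist_comm]

theorem Tw.uniq {x : V} {w u u' : X} (h : S.Tw x w u) (h' : S.Tw x w u') : u = u' := by
  obtain ⟨z, hz⟩ := S.J_ne x
  exact tree_next_uniq S.act.tree h.2.1 h'.2.1 (h.all hz) (h'.all hz)

theorem J_smul_iff (h : H) {x : V} {w : X} : h • w ∈ S.J (h • x) ↔ w ∈ S.J x := by
  refine ⟨fun e => ?_, S.J_smul h x w⟩
  have := S.J_smul h⁻¹ _ _ e
  rwa [inv_smul_smul, inv_smul_smul] at this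

theorem Tw.smul {x : V} {w u : X} (e : S.Tw x w u) (h : H) : S.Tw (h • x) (h • w) (h • u) := by
  obtain ⟨h1, h2, z, hz, e0⟩ := e
  refine ⟨fun e => h1 (J_smul_iff h |>.1 e), S.act.adj_smul h _ _ h2, h • z, S.J_smul h _ _ hz, ?_⟩
  rw [S.act.dist_smul, S.act.dist_smul, e0]

/-- an arrow over `w` with one end far -/
theorem far_TE {x y : V} {w u : X} (e : S.K.E x y) (hw : w ∈ S.TE x y) (h : S.Tw y w u) :
    w ∈ S.J x ∧ u ∈ S.J x ∧ u ∈ S.TE x y := by
  have h1 : w ∈ S.J x := (S.TE_J x y w e hw).resolve_right h.1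
  have h2 := h.all (S.p_r x y e)
  have h3 : S.T.dist w u = 1 := SimpleGraph.dist_eq_one_iff_adj.2 h.2.1
  refine ⟨h1, ?_, ?_⟩
  · exact S.J_conv x w h1 _ (S.p_l x y e) u (by omega)
  · exact S.TE_conv x y e w hw _ (S.p_TE x y e) u (by omega)

theorem far_TV {x : V} {w u : X} (hw : w ∈ S.TV x) (h : S.Tw x w u) : u ∈ S.TV x := by
  obtain ⟨z, hz⟩ := S.J_ne x
  have h2 := h.all hz
  have h3 : S.T.dist w u = 1 := SimpleGraph.dist_eq_one_iff_adj.2 h.2.1
  exact S.TV_conv x w hw z (S.J_TV x z hz) u (by omega)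

/-! ### heavy vertices over an edge -/

theorem Heavy.ar {x a : V} (e : S.K.ar x a) {A : Subgroup H} (hA : A ≤ stabilizer H x)
    (h : ¬ Finite ↥A) : ¬ Finite ↥(A ⊓ stabilizer H a) := by
  have hfin : {b | S.K.ar x b}.Finite := by
    by_cases hb : ∃ b, S.K.ar x b ∧ b ≠ a
    · obtain ⟨b, hb, hne⟩ := hb
      apply (Set.toFinite ({a, b} : Set V)).subset
      intro c hc
      rcases S.K.two x a b c e hb hc with h | h | h
      · exact absurd h.symm hne
      · exact Or.inr h.symm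
      · exact Or.inl h.symm
    · push Not at hb
      apply (Set.finite_singleton a).subset
      intro c hc
      exact hb c hc
  apply inf_of_orbit hfin _ h
  intro k hk
  have h1 := S.K.ar_smul k x a e
  rw [show k • x = x from hA hk] at h1
  exact h1

theorem mem_st3 {x : V} {w u : X} {h : H} :
    h ∈ stabilizer H (x, w, u) ↔ h • x = x ∧ h • w = w ∧ h • u = u := by
  rw [mem_stabilizer_iff]
  constructor
  · intro e
    exact ⟨congrArg Prod.fst e, congrArg (fun q : V × X × X => q.2.1) e,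
      congrArg (fun q : V × X × X => q.2.2) e⟩
  · rintro ⟨h1, h2, h3⟩
    exact Prod.ext h1 (Prod.ext h2 h3)

theorem Inf.pole {x a : V} {w u : X} (e : S.K.ar x a) (h : x ∈ S.Inf w u) (hw : w ∈ S.TV a)
    (hu : u ∈ S.TV a) : a ∈ S.Inf w u := by
  refine ⟨hw, hu, ?_⟩
  have h1 := Heavy.ar e (A := stabilizer H (x, w, u)) (fun k hk => (mem_st3.1 hk).1) h.2.2
  refine not_finite_mono ?_ h1
  rintro k ⟨h2, h3⟩
  exact mem_st3.2 ⟨h3, (mem_st3.1 h2).2⟩

theorem TV_smul_iff (h : H) {x : V} {w : X} : h • w ∈ S.TV (h • x) ↔ w ∈ S.TV x := by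
  refine ⟨fun e => ?_, S.TV_smul h x w⟩
  have := S.TV_smul h⁻¹ _ _ e
  rwa [inv_smul_smul, inv_smul_smul] at this

theorem Inf.smul {x : V} {w u : X} (e : x ∈ S.Inf w u) (h : H) :
    h • x ∈ S.Inf (h • w) (h • u) := by
  refine ⟨S.TV_smul _ _ _ e.1, S.TV_smul _ _ _ e.2.1, ?_⟩
  intro hf
  apply e.2.2
  exact (finite_smul_iff h (x, w, u)).1 hf

theorem FH.smul {x : V} {w u : X} (e : S.FH x w u) (h : H) : S.FH (h • x) (h • w) (h • u) :=
  ⟨e.1.smul h, Inf.smul e.2 h⟩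

theorem FH.uniq {x : V} {w u u' : X} (h : S.FH x w u) (h' : S.FH x w u') : u = u' :=
  h.1.uniq h'.1

theorem FH.smul_iff {x : V} {w u : X} (h : H) :
    S.FH (h • x) (h • w) (h • u) ↔ S.FH x w u := by
  refine ⟨fun e => ?_, fun e => e.smul h⟩
  have := e.smul h⁻¹
  rwa [inv_smul_smul, inv_smul_smul, inv_smul_smul] at this

theorem exFH_smul {x : V} {w : X} (h : H) :
    (∃ u, S.FH (h • x) (h • w) u) ↔ ∃ u, S.FH x w u := by
  constructor
  · rintro ⟨u, hu⟩
    refine ⟨h⁻¹ • u, ?_⟩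
    rw [← FH.smul_iff h, smul_inv_smul]
    exact hu
  · rintro ⟨u, hu⟩
    exact ⟨_, hu.smul h⟩

theorem OT.smul {w u : X} (e : S.OT w u) (h : H) : S.OT (h • w) (h • u) := by
  obtain ⟨h1, x, h2, h3⟩ := e
  refine ⟨S.act.adj_smul h _ _ h1, h • x, Inf.smul h2 h, ?_⟩
  rcases h3 with ⟨h4, h5⟩ | h4
  · exact Or.inl ⟨S.J_smul _ _ _ h4, S.J_smul _ _ _ h5⟩
  · exact Or.inr (h4.smul h)

variable (S)

/-! ### vertices -/

/-- the vertices of `K^w` -/
def PK (w : X) : V ⊕ X → Prop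
  | Sum.inl x => S.Rl w x
  | Sum.inr u => S.OT w u

variable {S} in
theorem PK.smul {w : X} {s : V ⊕ X} (e : S.PK w s) (h : H) : S.PK (h • w) (h • s) := by
  cases s with
  | inl x =>
    refine ⟨S.TV_smul h _ _ e.1, ?_⟩
    rw [exFH_smul]
    exact e.2
  | inr u => exact OT.smul e h

/-- the vertex type of `K^w` -/
def KV (w : X) : Type := {s : V ⊕ X // S.PK w s}

instance actKV (w : X) : MulAction ↥(stabilizer H w) (S.KV w) where
  smul k s := ⟨(k : H) • s.1, by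
    have := PK.smul s.2 (k : H)
    rwa [mem_stabilizer_iff.1 k.2] at this⟩
  one_smul s := Subtype.ext (one_smul H s.1)
  mul_smul a b s := Subtype.ext (mul_smul (a : H) (b : H) s.1)

theorem KV_val {w : X} (k : ↥(stabilizer H w)) (s : S.KV w) : (k • s).1 = (k : H) • s.1 := rfl

open Classical in
/-- `x@w` -/
noncomputable def atv (w : X) (x : V) : V ⊕ X :=
  if h : ∃ u, S.FH x w u then Sum.inr h.choose else Sum.inl x

variable {S}

theorem atv_near {w : X} {x : V} (h : ¬ ∃ u, S.FH x w u) : S.atv w x = Sum.inl x := dif_neg h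

theorem atv_far {w u : X} {x : V} (h : S.FH x w u) : S.atv w x = Sum.inr u := by
  have h1 : ∃ u, S.FH x w u := ⟨u, h⟩
  have h2 : S.atv w x = Sum.inr h1.choose := dif_pos h1
  rw [h2, h1.choose_spec.uniq h]

theorem atv_J {w : X} {x : V} (h : w ∈ S.J x) : S.atv w x = Sum.inl x :=
  atv_near (fun ⟨_, hu⟩ => hu.1.1 h)

theorem atv_cases (w : X) (x : V) : ((¬ ∃ u, S.FH x w u) ∧ S.atv w x = Sum.inl x) ∨
    ∃ u, S.FH x w u ∧ S.atv w x = Sum.inr u := by
  by_cases h : ∃ u, S.FH x w u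
  · obtain ⟨u, hu⟩ := h
    exact Or.inr ⟨u, hu, atv_far hu⟩
  · exact Or.inl ⟨h, atv_near h⟩

theorem PK_atv {w : X} {x : V} (h : w ∈ S.TV x) : S.PK w (S.atv w x) := by
  rcases S.atv_cases w x with ⟨h1, h2⟩ | ⟨u, h1, h2⟩
  · rw [h2]
    exact ⟨h, h1⟩
  · rw [h2]
    exact ⟨h1.1.2.1, x, h1.2, Or.inr h1.1⟩

theorem atv_smul {w : X} {x : V} (h : H) : S.atv (h • w) (h • x) = h • S.atv w x := by
  rcases S.atv_cases w x with ⟨h1, h2⟩ | ⟨u, h1, h2⟩
  · rw [h2, atv_near (by rw [exFH_smul]; exact h1)]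
    rfl
  · rw [h2, atv_far (h1.smul h)]
    rfl

variable (S) in
/-- `x@w` as a vertex -/
noncomputable def kat (w : X) (x : V) (h : w ∈ S.TV x) : S.KV w := ⟨S.atv w x, PK_atv h⟩

theorem TV_st {w : X} (k : ↥(stabilizer H w)) {x : V} (h : w ∈ S.TV x) :
    w ∈ S.TV ((k : H) • x) := by
  have := S.TV_smul (k : H) _ _ h
  rwa [mem_stabilizer_iff.1 k.2] at this

theorem kat_smul {w : X} (k : ↥(stabilizer H w)) {x : V} (h : w ∈ S.TV x) :
    S.kat w ((k : H) • x) (TV_st k h) = k • S.kat w x h := by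
  apply Subtype.ext
  have h1 := S.atv_smul (w := w) (x := x) (k : H)
  rw [mem_stabilizer_iff.1 k.2] at h1
  exact h1

/-! ### arrows -/

variable (S) in
/-- the arrows of `K^w` -/
inductive KA (w : X) : V ⊕ X → V ⊕ X → Prop
  | rr (x a : V) : S.K.ar x a → w ∈ S.TE x a → KA w (Sum.inl x) (Sum.inl a)
  | rt (x a : V) (u : X) : S.K.ar x a → w ∈ S.TE x a → S.FH a w u → KA w (Sum.inl x) (Sum.inr u)
  | cr (x : V) (u : X) : S.T.Adj w u → w ∈ S.J x → u ∈ S.J x → x ∈ S.Inf w u →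
      KA w (Sum.inl x) (Sum.inr u)

theorem KA.smul {w : X} {s t : V ⊕ X} (e : S.KA w s t) (h : H) :
    S.KA (h • w) (h • s) (h • t) := by
  cases e with
  | rr x a h1 h2 => exact KA.rr _ _ (S.K.ar_smul h _ _ h1) (S.TE_smul h _ _ _ (Or.inl h1) h2)
  | rt x a u h1 h2 h3 =>
    exact KA.rt _ _ _ (S.K.ar_smul h _ _ h1) (S.TE_smul h _ _ _ (Or.inl h1) h2) (h3.smul h)
  | cr x u h1 h2 h3 h4 =>
    exact KA.cr _ _ (S.act.adj_smul h _ _ h1) (S.J_smul _ _ _ h2) (S.J_smul _ _ _ h3) (Inf.smul h4 h)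

/-- edges of `K` over `w` give edges of `K^w` -/
theorem KA.of_ar {w : X} {x a : V} (e : S.K.ar x a) (hw : w ∈ S.TE x a) :
    S.KA w (S.atv w x) (S.atv w a) ∨ S.KA w (S.atv w a) (S.atv w x) := by
  rcases S.atv_cases w x with ⟨h1, h2⟩ | ⟨u, h1, h2⟩
  · left
    rw [h2]
    rcases S.atv_cases w a with ⟨h3, h4⟩ | ⟨u, h3, h4⟩
    · rw [h4]
      exact KA.rr x a e hw
    · rw [h4]
      exact KA.rt x a u e hw h3
  · right
    have hE' : S.K.E a x := Or.inr e
    have hw' := S.TE_symm x a w (Or.inl e) hw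
    obtain ⟨h5, h6, h7⟩ := far_TE hE' hw' h1.1
    rw [h2, atv_J h5]
    refine KA.cr a u h1.1.2.1 h5 h6 (Inf.pole e h1.2 (S.J_TV _ _ h5) (S.J_TV _ _ h6))

theorem KA.of_E {w : X} {x y : V} (e : S.K.E x y) (hw : w ∈ S.TE x y) :
    S.KA w (S.atv w x) (S.atv w y) ∨ S.KA w (S.atv w y) (S.atv w x) := by
  rcases e with e | e
  · exact KA.of_ar e hw
  · exact (KA.of_ar e (S.TE_symm x y w (Or.inr e) hw)).symm

/-- every arrow of `K^w` belongs to a pole; the pole determines the arrow -/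
theorem KA.rel {w : X} {x : V} {t : V ⊕ X} (ht : S.PK w t) (h : S.KA w (Sum.inl x) t) :
    ∃ a, S.K.ar x a ∧ ((w ∈ S.TE x a ∧ t = S.atv w a) ∨ (w ∉ S.TE x a ∧
      ∃ u, S.T.Adj w u ∧ S.T.dist w (S.p x a) = S.T.dist u (S.p x a) + 1 ∧ t = Sum.inr u)) := by
  cases h with
  | rr _ a h1 h2 => exact ⟨a, h1, Or.inl ⟨h2, (atv_near ht.2).symm⟩⟩
  | rt _ a u h1 h2 h3 => exact ⟨a, h1, Or.inl ⟨h2, (atv_far h3).symm⟩⟩
  | cr _ u h1 h2 h3 h4 =>
    obtain ⟨a, ha, e⟩ := S.pole x w u h1 h2 h3 h4.2.2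
    refine ⟨a, ha, ?_⟩
    by_cases hw : w ∈ S.TE x a
    · left
      refine ⟨hw, (atv_far ?_).symm⟩
      have h5 : S.T.dist w u = 1 := SimpleGraph.dist_eq_one_iff_adj.2 h1
      have hE : S.K.E x a := Or.inl ha
      have hu : u ∈ S.TE x a := S.TE_conv x a hE w hw _ (S.p_TE x a hE) u (by omega)
      have hwa : w ∈ S.TV a := S.TE_TV a x w hE.symm (S.TE_symm x a w hE hw)
      have hua : u ∈ S.TV a := S.TE_TV a x u hE.symm (S.TE_symm x a u hE hu)
      refine ⟨⟨?_, h1, S.p x a, S.p_r x a hE, e⟩, Inf.pole ha h4 hwa hua⟩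
      intro h6
      have h7 := S.p_u x a w hE h2 h6
      rw [← h7, SimpleGraph.dist_self] at e
      omega
    · exact Or.inr ⟨hw, u, h1, e, rfl⟩

theorem KA.two {w : X} {s t1 t2 t3 : V ⊕ X} (p1 : S.PK w t1) (p2 : S.PK w t2) (p3 : S.PK w t3)
    (h1 : S.KA w s t1) (h2 : S.KA w s t2) (h3 : S.KA w s t3) : t1 = t2 ∨ t2 = t3 ∨ t1 = t3 := by
  have hs : ∃ x, s = Sum.inl x := by
    cases h1 with
    | rr x _ _ _ => exact ⟨x, rfl⟩
    | rt x _ _ _ _ _ => exact ⟨x, rfl⟩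
    | cr x _ _ _ _ _ => exact ⟨x, rfl⟩
  obtain ⟨x, rfl⟩ := hs
  have key : ∀ (a : V) (t t' : V ⊕ X), ((w ∈ S.TE x a ∧ t = S.atv w a) ∨ (w ∉ S.TE x a ∧
      ∃ u, S.T.Adj w u ∧ S.T.dist w (S.p x a) = S.T.dist u (S.p x a) + 1 ∧ t = Sum.inr u)) →
      ((w ∈ S.TE x a ∧ t' = S.atv w a) ∨ (w ∉ S.TE x a ∧
      ∃ u, S.T.Adj w u ∧ S.T.dist w (S.p x a) = S.T.dist u (S.p x a) + 1 ∧ t' = Sum.inr u)) →
      t = t' := by
    rintro a t t' (⟨b1, b2⟩ | ⟨b1, u, b2, b3, b4⟩) (⟨c1, c2⟩ | ⟨c1, u', c2, c3, c4⟩)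
    · rw [b2, c2]
    · exact absurd b1 c1
    · exact absurd c1 b1
    · rw [b4, c4, tree_next_uniq S.act.tree b2 c2 b3 c3]
  obtain ⟨a1, k1, r1⟩ := KA.rel p1 h1
  obtain ⟨a2, k2, r2⟩ := KA.rel p2 h2
  obtain ⟨a3, k3, r3⟩ := KA.rel p3 h3
  rcases S.K.two x a1 a2 a3 k1 k2 k3 with e | e | e
  · subst e
    exact Or.inl (key a1 _ _ r1 r2)
  · subst e
    exact Or.inr (Or.inl (key a2 _ _ r2 r3))
  · subst e
    exact Or.inr (Or.inr (key a1 _ _ r1 r3))

variable (S) in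
/-- rank -/
def krk {w : X} (s : S.KV w) : ℕ :=
  match s.1 with
  | Sum.inl x => S.K.rk x + 1
  | Sum.inr _ => 0

theorem krk_lt {w : X} {s t : S.KV w} (h : S.KA w s.1 t.1) : S.krk t < S.krk s := by
  obtain ⟨s, hs⟩ := s
  obtain ⟨t, ht⟩ := t
  cases h with
  | rr x a h1 h2 =>
    have := S.K.ar_rk _ _ h1
    unfold krk
    simp only
    omega
  | rt x a u h1 h2 h3 =>
    unfold krk
    simp only
    omega
  | cr x u h1 h2 h3 h4 =>
    unfold krk
    simp only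
    omega

theorem krk_smul {w : X} (k : ↥(stabilizer H w)) (s : S.KV w) : S.krk (k • s) = S.krk s := by
  obtain ⟨s | s, hs⟩ := s
  · change S.K.rk ((k : H) • s) + 1 = S.K.rk s + 1
    rw [S.K.rk_smul]
  · rfl

/-! ### finiteness, stabilisers, connectedness -/

theorem finOrb_union {G Y : Type} [Group G] [MulAction G Y] {s t : Set Y} (hs : FinOrb G s)
    (ht : FinOrb G t) : FinOrb G (s ∪ t) := by
  have : orbs G (s ∪ t) = orbs G s ∪ orbs G t := Set.image_union _ _ _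
  unfold FinOrb
  rw [this]
  exact hs.union ht

variable (S)

theorem fin_slice (w : X) : FinOrb ↥(stabilizer H w) {x | w ∈ S.TV x} := by
  have h1 := finOrb_fib (π := Prod.snd) (fun _ _ => rfl) S.fV w
  have h2 := FinOrb.image_equi (H := ↥(stabilizer H w)) (F := (Prod.fst : V × X → V))
    (fun _ _ => rfl) h1
  refine h2.mono ?_
  intro x hx
  exact ⟨(x, w), ⟨hx, rfl⟩, rfl⟩

theorem fin_adj (w : X) : FinOrb ↥(stabilizer H w) {u | S.T.Adj w u} := by
  have h1 := finOrb_fib (π := Prod.fst) (fun _ _ => rfl) S.finT w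
  have h2 := FinOrb.image_equi (H := ↥(stabilizer H w)) (F := (Prod.snd : X × X → X))
    (fun _ _ => rfl) h1
  refine h2.mono ?_
  intro u hu
  exact ⟨(w, u), ⟨hu, rfl⟩, rfl⟩

theorem KV_fin (w : X) : FinOrb ↥(stabilizer H w) (Set.univ : Set (S.KV w)) := by
  have h1 : FinOrb ↥(stabilizer H w) ((Sum.inl : V → V ⊕ X) '' {x | w ∈ S.TV x}) :=
    FinOrb.image_equi (F := (Sum.inl : V → V ⊕ X)) (fun _ _ => rfl) (S.fin_slice w)
  have h2 : FinOrb ↥(stabilizer H w) ((Sum.inr : X → V ⊕ X) '' {u | S.T.Adj w u}) :=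
    FinOrb.image_equi (F := (Sum.inr : X → V ⊕ X)) (fun _ _ => rfl) (S.fin_adj w)
  refine Pool.Agent.SAF.FinOrb.of_inj (finOrb_union h1 h2) (fun s => s.1) ?_ ?_
  · rintro ⟨s | s, hs⟩ -
    · exact Or.inl ⟨s, hs.1, rfl⟩
    · exact Or.inr ⟨s, hs.1, rfl⟩
  · rintro a - b - ⟨h, e⟩
    exact ⟨h, Subtype.ext e⟩

theorem KV_stab (w : X) (s : S.KV w) : InC ↥(stabilizer ↥(stabilizer H w) s) := by
  have hs := s.2
  rcases e : s.1 with x | u
  · let f : ↥(stabilizer ↥(stabilizer H w) s) →* ↥(stabilizer H x) :=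
      { toFun := fun k => ⟨k.1.1, by
          have h1 := congrArg (fun t : S.KV w => t.1) (mem_stabilizer_iff.1 k.2)
          change (k.1 : H) • s.1 = s.1 at h1
          rw [e] at h1
          exact Sum.inl_injective h1⟩
        map_one' := rfl
        map_mul' := fun _ _ => rfl }
    refine InC.inj f ?_ (S.K.stab x)
    intro a b e
    exact Subtype.ext (Subtype.ext (congrArg (fun t : ↥(stabilizer H x) => (t : H)) e))
  · rw [e] at hs
    let f : ↥(stabilizer ↥(stabilizer H w) s) →* ↥(stabilizer H w ⊓ stabilizer H u) :=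
      { toFun := fun k => ⟨k.1.1, k.1.2, by
          have h1 := congrArg (fun t : S.KV w => t.1) (mem_stabilizer_iff.1 k.2)
          change (k.1 : H) • s.1 = s.1 at h1
          rw [e] at h1
          exact Sum.inr_injective h1⟩
        map_one' := rfl
        map_mul' := fun _ _ => rfl }
    refine InC.inj f ?_ (S.edgeC w u hs.1)
    intro a b e
    exact Subtype.ext (Subtype.ext (congrArg
      (fun t : ↥(stabilizer H w ⊓ stabilizer H u) => (t : H)) e))

/-- adjacency in `K^w` -/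
def KE (w : X) (s t : S.KV w) : Prop := S.KA w s.1 t.1 ∨ S.KA w t.1 s.1

variable {S}

theorem KE.symm {w : X} {s t : S.KV w} (h : S.KE w s t) : S.KE w t s := Or.symm h

theorem KE.kat {w : X} {x y : V} (e : S.K.E x y) (hw : w ∈ S.TE x y) (hx : w ∈ S.TV x)
    (hy : w ∈ S.TV y) : S.KE w (S.kat w x hx) (S.kat w y hy) := KA.of_E e hw

theorem rtg_symm {Y : Type} {R : Y → Y → Prop} (hR : ∀ a b, R a b → R b a) {x y : Y}
    (h : Relation.ReflTransGen R x y) : Relation.ReflTransGen R y x := by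
  induction h with
  | refl => exact Relation.ReflTransGen.refl
  | tail _ e ih => exact Relation.ReflTransGen.head (hR _ _ e) ih

theorem kat_conn {w : X} {x y : V} (hx : w ∈ S.TV x) (hy : w ∈ S.TV y) :
    Relation.ReflTransGen (S.KE w) (S.kat w x hx) (S.kat w y hy) := by
  have key : ∀ z, Relation.ReflTransGen (fun a b => S.K.E a b ∧ w ∈ S.TE a b) x z →
      ∃ hz : w ∈ S.TV z, Relation.ReflTransGen (S.KE w) (S.kat w x hx) (S.kat w z hz) := by
    intro z hz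
    induction hz with
    | refl => exact ⟨hx, Relation.ReflTransGen.refl⟩
    | tail _ e ih =>
      obtain ⟨h1, h2⟩ := ih
      have h3 := S.TE_TV _ _ w e.1.symm (S.TE_symm _ _ w e.1 e.2)
      exact ⟨h3, h2.tail (KE.kat e.1 e.2 h1 h3)⟩
  obtain ⟨_, h⟩ := key y (S.connN w x y hx hy)
  exact h

/-- every vertex is some `x@w` or adjacent to some `x@w` -/
theorem KV_near {w : X} (s : S.KV w) : ∃ (x : V) (hx : w ∈ S.TV x),
    s = S.kat w x hx ∨ S.KA w (S.kat w x hx).1 s.1 := by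
  obtain ⟨s | s, hs⟩ := s
  · refine ⟨s, hs.1, Or.inl ?_⟩
    apply Subtype.ext
    exact (atv_near hs.2).symm
  · obtain ⟨h1, x, h2, h3⟩ := hs
    refine ⟨x, h2.1, ?_⟩
    rcases h3 with ⟨h4, h5⟩ | h4
    · right
      change S.KA w (S.atv w x) (Sum.inr s)
      rw [atv_J h4]
      exact KA.cr x s h1 h4 h5 h2
    · left
      apply Subtype.ext
      exact (atv_far ⟨h4, h2⟩).symm

theorem KV_conn {w : X} (s t : S.KV w) : Relation.ReflTransGen (S.KE w) s t := by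
  have key : ∀ s : S.KV w, ∃ (x : V) (hx : w ∈ S.TV x),
      Relation.ReflTransGen (S.KE w) s (S.kat w x hx) := by
    intro s
    obtain ⟨x, hx, h | h⟩ := KV_near s
    · refine ⟨x, hx, ?_⟩
      rw [h]
    · exact ⟨x, hx, Relation.ReflTransGen.single (Or.inr h)⟩
  obtain ⟨x, hx, h1⟩ := key s
  obtain ⟨y, hy, h2⟩ := key t
  exact h1.trans ((kat_conn hx hy).trans (rtg_symm (fun _ _ e => e.symm) h2))

/-! ### pentagons -/

theorem c_TV (i : S.K.I) (j : Fin 5) : S.c i ∈ S.TV (S.K.pt i j) :=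
  S.TE_TV _ _ _ (S.K.pt_E i j) (S.c_TE i j)

theorem w_TV {w : X} {i : S.K.I} {h : H} (e : h • S.c i = w) (j : Fin 5) :
    w ∈ S.TV (h • S.K.pt i j) := by
  rw [← e]
  exact S.TV_smul _ _ _ (c_TV i j)

theorem w_TE {w : X} {i : S.K.I} {h : H} (e : h • S.c i = w) (j : Fin 5) :
    w ∈ S.TE (h • S.K.pt i j) (h • S.K.pt i (j + 1)) := by
  rw [← e]
  exact S.TE_smul _ _ _ _ (S.K.pt_E i j) (S.c_TE i j)

theorem hpt_E (i : S.K.I) (h : H) (j : Fin 5) :
    S.K.E (h • S.K.pt i j) (h • S.K.pt i (j + 1)) := S.K.E_smul h (S.K.pt_E i j)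

variable (S) in
/-- the pentagons of `K^w` -/
def KI (w : X) : Type := {i : S.K.I // ∃ h : H, h • S.c i = w}

variable (S) in
/-- their vertices -/
noncomputable def kpt (w : X) (i : S.KI w) (j : Fin 5) : S.KV w :=
  S.kat w (i.2.choose • S.K.pt i.1 j) (w_TV i.2.choose_spec j)

theorem kpt_E (w : X) (i : S.KI w) (j : Fin 5) : S.KE w (S.kpt w i j) (S.kpt w i (j + 1)) :=
  KE.kat (hpt_E _ _ _) (w_TE i.2.choose_spec j) _ _

theorem KI_fin (w : X) : Finite (S.KI w) := by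
  have := S.K.finI
  exact inferInstanceAs (Finite {i : S.K.I // ∃ h : H, h • S.c i = w})

theorem KV_ne (w : X) : Nonempty (S.KV w) := by
  obtain ⟨x, hx⟩ := S.neN w
  exact ⟨S.kat w x hx⟩

end TS

end Pool.Agent.BT
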