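import Pool.Agent.BT.Mass

/-!
# BT: exactness on lines

Potentials on lines with an infinite cyclic or infinite dihedral group.
-/

namespace Pool.Agent.BT

open MulAction

theorem exists_int_rec (u : ℤ → ZMod 2) : ∃ S : ℤ → ZMod 2, ∀ i, S (i + 1) = S i + u i := by
  refine ⟨fun i => ∑ j ∈ Finset.Ico 0 i, u j + ∑ j ∈ Finset.Ico i 0, u j, ?_⟩
  intro i
  show ∑ j ∈ Finset.Ico 0 (i + 1), u j + ∑ j ∈ Finset.Ico (i + 1) 0, u j =
    ∑ j ∈ Finset.Ico 0 i, u j + ∑ j ∈ Finset.Ico i 0, u j + u i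
  have h2 : ∀ x : ZMod 2, x + x = 0 := fun x => CharTwo.add_self_eq_zero x
  rcases le_or_gt 0 i with hi | hi
  · have e1 : Finset.Ico (0:ℤ) (i + 1) = insert i (Finset.Ico 0 i) := by
      ext j
      simp only [Finset.mem_Ico, Finset.mem_insert]
      omega
    have e2 : Finset.Ico (i + 1) (0:ℤ) = ∅ := by
      apply Finset.Ico_eq_empty; omega
    have e3 : Finset.Ico i (0:ℤ) = ∅ := by
      apply Finset.Ico_eq_empty; omega
    rw [e1, e2, e3, Finset.sum_insert (by simp)]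
    simp only [Finset.sum_empty]
    ring
  · have e1 : Finset.Ico i (0:ℤ) = insert i (Finset.Ico (i + 1) 0) := by
      ext j
      simp only [Finset.mem_Ico, Finset.mem_insert]
      omega
    have e2 : Finset.Ico (0:ℤ) (i + 1) = ∅ := by
      apply Finset.Ico_eq_empty; omega
    have e3 : Finset.Ico (0:ℤ) i = ∅ := by
      apply Finset.Ico_eq_empty; omega
    rw [e1, e2, e3, Finset.sum_insert (by simp)]
    simp only [Finset.sum_empty]
    have := h2 (u i)
    linear_combination -this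

/-- potentials on lines with a free action of an infinite cyclic group -/
theorem zline {Ω : Type} (g : Equiv.Perm Ω) (hg : ∀ n : ℤ, n ≠ 0 → ∀ ω, (g ^ n) ω ≠ ω)
    (u : Ω → ZMod 2) : ∃ b : Ω → ZMod 2, ∀ ω, b (g ω) = b ω + u ω := by
  classical
  let st : Setoid Ω := Equiv.Perm.SameCycle.setoid g
  have hbase : ∀ ω : Ω, ∃ k : ℤ, (g ^ k) (Quotient.out (Quotient.mk st ω)) = ω := by
    intro ω
    have : st (Quotient.out (Quotient.mk st ω)) ω := Quotient.exact (Quotient.out_eq _)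
    exact this
  choose k hk using hbase
  choose S hS using fun ω0 : Ω => exists_int_rec (fun i => u ((g ^ i) ω0))
  refine ⟨fun ω => S (Quotient.out (Quotient.mk st ω)) (k ω), ?_⟩
  intro ω
  have hb : Quotient.mk st (g ω) = Quotient.mk st ω := by
    apply Quotient.sound
    show Equiv.Perm.SameCycle g (g ω) ω
    exact ⟨-1, by simp⟩
  have hk1 : k (g ω) = k ω + 1 := by
    have h1 := hk (g ω)
    have h2 := hk ω
    rw [hb] at h1
    set ω0 := Quotient.out (Quotient.mk st ω) with hω0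
    by_contra hne
    have h3 : (g ^ (k ω + 1)) ω0 = g ω := by
      rw [add_comm, zpow_add, zpow_one, Equiv.Perm.mul_apply, h2]
    have h4 : (g ^ (k (g ω) - (k ω + 1))) ((g ^ (k ω + 1)) ω0) = g ω := by
      rw [← Equiv.Perm.mul_apply, ← zpow_add, sub_add_cancel, h1]
    rw [h3] at h4
    exact hg _ (sub_ne_zero.2 hne) _ h4
  show S (Quotient.out (Quotient.mk st (g ω))) (k (g ω)) = _
  rw [hb, hk1, hS, hk]

/-- potentials on lines with a free action of an infinite dihedral group -/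
theorem dline {Ω : Type} (σ τ : Equiv.Perm Ω) (hσ : σ * σ = 1) (hτ : τ * τ = 1)
    (fσ : ∀ ω, σ ω ≠ ω) (fτ : ∀ ω, τ ω ≠ ω)
    (hg : ∀ n : ℤ, n ≠ 0 → ∀ ω, ((σ * τ) ^ n) ω ≠ ω)
    (u : Ω → ZMod 2) (hu : ∀ ω, u (τ ω) = u ω) :
    ∃ a : Ω → ZMod 2, (∀ ω, a (σ ω) = a ω) ∧ ∀ ω, a (τ ω) = a ω + u ω := by
  classical
  have h2 : ∀ x : ZMod 2, x + x = 0 := fun x => CharTwo.add_self_eq_zero x
  set g := σ * τ with hgdef
  have hσi : σ⁻¹ = σ := by rw [inv_eq_iff_mul_eq_one]; exact hσ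
  have hτi : τ⁻¹ = τ := by rw [inv_eq_iff_mul_eq_one]; exact hτ
  have hgi : g⁻¹ = τ * σ := by rw [hgdef, mul_inv_rev, hσi, hτi]
  have hconj : σ * g * σ⁻¹ = g⁻¹ := by
    rw [hgi, hσi, hgdef, ← mul_assoc, hσ, one_mul]
  have hconjk : ∀ k : ℤ, σ * g ^ k = g ^ (-k) * σ := by
    intro k
    have h1 : σ * g ^ k * σ⁻¹ = (g⁻¹) ^ k := by rw [← conj_zpow, hconj]
    rw [inv_zpow', ] at h1
    rw [← h1, inv_mul_cancel_right]
  have hσσ : ∀ ω, σ (σ ω) = ω := fun ω => by rw [← Equiv.Perm.mul_apply, hσ]; rfl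
  have hττ : ∀ ω, τ (τ ω) = ω := fun ω => by rw [← Equiv.Perm.mul_apply, hτ]; rfl
  have happ : ∀ (k : ℤ) ω, σ ((g ^ k) ω) = (g ^ (-k)) (σ ω) := by
    intro k ω
    rw [← Equiv.Perm.mul_apply, hconjk, Equiv.Perm.mul_apply]
  -- σ moves every g-orbit
  have hmove : ∀ (i : ℤ) ω, σ ω ≠ (g ^ i) ω := by
    intro i ω e
    rcases Int.even_or_odd' i with ⟨j, hj | hj⟩
    · apply fσ ((g ^ j) ω)
      rw [happ, e, ← Equiv.Perm.mul_apply, ← zpow_add, hj]
      congr 2
      ring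
    · have h3 : σ ((g ^ j) ω) = g ((g ^ j) ω) := by
        rw [happ, e, ← Equiv.Perm.mul_apply, ← zpow_add, hj, ← Equiv.Perm.mul_apply,
          ← zpow_one_add]
        congr 2
        ring
      have h4 : g ((g ^ j) ω) = σ (τ ((g ^ j) ω)) := rfl
      rw [h4] at h3
      exact fτ _ (σ.injective h3).symm
  -- the equivalence relation
  let R : Ω → Ω → Prop := fun ω ω' => ∃ k : ℤ, ω' = (g ^ k) ω ∨ ω' = σ ((g ^ k) ω)
  have hR : Equivalence R := by
    constructor
    · intro ω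
      exact ⟨0, Or.inl (by simp)⟩
    · rintro ω ω' ⟨k, rfl | rfl⟩
      · exact ⟨-k, Or.inl (by rw [← Equiv.Perm.mul_apply, ← zpow_add]; simp)⟩
      · refine ⟨k, Or.inr ?_⟩
        rw [happ, hσσ, ← Equiv.Perm.mul_apply, ← zpow_add]
        simp
    · rintro ω ω' ω'' ⟨k, rfl | rfl⟩ ⟨l, rfl | rfl⟩
      · exact ⟨l + k, Or.inl (by rw [← Equiv.Perm.mul_apply, ← zpow_add])⟩
      · exact ⟨l + k, Or.inr (by rw [← Equiv.Perm.mul_apply (g ^ l), ← zpow_add])⟩
      · refine ⟨-l + k, Or.inr ?_⟩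
        rw [zpow_add, Equiv.Perm.mul_apply, happ (-l), neg_neg]
      · refine ⟨-l + k, Or.inl ?_⟩
        rw [happ l, hσσ, zpow_add, Equiv.Perm.mul_apply]
  let st : Setoid Ω := ⟨R, hR⟩
  have hbase : ∀ ω : Ω, ∃ k : ℤ, ω = (g ^ k) (Quotient.out (Quotient.mk st ω)) ∨
      ω = σ ((g ^ k) (Quotient.out (Quotient.mk st ω))) := by
    intro ω
    have : st (Quotient.out (Quotient.mk st ω)) ω := Quotient.exact (Quotient.out_eq _)
    exact this
  have huniq0 : ∀ (k l : ℤ) ω, (g ^ k) ω = (g ^ l) ω → k = l := by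
    intro k l ω e
    by_contra hne
    apply hg (k - l) (sub_ne_zero.2 hne) ((g ^ l) ω)
    rw [← Equiv.Perm.mul_apply, ← zpow_add, sub_add_cancel, e]
  have huniq : ∀ (k l : ℤ) ω0 ω, (ω = (g ^ k) ω0 ∨ ω = σ ((g ^ k) ω0)) →
      (ω = (g ^ l) ω0 ∨ ω = σ ((g ^ l) ω0)) → k = l := by
    rintro k l ω0 ω (rfl | rfl) (e | e)
    · exact huniq0 _ _ _ e
    · exfalso
      apply hmove (k - l) ((g ^ l) ω0)
      rw [← e, ← Equiv.Perm.mul_apply, ← zpow_add, sub_add_cancel]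
    · exfalso
      apply hmove (l - k) ((g ^ k) ω0)
      rw [e, ← Equiv.Perm.mul_apply, ← zpow_add, sub_add_cancel]
    · exact huniq0 _ _ _ (σ.injective e)
  choose k hk using hbase
  choose S hS using fun ω0 : Ω => exists_int_rec (fun i => u ((g ^ i) ω0))
  have key : ∀ (ω ω' : Ω), st ω ω' → ∀ l : ℤ,
      (ω' = (g ^ l) (Quotient.out (Quotient.mk st ω)) ∨
        ω' = σ ((g ^ l) (Quotient.out (Quotient.mk st ω)))) →
      S (Quotient.out (Quotient.mk st ω')) (k ω') = S (Quotient.out (Quotient.mk st ω)) l := by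
    intro ω ω' h l hl
    have hb : Quotient.mk st ω' = Quotient.mk st ω := Quotient.sound (Setoid.symm h)
    have h1 := hk ω'
    rw [hb] at h1 ⊢
    rw [huniq _ _ _ _ h1 hl]
  refine ⟨fun ω => S (Quotient.out (Quotient.mk st ω)) (k ω), ?_, ?_⟩
  · intro ω
    apply key ω (σ ω) ⟨0, Or.inr (by simp)⟩ (k ω)
    rcases hk ω with e | e
    · exact Or.inr (by rw [← e])
    · exact Or.inl (by conv_lhs => rw [e, hσσ])
  · intro ω
    have hrel : st ω (τ ω) := ⟨1, Or.inr (by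
      rw [zpow_one]
      show τ ω = σ (σ (τ ω))
      rw [hσσ])⟩
    show S (Quotient.out (Quotient.mk st (τ ω))) (k (τ ω)) =
      S (Quotient.out (Quotient.mk st ω)) (k ω) + u ω
    set ω0 := Quotient.out (Quotient.mk st ω) with hω0
    rcases hk ω with e | e
    · rw [key ω (τ ω) hrel (k ω + 1) ?_]
      · rw [hS]
        congr 2
        exact e.symm
      · right
        rw [add_comm, zpow_add, zpow_one, Equiv.Perm.mul_apply]
        show τ ω = σ (σ (τ _))
        rw [hσσ]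
        congr 1
    · have h5 : τ ω = (g ^ (k ω - 1)) ω0 := by
        conv_lhs => rw [e]
        rw [sub_eq_add_neg, add_comm, zpow_add, Equiv.Perm.mul_apply, zpow_neg_one, hgi]
        rfl
      rw [key ω (τ ω) hrel (k ω - 1) (Or.inl h5)]
      have h6 := hS ω0 (k ω - 1)
      rw [sub_add_cancel, ← h5, hu] at h6
      rw [h6, add_assoc, h2, add_zero]

end Pool.Agent.BT
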