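import Pool.Agent.BT.Line

/-!
# BT: the line lemmas for groups

`RInv A f`: the function `f` on `H` is invariant under right multiplication by `A`.
-/

namespace Pool.Agent.BT

open MulAction

variable {H : Type} [Group H]

/-- invariance under right multiplication -/
def RInv (A : Subgroup H) (f : H → ZMod 2) : Prop := ∀ h, ∀ a ∈ A, f (h * a) = f h

theorem idx2 {C X : Subgroup H} (h : C ≤ X) (hC : Finite ↥C) (e : iw X = iw C / 2) :
    ∀ a ∈ X, ∀ b ∈ X, (a * b ∈ C ↔ (a ∈ C ↔ b ∈ C)) := by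
  have h1 : 0 < iw C := iw_pos.2 hC
  have hX : Finite ↥X := iw_pos.1 (by rw [e]; linarith)
  have hcard : Nat.card ↥X = 2 * Nat.card ↥C := by
    unfold iw at e
    have hc : (0:ℚ) < (Nat.card ↥C : ℚ) := Nat.cast_pos.2 Nat.card_pos
    have hx : (0:ℚ) < (Nat.card ↥X : ℚ) := Nat.cast_pos.2 Nat.card_pos
    have h2 : (Nat.card ↥X : ℚ) = 2 * (Nat.card ↥C : ℚ) := by
      field_simp at e
      linarith
    exact_mod_cast h2
  have hidx : (C.subgroupOf X).index = 2 := by
    have h3 := Subgroup.card_mul_index (C.subgroupOf X)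
    rw [Nat.card_congr (Subgroup.subgroupOfEquivOfLe h).toEquiv, hcard] at h3
    have hc : 0 < Nat.card ↥C := Nat.card_pos
    have : Nat.card ↥C * (C.subgroupOf X).index = Nat.card ↥C * 2 := by rw [h3]; ring
    exact Nat.eq_of_mul_eq_mul_left hc this
  intro a ha b hb
  have := Subgroup.mul_mem_iff_of_index_two hidx (a := ⟨a, ha⟩) (b := ⟨b, hb⟩)
  simpa [Subgroup.mem_subgroupOf] using this

theorem exists_not_mem {C X : Subgroup H} (h : C ≤ X) (hC : Finite ↥C) (e : iw X = iw C / 2) :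
    ∃ x ∈ X, x ∉ C := by
  by_contra hne
  push Not at hne
  have : X = C := le_antisymm hne h
  rw [this] at e
  have h1 : 0 < iw C := iw_pos.2 hC
  linarith

/-- right multiplication by a normalising element on `H ⧸ C` -/
def rm {C : Subgroup H} (n : H) (hn : ∀ c, c ∈ C ↔ n * c * n⁻¹ ∈ C) : Equiv.Perm (H ⧸ C) where
  toFun := Quotient.map' (fun h => h * n) (by
    intro a b hab
    rw [QuotientGroup.leftRel_apply] at hab ⊢
    rw [hn]
    have : n * ((a * n)⁻¹ * (b * n)) * n⁻¹ = a⁻¹ * b := by group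
    rw [this]
    exact hab)
  invFun := Quotient.map' (fun h => h * n⁻¹) (by
    intro a b hab
    rw [QuotientGroup.leftRel_apply] at hab ⊢
    have : (a * n⁻¹)⁻¹ * (b * n⁻¹) = n * (a⁻¹ * b) * n⁻¹ := by group
    rw [this]
    exact (hn _).1 hab)
  left_inv := by
    intro ω
    induction ω using Quotient.inductionOn' with
    | h a =>
      show (Quotient.mk'' (a * n * n⁻¹) : H ⧸ C) = Quotient.mk'' a
      rw [mul_inv_cancel_right]
  right_inv := by
    intro ω
    induction ω using Quotient.inductionOn' with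
    | h a =>
      show (Quotient.mk'' (a * n⁻¹ * n) : H ⧸ C) = Quotient.mk'' a
      rw [inv_mul_cancel_right]

theorem rm_mk {C : Subgroup H} (n : H) (hn : ∀ c, c ∈ C ↔ n * c * n⁻¹ ∈ C) (h : H) :
    rm n hn (h : H ⧸ C) = ((h * n : H) : H ⧸ C) := rfl

theorem zpow_of_apply {C : Subgroup H} (g : Equiv.Perm (H ⧸ C)) (t : H)
    (hg : ∀ h : H, g (h : H ⧸ C) = ((h * t : H) : H ⧸ C)) (n : ℤ) :
    ∀ h : H, (g ^ n) (h : H ⧸ C) = ((h * t ^ n : H) : H ⧸ C) := by
  have hinv : ∀ h : H, g⁻¹ (h : H ⧸ C) = ((h * t⁻¹ : H) : H ⧸ C) := by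
    intro h
    rw [Equiv.Perm.inv_eq_iff_eq, hg, inv_mul_cancel_right]
  induction n using Int.induction_on with
  | zero => intro h; simp
  | succ n ih =>
    intro h
    rw [add_comm, zpow_add, zpow_one, Equiv.Perm.mul_apply, ih, hg, mul_assoc, add_comm,
      zpow_add_one]
  | pred n ih =>
    intro h
    rw [sub_eq_add_neg, add_comm, zpow_add, zpow_neg_one, Equiv.Perm.mul_apply, ih, hinv,
      mul_assoc, add_comm (-1), ← sub_eq_add_neg, zpow_sub_one]

theorem coe_eq_iff {C : Subgroup H} {a b : H} : (a : H ⧸ C) = (b : H ⧸ C) ↔ a⁻¹ * b ∈ C :=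
  QuotientGroup.eq

/-- a group which keeps a finite set of cosets and is generated by ... is finite -/
theorem finite_of_stable {C N : Subgroup H} (hC : Finite ↥C) (S : Set (H ⧸ C)) (hS : S.Finite)
    (h1 : ((1 : H) : H ⧸ C) ∈ S)
    (hN : ∀ n ∈ N, ∀ h : H, (h : H ⧸ C) ∈ S ↔ ((h * n : H) : H ⧸ C) ∈ S) : Finite ↥N := by
  have hfin : ((fun h : H => (h : H ⧸ C)) ⁻¹' S).Finite := by
    apply Set.Finite.preimage' hS
    intro b _
    induction b using Quotient.inductionOn' with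
    | h a =>
      have hc : (C : Set H).Finite := Set.toFinite _
      apply (hc.image (fun c => a * c)).subset
      intro b hb
      have hb' : (b : H ⧸ C) = (a : H ⧸ C) := hb
      rw [eq_comm, coe_eq_iff] at hb'
      exact ⟨a⁻¹ * b, hb', by simp⟩
  have : (N : Set H).Finite := by
    apply hfin.subset
    intro n hn
    have := (hN n hn 1).1 h1
    rwa [one_mul] at this
  exact this.to_subtype

/-- the elements which keep a set of cosets -/
def keep {C : Subgroup H} (S : Set (H ⧸ C)) : Subgroup H where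
  carrier := {n | ∀ h : H, (h : H ⧸ C) ∈ S ↔ ((h * n : H) : H ⧸ C) ∈ S}
  mul_mem' := by
    intro a b ha hb h
    rw [ha h, hb (h * a), mul_assoc]
  one_mem' := by intro h; rw [mul_one]
  inv_mem' := by
    intro a ha h
    have := ha (h * a⁻¹)
    rw [inv_mul_cancel_right] at this
    exact this.symm

theorem le_keep {C : Subgroup H} (S : Set (H ⧸ C)) : C ≤ keep S := by
  intro c hc h
  have : ((h * c : H) : H ⧸ C) = (h : H ⧸ C) := by
    rw [eq_comm, coe_eq_iff]
    simpa using hc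
  rw [this]

/-- periodic orbits give finite sets -/
theorem finite_orbit {Ω : Type} (g : Equiv.Perm Ω) (ω0 : Ω) (n : ℤ) (hn : n ≠ 0)
    (e : (g ^ n) ω0 = ω0) : {ω | ∃ k : ℤ, ω = (g ^ k) ω0}.Finite := by
  apply ((Finset.Ico (0:ℤ) |n|).finite_toSet.image (fun k => (g ^ k) ω0)).subset
  rintro _ ⟨k, rfl⟩
  have hn' : 0 < |n| := abs_pos.2 hn
  refine ⟨k % |n|, ?_, ?_⟩
  · rw [Finset.mem_coe, Finset.mem_Ico]
    exact ⟨Int.emod_nonneg _ hn'.ne', Int.emod_lt_of_pos _ hn'⟩
  · have e1 : (g ^ |n|) ω0 = ω0 := by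
      rcases abs_choice n with h | h
      · rw [h, e]
      · rw [h, zpow_neg, Equiv.Perm.inv_eq_iff_eq, e]
    have e2 : ((g ^ |n|) ^ (k / |n|)) ω0 = ω0 :=
      Equiv.Perm.zpow_apply_eq_self_of_apply_eq_self e1 _
    show (g ^ (k % |n|)) ω0 = (g ^ k) ω0
    conv_rhs => rw [← Int.emod_add_mul_ediv k |n|, zpow_add, zpow_mul, Equiv.Perm.mul_apply, e2]

/-- Z-LINE LEMMA -/
theorem zline_group {C : Subgroup H} (hC : Finite ↥C) (g : H)
    (hn : ∀ c, c ∈ C ↔ g * c * g⁻¹ ∈ C) (hN : ¬ Finite ↥(C ⊔ Subgroup.zpowers g))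
    (θ : H → ZMod 2) (hθ : RInv C θ) :
    ∃ a : H → ZMod 2, RInv C a ∧ ∀ h, a (h * g) = a h + θ h := by
  have hpow : ∀ n : ℤ, n ≠ 0 → g ^ n ∉ C := by
    intro n hn0 hmem
    apply hN
    have hz := zpow_of_apply (rm g hn) g (rm_mk g hn)
    let S : Set (H ⧸ C) := {ω | ∃ k : ℤ, ω = (rm g hn ^ k) ((1 : H) : H ⧸ C)}
    have hSf : S.Finite := by
      apply finite_orbit (rm g hn) _ n hn0
      rw [hz, eq_comm, coe_eq_iff]
      simpa using hmem
    apply finite_of_stable hC S hSf ⟨0, by simp⟩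
    have h1 : C ⊔ Subgroup.zpowers g ≤ keep S := by
      rw [sup_le_iff, Subgroup.zpowers_le]
      refine ⟨le_keep S, ?_⟩
      intro h
      constructor
      · rintro ⟨k, hk⟩
        refine ⟨1 + k, ?_⟩
        rw [zpow_add, zpow_one, Equiv.Perm.mul_apply, ← hk]
        rfl
      · rintro ⟨k, hk⟩
        refine ⟨-1 + k, ?_⟩
        rw [zpow_add, Equiv.Perm.mul_apply, ← hk, hz, zpow_neg_one, mul_inv_cancel_right]
    exact fun n hn => h1 hn
  let u : H ⧸ C → ZMod 2 := fun ω => Quotient.liftOn' ω θ (by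
    intro a b hab
    rw [QuotientGroup.leftRel_apply] at hab
    have := hθ a _ hab
    rw [← this, mul_inv_cancel_left])
  obtain ⟨b, hb⟩ := zline (rm g hn) (by
    intro n hn0 ω
    induction ω using Quotient.inductionOn' with
    | h a =>
      intro e
      have e' : (rm g hn ^ n) (a : H ⧸ C) = (a : H ⧸ C) := e
      rw [zpow_of_apply (rm g hn) g (rm_mk g hn), eq_comm, coe_eq_iff] at e'
      apply hpow n hn0
      simpa using e') u
  refine ⟨fun h => b (h : H ⧸ C), ?_, ?_⟩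
  · intro h c hc
    show b ((h * c : H) : H ⧸ C) = b (h : H ⧸ C)
    have : ((h * c : H) : H ⧸ C) = (h : H ⧸ C) := by
      rw [eq_comm, coe_eq_iff]
      simpa using hc
    rw [this]
  · intro h
    exact hb (h : H ⧸ C)

/-- LINE LEMMA -/
theorem line_group {C X Y : Subgroup H} (hCX : C ≤ X) (hCY : C ≤ Y) (hC : Finite ↥C)
    (eX : iw X = iw C / 2) (eY : iw Y = iw C / 2) (hN : ¬ Finite ↥(X ⊔ Y))
    (θ : H → ZMod 2) (hθ : RInv C θ) :
    ∃ a c : H → ZMod 2, RInv X a ∧ RInv Y c ∧ ∀ h, θ h = a h + c h := by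
  obtain ⟨x, hx, hxC⟩ := exists_not_mem hCX hC eX
  obtain ⟨y, hy, hyC⟩ := exists_not_mem hCY hC eY
  have iX := idx2 hCX hC eX
  have iY := idx2 hCY hC eY
  have hnorm : ∀ (X : Subgroup H), C ≤ X →
      (∀ a ∈ X, ∀ b ∈ X, (a * b ∈ C ↔ (a ∈ C ↔ b ∈ C))) → ∀ x ∈ X, x ∉ C →
      ∀ c, c ∈ C ↔ x * c * x⁻¹ ∈ C := by
    intro X hCX iX x hx hxC c
    have hxi : x⁻¹ ∉ C := fun h => hxC (by simpa using C.inv_mem h)
    constructor
    · intro hc
      rw [iX _ (X.mul_mem hx (hCX hc)) _ (X.inv_mem hx), iX _ hx _ (hCX hc)]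
      tauto
    · intro hc
      have hcX : c ∈ X := by
        have h1 := X.mul_mem (X.mul_mem (X.inv_mem hx) (hCX hc)) hx
        have h2 : x⁻¹ * (x * c * x⁻¹) * x = c := by group
        rwa [h2] at h1
      rw [iX _ (X.mul_mem hx hcX) _ (X.inv_mem hx), iX _ hx _ hcX] at hc
      tauto
  have hnx := hnorm X hCX iX x hx hxC
  have hny := hnorm Y hCY iY y hy hyC
  have hxx : x * x ∈ C := (iX x hx x hx).2 Iff.rfl
  have hyy : y * y ∈ C := (iY y hy y hy).2 Iff.rfl
  have hcoe : ∀ (h c : H), c ∈ C → ((h * c : H) : H ⧸ C) = (h : H ⧸ C) := by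
    intro h c hc
    rw [eq_comm, coe_eq_iff]
    simpa using hc
  set σ := rm x hnx with hσdef
  set τ := rm y hny with hτdef
  have hσσ : σ * σ = 1 := by
    ext ω
    induction ω using Quotient.inductionOn' with
    | h a =>
      show ((a * x * x : H) : H ⧸ C) = (a : H ⧸ C)
      rw [mul_assoc, hcoe _ _ hxx]
  have hττ : τ * τ = 1 := by
    ext ω
    induction ω using Quotient.inductionOn' with
    | h a =>
      show ((a * y * y : H) : H ⧸ C) = (a : H ⧸ C)
      rw [mul_assoc, hcoe _ _ hyy]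
  have hgt : ∀ h : H, (σ * τ) (h : H ⧸ C) = ((h * (y * x) : H) : H ⧸ C) := by
    intro h
    rw [← mul_assoc]
    rfl
  have hz := zpow_of_apply (σ * τ) (y * x) hgt
  have hpow : ∀ n : ℤ, n ≠ 0 → (y * x) ^ n ∉ C := by
    intro n hn0 hmem
    apply hN
    let ω0 : H ⧸ C := ((1 : H) : H ⧸ C)
    let S0 : Set (H ⧸ C) := {ω | ∃ k : ℤ, ω = ((σ * τ) ^ k) ω0}
    have hS0 : S0.Finite := by
      apply finite_orbit (σ * τ) _ n hn0
      rw [hz, eq_comm, coe_eq_iff]
      simpa using hmem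
    let S : Set (H ⧸ C) := S0 ∪ (fun ω => σ ω) '' S0
    have hSf : S.Finite := hS0.union (hS0.image _)
    have hσS : ∀ ω, ω ∈ S → σ ω ∈ S := by
      rintro ω (h | ⟨ω', h, rfl⟩)
      · exact Or.inr ⟨ω, h, rfl⟩
      · left
        show σ (σ ω') ∈ S0
        rw [← Equiv.Perm.mul_apply, hσσ]
        exact h
    have hτS : ∀ ω, ω ∈ S → τ ω ∈ S := by
      rintro ω (⟨k, rfl⟩ | ⟨_, ⟨k, rfl⟩, rfl⟩)
      · right
        refine ⟨_, ⟨1 + k, rfl⟩, ?_⟩
        rw [zpow_add, zpow_one, Equiv.Perm.mul_apply]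
        show σ ((σ * τ) (((σ * τ) ^ k) ω0)) = τ (((σ * τ) ^ k) ω0)
        rw [← Equiv.Perm.mul_apply σ (σ * τ), ← mul_assoc, hσσ, one_mul]
      · left
        refine ⟨-1 + k, ?_⟩
        rw [zpow_add, Equiv.Perm.mul_apply, zpow_neg_one, mul_inv_rev,
          inv_eq_iff_mul_eq_one.2 hσσ, inv_eq_iff_mul_eq_one.2 hττ]
        rfl
    have hback : ∀ (ρ : Equiv.Perm (H ⧸ C)), ρ * ρ = 1 → (∀ ω, ω ∈ S → ρ ω ∈ S) →
        ∀ ω, (ω ∈ S ↔ ρ ω ∈ S) := by
      intro ρ hρ h ω
      refine ⟨h ω, fun h' => ?_⟩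
      have := h _ h'
      rwa [← Equiv.Perm.mul_apply, hρ] at this
    have hxk : x ∈ keep S := fun h => hback σ hσσ hσS (h : H ⧸ C)
    have hyk : y ∈ keep S := fun h => hback τ hττ hτS (h : H ⧸ C)
    have hle : ∀ (X : Subgroup H),
        (∀ a ∈ X, ∀ b ∈ X, (a * b ∈ C ↔ (a ∈ C ↔ b ∈ C))) → ∀ x ∈ X, x ∉ C →
        x ∈ keep S → X ≤ keep S := by
      intro X iX x hx hxC hk b hb
      by_cases hbC : b ∈ C
      · exact le_keep S hbC
      · have h1 : x⁻¹ * b ∈ C := by
          rw [iX _ (X.inv_mem hx) _ hb]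
          have hxi : x⁻¹ ∉ C := fun h => hxC (by simpa using C.inv_mem h)
          tauto
        have h2 := (keep S).mul_mem hk (le_keep S h1)
        rwa [mul_inv_cancel_left] at h2
    apply finite_of_stable hC S hSf (Or.inl ⟨0, by simp [ω0]⟩)
    have h1 : X ⊔ Y ≤ keep S := sup_le (hle X iX x hx hxC hxk) (hle Y iY y hy hyC hyk)
    exact fun n hn => h1 hn
  let θ' : H ⧸ C → ZMod 2 := fun ω => Quotient.liftOn' ω θ (by
    intro a b hab
    rw [QuotientGroup.leftRel_apply] at hab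
    have := hθ a _ hab
    rw [← this, mul_inv_cancel_left])
  obtain ⟨a0, ha1, ha2⟩ := dline σ τ hσσ hττ
    (by
      intro ω
      induction ω using Quotient.inductionOn' with
      | h a =>
        intro e
        have e' : ((a * x : H) : H ⧸ C) = (a : H ⧸ C) := e
        rw [eq_comm, coe_eq_iff] at e'
        exact hxC (by simpa using e'))
    (by
      intro ω
      induction ω using Quotient.inductionOn' with
      | h a =>
        intro e
        have e' : ((a * y : H) : H ⧸ C) = (a : H ⧸ C) := e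
        rw [eq_comm, coe_eq_iff] at e'
        exact hyC (by simpa using e'))
    (by
      intro n hn0 ω
      induction ω using Quotient.inductionOn' with
      | h a =>
        intro e
        have e' : ((σ * τ) ^ n) (a : H ⧸ C) = (a : H ⧸ C) := e
        rw [hz, eq_comm, coe_eq_iff] at e'
        apply hpow n hn0
        simpa using e')
    (fun ω => θ' ω + θ' (τ ω))
    (by
      intro ω
      show θ' (τ ω) + θ' (τ (τ ω)) = θ' ω + θ' (τ ω)
      rw [← Equiv.Perm.mul_apply, hττ, add_comm]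
      rfl)
  have h2 : ∀ x : ZMod 2, x + x = 0 := fun x => CharTwo.add_self_eq_zero x
  have haX : RInv X (fun h => a0 (h : H ⧸ C)) := by
    intro h b hb
    show a0 ((h * b : H) : H ⧸ C) = a0 (h : H ⧸ C)
    by_cases hbC : b ∈ C
    · rw [hcoe _ _ hbC]
    · have h1 : x⁻¹ * b ∈ C := by
        rw [iX _ (X.inv_mem hx) _ hb]
        have hxi : x⁻¹ ∉ C := fun h => hxC (by simpa using C.inv_mem h)
        tauto
      have h3 : h * b = h * x * (x⁻¹ * b) := by group
      rw [h3, hcoe _ _ h1]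
      exact ha1 (h : H ⧸ C)
  refine ⟨fun h => a0 (h : H ⧸ C), fun h => θ h + a0 (h : H ⧸ C), haX, ?_, ?_⟩
  · intro h b hb
    show θ (h * b) + a0 ((h * b : H) : H ⧸ C) = θ h + a0 (h : H ⧸ C)
    by_cases hbC : b ∈ C
    · rw [hcoe _ _ hbC, hθ h b hbC]
    · have h1 : y⁻¹ * b ∈ C := by
        rw [iY _ (Y.inv_mem hy) _ hb]
        have hyi : y⁻¹ ∉ C := fun h => hyC (by simpa using C.inv_mem h)
        tauto
      have h3 : h * b = h * y * (y⁻¹ * b) := by group
      rw [h3, hcoe _ _ h1, hθ _ _ h1]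
      have h4 : a0 ((h * y : H) : H ⧸ C) = a0 (h : H ⧸ C) + (θ h + θ (h * y)) :=
        ha2 (h : H ⧸ C)
      rw [h4]
      have := h2 (θ (h * y))
      linear_combination this
  · intro h
    show θ h = a0 (h : H ⧸ C) + (θ h + a0 (h : H ⧸ C))
    have := h2 (a0 (h : H ⧸ C))
    linear_combination -this

end Pool.Agent.BT
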