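import Pool.Agent.SAF.AOrb

/-!
# BT: masses of `H`-sets (MP_92a43c_al, bounded torsion in general)

`wq H y` is the inverse of the order of the stabiliser (zero if it is infinite), `mass H s` is the
sum of the weights of the orbits which meet `s`. Here: weights of subgroups, the monotonicity
lemma, and the comparison of masses along a surjective equivariant map, with the equality case.
-/

namespace Pool.Agent.BT

open MulAction
open Pool.Agent.SAF (orbs FinOrb mk_eq_iff FinOrb_iff exists_rep)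

/-! ### weights of subgroups -/

section Sub

variable {H : Type} [Group H]

/-- the inverse of the order of a subgroup, zero if it is infinite -/
noncomputable def iw (A : Subgroup H) : ℚ := ((Nat.card ↥A : ℕ) : ℚ)⁻¹

theorem iw_nonneg (A : Subgroup H) : 0 ≤ iw A := inv_nonneg.2 (Nat.cast_nonneg _)

theorem iw_eq_zero {A : Subgroup H} : iw A = 0 ↔ ¬ Finite ↥A := by
  unfold iw
  rw [inv_eq_zero, Nat.cast_eq_zero, Nat.card_eq_zero, not_finite_iff_infinite]
  constructor
  · rintro (h | h)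
    · exact (h.false ⟨1, A.one_mem⟩).elim
    · exact h
  · exact Or.inr

theorem iw_pos {A : Subgroup H} : 0 < iw A ↔ Finite ↥A := by
  constructor
  · intro h
    by_contra hf
    rw [iw_eq_zero.2 hf] at h
    exact lt_irrefl _ h
  · intro h
    refine lt_of_le_of_ne (iw_nonneg A) (fun e => ?_)
    exact iw_eq_zero.1 e.symm h

theorem finite_of_le {A B : Subgroup H} (h : A ≤ B) (hB : Finite ↥B) : Finite ↥A :=
  Finite.of_injective (Subgroup.inclusion h) (Subgroup.inclusion_injective h)

theorem iw_anti {A B : Subgroup H} (h : A ≤ B) : iw B ≤ iw A := by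
  by_cases hB : Finite ↥B
  · have hA : Finite ↥A := finite_of_le h hB
    unfold iw
    apply inv_anti₀
    · exact Nat.cast_pos.2 Nat.card_pos
    · exact Nat.cast_le.2 (Nat.le_of_dvd Nat.card_pos (Subgroup.card_dvd_of_le h))
  · rw [iw_eq_zero.2 hB]
    exact iw_nonneg A

/-- a proper overgroup of a finite group has at most half the weight -/
theorem iw_half {A B : Subgroup H} (h : A < B) (hA : Finite ↥A) : iw B ≤ iw A / 2 := by
  by_cases hB : Finite ↥B
  · have h1 : Nat.card ↥A ∣ Nat.card ↥B := Subgroup.card_dvd_of_le h.le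
    have h2 : Nat.card ↥A ≠ Nat.card ↥B := by
      intro e
      exact h.ne (Subgroup.eq_of_le_of_card_ge h.le e.ge)
    obtain ⟨k, hk⟩ := h1
    have hApos : 0 < Nat.card ↥A := Nat.card_pos
    have hBpos : 0 < Nat.card ↥B := Nat.card_pos
    have hk2 : 2 ≤ k := by
      rcases k with _ | _ | k
      · omega
      · simp at hk; exact absurd hk.symm h2
      · omega
    have h3 : 2 * Nat.card ↥A ≤ Nat.card ↥B := by
      rw [hk]; nlinarith
    unfold iw
    have h4 : (0:ℚ) < (Nat.card ↥A : ℚ) := Nat.cast_pos.2 hApos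
    have h5 : (2:ℚ) * (Nat.card ↥A : ℚ) ≤ (Nat.card ↥B : ℚ) := by exact_mod_cast h3
    have h6 : ((Nat.card ↥A : ℚ))⁻¹ / 2 = (2 * (Nat.card ↥A : ℚ))⁻¹ := by
      rw [mul_inv]; ring
    rw [h6]
    exact inv_anti₀ (by positivity) h5
  · rw [iw_eq_zero.2 hB]
    exact div_nonneg (iw_nonneg A) (by norm_num)

theorem eq_of_iw_eq {A B : Subgroup H} (h : A ≤ B) (hA : Finite ↥A) (e : iw B = iw A) :
    A = B := by
  by_contra hne
  have h1 := iw_half (lt_of_le_of_ne h hne) hA
  have h2 := iw_pos.2 hA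
  linarith

/-- Monotonicity: adding `B` to a smaller group costs at least as much. -/
theorem iw_mono {A C : Subgroup H} (B : Subgroup H) (h : A ≤ C) :
    iw C - iw (C ⊔ B) ≤ iw A - iw (A ⊔ B) := by
  rcases h.eq_or_lt with rfl | hlt
  · exact le_rfl
  by_cases hA : Finite ↥A
  · by_cases hB : B ≤ A
    · rw [sup_eq_left.2 hB, sup_eq_left.2 (hB.trans h)]; simp
    · have h1 : A < A ⊔ B := lt_of_le_of_ne le_sup_left (fun e => hB (e ▸ le_sup_right))
      have h2 := iw_half h1 hA
      have h3 := iw_half hlt hA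
      have h4 := iw_nonneg (C ⊔ B)
      linarith
  · have hC : ¬ Finite ↥C := fun hc => hA (finite_of_le h hc)
    have h1 := iw_anti (A := A) (B := A ⊔ B) le_sup_left
    have h2 := iw_nonneg (C ⊔ B)
    rw [iw_eq_zero.2 hA] at h1
    rw [iw_eq_zero.2 hC, iw_eq_zero.2 hA]
    have := iw_nonneg (A ⊔ B)
    linarith

/-- Equality in `iw_mono`. -/
theorem iw_mono_eq {A C : Subgroup H} (B : Subgroup H) (h : A ≤ C)
    (e : iw C - iw (C ⊔ B) = iw A - iw (A ⊔ B)) :
    A = C ∨ B ≤ A ∨ ¬ Finite ↥A ∨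
      (A < C ∧ ¬ B ≤ A ∧ iw C = iw A / 2 ∧ iw (A ⊔ B) = iw A / 2 ∧ ¬ Finite ↥(C ⊔ B)) := by
  rcases h.eq_or_lt with rfl | hlt
  · exact Or.inl rfl
  by_cases hB : B ≤ A
  · exact Or.inr (Or.inl hB)
  by_cases hA : Finite ↥A
  · refine Or.inr (Or.inr (Or.inr ⟨hlt, hB, ?_⟩))
    have h1 : A < A ⊔ B := lt_of_le_of_ne le_sup_left (fun e => hB (e ▸ le_sup_right))
    have h2 := iw_half h1 hA
    have h3 := iw_half hlt hA
    have h4 := iw_nonneg (C ⊔ B)
    refine ⟨by linarith, by linarith, ?_⟩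
    rw [← iw_eq_zero]
    linarith
  · exact Or.inr (Or.inr (Or.inl hA))

end Sub

/-! ### masses -/

section Mass

variable (H : Type) [Group H] {Y : Type} [MulAction H Y]

/-- the weight of a point -/
noncomputable def wq (y : Y) : ℚ := iw (stabilizer H y)

/-- the mass of a set: sum of the weights of the orbits which meet it -/
noncomputable def mass (s : Set Y) : ℚ := ∑ᶠ q ∈ orbs H s, wq H (Quotient.out q)

variable {H}

theorem wq_smul (h : H) (y : Y) : wq H (h • y) = wq H y := by
  unfold wq iw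
  rw [Nat.card_congr (stabilizerEquivStabilizer (G := H) (a := y) (b := h • y) (g := h)
    rfl).toEquiv.symm]

theorem wq_eq_of_mk {a b : Y} (e : (Quotient.mk'' a : orbitRel.Quotient H Y) = Quotient.mk'' b) :
    wq H a = wq H b := by
  obtain ⟨h, rfl⟩ := mk_eq_iff.1 e
  exact wq_smul h b

theorem wq_out (y : Y) : wq H (Quotient.out (Quotient.mk'' y : orbitRel.Quotient H Y)) =
    wq H y := by
  apply wq_eq_of_mk
  exact Quotient.out_eq' (s₁ := orbitRel H Y) _

theorem wq_nonneg (y : Y) : 0 ≤ wq H y := iw_nonneg _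

theorem mass_nonneg (s : Set Y) : 0 ≤ mass H s :=
  finsum_nonneg (fun _ => finsum_nonneg (fun _ => wq_nonneg _))

theorem mass_eq_sum {s : Set Y} (hs : FinOrb H s) :
    mass H s = ∑ q ∈ hs.toFinset, wq H (Quotient.out q) := by
  unfold mass
  rw [← finsum_mem_coe_finset]
  simp

end Mass

/-! ### surjective equivariant maps -/

section Surj

variable {H X X' : Type} [Group H] [MulAction H X] [MulAction H X']

theorem stab_le_of_equi {F : X → X'} (hF : ∀ (h : H) (x : X), F (h • x) = h • F x) (x : X) :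
    stabilizer H x ≤ stabilizer H (F x) := by
  intro h hh
  rw [mem_stabilizer_iff] at hh ⊢
  rw [← hF, hh]

theorem wq_le_of_equi {F : X → X'} (hF : ∀ (h : H) (x : X), F (h • x) = h • F x) (x : X) :
    wq H (F x) ≤ wq H x := iw_anti (stab_le_of_equi hF x)

theorem FinOrb.image_equi {F : X → X'} (hF : ∀ (h : H) (x : X), F (h • x) = h • F x)
    {s : Set X} (hs : FinOrb H s) : FinOrb H (F '' s) := by
  apply Pool.Agent.SAF.FinOrb.image hs F
  · rintro _ ⟨a, ha, rfl⟩
    exact ⟨a, ha, 1, one_smul _ _⟩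
  · rintro a _ b _ ⟨h, rfl⟩
    exact ⟨h, (hF h a).symm⟩

/-- induced map on orbits -/
noncomputable def omap {F : X → X'} (hF : ∀ (h : H) (x : X), F (h • x) = h • F x) :
    orbitRel.Quotient H X → orbitRel.Quotient H X' :=
  Quotient.map' F (by
    rintro a b ⟨h, rfl⟩
    exact ⟨h, (hF h b).symm⟩)

theorem omap_mk {F : X → X'} (hF : ∀ (h : H) (x : X), F (h • x) = h • F x) (x : X) :
    omap hF (Quotient.mk'' x) = Quotient.mk'' (F x) := rfl

open Classical in
/-- mass defect over an orbit of the target -/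
noncomputable def defect {F : X → X'} (hF : ∀ (h : H) (x : X), F (h • x) = h • F x)
    {s : Set X} (hs : FinOrb H s) (q' : orbitRel.Quotient H X') : ℚ :=
  (∑ q ∈ hs.toFinset.filter (fun q => omap hF q = q'), wq H (Quotient.out q)) -
    wq H (Quotient.out q')

open Classical in
theorem mass_sub {F : X → X'} (hF : ∀ (h : H) (x : X), F (h • x) = h • F x)
    {s : Set X} (hs : FinOrb H s) :
    mass H s - mass H (F '' s) =
      ∑ q' ∈ (FinOrb.image_equi hF hs).toFinset, defect hF hs q' := by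
  rw [mass_eq_sum hs, mass_eq_sum (FinOrb.image_equi hF hs)]
  unfold defect
  rw [Finset.sum_sub_distrib]
  congr 1
  symm
  apply Finset.sum_fiberwise_of_maps_to
  intro q hq
  rw [Set.Finite.mem_toFinset] at hq ⊢
  obtain ⟨x, hx, rfl⟩ := hq
  exact ⟨F x, ⟨x, hx, rfl⟩, rfl⟩

open Classical in
theorem defect_ge {F : X → X'} (hF : ∀ (h : H) (x : X), F (h • x) = h • F x)
    {s : Set X} (hs : FinOrb H s) (x' : X') (T : Finset (orbitRel.Quotient H X))
    (hT : ∀ q ∈ T, ∃ x ∈ s, Quotient.mk'' x = q ∧ ∃ h : H, h • F x = x') :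
    (∑ q ∈ T, wq H (Quotient.out q)) - wq H x' ≤ defect hF hs (Quotient.mk'' x') := by
  unfold defect
  rw [wq_out]
  apply sub_le_sub_right
  apply Finset.sum_le_sum_of_subset_of_nonneg
  · intro q hq
    obtain ⟨x, hx, rfl, h, hh⟩ := hT q hq
    rw [Finset.mem_filter, Set.Finite.mem_toFinset]
    refine ⟨⟨x, hx, rfl⟩, ?_⟩
    rw [omap_mk]
    symm
    exact mk_eq_iff.2 ⟨h, hh⟩
  · intro q _ _
    exact wq_nonneg _

theorem defect_ge_one {F : X → X'} (hF : ∀ (h : H) (x : X), F (h • x) = h • F x)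
    {s : Set X} (hs : FinOrb H s) {x : X} (hx : x ∈ s) :
    wq H x - wq H (F x) ≤ defect hF hs (Quotient.mk'' (F x)) := by
  have := defect_ge hF hs (F x) {Quotient.mk'' x} (by
    intro q hq
    rw [Finset.mem_singleton] at hq
    exact ⟨x, hx, hq.symm, 1, one_smul _ _⟩)
  rwa [Finset.sum_singleton, wq_out] at this

theorem defect_nonneg {F : X → X'} (hF : ∀ (h : H) (x : X), F (h • x) = h • F x)
    {s : Set X} (hs : FinOrb H s) {q' : orbitRel.Quotient H X'} (hq : q' ∈ orbs H (F '' s)) :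
    0 ≤ defect hF hs q' := by
  obtain ⟨_, ⟨x, hx, rfl⟩, rfl⟩ := hq
  refine le_trans ?_ (defect_ge_one hF hs hx)
  linarith [wq_le_of_equi hF x]

theorem defect_ge_two {F : X → X'} (hF : ∀ (h : H) (x : X), F (h • x) = h • F x)
    {s : Set X} (hs : FinOrb H s) {x y : X} (hx : x ∈ s) (hy : y ∈ s)
    (hxy : ∀ h : H, h • x ≠ y) (e : ∃ h : H, h • F y = F x) :
    wq H x + wq H y - wq H (F x) ≤ defect hF hs (Quotient.mk'' (F x)) := by
  classical
  have hne : (Quotient.mk'' x : orbitRel.Quotient H X) ≠ Quotient.mk'' y := by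
    intro e
    obtain ⟨h, hh⟩ := mk_eq_iff.1 e.symm
    exact hxy h hh
  have := defect_ge hF hs (F x) {Quotient.mk'' x, Quotient.mk'' y} (by
    intro q hq
    rw [Finset.mem_insert, Finset.mem_singleton] at hq
    rcases hq with hq | hq
    · exact ⟨x, hx, hq.symm, 1, one_smul _ _⟩
    · exact ⟨y, hy, hq.symm, e⟩)
  rwa [Finset.sum_pair hne, wq_out, wq_out] at this

theorem defect_ge_three {F : X → X'} (hF : ∀ (h : H) (x : X), F (h • x) = h • F x)
    {s : Set X} (hs : FinOrb H s) {x y z : X} (hx : x ∈ s) (hy : y ∈ s) (hz : z ∈ s)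
    (hxy : ∀ h : H, h • x ≠ y) (hxz : ∀ h : H, h • x ≠ z) (hyz : ∀ h : H, h • y ≠ z)
    (e : ∃ h : H, h • F y = F x) (e' : ∃ h : H, h • F z = F x) :
    wq H x + wq H y + wq H z - wq H (F x) ≤ defect hF hs (Quotient.mk'' (F x)) := by
  classical
  have hne : ∀ x y : X, (∀ h : H, h • x ≠ y) →
      (Quotient.mk'' x : orbitRel.Quotient H X) ≠ Quotient.mk'' y := by
    intro x y hxy e
    obtain ⟨h, hh⟩ := mk_eq_iff.1 e.symm
    exact hxy h hh
  have := defect_ge hF hs (F x) {Quotient.mk'' x, Quotient.mk'' y, Quotient.mk'' z} (by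
    intro q hq
    rw [Finset.mem_insert, Finset.mem_insert, Finset.mem_singleton] at hq
    rcases hq with hq | hq | hq
    · exact ⟨x, hx, hq.symm, 1, one_smul _ _⟩
    · exact ⟨y, hy, hq.symm, e⟩
    · exact ⟨z, hz, hq.symm, e'⟩)
  rw [Finset.sum_insert, Finset.sum_pair (hne y z hyz), wq_out, wq_out, wq_out] at this
  · linarith
  · rw [Finset.mem_insert, Finset.mem_singleton]
    rintro (h | h)
    · exact hne x y hxy h
    · exact hne x z hxz h

/-- the defect over one orbit bounds the loss of mass from below -/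
theorem defect_le {F : X → X'} (hF : ∀ (h : H) (x : X), F (h • x) = h • F x)
    {s : Set X} (hs : FinOrb H s) {x : X} (hx : x ∈ s) :
    defect hF hs (Quotient.mk'' (F x)) ≤ mass H s - mass H (F '' s) := by
  rw [mass_sub hF hs]
  apply Finset.single_le_sum (f := fun q' => defect hF hs q')
  · intro q' hq'
    rw [Set.Finite.mem_toFinset] at hq'
    exact defect_nonneg hF hs hq'
  · rw [Set.Finite.mem_toFinset]
    exact ⟨F x, ⟨x, hx, rfl⟩, rfl⟩

theorem mass_image_le {F : X → X'} (hF : ∀ (h : H) (x : X), F (h • x) = h • F x)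
    {s : Set X} (hs : FinOrb H s) : mass H (F '' s) ≤ mass H s := by
  have : 0 ≤ mass H s - mass H (F '' s) := by
    rw [mass_sub hF hs]
    apply Finset.sum_nonneg
    intro q' hq'
    rw [Set.Finite.mem_toFinset] at hq'
    exact defect_nonneg hF hs hq'
  linarith

/-- two different orbits of the target -/
theorem defect_add_le {F : X → X'} (hF : ∀ (h : H) (x : X), F (h • x) = h • F x)
    {s : Set X} (hs : FinOrb H s) {x y : X} (hx : x ∈ s) (hy : y ∈ s)
    (hxy : ∀ h : H, h • F x ≠ F y) :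
    defect hF hs (Quotient.mk'' (F x)) + defect hF hs (Quotient.mk'' (F y)) ≤
      mass H s - mass H (F '' s) := by
  classical
  have hne : (Quotient.mk'' (F x) : orbitRel.Quotient H X') ≠ Quotient.mk'' (F y) := by
    intro e
    obtain ⟨h, hh⟩ := mk_eq_iff.1 e.symm
    exact hxy h hh
  rw [mass_sub hF hs, ← Finset.sum_pair (f := fun q' => defect hF hs q') hne]
  apply Finset.sum_le_sum_of_subset_of_nonneg
  · intro q hq
    rw [Finset.mem_insert, Finset.mem_singleton] at hq
    rw [Set.Finite.mem_toFinset]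
    rcases hq with rfl | rfl
    · exact ⟨F x, ⟨x, hx, rfl⟩, rfl⟩
    · exact ⟨F y, ⟨y, hy, rfl⟩, rfl⟩
  · intro q' hq' _
    rw [Set.Finite.mem_toFinset] at hq'
    exact defect_nonneg hF hs hq'

/-- upper bound of the loss: `F` is injective outside the class of `x1` -/
theorem mass_sub_le {F : X → X'} (hF : ∀ (h : H) (x : X), F (h • x) = h • F x)
    {s : Set X} (hs : FinOrb H s) (hsm : ∀ (h : H) (x : X), x ∈ s → h • x ∈ s)
    {x1 : X} (hx1 : x1 ∈ s)
    (hinj : ∀ x ∈ s, ∀ y ∈ s, F x = F y → x = y ∨ ∃ h : H, h • F x1 = F x) :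
    mass H s - mass H (F '' s) ≤ defect hF hs (Quotient.mk'' (F x1)) := by
  classical
  rw [mass_sub hF hs]
  have hmem : (Quotient.mk'' (F x1) : orbitRel.Quotient H X') ∈
      (FinOrb.image_equi hF hs).toFinset := by
    rw [Set.Finite.mem_toFinset]
    exact ⟨F x1, ⟨x1, hx1, rfl⟩, rfl⟩
  rw [← Finset.add_sum_erase _ _ hmem]
  have : ∑ q' ∈ (FinOrb.image_equi hF hs).toFinset.erase (Quotient.mk'' (F x1)),
      defect hF hs q' ≤ 0 := by
    apply Finset.sum_nonpos
    intro q' hq'
    rw [Finset.mem_erase, Set.Finite.mem_toFinset] at hq'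
    obtain ⟨hne, _, ⟨x, hx, rfl⟩, rfl⟩ := hq'
    have hno : ∀ h : H, h • F x1 ≠ F x := by
      intro h e
      exact hne (mk_eq_iff.2 ⟨h, e⟩).symm.symm
    unfold defect
    rw [wq_out]
    have h1 : hs.toFinset.filter (fun q => omap hF q = Quotient.mk'' (F x)) =
        {Quotient.mk'' x} := by
      ext q
      rw [Finset.mem_filter, Set.Finite.mem_toFinset, Finset.mem_singleton]
      constructor
      · rintro ⟨⟨y, hy, rfl⟩, e⟩
        rw [omap_mk] at e
        obtain ⟨h, hh⟩ := mk_eq_iff.1 e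
        rw [← hF] at hh
        rcases hinj _ (hsm h x hx) y hy hh with e1 | ⟨k, hk⟩
        · exact (mk_eq_iff.2 ⟨h, e1⟩)
        · exfalso
          apply hno (h⁻¹ * k)
          rw [mul_smul, hk, hF, inv_smul_smul]
      · rintro rfl
        exact ⟨⟨x, hx, rfl⟩, rfl⟩
    rw [h1, Finset.sum_singleton, wq_out]
    have h2 : stabilizer H (F x) = stabilizer H x := by
      apply le_antisymm
      · intro h hh
        rw [mem_stabilizer_iff] at hh ⊢
        rw [← hF] at hh
        rcases hinj _ (hsm h x hx) x hx hh with e1 | ⟨k, hk⟩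
        · exact e1
        · exfalso
          apply hno k
          rw [hk, hh]
      · exact stab_le_of_equi hF x
    unfold wq
    rw [h2, sub_self]
  linarith

open Classical in
/-- upper bound of the defect -/
theorem defect_le_of_fiber {F : X → X'} (hF : ∀ (h : H) (x : X), F (h • x) = h • F x)
    {s : Set X} (hs : FinOrb H s) (x' : X') (T : Finset (orbitRel.Quotient H X))
    (hT : ∀ x ∈ s, (∃ h : H, h • F x = x') → (Quotient.mk'' x : orbitRel.Quotient H X) ∈ T) :
    defect hF hs (Quotient.mk'' x') ≤ (∑ q ∈ T, wq H (Quotient.out q)) - wq H x' := by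
  unfold defect
  rw [wq_out]
  apply sub_le_sub_right
  apply Finset.sum_le_sum_of_subset_of_nonneg
  · intro q hq
    rw [Finset.mem_filter, Set.Finite.mem_toFinset] at hq
    obtain ⟨⟨x, hx, rfl⟩, e⟩ := hq
    rw [omap_mk] at e
    exact hT x hx (mk_eq_iff.1 e.symm)
  · intro q _ _
    exact wq_nonneg _

end Surj

end Pool.Agent.BT
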