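import Pool.Agent.BTK.KEnd2

/-!
# Strong accessibility of finitely presented groups, two-ended subgroups with bounded torsion
-/

set_option autoImplicit false

namespace Pool.Agent.Results.MP_92a43c_al.BoundedKernelsAll

open MulAction

/-- The class of the problem: finite groups and groups with an infinite cyclic subgroup of finite
index. -/
def InClass (H : Type) [Group H] : Prop :=
  Finite H ∨ ∃ g : H, (∀ n : ℕ, 0 < n → g ^ n ≠ 1) ∧ (Subgroup.zpowers g).FiniteIndex

/-- A (nontrivial) decomposition of `H` over the class, given by the action on its Bass-Serre tree: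
an action on a tree, without inversions, with finitely many orbits of vertices and of edges (the
graph of groups is finite), with all edge stabilisers in the class and without global fixed point.
-/
structure Decomposition (H : Type) [Group H] where
  V : Type
  [act : MulAction H V]
  T : SimpleGraph V
  tree : T.IsTree
  adj_smul : ∀ (h : H) (x y : V), T.Adj x y → T.Adj (h • x) (h • y)
  no_inversion : ∀ (h : H) (x y : V), T.Adj x y → ¬ (h • x = y ∧ h • y = x)
  finite_vertices : ∃ F : Set V, F.Finite ∧ ∀ x, ∃ h : H, h • x ∈ F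
  finite_edges : ∃ F : Set (V × V), F.Finite ∧ ∀ x y, T.Adj x y → ∃ h : H, (h • x, h • y) ∈ F
  edge_groups : ∀ x y : V, T.Adj x y → InClass ↥(stabilizer H x ⊓ stabilizer H y)
  nontrivial : ∀ x : V, ∃ h : H, h • x ≠ x

attribute [instance] Decomposition.act

/-- `Terminates n H`: some hierarchy for `H` over the class terminates after at most `n` stages,
that is, either `H` has no decomposition or (if `n > 0`) `H` has a decomposition such that for
every vertex group some hierarchy terminates after at most `n - 1` stages. -/
def Terminates : ℕ → ∀ (H : Type) [Group H], Prop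
  | 0, H, _ => IsEmpty (Decomposition H)
  | n + 1, H, _ => IsEmpty (Decomposition H) ∨
      ∃ D : Decomposition H, ∀ x : D.V, Terminates n ↥(stabilizer H x)

/-- Some hierarchy for `G` over the class terminates. -/
def StronglyAccessible (G : Type) [Group G] : Prop := ∃ n, Terminates n G

/-! ### The definitions agree with those of the folder `SAF` -/

private def toSAF {H : Type} [Group H] (D : Decomposition H) : Pool.Agent.SAF.Decomp H where
  X := D.V
  act := D.act
  G := D.T
  tree := D.tree
  adj_smul := D.adj_smul
  noinv := D.no_inversion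
  finV := by
    obtain ⟨F, hF, h⟩ := D.finite_vertices
    refine Pool.Agent.SAF.FinOrb_iff.2 ⟨F, hF, Set.subset_univ _, fun y _ => ?_⟩
    obtain ⟨g, hg⟩ := h y
    exact ⟨_, hg, g⁻¹, inv_smul_smul g y⟩
  finE := by
    obtain ⟨F, hF, h⟩ := D.finite_edges
    refine Pool.Agent.SAF.FinOrb_iff.2 ⟨F ∩ {p | D.T.Adj p.1 p.2},
      hF.subset Set.inter_subset_left, Set.inter_subset_right, fun y hy => ?_⟩
    obtain ⟨g, hg⟩ := h y.1 y.2 hy
    exact ⟨_, ⟨hg, D.adj_smul g _ _ hy⟩, g⁻¹, Prod.ext (inv_smul_smul g y.1)
      (inv_smul_smul g y.2)⟩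
  edgeC := D.edge_groups
  nofix := D.nontrivial

private def ofSAF {H : Type} [Group H] (D : Pool.Agent.SAF.Decomp H) : Decomposition H where
  V := D.X
  act := D.act
  T := D.G
  tree := D.tree
  adj_smul := D.adj_smul
  no_inversion := D.noinv
  finite_vertices := by
    obtain ⟨F, hF, -, h⟩ := Pool.Agent.SAF.FinOrb_iff.1 D.finV
    refine ⟨F, hF, fun x => ?_⟩
    obtain ⟨r, hr, g, rfl⟩ := h x (Set.mem_univ _)
    exact ⟨g⁻¹, by rwa [inv_smul_smul]⟩
  finite_edges := by
    obtain ⟨F, hF, -, h⟩ := Pool.Agent.SAF.FinOrb_iff.1 D.finE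
    refine ⟨F, hF, fun x y hxy => ?_⟩
    obtain ⟨r, hr, g, hg⟩ := h (x, y) hxy
    refine ⟨g⁻¹, ?_⟩
    have h1 : g⁻¹ • (x, y) ∈ F := by rwa [← hg, inv_smul_smul]
    exact h1
  edge_groups := D.edgeC
  nontrivial := D.nofix

private theorem terminates_of_SAn : ∀ (n : ℕ) (H : Type) [Group H],
    Pool.Agent.SAF.SAn n H → Terminates n H
  | 0, _, _, h => ⟨fun D => h.elim (toSAF D)⟩
  | n + 1, _, _, h => h.elim (fun h => Or.inl ⟨fun D => h.elim (toSAF D)⟩)
      (fun ⟨D, hD⟩ => Or.inr ⟨ofSAF D, fun x => terminates_of_SAn n _ (hD x)⟩)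

/-- Every finitely presented group for which there is `M` such that the finite subgroups of its
infinite subgroups in the class have at most `M` elements is strongly accessible over the class of
finite and two-ended groups. (Infinite dihedral groups are allowed, and there is no condition on
finite subgroups which lie in no infinite subgroup of the class.) -/
theorem result (G : Type) [Group G] [Group.IsFinitelyPresented G] (M : ℕ)
    (hM : ∀ A F : Subgroup G, InClass ↥A → Infinite ↥A → F ≤ A → Finite ↥F → Nat.card ↥F ≤ M) :
    StronglyAccessible G := by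
  obtain ⟨n, hn⟩ := Pool.Agent.BT.kmain G (M := M)
    (fun A F hA hi hFA hF => hM A F hA (not_finite_iff_infinite.1 hi) hFA hF)
  exact ⟨n, terminates_of_SAn n G hn⟩

end Pool.Agent.Results.MP_92a43c_al.BoundedKernelsAll
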