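import Pool.Agent.BT.PBase

/-!
# Pentagon complexes: absorbing an orbit of vertices
-/

namespace Pool.Agent.BT

open MulAction
open Pool.Agent.SAF (InC orbs FinOrb oc Decomp SAn SA)

namespace PX

variable {H V : Type} [Group H] [MulAction H V] (K : PX H V)

/-- `s` can be absorbed into `x` -/
structure Abs (s x : V) : Prop where
  ne : ∀ h : H, h • s ≠ x
  st : ∀ h : H, h • s = s → h • x = x
  rk : K.rk x ≤ K.rk s
  edge : ∀ a, K.ar s a → a = x ∨ K.ar x a ∨ K.ar a x
  nb : K.E s x ∨ ∃ z, K.E z s ∧ K.E z x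
  soft : ∃ a, K.ar s a

variable (H) in
/-- the vertices which are not absorbed -/
def AV (s : V) : Type := {v : V // ∀ h : H, h • s ≠ v}

instance AV.act (s : V) : MulAction H (AV H s) where
  smul k v := ⟨k • v.1, fun h e => v.2 (k⁻¹ * h) (by rw [mul_smul, e, inv_smul_smul])⟩
  one_smul v := Subtype.ext (one_smul H v.1)
  mul_smul a b v := Subtype.ext (mul_smul a b v.1)

theorem AV.smul_val {s : V} (k : H) (v : AV H s) : (k • v).1 = k • v.1 := rfl

variable {K}

open Classical in
/-- the retraction, as a map to `V` -/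
noncomputable def Abs.r {s x : V} (_ : K.Abs s x) (v : V) : V :=
  if h : ∃ h : H, h • s = v then h.choose • x else v

theorem Abs.r_s {s x : V} (a : K.Abs s x) (h : H) : a.r (h • s) = h • x := by
  have hex : ∃ k : H, k • s = h • s := ⟨h, rfl⟩
  unfold Abs.r
  rw [dif_pos hex]
  have h1 := hex.choose_spec
  have h2 : (h⁻¹ * hex.choose) • s = s := by rw [mul_smul, h1, inv_smul_smul]
  have h3 := a.st _ h2
  rw [mul_smul, inv_smul_eq_iff] at h3
  exact h3

theorem Abs.r_of {s x : V} (a : K.Abs s x) {v : V} (hv : ∀ h : H, h • s ≠ v) : a.r v = v := by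
  unfold Abs.r
  rw [dif_neg]
  rintro ⟨h, e⟩
  exact hv h e

theorem Abs.r_ne {s x : V} (a : K.Abs s x) (v : V) : ∀ h : H, h • s ≠ a.r v := by
  intro h
  by_cases hv : ∃ k : H, k • s = v
  · obtain ⟨k, rfl⟩ := hv
    rw [a.r_s]
    intro e
    apply a.ne (k⁻¹ * h)
    rw [mul_smul, e, inv_smul_smul]
  · push Not at hv
    rw [a.r_of hv]
    exact hv h

theorem Abs.r_smul {s x : V} (a : K.Abs s x) (h : H) (v : V) : a.r (h • v) = h • a.r v := by
  by_cases hv : ∃ k : H, k • s = v
  · obtain ⟨k, rfl⟩ := hv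
    rw [← mul_smul, a.r_s, a.r_s, mul_smul]
  · push Not at hv
    rw [a.r_of hv, a.r_of]
    intro k e
    apply hv (h⁻¹ * k)
    rw [mul_smul, e, inv_smul_smul]

/-- the retraction -/
noncomputable def Abs.f {s x : V} (a : K.Abs s x) (v : V) : AV H s := ⟨a.r v, a.r_ne v⟩

theorem Abs.f_smul {s x : V} (a : K.Abs s x) (h : H) (v : V) : a.f (h • v) = h • a.f v :=
  Subtype.ext (a.r_smul h v)

theorem Abs.f_val {s x : V} (a : K.Abs s x) (c : AV H s) : a.f c.1 = c :=
  Subtype.ext (a.r_of c.2)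

theorem Abs.rk_ne {s x : V} (_ : K.Abs s x) {v : V} (hv : K.rk v < K.rk s) :
    ∀ h : H, h • s ≠ v := by
  intro h e
  rw [← e, K.rk_smul] at hv
  exact lt_irrefl _ hv

theorem Abs.rk_r {s x : V} (a : K.Abs s x) (v : V) : K.rk (a.r v) ≤ K.rk v := by
  by_cases hv : ∃ k : H, k • s = v
  · obtain ⟨k, rfl⟩ := hv
    rw [a.r_s, K.rk_smul, K.rk_smul]
    exact a.rk
  · push Not at hv
    rw [a.r_of hv]

theorem Abs.eq_cases {s x : V} (a : K.Abs s x) (v : V) :
    (∃ k : H, v = k • s ∧ a.r v = k • x) ∨ ((∀ k : H, k • s ≠ v) ∧ a.r v = v) := by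
  by_cases hv : ∃ k : H, k • s = v
  · obtain ⟨k, rfl⟩ := hv
    exact Or.inl ⟨k, rfl, a.r_s k⟩
  · push Not at hv
    exact Or.inr ⟨hv, a.r_of hv⟩

theorem Abs.mg1 {s x : V} (a : K.Abs s x) : Mg K.hg a.f s x := by
  have e : a.f s = a.f x := by
    apply Subtype.ext
    have := a.r_s 1
    rw [one_smul, one_smul] at this
    show a.r s = a.r x
    rw [this, a.r_of a.ne]
  rcases a.nb with h | ⟨z, h1, h2⟩
  · exact Mg.adj _ _ e h
  · exact Mg.nb _ _ z z e (Mg.refl z) h1 h2

theorem Abs.mg_r {s x : V} (a : K.Abs s x) (v : V) : Mg K.hg a.f v (a.r v) := by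
  rcases a.eq_cases v with ⟨k, rfl, e⟩ | ⟨h, e⟩
  · rw [e]
    exact Mg.smul k _ _ a.mg1
  · rw [e]
    exact Mg.refl v

/-- the quotient data of an absorption -/
noncomputable def Abs.qd {s x : V} (a : K.Abs s x) : QD K a.f where
  ar c d := ∃ b, K.ar c.1 b ∧ a.r b = d.1
  rk c := K.rk c.1
  equi := a.f_smul
  surj := fun c => ⟨c.1, a.f_val c⟩
  ar_rk := by
    rintro c d ⟨b, h1, h2⟩
    rw [← h2]
    exact lt_of_le_of_lt (a.rk_r b) (K.ar_rk _ _ h1)
  ar_smul := by
    rintro h c d ⟨b, h1, h2⟩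
    refine ⟨h • b, K.ar_smul h _ _ h1, ?_⟩
    rw [a.r_smul, h2]
    rfl
  rk_smul := fun h c => K.rk_smul h c.1
  two := by
    rintro c d1 d2 d3 ⟨b1, h1, e1⟩ ⟨b2, h2, e2⟩ ⟨b3, h3, e3⟩
    rcases K.two _ _ _ _ h1 h2 h3 with e | e | e
    · left; apply Subtype.ext; rw [← e1, ← e2, e]
    · right; left; apply Subtype.ext; rw [← e2, ← e3, e]
    · right; right; apply Subtype.ext; rw [← e1, ← e3, e]
  e1 := by
    have key : ∀ v b, K.ar v b → a.f v = a.f b ∨
        ((∃ b', K.ar (a.f v).1 b' ∧ a.r b' = (a.f b).1) ∨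
          (∃ b', K.ar (a.f b).1 b' ∧ a.r b' = (a.f v).1)) := by
      intro v b h
      rcases a.eq_cases v with ⟨k, rfl, e⟩ | ⟨hv, e⟩
      · -- an arrow at the absorbed orbit
        have h1 : K.ar s (k⁻¹ • b) := by
          have := K.ar_smul k⁻¹ _ _ h
          rwa [inv_smul_smul] at this
        have hb : a.r b = b := by
          apply a.r_of
          intro l el
          have h2 := K.ar_rk _ _ h
          rw [← el, K.rk_smul, K.rk_smul] at h2
          exact lt_irrefl _ h2
        have hkb : k • k⁻¹ • b = b := smul_inv_smul k b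
        rcases a.edge _ h1 with h2 | h2 | h2
        · left
          apply Subtype.ext
          show a.r (k • s) = a.r b
          rw [e, hb, ← h2, hkb]
        · right; left
          refine ⟨b, ?_, rfl⟩
          show K.ar (a.r (k • s)) b
          rw [e]
          have := K.ar_smul k _ _ h2
          rwa [hkb] at this
        · right; right
          refine ⟨k • x, ?_, ?_⟩
          · show K.ar (a.r b) (k • x)
            rw [hb]
            have := K.ar_smul k _ _ h2
            rwa [hkb] at this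
          · show a.r (k • x) = a.r (k • s)
            rw [e, a.r_smul, a.r_of a.ne]
      · right; left
        refine ⟨b, ?_, rfl⟩
        show K.ar (a.r v) b
        rw [e]
        exact h
    rintro v b (h | h)
    · exact key v b h
    · rcases key b v h with h1 | h1 | h1
      · exact Or.inl h1.symm
      · exact Or.inr (Or.inr h1)
      · exact Or.inr (Or.inl h1)
  e2 := by
    have key : ∀ c d : AV H s, (∃ b, K.ar c.1 b ∧ a.r b = d.1) →
        ∃ x y, K.E x y ∧ a.f x = c ∧ a.f y = d := by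
      rintro c d ⟨b, h1, h2⟩
      exact ⟨c.1, b, Or.inl h1, a.f_val c, Subtype.ext h2⟩
    rintro c d (h | h)
    · exact key c d h
    · obtain ⟨x, y, e, h1, h2⟩ := key d c h
      exact ⟨y, x, e.symm, h2, h1⟩
  mg := by
    intro v w e
    have e' : a.r v = a.r w := congrArg Subtype.val e
    refine Mg.trans _ _ _ (a.mg_r v) ?_
    rw [e']
    exact Mg.symm _ _ (a.mg_r w)
  stab := by
    intro c
    have : stabilizer H c = stabilizer H c.1 := by
      ext h
      rw [mem_stabilizer_iff, mem_stabilizer_iff]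
      exact ⟨fun e => congrArg Subtype.val e, fun e => Subtype.ext e⟩
    rw [this]
    exact K.stab _

/-- the number of orbits drops -/
theorem Abs.oc_lt {s x : V} (a : K.Abs s x) :
    oc H (Set.univ : Set (AV H s)) < oc H (Set.univ : Set V) := by
  refine SAF.oc_lt_of_inj K.fin (fun c : AV H s => c.1) (fun _ _ => trivial) ?_
    (b0 := s) trivial ?_
  · rintro c _ d _ ⟨h, e⟩
    exact ⟨h, Subtype.ext e⟩
  · intro c _ h e
    exact c.2 h⁻¹ (inv_smul_eq_iff.2 e.symm)

theorem Abs.sink_f {s x : V} (a : K.Abs s x) {v : V} (hv : K.Sink v) :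
    (a.f v).1 = v ∧ a.qd.px.Sink (a.f v) := by
  have h1 : a.r v = v := by
    apply a.r_of
    rintro h rfl
    obtain ⟨b, hb⟩ := a.soft
    exact hv _ (K.ar_smul h _ _ hb)
  refine ⟨h1, ?_⟩
  rintro d ⟨b, hb, -⟩
  apply hv b
  have : (a.f v).1 = v := h1
  rwa [this] at hb

theorem Abs.sink_of {s x : V} (a : K.Abs s x) {c : AV H s} (hc : a.qd.px.Sink c) :
    K.Sink c.1 := by
  intro b hb
  exact hc (a.f b) ⟨b, hb, rfl⟩

end PX

end Pool.Agent.BT
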