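import Pool.Agent.BT.PX
import Pool.Agent.BT.FoldList
import Pool.Agent.SAG.AG
import Pool.Agent.SAF.ABase

/-!
# Pentagon complexes: basic facts, the quotient lemma
-/

namespace Pool.Agent.BT

open MulAction
open Pool.Agent.SAF (InC orbs FinOrb oc Decomp SAn SA)

namespace PX

variable {H V : Type} [Group H] [MulAction H V] (K : PX H V)

/-- adjacency -/
def E (x y : V) : Prop := K.ar x y ∨ K.ar y x

theorem E.symm {K : PX H V} {x y : V} (h : K.E x y) : K.E y x := Or.symm h

theorem E_irr (x : V) : ¬ K.E x x := by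
  rintro (h | h)
  · exact absurd (K.ar_rk _ _ h) (lt_irrefl _)
  · exact absurd (K.ar_rk _ _ h) (lt_irrefl _)

theorem E.ne {K : PX H V} {x y : V} (h : K.E x y) : x ≠ y := by
  rintro rfl
  exact K.E_irr _ h

theorem E_smul (h : H) {x y : V} (e : K.E x y) : K.E (h • x) (h • y) :=
  e.imp (K.ar_smul h _ _) (K.ar_smul h _ _)

/-- the graph of the complex -/
def hg : HG H V where
  E := K.E
  symm := fun _ _ h => h.symm
  smul := fun h _ _ e => K.E_smul h e

/-- a sink: no poles -/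
def Sink (v : V) : Prop := ∀ a, ¬ K.ar v a

/-- number of pentagons -/
noncomputable def A : ℕ := Nat.card K.I

end PX

/-! ### Lazy walks -/

section Lazy

variable {V : Type} (E : V → V → Prop) (φ : V → V → ZMod 2)

open Classical in
/-- the cochain on lazy steps -/
noncomputable def lz (x y : V) : ZMod 2 := if x = y then 0 else φ x y

theorem lz_self (x : V) : lz φ x x = 0 := if_pos rfl

theorem lz_ne {x y : V} (h : x ≠ y) : lz φ x y = φ x y := if_neg h

theorem lz_symm (hs : ∀ x y, φ x y = φ y x) (x y : V) : lz φ x y = lz φ y x := by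
  by_cases h : x = y
  · rw [h]
  · rw [lz_ne φ h, lz_ne φ (Ne.symm h), hs]

private theorem dbl (a : ZMod 2) : a + a = 0 := CharTwo.add_self_eq_zero a

variable {E φ}

theorem lz3 (hs : ∀ x y, φ x y = φ y x)
    (h3 : ∀ x y z, E x y → E y z → E z x → φ x y + φ y z + φ z x = 0) {x y z : V}
    (e1 : x = y ∨ E x y) (e2 : y = z ∨ E y z) (e3 : z = x ∨ E z x) :
    lz φ x y + lz φ y z + lz φ z x = 0 := by
  by_cases a1 : x = y
  · subst a1
    rw [lz_self, zero_add, lz_symm φ hs z x]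
    exact dbl _
  by_cases a2 : y = z
  · subst a2
    rw [lz_self, add_zero, lz_symm φ hs y x]
    exact dbl _
  by_cases a3 : z = x
  · subst a3
    rw [lz_self, add_zero, lz_symm φ hs y z]
    exact dbl _
  rw [lz_ne φ a1, lz_ne φ a2, lz_ne φ a3]
  exact h3 _ _ _ (e1.resolve_left a1) (e2.resolve_left a2) (e3.resolve_left a3)

theorem lz4 (hs : ∀ x y, φ x y = φ y x)
    (h3 : ∀ x y z, E x y → E y z → E z x → φ x y + φ y z + φ z x = 0)
    (h4 : ∀ x y z w, E x y → E y z → E z w → E w x → φ x y + φ y z + φ z w + φ w x = 0)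
    {x y z w : V}
    (e1 : x = y ∨ E x y) (e2 : y = z ∨ E y z) (e3 : z = w ∨ E z w) (e4 : w = x ∨ E w x) :
    lz φ x y + lz φ y z + lz φ z w + lz φ w x = 0 := by
  by_cases a1 : x = y
  · subst a1
    rw [lz_self, zero_add]
    exact lz3 hs h3 e2 e3 e4
  by_cases a2 : y = z
  · subst a2
    rw [lz_self, add_zero]
    exact lz3 hs h3 e1 e3 e4
  by_cases a3 : z = w
  · subst a3
    rw [lz_self, add_zero]
    exact lz3 hs h3 e1 e2 e4
  by_cases a4 : w = x
  · subst a4
    rw [lz_self, add_zero]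
    exact lz3 hs h3 e1 e2 e3
  rw [lz_ne φ a1, lz_ne φ a2, lz_ne φ a3, lz_ne φ a4]
  exact h4 _ _ _ _ (e1.resolve_left a1) (e2.resolve_left a2) (e3.resolve_left a3)
    (e4.resolve_left a4)

/-- a lazy closed walk of length five which is constant at one step -/
theorem lz5 (hs : ∀ x y, φ x y = φ y x)
    (h3 : ∀ x y z, E x y → E y z → E z x → φ x y + φ y z + φ z x = 0)
    (h4 : ∀ x y z w, E x y → E y z → E z w → E w x → φ x y + φ y z + φ z w + φ w x = 0)
    (v : Fin 5 → V) (hv : ∀ j, v j = v (j + 1) ∨ E (v j) (v (j + 1)))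
    (hl : ∃ j, v j = v (j + 1)) : ∑ j : Fin 5, lz φ (v j) (v (j + 1)) = 0 := by
  have e0 : v 0 = v 1 ∨ E (v 0) (v 1) := hv 0
  have e1 : v 1 = v 2 ∨ E (v 1) (v 2) := hv 1
  have e2 : v 2 = v 3 ∨ E (v 2) (v 3) := hv 2
  have e3 : v 3 = v 4 ∨ E (v 3) (v 4) := hv 3
  have e4 : v 4 = v 0 ∨ E (v 4) (v 0) := hv 4
  rw [Fin.sum_univ_five]
  show lz φ (v 0) (v 1) + lz φ (v 1) (v 2) + lz φ (v 2) (v 3) + lz φ (v 3) (v 4) +
    lz φ (v 4) (v 0) = 0
  obtain ⟨j, hj⟩ := hl
  fin_cases j
  · have hj : v 0 = v 1 := hj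
    rw [hj, lz_self, zero_add]
    rw [hj] at e4
    exact lz4 hs h3 h4 e1 e2 e3 e4
  · have hj : v 1 = v 2 := hj
    rw [hj, lz_self, add_zero]
    rw [hj] at e0
    exact lz4 hs h3 h4 e0 e2 e3 e4
  · have hj : v 2 = v 3 := hj
    rw [hj, lz_self, add_zero]
    rw [hj] at e1
    exact lz4 hs h3 h4 e0 e1 e3 e4
  · have hj : v 3 = v 4 := hj
    rw [hj, lz_self, add_zero]
    rw [hj] at e2
    exact lz4 hs h3 h4 e0 e1 e2 e4
  · have hj : v 4 = v 0 := hj
    rw [hj, lz_self, add_zero]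
    rw [hj] at e3
    exact lz4 hs h3 h4 e0 e1 e2 e3

end Lazy

/-! ### The quotient lemma -/

section Quot

variable {H V V' : Type} [Group H] [MulAction H V] [MulAction H V']

/-- the data for a quotient complex -/
structure QD (K : PX H V) (f : V → V') where
  ar : V' → V' → Prop
  rk : V' → ℕ
  equi : ∀ (h : H) (x : V), f (h • x) = h • f x
  surj : Function.Surjective f
  ar_rk : ∀ v a, ar v a → rk a < rk v
  ar_smul : ∀ (h : H) (v a : V'), ar v a → ar (h • v) (h • a)
  rk_smul : ∀ (h : H) (v : V'), rk (h • v) = rk v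
  two : ∀ v a b c, ar v a → ar v b → ar v c → a = b ∨ b = c ∨ a = c
  e1 : ∀ x y, K.E x y → f x = f y ∨ (ar (f x) (f y) ∨ ar (f y) (f x))
  e2 : ∀ c d, (ar c d ∨ ar d c) → ∃ x y, K.E x y ∧ f x = c ∧ f y = d
  mg : ∀ x y, f x = f y → Mg K.hg f x y
  stab : ∀ v : V', InC ↥(stabilizer H v)

/-- a function whose coboundary is the lift of a cochain is constant on classes -/
theorem mg_const {K : PX H V} {f : V → V'} {φ : V' → V' → ZMod 2} {g : V → ZMod 2}
    (hf : ∀ (h : H) (x : V), f (h • x) = h • f x)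
    (hg : ∀ x y, K.E x y → lz φ (f x) (f y) = g x + g y) {x y : V} (m : Mg K.hg f x y) :
    ∀ h : H, g (h • x) = g (h • y) ∧ f (h • x) = f (h • y) := by
  have hz : ∀ a b : ZMod 2, a + b = 0 → a = b := by decide
  have hz2 : ∀ a b c d t : ZMod 2, a = b → t = a + c → t = b + d → c = d := by decide
  induction m with
  | refl x => exact fun h => ⟨rfl, rfl⟩
  | symm x y _ ih => exact fun h => ⟨(ih h).1.symm, (ih h).2.symm⟩
  | trans x y z _ _ ih1 ih2 => exact fun h => ⟨(ih1 h).1.trans (ih2 h).1, (ih1 h).2.trans (ih2 h).2⟩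
  | smul k x y _ ih =>
    intro h
    rw [← mul_smul, ← mul_smul]
    exact ih _
  | adj x y e a =>
    intro h
    have e1 : f (h • x) = f (h • y) := by rw [hf, hf, e]
    refine ⟨hz _ _ ?_, e1⟩
    rw [← hg _ _ (K.E_smul h a), e1, lz_self]
  | nb x y z z' e _ a b ih =>
    intro h
    have e1 : f (h • x) = f (h • y) := by rw [hf, hf, e]
    refine ⟨?_, e1⟩
    refine hz2 (g (h • z)) (g (h • z')) _ _ (lz φ (f (h • z)) (f (h • x))) (ih h).1
      (hg _ _ (K.E_smul h a)) ?_
    rw [(ih h).2, e1]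
    exact hg _ _ (K.E_smul h b)

/-- the quotient complex -/
noncomputable def QD.px {K : PX H V} {f : V → V'} (Q : QD K f) : PX H V' where
  ar := Q.ar
  rk := Q.rk
  I := {i : K.I // ∀ j, f (K.pt i j) ≠ f (K.pt i (j + 1))}
  finI := by
    have := K.finI
    infer_instance
  pt := fun i j => f (K.pt i.1 j)
  ar_rk := Q.ar_rk
  ar_smul := Q.ar_smul
  rk_smul := Q.rk_smul
  two := Q.two
  pt_E := fun i j => (Q.e1 _ _ (K.pt_E i.1 j)).resolve_left (i.2 j)
  ne := K.ne.map f
  conn := by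
    intro c d
    obtain ⟨x, rfl⟩ := Q.surj c
    obtain ⟨y, rfl⟩ := Q.surj d
    have := K.conn x y
    induction this with
    | refl => exact Relation.ReflTransGen.refl
    | tail _ e ih =>
      rcases Q.e1 _ _ e with h | h
      · rw [← h]; exact ih
      · exact ih.tail h
  H1 := by
    intro φ hs h4 h3 hp
    obtain ⟨g, hg⟩ := K.H1 (fun x y => lz φ (f x) (f y)) (fun x y => lz_symm φ hs _ _)
      (fun x y z w e1 e2 e3 e4 => lz4 (E := fun a b => Q.ar a b ∨ Q.ar b a) hs h3
        h4 (Q.e1 _ _ e1) (Q.e1 _ _ e2) (Q.e1 _ _ e3) (Q.e1 _ _ e4))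
      (fun x y z e1 e2 e3 => lz3 (E := fun a b => Q.ar a b ∨ Q.ar b a) hs h3
        (Q.e1 _ _ e1) (Q.e1 _ _ e2) (Q.e1 _ _ e3))
      (fun i h => by
        by_cases hi : ∀ j, f (K.pt i j) ≠ f (K.pt i (j + 1))
        · have := hp ⟨i, hi⟩ h
          rw [← this]
          apply Finset.sum_congr rfl
          intro j _
          rw [Q.equi, Q.equi]
          apply lz_ne
          intro e
          exact hi j (smul_left_cancel h e)
        · push Not at hi
          obtain ⟨j, hj⟩ := hi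
          apply lz5 (E := fun a b => Q.ar a b ∨ Q.ar b a) hs h3 h4 (fun j => f (h • K.pt i j))
          · intro j
            exact Q.e1 _ _ (K.E_smul h (K.pt_E i j))
          · exact ⟨j, by rw [Q.equi, Q.equi, hj]⟩)
    have hc : ∀ x y, f x = f y → g x = g y := by
      intro x y e
      have := (mg_const Q.equi (fun x y e => hg x y e) (Q.mg x y e) 1).1
      rwa [one_smul, one_smul] at this
    choose r hr using Q.surj
    refine ⟨fun c => g (r c), ?_⟩
    intro c d e
    obtain ⟨x, y, exy, rfl, rfl⟩ := Q.e2 c d e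
    have h1 := hg x y exy
    have h2 : f x ≠ f y := by
      intro h
      rw [h] at e
      rcases e with e | e
      · exact absurd (Q.ar_rk _ _ e) (lt_irrefl _)
      · exact absurd (Q.ar_rk _ _ e) (lt_irrefl _)
    simp only [lz_ne φ h2] at h1
    show φ (f x) (f y) = g (r (f x)) + g (r (f y))
    rw [h1, hc (r (f x)) x (hr _), hc (r (f y)) y (hr _)]
  fin := by
    apply SAF.FinOrb.image K.fin f
    · intro b _
      obtain ⟨x, rfl⟩ := Q.surj b
      exact ⟨x, trivial, 1, one_smul _ _⟩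
    · rintro a _ _ _ ⟨h, rfl⟩
      exact ⟨h, (Q.equi h a).symm⟩
  stab := Q.stab

theorem QD.card_le {K : PX H V} {f : V → V'} (Q : QD K f) : Q.px.A ≤ K.A := by
  have := K.finI
  exact Nat.card_le_card_of_injective (fun i : Q.px.I => i.1) Subtype.val_injective

end Quot

end Pool.Agent.BT
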