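import Pool.Agent.BT.PNeut
import Pool.Agent.BT.PPot

/-!
# Pentagon complexes: reductions which change neither `A` nor `-χ` do not lower the potentials
-/

namespace Pool.Agent.BT

open MulAction
open Pool.Agent.SAF (InC orbs FinOrb oc Decomp SAn SA)

section MassLight

variable {H X : Type} [Group H] [MulAction H X]

theorem mass_zero {s : Set X} (hs : FinOrb H s) (h : ∀ x ∈ s, ¬ Finite ↥(stabilizer H x)) :
    mass H s = 0 := by
  rw [mass_eq_sum hs]
  apply Finset.sum_eq_zero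
  intro q hq
  obtain ⟨x, hx, rfl⟩ := (Set.Finite.mem_toFinset _).1 hq
  change wq H (Quotient.out (Quotient.mk'' x)) = 0
  rw [wq_out]
  exact iw_eq_zero.2 (h x hx)

theorem finite_stab_smul {x : X} (g : H) (h : Finite ↥(stabilizer H x)) :
    Finite ↥(stabilizer H (g • x)) := by
  rw [stabilizer_smul_eq_stabilizer_map_conj]
  exact Finite.of_equiv _ (Subgroup.equivMapOfInjective _ _ (MulAut.conj g).injective).toEquiv

theorem mass_light {s : Set X} (hs : FinOrb H s) (hsm : ∀ (h : H) (x : X), x ∈ s → h • x ∈ s) :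
    mass H s = mass H {x | x ∈ s ∧ Finite ↥(stabilizer H x)} := by
  have h1 := mass_diff hs (t := {x | x ∈ s ∧ Finite ↥(stabilizer H x)}) (fun x h => h.1)
    (fun h x hx => ⟨hsm h x hx.1, finite_stab_smul h hx.2⟩)
  have h2 : mass H (s \ {x | x ∈ s ∧ Finite ↥(stabilizer H x)}) = 0 := by
    apply mass_zero (SAF.FinOrb.mono Set.sdiff_subset hs)
    rintro x ⟨hx, hn⟩ hf
    exact hn ⟨hx, hf⟩
  rw [h1, h2, add_zero]

end MassLight

section

variable {H V V' : Type} [Group H] [MulAction H V] [MulAction H V']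

open PX

theorem Red.card_lt {K : PX H V} {K' : PX H V'} {f : V → V'} (r : Red K K' f) {i : K.I}
    {j : Fin 5} (h : f (K.pt i j) = f (K.pt i (j + 1))) : K'.A < K.A := by
  obtain ⟨ι, h1, h2, h3⟩ := r.pent
  have := K.finI
  have := K'.finI
  refine lt_of_le_of_ne (Nat.card_le_card_of_injective ι h1) (fun e => ?_)
  have hb := h1.bijective_of_nat_card_le e.ge
  obtain ⟨i', rfl⟩ := hb.2 i
  have h4 := K'.pt_E i' j
  rw [h2, h2, h] at h4
  exact K'.E_irr _ h4

/-- `A` is minimal for the group -/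
def PX.AMin (K : PX H V) : Prop := ∀ (V' : Type) [MulAction H V'] (K' : PX H V'), K.A ≤ K'.A

theorem PX.no_abs_pent {K : PX H V} (hmin : K.AMin) {s x : V} (a : K.Abs s x) :
    ¬ K.InP s x := by
  rintro ⟨g, i, j, h⟩
  have h1 : a.f s = a.f x := by
    apply Subtype.ext
    have h2 := a.r_s 1
    rw [one_smul, one_smul] at h2
    have h3 : a.r x = x := a.r_of (fun h e => a.ne h e)
    exact h2.trans h3.symm
  have h4 : a.f (K.pt i j) = a.f (K.pt i (j + 1)) := by
    have h5 : g • a.f (K.pt i j) = g • a.f (K.pt i (j + 1)) := by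
      rw [← a.f_smul, ← a.f_smul]
      rcases h with ⟨rfl, rfl⟩ | ⟨rfl, rfl⟩
      · exact h1
      · exact h1.symm
    exact smul_left_cancel g h5
  exact absurd (a.red.card_lt h4) (not_lt.2 (hmin _ _))

/-- if `A` is minimal then hairs are not in pentagons -/
theorem PX.no_hair_pent {K : PX H V} (hmin : K.AMin) {u t : V} (h : K.ar u t)
    (h' : ∀ b, K.ar u b → b = t) : ¬ K.InP u t := K.no_abs_pent hmin (abs_hair h h')

theorem PX.soft_of_pent {K : PX H V} (hmin : K.AMin) {u t : V} (h : K.ar u t)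
    (hp : K.InP u t) : ∃ b, K.Pol u t b := by
  by_contra hcon
  push Not at hcon
  apply K.no_hair_pent hmin h ?_ hp
  intro b hb
  by_contra hne
  exact hcon b ⟨h, hb, Ne.symm hne⟩

/-- a light arrow has a light source -/
theorem PX.Pol.finite_st {K : PX H V} {u a b : V} (p : K.Pol u a b)
    (h : Finite ↥(stabilizer H (u, a))) : Finite ↥(stabilizer H u) := by
  have h1 : (orbit ↥(stabilizer H u) a).Finite := by
    apply (Set.toFinite ({a, b} : Set V)).subset
    rintro _ ⟨k, rfl⟩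
    have h2 := K.ar_smul k.1 _ _ p.pa
    have h3 : k.1 • u = u := k.2
    rw [h3] at h2
    rcases p.only h2 with e | e
    · exact Or.inl e
    · exact Or.inr e
  have h4 : Finite ↥(orbit ↥(stabilizer H u) a) := h1
  have h5 : Finite ↥(stabilizer ↥(stabilizer H u) a) := by
    apply Finite.of_injective (β := ↥(stabilizer H (u, a)))
      (fun k => ⟨k.1.1, Prod.ext k.1.2 k.2⟩)
    intro k k' e
    exact Subtype.ext (Subtype.ext (congrArg (fun z => z.1) e))
  exact Finite.of_equiv _ (orbitProdStabilizerEquivGroup ↥(stabilizer H u) a)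

/-- the potentials do not go down under reductions which change neither `A` nor `-χ` -/
theorem Red.pot_le {K : PX H V} {K' : PX H V'} {f : V → V'} (r : Red K K' f)
    (hmin : K.AMin) (hb : K.hg.bb ≤ K'.hg.bb) : K.Ew ≤ K'.Ew ∧ K.Ns ≤ K'.Ns := by
  have hu := r.bb.2 hb
  have hA : K.A ≤ K'.A := hmin _ _
  obtain ⟨ι, h1, h2, h3⟩ := r.pent
  have := K.finI
  have := K'.finI
  have hι := (h1.bijective_of_nat_card_le hA).2
  have hinp : ∀ x y, K.InP x y → K'.InP (f x) (f y) := by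
    rintro x y ⟨g, i, j, h⟩
    obtain ⟨i', rfl⟩ := hι i
    refine ⟨g, i', j, ?_⟩
    rw [h2, h2, ← r.equi, ← r.equi]
    rcases h with ⟨rfl, rfl⟩ | ⟨rfl, rfl⟩
    · exact Or.inl ⟨rfl, rfl⟩
    · exact Or.inr ⟨rfl, rfl⟩
  have hvp : ∀ x, K.VP x → K'.VP (f x) := by
    intro x hx
    obtain ⟨y, hy⟩ := hx.inp
    exact (hinp x y hy).vp
  constructor
  · have hfP : FinOrb H K.PA := SAF.FinOrb.mono (fun p h => h.1) K.finAR
    have hfP' : FinOrb H K'.PA := SAF.FinOrb.mono (fun p h => h.1) K'.finAR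
    unfold PX.Ew
    rw [mass_light hfP K.PA_smul]
    set L : Set (V × V) := {x | x ∈ K.PA ∧ Finite ↥(stabilizer H x)} with hL
    have hLfin : FinOrb H L := SAF.FinOrb.mono (fun x h => h.1) hfP
    have hLsm : ∀ (h : H) (x : V × V), x ∈ L → h • x ∈ L :=
      fun h x hx => ⟨K.PA_smul h x hx.1, finite_stab_smul h hx.2⟩
    have hprop : ∀ p ∈ L, p.1 ∈ K.O2 ∧ Finite ↥(stabilizer H p.1) := by
      rintro ⟨x, y⟩ ⟨⟨ha, hp⟩, hf⟩
      obtain ⟨b, q⟩ := K.soft_of_pent hmin ha hp
      exact ⟨⟨y, b, q⟩, q.finite_st hf⟩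
    have hF : ∀ (h : H) (p : V × V), (fun p : V × V => (f p.1, f p.2)) (h • p) =
        h • (fun p : V × V => (f p.1, f p.2)) p := by
      intro h p
      exact Prod.ext (r.equi h p.1) (r.equi h p.2)
    rw [← mass_image_inj (F := fun p : V × V => (f p.1, f p.2)) hF hLfin hLsm]
    · apply mass_mono hfP'
      · rintro _ ⟨⟨x, y⟩, hp, rfl⟩
        obtain ⟨q1, q2⟩ := hprop _ hp
        obtain ⟨_, _, _, u4⟩ := hu x q1 q2
        exact ⟨(u4 _).2 ⟨y, hp.1.1, rfl⟩, hinp _ _ hp.1.2⟩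
      · rintro h _ ⟨p, hp, rfl⟩
        exact ⟨h • p, hLsm h p hp, hF h p⟩
    · rintro ⟨x, y⟩ hp ⟨x', y'⟩ hp' e
      have e1 : f x = f x' := congrArg Prod.fst e
      have e2 : f y = f y' := congrArg Prod.snd e
      obtain ⟨q1, q2⟩ := hprop _ hp
      obtain ⟨q1', q2'⟩ := hprop _ hp'
      obtain ⟨u1, u2, u3, u4⟩ := hu x q1 q2
      obtain ⟨v1, -, -, -⟩ := hu x' q1' q2'
      have ex : x' = x := u3 x' q1' v1 e1.symm
      subst ex
      have hy : K.ar x' y := hp.1.1
      have hy' : K.ar x' y' := hp'.1.1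
      by_cases hne : y = y'
      · rw [hne]
      · exfalso
        have pp : K.Pol x' y y' := ⟨hy, hy', hne⟩
        obtain ⟨a, b, q⟩ := u1
        obtain ⟨a', ha', ea⟩ := (u4 a).1 q.pa
        obtain ⟨b', hb', eb⟩ := (u4 b).1 q.pb
        apply q.ne
        rw [← ea, ← eb]
        rcases pp.only ha' with rfl | rfl <;> rcases pp.only hb' with rfl | rfl <;>
          first | rfl | exact e2 | exact e2.symm
  · unfold PX.Ns
    apply SAF.oc_le_of_inj K'.PS_fin f
    · rintro v ⟨hv, hv'⟩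
      exact ⟨r.sink v hv, hvp v hv'⟩
    · rintro v ⟨hv, hv'⟩ w ⟨hw, hw'⟩ ⟨h, e⟩
      refine ⟨h, ?_⟩
      rw [← r.equi] at e
      exact r.sinj _ _ (K.SK_smul h v hv) hw e

end

end Pool.Agent.BT
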