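import Pool.Agent.BT.PCrit
import Pool.Agent.BT.PNeut2

/-!
# Pentagon complexes: the block lemma, part 1 (classes of edges, a bad class)
-/

namespace Pool.Agent.BT

open MulAction
open Pool.Agent.SAF (InC orbs FinOrb oc Decomp SAn SA FinOrb_iff exists_bad_of_rel)

namespace PX

variable {H V : Type} [Group H] [MulAction H V] {K : PX H V}

theorem Cor.symm {x y z : V} (h : K.Cor x y z) : K.Cor z y x := by
  obtain ⟨g, i, j, h⟩ := h
  exact ⟨g, i, j, h.symm⟩

theorem Cor.smul (g : H) {x y z : V} (h : K.Cor x y z) : K.Cor (g • x) (g • y) (g • z) := by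
  obtain ⟨a, i, j, h⟩ := h
  refine ⟨g * a, i, j, ?_⟩
  rcases h with ⟨rfl, rfl, rfl⟩ | ⟨rfl, rfl, rfl⟩
  · left; simp only [mul_smul, and_self]
  · right; simp only [mul_smul, and_self]

theorem Cor.inp {x y z : V} (h : K.Cor x y z) : K.InP x y := by
  obtain ⟨g, i, j, h⟩ := h
  rcases h with ⟨rfl, rfl, rfl⟩ | ⟨rfl, rfl, rfl⟩
  · exact ⟨g, i, j, Or.inl ⟨rfl, rfl⟩⟩
  · refine ⟨g, i, j + 1, Or.inr ⟨rfl, ?_⟩⟩
    rw [add_assoc]; rfl

theorem Cor.E1 {x y z : V} (h : K.Cor x y z) : K.E x y := h.inp.E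

theorem Cor.E2 {x y z : V} (h : K.Cor x y z) : K.E y z := h.symm.E1.symm

theorem InP.cor {x y : V} (h : K.InP x y) : ∃ z, K.Cor x y z := by
  obtain ⟨g, i, j, ⟨rfl, rfl⟩ | ⟨rfl, rfl⟩⟩ := h
  · exact ⟨g • K.pt i (j + 2), g, i, j, Or.inl ⟨rfl, rfl, rfl⟩⟩
  · refine ⟨g • K.pt i (j - 1), g, i, j - 1, Or.inr ⟨rfl, ?_, ?_⟩⟩
    · rw [sub_add_cancel]
    · congr 2
      rw [sub_add_eq_add_sub]
      rw [add_sub_assoc]; rfl

/-- the rest of a pentagon -/
theorem Cor.rest {x y z : V} (h : K.Cor x y z) : ∃ u w, K.Cor y z u ∧ K.Cor z u w ∧ K.Cor u w x ∧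
    K.Cor w x y := by
  obtain ⟨g, i, j, ⟨rfl, rfl, rfl⟩ | ⟨rfl, rfl, rfl⟩⟩ := h
  · refine ⟨g • K.pt i (j + 3), g • K.pt i (j + 4), ⟨g, i, j + 1, Or.inl ⟨rfl, ?_, ?_⟩⟩,
      ⟨g, i, j + 2, Or.inl ⟨rfl, ?_, ?_⟩⟩, ⟨g, i, j + 3, Or.inl ⟨rfl, ?_, ?_⟩⟩,
      ⟨g, i, j + 4, Or.inl ⟨rfl, ?_, ?_⟩⟩⟩ <;>
      (congr 2; rw [add_assoc]; first | rfl | exact (add_zero j).symm)
  · refine ⟨g • K.pt i (j + 4), g • K.pt i (j + 3), ⟨g, i, j + 4, Or.inr ⟨rfl, ?_, ?_⟩⟩,
      ⟨g, i, j + 3, Or.inr ⟨rfl, ?_, ?_⟩⟩, ⟨g, i, j + 2, Or.inr ⟨rfl, ?_, ?_⟩⟩,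
      ⟨g, i, j + 1, Or.inr ⟨rfl, ?_, ?_⟩⟩⟩ <;>
      (congr 2; rw [add_assoc]; first | rfl | exact (add_zero j).symm)

theorem Clean.ne2 (hc : K.Clean) {x y z u w : V} (h1 : K.E x y) (h2 : K.E y z) (h3 : K.E z u)
    (h4 : K.E u w) (h5 : K.E w x) : x ≠ z ∧ x ≠ u := by
  constructor
  · rintro rfl
    exact hc.c3 x u w h3 h4 h5
  · rintro rfl
    exact hc.c3 x y z h1 h2 h3

/-- cut functions at a vertex -/
theorem Clean.cut (hc : K.Clean) (x : V) (Z : V → Prop)
    (hZ : ∀ a b, K.Cor a x b → (Z a ↔ Z b)) :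
    ∃ h : V → ZMod 2, (∀ a b, K.E a b → a ≠ x → b ≠ x → h a = h b) ∧
      (∀ b, K.E x b → Z b → h x + h b = 1) ∧ (∀ b, K.E x b → ¬ Z b → h x = h b) := by
  classical
  have dbl : ∀ a : ZMod 2, a + a = 0 := CharTwo.add_self_eq_zero
  let φ : V → V → ZMod 2 := fun a b => if (a = x ∧ Z b) ∨ (b = x ∧ Z a) then 1 else 0
  have hs : ∀ a b, φ a b = φ b a := by
    intro a b
    have : ((a = x ∧ Z b) ∨ (b = x ∧ Z a)) ↔ ((b = x ∧ Z a) ∨ (a = x ∧ Z b)) := Or.comm
    simp only [φ, this]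
  obtain ⟨h, hh⟩ := K.H1 φ hs
    (by
      intro a b c d h1 h2 h3 h4
      rcases hc.c4 a b c d h1 h2 h3 h4 with rfl | rfl
      · rw [hs b a, hs d a, dbl, zero_add, dbl]
      · rw [hs c b, hs b a, add_assoc, add_assoc, add_comm, add_assoc, add_assoc, dbl, add_zero,
          dbl])
    (fun a b c h1 h2 h3 => (hc.c3 a b c h1 h2 h3).elim)
    (by
      intro i g
      set v : Fin 5 → V := fun j => g • K.pt i j with hv
      let α : Fin 5 → ZMod 2 := fun j => if v j = x ∧ Z (v (j + 1)) then 1 else 0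
      let β : Fin 5 → ZMod 2 := fun j => if v j = x ∧ Z (v (j - 1)) then 1 else 0
      have h1 : ∀ j, φ (g • K.pt i j) (g • K.pt i (j + 1)) = α j + β (j + 1) := by
        intro j
        have hne : v j ≠ v (j + 1) := (K.E_smul g (K.pt_E i j)).ne
        have e1 : φ (g • K.pt i j) (g • K.pt i (j + 1)) =
          if (v j = x ∧ Z (v (j + 1))) ∨ (v (j + 1) = x ∧ Z (v j)) then 1 else 0 := rfl
        have e2 : β (j + 1) = if v (j + 1) = x ∧ Z (v j) then 1 else 0 := by
          show (if v (j + 1) = x ∧ Z (v (j + 1 - 1)) then 1 else 0) = _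
          rw [add_sub_cancel_right]
        rw [e1, e2]
        show _ = (if v j = x ∧ Z (v (j + 1)) then 1 else 0) + _
        by_cases c1 : v j = x ∧ Z (v (j + 1))
        · have c2 : ¬ (v (j + 1) = x ∧ Z (v j)) := fun c => hne (c1.1.trans c.1.symm)
          rw [if_pos (Or.inl c1), if_pos c1, if_neg c2, add_zero]
        · by_cases c2 : v (j + 1) = x ∧ Z (v j)
          · rw [if_pos (Or.inr c2), if_neg c1, if_pos c2, zero_add]
          · rw [if_neg (by rintro (c | c); exacts [c1 c, c2 c]), if_neg c1, if_neg c2, add_zero]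
      rw [Finset.sum_congr rfl (fun j _ => h1 j), Finset.sum_add_distrib]
      have h2 : ∑ j : Fin 5, β (j + 1) = ∑ j : Fin 5, β j :=
        Equiv.sum_comp (Equiv.addRight (1 : Fin 5)) β
      rw [h2, ← Finset.sum_add_distrib]
      apply Finset.sum_eq_zero
      intro j _
      show (if v j = x ∧ Z (v (j + 1)) then (1 : ZMod 2) else 0) +
        (if v j = x ∧ Z (v (j - 1)) then 1 else 0) = 0
      by_cases c : v j = x
      · have hcor : K.Cor (v (j - 1)) x (v (j + 1)) := by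
          refine ⟨g, i, j - 1, Or.inl ⟨rfl, ?_, ?_⟩⟩
          · rw [sub_add_cancel]; exact c.symm
          · show g • K.pt i (j + 1) = _
            congr 2
            rw [sub_add_eq_add_sub]
            rw [add_sub_assoc]; rfl
        have := hZ _ _ hcor
        simp only [c, true_and, this]
        exact dbl _
      · simp only [c, false_and, if_false, add_zero])
  refine ⟨h, ?_, ?_, ?_⟩
  · intro a b e h1 h2
    have := hh a b e
    have h3 : φ a b = 0 := if_neg (by rintro (⟨c, -⟩ | ⟨c, -⟩); exacts [h1 c, h2 c])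
    rw [h3] at this
    exact CharTwo.add_eq_zero.1 this.symm
  · intro b e hz
    rw [← hh x b e]
    exact if_pos (Or.inl ⟨rfl, hz⟩)
  · intro b e hz
    have := hh x b e
    have hne := e.ne
    have h3 : φ x b = 0 := if_neg (by rintro (⟨-, c⟩ | ⟨c, -⟩); exacts [hz c, hne c.symm])
    rw [h3] at this
    exact CharTwo.add_eq_zero.1 this.symm

end PX

namespace PB

variable {H V : Type} [Group H] [MulAction H V] (K : PX H V)

/-- generating relation on ordered edges -/
def gr (p q : V × V) : Prop :=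
  (K.E p.1 p.2 ∧ q = (p.2, p.1)) ∨ (∃ z, K.Cor p.1 p.2 z ∧ q = (p.2, z))

/-- pentagon equivalence of ordered edges -/
def cs : Setoid (V × V) := Relation.EqvGen.setoid (gr K)

/-- classes of ordered edges -/
def C : Type := Quotient (cs K)

/-- the class of an ordered edge -/
def mk (x y : V) : C K := Quotient.mk (cs K) (x, y)

theorem gr_smul (h : H) (p q : V × V) (e : gr K p q) : gr K (h • p) (h • q) := by
  rcases e with ⟨e, rfl⟩ | ⟨z, e, rfl⟩
  · exact Or.inl ⟨K.E_smul h e, rfl⟩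
  · exact Or.inr ⟨h • z, e.smul h, rfl⟩

theorem cs_smul (h : H) (p q : V × V) (e : cs K p q) : cs K (h • p) (h • q) := by
  induction e with
  | rel x y hxy => exact Relation.EqvGen.rel _ _ (gr_smul K h x y hxy)
  | refl x => exact Relation.EqvGen.refl _
  | symm x y _ ih => exact Relation.EqvGen.symm _ _ ih
  | trans x y z _ _ ih1 ih2 => exact Relation.EqvGen.trans _ _ _ ih1 ih2

instance actC : MulAction H (C K) where
  smul h := Quotient.map (fun p => h • p) (fun p q e => cs_smul K h p q e)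
  one_smul l := by
    induction l using Quotient.inductionOn with
    | h p => exact congrArg (Quotient.mk (cs K)) (one_smul H p)
  mul_smul a b l := by
    induction l using Quotient.inductionOn with
    | h p => exact congrArg (Quotient.mk (cs K)) (mul_smul a b p)

theorem mk_smul (h : H) (x y : V) : h • mk K x y = mk K (h • x) (h • y) := rfl

variable {K}

theorem mk_symm {x y : V} (e : K.E x y) : mk K x y = mk K y x :=
  Quotient.sound (Relation.EqvGen.rel _ _ (Or.inl ⟨e, rfl⟩))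

theorem mk_cor {x y z : V} (e : K.Cor x y z) : mk K x y = mk K y z :=
  Quotient.sound (Relation.EqvGen.rel _ _ (Or.inr ⟨z, e, rfl⟩))

open Classical in
/-- the value of a function at the end of an edge different from `x` -/
noncomputable def F (x : V) (h : V → ZMod 2) (p : V × V) : ZMod 2 :=
  if p.1 = x then h p.2 else h p.1

theorem F_gr (hc : K.Clean) (x : V) (h : V → ZMod 2) (c : C K)
    (hh : ∀ a b, K.E a b → a ≠ x → b ≠ x → mk K a b = c → h a = h b) (p q : V × V)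
    (e : gr K p q) (hp : Quotient.mk (cs K) p = c) : F x h p = F x h q := by
  obtain ⟨a, b⟩ := p
  rcases e with ⟨e, rfl⟩ | ⟨z, e, rfl⟩
  · simp only [F]
    by_cases h1 : a = x
    · have h2 : b ≠ x := by rintro rfl; exact e.ne h1
      simp [h1, h2]
    · by_cases h2 : b = x
      · simp [h1, h2]
      · simp [h1, h2, hh a b e h1 h2 hp]
  · have e1 : K.E a b := e.E1
    have e2 : K.E b z := e.E2
    simp only [F]
    by_cases h1 : a = x
    · have h2 : b ≠ x := by rintro rfl; exact e1.ne h1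
      simp [h1, h2]
    · by_cases h2 : b = x
      · subst h2
        have h3 : z ≠ b := e2.ne.symm
        obtain ⟨u, w, c1, c2, c3, c4⟩ := e.rest
        have hn := hc.ne2 e2 c2.E1 c3.E1 c4.E1 e1
        have m1 : mk K b z = c := by rw [← mk_cor e]; exact hp
        have m2 : mk K z u = c := by rw [← mk_cor c1]; exact m1
        have m3 : mk K u w = c := by rw [← mk_cor c2]; exact m2
        have m4 : mk K w a = c := by rw [← mk_cor c3]; exact m3
        have q1 : h z = h u := hh z u c2.E1 h3 hn.1.symm m2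
        have q2 : h u = h w := hh u w c3.E1 hn.1.symm hn.2.symm m3
        have q3 : h w = h a := hh w a c4.E1 hn.2.symm h1 m4
        simp only [h1, if_false, if_true]
        rw [q1, q2, q3]
      · simp [h1, h2, hh a b e1 h1 h2 hp]

theorem F_const (hc : K.Clean) (x : V) (h : V → ZMod 2) (c : C K)
    (hh : ∀ a b, K.E a b → a ≠ x → b ≠ x → mk K a b = c → h a = h b) (p q : V × V)
    (e : cs K p q) (hp : Quotient.mk (cs K) p = c) : F x h p = F x h q := by
  induction e with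
  | rel p q hpq => exact F_gr hc x h c hh p q hpq hp
  | refl p => rfl
  | symm p q hpq ih => exact (ih (by rw [← hp]; exact Quotient.sound hpq)).symm
  | trans p q s h1 h2 ih1 ih2 =>
    rw [ih1 hp]
    exact ih2 (by rw [← hp]; exact (Quotient.sound h1).symm)

/-- links in blocks are connected -/
theorem link (hc : K.Clean) {x y y' : V} (h1 : K.E x y) (h2 : K.E x y')
    (hm : mk K x y = mk K x y') : Relation.ReflTransGen (fun a b => K.Cor a x b) y y' := by
  have hsymm : ∀ a b, Relation.ReflTransGen (fun a b => K.Cor a x b) a b →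
      Relation.ReflTransGen (fun a b => K.Cor a x b) b a := by
    intro a b e
    induction e with
    | refl => exact Relation.ReflTransGen.refl
    | tail _ e ih => exact Relation.ReflTransGen.head e.symm ih
  obtain ⟨h, a1, a2, a3⟩ := hc.cut x
    (fun b => Relation.ReflTransGen (fun a b => K.Cor a x b) y b)
    (fun a b e => ⟨fun q => q.tail e, fun q => q.tail e.symm⟩)
  have hF := F_const hc x h (mk K x y) (fun a b e n1 n2 _ => a1 a b e n1 n2) _ _
    (Quotient.exact hm) rfl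
  simp only [F, if_true] at hF
  have h3 := a2 y h1 Relation.ReflTransGen.refl
  rw [hF] at h3
  by_contra hcon
  have h4 := a3 y' h2 hcon
  rw [h4, CharTwo.add_self_eq_zero] at h3
  exact zero_ne_one h3

/-! ### The tree -/

variable (K)

/-- vertices of the tree -/
def P : Set (V ⊕ C K) := {v | (∃ x, v = Sum.inl x) ∨ ∃ x y, K.E x y ∧ v = Sum.inr (mk K x y)}

/-- adjacency -/
def A (v w : V ⊕ C K) : Prop :=
  ∃ x y, K.E x y ∧ ((v = Sum.inl x ∧ w = Sum.inr (mk K x y)) ∨
    (w = Sum.inl x ∧ v = Sum.inr (mk K x y)))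

theorem A_symm (v w : V ⊕ C K) (e : A K v w) : A K w v := by
  obtain ⟨x, y, h, h'⟩ := e
  exact ⟨x, y, h, h'.symm⟩

theorem A_P (v w : V ⊕ C K) (e : A K v w) : v ∈ P K := by
  obtain ⟨x, y, h, ⟨rfl, rfl⟩ | ⟨rfl, rfl⟩⟩ := e
  · exact Or.inl ⟨x, rfl⟩
  · exact Or.inr ⟨x, y, h, rfl⟩

variable {K}

theorem cut_aux (hcl : K.Clean) (x y : V) (hxy : K.E x y) : ∃ g : V ⊕ C K → ZMod 2,
    g (Sum.inl x) ≠ g (Sum.inr (mk K x y)) ∧
    ∀ a b, K.E a b → g (Sum.inl a) ≠ g (Sum.inr (mk K a b)) → a = x ∧ mk K a b = mk K x y := by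
  classical
  set c := mk K x y with hc
  obtain ⟨h, a1, a2, a3⟩ := hcl.cut x (fun b => K.E x b ∧ mk K x b = c)
    (by
      intro a b e
      have e1 := e.E1
      have e2 := e.E2
      have m : mk K x a = mk K x b := by rw [← mk_cor e, mk_symm e1.symm]
      constructor
      · rintro ⟨_, h2⟩
        exact ⟨e2, by rw [← m]; exact h2⟩
      · rintro ⟨_, h2⟩
        exact ⟨e1.symm, by rw [m]; exact h2⟩)
  have hFc : ∀ a b, K.E a b → a ≠ x → b ≠ x → mk K a b = c → h a = h b :=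
    fun a b e n1 n2 _ => a1 a b e n1 n2
  have hF0 : ∀ c' : C K, c' ≠ c → ∀ a b, K.E a b → mk K a b = c' → h a = h b := by
    intro c' hc' a b e hm
    by_cases n1 : a = x
    · subst n1
      exact a3 b e (fun q => hc' (by rw [← hm]; exact q.2))
    · by_cases n2 : b = x
      · subst n2
        exact (a3 a e.symm (fun q => hc' (by rw [← hm, mk_symm e]; exact q.2))).symm
      · exact a1 a b e n1 n2
  have hxy1 : h x + h y = 1 := a2 y hxy ⟨hxy, rfl⟩
  -- values on classes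
  have hout : ∀ c' : C K, ∃ p : V × V, Quotient.mk (cs K) p = c' := fun c' =>
    ⟨Quotient.out c', Quotient.out_eq c'⟩
  choose o ho using hout
  refine ⟨Sum.elim h (fun c' => F x h (o c')), ?_, ?_⟩
  · simp only [Sum.elim_inl, Sum.elim_inr]
    have : F x h (o c) = F x h (x, y) :=
      F_const hcl x h c hFc _ _ (Quotient.exact ((ho c).trans rfl)) (ho c)
    rw [this]
    simp only [F, if_true]
    intro e
    rw [e, CharTwo.add_self_eq_zero] at hxy1
    exact zero_ne_one hxy1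
  · intro a b e hne
    simp only [Sum.elim_inl, Sum.elim_inr] at hne
    have heq : F x h (o (mk K a b)) = F x h (a, b) := by
      by_cases hm : mk K a b = c
      · exact F_const hcl x h c hFc _ _ (Quotient.exact (ho _)) ((ho _).trans hm)
      · exact F_const hcl x h (mk K a b) (fun a' b' e' _ _ hm' => hF0 _ hm a' b' e' hm') _ _
          (Quotient.exact (ho _)) (ho _)
    rw [heq] at hne
    by_cases hm : mk K a b = c
    · refine ⟨?_, hm⟩
      by_contra hax
      exact hne (by simp [F, hax])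
    · exfalso
      apply hne
      simp only [F]
      by_cases hax : a = x
      · simp only [hax, if_true]
        rw [← hax]
        exact hF0 _ hm a b e rfl
      · simp [hax]

theorem finE (K : PX H V) : FinOrb H {p : V × V | K.E p.1 p.2} := by
  have := K.fin_darts
  apply SAF.FinOrb.mono _ this
  intro p hp
  exact PX.mem_darts.2 hp

theorem exists_bad_class (hcl : K.Clean) (hSA : ∀ (G : Type) [Group G], InC G → SA G)
    (hb : ¬ SA H) : ∃ x y, K.E x y ∧ ¬ SA (stabilizer H (mk K x y)) := by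
  classical
  obtain ⟨v, hv, hbad⟩ := exists_bad_of_rel (H := H) (X := V ⊕ C K) (P K) (A K) (A_symm K)
    (by
      rintro v ⟨x, y, _, ⟨h1, h2⟩ | ⟨h1, h2⟩⟩
      · rw [h1] at h2; simp at h2
      · rw [h1] at h2; simp at h2)
    (A_P K)
    (by
      rintro h v (⟨x, rfl⟩ | ⟨x, y, hxy, rfl⟩)
      · exact Or.inl ⟨h • x, rfl⟩
      · exact Or.inr ⟨h • x, h • y, K.E_smul h hxy, rfl⟩)
    (by
      rintro h v w ⟨x, y, hxy, ⟨rfl, rfl⟩ | ⟨rfl, rfl⟩⟩
      · exact ⟨h • x, h • y, K.E_smul h hxy, Or.inl ⟨rfl, rfl⟩⟩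
      · exact ⟨h • x, h • y, K.E_smul h hxy, Or.inr ⟨rfl, rfl⟩⟩)
    (by
      obtain ⟨x⟩ := K.ne
      exact ⟨Sum.inl x, Or.inl ⟨x, rfl⟩⟩)
    (by
      have step : ∀ x y, K.E x y → Relation.ReflTransGen (A K) (Sum.inl x) (Sum.inl y) := by
        intro x y e
        refine Relation.ReflTransGen.tail (Relation.ReflTransGen.single
          (b := Sum.inr (mk K x y)) ⟨x, y, e, Or.inl ⟨rfl, rfl⟩⟩) ?_
        exact ⟨y, x, e.symm, Or.inr ⟨rfl, by rw [mk_symm e]⟩⟩
      have ll : ∀ x y, Relation.ReflTransGen (A K) (Sum.inl x) (Sum.inl y) := by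
        intro x y
        have e := K.conn x y
        induction e with
        | refl => exact Relation.ReflTransGen.refl
        | tail _ h ih => exact ih.trans (step _ _ h)
      rintro v (⟨x, rfl⟩ | ⟨x, y, hxy, rfl⟩) w (⟨x', rfl⟩ | ⟨x', y', hxy', rfl⟩)
      · exact ll x x'
      · exact (ll x x').tail ⟨x', y', hxy', Or.inl ⟨rfl, rfl⟩⟩
      · exact Relation.ReflTransGen.head ⟨x, y, hxy, Or.inr ⟨rfl, rfl⟩⟩ (ll x x')
      · exact Relation.ReflTransGen.head ⟨x, y, hxy, Or.inr ⟨rfl, rfl⟩⟩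
          ((ll x x').tail ⟨x', y', hxy', Or.inl ⟨rfl, rfl⟩⟩))
    (by
      rintro v w ⟨x, y, hxy, h⟩
      obtain ⟨g, h1, h2⟩ := cut_aux hcl x y hxy
      refine ⟨g, ?_, ?_⟩
      · rcases h with ⟨rfl, rfl⟩ | ⟨rfl, rfl⟩
        · exact h1
        · exact h1.symm
      · rintro a b ⟨x', y', hxy', ⟨rfl, rfl⟩ | ⟨rfl, rfl⟩⟩ hg
        · obtain ⟨rfl, e⟩ := h2 x' y' hxy' hg
          rw [e]
          rcases h with ⟨rfl, rfl⟩ | ⟨rfl, rfl⟩
          · exact Or.inl ⟨rfl, rfl⟩
          · exact Or.inr ⟨rfl, rfl⟩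
        · obtain ⟨rfl, e⟩ := h2 x' y' hxy' hg.symm
          rw [e]
          rcases h with ⟨rfl, rfl⟩ | ⟨rfl, rfl⟩
          · exact Or.inr ⟨rfl, rfl⟩
          · exact Or.inl ⟨rfl, rfl⟩)
    (by
      rintro h v w ⟨x, y, hxy, ⟨rfl, rfl⟩ | ⟨rfl, rfl⟩⟩ ⟨h1, h2⟩
      · simp at h1
      · simp at h1)
    (by
      obtain ⟨F1, hF1, hs1, hc1⟩ := FinOrb_iff.1 K.fin
      obtain ⟨F2, hF2, hs2, hc2⟩ := FinOrb_iff.1 (finE K)
      refine FinOrb_iff.2 ⟨Sum.inl '' F1 ∪ (fun p : V × V => Sum.inr (mk K p.1 p.2)) '' F2,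
        (hF1.image _).union (hF2.image _), ?_, ?_⟩
      · rintro _ (⟨x, hx, rfl⟩ | ⟨p, hp, rfl⟩)
        · exact Or.inl ⟨x, rfl⟩
        · exact Or.inr ⟨p.1, p.2, hs2 hp, rfl⟩
      · rintro v (⟨x, rfl⟩ | ⟨x, y, hxy, rfl⟩)
        · obtain ⟨f, hf, h, e⟩ := hc1 x trivial
          exact ⟨_, Or.inl ⟨f, hf, rfl⟩, h, by rw [← e]; rfl⟩
        · obtain ⟨f, hf, h, e⟩ := hc2 (x, y) hxy
          refine ⟨_, Or.inr ⟨f, hf, rfl⟩, h, ?_⟩
          have e1 : h • f.1 = x := congrArg Prod.fst e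
          have e2 : h • f.2 = y := congrArg Prod.snd e
          rw [← e1, ← e2]; rfl)
    (by
      obtain ⟨F2, hF2, hs2, hc2⟩ := FinOrb_iff.1 (finE K)
      refine FinOrb_iff.2 ⟨(fun p : V × V => ((Sum.inl p.1 : V ⊕ C K),
          (Sum.inr (mk K p.1 p.2) : V ⊕ C K))) '' F2 ∪
        (fun p : V × V => ((Sum.inr (mk K p.1 p.2) : V ⊕ C K), (Sum.inl p.1 : V ⊕ C K))) '' F2,
        (hF2.image _).union (hF2.image _), ?_, ?_⟩
      · rintro _ (⟨p, hp, rfl⟩ | ⟨p, hp, rfl⟩)
        · exact ⟨p.1, p.2, hs2 hp, Or.inl ⟨rfl, rfl⟩⟩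
        · exact ⟨p.1, p.2, hs2 hp, Or.inr ⟨rfl, rfl⟩⟩
      · rintro ⟨v, w⟩ ⟨x, y, hxy, ⟨h1, h2⟩ | ⟨h1, h2⟩⟩
        · obtain ⟨f, hf, h, e⟩ := hc2 (x, y) hxy
          refine ⟨_, Or.inl ⟨f, hf, rfl⟩, h, ?_⟩
          have e1 : h • f.1 = x := congrArg Prod.fst e
          have e2 : h • f.2 = y := congrArg Prod.snd e
          simp only at h1 h2
          rw [h1, h2, ← e1, ← e2]; rfl
        · obtain ⟨f, hf, h, e⟩ := hc2 (x, y) hxy
          refine ⟨_, Or.inr ⟨f, hf, rfl⟩, h, ?_⟩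
          have e1 : h • f.1 = x := congrArg Prod.fst e
          have e2 : h • f.2 = y := congrArg Prod.snd e
          simp only at h1 h2
          rw [h1, h2, ← e1, ← e2]; rfl)
    (by
      have key : ∀ x : V, InC ↥(stabilizer H (Sum.inl x : V ⊕ C K)) := by
        intro x
        apply SAG.InC.mono ?_ (K.stab x)
        intro h hh
        have : h • (Sum.inl x : V ⊕ C K) = Sum.inl x := hh
        exact Sum.inl_injective this
      rintro v w ⟨x, y, hxy, ⟨rfl, rfl⟩ | ⟨rfl, rfl⟩⟩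
      · exact SAG.InC.mono inf_le_left (key x)
      · exact SAG.InC.mono inf_le_right (key x))
    hb
  rcases hv with ⟨x, rfl⟩ | ⟨x, y, hxy, rfl⟩
  · exfalso
    apply hbad
    apply hSA
    apply SAG.InC.mono ?_ (K.stab x)
    intro h hh
    have : h • (Sum.inl x : V ⊕ C K) = Sum.inl x := hh
    exact Sum.inl_injective this
  · refine ⟨x, y, hxy, ?_⟩
    have : stabilizer H (Sum.inr (mk K x y) : V ⊕ C K) = stabilizer H (mk K x y) := by
      ext h
      rw [mem_stabilizer_iff, mem_stabilizer_iff]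
      constructor
      · intro e; exact Sum.inr_injective e
      · intro e
        show Sum.inr (h • mk K x y) = _
        rw [e]
    rw [← this]
    exact hbad

end PB

end Pool.Agent.BT
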