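import Pool.Agent.BT.PBlock1

/-!
# Pentagon complexes: the block lemma, part 2 (the block)
-/

namespace Pool.Agent.BT

open MulAction
open Pool.Agent.SAF (InC orbs FinOrb oc Decomp SAn SA FinOrb_iff)

namespace PB

variable {H V : Type} [Group H] [MulAction H V] {K : PX H V}

/-- an element of `H` which maps an edge of the class `c` to an edge of the class `c` is in the
stabiliser -/
theorem mem_stab {c : C K} {h : H} {x y : V} (h1 : mk K x y = c) (h2 : mk K (h • x) (h • y) = c) :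
    h ∈ stabilizer H c := by
  rw [mem_stabilizer_iff, ← h1, mk_smul, h2, h1]

theorem mk_stab {c : C K} (s : stabilizer H c) {x y : V} (h1 : mk K x y = c) :
    mk K (s.1 • x) (s.1 • y) = c := by
  have h3 : (s : H) • c = c := s.2
  rw [← mk_smul, h1, h3]

theorem conn_class {c : C K} : ∀ p q : V × V, cs K p q → Quotient.mk (cs K) p = c →
    Relation.ReflTransGen (fun x y => K.E x y ∧ mk K x y = c) p.1 q.1 := by
  have hsymm : Std.Symm (fun x y => K.E x y ∧ mk K x y = c) :=
    ⟨fun x y h => ⟨h.1.symm, by rw [← mk_symm h.1]; exact h.2⟩⟩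
  intro p q e
  induction e with
  | rel p q hpq =>
    intro hp
    rcases hpq with ⟨e, rfl⟩ | ⟨z, e, rfl⟩
    · exact Relation.ReflTransGen.single ⟨e, hp⟩
    · exact Relation.ReflTransGen.single ⟨e.E1, hp⟩
  | refl p => intro _; exact Relation.ReflTransGen.refl
  | symm p q hpq ih =>
    intro hp
    exact (Relation.ReflTransGen.stdSymm (r := fun x y => K.E x y ∧ mk K x y = c)).symm _ _
      (ih (by rw [← hp]; exact Quotient.sound hpq))
  | trans p q s h1 h2 ih1 ih2 =>
    intro hp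
    exact (ih1 hp).trans (ih2 (by rw [← hp]; exact (Quotient.sound h1).symm))

theorem mk_pt (g : H) (i : K.I) (j : Fin 5) :
    mk K (g • K.pt i j) (g • K.pt i (j + 1)) = mk K (g • K.pt i 0) (g • K.pt i 1) := by
  have step : ∀ j : Fin 5, mk K (g • K.pt i j) (g • K.pt i (j + 1)) =
      mk K (g • K.pt i (j + 1)) (g • K.pt i (j + 2)) := fun j =>
    mk_cor ⟨g, i, j, Or.inl ⟨rfl, rfl, rfl⟩⟩
  have s0 := step 0
  have s1 := step 1
  have s2 := step 2
  have s3 := step 3
  fin_cases j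
  · rfl
  · exact s0.symm
  · exact s1.symm.trans s0.symm
  · exact s2.symm.trans (s1.symm.trans s0.symm)
  · exact s3.symm.trans (s2.symm.trans (s1.symm.trans s0.symm))

variable (K)

/-- the vertices of a block -/
def BV (c : C K) : Type := {x : V // ∃ y, K.E x y ∧ mk K x y = c}

variable {K}

instance (c : C K) : MulAction ↥(stabilizer H c) (BV K c) where
  smul s x := ⟨s.1 • x.1, by
    obtain ⟨y, h1, h2⟩ := x.2
    exact ⟨s.1 • y, K.E_smul s.1 h1, mk_stab s h2⟩⟩
  one_smul x := Subtype.ext (one_smul H x.1)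
  mul_smul a b x := Subtype.ext (mul_smul a.1 b.1 x.1)

theorem BV_smul {c : C K} (s : stabilizer H c) (x : BV K c) : (s • x).1 = s.1 • x.1 := rfl

theorem edge_l {c : C K} {x y : V} (h : K.E x y) (hm : mk K x y = c) :
    ∃ z, K.E x z ∧ mk K x z = c := ⟨y, h, hm⟩

theorem edge_r {c : C K} {x y : V} (h : K.E x y) (hm : mk K x y = c) :
    ∃ z, K.E y z ∧ mk K y z = c := ⟨x, h.symm, by rw [← mk_symm h]; exact hm⟩

theorem fin_cls (c : C K) : FinOrb (stabilizer H c) {p : V × V | K.E p.1 p.2 ∧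
    mk K p.1 p.2 = c} := by
  apply SAF.FinOrb.of_inj (finE K) (fun p => p)
  · intro a ha; exact ha.1
  · rintro a ha b hb ⟨h, e⟩
    have e' : h • a = b := e
    refine ⟨⟨h, mem_stab ha.2 ?_⟩, e⟩
    have : mk K (h • a).1 (h • a).2 = c := by rw [e']; exact hb.2
    exact this

/-- the pentagons of the block -/
def BI (c : C K) : Type := {i : K.I // ∃ h : H, mk K (h • K.pt i 0) (h • K.pt i 1) = c}

/-- the translating element -/
noncomputable def BI.g {c : C K} (i : BI c) : H := i.2.choose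

theorem BI.mk_g {c : C K} (i : BI c) (j : Fin 5) :
    mk K (i.g • K.pt i.1 j) (i.g • K.pt i.1 (j + 1)) = c := by
  rw [mk_pt]; exact i.2.choose_spec

/-- translates of pentagons in the block -/
theorem exists_tr {c : C K} (h : H) (i : K.I) (j : Fin 5)
    (hm : mk K (h • K.pt i j) (h • K.pt i (j + 1)) = c) :
    ∃ (i' : BI c) (s : stabilizer H c), i'.1 = i ∧ h = s.1 * i'.g := by
  rw [mk_pt] at hm
  let i' : BI c := ⟨i, h, hm⟩
  have h1 := i'.mk_g 0
  have hg : h * (i'.g)⁻¹ ∈ stabilizer H c := by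
    apply mem_stab h1
    rw [← mul_smul, ← mul_smul]
    have e : h * (i'.g)⁻¹ * i'.g = h := by group
    rw [e]
    exact hm
  exact ⟨i', ⟨_, hg⟩, rfl, by
    show h = h * (i'.g)⁻¹ * i'.g
    group⟩

/-- the block as a complex for its stabiliser -/
noncomputable def blk (hcl : K.Clean) (x0 y0 : V) (h0 : K.E x0 y0) :
    PX (stabilizer H (mk K x0 y0)) (BV K (mk K x0 y0)) where
  ar a b := K.ar a.1 b.1 ∧ mk K a.1 b.1 = mk K x0 y0
  rk a := K.rk a.1
  I := BI (mk K x0 y0)
  finI := by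
    have := K.finI
    exact Subtype.finite
  pt i j := ⟨i.g • K.pt i.1 j, _, K.E_smul i.g (K.pt_E i.1 j), i.mk_g j⟩
  ar_rk v a h := K.ar_rk _ _ h.1
  ar_smul s v a h := ⟨K.ar_smul s.1 _ _ h.1, mk_stab s h.2⟩
  rk_smul s v := K.rk_smul s.1 v.1
  two v a b c h1 h2 h3 := by
    rcases K.two _ _ _ _ h1.1 h2.1 h3.1 with h | h | h
    · exact Or.inl (Subtype.ext h)
    · exact Or.inr (Or.inl (Subtype.ext h))
    · exact Or.inr (Or.inr (Subtype.ext h))
  pt_E i j := by
    have hm := i.mk_g j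
    rcases K.E_smul i.g (K.pt_E i.1 j) with h | h
    · exact Or.inl ⟨h, hm⟩
    · exact Or.inr ⟨h, by
        show mk K (i.g • K.pt i.1 (j + 1)) (i.g • K.pt i.1 j) = _
        rw [mk_symm (Or.inl h)]; exact hm⟩
  ne := ⟨⟨x0, y0, h0, rfl⟩⟩
  conn x x' := by
    obtain ⟨y, h1, h2⟩ := x.2
    obtain ⟨y', h1', h2'⟩ := x'.2
    have h := conn_class (x.1, y) (x'.1, y') (Quotient.exact (h2.trans h2'.symm)) h2
    have key : ∀ a b : V, Relation.ReflTransGen
        (fun x y => K.E x y ∧ mk K x y = mk K x0 y0) a b → ∀ (a' b' : BV K (mk K x0 y0)),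
        a'.1 = a → b'.1 = b → Relation.ReflTransGen (fun (a b : BV K (mk K x0 y0)) =>
          (K.ar a.1 b.1 ∧ mk K a.1 b.1 = mk K x0 y0) ∨
          (K.ar b.1 a.1 ∧ mk K b.1 a.1 = mk K x0 y0)) a' b' := by
      intro a b e
      induction e with
      | refl =>
        intro a' b' e1 e2
        have : a' = b' := Subtype.ext (e1.trans e2.symm)
        rw [this]
      | tail _ e ih =>
        intro a' b' e1 e2
        refine (ih a' ⟨_, edge_l e.1 e.2⟩ e1 rfl).tail ?_
        rcases e.1 with q | q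
        · left
          rw [e2]
          exact ⟨q, e.2⟩
        · right
          rw [e2]
          exact ⟨q, by rw [mk_symm (Or.inl q)]; exact e.2⟩
    exact key _ _ h x x' rfl rfl
  H1 φ hs h4 h3 h5 := by
    classical
    let c := mk K x0 y0
    have memL : ∀ {a b : V}, K.E a b ∧ mk K a b = c → ∃ y, K.E a y ∧ mk K a y = c :=
      fun h => edge_l h.1 h.2
    have memR : ∀ {a b : V}, K.E a b ∧ mk K a b = c → ∃ y, K.E b y ∧ mk K b y = c :=
      fun h => edge_r h.1 h.2
    let ψ : V → V → ZMod 2 := fun a b =>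
      if h : K.E a b ∧ mk K a b = c then φ ⟨a, memL h⟩ ⟨b, memR h⟩ else 0
    have hsw : ∀ a b, (K.E a b ∧ mk K a b = c) → (K.E b a ∧ mk K b a = c) :=
      fun a b h => ⟨h.1.symm, by rw [← mk_symm h.1]; exact h.2⟩
    have ψs : ∀ a b, ψ a b = ψ b a := by
      intro a b
      by_cases h : K.E a b ∧ mk K a b = c
      · show (if h : K.E a b ∧ mk K a b = c then φ ⟨a, memL h⟩ ⟨b, memR h⟩ else 0) =
          (if h : K.E b a ∧ mk K b a = c then φ ⟨b, memL h⟩ ⟨a, memR h⟩ else 0)
        rw [dif_pos h, dif_pos (hsw a b h)]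
        exact hs _ _
      · have h' : ¬ (K.E b a ∧ mk K b a = c) := fun q => h (hsw b a q)
        show (if h : K.E a b ∧ mk K a b = c then φ ⟨a, memL h⟩ ⟨b, memR h⟩ else 0) =
          (if h : K.E b a ∧ mk K b a = c then φ ⟨b, memL h⟩ ⟨a, memR h⟩ else 0)
        rw [dif_neg h, dif_neg h']
    obtain ⟨g, hg⟩ := K.H1 ψ ψs
      (by
        intro a b d e h1 h2 h3 h4
        rcases hcl.c4 a b d e h1 h2 h3 h4 with rfl | rfl
        · rw [ψs b a, ψs e a, CharTwo.add_self_eq_zero, zero_add, CharTwo.add_self_eq_zero]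
        · rw [ψs d b, ψs b a, add_assoc, add_assoc, add_comm, add_assoc, add_assoc,
            CharTwo.add_self_eq_zero, add_zero, CharTwo.add_self_eq_zero])
      (fun a b d h1 h2 h3 => (hcl.c3 a b d h1 h2 h3).elim)
      (by
        intro i h
        by_cases hm : mk K (h • K.pt i 0) (h • K.pt i 1) = c
        · obtain ⟨i', s, rfl, rfl⟩ := exists_tr h i 0 hm
          rw [← h5 i' s]
          apply Finset.sum_congr rfl
          intro j _
          have hj : K.E ((s.1 * i'.g) • K.pt i'.1 j) ((s.1 * i'.g) • K.pt i'.1 (j + 1)) ∧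
              mk K ((s.1 * i'.g) • K.pt i'.1 j) ((s.1 * i'.g) • K.pt i'.1 (j + 1)) = c :=
            ⟨K.E_smul _ (K.pt_E i'.1 j), by rw [mk_pt]; exact hm⟩
          show (if h : K.E ((s.1 * i'.g) • K.pt i'.1 j) ((s.1 * i'.g) • K.pt i'.1 (j + 1)) ∧
              mk K ((s.1 * i'.g) • K.pt i'.1 j) ((s.1 * i'.g) • K.pt i'.1 (j + 1)) = c then
            φ ⟨_, memL h⟩ ⟨_, memR h⟩ else 0) = _
          rw [dif_pos hj]
          congr 1
          · exact Subtype.ext (mul_smul _ _ _)
          · exact Subtype.ext (mul_smul _ _ _)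
        · apply Finset.sum_eq_zero
          intro j _
          apply dif_neg
          rintro ⟨-, q⟩
          rw [mk_pt] at q
          exact hm q)
    refine ⟨fun x => g x.1, ?_⟩
    intro x y e
    have hE : K.E x.1 y.1 ∧ mk K x.1 y.1 = c := by
      rcases e with e | e
      · exact ⟨Or.inl e.1, e.2⟩
      · exact ⟨Or.inr e.1, by rw [mk_symm (Or.inr e.1)]; exact e.2⟩
    have h1 := hg x.1 y.1 hE.1
    have h2 : ψ x.1 y.1 = φ x y := by
      show (if h : K.E x.1 y.1 ∧ mk K x.1 y.1 = c then φ ⟨x.1, memL h⟩ ⟨y.1, memR h⟩ else 0) = _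
      rw [dif_pos hE]
      rfl
    rw [← h2]
    exact h1
  fin := by
    apply SAF.FinOrb.of_inj (s' := {x : V | ∃ y, K.E x y ∧ mk K x y = mk K x0 y0})
      (H' := stabilizer H (mk K x0 y0)) ?_ (fun x : BV K (mk K x0 y0) => x.1)
    · intro x _
      exact x.2
    · rintro x _ y _ ⟨s, e⟩
      exact ⟨s, Subtype.ext e⟩
    · apply SAF.FinOrb.image (fin_cls (mk K x0 y0)) (fun p => p.1)
      · rintro b ⟨y, hy⟩
        exact ⟨(b, y), hy, 1, one_smul _ _⟩
      · rintro a _ b _ ⟨h, e⟩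
        exact ⟨h, congrArg Prod.fst e⟩
  stab x := by
    have h1 := K.stab x.1
    have h2 : (stabilizer (stabilizer H (mk K x0 y0)) x).map
        (stabilizer H (mk K x0 y0)).subtype ≤ stabilizer H x.1 := by
      rintro _ ⟨s, hs, rfl⟩
      exact congrArg Subtype.val hs
    exact SAF.InC.iso (Subgroup.equivMapOfInjective _ _
      (stabilizer H (mk K x0 y0)).subtype_injective).symm (SAG.InC.mono h2 h1)

end PB

end Pool.Agent.BT
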