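import Pool.Agent.BT.PBlock2

/-!
# Pentagon complexes: the block lemma, part 3 (properties of the block)
-/

namespace Pool.Agent.BT

open MulAction
open Pool.Agent.SAF (InC orbs FinOrb oc Decomp SAn SA FinOrb_iff)

namespace PB

variable {H V : Type} [Group H] [MulAction H V] {K : PX H V}

/-- the edges of a class with bad stabiliser lie in pentagons -/
theorem cls_pent (hSA : ∀ (G : Type) [Group G], InC G → SA G) {c : C K}
    (hb : ¬ SA ↥(stabilizer H c)) {x y : V} (hE : K.E x y) (hm : mk K x y = c) : K.InP x y := by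
  by_contra hno
  apply hb
  apply hSA
  have hno' : ¬ K.InP y x := fun h => hno h.symm
  have hcl : ∀ p q : V × V, cs K p q → (p = (x, y) ∨ p = (y, x) ↔ q = (x, y) ∨ q = (y, x)) := by
    intro p q hpq
    induction hpq with
    | rel p q hpq =>
      obtain ⟨a, b⟩ := p
      rcases hpq with ⟨e, rfl⟩ | ⟨z, e, rfl⟩
      · simp only [Prod.mk.injEq]
        constructor
        · rintro (⟨rfl, rfl⟩ | ⟨rfl, rfl⟩)
          · exact Or.inr ⟨rfl, rfl⟩
          · exact Or.inl ⟨rfl, rfl⟩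
        · rintro (⟨rfl, rfl⟩ | ⟨rfl, rfl⟩)
          · exact Or.inr ⟨rfl, rfl⟩
          · exact Or.inl ⟨rfl, rfl⟩
      · simp only [Prod.mk.injEq]
        constructor
        · rintro (⟨rfl, rfl⟩ | ⟨rfl, rfl⟩)
          · exact (hno e.inp).elim
          · exact (hno' e.inp).elim
        · rintro (⟨rfl, rfl⟩ | ⟨rfl, rfl⟩)
          · exact (hno' e.symm.inp).elim
          · exact (hno e.symm.inp).elim
    | refl p => exact Iff.rfl
    | symm p q _ ih => exact ih.symm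
    | trans p q r _ _ ih1 ih2 => exact ih1.trans ih2
  apply SAG.InC.mono (B := pst (H := H) x y) ?_ (pst_inC (K.stab x))
  intro h hh
  have h1 : mk K (h • x) (h • y) = mk K x y := by
    rw [← mk_smul, hm]
    exact hh
  have h2 := (hcl _ _ (Quotient.exact h1)).2 (Or.inl rfl)
  rw [mem_pst]
  simp only [Prod.mk.injEq] at h2
  exact h2

variable {hcl : K.Clean} {x0 y0 : V} {h0 : K.E x0 y0}

theorem blk_ar {a b : BV K (mk K x0 y0)} : (blk hcl x0 y0 h0).ar a b ↔
    K.ar a.1 b.1 ∧ mk K a.1 b.1 = mk K x0 y0 := Iff.rfl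

theorem blk_E {a b : BV K (mk K x0 y0)} : (blk hcl x0 y0 h0).E a b ↔
    K.E a.1 b.1 ∧ mk K a.1 b.1 = mk K x0 y0 := by
  constructor
  · rintro (h | h)
    · exact ⟨Or.inl h.1, h.2⟩
    · exact ⟨Or.inr h.1, by rw [mk_symm (Or.inr h.1)]; exact h.2⟩
  · rintro ⟨h | h, hm⟩
    · exact Or.inl ⟨h, hm⟩
    · exact Or.inr ⟨h, by rw [mk_symm (Or.inl h)]; exact hm⟩

theorem blk_A_le : (blk hcl x0 y0 h0).A ≤ K.A := by
  have := K.finI
  exact Nat.card_le_card_of_injective
    (fun i : BI (mk K x0 y0) => i.1) Subtype.val_injective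

theorem blk_I_surj (hA : K.A ≤ (blk hcl x0 y0 h0).A) (i : K.I) : ∃ i' : BI (mk K x0 y0), i'.1 = i := by
  have := K.finI
  exact ((Subtype.val_injective : Function.Injective
    (fun i : BI (mk K x0 y0) => i.1)).bijective_of_nat_card_le hA).2 i

theorem blk_pt (i : BI (mk K x0 y0)) (j : Fin 5) :
    ((blk hcl x0 y0 h0).pt i j).1 = i.g • K.pt i.1 j := rfl

/-- a translate of a pentagon in the block, as a translate in the block complex -/
theorem blk_cor {a b c : BV K (mk K x0 y0)} (h : K.Cor a.1 b.1 c.1)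
    (hm : mk K a.1 b.1 = mk K x0 y0) : (blk hcl x0 y0 h0).Cor a b c := by
  obtain ⟨g, i, j, h⟩ := h
  have key : ∃ (i' : BI (mk K x0 y0)) (s : stabilizer H (mk K x0 y0)), i'.1 = i ∧
      g = s.1 * i'.g := by
    rcases h with ⟨e1, e2, e3⟩ | ⟨e1, e2, e3⟩
    · exact exists_tr g i j (by rw [← e1, ← e2]; exact hm)
    · refine exists_tr g i (j + 1) ?_
      have e4 : j + 1 + 1 = j + 2 := by rw [add_assoc]; rfl
      rw [e4, ← e2, ← e3, ← mk_symm]
      · exact hm
      · rw [e2, e3, ← e4]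
        exact (K.E_smul g (K.pt_E i (j + 1))).symm
  obtain ⟨i', s, rfl, rfl⟩ := key
  refine ⟨s, i', j, ?_⟩
  rcases h with ⟨e1, e2, e3⟩ | ⟨e1, e2, e3⟩
  · left
    refine ⟨Subtype.ext ?_, Subtype.ext ?_, Subtype.ext ?_⟩
    · rw [e1, mul_smul]; rfl
    · rw [e2, mul_smul]; rfl
    · rw [e3, mul_smul]; rfl
  · right
    refine ⟨Subtype.ext ?_, Subtype.ext ?_, Subtype.ext ?_⟩
    · rw [e1, mul_smul]; rfl
    · rw [e2, mul_smul]; rfl
    · rw [e3, mul_smul]; rfl

theorem blk_inp {a b : BV K (mk K x0 y0)} (h : K.InP a.1 b.1)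
    (hm : mk K a.1 b.1 = mk K x0 y0) : (blk hcl x0 y0 h0).InP a b := by
  obtain ⟨z, hz⟩ := h.cor
  have hm' : mk K b.1 z = mk K x0 y0 := by rw [← mk_cor hz]; exact hm
  exact (blk_cor (a := a) (b := b) (c := ⟨z, edge_r hz.E2 hm'⟩) hz hm).inp

theorem blk_allP (hSA : ∀ (G : Type) [Group G], InC G → SA G)
    (hb : ¬ SA ↥(stabilizer H (mk K x0 y0))) : (blk hcl x0 y0 h0).AllP := by
  intro a b h
  have h' := blk_E.1 h
  exact blk_inp (cls_pent hSA hb h'.1 h'.2) h'.2

theorem blk_link : (blk hcl x0 y0 h0).LinkC := by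
  intro x y z h1 h2
  have h1' := blk_E.1 h1
  have h2' := blk_E.1 h2
  have h := link hcl h1'.1 h2'.1 (h1'.2.trans h2'.2.symm)
  have key : ∀ b : V, Relation.ReflTransGen (fun a b => K.Cor a x.1 b) y.1 b →
      mk K x.1 b = mk K x0 y0 ∧ K.E x.1 b ∧ ∀ b' : BV K (mk K x0 y0), b'.1 = b →
      Relation.ReflTransGen (fun a b => (blk hcl x0 y0 h0).Cor a x b) y b' := by
    intro b e
    induction e with
    | refl =>
      refine ⟨h1'.2, h1'.1, ?_⟩
      intro b' e
      have : b' = y := Subtype.ext e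
      rw [this]
    | @tail b d _ e ih =>
      obtain ⟨r2, r3, r1⟩ := ih
      have hmb : mk K b x.1 = mk K x0 y0 := by rw [← mk_symm r3]; exact r2
      refine ⟨by rw [← mk_cor e]; exact hmb, e.E2, ?_⟩
      intro d' hd
      refine (r1 ⟨b, edge_r r3 r2⟩ rfl).tail ?_
      apply blk_cor
      · rw [hd]; exact e
      · exact hmb
  exact (key _ h).2.2 z rfl

theorem blk_clean (hmin : (blk hcl x0 y0 h0).AMin) (hSA : ∀ (G : Type) [Group G], InC G → SA G)
    (hb : ¬ SA ↥(stabilizer H (mk K x0 y0))) : (blk hcl x0 y0 h0).Clean where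
  out s a h := by
    by_contra hcon
    push Not at hcon
    exact PX.no_hair_pent hmin h (fun b hb => hcon b hb) (blk_allP hSA hb _ _ (Or.inl h))
  c3 x y z h1 h2 h3 := hcl.c3 _ _ _ (blk_E.1 h1).1 (blk_E.1 h2).1 (blk_E.1 h3).1
  c4 x y z w h1 h2 h3 h4 := by
    rcases hcl.c4 _ _ _ _ (blk_E.1 h1).1 (blk_E.1 h2).1 (blk_E.1 h3).1 (blk_E.1 h4).1 with h | h
    · exact Or.inl (Subtype.ext h)
    · exact Or.inr (Subtype.ext h)

end PB

end Pool.Agent.BT
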