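import Pool.Agent.BT.PBlock3
import Pool.Agent.BT.CH

/-!
# Pentagon complexes: the block lemma, part 4 (`-χ` of the block)
-/

namespace Pool.Agent.BT

open MulAction
open Pool.Agent.SAF (InC orbs FinOrb oc Decomp SAn SA FinOrb_iff)

namespace PB

variable {H V : Type} [Group H] [MulAction H V] {K : PX H V}

theorem orbit_smul {c d : C K} (h : H) : h • d ∈ orbit H c ↔ d ∈ orbit H c := by
  constructor
  · rintro ⟨g, hg⟩
    exact ⟨h⁻¹ * g, by
      show (h⁻¹ * g) • c = d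
      rw [mul_smul]
      have hg' : g • c = h • d := hg
      rw [hg', inv_smul_smul]⟩
  · rintro ⟨g, hg⟩
    exact ⟨h * g, by
      show (h * g) • c = h • d
      rw [mul_smul]
      have hg' : g • c = d := hg
      rw [hg']⟩

variable (K)

/-- the graph in which all translates of the block are coned off -/
def cone (c : C K) : HG H (V ⊕ ↥(orbit H c)) where
  E p q := (∃ x y, p = Sum.inl x ∧ q = Sum.inl y ∧ K.E x y ∧ mk K x y ∉ orbit H c) ∨
    ∃ (x y : V) (d : ↥(orbit H c)), K.E x y ∧ mk K x y = d.1 ∧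
      ((p = Sum.inl x ∧ q = Sum.inr d) ∨ (q = Sum.inl x ∧ p = Sum.inr d))
  symm := by
    rintro p q (⟨x, y, rfl, rfl, h1, h2⟩ | ⟨x, y, d, h1, h2, h3⟩)
    · exact Or.inl ⟨y, x, rfl, rfl, h1.symm, by rw [← mk_symm h1]; exact h2⟩
    · exact Or.inr ⟨x, y, d, h1, h2, h3.symm⟩
  smul := by
    rintro h p q (⟨x, y, rfl, rfl, h1, h2⟩ | ⟨x, y, d, h1, h2, h3⟩)
    · refine Or.inl ⟨h • x, h • y, rfl, rfl, K.E_smul h h1, ?_⟩
      rw [← mk_smul, orbit_smul]; exact h2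
    · refine Or.inr ⟨h • x, h • y, h • d, K.E_smul h h1, ?_, ?_⟩
      · rw [← mk_smul, h2]; rfl
      · rcases h3 with ⟨rfl, rfl⟩ | ⟨rfl, rfl⟩
        · exact Or.inl ⟨rfl, rfl⟩
        · exact Or.inr ⟨rfl, rfl⟩

/-- the three kinds of darts -/
def D1 (c : C K) : Set (V × V) := {p | K.E p.1 p.2 ∧ mk K p.1 p.2 ∉ orbit H c}

def D1' (c : C K) : Set (V × V) := {p | K.E p.1 p.2 ∧ mk K p.1 p.2 ∈ orbit H c}

def D2 (c : C K) : Set (V × ↥(orbit H c)) := {p | ∃ y, K.E p.1 y ∧ mk K p.1 y = p.2.1}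

variable {K}

theorem D1_smul (c : C K) (h : H) (p : V × V) (hp : p ∈ D1 K c) : h • p ∈ D1 K c := by
  refine ⟨K.E_smul h hp.1, ?_⟩
  have := hp.2
  rwa [← orbit_smul h, mk_smul] at this

theorem D1'_smul (c : C K) (h : H) (p : V × V) (hp : p ∈ D1' K c) : h • p ∈ D1' K c := by
  refine ⟨K.E_smul h hp.1, ?_⟩
  have := hp.2
  rwa [← orbit_smul h, mk_smul] at this

theorem D2_smul (c : C K) (h : H) (p : V × ↥(orbit H c)) (hp : p ∈ D2 K c) : h • p ∈ D2 K c := by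
  obtain ⟨y, h1, h2⟩ := hp
  exact ⟨h • y, K.E_smul h h1, by
    show mk K (h • p.1) (h • y) = h • p.2.1
    rw [← mk_smul, h2]⟩

theorem D1_fin (c : C K) : FinOrb H (D1 K c) := SAF.FinOrb.mono (fun _ h => h.1) (finE K)

theorem D1'_fin (c : C K) : FinOrb H (D1' K c) := SAF.FinOrb.mono (fun _ h => h.1) (finE K)

open Classical in
theorem D2_fin (c : C K) : FinOrb H (D2 K c) := by
  apply SAF.FinOrb.image (D1'_fin c) (fun p : V × V =>
    if h : mk K p.1 p.2 ∈ orbit H c then ((p.1, ⟨_, h⟩) : V × ↥(orbit H c))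
      else (p.1, ⟨c, mem_orbit_self c⟩))
  · rintro ⟨x, d⟩ ⟨y, h1, h2⟩
    have h1' : K.E x y := h1
    have h2' : mk K x y = d.1 := h2
    have h3 : mk K x y ∈ orbit H c := by rw [h2']; exact d.2
    refine ⟨(x, y), ⟨h1', h3⟩, 1, ?_⟩
    rw [one_smul]
    show (if h : mk K x y ∈ orbit H c then ((x, ⟨_, h⟩) : V × ↥(orbit H c))
      else (x, ⟨c, mem_orbit_self c⟩)) = _
    rw [dif_pos h3]
    exact Prod.ext rfl (Subtype.ext h2')
  · rintro a ha b hb ⟨h, rfl⟩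
    refine ⟨h, ?_⟩
    show h • (if h : mk K a.1 a.2 ∈ orbit H c then ((a.1, ⟨_, h⟩) : V × ↥(orbit H c))
      else (a.1, ⟨c, mem_orbit_self c⟩)) =
      (if h' : mk K (h • a.1) (h • a.2) ∈ orbit H c then ((h • a.1, ⟨_, h'⟩) : V × ↥(orbit H c))
      else (h • a.1, ⟨c, mem_orbit_self c⟩))
    have ha2 : mk K a.1 a.2 ∈ orbit H c := ha.2
    have hb2 : mk K (h • a.1) (h • a.2) ∈ orbit H c := hb.2
    rw [dif_pos ha2, dif_pos hb2]
    rfl

/-- darts between old vertices -/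
def cA (c : C K) (p : V × V) : (V ⊕ ↥(orbit H c)) × (V ⊕ ↥(orbit H c)) :=
  (Sum.inl p.1, Sum.inl p.2)

/-- darts to cone points -/
def cB (c : C K) (p : V × ↥(orbit H c)) : (V ⊕ ↥(orbit H c)) × (V ⊕ ↥(orbit H c)) :=
  (Sum.inl p.1, Sum.inr p.2)

/-- darts from cone points -/
def cC (c : C K) (p : V × ↥(orbit H c)) : (V ⊕ ↥(orbit H c)) × (V ⊕ ↥(orbit H c)) :=
  (Sum.inr p.2, Sum.inl p.1)

/-- forget that the class is in the orbit -/
def cD (c : C K) (p : V × ↥(orbit H c)) : V × C K := (p.1, p.2.1)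

theorem cone_darts (c : C K) : (cone K c).darts =
    (cA c '' D1 K c) ∪ ((cB c '' D2 K c) ∪ (cC c '' D2 K c)) := by
  ext ⟨p, q⟩
  constructor
  · rintro ⟨⟨x, y, e1, e2, h1, h2⟩ | ⟨x, y, d, h1, h2, ⟨e1, e2⟩ | ⟨e1, e2⟩⟩, -⟩
    · exact Or.inl ⟨(x, y), ⟨h1, h2⟩, Prod.ext e1.symm e2.symm⟩
    · exact Or.inr (Or.inl ⟨(x, d), ⟨y, h1, h2⟩, Prod.ext e1.symm e2.symm⟩)
    · exact Or.inr (Or.inr ⟨(x, d), ⟨y, h1, h2⟩, Prod.ext e2.symm e1.symm⟩)
  · rintro (⟨⟨x, y⟩, ⟨h1, h2⟩, e⟩ | ⟨⟨x, d⟩, ⟨y, h1, h2⟩, e⟩ | ⟨⟨x, d⟩, ⟨y, h1, h2⟩, e⟩) <;> cases e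
    · refine ⟨Or.inl ⟨x, y, rfl, rfl, h1, h2⟩, fun e => ?_⟩
      have h3 : K.E x y := h1
      exact h3.ne (Sum.inl_injective e)
    · exact ⟨Or.inr ⟨x, y, d, h1, h2, Or.inl ⟨rfl, rfl⟩⟩, fun e => by cases e⟩
    · exact ⟨Or.inr ⟨x, y, d, h1, h2, Or.inr ⟨rfl, rfl⟩⟩, fun e => by cases e⟩

theorem cone_conn (c : C K) (hc : ∃ x y, K.E x y ∧ mk K x y = c) :
    ∀ p q, Relation.ReflTransGen (cone K c).E p q := by
  have step : ∀ x y, K.E x y → Relation.ReflTransGen (cone K c).E (Sum.inl x) (Sum.inl y) := by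
    intro x y h
    by_cases hm : mk K x y ∈ orbit H c
    · have a1 : (cone K c).E (Sum.inl x) (Sum.inr ⟨_, hm⟩) :=
        Or.inr ⟨x, y, ⟨_, hm⟩, h, rfl, Or.inl ⟨rfl, rfl⟩⟩
      have a2 : (cone K c).E (Sum.inr ⟨_, hm⟩) (Sum.inl y) :=
        Or.inr ⟨y, x, ⟨_, hm⟩, h.symm, (mk_symm h).symm, Or.inr ⟨rfl, rfl⟩⟩
      exact (Relation.ReflTransGen.single a1).tail a2
    · exact Relation.ReflTransGen.single (Or.inl ⟨x, y, rfl, rfl, h, hm⟩)
  have ll : ∀ x y, Relation.ReflTransGen (cone K c).E (Sum.inl x) (Sum.inl y) := by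
    intro x y
    have e := K.conn x y
    induction e with
    | refl => exact Relation.ReflTransGen.refl
    | tail _ h ih => exact ih.trans (step _ _ h)
  have lr : ∀ d : ↥(orbit H c), ∃ x, (cone K c).E (Sum.inl x) (Sum.inr d) := by
    rintro ⟨_, g, rfl⟩
    obtain ⟨x, y, h1, h2⟩ := hc
    refine ⟨g • x, Or.inr ⟨g • x, g • y, _, K.E_smul g h1, ?_, Or.inl ⟨rfl, rfl⟩⟩⟩
    rw [← mk_smul, h2]
  rintro (x | d) (y | d')
  · exact ll x y
  · obtain ⟨z, hz⟩ := lr d'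
    exact (ll x z).tail hz
  · obtain ⟨z, hz⟩ := lr d
    exact Relation.ReflTransGen.head ((cone K c).symm _ _ hz) (ll z y)
  · obtain ⟨z, hz⟩ := lr d
    obtain ⟨z', hz'⟩ := lr d'
    exact Relation.ReflTransGen.head ((cone K c).symm _ _ hz) ((ll z z').tail hz')

theorem finOrb_union {X : Type} [MulAction H X] {s t : Set X} (hs : FinOrb H s)
    (ht : FinOrb H t) : FinOrb H (s ∪ t) := by
  unfold FinOrb orbs at *
  rw [Set.image_union]
  exact hs.union ht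

/-- the Euler characteristic inequality for the coned graph -/
theorem cone_ineq (c : C K) (hc : ∃ x y, K.E x y ∧ mk K x y = c) :
    0 ≤ mass H (D1 K c) / 2 + mass H (D2 K c) - mass H (Set.univ : Set V) := by
  have i1 : ∀ (h : H) (p : V × V), cA c (h • p) = h • cA c p := fun _ _ => rfl
  have i2 : ∀ (h : H) (p : V × ↥(orbit H c)), cB c (h • p) = h • cB c p := fun _ _ => rfl
  have i3 : ∀ (h : H) (p : V × ↥(orbit H c)), cC c (h • p) = h • cC c p := fun _ _ => rfl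
  have f1 := FinOrb.image_equi i1 (D1_fin c)
  have f2 := FinOrb.image_equi i2 (D2_fin c)
  have f3 := FinOrb.image_equi i3 (D2_fin c)
  have hD : FinOrb H (cone K c).darts := by
    rw [cone_darts]
    exact finOrb_union f1 (finOrb_union f2 f3)
  have jl : ∀ (h : H) (x : V), (Sum.inl (h • x) : V ⊕ ↥(orbit H c)) = h • Sum.inl x :=
    fun _ _ => rfl
  have jr : ∀ (h : H) (x : ↥(orbit H c)), (Sum.inr (h • x) : V ⊕ ↥(orbit H c)) = h • Sum.inr x :=
    fun _ _ => rfl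
  have hO : FinOrb H (Set.univ : Set ↥(orbit H c)) := by
    rw [FinOrb_iff]
    refine ⟨{⟨c, mem_orbit_self c⟩}, Set.finite_singleton _, Set.subset_univ _, ?_⟩
    rintro ⟨_, g, rfl⟩ _
    exact ⟨_, rfl, g, Subtype.ext rfl⟩
  have g1 := FinOrb.image_equi jl K.fin
  have g2 := FinOrb.image_equi jr hO
  have huniv : (Set.univ : Set (V ⊕ ↥(orbit H c))) =
      (Sum.inl '' (Set.univ : Set V)) ∪ (Sum.inr '' (Set.univ : Set ↥(orbit H c))) := by
    ext p
    rcases p with x | d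
    · exact ⟨fun _ => Or.inl ⟨x, trivial, rfl⟩, fun _ => trivial⟩
    · exact ⟨fun _ => Or.inr ⟨d, trivial, rfl⟩, fun _ => trivial⟩
  have hU : FinOrb H (Set.univ : Set (V ⊕ ↥(orbit H c))) := by
    rw [huniv]
    exact finOrb_union g1 g2
  obtain ⟨x, y, hxy⟩ := hc
  have key := (cone K c).bb_ge hD hU ⟨Sum.inl x⟩ (cone_conn c ⟨x, y, hxy⟩)
  have m1 : mass H (cone K c).darts = mass H (D1 K c) + (mass H (D2 K c) + mass H (D2 K c)) := by
    rw [cone_darts, mass_union f1 (finOrb_union f2 f3), mass_union f2 f3,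
      mass_image_inj i1 (D1_fin c) (D1_smul c), mass_image_inj i2 (D2_fin c) (D2_smul c),
      mass_image_inj i3 (D2_fin c) (D2_smul c)]
    · rintro ⟨a1, a2⟩ _ ⟨b1, b2⟩ _ e
      have e1 := Sum.inl_injective (congrArg Prod.snd e)
      have e2 := Sum.inr_injective (congrArg Prod.fst e)
      exact Prod.ext e1 e2
    · rintro ⟨a1, a2⟩ _ ⟨b1, b2⟩ _ e
      have e1 := Sum.inl_injective (congrArg Prod.fst e)
      have e2 := Sum.inr_injective (congrArg Prod.snd e)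
      exact Prod.ext e1 e2
    · rintro ⟨a1, a2⟩ _ ⟨b1, b2⟩ _ e
      have e1 := Sum.inl_injective (congrArg Prod.fst e)
      have e2 := Sum.inl_injective (congrArg Prod.snd e)
      exact Prod.ext e1 e2
    · rintro h _ ⟨p, hp, rfl⟩
      exact ⟨h • p, D2_smul c h p hp, rfl⟩
    · rintro _ ⟨p, hp, rfl⟩ ⟨q, hq, e⟩
      cases congrArg Prod.fst e
    · rintro h _ ⟨p, hp, rfl⟩
      exact ⟨h • p, D1_smul c h p hp, rfl⟩
    · rintro _ ⟨p, hp, rfl⟩ (⟨q, hq, e⟩ | ⟨q, hq, e⟩)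
      · cases congrArg Prod.snd e
      · cases congrArg Prod.fst e
  have m2 : mass H (Set.univ : Set (V ⊕ ↥(orbit H c))) =
      mass H (Set.univ : Set V) + mass H (Set.univ : Set ↥(orbit H c)) := by
    rw [huniv, mass_union g1 g2, mass_image_inj jl K.fin (fun _ _ _ => trivial),
      mass_image_inj jr hO (fun _ _ _ => trivial)]
    · intro a _ b _ e
      exact Sum.inr_injective e
    · intro a _ b _ e
      exact Sum.inl_injective e
    · rintro h _ ⟨p, hp, rfl⟩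
      exact ⟨h • p, trivial, rfl⟩
    · rintro _ ⟨p, hp, rfl⟩ ⟨q, hq, e⟩
      cases e
  have m3 : iw (⊤ : Subgroup H) ≤ mass H (Set.univ : Set ↥(orbit H c)) :=
    (iw_anti le_top).trans (wq_le_mass hO (x := ⟨c, mem_orbit_self c⟩) trivial)
  unfold HG.bb at key
  rw [m1, m2] at key
  linarith

theorem mass_D2 (c : C K) : mass H (D2 K c) =
    mass ↥(stabilizer H c) (Set.univ : Set (BV K c)) := by
  classical
  have i1 : ∀ (h : H) (p : V × ↥(orbit H c)), cD c (h • p) = h • cD c p := fun _ _ => rfl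
  rw [← mass_image_inj i1 (D2_fin c) (D2_smul c) (by
    rintro ⟨a1, a2⟩ _ ⟨b1, b2⟩ _ e
    have e1 : a1 = b1 := congrArg Prod.fst e
    have e2 : a2.1 = b2.1 := congrArg Prod.snd e
    exact Prod.ext e1 (Subtype.ext e2))]
  set s : Set (V × C K) := cD c '' D2 K c with hs
  have hfs : FinOrb H s := FinOrb.image_equi i1 (D2_fin c)
  have hsm : ∀ (h : H) (x : V × C K), x ∈ s → h • x ∈ s := by
    rintro h _ ⟨p, hp, rfl⟩
    exact ⟨h • p, D2_smul c h p hp, rfl⟩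
  have hπ : ∀ (h : H) (x : V × C K), Prod.snd (h • x) = h • Prod.snd x := fun _ _ => rfl
  rw [mass_fib (π := Prod.snd) hπ hfs hsm (fun _ => c) {(Quotient.mk'' c : orbitRel.Quotient H (C K))}
    (by
      intro q hq
      exact (Finset.mem_singleton.1 hq).symm)
    (by
      rintro _ ⟨⟨x, d⟩, hp, rfl⟩
      rw [Finset.mem_singleton]
      obtain ⟨g, hg⟩ := d.2
      exact SAF.mk_eq_iff.2 ⟨g, hg⟩), Finset.sum_singleton]
  have j : ∀ (h : ↥(stabilizer H c)) (x : BV K c), (fun x : BV K c => (x.1, c)) (h • x) =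
      h • (fun x : BV K c => (x.1, c)) x := by
    intro h x
    exact Prod.ext rfl h.2.symm
  have hfib : fib Prod.snd s c = (fun x : BV K c => (x.1, c)) '' Set.univ := by
    ext ⟨x, d⟩
    constructor
    · rintro ⟨⟨⟨x', d'⟩, ⟨y, h1, h2⟩, e⟩, e2⟩
      have e3 : x' = x := congrArg Prod.fst e
      have e4 : d'.1 = d := congrArg Prod.snd e
      have e5 : d = c := e2
      subst e5
      refine ⟨⟨x, y, ?_, ?_⟩, trivial, rfl⟩
      · rw [← e3]; exact h1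
      · rw [← e4, ← e3]; exact h2
    · rintro ⟨⟨x', y, h1, h2⟩, -, e⟩
      have e3 : x' = x := congrArg Prod.fst e
      have e4 : c = d := congrArg Prod.snd e
      subst e3 e4
      exact ⟨⟨(x', ⟨c, mem_orbit_self c⟩), ⟨y, h1, h2⟩, rfl⟩, rfl⟩
  rw [hfib]
  apply mass_image_inj j
  · apply SAF.FinOrb.of_inj (s' := {x : V | ∃ y, K.E x y ∧ mk K x y = c})
      (H' := stabilizer H c) ?_ (fun x : BV K c => x.1)
    · intro x _
      exact x.2
    · rintro x _ y _ ⟨s, e⟩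
      exact ⟨s, Subtype.ext e⟩
    · apply SAF.FinOrb.image (fin_cls c) (fun p => p.1)
      · rintro b ⟨y, hy⟩
        exact ⟨(b, y), hy, 1, one_smul _ _⟩
      · rintro a _ b _ ⟨h, e⟩
        exact ⟨h, congrArg Prod.fst e⟩
  · exact fun _ _ _ => trivial
  · intro a _ b _ e
    exact Subtype.ext (congrArg Prod.fst e)

/-- masses of invariant sets of edges in the orbit of a class -/
theorem mass_cls (c : C K) {s : Set (V × V)} (hs : s ⊆ D1' K c)
    (hsm : ∀ (h : H) (p : V × V), p ∈ s → h • p ∈ s) :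
    mass H s = mass ↥(stabilizer H c) {p : BV K c × BV K c | (p.1.1, p.2.1) ∈ s ∧
      mk K p.1.1 p.2.1 = c} := by
  classical
  have hfs : FinOrb H s := SAF.FinOrb.mono hs (D1'_fin c)
  have hπ : ∀ (h : H) (p : V × V), (fun p : V × V => mk K p.1 p.2) (h • p) =
      h • (fun p : V × V => mk K p.1 p.2) p := fun _ _ => rfl
  rw [mass_fib (π := fun p : V × V => mk K p.1 p.2) hπ hfs hsm (fun _ => c)
    {(Quotient.mk'' c : orbitRel.Quotient H (C K))}
    (by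
      intro q hq
      exact (Finset.mem_singleton.1 hq).symm)
    (by
      intro p hp
      rw [Finset.mem_singleton]
      obtain ⟨g, hg⟩ := (hs hp).2
      exact SAF.mk_eq_iff.2 ⟨g, hg⟩), Finset.sum_singleton]
  have j : ∀ (h : ↥(stabilizer H c)) (p : BV K c × BV K c),
      (fun p : BV K c × BV K c => (p.1.1, p.2.1)) (h • p) =
      h • (fun p : BV K c × BV K c => (p.1.1, p.2.1)) p := fun _ _ => rfl
  have hfib : fib (fun p : V × V => mk K p.1 p.2) s c =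
      (fun p : BV K c × BV K c => (p.1.1, p.2.1)) ''
      {p : BV K c × BV K c | (p.1.1, p.2.1) ∈ s ∧ mk K p.1.1 p.2.1 = c} := by
    ext ⟨x, y⟩
    constructor
    · rintro ⟨h1, h2⟩
      have hE : K.E x y := (hs h1).1
      exact ⟨(⟨x, edge_l hE h2⟩, ⟨y, edge_r hE h2⟩), ⟨h1, h2⟩, rfl⟩
    · rintro ⟨⟨a, b⟩, ⟨h1, h2⟩, e⟩
      rw [← e]
      exact ⟨h1, h2⟩
  rw [hfib]
  apply mass_image_inj j
  · apply SAF.FinOrb.of_inj (fin_cls c) (fun p : BV K c × BV K c => (p.1.1, p.2.1))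
    · rintro ⟨a, b⟩ ⟨h1, h2⟩
      exact ⟨(hs h1).1, h2⟩
    · rintro ⟨a, b⟩ _ ⟨a', b'⟩ _ ⟨h, e⟩
      exact ⟨h, Prod.ext (Subtype.ext (congrArg Prod.fst e)) (Subtype.ext (congrArg Prod.snd e))⟩
  · rintro h ⟨a, b⟩ ⟨h1, h2⟩
    exact ⟨hsm h.1 _ h1, mk_stab h h2⟩
  · rintro ⟨a, b⟩ _ ⟨a', b'⟩ _ e
    exact Prod.ext (Subtype.ext (congrArg Prod.fst e)) (Subtype.ext (congrArg Prod.snd e))

/-- `-χ` of the block is at most `-χ` of the complex -/
theorem blk_bb {hcl : K.Clean} {x0 y0 : V} {h0 : K.E x0 y0} :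
    (blk hcl x0 y0 h0).hg.bb ≤ K.hg.bb := by
  set c := mk K x0 y0 with hc
  have h1 := cone_ineq c ⟨x0, y0, h0, rfl⟩
  rw [mass_D2] at h1
  have h2 : K.hg.darts = D1 K c ∪ D1' K c := by
    ext p
    rw [PX.mem_darts]
    constructor
    · intro h
      by_cases hm : mk K p.1 p.2 ∈ orbit H c
      · exact Or.inr ⟨h, hm⟩
      · exact Or.inl ⟨h, hm⟩
    · rintro (h | h)
      · exact h.1
      · exact h.1
  have h3 : mass H K.hg.darts = mass H (D1 K c) + mass H (D1' K c) := by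
    rw [h2]
    exact mass_union (D1_fin c) (D1'_fin c) (D1_smul c) (fun p hp hp' => hp.2 hp'.2)
  have h4 : mass H (D1' K c) = mass ↥(stabilizer H c) (blk hcl x0 y0 h0).hg.darts := by
    rw [mass_cls c (le_refl _) (D1'_smul c)]
    congr 1
    ext ⟨a, b⟩
    rw [PX.mem_darts]
    constructor
    · rintro ⟨⟨q1, q2⟩, q3⟩
      exact blk_E.2 ⟨q1, q3⟩
    · intro q
      have q' := blk_E.1 q
      exact ⟨⟨q'.1, by
        show mk K a.1 b.1 ∈ orbit H c
        rw [q'.2]; exact mem_orbit_self c⟩, q'.2⟩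
  unfold HG.bb
  rw [h3, h4]
  linarith

end PB

end Pool.Agent.BT
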