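import Pool.Agent.BT.PBlock4

/-!
# Pentagon complexes: the block lemma, part 5 (the potentials of the block)
-/

namespace Pool.Agent.BT

open MulAction
open Pool.Agent.SAF (InC orbs FinOrb oc Decomp SAn SA FinOrb_iff)

namespace PB

variable {H V : Type} [Group H] [MulAction H V] {K : PX H V}
  {hcl : K.Clean} {x0 y0 : V} {h0 : K.E x0 y0}

theorem blk_Ew (hA : K.A ≤ (blk hcl x0 y0 h0).A) : (blk hcl x0 y0 h0).Ew = K.Ew := by
  have hsub : K.PA ⊆ D1' K (mk K x0 y0) := by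
    rintro ⟨x, y⟩ ⟨h1, h2⟩
    refine ⟨Or.inl h1, ?_⟩
    obtain ⟨g, i, j, h⟩ := h2
    obtain ⟨i', rfl⟩ := blk_I_surj hA i
    have hm := i'.mk_g j
    have h3 : mk K (g • K.pt i'.1 j) (g • K.pt i'.1 (j + 1)) ∈ orbit H (mk K x0 y0) := by
      refine ⟨g * (i'.g)⁻¹, ?_⟩
      have h5 := congrArg (fun d => (g * (i'.g)⁻¹) • d) hm
      refine h5.symm.trans ?_
      show (g * (i'.g)⁻¹) • mk K (i'.g • K.pt i'.1 j) (i'.g • K.pt i'.1 (j + 1)) = _
      rw [mk_smul, ← mul_smul, ← mul_smul, inv_mul_cancel_right]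
    have h' : (x = g • K.pt i'.1 j ∧ y = g • K.pt i'.1 (j + 1)) ∨
      (y = g • K.pt i'.1 j ∧ x = g • K.pt i'.1 (j + 1)) := h
    have hE : K.E x y := Or.inl h1
    show mk K x y ∈ _
    rcases h' with ⟨e1, e2⟩ | ⟨e1, e2⟩
    · rw [e1, e2]; exact h3
    · rw [mk_symm hE, e1, e2]; exact h3
  unfold PX.Ew
  rw [mass_cls (mk K x0 y0) hsub K.PA_smul]
  congr 1
  ext ⟨a, b⟩
  constructor
  · rintro ⟨h1, h2⟩
    refine ⟨⟨h1.1, ?_⟩, h1.2⟩
    show K.InP a.1 b.1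
    obtain ⟨s, i, j, h⟩ := h2
    refine ⟨s.1 * i.g, i.1, j, ?_⟩
    rcases h with ⟨e1, e2⟩ | ⟨e1, e2⟩
    · left
      have e1' : a = s • (blk hcl x0 y0 h0).pt i j := e1
      have e2' : b = s • (blk hcl x0 y0 h0).pt i (j + 1) := e2
      rw [e1', e2', mul_smul, mul_smul]
      exact ⟨rfl, rfl⟩
    · right
      have e1' : b = s • (blk hcl x0 y0 h0).pt i j := e1
      have e2' : a = s • (blk hcl x0 y0 h0).pt i (j + 1) := e2
      rw [e1', e2', mul_smul, mul_smul]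
      exact ⟨rfl, rfl⟩
  · rintro ⟨⟨h1, h2⟩, h3⟩
    exact ⟨⟨h1, h3⟩, blk_inp h2 h3⟩

theorem blk_Ns (hA : K.A ≤ (blk hcl x0 y0 h0).A) : K.Ns ≤ (blk hcl x0 y0 h0).Ns := by
  unfold PX.Ns
  apply SAF.oc_le_of_surj (blk hcl x0 y0 h0).PS_fin (fun v : BV K (mk K x0 y0) => v.1)
  · rintro v ⟨h1, g, i, j, rfl⟩
    obtain ⟨i', rfl⟩ := blk_I_surj hA i
    refine ⟨(blk hcl x0 y0 h0).pt i' j, ⟨?_, PX.VP_pt _ _⟩, g * (i'.g)⁻¹, ?_⟩
    · rintro a ⟨h2, -⟩
      have h3 : K.ar (i'.g • K.pt i'.1 j) a.1 := h2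
      have h4 := K.ar_smul (g * (i'.g)⁻¹) _ _ h3
      rw [← mul_smul, inv_mul_cancel_right] at h4
      exact h1 _ h4
    · show (g * (i'.g)⁻¹) • (i'.g • K.pt i'.1 j) = _
      rw [← mul_smul, inv_mul_cancel_right]
  · rintro a _ b _ ⟨s, e⟩
    exact ⟨s.1, congrArg Subtype.val e⟩

end PB

/-- THE BLOCK LEMMA: if `A` is minimal then there is a bad subgroup with a clean complex with
connected links, all of whose edges lie in pentagons, and with at least as good potentials -/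
theorem block_lemma {H V : Type} [Group H] [MulAction H V] (K : PX H V) {M : ℕ} (hM : Bd M H)
    (hb : ¬ SA H) (hcl : K.Clean) (hSA : ∀ (G : Type) [Group G], InC G → SA G)
    (hmin : PMinA M K.A) :
    ∃ (S : Subgroup H) (V' : Type) (_ : MulAction S V') (L : PX S V'), Bd M S ∧ ¬ SA S ∧
      L.Clean ∧ L.AllP ∧ L.LinkC ∧ L.A = K.A ∧ L.hg.bb ≤ K.hg.bb ∧ L.Ew = K.Ew ∧ K.Ns ≤ L.Ns := by
  obtain ⟨x0, y0, h0, hbad⟩ := PB.exists_bad_class hcl hSA hb
  have hBd : Bd M (stabilizer H (PB.mk K x0 y0)) := by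
    intro A hA
    have h1 := hM (A.map (stabilizer H (PB.mk K x0 y0)).subtype) (by
      exact Finite.of_equiv _ (Subgroup.equivMapOfInjective A _
        (stabilizer H (PB.mk K x0 y0)).subtype_injective).toEquiv)
    rwa [Nat.card_congr (Subgroup.equivMapOfInjective A _
        (stabilizer H (PB.mk K x0 y0)).subtype_injective).toEquiv.symm] at h1
  have hA : K.A ≤ (PB.blk hcl x0 y0 h0).A := hmin _ _ _ hBd hbad
  have hAM : (PB.blk hcl x0 y0 h0).AMin := by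
    intro V' _ K'
    exact PB.blk_A_le.trans (hmin _ _ K' hBd hbad)
  exact ⟨_, _, _, PB.blk hcl x0 y0 h0, hBd, hbad, PB.blk_clean hAM hSA hbad,
    PB.blk_allP hSA hbad, PB.blk_link, le_antisymm PB.blk_A_le hA, PB.blk_bb,
    PB.blk_Ew hA, PB.blk_Ns hA⟩

end Pool.Agent.BT
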