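import Pool.Agent.BT.PBase

/-!
# Pentagon complexes: enlarging the stabiliser of a soft vertex to the stabiliser of its pair of
poles
-/

namespace Pool.Agent.BT

open MulAction
open Pool.Agent.SAF (InC orbs FinOrb oc Decomp SAn SA)

section

variable {H V : Type} [Group H] [MulAction H V]

/-- the setwise stabiliser of a pair -/
def pst (a b : V) : Subgroup H where
  carrier := {g | (g • a = a ∧ g • b = b) ∨ (g • a = b ∧ g • b = a)}
  one_mem' := Or.inl ⟨one_smul _ _, one_smul _ _⟩
  mul_mem' := by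
    rintro g h (⟨a1, a2⟩ | ⟨a1, a2⟩) (⟨b1, b2⟩ | ⟨b1, b2⟩)
    · exact Or.inl ⟨by rw [mul_smul, b1, a1], by rw [mul_smul, b2, a2]⟩
    · exact Or.inr ⟨by rw [mul_smul, b1, a2], by rw [mul_smul, b2, a1]⟩
    · exact Or.inr ⟨by rw [mul_smul, b1, a1], by rw [mul_smul, b2, a2]⟩
    · exact Or.inl ⟨by rw [mul_smul, b1, a2], by rw [mul_smul, b2, a1]⟩
  inv_mem' := by
    rintro g (⟨a1, a2⟩ | ⟨a1, a2⟩)
    · exact Or.inl ⟨by rw [inv_smul_eq_iff, a1], by rw [inv_smul_eq_iff, a2]⟩
    · exact Or.inr ⟨by rw [inv_smul_eq_iff, a2], by rw [inv_smul_eq_iff, a1]⟩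

theorem mem_pst {a b : V} {g : H} :
    g ∈ pst (H := H) a b ↔ (g • a = a ∧ g • b = b) ∨ (g • a = b ∧ g • b = a) := Iff.rfl

theorem inC_fg {G : Type} [Group G] (h : InC G) : Group.FG G := by
  rcases h with h | ⟨g, _, hi⟩
  · infer_instance
  · have hq : Finite (G ⧸ Subgroup.zpowers g) := inferInstance
    rw [Group.fg_iff]
    refine ⟨{g} ∪ Set.range (fun q : G ⧸ Subgroup.zpowers g => Quotient.out q), ?_,
      (Set.finite_singleton g).union (Set.finite_range _)⟩
    rw [eq_top_iff]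
    intro x _
    have h1 : (QuotientGroup.mk (Quotient.out (QuotientGroup.mk x : G ⧸ Subgroup.zpowers g)) :
        G ⧸ Subgroup.zpowers g) = QuotientGroup.mk x := Quotient.out_eq' _
    rw [QuotientGroup.eq] at h1
    have h2 : Subgroup.zpowers g ≤ Subgroup.closure
        ({g} ∪ Set.range (fun q : G ⧸ Subgroup.zpowers g => Quotient.out q)) := by
      rw [Subgroup.zpowers_le]
      exact Subgroup.subset_closure (Or.inl rfl)
    have h3 := Subgroup.mul_mem _ (Subgroup.subset_closure (k := ({g} ∪ Set.range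
      (fun q : G ⧸ Subgroup.zpowers g => Quotient.out q)))
      (Or.inr ⟨(QuotientGroup.mk x : G ⧸ Subgroup.zpowers g), rfl⟩)) (h2 h1)
    simpa using h3

theorem pst_inC {a b : V} (ha : InC ↥(stabilizer H a)) : InC ↥(pst (H := H) a b) := by
  have h1 : InC ↥(stabilizer H a ⊓ pst (H := H) a b) := SAG.InC.mono inf_le_left ha
  have h2 : InC ↥((stabilizer H a).subgroupOf (pst (H := H) a b)) := by
    refine SAF.InC.iso ?_ h1
    exact
      { toFun := fun x => ⟨⟨x.1, x.2.2⟩, x.2.1⟩
        invFun := fun x => ⟨x.1.1, ⟨x.2, x.1.2⟩⟩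
        left_inv := fun _ => rfl
        right_inv := fun _ => rfl
        map_mul' := fun _ _ => rfl }
  refine SAG.InC.of_index _ h2 ?_
  have hs : (stabilizer H a).subgroupOf (pst (H := H) a b) =
      stabilizer ↥(pst (H := H) a b) a := by
    ext x
    rfl
  rw [hs]
  have hf : Finite ↑(orbit ↥(pst (H := H) a b) a) := by
    apply Set.Finite.to_subtype
    apply (Set.toFinite ({a, b} : Set V)).subset
    rintro _ ⟨⟨g, hg⟩, rfl⟩
    rcases mem_pst.1 hg with h | h
    · left; exact h.1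
    · right; exact h.1
  have hq : Finite (↥(pst (H := H) a b) ⧸ stabilizer ↥(pst (H := H) a b) a) :=
    Finite.of_equiv _ (orbitEquivQuotientStabilizer ↥(pst (H := H) a b) a)
  have : (stabilizer ↥(pst (H := H) a b) a).FiniteIndex := Subgroup.finiteIndex_of_finite_quotient
  exact this.index_ne_zero

end

namespace PX

variable {H V : Type} [Group H] [MulAction H V] (K : PX H V)

/-- a soft vertex with its pair of poles -/
structure Pol (s a b : V) : Prop where
  pa : K.ar s a
  pb : K.ar s b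
  ne : a ≠ b

variable {K}

theorem Pol.only {s a b : V} (p : K.Pol s a b) {c : V} (h : K.ar s c) : c = a ∨ c = b := by
  rcases K.two _ _ _ _ p.pa p.pb h with e | e | e
  · exact absurd e p.ne
  · exact Or.inr e.symm
  · exact Or.inl e.symm

theorem Pol.smul {s a b : V} (p : K.Pol s a b) (h : H) : K.Pol (h • s) (h • a) (h • b) :=
  ⟨K.ar_smul h _ _ p.pa, K.ar_smul h _ _ p.pb, fun e => p.ne (smul_left_cancel h e)⟩

theorem Pol.st_le {s a b : V} (p : K.Pol s a b) : stabilizer H s ≤ pst a b := by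
  intro h hh
  rw [mem_stabilizer_iff] at hh
  have p' := p.smul h
  rw [hh] at p'
  rw [mem_pst]
  rcases p.only p'.pa with e1 | e1 <;> rcases p.only p'.pb with e2 | e2
  · exact absurd (smul_left_cancel h (e1.trans e2.symm)) p.ne
  · exact Or.inl ⟨e1, e2⟩
  · exact Or.inr ⟨e1, e2⟩
  · exact absurd (smul_left_cancel h (e1.trans e2.symm)) p.ne

variable (H) in
/-- the enlarged vertex set -/
def EV (s a b : V) : Type := {v : V // ∀ h : H, h • s ≠ v} ⊕ (H ⧸ pst (H := H) a b)

instance EV.act (s a b : V) : MulAction H (EV H s a b) where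
  smul k v := match v with
    | Sum.inl v => Sum.inl ⟨k • v.1, fun h e => v.2 (k⁻¹ * h) (by rw [mul_smul, e, inv_smul_smul])⟩
    | Sum.inr q => Sum.inr (k • q)
  one_smul v := by
    rcases v with v | q
    · exact congrArg Sum.inl (Subtype.ext (one_smul H v.1))
    · exact congrArg Sum.inr (one_smul H q)
  mul_smul k l v := by
    rcases v with v | q
    · exact congrArg Sum.inl (Subtype.ext (mul_smul k l v.1))
    · exact congrArg Sum.inr (mul_smul k l q)

variable (H) in
/-- old vertices -/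
def ein {s : V} (a b : V) (v : V) (hv : ∀ h : H, h • s ≠ v) : EV H s a b := Sum.inl ⟨v, hv⟩

variable (H) in
/-- new vertices -/
def enw (s a b : V) (q : H ⧸ pst (H := H) a b) : EV H s a b := Sum.inr q

theorem ein_inj {s a b v w : V} {hv : ∀ h : H, h • s ≠ v} {hw : ∀ h : H, h • s ≠ w}
    (e : ein H a b v hv = ein H a b w hw) : v = w :=
  congrArg Subtype.val (Sum.inl_injective e)

theorem enw_inj {s a b : V} {q q' : H ⧸ pst (H := H) a b} (e : enw H s a b q = enw H s a b q') :
    q = q' := Sum.inr_injective e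

theorem ein_ne {s a b v : V} {hv : ∀ h : H, h • s ≠ v} {q : H ⧸ pst (H := H) a b} :
    ein H a b v hv ≠ enw H s a b q := by
  intro e
  exact Sum.inl_ne_inr e

open Classical in
/-- the map to the enlarged vertex set -/
noncomputable def ef (s a b : V) (v : V) : EV H s a b :=
  if h : ∃ h : H, h • s = v then enw H s a b (QuotientGroup.mk h.choose)
  else ein H a b v (fun k e => h ⟨k, e⟩)

theorem Pol.ef_s {s a b : V} (p : K.Pol s a b) (h : H) :
    ef (H := H) s a b (h • s) = enw H s a b (QuotientGroup.mk h) := by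
  have hex : ∃ k : H, k • s = h • s := ⟨h, rfl⟩
  unfold ef
  rw [dif_pos hex]
  congr 1
  rw [QuotientGroup.eq]
  apply p.st_le
  rw [mem_stabilizer_iff, mul_smul, inv_smul_eq_iff]
  exact hex.choose_spec.symm

theorem ef_of {s a b v : V} (hv : ∀ h : H, h • s ≠ v) :
    ef (H := H) s a b v = ein H a b v hv := by
  unfold ef
  rw [dif_neg]
  rintro ⟨h, e⟩
  exact hv h e

theorem Pol.ef_cases {s a b : V} (p : K.Pol s a b) (v : V) :
    (∃ k : H, v = k • s ∧ ef (H := H) s a b v = enw H s a b (QuotientGroup.mk k)) ∨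
      ∃ hv : ∀ k : H, k • s ≠ v, ef (H := H) s a b v = ein H a b v hv := by
  by_cases hv : ∃ k : H, k • s = v
  · obtain ⟨k, rfl⟩ := hv
    exact Or.inl ⟨k, rfl, p.ef_s k⟩
  · push Not at hv
    exact Or.inr ⟨hv, ef_of hv⟩

theorem Pol.ef_smul {s a b : V} (p : K.Pol s a b) (h : H) (v : V) :
    ef (H := H) s a b (h • v) = h • ef (H := H) s a b v := by
  rcases p.ef_cases v with ⟨k, rfl, e⟩ | ⟨hv, e⟩
  · rw [← mul_smul, p.ef_s, p.ef_s]
    rfl
  · rw [e]
    have hv' : ∀ k : H, k • s ≠ h • v := by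
      intro k e
      apply hv (h⁻¹ * k)
      rw [mul_smul, e, inv_smul_smul]
    rw [ef_of hv']
    rfl

theorem Pol.ef_surj {s a b : V} (p : K.Pol s a b) :
    Function.Surjective (ef (H := H) s a b) := by
  rintro (⟨v, hv⟩ | q)
  · exact ⟨v, ef_of hv⟩
  · obtain ⟨k, rfl⟩ := QuotientGroup.mk_surjective q
    exact ⟨k • s, p.ef_s k⟩

/-- poles of the enlarged complex -/
def ear (K : PX H V) (s a b : V) (c d : EV H s a b) : Prop :=
  ∃ v w, K.ar v w ∧ ef (H := H) s a b v = c ∧ ef (H := H) s a b w = d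

theorem Pol.ef_inj {s a b : V} (p : K.Pol s a b) {v w : V}
    (e : ef (H := H) s a b v = ef (H := H) s a b w) :
    v = w ∨ ∃ k l : H, v = k • s ∧ w = l • s ∧ k⁻¹ * l ∈ pst (H := H) a b := by
  rcases p.ef_cases v with ⟨k, rfl, e1⟩ | ⟨hv, e1⟩ <;>
    rcases p.ef_cases w with ⟨l, rfl, e2⟩ | ⟨hw, e2⟩ <;> rw [e1, e2] at e
  · right
    refine ⟨k, l, rfl, rfl, ?_⟩
    have := enw_inj e
    rwa [QuotientGroup.eq] at this
  · exact absurd e.symm ein_ne
  · exact absurd e ein_ne
  · left
    exact ein_inj e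

theorem Pol.rk_eq {s a b : V} (p : K.Pol s a b) {v w : V}
    (e : ef (H := H) s a b v = ef (H := H) s a b w) : K.rk v = K.rk w := by
  rcases p.ef_inj e with rfl | ⟨k, l, rfl, rfl, -⟩
  · rfl
  · rw [K.rk_smul, K.rk_smul]

theorem Pol.mg {s a b : V} (p : K.Pol s a b) {v w : V}
    (e : ef (H := H) s a b v = ef (H := H) s a b w) : Mg K.hg (ef (H := H) s a b) v w := by
  rcases p.ef_inj e with rfl | ⟨k, l, rfl, rfl, h⟩
  · exact Mg.refl _
  · have h1 : l = k * (k⁻¹ * l) := by group
    have h2 : Mg K.hg (ef (H := H) s a b) s ((k⁻¹ * l) • s) := by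
      have e' : ef (H := H) s a b s = ef (H := H) s a b ((k⁻¹ * l) • s) := by
        have h3 := p.ef_s 1
        rw [one_smul] at h3
        rw [h3, p.ef_s]
        congr 1
        rw [QuotientGroup.eq]
        simpa using h
      refine Mg.nb _ _ a a e' (Mg.refl a) (Or.inr p.pa) ?_
      show K.E a ((k⁻¹ * l) • s)
      have p' := p.smul (k⁻¹ * l)
      rcases mem_pst.1 h with ⟨h4, h5⟩ | ⟨h4, h5⟩
      · right
        have := p'.pa
        rwa [h4] at this
      · right
        have := p'.pb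
        rwa [h5] at this
    have h3 := Mg.smul k _ _ h2
    rw [← mul_smul, ← h1] at h3
    exact h3

theorem Pol.ear_iff {s a b : V} (p : K.Pol s a b) {v : V} {d : EV H s a b} :
    ear K s a b (ef (H := H) s a b v) d ↔ ∃ w, K.ar v w ∧ ef (H := H) s a b w = d := by
  constructor
  · rintro ⟨v', w, h, e1, e2⟩
    rcases p.ef_inj e1 with rfl | ⟨k, l, rfl, rfl, hkl⟩
    · exact ⟨w, h, e2⟩
    · -- same pair of poles
      refine ⟨w, ?_, e2⟩
      have h1 : K.ar s (k⁻¹ • w) := by
        have := K.ar_smul k⁻¹ _ _ h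
        rwa [inv_smul_smul] at this
      have p' := p.smul l
      have hk : ∀ c : V, k⁻¹ • w = c → w = k • c := fun c hc => by rw [← hc, smul_inv_smul]
      have hm : (l⁻¹ * k) ∈ pst (H := H) a b := by
        have := (pst (H := H) a b).inv_mem hkl
        have e : (k⁻¹ * l)⁻¹ = l⁻¹ * k := by group
        rwa [e] at this
      have hl : ∀ c d : V, (l⁻¹ * k) • c = d → k • c = l • d := fun c d hc => by
        rw [← hc, ← mul_smul]
        congr 1
        group
      rcases p.only h1 with e | e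
      · rw [hk _ e]
        rcases mem_pst.1 hm with ⟨m1, m2⟩ | ⟨m1, m2⟩
        · rw [hl _ _ m1]; exact p'.pa
        · rw [hl _ _ m1]; exact p'.pb
      · rw [hk _ e]
        rcases mem_pst.1 hm with ⟨m1, m2⟩ | ⟨m1, m2⟩
        · rw [hl _ _ m2]; exact p'.pb
        · rw [hl _ _ m2]; exact p'.pa
  · rintro ⟨w, h, e⟩
    exact ⟨v, w, h, rfl, e⟩

/-- the quotient data of an enlargement -/
noncomputable def Pol.qd {s a b : V} (p : K.Pol s a b) : QD K (ef (H := H) s a b) where
  ar := ear K s a b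
  rk c := K.rk (p.ef_surj c).choose
  equi := p.ef_smul
  surj := p.ef_surj
  ar_rk := by
    rintro _ _ ⟨v, w, h, rfl, rfl⟩
    rw [p.rk_eq (p.ef_surj (ef (H := H) s a b v)).choose_spec,
      p.rk_eq (p.ef_surj (ef (H := H) s a b w)).choose_spec]
    exact K.ar_rk _ _ h
  ar_smul := by
    rintro h _ _ ⟨v, w, e, rfl, rfl⟩
    exact ⟨h • v, h • w, K.ar_smul h _ _ e, p.ef_smul h v, p.ef_smul h w⟩
  rk_smul := by
    intro h c
    have h1 := (p.ef_surj (h • c)).choose_spec
    have h2 := (p.ef_surj c).choose_spec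
    have h3 : ef (H := H) s a b (p.ef_surj (h • c)).choose =
        ef (H := H) s a b (h • (p.ef_surj c).choose) := by
      rw [h1, p.ef_smul, h2]
    rw [p.rk_eq h3, K.rk_smul]
  two := by
    intro c d1 d2 d3 h1 h2 h3
    obtain ⟨v, rfl⟩ := p.ef_surj c
    rw [p.ear_iff] at h1 h2 h3
    obtain ⟨w1, g1, rfl⟩ := h1
    obtain ⟨w2, g2, rfl⟩ := h2
    obtain ⟨w3, g3, rfl⟩ := h3
    rcases K.two _ _ _ _ g1 g2 g3 with e | e | e
    · left; rw [e]
    · right; left; rw [e]
    · right; right; rw [e]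
  e1 := by
    rintro v w (h | h)
    · exact Or.inr (Or.inl ⟨v, w, h, rfl, rfl⟩)
    · exact Or.inr (Or.inr ⟨w, v, h, rfl, rfl⟩)
  e2 := by
    rintro _ _ (⟨v, w, h, rfl, rfl⟩ | ⟨v, w, h, rfl, rfl⟩)
    · exact ⟨v, w, Or.inl h, rfl, rfl⟩
    · exact ⟨w, v, Or.inr h, rfl, rfl⟩
  mg := fun _ _ e => p.mg e
  stab := by
    have k1 : ∀ v (hv : ∀ h : H, h • s ≠ v), stabilizer H (ein H a b v hv) = stabilizer H v := by
      intro v hv
      ext h
      rw [mem_stabilizer_iff, mem_stabilizer_iff]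
      have h1 : h • ein H a b v hv = ein H a b (h • v) (fun k e => hv (h⁻¹ * k) (by
        rw [mul_smul, e, inv_smul_smul])) := rfl
      rw [h1]
      constructor
      · intro e
        exact ein_inj e
      · intro e
        exact congrArg Sum.inl (Subtype.ext e)
    have k2 : ∀ k : H, stabilizer H (enw H s a b (QuotientGroup.mk k)) =
        pst (H := H) (k • a) (k • b) := by
      intro k
      ext h
      rw [mem_stabilizer_iff]
      have h1 : h • enw H s a b (QuotientGroup.mk k) = enw H s a b (QuotientGroup.mk (h * k)) := rfl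
      rw [h1]
      have h2 : enw H s a b (QuotientGroup.mk (h * k)) = enw H s a b (QuotientGroup.mk k) ↔
          (QuotientGroup.mk (h * k) : H ⧸ pst (H := H) a b) = QuotientGroup.mk k :=
        ⟨fun e => enw_inj e, fun e => by rw [e]⟩
      rw [h2, eq_comm, QuotientGroup.eq, mem_pst, mem_pst]
      have h3 : ∀ c d : V, (k⁻¹ * (h * k)) • c = d ↔ h • k • c = k • d := by
        intro c d
        rw [mul_smul, mul_smul, inv_smul_eq_iff]
      rw [h3, h3, h3, h3]
    rintro (⟨v, hv⟩ | q)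
    · show InC ↥(stabilizer H (ein H a b v hv))
      rw [k1]
      exact K.stab _
    · obtain ⟨k, rfl⟩ := QuotientGroup.mk_surjective q
      show InC ↥(stabilizer H (enw H s a b (QuotientGroup.mk k)))
      rw [k2]
      exact pst_inC (K.stab _)

theorem Pol.oc_eq {s a b : V} (p : K.Pol s a b) :
    oc H (Set.univ : Set (EV H s a b)) ≤ oc H (Set.univ : Set V) := by
  apply SAF.oc_le_of_surj K.fin (ef (H := H) s a b)
  · intro c _
    obtain ⟨v, rfl⟩ := p.ef_surj c
    exact ⟨v, trivial, 1, one_smul _ _⟩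
  · rintro v _ _ _ ⟨h, rfl⟩
    exact ⟨h, (p.ef_smul h v).symm⟩

theorem Pol.rk_ef {s a b : V} (p : K.Pol s a b) (v : V) :
    p.qd.px.rk (ef (H := H) s a b v) = K.rk v :=
  p.rk_eq (p.ef_surj (ef (H := H) s a b v)).choose_spec

theorem Pol.ar_ef {s a b : V} (p : K.Pol s a b) {v : V} {d : EV H s a b} :
    p.qd.px.ar (ef (H := H) s a b v) d ↔ ∃ w, K.ar v w ∧ ef (H := H) s a b w = d := p.ear_iff

theorem Pol.sink_ef {s a b : V} (p : K.Pol s a b) {v : V} :
    p.qd.px.Sink (ef (H := H) s a b v) ↔ K.Sink v := by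
  constructor
  · intro h w hw
    exact h _ (p.ar_ef.2 ⟨w, hw, rfl⟩)
  · intro h d hd
    obtain ⟨w, hw, -⟩ := p.ar_ef.1 hd
    exact h w hw

theorem Pol.inj_sink {s a b : V} (p : K.Pol s a b) {v w : V} (hv : K.Sink v)
    (e : ef (H := H) s a b v = ef (H := H) s a b w) : v = w := by
  rcases p.ef_inj e with e | ⟨k, l, rfl, rfl, -⟩
  · exact e
  · exact absurd (K.ar_smul k _ _ p.pa) (hv _)

end PX

end Pool.Agent.BT
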