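import Pool.Agent.BT.PX
import Pool.Agent.SAF.ARips

namespace Pool.Agent.BT

open MulAction
open Pool.Agent.SAF (InC orbs FinOrb oc Decomp SAn SA)

/-- vertices -/
structure RV (G : Type) (B : Set G) where
  g : G
  o : Option (B ⊕ B × B)

namespace RV

variable {G : Type} [Group G] {B : Set G}

instance : MulAction G (RV G B) where
  smul h v := ⟨h * v.g, v.o⟩
  one_smul v := by
    show (⟨1 * v.g, v.o⟩ : RV G B) = v
    rw [one_mul]
  mul_smul a b v := by
    show (⟨a * b * v.g, v.o⟩ : RV G B) = ⟨a * (b * v.g), v.o⟩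
    rw [mul_assoc]

theorem smul_def (h : G) (v : RV G B) : h • v = ⟨h * v.g, v.o⟩ := rfl

/-- poles -/
def ar (v a : RV G B) : Prop :=
  (∃ s : B, v.o = some (Sum.inl s) ∧ a.o = none ∧ (a.g = v.g ∨ a.g = v.g * s)) ∨
  (∃ s t : B, v.o = some (Sum.inr (s, t)) ∧
    ((a.o = none ∧ a.g = v.g) ∨ (a.o = some (Sum.inl t) ∧ a.g = v.g * s)))

/-- rank -/
def rk (v : RV G B) : ℕ :=
  match v.o with
  | none => 0
  | some (Sum.inl _) => 1
  | some (Sum.inr _) => 2

theorem ar_cases {v a : RV G B} (h : ar v a) :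
    (∃ (x : G) (s : B), v = ⟨x, some (Sum.inl s)⟩ ∧ (a = ⟨x, none⟩ ∨ a = ⟨x * s, none⟩)) ∨
    (∃ (x : G) (s t : B), v = ⟨x, some (Sum.inr (s, t))⟩ ∧
      (a = ⟨x, none⟩ ∨ a = ⟨x * s, some (Sum.inl t)⟩)) := by
  obtain ⟨x, o⟩ := v
  obtain ⟨y, p⟩ := a
  rcases h with ⟨s, h1, h2, h3⟩ | ⟨s, t, h1, h2⟩
  · left
    refine ⟨x, s, ?_, ?_⟩
    · rw [← h1]
    · simp only at h2 h3
      subst h2
      rcases h3 with h3 | h3
      · left; rw [h3]
      · right; rw [h3]
  · right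
    refine ⟨x, s, t, ?_, ?_⟩
    · rw [← h1]
    · simp only at h2
      rcases h2 with ⟨h2, h3⟩ | ⟨h2, h3⟩
      · left; rw [h2, h3]
      · right; rw [h2, h3]

theorem ar1 (x : G) (s : B) : ar (⟨x, some (Sum.inl s)⟩ : RV G B) ⟨x, none⟩ :=
  Or.inl ⟨s, rfl, rfl, Or.inl rfl⟩

theorem ar2 (x : G) (s : B) : ar (⟨x, some (Sum.inl s)⟩ : RV G B) ⟨x * s, none⟩ :=
  Or.inl ⟨s, rfl, rfl, Or.inr rfl⟩

theorem ar3 (x : G) (s t : B) : ar (⟨x, some (Sum.inr (s, t))⟩ : RV G B) ⟨x, none⟩ :=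
  Or.inr ⟨s, t, rfl, Or.inl ⟨rfl, rfl⟩⟩

theorem ar4 (x : G) (s t : B) : ar (⟨x, some (Sum.inr (s, t))⟩ : RV G B)
    ⟨x * s, some (Sum.inl t)⟩ :=
  Or.inr ⟨s, t, rfl, Or.inr ⟨rfl, rfl⟩⟩

end RV


theorem RV.o_ne {G : Type} {B : Set G} {x y : G} {o o' : Option (B ⊕ B × B)} (h : o ≠ o') :
    (⟨x, o⟩ : RV G B) ≠ ⟨y, o'⟩ := fun e => h (congrArg RV.o e)

open RV in
/-- every finitely presented group has a pentagon complex -/
theorem exists_PX (G : Type) [Group G] [Group.IsFinitelyPresented G] :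
    ∃ (V : Type) (_ : MulAction G V), Nonempty (PX G V) := by
  obtain ⟨B, hfin, h1, hinv, hconn, hH⟩ := SAF.exists_rips G
  have hBf : Finite B := hfin
  refine ⟨RV G B, inferInstance, ⟨
    { ar := RV.ar
      rk := RV.rk
      I := (B × B) ⊕ {p : B × B // (p.1 : G) * p.2 ∈ B}
      finI := inferInstance
      pt := fun p => match p with
        | Sum.inl (s, t) => ![⟨1, some (Sum.inr (s, t))⟩, ⟨1, none⟩, ⟨1, some (Sum.inl s)⟩,
            ⟨s, none⟩, ⟨s, some (Sum.inl t)⟩]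
        | Sum.inr ⟨(s, t), h⟩ => ![⟨1, some (Sum.inr (s, t))⟩, ⟨s, some (Sum.inl t)⟩,
            ⟨s * t, none⟩, ⟨1, some (Sum.inl ⟨s * t, h⟩)⟩, ⟨1, none⟩]
      ar_rk := ?_
      ar_smul := ?_
      rk_smul := fun h v => rfl
      two := ?_
      pt_E := ?_
      ne := ⟨⟨1, none⟩⟩
      conn := ?_
      H1 := ?_
      fin := ?_
      stab := ?_ }⟩⟩
  · intro v a h
    rcases ar_cases h with ⟨x, s, rfl, rfl | rfl⟩ | ⟨x, s, t, rfl, rfl | rfl⟩ <;> simp [RV.rk]
  · intro h v a e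
    rcases ar_cases e with ⟨x, s, rfl, rfl | rfl⟩ | ⟨x, s, t, rfl, rfl | rfl⟩
    · exact ar1 _ _
    · rw [smul_def, smul_def]
      simp only [← mul_assoc]
      exact ar2 _ _
    · exact ar3 _ _ _
    · rw [smul_def, smul_def]
      simp only [← mul_assoc]
      exact ar4 _ _ _
  · intro v a b c ha hb hc
    rcases ar_cases ha with ⟨x, s, rfl, pa⟩ | ⟨x, s, t, rfl, pa⟩
    · rcases ar_cases hb with ⟨x', s', e, pb⟩ | ⟨x', s', t', e, pb⟩
      · rcases ar_cases hc with ⟨x'', s'', e', pc⟩ | ⟨x'', s'', t'', e', pc⟩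
        · simp only [RV.mk.injEq, Option.some.injEq, Sum.inl.injEq] at e e'
          obtain ⟨rfl, rfl⟩ := e
          obtain ⟨rfl, rfl⟩ := e'
          clear ha hb hc
          rcases pa with rfl | rfl <;> rcases pb with rfl | rfl <;> rcases pc with rfl | rfl <;>
            simp
        · simp at e'
      · simp at e
    · rcases ar_cases hb with ⟨x', s', e, pb⟩ | ⟨x', s', t', e, pb⟩
      · simp at e
      · rcases ar_cases hc with ⟨x'', s'', e', pc⟩ | ⟨x'', s'', t'', e', pc⟩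
        · simp at e'
        · simp only [RV.mk.injEq, Option.some.injEq, Sum.inr.injEq, Prod.mk.injEq] at e e'
          obtain ⟨rfl, rfl, rfl⟩ := e
          obtain ⟨rfl, rfl, rfl⟩ := e'
          clear ha hb hc
          rcases pa with rfl | rfl <;> rcases pb with rfl | rfl <;> rcases pc with rfl | rfl <;>
            simp
  · rintro (⟨s, t⟩ | ⟨⟨s, t⟩, h⟩) j
    · fin_cases j
      · left; exact ar3 _ _ _
      · right; exact ar1 _ _
      · left; exact by simpa using ar2 (1 : G) s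
      · right; exact ar1 _ _
      · right; exact by simpa using ar4 (1 : G) s t
    · fin_cases j
      · left; exact by simpa using ar4 (1 : G) s t
      · left; exact ar2 (s : G) t
      · right; exact by simpa using ar2 (1 : G) (⟨s * t, h⟩ : B)
      · left; exact ar1 _ _
      · right; exact ar3 _ _ _
  · -- connected
    have hsym : ∀ x y : RV G B, Relation.ReflTransGen (fun a b => RV.ar a b ∨ RV.ar b a) x y →
        Relation.ReflTransGen (fun a b => RV.ar a b ∨ RV.ar b a) y x := by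
      intro x y h
      induction h with
      | refl => exact Relation.ReflTransGen.refl
      | tail _ e ih => exact Relation.ReflTransGen.head e.symm ih
    have hb : ∀ x y : G, Relation.ReflTransGen (fun a b => RV.ar a b ∨ RV.ar b a)
        (⟨x, none⟩ : RV G B) ⟨y, none⟩ := by
      intro x y
      have := hconn x y
      induction this with
      | refl => exact Relation.ReflTransGen.refl
      | @tail b c _ e ih =>
        have h2 := ar2 b (⟨b⁻¹ * c, e⟩ : B)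
        simp only [mul_inv_cancel_left] at h2
        exact (ih.tail (Or.inr (ar1 b ⟨b⁻¹ * c, e⟩))).tail (Or.inl h2)
    have hc : ∀ v : RV G B, ∃ x : G, Relation.ReflTransGen (fun a b => RV.ar a b ∨ RV.ar b a)
        v ⟨x, none⟩ := by
      rintro ⟨x, _ | s | ⟨s, t⟩⟩
      · exact ⟨x, Relation.ReflTransGen.refl⟩
      · exact ⟨x, Relation.ReflTransGen.single (Or.inl (ar1 _ _))⟩
      · exact ⟨x, Relation.ReflTransGen.single (Or.inl (ar3 _ _ _))⟩
    intro v w
    obtain ⟨x, hx⟩ := hc v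
    obtain ⟨y, hy⟩ := hc w
    exact (hx.trans (hb x y)).trans (hsym _ _ hy)
  · -- cohomology
    intro φ hs h4 _ hp
    classical
    let c : G → G → ZMod 2 := fun x y => if h : x⁻¹ * y ∈ B then
      φ ⟨x, none⟩ ⟨x, some (Sum.inl ⟨x⁻¹ * y, h⟩)⟩ +
        φ ⟨x, some (Sum.inl ⟨x⁻¹ * y, h⟩)⟩ ⟨y, none⟩ else 0
    have hc : ∀ (x : G) (s : B), c x (x * s) = φ ⟨x, none⟩ ⟨x, some (Sum.inl s)⟩ +
        φ ⟨x, some (Sum.inl s)⟩ ⟨x * s, none⟩ := by
      intro x s
      have h : x⁻¹ * (x * s) = s := by group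
      have h' : x⁻¹ * (x * s) ∈ B := by rw [h]; exact s.2
      have h'' : (⟨x⁻¹ * (x * s), h'⟩ : B) = s := Subtype.ext h
      show (if h : x⁻¹ * (x * s) ∈ B then _ else _) = _
      rw [dif_pos h', h'']
    have hz : ∀ a b c d : ZMod 2, a + b + c + d = 0 → a + b = c + d := by decide
    have hcs : ∀ x y, c x y = c y x := by
      intro x y
      by_cases h : x⁻¹ * y ∈ B
      · have h' : y⁻¹ * x ∈ B := by
          have := hinv _ h
          rwa [mul_inv_rev, inv_inv] at this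
        have e1 := hc x ⟨x⁻¹ * y, h⟩
        have e2 := hc y ⟨y⁻¹ * x, h'⟩
        simp only [mul_inv_cancel_left] at e1 e2
        rw [e1, e2]
        apply hz
        have a1 := ar1 x (⟨x⁻¹ * y, h⟩ : B)
        have a2 := ar2 x (⟨x⁻¹ * y, h⟩ : B)
        have a3 := ar1 y (⟨y⁻¹ * x, h'⟩ : B)
        have a4 := ar2 y (⟨y⁻¹ * x, h'⟩ : B)
        simp only [mul_inv_cancel_left] at a2 a4
        exact h4 _ _ _ _ (Or.inr a1) (Or.inl a2) (Or.inr a3) (Or.inl a4)
      · have h' : ¬ y⁻¹ * x ∈ B := by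
          intro h'
          have := hinv _ h'
          rw [mul_inv_rev, inv_inv] at this
          exact h this
        show (if h : x⁻¹ * y ∈ B then _ else _) = (if h : y⁻¹ * x ∈ B then _ else _)
        rw [dif_neg h, dif_neg h']
    have hct : ∀ (x : G) (s t : B) (h : (s : G) * t ∈ B),
        c x (x * s) + c (x * s) (x * s * t) + c x (x * s * t) = 0 := by
      intro x s t h
      have e1 := hc x s
      have e2 := hc (x * s) t
      have e3 := hc x ⟨s * t, h⟩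
      simp only [← mul_assoc] at e3
      rw [e1, e2, e3]
      have p1 : φ ⟨x * 1, some (Sum.inr (s, t))⟩ ⟨x * 1, none⟩ +
          φ ⟨x * 1, none⟩ ⟨x * 1, some (Sum.inl s)⟩ +
          φ ⟨x * 1, some (Sum.inl s)⟩ ⟨x * s, none⟩ +
          φ ⟨x * s, none⟩ ⟨x * s, some (Sum.inl t)⟩ +
          φ ⟨x * s, some (Sum.inl t)⟩ ⟨x * 1, some (Sum.inr (s, t))⟩ = 0 := by
        have := hp (Sum.inl (s, t)) x
        rw [Fin.sum_univ_five] at this
        exact this
      have p2 : φ ⟨x * 1, some (Sum.inr (s, t))⟩ ⟨x * s, some (Sum.inl t)⟩ +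
          φ ⟨x * s, some (Sum.inl t)⟩ ⟨x * (s * t), none⟩ +
          φ ⟨x * (s * t), none⟩ ⟨x * 1, some (Sum.inl ⟨s * t, h⟩)⟩ +
          φ ⟨x * 1, some (Sum.inl ⟨s * t, h⟩)⟩ ⟨x * 1, none⟩ +
          φ ⟨x * 1, none⟩ ⟨x * 1, some (Sum.inr (s, t))⟩ = 0 := by
        have := hp (Sum.inr ⟨(s, t), h⟩) x
        rw [Fin.sum_univ_five] at this
        exact this
      simp only [mul_one, ← mul_assoc] at p1 p2
      rw [hs ⟨x * s, some (Sum.inl t)⟩ ⟨x, some (Sum.inr (s, t))⟩] at p1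
      rw [hs ⟨x * s * t, none⟩ ⟨x, some (Sum.inl ⟨s * t, h⟩)⟩,
        hs ⟨x, some (Sum.inl ⟨s * t, h⟩)⟩ ⟨x, none⟩,
        hs ⟨x, none⟩ ⟨x, some (Sum.inr (s, t))⟩] at p2
      generalize φ ⟨x, some (Sum.inr (s, t))⟩ ⟨x, none⟩ = a1 at *
      generalize φ ⟨x, none⟩ ⟨x, some (Sum.inl s)⟩ = a2 at *
      generalize φ ⟨x, some (Sum.inl s)⟩ ⟨x * s, none⟩ = a3 at *
      generalize φ ⟨x * s, none⟩ ⟨x * s, some (Sum.inl t)⟩ = a4 at *
      generalize φ ⟨x, some (Sum.inr (s, t))⟩ ⟨x * s, some (Sum.inl t)⟩ = a5 at *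
      generalize φ ⟨x * s, some (Sum.inl t)⟩ ⟨x * s * t, none⟩ = a6 at *
      generalize φ ⟨x, some (Sum.inl ⟨s * t, h⟩)⟩ ⟨x * s * t, none⟩ = a7 at *
      generalize φ ⟨x, none⟩ ⟨x, some (Sum.inl ⟨s * t, h⟩)⟩ = a8 at *
      clear * - p1 p2
      revert a1 a2 a3 a4 a5 a6 a7 a8
      decide
    obtain ⟨f, hf⟩ := hH c hcs (by
      intro x y z hxy hyz hxz
      have e := hct x ⟨x⁻¹ * y, hxy⟩ ⟨y⁻¹ * z, hyz⟩ (by
        have : x⁻¹ * y * (y⁻¹ * z) = x⁻¹ * z := by group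
        show x⁻¹ * y * (y⁻¹ * z) ∈ B
        rw [this]; exact hxz)
      simp only [mul_inv_cancel_left] at e
      exact e)
    have hf' : ∀ (x : G) (s : B), φ ⟨x, none⟩ ⟨x, some (Sum.inl s)⟩ +
        φ ⟨x, some (Sum.inl s)⟩ ⟨x * s, none⟩ = f x + f (x * s) := by
      intro x s
      rw [← hc]
      apply hf
      have : x⁻¹ * (x * s) = s := by group
      rw [this]; exact s.2
    let g : RV G B → ZMod 2 := fun v => match v with
      | ⟨x, none⟩ => f x
      | ⟨x, some (Sum.inl s)⟩ => f x + φ ⟨x, none⟩ ⟨x, some (Sum.inl s)⟩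
      | ⟨x, some (Sum.inr p)⟩ => f x + φ ⟨x, none⟩ ⟨x, some (Sum.inr p)⟩
    have key : ∀ v a : RV G B, RV.ar v a → φ v a = g v + g a := by
      intro v a e
      rcases ar_cases e with ⟨x, s, rfl, rfl | rfl⟩ | ⟨x, s, t, rfl, rfl | rfl⟩
      · show _ = (f x + φ ⟨x, none⟩ ⟨x, some (Sum.inl s)⟩) + f x
        rw [hs ⟨x, some (Sum.inl s)⟩ ⟨x, none⟩]
        generalize φ ⟨x, none⟩ ⟨x, some (Sum.inl s)⟩ = a1
        generalize f x = a2
        clear * -
        revert a1 a2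
        decide
      · show _ = (f x + φ ⟨x, none⟩ ⟨x, some (Sum.inl s)⟩) + f (x * s)
        have := hf' x s
        generalize φ ⟨x, none⟩ ⟨x, some (Sum.inl s)⟩ = a1 at *
        generalize φ ⟨x, some (Sum.inl s)⟩ ⟨x * s, none⟩ = a2 at *
        generalize f x = a3 at *
        generalize f (x * s) = a4 at *
        clear * - this
        revert a1 a2 a3 a4
        decide
      · show _ = (f x + φ ⟨x, none⟩ ⟨x, some (Sum.inr (s, t))⟩) + f x
        rw [hs ⟨x, some (Sum.inr (s, t))⟩ ⟨x, none⟩]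
        generalize φ ⟨x, none⟩ ⟨x, some (Sum.inr (s, t))⟩ = a1
        generalize f x = a2
        clear * -
        revert a1 a2
        decide
      · show _ = (f x + φ ⟨x, none⟩ ⟨x, some (Sum.inr (s, t))⟩) +
          (f (x * s) + φ ⟨x * s, none⟩ ⟨x * s, some (Sum.inl t)⟩)
        have p1 : φ ⟨x * 1, some (Sum.inr (s, t))⟩ ⟨x * 1, none⟩ +
            φ ⟨x * 1, none⟩ ⟨x * 1, some (Sum.inl s)⟩ +
            φ ⟨x * 1, some (Sum.inl s)⟩ ⟨x * s, none⟩ +
            φ ⟨x * s, none⟩ ⟨x * s, some (Sum.inl t)⟩ +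
            φ ⟨x * s, some (Sum.inl t)⟩ ⟨x * 1, some (Sum.inr (s, t))⟩ = 0 := by
          have := hp (Sum.inl (s, t)) x
          rw [Fin.sum_univ_five] at this
          exact this
        simp only [mul_one] at p1
        have p3 := hf' x s
        rw [hs ⟨x * s, some (Sum.inl t)⟩ ⟨x, some (Sum.inr (s, t))⟩,
          hs ⟨x, some (Sum.inr (s, t))⟩ ⟨x, none⟩] at p1
        generalize φ ⟨x, none⟩ ⟨x, some (Sum.inr (s, t))⟩ = a1 at *
        generalize φ ⟨x, none⟩ ⟨x, some (Sum.inl s)⟩ = a2 at *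
        generalize φ ⟨x, some (Sum.inl s)⟩ ⟨x * s, none⟩ = a3 at *
        generalize φ ⟨x * s, none⟩ ⟨x * s, some (Sum.inl t)⟩ = a4 at *
        generalize φ ⟨x, some (Sum.inr (s, t))⟩ ⟨x * s, some (Sum.inl t)⟩ = a5 at *
        generalize f x = a6 at *
        generalize f (x * s) = a7 at *
        clear * - p1 p3
        revert a1 a2 a3 a4 a5 a6 a7
        decide
    refine ⟨g, ?_⟩
    intro x y e
    rcases e with e | e
    · exact key x y e
    · rw [hs, key y x e, add_comm]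
  · rw [SAF.FinOrb_iff]
    refine ⟨Set.range (fun o : Option (B ⊕ B × B) => (⟨1, o⟩ : RV G B)), Set.finite_range _,
      Set.subset_univ _, ?_⟩
    rintro ⟨x, o⟩ _
    refine ⟨_, ⟨o, rfl⟩, x, ?_⟩
    rw [smul_def]
    simp
  · intro v
    left
    have : ∀ g : ↥(stabilizer G v), g = 1 := by
      rintro ⟨g, hg⟩
      have h2 : (g • v).g = v.g := congrArg RV.g hg
      have h3 : g * v.g = v.g := h2
      exact Subtype.ext (by simpa using h3)
    have : Subsingleton ↥(stabilizer G v) := ⟨fun a b => by rw [this a, this b]⟩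
    infer_instance

end Pool.Agent.BT
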