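import Pool.Agent.BT.PBlock5
import Pool.Agent.BT.PRips

/-!
# Pentagon complexes: a minimal counterexample exists
-/

namespace Pool.Agent.BT

open MulAction
open Pool.Agent.SAF (InC orbs FinOrb oc Decomp SAn SA FinOrb_iff)

theorem exists_min_rat (S : Set ℚ) (hne : S.Nonempty) (D : ℕ) (hD : 0 < D)
    (hint : ∀ s ∈ S, ∃ z : ℤ, (D : ℚ) * s = z) (c : ℚ) (hc : ∀ s ∈ S, c ≤ s) :
    ∃ m ∈ S, ∀ s ∈ S, m ≤ s := by
  have hD' : (0 : ℚ) < D := Nat.cast_pos.2 hD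
  obtain ⟨lb, ⟨m, hm, e⟩, hmin⟩ := Int.exists_least_of_bdd
    (P := fun z : ℤ => ∃ s ∈ S, (D : ℚ) * s = z)
    (by
      refine ⟨⌊(D : ℚ) * c⌋, ?_⟩
      rintro z ⟨s, hs, e⟩
      have h1 : (D : ℚ) * c ≤ z := by
        rw [← e]
        exact mul_le_mul_of_nonneg_left (hc s hs) hD'.le
      have h2 : (⌊(D : ℚ) * c⌋ : ℚ) ≤ z := (Int.floor_le _).trans h1
      exact_mod_cast h2)
    (by
      obtain ⟨s, hs⟩ := hne
      obtain ⟨z, hz⟩ := hint s hs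
      exact ⟨z, s, hs, hz⟩)
  refine ⟨m, hm, ?_⟩
  intro s hs
  obtain ⟨z, hz⟩ := hint s hs
  have h1 : lb ≤ z := hmin z ⟨s, hs, hz⟩
  have h2 : (D : ℚ) * m ≤ D * s := by
    rw [e, hz]
    exact_mod_cast h1
  exact le_of_mul_le_mul_left h2 hD'

theorem exists_max_rat (S : Set ℚ) (hne : S.Nonempty) (D : ℕ) (hD : 0 < D)
    (hint : ∀ s ∈ S, ∃ z : ℤ, (D : ℚ) * s = z) (c : ℚ) (hc : ∀ s ∈ S, s ≤ c) :
    ∃ m ∈ S, ∀ s ∈ S, s ≤ m := by
  obtain ⟨m, hm, h⟩ := exists_min_rat (Neg.neg '' S) (hne.image _) D hD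
    (by
      rintro _ ⟨s, hs, rfl⟩
      obtain ⟨z, hz⟩ := hint s hs
      exact ⟨-z, by push_cast; rw [← hz]; ring⟩) (-c)
    (by
      rintro _ ⟨s, hs, rfl⟩
      exact neg_le_neg (hc s hs))
  obtain ⟨m', hm', rfl⟩ := hm
  refine ⟨m', hm', fun s hs => ?_⟩
  exact neg_le_neg_iff.1 (h _ ⟨s, hs, rfl⟩)

section

variable {H X : Type} [Group H] [MulAction H X]

theorem wq_int {M : ℕ} (hM : Bd M H) (x : X) : ∃ k : ℤ, ((M.factorial : ℕ) : ℚ) * wq H x = k := by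
  by_cases hf : Finite ↥(stabilizer H x)
  · have h1 : 0 < Nat.card ↥(stabilizer H x) := Nat.card_pos
    obtain ⟨k, hk⟩ := Nat.dvd_factorial h1 (hM _ hf)
    refine ⟨k, ?_⟩
    unfold wq iw
    rw [hk]
    push_cast
    have h2 : ((Nat.card ↥(stabilizer H x) : ℕ) : ℚ) ≠ 0 := Nat.cast_ne_zero.2 h1.ne'
    field_simp
  · refine ⟨0, ?_⟩
    have h1 : wq H x = 0 := iw_eq_zero.2 hf
    rw [h1]; simp

theorem mass_int {M : ℕ} (hM : Bd M H) {s : Set X} (hs : FinOrb H s) :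
    ∃ k : ℤ, ((M.factorial : ℕ) : ℚ) * mass H s = k := by
  rw [mass_eq_sum hs, Finset.mul_sum]
  choose k hk using fun x : X => wq_int (H := H) hM x
  refine ⟨∑ q ∈ Set.Finite.toFinset hs, k (Quotient.out q), ?_⟩
  push_cast
  exact Finset.sum_congr rfl (fun q _ => hk _)

theorem iw_le_one (A : Subgroup H) : iw A ≤ 1 := by
  unfold iw
  rcases Nat.eq_zero_or_pos (Nat.card ↥A) with h | h
  · rw [h]; simp
  · exact inv_le_one_of_one_le₀ (by exact_mod_cast h)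

theorem mass_le_oc {s : Set X} (hs : FinOrb H s) : mass H s ≤ oc H s := by
  rw [mass_eq_sum hs]
  have h1 : ∑ q ∈ Set.Finite.toFinset hs, wq H (Quotient.out q) ≤
      ∑ q ∈ Set.Finite.toFinset hs, (1 : ℚ) := Finset.sum_le_sum (fun q _ => iw_le_one _)
  refine h1.trans ?_
  rw [Finset.sum_const, nsmul_eq_mul, mul_one]
  have : (Set.Finite.toFinset hs).card = oc H s := (Set.ncard_eq_toFinset_card _ hs).symm
  rw [this]

end

namespace PX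

variable {H V : Type} [Group H] [MulAction H V] (K : PX H V)

theorem bb_int {M : ℕ} (hM : Bd M H) : ∃ k : ℤ, ((M.factorial : ℕ) : ℚ) * K.hg.bb = k := by
  rw [K.bb_eq]
  obtain ⟨k1, h1⟩ := mass_int hM (s := K.O2) (SAF.FinOrb.mono (Set.subset_univ _) K.fin)
  obtain ⟨k2, h2⟩ := mass_int hM (s := K.SK) (SAF.FinOrb.mono (Set.subset_univ _) K.fin)
  refine ⟨k1 - k2, ?_⟩
  push_cast
  rw [← h1, ← h2]; ring

theorem bb_ge : -1 ≤ K.hg.bb := by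
  have h1 := K.hg.bb_ge K.fin_darts K.fin K.ne K.conn
  have h2 := iw_le_one (⊤ : Subgroup H)
  linarith

theorem PA_fin : FinOrb H K.PA := SAF.FinOrb.mono (fun _ h => h.1) K.finAR

theorem Ew_int {M : ℕ} (hM : Bd M H) : ∃ k : ℤ, ((M.factorial : ℕ) : ℚ) * K.Ew = k :=
  mass_int hM K.PA_fin

theorem Ew_le : K.Ew ≤ (10 * K.A : ℕ) := by
  have := K.finI
  refine (mass_le_oc K.PA_fin).trans ?_
  have h1 : orbs H K.PA ⊆ Set.range (fun q : (K.I × Fin 5) × Bool =>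
      (Quotient.mk'' (if q.2 then (K.pt q.1.1 q.1.2, K.pt q.1.1 (q.1.2 + 1)) else
        (K.pt q.1.1 (q.1.2 + 1), K.pt q.1.1 q.1.2)) : orbitRel.Quotient H (V × V))) := by
    rintro _ ⟨⟨x, y⟩, ⟨-, g, i, j, h⟩, rfl⟩
    have h' : (x = g • K.pt i j ∧ y = g • K.pt i (j + 1)) ∨
      (y = g • K.pt i j ∧ x = g • K.pt i (j + 1)) := h
    rcases h' with ⟨e1, e2⟩ | ⟨e1, e2⟩
    · refine ⟨((i, j), true), ?_⟩
      apply SAF.mk_eq_iff.2
      exact ⟨g⁻¹, by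
        show (g⁻¹ • x, g⁻¹ • y) = _
        rw [e1, e2, inv_smul_smul, inv_smul_smul]; rfl⟩
    · refine ⟨((i, j), false), ?_⟩
      apply SAF.mk_eq_iff.2
      exact ⟨g⁻¹, by
        show (g⁻¹ • x, g⁻¹ • y) = _
        rw [e1, e2, inv_smul_smul, inv_smul_smul]; rfl⟩
  have h2 : oc H K.PA ≤ Nat.card ((K.I × Fin 5) × Bool) := by
    unfold SAF.oc
    refine (Set.ncard_le_ncard h1 (Set.finite_range _)).trans ?_
    rw [← Set.image_univ]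
    refine (Set.ncard_image_le Set.finite_univ).trans ?_
    rw [Set.ncard_univ]
  rw [Nat.card_prod, Nat.card_prod] at h2
  simp only [Nat.card_eq_fintype_card, Fintype.card_fin, Fintype.card_bool] at h2
  have h3 : oc H K.PA ≤ 10 * K.A := by
    unfold PX.A
    omega
  exact_mod_cast h3

theorem Ns_le : K.Ns ≤ 5 * K.A := by
  have := K.finI
  have h1 : orbs H K.PS ⊆ Set.range (fun q : K.I × Fin 5 =>
      (Quotient.mk'' (K.pt q.1 q.2) : orbitRel.Quotient H V)) := by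
    rintro _ ⟨x, ⟨-, g, i, j, rfl⟩, rfl⟩
    refine ⟨(i, j), ?_⟩
    exact SAF.mk_eq_iff.2 ⟨g⁻¹, inv_smul_smul _ _⟩
  have h2 : K.Ns ≤ Nat.card (K.I × Fin 5) := by
    unfold PX.Ns SAF.oc
    refine (Set.ncard_le_ncard h1 (Set.finite_range _)).trans ?_
    rw [← Set.image_univ]
    refine (Set.ncard_image_le Set.finite_univ).trans ?_
    rw [Set.ncard_univ]
  rw [Nat.card_prod] at h2
  simp only [Nat.card_eq_fintype_card, Fintype.card_fin] at h2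
  unfold PX.A
  omega

end PX

/-- optimal complexes exist -/
theorem exists_pmin (G V0 : Type) [Group G] [MulAction G V0] (K0 : PX G V0) {M : ℕ} (hM : Bd M G)
    (hb : ¬ SA G) : ∃ (H : Type) (_ : Group H) (V : Type) (_ : MulAction H V) (K : PX H V),
      Bd M H ∧ ¬ SA H ∧ PMinS M K.A K.hg.bb K.Ew K.Ns := by
  classical
  have hF : 0 < M.factorial := M.factorial_pos
  -- the number of pentagons
  have e1 : ∃ n, ∃ (H : Type) (_ : Group H) (V : Type) (_ : MulAction H V) (K : PX H V),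
      Bd M H ∧ ¬ SA H ∧ K.A = n := ⟨_, G, _, V0, _, K0, hM, hb, rfl⟩
  set n := Nat.find e1 with hn
  obtain ⟨H1, g1, V1, a1, K1, b1, c1, d1⟩ := Nat.find_spec e1
  have m1 : PMinA M n := by
    intro H _ V _ K h1 h2
    exact Nat.find_min' e1 ⟨H, _, V, _, K, h1, h2, rfl⟩
  -- `-χ`
  obtain ⟨b, ⟨H2, g2, V2, a2, K2, b2, c2, d2, e2⟩, m2⟩ := exists_min_rat
    {b | ∃ (H : Type) (_ : Group H) (V : Type) (_ : MulAction H V) (K : PX H V),
      Bd M H ∧ ¬ SA H ∧ K.A = n ∧ K.hg.bb = b} ⟨_, H1, g1, V1, a1, K1, b1, c1, d1, rfl⟩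
    M.factorial hF
    (by
      rintro _ ⟨H, _, V, _, K, h1, h2, h3, rfl⟩
      exact K.bb_int h1) (-1)
    (by
      rintro _ ⟨H, _, V, _, K, h1, h2, h3, rfl⟩
      exact K.bb_ge)
  have m2' : PMinB M n b := ⟨m1, fun H _ V _ K h1 h2 h3 => m2 _ ⟨H, _, V, _, K, h1, h2, h3, rfl⟩⟩
  -- the arrows
  obtain ⟨e, ⟨H3, g3, V3, a3, K3, b3, c3, d3, e3, f3⟩, m3⟩ := exists_max_rat
    {e | ∃ (H : Type) (_ : Group H) (V : Type) (_ : MulAction H V) (K : PX H V),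
      Bd M H ∧ ¬ SA H ∧ K.A = n ∧ K.hg.bb = b ∧ K.Ew = e}
    ⟨_, H2, g2, V2, a2, K2, b2, c2, d2, e2, rfl⟩ M.factorial hF
    (by
      rintro _ ⟨H, _, V, _, K, h1, h2, h3, h4, rfl⟩
      exact K.Ew_int h1) ((10 * n : ℕ) : ℚ)
    (by
      rintro _ ⟨H, _, V, _, K, h1, h2, h3, h4, rfl⟩
      rw [← h3]
      exact K.Ew_le)
  have m3' : PMinE M n b e :=
    ⟨m2', fun H _ V _ K h1 h2 h3 h4 => m3 _ ⟨H, _, V, _, K, h1, h2, h3, h4, rfl⟩⟩
  -- the sinks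
  have e4 : ∃ k, ∃ (H : Type) (_ : Group H) (V : Type) (_ : MulAction H V) (K : PX H V),
      Bd M H ∧ ¬ SA H ∧ K.A = n ∧ K.hg.bb = b ∧ K.Ew = e ∧ 5 * n - K.Ns = k :=
    ⟨_, H3, g3, V3, a3, K3, b3, c3, d3, e3, f3, rfl⟩
  obtain ⟨H4, g4, V4, a4, K4, b4, c4, d4, f4, h4, i4⟩ := Nat.find_spec e4
  refine ⟨H4, g4, V4, a4, K4, b4, c4, ?_⟩
  rw [d4, f4, h4]
  refine ⟨m3', ?_⟩
  intro H _ V _ K h1 h2 h3 h5 h6
  have h7 := Nat.find_min' e4 ⟨H, _, V, _, K, h1, h2, h3, h5, h6, rfl⟩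
  rw [← i4] at h7
  have h8 := K.Ns_le
  have h9 := K4.Ns_le
  rw [h3] at h8
  rw [d4] at h9
  omega

/-- A MINIMAL COUNTEREXAMPLE EXISTS -/
theorem exists_pcrit' (hSA : ∀ (G : Type) [Group G], InC G → SA G) (G : Type) [Group G]
    [Group.IsFinitelyPresented G] {M : ℕ} (hM : Bd M G) (hb : ¬ SA G) :
    ∃ (H : Type) (_ : Group H) (V : Type) (_ : MulAction H V) (K : PX H V), PCrit M K := by
  obtain ⟨V0, _, ⟨K0⟩⟩ := exists_PX G
  obtain ⟨H, _, V, _, K, hB, hbad, ⟨⟨⟨hA, hB2⟩, hE⟩, hS⟩⟩ := exists_pmin G V0 K0 hM hb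
  obtain ⟨V', _, K', f, r, hcl⟩ := exists_clean K
  have hAM : K.AMin := fun V' _ K' => hA _ _ K' hB hbad
  have p1 : K'.A = K.A := le_antisymm r.card_le (hAM _ _)
  have p2 : K'.hg.bb = K.hg.bb := le_antisymm r.bb.1 (hB2 _ _ K' hB hbad p1)
  obtain ⟨p3, p4⟩ := r.pot_le hAM p2.ge
  have p3' : K'.Ew = K.Ew := le_antisymm (hE _ _ K' hB hbad p1 p2) p3
  have p4' : K'.Ns = K.Ns := le_antisymm (hS _ _ K' hB hbad p1 p2 p3') p4
  obtain ⟨S, V'', _, L, l1, l2, l3, l4, l5, l6, l7, l8, l9⟩ := block_lemma K' hB hbad hcl hSA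
    (by rw [p1]; exact hA)
  have q1 : L.A = K.A := l6.trans p1
  have q2 : L.hg.bb = K.hg.bb := le_antisymm (l7.trans p2.le) (hB2 _ _ L l1 l2 q1)
  have q3 : L.Ew = K.Ew := l8.trans p3'
  have q4 : L.Ns = K.Ns := le_antisymm (hS _ _ L l1 l2 q1 q2 q3) (by rw [← p4']; exact l9)
  refine ⟨S, _, V'', _, L, l1, l2, l3, l4, l5, ?_⟩
  rw [q1, q2, q3, q4]
  exact ⟨⟨⟨hA, hB2⟩, hE⟩, hS⟩

end Pool.Agent.BT
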