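import Pool.Agent.BT.Defs
import Pool.Agent.BT.PBase

/-!
# Pentagon complexes without a condition on the stabilisers: basic facts
-/

namespace Pool.Agent.BT

open MulAction
open Pool.Agent.SAF (InC orbs FinOrb oc)

namespace PQ

variable {H V : Type} [Group H] [MulAction H V] (K : PQ H V)

theorem E.ne {K : PQ H V} {x y : V} (h : K.E x y) : x ≠ y := by
  rintro rfl
  exact K.E_irr _ h

/-- the graph of the complex -/
def hg : HG H V where
  E := K.E
  symm := fun _ _ h => h.symm
  smul := fun h _ _ e => K.E_smul h e

/-- add the condition on the stabilisers -/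
def px (h : ∀ v : V, InC ↥(stabilizer H v)) : PX H V where
  ar := K.ar
  rk := K.rk
  I := K.I
  finI := K.finI
  pt := K.pt
  ar_rk := K.ar_rk
  ar_smul := K.ar_smul
  rk_smul := K.rk_smul
  two := K.two
  pt_E := K.pt_E
  ne := K.ne
  conn := K.conn
  H1 := K.H1
  fin := K.fin
  stab := h

end PQ

end Pool.Agent.BT
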