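import Pool.Agent.BT.PAbs
import Pool.Agent.BT.PEnl

/-!
# Pentagon complexes: reductions
-/

namespace Pool.Agent.BT

open MulAction
open Pool.Agent.SAF (InC orbs FinOrb oc Decomp SAn SA)

section MgComp

variable {H V V' V'' : Type} [Group H] [MulAction H V] [MulAction H V'] [MulAction H V'']

omit [MulAction H V'] [MulAction H V''] in
theorem Mg.mono {G : HG H V} {f : V → V'} (g : V' → V'') {x y : V} (m : Mg G f x y) :
    Mg G (fun v => g (f v)) x y := by
  induction m with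
  | refl x => exact Mg.refl x
  | symm x y _ ih => exact Mg.symm _ _ ih
  | trans x y z _ _ ih1 ih2 => exact Mg.trans _ _ _ ih1 ih2
  | smul h x y _ ih => exact Mg.smul h _ _ ih
  | adj x y e a => exact Mg.adj _ _ (congrArg g e) a
  | nb x y z z' e _ a b ih => exact Mg.nb _ _ _ _ (congrArg g e) ih a b

/-- composition of closures of moves -/
theorem Mg.comp {G : HG H V} {G' : HG H V'} {f : V → V'} {g : V' → V''}
    (hf : ∀ (h : H) (x : V), f (h • x) = h • f x) (hs : Function.Surjective f)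
    (hm : ∀ x y, f x = f y → Mg G f x y)
    (he : ∀ c d, G'.E c d → ∃ x y, G.E x y ∧ f x = c ∧ f y = d) {c d : V'}
    (m : Mg G' g c d) : ∀ x y, f x = c → f y = d → Mg G (fun v => g (f v)) x y := by
  have hm' : ∀ x y, f x = f y → Mg G (fun v => g (f v)) x y := fun x y e => (hm x y e).mono g
  induction m with
  | refl c =>
    rintro x y e1 e2
    exact hm' _ _ (e1.trans e2.symm)
  | symm c d _ ih =>
    rintro x y e1 e2
    exact Mg.symm _ _ (ih y x e2 e1)
  | trans c d e m1 m2 ih1 ih2 =>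
    rintro x y e1 e2
    obtain ⟨z, hz⟩ := hs d
    exact Mg.trans _ _ _ (ih1 x z e1 hz) (ih2 z y hz e2)
  | smul h c d _ ih =>
    rintro x y e1 e2
    have := ih (h⁻¹ • x) (h⁻¹ • y) (by rw [hf, e1, inv_smul_smul]) (by rw [hf, e2, inv_smul_smul])
    have h2 := Mg.smul h _ _ this
    rwa [smul_inv_smul, smul_inv_smul] at h2
  | adj c d e a =>
    rintro x y rfl rfl
    obtain ⟨x', y', e', h1, h2⟩ := he _ _ a
    refine Mg.trans _ _ _ (hm' x x' h1.symm) (Mg.trans _ _ _ (Mg.adj x' y' ?_ e') (hm' y' y h2))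
    show g (f x') = g (f y')
    rw [h1, h2, e]
  | nb c d z z' e m' a b ih =>
    rintro x y rfl rfl
    obtain ⟨u, x', e1, h1, h2⟩ := he _ _ a
    obtain ⟨u', y', e2, h3, h4⟩ := he _ _ b
    refine Mg.trans _ _ _ (hm' x x' h2.symm) (Mg.trans _ _ _
      (Mg.nb x' y' u u' ?_ (ih u u' h1 h3) e1 e2) (hm' y' y h4))
    show g (f x') = g (f y')
    rw [h2, h4, e]

end MgComp

section Red

variable {H V V' V'' : Type} [Group H] [MulAction H V] [MulAction H V'] [MulAction H V'']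

/-- `K'` is a reduction of `K` -/
structure Red (K : PX H V) (K' : PX H V') (f : V → V') : Prop where
  equi : ∀ (h : H) (x : V), f (h • x) = h • f x
  surj : Function.Surjective f
  mg : ∀ x y, f x = f y → Mg K.hg f x y
  e1 : ∀ x y, K.E x y → f x = f y ∨ K'.E (f x) (f y)
  e2 : ∀ c d, K'.E c d → ∃ x y, K.E x y ∧ f x = c ∧ f y = d
  pent : ∃ ι : K'.I → K.I, Function.Injective ι ∧ (∀ i j, K'.pt i j = f (K.pt (ι i) j)) ∧
    ∀ i, (∀ j, f (K.pt i j) ≠ f (K.pt i (j + 1))) → ∃ i', ι i' = i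
  sink : ∀ v, K.Sink v → K'.Sink (f v)
  sinj : ∀ v w, K.Sink v → K.Sink w → f v = f w → v = w
  ssurj : ∀ c, K'.Sink c → ∃ v, K.Sink v ∧ f v = c
  rk : ∀ v, K'.rk (f v) ≤ K.rk v
  rep : ∀ c, ∃ v, f v = c ∧ ∀ d, K'.ar c d ↔ ∃ w, K.ar v w ∧ f w = d

theorem Red.refl (K : PX H V) : Red K K id where
  equi := fun _ _ => rfl
  surj := Function.surjective_id
  mg := fun x y e => by
    have e : x = y := e
    rw [e]
    exact Mg.refl _
  e1 := fun x y e => Or.inr e
  e2 := fun c d e => ⟨c, d, e, rfl, rfl⟩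
  pent := ⟨id, Function.injective_id, fun _ _ => rfl, fun i _ => ⟨i, rfl⟩⟩
  sink := fun _ h => h
  sinj := fun _ _ _ _ e => e
  ssurj := fun c h => ⟨c, h, rfl⟩
  rk := fun _ => le_rfl
  rep := fun c => ⟨c, rfl, fun d => ⟨fun h => ⟨d, h, rfl⟩, fun ⟨w, h, e⟩ => e ▸ h⟩⟩

theorem Red.trans {K : PX H V} {K' : PX H V'} {K'' : PX H V''} {f : V → V'} {g : V' → V''}
    (r : Red K K' f) (r' : Red K' K'' g) : Red K K'' (fun v => g (f v)) where
  equi := fun h x => by rw [r.equi, r'.equi]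
  surj := r'.surj.comp r.surj
  mg := fun x y e => Mg.comp r.equi r.surj r.mg r.e2 (r'.mg _ _ e) x y rfl rfl
  e1 := by
    intro x y e
    rcases r.e1 x y e with h | h
    · exact Or.inl (congrArg g h)
    · exact r'.e1 _ _ h
  e2 := by
    intro c d e
    obtain ⟨x', y', e', rfl, rfl⟩ := r'.e2 c d e
    obtain ⟨x, y, e'', rfl, rfl⟩ := r.e2 _ _ e'
    exact ⟨x, y, e'', rfl, rfl⟩
  pent := by
    obtain ⟨ι, i1, i2, i3⟩ := r.pent
    obtain ⟨κ, k1, k2, k3⟩ := r'.pent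
    refine ⟨fun i => ι (κ i), i1.comp k1, ?_, ?_⟩
    · intro i j
      rw [k2, i2]
    · intro i hi
      obtain ⟨i', rfl⟩ := i3 i (fun j e => hi j (congrArg g e))
      obtain ⟨i'', rfl⟩ := k3 i' (fun j => by rw [i2, i2]; exact hi j)
      exact ⟨i'', rfl⟩
  sink := fun v h => r'.sink _ (r.sink v h)
  sinj := fun v w hv hw e => r.sinj v w hv hw (r'.sinj _ _ (r.sink v hv) (r.sink w hw) e)
  ssurj := by
    intro c hc
    obtain ⟨v', h1, rfl⟩ := r'.ssurj c hc
    obtain ⟨v, h2, rfl⟩ := r.ssurj v' h1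
    exact ⟨v, h2, rfl⟩
  rk := fun v => (r'.rk _).trans (r.rk v)
  rep := by
    intro c
    obtain ⟨v', e', h'⟩ := r'.rep c
    obtain ⟨v, e, h⟩ := r.rep v'
    refine ⟨v, by rw [e, e'], fun d => ?_⟩
    rw [h']
    constructor
    · rintro ⟨w', h1, h2⟩
      obtain ⟨w, h3, h4⟩ := (h w').1 h1
      exact ⟨w, h3, by rw [h4, h2]⟩
    · rintro ⟨w, h1, h2⟩
      exact ⟨f w, (h _).2 ⟨w, h1, rfl⟩, h2⟩

theorem Red.card_le {K : PX H V} {K' : PX H V'} {f : V → V'} (r : Red K K' f) : K'.A ≤ K.A := by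
  obtain ⟨ι, i1, -⟩ := r.pent
  have := K.finI
  exact Nat.card_le_card_of_injective ι i1

/-- a reduction is a finite sequence of folds -/
theorem Red.folds {K : PX H V} {K' : PX H V'} {f : V → V'} (r : Red K K' f) : Folds K.hg f :=
  folds_of_mg r.equi r.surj K.fin
    (fun v => (Group.fg_iff_subgroup_fg _).1 (inC_fg (K'.stab v))) r.mg

theorem QD.red {K : PX H V} {f : V → V'} (Q : QD K f) (hs : ∀ v, K.Sink v → Q.px.Sink (f v))
    (hi : ∀ v w, K.Sink v → K.Sink w → f v = f w → v = w)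
    (hj : ∀ c, Q.px.Sink c → ∃ v, K.Sink v ∧ f v = c)
    (hr : ∀ v, Q.rk (f v) ≤ K.rk v)
    (hrep : ∀ c, ∃ v, f v = c ∧ ∀ d, Q.ar c d ↔ ∃ w, K.ar v w ∧ f w = d) : Red K Q.px f where
  equi := Q.equi
  surj := Q.surj
  mg := Q.mg
  e1 := Q.e1
  e2 := Q.e2
  pent := ⟨fun i => i.1, Subtype.val_injective, fun _ _ => rfl, fun i hi => ⟨⟨i, hi⟩, rfl⟩⟩
  sink := hs
  sinj := hi
  ssurj := hj
  rk := hr
  rep := hrep

theorem PX.Abs.red {K : PX H V} {s x : V} (a : K.Abs s x) : Red K a.qd.px a.f := by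
  apply a.qd.red
  · intro v hv
    exact (a.sink_f hv).2
  · intro v w hv hw e
    have h1 := (a.sink_f hv).1
    have h2 := (a.sink_f hw).1
    rw [← h1, ← h2, e]
  · intro c hc
    exact ⟨c.1, a.sink_of hc, a.f_val c⟩
  · intro v
    exact a.rk_r v
  · intro c
    refine ⟨c.1, a.f_val c, fun d => ?_⟩
    constructor
    · rintro ⟨b, h1, h2⟩
      exact ⟨b, h1, Subtype.ext h2⟩
    · rintro ⟨w, h1, h2⟩
      exact ⟨w, h1, congrArg Subtype.val h2⟩

theorem PX.Pol.red {K : PX H V} {s a b : V} (p : K.Pol s a b) :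
    Red K p.qd.px (PX.ef (H := H) s a b) := by
  apply p.qd.red
  · intro v hv
    exact p.sink_ef.2 hv
  · intro v w hv _ e
    exact p.inj_sink hv e
  · intro c hc
    obtain ⟨v, rfl⟩ := p.ef_surj c
    exact ⟨v, p.sink_ef.1 hc, rfl⟩
  · intro v
    exact (p.rk_ef v).le
  · intro c
    obtain ⟨v, rfl⟩ := p.ef_surj c
    exact ⟨v, rfl, fun d => p.ear_iff⟩

end Red

end Pool.Agent.BT
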