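import Pool.Agent.SAF.Defs
import Pool.Agent.BT.CH

/-!
# Pentagon complexes (definition)
-/

namespace Pool.Agent.BT

open MulAction
open Pool.Agent.SAF (InC orbs FinOrb oc Decomp SAn SA)

/-- pentagon complexes -/
structure PX (H V : Type) [Group H] [MulAction H V] where
  ar : V → V → Prop
  rk : V → ℕ
  I : Type
  finI : Finite I
  pt : I → Fin 5 → V
  ar_rk : ∀ v a, ar v a → rk a < rk v
  ar_smul : ∀ (h : H) (v a : V), ar v a → ar (h • v) (h • a)
  rk_smul : ∀ (h : H) (v : V), rk (h • v) = rk v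
  two : ∀ v a b c, ar v a → ar v b → ar v c → a = b ∨ b = c ∨ a = c
  pt_E : ∀ i j, ar (pt i j) (pt i (j + 1)) ∨ ar (pt i (j + 1)) (pt i j)
  ne : Nonempty V
  conn : ∀ x y, Relation.ReflTransGen (fun a b => ar a b ∨ ar b a) x y
  H1 : ∀ φ : V → V → ZMod 2, (∀ x y, φ x y = φ y x) →
    (∀ x y z w, (ar x y ∨ ar y x) → (ar y z ∨ ar z y) → (ar z w ∨ ar w z) → (ar w x ∨ ar x w) →
      φ x y + φ y z + φ z w + φ w x = 0) →
    (∀ x y z, (ar x y ∨ ar y x) → (ar y z ∨ ar z y) → (ar z x ∨ ar x z) →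
      φ x y + φ y z + φ z x = 0) →
    (∀ (i : I) (h : H), ∑ j : Fin 5, φ (h • pt i j) (h • pt i (j + 1)) = 0) →
    ∃ g : V → ZMod 2, ∀ x y, (ar x y ∨ ar y x) → φ x y = g x + g y
  fin : FinOrb H (Set.univ : Set V)
  stab : ∀ v : V, InC ↥(stabilizer H v)

end Pool.Agent.BT
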