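import Pool.Agent.BT.Defs
import Pool.Agent.SAF.A11

/-!
# BT: projections to convex sets, bridges between disjoint convex sets
-/

namespace Pool.Agent.BT

open MulAction
open Pool.Agent.SAF (Conv hull hull_conv hull_finite exists_cut exists_next)

section Tree
variable {X : Type} {G : SimpleGraph X}

/-- a walk between the two sides of a cut crosses it -/
private theorem walk_cross_p {u v : X} {g : X → ZMod 2} (hG : G.IsTree)
    (hg : ∀ a b, G.Adj a b → (g a ≠ g b ↔ ((a = u ∧ b = v) ∨ (a = v ∧ b = u))))
    {a b : X} (p : G.Walk a b) : g a ≠ g b →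
    ∃ x y, ((x = u ∧ y = v) ∨ (x = v ∧ y = u)) ∧ G.dist a x + 1 + G.dist y b ≤ p.length := by
  induction p with
  | nil => intro h; exact absurd rfl h
  | @cons a a' b h' p' ih =>
    intro h
    by_cases h2 : g a = g a'
    · obtain ⟨x, y, e, hl⟩ := ih (by rw [← h2]; exact h)
      refine ⟨x, y, e, ?_⟩
      have h3 : G.dist a x ≤ G.dist a a' + G.dist a' x := hG.connected.dist_triangle
      have h4 : G.dist a a' = 1 := SimpleGraph.dist_eq_one_iff_adj.2 h'
      rw [SimpleGraph.Walk.length_cons]
      omega
    · refine ⟨a, a', (hg a a' h').1 h2, ?_⟩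
      have h3 : G.dist a' b ≤ p'.length := SimpleGraph.dist_le p'
      rw [SimpleGraph.Walk.length_cons, SimpleGraph.dist_self]
      omega

/-- distances across an edge -/
theorem dist_cross (hG : G.IsTree) {u v a b : X} (h : G.Adj u v)
    (h1 : G.dist a v = G.dist a u + 1) (h2 : G.dist b u = G.dist b v + 1) :
    G.dist a b = G.dist a u + 1 + G.dist v b := by
  obtain ⟨g, hg, hg0, hg1⟩ := exists_cut G hG u v h
  obtain ⟨p, hp⟩ := hG.connected.exists_walk_length_eq_dist a b
  have ha : g a = 0 := (hg0 a).2 h1
  have hb : g b = 1 := (hg1 b).2 h2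
  have hne : g a ≠ g b := by rw [ha, hb]; decide
  obtain ⟨x, y, e, hl⟩ := walk_cross_p hG hg p hne
  have huv : G.dist u v = 1 := SimpleGraph.dist_eq_one_iff_adj.2 h
  have t1 : G.dist a b ≤ G.dist a u + G.dist u b := hG.connected.dist_triangle
  have t2 : G.dist u b ≤ G.dist u v + G.dist v b := hG.connected.dist_triangle
  have c1 : G.dist u b = G.dist b u := SimpleGraph.dist_comm
  have c2 : G.dist v b = G.dist b v := SimpleGraph.dist_comm
  rcases e with ⟨rfl, rfl⟩ | ⟨rfl, rfl⟩
  · omega
  · omega

/-- an edge has two sides -/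
theorem side_or (hG : G.IsTree) {u v : X} (h : G.Adj u v) (a : X) :
    G.dist a u = G.dist a v + 1 ∨ G.dist a v = G.dist a u + 1 :=
  hG.dist_eq_dist_add_one_of_adj a h

/-- a convex set which contains `p` but not its neighbour `u` is on the side of `p` -/
theorem conv_side (hG : G.IsTree) {C : Set X} (hC : Conv G C) {p u c : X} (h : G.Adj p u)
    (hp : p ∈ C) (hu : u ∉ C) (hc : c ∈ C) : G.dist c u = G.dist c p + 1 := by
  rcases side_or hG h c with h1 | h1
  · exfalso
    apply hu
    apply hC p hp c hc u
    have h2 : G.dist p u = 1 := SimpleGraph.dist_eq_one_iff_adj.2 h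
    have c1 : G.dist p c = G.dist c p := SimpleGraph.dist_comm
    have c2 : G.dist u c = G.dist c u := SimpleGraph.dist_comm
    omega
  · exact h1

/-- projection to a convex set -/
theorem exists_proj (hG : G.IsTree) {C : Set X} (hC : Conv G C) (ne : C.Nonempty) (x : X) :
    ∃! p, p ∈ C ∧ ∀ c ∈ C, G.dist x c = G.dist x p + G.dist p c := by
  classical
  have hex : ∃ n : ℕ, ∃ p ∈ C, G.dist x p = n := by
    obtain ⟨c, hc⟩ := ne
    exact ⟨_, c, hc, rfl⟩
  obtain ⟨p, hp, hpn⟩ := Nat.find_spec hex
  have hmin : ∀ c ∈ C, G.dist x p ≤ G.dist x c := by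
    intro c hc
    rw [hpn]
    exact Nat.find_min' hex ⟨c, hc, rfl⟩
  have hpr : ∀ c ∈ C, G.dist x c = G.dist x p + G.dist p c := by
    intro c hc
    by_cases hxp : p = x
    · subst hxp
      rw [SimpleGraph.dist_self, zero_add]
    · obtain ⟨u, hu, hd⟩ := exists_next hG hxp
      have huC : u ∉ C := by
        intro hu'
        have h1 := hmin u hu'
        have c1 : G.dist x u = G.dist u x := SimpleGraph.dist_comm
        have c2 : G.dist x p = G.dist p x := SimpleGraph.dist_comm
        omega
      have h1 := conv_side hG hC hu hp huC hc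
      have h2 : G.dist x p = G.dist x u + 1 := by
        have c1 : G.dist x u = G.dist u x := SimpleGraph.dist_comm
        have c2 : G.dist x p = G.dist p x := SimpleGraph.dist_comm
        omega
      have h3 := dist_cross hG hu h1 h2
      have c1 : G.dist x u = G.dist u x := SimpleGraph.dist_comm
      have c2 : G.dist x c = G.dist c x := SimpleGraph.dist_comm
      have c3 : G.dist p c = G.dist c p := SimpleGraph.dist_comm
      omega
  refine ⟨p, ⟨hp, hpr⟩, ?_⟩
  rintro p' ⟨hp', hpr'⟩
  have h1 := hpr p' hp'
  have h2 := hpr' p hp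
  have c1 : G.dist p p' = G.dist p' p := SimpleGraph.dist_comm
  have h3 : G.dist p p' = 0 := by omega
  exact ((hG.connected.dist_eq_zero_iff).1 h3).symm

/-- the bridge between two disjoint convex sets -/
def brg (G : SimpleGraph X) (A B : Set X) : Set X :=
  {w | ∀ a ∈ A, ∀ b ∈ B, G.dist a w + G.dist w b = G.dist a b}

/-- the end points of the bridge -/
theorem brg_pts (hG : G.IsTree) {A B : Set X} (hA : Conv G A) (hB : Conv G B) (nA : A.Nonempty)
    (nB : B.Nonempty) (hd : ¬ (A ∩ B).Nonempty) :
    ∃ p ∈ A, ∃ q ∈ B, ∀ a ∈ A, ∀ b ∈ B, G.dist a b = G.dist a p + G.dist p q + G.dist q b := by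
  classical
  have hex : ∃ n : ℕ, ∃ p ∈ A, ∃ q ∈ B, G.dist p q = n := by
    obtain ⟨a, ha⟩ := nA
    obtain ⟨b, hb⟩ := nB
    exact ⟨_, a, ha, b, hb, rfl⟩
  obtain ⟨p, hp, q, hq, hpn⟩ := Nat.find_spec hex
  have hmin : ∀ a ∈ A, ∀ b ∈ B, G.dist p q ≤ G.dist a b := by
    intro a ha b hb
    rw [hpn]
    exact Nat.find_min' hex ⟨a, ha, b, hb, rfl⟩
  have hpq : p ≠ q := by
    rintro rfl
    exact hd ⟨p, hp, hq⟩
  -- projection to one side
  have key : ∀ (A B : Set X), Conv G A → Conv G B → ¬ (A ∩ B).Nonempty → ∀ p ∈ A, ∀ q ∈ B,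
      p ≠ q → (∀ a ∈ A, ∀ b ∈ B, G.dist p q ≤ G.dist a b) →
      ∀ a ∈ A, ∀ b ∈ B, G.dist a b = G.dist a p + G.dist p b := by
    intro A B hA hB hd p hp q hq hpq hmin a ha b hb
    obtain ⟨u, hu, hdu⟩ := exists_next hG hpq
    have huA : u ∉ A := by
      intro h
      have := hmin u h q hq
      omega
    have h1 := conv_side hG hA hu hp huA ha
    have h1p := conv_side hG hA hu hp huA hp
    have h2 : G.dist b p = G.dist b u + 1 := by
      rcases side_or hG hu b with h3 | h3
      · exact h3
      · exfalso
        apply hd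
        refine ⟨p, hp, ?_⟩
        have hq2 : G.dist q p = G.dist q u + 1 := by
          have c1 : G.dist q p = G.dist p q := SimpleGraph.dist_comm
          have c2 : G.dist q u = G.dist u q := SimpleGraph.dist_comm
          omega
        have h4 := dist_cross hG hu h3 hq2
        apply hB b hb q hq p
        have c1 : G.dist q p = G.dist p q := SimpleGraph.dist_comm
        omega
    have h3 := dist_cross hG hu h1 h2
    have h4 := dist_cross hG hu h1p h2
    rw [SimpleGraph.dist_self] at h4
    omega
  refine ⟨p, hp, q, hq, fun a ha b hb => ?_⟩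
  have h1 := key A B hA hB hd p hp q hq hpq hmin a ha b hb
  have h2 := key B A hB hA (fun ⟨z, h1, h2⟩ => hd ⟨z, h2, h1⟩) q hq p hp hpq.symm
    (fun b hb a ha => by
      have c1 : G.dist q p = G.dist p q := SimpleGraph.dist_comm
      have c2 : G.dist b a = G.dist a b := SimpleGraph.dist_comm
      have := hmin a ha b hb
      omega) b hb p hp
  have c1 : G.dist b p = G.dist p b := SimpleGraph.dist_comm
  have c2 : G.dist b q = G.dist q b := SimpleGraph.dist_comm
  have c3 : G.dist q p = G.dist p q := SimpleGraph.dist_comm
  omega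

theorem brg_spec (hG : G.IsTree) {A B : Set X} (hA : Conv G A) (hB : Conv G B) (nA : A.Nonempty)
    (nB : B.Nonempty) (hd : ¬ (A ∩ B).Nonempty) :
    Conv G (brg G A B) ∧ (brg G A B).Finite ∧ (∃ p, brg G A B ∩ A = {p}) ∧
    (∃ p, brg G A B ∩ B = {p}) ∧
    (∀ w w', G.Adj w w' → ((w ∈ brg G A B ∧ w' ∈ brg G A B) ↔
      (A ⊆ bey G w w' ∧ B ⊆ bey G w' w) ∨ (A ⊆ bey G w' w ∧ B ⊆ bey G w w'))) := by
  obtain ⟨p, hp, q, hq, hpq⟩ := brg_pts hG hA hB nA nB hd
  have hmem : ∀ w, w ∈ brg G A B ↔ G.dist p w + G.dist w q = G.dist p q := by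
    intro w
    constructor
    · intro h
      exact h p hp q hq
    · intro h a ha b hb
      have h1 := hpq a ha b hb
      have t1 : G.dist a w ≤ G.dist a p + G.dist p w := hG.connected.dist_triangle
      have t2 : G.dist w b ≤ G.dist w q + G.dist q b := hG.connected.dist_triangle
      have t3 : G.dist a b ≤ G.dist a w + G.dist w b := hG.connected.dist_triangle
      omega
  have hhull : brg G A B = hull G {p, q} := by
    ext w
    rw [hmem]
    constructor
    · intro h
      exact ⟨p, Or.inl rfl, q, Or.inr rfl, h⟩
    · rintro ⟨a, ha, b, hb, h⟩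
      have c1 : G.dist q p = G.dist p q := SimpleGraph.dist_comm
      have c2 : G.dist w p = G.dist p w := SimpleGraph.dist_comm
      have c3 : G.dist w q = G.dist q w := SimpleGraph.dist_comm
      have t1 : G.dist q w ≤ G.dist q p + G.dist p w := hG.connected.dist_triangle
      have t2 : G.dist p w ≤ G.dist p q + G.dist q w := hG.connected.dist_triangle
      have t3 : G.dist p q ≤ G.dist p w + G.dist w q := hG.connected.dist_triangle
      rcases ha with rfl | ha
      · rcases hb with rfl | hb
        · rw [SimpleGraph.dist_self] at h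
          omega
        · rw [Set.mem_singleton_iff] at hb
          subst hb
          exact h
      · rw [Set.mem_singleton_iff] at ha
        subst ha
        rcases hb with rfl | hb
        · omega
        · rw [Set.mem_singleton_iff] at hb
          subst hb
          rw [SimpleGraph.dist_self] at h
          omega
  refine ⟨?_, ?_, ⟨p, ?_⟩, ⟨q, ?_⟩, ?_⟩
  · rw [hhull]
    exact hull_conv hG _
  · rw [hhull]
    exact hull_finite hG (Set.toFinite _)
  · ext w
    constructor
    · rintro ⟨h1, h2⟩
      rw [hmem] at h1
      have h3 := hpq w h2 q hq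
      rw [SimpleGraph.dist_self] at h3
      have c2 : G.dist w p = G.dist p w := SimpleGraph.dist_comm
      have h4 : G.dist p w = 0 := by omega
      exact ((hG.connected.dist_eq_zero_iff).1 h4).symm
    · rintro rfl
      refine ⟨(hmem _).2 ?_, hp⟩
      rw [SimpleGraph.dist_self]
      omega
  · ext w
    constructor
    · rintro ⟨h1, h2⟩
      rw [hmem] at h1
      have h3 := hpq p hp w h2
      rw [SimpleGraph.dist_self] at h3
      have c2 : G.dist w q = G.dist q w := SimpleGraph.dist_comm
      have h4 : G.dist q w = 0 := by omega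
      exact ((hG.connected.dist_eq_zero_iff).1 h4).symm
    · rintro rfl
      refine ⟨(hmem _).2 ?_, hq⟩
      rw [SimpleGraph.dist_self]
      omega
  · intro w w' hadj
    constructor
    · rintro ⟨h1, h2⟩
      have hw := (hmem w).1 h1
      have hw' := (hmem w').1 h2
      have cqw : G.dist w q = G.dist q w := SimpleGraph.dist_comm
      have cqw' : G.dist w' q = G.dist q w' := SimpleGraph.dist_comm
      rcases side_or hG hadj p with h3 | h3
      · left
        constructor
        · intro a ha
          change G.dist a w = G.dist a w' + 1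
          have e1 := h1 a ha q hq
          have e2 := h2 a ha q hq
          omega
        · intro b hb
          change G.dist b w' = G.dist b w + 1
          have e1 := h1 p hp b hb
          have e2 := h2 p hp b hb
          have c1 : G.dist w b = G.dist b w := SimpleGraph.dist_comm
          have c2 : G.dist w' b = G.dist b w' := SimpleGraph.dist_comm
          omega
      · right
        constructor
        · intro a ha
          change G.dist a w' = G.dist a w + 1
          have e1 := h1 a ha q hq
          have e2 := h2 a ha q hq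
          omega
        · intro b hb
          change G.dist b w = G.dist b w' + 1
          have e1 := h1 p hp b hb
          have e2 := h2 p hp b hb
          have c1 : G.dist w b = G.dist b w := SimpleGraph.dist_comm
          have c2 : G.dist w' b = G.dist b w' := SimpleGraph.dist_comm
          omega
    · have key : ∀ w w' : X, G.Adj w w' → A ⊆ bey G w w' → B ⊆ bey G w' w →
          w ∈ brg G A B ∧ w' ∈ brg G A B := by
        intro w w' hadj h1 h2
        constructor
        · intro a ha b hb
          have ha' : G.dist a w = G.dist a w' + 1 := h1 ha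
          have hb' : G.dist b w' = G.dist b w + 1 := h2 hb
          have h3 := dist_cross hG hadj.symm ha' hb'
          omega
        · intro a ha b hb
          have ha' : G.dist a w = G.dist a w' + 1 := h1 ha
          have hb' : G.dist b w' = G.dist b w + 1 := h2 hb
          have h3 := dist_cross hG hadj.symm ha' hb'
          have c1 : G.dist w b = G.dist b w := SimpleGraph.dist_comm
          have c2 : G.dist w' b = G.dist b w' := SimpleGraph.dist_comm
          omega
      rintro (⟨h1, h2⟩ | ⟨h1, h2⟩)
      · exact key w w' hadj h1 h2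
      · exact (key w' w hadj.symm h1 h2).symm

end Tree

end Pool.Agent.BT
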