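import Pool.Agent.BT.Defs
import Pool.Agent.BT.PClean
import Pool.Agent.BT.XCtr

/-!
# BT: existence of the sets `T x y`
-/

namespace Pool.Agent.BT

open MulAction
open Pool.Agent.SAF (InC orbs FinOrb FinOrb_iff oc Decomp SAn SA Conv hull TAct subset_hull hull_mono
  hull_conv hull_finite)

section TS0
variable {H V : Type} [Group H] [MulAction H V]

theorem exists_sy_full (K : PQ H V) (D : Decomp H) (J : V → Set D.X) (js : JS K D J) :
    ∃ S : Sy K D, S.J = J := by
  refine ⟨{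
    J := J
    T := fun x y => J x ∪ J y
    js := js
    T_symm := fun x y _ => Set.union_comm _ _
    T_smul := ?_
    T_conv := ?_
    T_sub := fun x y _ => le_refl _
    T_inter := fun x y _ w hw => Or.inl hw.1
    T_pent := fun h i c hc k => hc k
    T_four := ?_ }, rfl⟩
  · rintro h x y w _ (hw | hw)
    · exact Or.inl (js.smul h x w hw)
    · exact Or.inr (js.smul h y w hw)
  · intro x y e
    obtain ⟨p, hp⟩ := js.one x y e
    have h : p ∈ J x ∩ J y := by rw [hp]; rfl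
    exact x_conv_union D.tree (js.conv x) (js.conv y) h.1 h.2
  · intro x y z t _ _ _ _ _ w w' _ h1 h2 h3 h4 _ _
    exact Or.inl ⟨Or.inl h1, Or.inl h2, Or.inl h3, Or.inl h4⟩

/-- `c` is the centre of the translate by `h` of the pentagon `i` -/
def CeJ (K : PQ H V) {X : Type} (J : V → Set X) (h : H) (i : K.I) (c : X) : Prop :=
  ∀ k, c ∈ J (h • K.pt i k) ∪ J (h • K.pt i (k + 1))

/-- the common point of `J x` and `J y` and the centres of the pentagons with the edge `x y` -/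
def W0 (K : PQ H V) {X : Type} (J : V → Set X) (x y : V) : Set X :=
  {c | c ∈ J x ∩ J y ∨ ∃ (h : H) (i : K.I) (k : Fin 5), CeJ K J h i c ∧
    ((x = h • K.pt i k ∧ y = h • K.pt i (k + 1)) ∨ (y = h • K.pt i k ∧ x = h • K.pt i (k + 1)))}

theorem W0_symm (K : PQ H V) {X : Type} (J : V → Set X) (x y : V) : W0 K J x y = W0 K J y x := by
  ext c
  constructor
  · rintro (h | ⟨h, i, k, h1, h2⟩)
    · exact Or.inl ⟨h.2, h.1⟩
    · exact Or.inr ⟨h, i, k, h1, h2.symm⟩
  · rintro (h | ⟨h, i, k, h1, h2⟩)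
    · exact Or.inl ⟨h.2, h.1⟩
    · exact Or.inr ⟨h, i, k, h1, h2.symm⟩

theorem W0_sub (K : PQ H V) {X : Type} (J : V → Set X) (x y : V) : W0 K J x y ⊆ J x ∪ J y := by
  rintro c (h | ⟨h, i, k, h1, ⟨rfl, rfl⟩ | ⟨rfl, rfl⟩⟩)
  · exact Or.inl h.1
  · exact h1 k
  · exact (h1 k).symm

theorem W0_smul (K : PQ H V) {D : Decomp H} {J : V → Set D.X} (js : JS K D J) (g : H) {x y : V}
    {c : D.X} (hc : c ∈ W0 K J x y) : g • c ∈ W0 K J (g • x) (g • y) := by
  rcases hc with h | ⟨h, i, k, h1, h2⟩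
  · exact Or.inl ⟨js.smul g _ _ h.1, js.smul g _ _ h.2⟩
  · refine Or.inr ⟨g * h, i, k, ?_, ?_⟩
    · intro k'
      rw [mul_smul, mul_smul]
      exact (h1 k').imp (js.smul g _ _) (js.smul g _ _)
    · rw [mul_smul, mul_smul]
      exact h2.imp (fun e => ⟨congrArg _ e.1, congrArg _ e.2⟩) (fun e => ⟨congrArg _ e.1, congrArg _ e.2⟩)

/-- the translates of a pair which are equal to a given pair -/
theorem finite_trans {x y a b : V} (hf : Finite ↥(stabilizer H x ⊓ stabilizer H y)) :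
    {h : H | x = h • a ∧ y = h • b}.Finite := by
  classical
  by_cases hne : ∃ h0 : H, x = h0 • a ∧ y = h0 • b
  · obtain ⟨h0, e1, e2⟩ := hne
    have hfin : ((fun g : ↥(stabilizer H x ⊓ stabilizer H y) => (g : H) * h0) '' Set.univ).Finite :=
      Set.toFinite _
    apply hfin.subset
    rintro h ⟨d1, d2⟩
    refine ⟨⟨h * h0⁻¹, ?_, ?_⟩, trivial, ?_⟩
    · show (h * h0⁻¹) • x = x
      rw [mul_smul]
      nth_rewrite 1 [e1]
      rw [inv_smul_smul, ← d1]
    · show (h * h0⁻¹) • y = y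
      rw [mul_smul]
      nth_rewrite 1 [e2]
      rw [inv_smul_smul, ← d2]
    · show h * h0⁻¹ * h0 = h
      rw [inv_mul_cancel_right]
  · have : {h : H | x = h • a ∧ y = h • b} = ∅ := by
      ext h
      constructor
      · intro hh
        exact absurd ⟨h, hh⟩ hne
      · intro hh
        exact absurd hh (by simp)
    rw [this]
    exact Set.finite_empty

theorem W0_finite (K : PQ H V) {D : Decomp H} {J : V → Set D.X} (js : JS K D J) {x y : V}
    (e : K.E x y) (hf : Finite ↥(stabilizer H x ⊓ stabilizer H y)) : (W0 K J x y).Finite := by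
  classical
  haveI := K.finI
  have hcen : ∀ (h : H) (i : K.I), {c : D.X | CeJ K J h i c}.Finite := by
    intro h i
    obtain ⟨c, _, hu⟩ := x_centre D.tree (fun k => J (h • K.pt i k)) (fun k => js.conv _)
      (fun k => js.one _ _ (K.E_smul h (K.pt_E i k)))
    apply (Set.finite_singleton c).subset
    intro c' hc'
    exact hu c' hc'
  have hp : (J x ∩ J y).Finite := by
    obtain ⟨p, hp⟩ := js.one x y e
    rw [hp]
    exact Set.finite_singleton p
  have hA : ∀ (i : K.I) (k : Fin 5),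
      (⋃ h ∈ {h : H | x = h • K.pt i k ∧ y = h • K.pt i (k + 1)}, {c : D.X | CeJ K J h i c}).Finite :=
    fun i k => (finite_trans hf).biUnion (fun h _ => hcen h i)
  have hf' : Finite ↥(stabilizer H y ⊓ stabilizer H x) := by
    rw [inf_comm]
    exact hf
  have hB : ∀ (i : K.I) (k : Fin 5),
      (⋃ h ∈ {h : H | y = h • K.pt i k ∧ x = h • K.pt i (k + 1)}, {c : D.X | CeJ K J h i c}).Finite :=
    fun i k => (finite_trans hf').biUnion (fun h _ => hcen h i)
  have hU : ((J x ∩ J y) ∪ ((⋃ i : K.I, ⋃ k : Fin 5, ⋃ h ∈ {h : H | x = h • K.pt i k ∧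
      y = h • K.pt i (k + 1)}, {c : D.X | CeJ K J h i c}) ∪ (⋃ i : K.I, ⋃ k : Fin 5,
      ⋃ h ∈ {h : H | y = h • K.pt i k ∧ x = h • K.pt i (k + 1)}, {c : D.X | CeJ K J h i c}))).Finite :=
    hp.union ((Set.finite_iUnion (fun i => Set.finite_iUnion (fun k => hA i k))).union
      (Set.finite_iUnion (fun i => Set.finite_iUnion (fun k => hB i k))))
  apply hU.subset
  rintro c (h | ⟨h, i, k, h1, h2 | h2⟩)
  · exact Or.inl h
  · refine Or.inr (Or.inl ?_)
    simp only [Set.mem_iUnion]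
    exact ⟨i, k, h, h2, h1⟩
  · refine Or.inr (Or.inr ?_)
    simp only [Set.mem_iUnion]
    exact ⟨i, k, h, h2, h1⟩

/-- arrows -/
theorem finOrb_ar (K : PQ H V) : FinOrb H {p : V × V | K.ar p.1 p.2} := by
  classical
  obtain ⟨F, hF, _, hcov⟩ := FinOrb_iff.1 K.fin
  have hfin : ∀ x : V, {a | K.ar x a}.Finite := by
    intro x
    by_contra hinf
    obtain ⟨t, ht, hcard⟩ := (Set.not_finite.1 hinf : Set.Infinite _).exists_subset_card_eq 3
    obtain ⟨a, b, c, hab, hac, hbc, rfl⟩ := Finset.card_eq_three.1 hcard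
    have ha := ht (show a ∈ _ by simp)
    have hb := ht (show b ∈ _ by simp)
    have hc := ht (show c ∈ _ by simp)
    rcases K.two x a b c ha hb hc with h | h | h
    · exact hab h
    · exact hbc h
    · exact hac h
  rw [FinOrb_iff]
  refine ⟨⋃ f ∈ F, (fun a => (f, a)) '' {a | K.ar f a}, ?_, ?_, ?_⟩
  · exact hF.biUnion (fun f _ => (hfin f).image _)
  · intro q hq
    simp only [Set.mem_iUnion] at hq
    obtain ⟨f, _, a, ha, rfl⟩ := hq
    exact ha
  · rintro ⟨x, a⟩ h1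
    have h1 : K.ar x a := h1
    obtain ⟨f, hf, h, rfl⟩ := hcov x trivial
    refine ⟨(f, h⁻¹ • a), ?_, h, ?_⟩
    · simp only [Set.mem_iUnion]
      refine ⟨f, hf, h⁻¹ • a, ?_, rfl⟩
      have := K.ar_smul h⁻¹ _ _ h1
      rwa [inv_smul_smul] at this
    · show (h • f, h • h⁻¹ • a) = (h • f, a)
      rw [smul_inv_smul]

theorem finOrb_E (K : PQ H V) : FinOrb H {p : V × V | K.E p.1 p.2} := by
  obtain ⟨F, hF, hFs, hcov⟩ := FinOrb_iff.1 (finOrb_ar K)
  rw [FinOrb_iff]
  refine ⟨F ∪ Prod.swap '' F, hF.union (hF.image _), ?_, ?_⟩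
  · rintro p (hp | ⟨q, hq, rfl⟩)
    · exact Or.inl (hFs hp)
    · exact Or.inr (hFs hq)
  · rintro ⟨x, y⟩ (h | h)
    · obtain ⟨f, hf, g, e⟩ := hcov (x, y) h
      exact ⟨f, Or.inl hf, g, e⟩
    · obtain ⟨f, hf, g, e⟩ := hcov (y, x) h
      refine ⟨Prod.swap f, Or.inr ⟨f, hf, rfl⟩, g, ?_⟩
      have e1 : g • f.1 = y := congrArg Prod.fst e
      have e2 : g • f.2 = x := congrArg Prod.snd e
      show (g • f.2, g • f.1) = (x, y)
      rw [e1, e2]

theorem exists_sy_hull (K : PX H V) (D : Decomp H) (J : V → Set D.X) (js : JS K.pq D J)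
    (hc : K.Clean) (hn : ∀ x y, K.E x y → Infinite ↥(stabilizer H x ⊓ stabilizer H y) →
      (J x).Finite ∧ (J y).Finite) :
    ∃ S : Sy K.pq D, S.J = J ∧ S.TFin ∧ S.NL := by
  have hact : TAct H D.G := ⟨D.tree, D.adj_smul, D.noinv⟩
  have hUconv : ∀ x y, K.pq.E x y → Conv D.G (J x ∪ J y) := by
    intro x y e
    obtain ⟨p, hp⟩ := js.one x y e
    have h : p ∈ J x ∩ J y := by rw [hp]; rfl
    exact x_conv_union D.tree (js.conv x) (js.conv y) h.1 h.2
  have hTsm : ∀ (h : H) (x y : V) (w : D.X), w ∈ hull D.G (W0 K.pq J x y) →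
      h • w ∈ hull D.G (W0 K.pq J (h • x) (h • y)) := by
    intro h x y w hw
    apply hull_mono _ (hact.hull_smul h _ w hw)
    rintro _ ⟨c, hc, rfl⟩
    exact W0_smul K.pq js h hc
  let S : Sy K.pq D := {
    J := J
    T := fun x y => hull D.G (W0 K.pq J x y)
    js := js
    T_symm := fun x y _ => by rw [W0_symm]
    T_smul := fun h x y w _ hw => hTsm h x y w hw
    T_conv := fun x y _ => hull_conv D.tree _
    T_sub := fun x y e => (hUconv x y e).hull_sub (W0_sub K.pq J x y)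
    T_inter := fun x y _ w hw => subset_hull _ (Or.inl hw)
    T_pent := fun h i c hc k => subset_hull _ (Or.inr ⟨h, i, k, hc, Or.inl ⟨rfl, rfl⟩⟩)
    T_four := by
      intro x y z t e1 e2 e3 e4 hxz w w' _ _ _ _ _ h5 h6
      exfalso
      rcases hc.c4 x y z t e1 e2 e3 e4 with h | h
      · exact hxz h
      · subst h
        obtain ⟨c, hcy⟩ := js.ne y
        have a1 : D.G.dist c w = D.G.dist c w' + 1 := h5 hcy
        have a2 : D.G.dist c w' = D.G.dist c w + 1 := h6 hcy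
        omega }
  refine ⟨S, rfl, ?_, fun x y e hi => hn x y e hi⟩
  -- the sets `T x y` are finite
  have hTf : ∀ x y, K.pq.E x y → (hull D.G (W0 K.pq J x y)).Finite := by
    intro x y e
    by_cases hi : Finite ↥(stabilizer H x ⊓ stabilizer H y)
    · exact hull_finite D.tree (W0_finite K.pq js e hi)
    · rw [not_finite_iff_infinite] at hi
      obtain ⟨f1, f2⟩ := hn x y e hi
      exact (f1.union f2).subset ((hUconv x y e).hull_sub (W0_sub K.pq J x y))
  obtain ⟨F, hF, hFs, hcov⟩ := FinOrb_iff.1 (finOrb_E K.pq)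
  show FinOrb H {p : (V × V) × D.X | K.pq.E p.1.1 p.1.2 ∧ p.2 ∈ hull D.G (W0 K.pq J p.1.1 p.1.2)}
  rw [FinOrb_iff]
  refine ⟨⋃ f ∈ F, (fun c => (f, c)) '' (hull D.G (W0 K.pq J f.1 f.2)), ?_, ?_, ?_⟩
  · exact hF.biUnion (fun f hf => (hTf f.1 f.2 (hFs hf)).image _)
  · intro q hq
    simp only [Set.mem_iUnion] at hq
    obtain ⟨f, hf, c, hc', rfl⟩ := hq
    exact ⟨hFs hf, hc'⟩
  · rintro ⟨⟨x, y⟩, c⟩ ⟨h1, h2⟩
    have h1 : K.pq.E x y := h1
    have h2 : c ∈ hull D.G (W0 K.pq J x y) := h2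
    obtain ⟨f, hf, g, e⟩ := hcov (x, y) h1
    have e1 : g • f.1 = x := congrArg Prod.fst e
    have e2 : g • f.2 = y := congrArg Prod.snd e
    refine ⟨(f, g⁻¹ • c), ?_, g, ?_⟩
    · simp only [Set.mem_iUnion]
      refine ⟨f, hf, g⁻¹ • c, ?_, rfl⟩
      have := hTsm g⁻¹ _ _ _ h2
      rwa [← e1, ← e2, inv_smul_smul, inv_smul_smul] at this
    · show (g • f, g • g⁻¹ • c) = ((x, y), c)
      rw [smul_inv_smul, e]

end TS0

end Pool.Agent.BT
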