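import Pool.Agent.BT.KTS
import Pool.Agent.BT.Hat
import Pool.Agent.BT.XOfSy
import Pool.Agent.BT.XBridge
import Pool.Agent.SAF.A34

/-!
# BT: from a connected system of subtrees with the bridge property to a structure `TS`
-/

namespace Pool.Agent.BT

open MulAction
open Pool.Agent.SAF (InC orbs FinOrb oc Decomp SAn SA Conv hull TAct FinOrb_iff)

theorem rtgMono {α : Type} {r s : α → α → Prop} (hrs : ∀ a b, r a b → s a b) {a b : α}
    (h : Relation.ReflTransGen r a b) : Relation.ReflTransGen s a b := by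
  induction h with
  | refl => exact Relation.ReflTransGen.refl
  | tail _ e ih => exact ih.tail (hrs _ _ e)

section

variable {H V : Type} [Group H] [MulAction H V] {K : PQ H V} {D : Decomp H} (S : Sy K D)

open Classical in
/-- the common point of adjacent subtrees -/
noncomputable def Sy.p (x y : V) : D.X :=
  if e : K.E x y then (S.js.one x y e).choose else (D.tree.1.nonempty).some

theorem Sy.p_spec {x y : V} (e : K.E x y) : S.J x ∩ S.J y = {S.p x y} := by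
  unfold Sy.p
  rw [dif_pos e]
  exact (S.js.one x y e).choose_spec

theorem Sy.p_l {x y : V} (e : K.E x y) : S.p x y ∈ S.J x := by
  have : S.p x y ∈ S.J x ∩ S.J y := by rw [S.p_spec e]; rfl
  exact this.1

theorem Sy.p_r {x y : V} (e : K.E x y) : S.p x y ∈ S.J y := by
  have : S.p x y ∈ S.J x ∩ S.J y := by rw [S.p_spec e]; rfl
  exact this.2

theorem Sy.p_u {x y : V} (e : K.E x y) {w : D.X} (h1 : w ∈ S.J x) (h2 : w ∈ S.J y) :
    w = S.p x y := by
  have : w ∈ S.J x ∩ S.J y := ⟨h1, h2⟩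
  rw [S.p_spec e] at this
  exact this

theorem Sy.p_T {x y : V} (e : K.E x y) : S.p x y ∈ S.T x y :=
  S.T_inter x y e ⟨S.p_l e, S.p_r e⟩

theorem Sy.not_bothE {x y : V} (e : K.E x y) {w u : D.X} (a : D.G.Adj w u) (h1 : w ∈ S.J x)
    (h2 : u ∈ S.J x) (h3 : w ∈ S.J y) (h4 : u ∈ S.J y) : False := by
  have e1 := S.p_u e h1 h3
  have e2 := S.p_u e h2 h4
  rw [e1, ← e2] at a
  exact D.G.loopless.irrefl _ a

/-- the large subtree of a vertex -/
def Sy.TV (x : V) : Set D.X := {w | w ∈ S.J x ∨ ∃ y, K.E x y ∧ w ∈ S.T x y}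

theorem Sy.TV_conv (x : V) : Conv D.G (S.TV x) := by
  apply SAF.conv_of_rtg D.tree
  have key : ∀ a ∈ S.TV x, ∃ b ∈ S.J x,
      Relation.ReflTransGen (fun u v => D.G.Adj u v ∧ u ∈ S.TV x ∧ v ∈ S.TV x) a b ∧
      Relation.ReflTransGen (fun u v => D.G.Adj u v ∧ u ∈ S.TV x ∧ v ∈ S.TV x) b a := by
    intro a ha
    rcases ha with ha | ⟨y, e, ha⟩
    · exact ⟨a, ha, Relation.ReflTransGen.refl, Relation.ReflTransGen.refl⟩
    · refine ⟨S.p x y, S.p_l e, ?_, ?_⟩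
      · exact rtgMono
          (fun u v h => ⟨h.1, Or.inr ⟨y, e, h.2.1⟩, Or.inr ⟨y, e, h.2.2⟩⟩)
          ((S.T_conv x y e).rtg D.tree ha (S.p_T e))
      · exact rtgMono
          (fun u v h => ⟨h.1, Or.inr ⟨y, e, h.2.1⟩, Or.inr ⟨y, e, h.2.2⟩⟩)
          ((S.T_conv x y e).rtg D.tree (S.p_T e) ha)
  intro a ha b hb
  obtain ⟨a', ha', h1, -⟩ := key a ha
  obtain ⟨b', hb', -, h2⟩ := key b hb
  exact (h1.trans (rtgMono (fun u v h => ⟨h.1, Or.inl h.2.1, Or.inl h.2.2⟩)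
    ((S.js.conv x).rtg D.tree ha' hb'))).trans h2

/-- an edge of `TV x` lies in `J x` or in a set `T x y` -/
theorem Sy.TV_edge {x : V} {w u : D.X} (a : D.G.Adj w u) (hw : w ∈ S.TV x) (hu : u ∈ S.TV x) :
    (w ∈ S.J x ∧ u ∈ S.J x) ∨ ∃ y, K.E x y ∧ w ∈ S.T x y ∧ u ∈ S.T x y := by
  -- points of `J x` on the sides of `w` and `u`
  have key : ∀ w u : D.X, D.G.Adj w u → w ∈ S.TV x → u ∈ S.TV x → ∀ z ∈ S.J x,
      D.G.dist z u = D.G.dist z w + 1 →
      (w ∈ S.J x ∧ u ∈ S.J x) ∨ ∃ y, K.E x y ∧ w ∈ S.T x y ∧ u ∈ S.T x y := by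
    intro w u a hw hu z hz hd
    -- `w` is between `z` and `u`
    have hwu : D.G.dist w u = 1 := SimpleGraph.dist_eq_one_iff_adj.2 a
    have hbt : D.G.dist z w + D.G.dist w u = D.G.dist z u := by omega
    rcases hu with hu | ⟨y, e, hu⟩
    · exact Or.inl ⟨S.js.conv x _ hz _ hu _ hbt, hu⟩
    · have hp := S.p_T e
      rcases (SAF.dist_edge D.tree a (S.p x y)).1 with h1 | h1
      · right
        refine ⟨y, e, ?_, hu⟩
        apply S.T_conv x y e _ hp _ hu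
        omega
      · left
        exact (S.js.conv x).edge D.tree a hz (S.p_l e) hd h1
  obtain ⟨z, hz⟩ := S.js.ne x
  rcases (SAF.dist_edge D.tree a z).1 with h | h
  · exact key w u a hw hu z hz h
  · rcases key u w a.symm hu hw z hz h with h | ⟨y, e, h1, h2⟩
    · exact Or.inl ⟨h.2, h.1⟩
    · exact Or.inr ⟨y, e, h2, h1⟩

/-- one step in the slice at `w` -/
def Sy.NE (w : D.X) (a b : V) : Prop := K.E a b ∧ w ∈ S.T a b

theorem Sy.NE_symm {w : D.X} {a b : V} (h : S.NE w a b) : S.NE w b a :=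
  ⟨h.1.symm, by rw [← S.T_symm a b h.1]; exact h.2⟩

/-- one step over the edge `w u` -/
def Sy.DE (w u : D.X) (a b : V) : Prop := K.E a b ∧ w ∈ S.T a b ∧ u ∈ S.T a b

theorem Sy.DE_symm {w u : D.X} {a b : V} (h : S.DE w u a b) : S.DE w u b a :=
  ⟨h.1.symm, by rw [← S.T_symm a b h.1]; exact h.2.1, by rw [← S.T_symm a b h.1]; exact h.2.2⟩

theorem rtgSymm {α : Type} {r : α → α → Prop} (hs : ∀ a b, r a b → r b a) {a b : α}
    (h : Relation.ReflTransGen r a b) : Relation.ReflTransGen r b a := by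
  induction h with
  | refl => exact Relation.ReflTransGen.refl
  | tail _ e ih => exact Relation.ReflTransGen.head (hs _ _ e) ih

theorem rtgEqv {α : Type} {r s : α → α → Prop} (hs : ∀ a b, s a b → s b a)
    (hrs : ∀ a b, r a b → Relation.ReflTransGen s a b) {a b : α} (h : Relation.EqvGen r a b) :
    Relation.ReflTransGen s a b := by
  induction h with
  | rel x y e => exact hrs _ _ e
  | refl x => exact Relation.ReflTransGen.refl
  | symm x y _ ih => exact rtgSymm hs ih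
  | trans x y z _ _ ih1 ih2 => exact ih1.trans ih2

theorem Sy.CN_DE {w u : D.X} {x z : V} (h : S.CN w u x z) :
    Relation.ReflTransGen (S.DE w u) x z := by
  obtain ⟨-, -, -, -, -, y, e1, e2, t1, t2, t3, t4⟩ := h
  exact (Relation.ReflTransGen.single ⟨e1, t1, t2⟩).tail (S.DE_symm ⟨e2, t3, t4⟩)

theorem Sy.DE_NE {w u : D.X} {x z : V} (h : Relation.ReflTransGen (S.DE w u) x z) :
    Relation.ReflTransGen (S.NE w) x z :=
  rtgMono (fun _ _ e => ⟨e.1, e.2.1⟩) h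

/-- the slices are connected -/
theorem Sy.Conn.connN (hc : S.Conn) {w : D.X} {x y : V} (hx : w ∈ S.TV x) (hy : w ∈ S.TV y) :
    Relation.ReflTransGen (S.NE w) x y := by
  have hsy : ∀ a b, S.NE w a b → S.NE w b a := fun a b h => S.NE_symm h
  have key : ∀ x, w ∈ S.TV x → ∃ z, w ∈ S.J z ∧ Relation.ReflTransGen (S.NE w) x z := by
    intro x hx
    rcases hx with hx | ⟨z, e, hz⟩
    · exact ⟨x, hx, Relation.ReflTransGen.refl⟩
    · rcases S.T_sub x z e hz with h | h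
      · exact ⟨x, h, Relation.ReflTransGen.refl⟩
      · exact ⟨z, h, Relation.ReflTransGen.single ⟨e, hz⟩⟩
  obtain ⟨x', hx', h1⟩ := key x hx
  obtain ⟨y', hy', h2⟩ := key y hy
  refine (h1.trans (rtgEqv hsy ?_ (hc.slice w x' y' hx' hy'))).trans (rtgSymm hsy h2)
  rintro a b (⟨e, h3, h4⟩ | ⟨u, h⟩)
  · exact Relation.ReflTransGen.single ⟨e, S.T_inter a b e ⟨h3, h4⟩⟩
  · exact S.DE_NE (S.CN_DE h)

/-- the walls are connected -/
theorem Sy.Conn.connD (hc : S.Conn) {w u : D.X} (a : D.G.Adj w u) {x y : V} (hx : w ∈ S.TV x)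
    (hx' : u ∈ S.TV x) (hy : w ∈ S.TV y) (hy' : u ∈ S.TV y) :
    Relation.ReflTransGen (S.DE w u) x y := by
  have hsy : ∀ a b, S.DE w u a b → S.DE w u b a := fun a b h => S.DE_symm h
  have key : ∀ x, w ∈ S.TV x → u ∈ S.TV x → ∃ z, w ∈ S.J z ∧ u ∈ S.J z ∧
      Relation.ReflTransGen (S.DE w u) x z := by
    intro x hx hx'
    rcases S.TV_edge a hx hx' with ⟨h1, h2⟩ | ⟨z, e, h1, h2⟩
    · exact ⟨x, h1, h2, Relation.ReflTransGen.refl⟩
    · -- `x` or `z` crosses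
      have hor : (w ∈ S.J x ∧ u ∈ S.J x) ∨ (w ∈ S.J z ∧ u ∈ S.J z) := by
        rcases S.T_sub x z e h1 with a1 | a1 <;> rcases S.T_sub x z e h2 with a2 | a2
        · exact Or.inl ⟨a1, a2⟩
        · have hp1 := S.p_l e
          have hp2 := S.p_r e
          rcases (SAF.dist_edge D.tree a (S.p x z)).1 with h | h
          · right
            refine ⟨S.js.conv z _ hp2 _ a2 _ ?_, a2⟩
            rw [SimpleGraph.dist_eq_one_iff_adj.2 a, h]
          · left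
            refine ⟨a1, S.js.conv x _ hp1 _ a1 _ ?_⟩
            rw [SimpleGraph.dist_eq_one_iff_adj.2 a.symm, h]
        · have hp1 := S.p_l e
          have hp2 := S.p_r e
          rcases (SAF.dist_edge D.tree a (S.p x z)).1 with h | h
          · left
            refine ⟨S.js.conv x _ hp1 _ a2 _ ?_, a2⟩
            rw [SimpleGraph.dist_eq_one_iff_adj.2 a, h]
          · right
            refine ⟨a1, S.js.conv z _ hp2 _ a1 _ ?_⟩
            rw [SimpleGraph.dist_eq_one_iff_adj.2 a.symm, h]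
        · exact Or.inr ⟨a1, a2⟩
      rcases hor with h | h
      · exact ⟨x, h.1, h.2, Relation.ReflTransGen.refl⟩
      · exact ⟨z, h.1, h.2, Relation.ReflTransGen.single ⟨e, h1, h2⟩⟩
  obtain ⟨x', hx1, hx2, h1⟩ := key x hx hx'
  obtain ⟨y', hy1, hy2, h2⟩ := key y hy hy'
  refine (h1.trans (rtgEqv hsy ?_ (hc.wall w u a x' y' hx1 hx2 hy1 hy2))).trans
    (rtgSymm hsy h2)
  intro a b h
  exact S.CN_DE h

/-- exactly one end of an edge over `w u` crosses -/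
theorem Sy.DE_cross {w u : D.X} (a : D.G.Adj w u) {x z : V} (e : S.DE w u x z) :
    ((w ∈ S.J x ∧ u ∈ S.J x) ∧ ¬ (w ∈ S.J z ∧ u ∈ S.J z)) ∨
      (¬ (w ∈ S.J x ∧ u ∈ S.J x) ∧ (w ∈ S.J z ∧ u ∈ S.J z)) := by
  obtain ⟨e, h1, h2⟩ := e
  have hno : ¬ ((w ∈ S.J x ∧ u ∈ S.J x) ∧ (w ∈ S.J z ∧ u ∈ S.J z)) :=
    fun h => S.not_bothE e a h.1.1 h.1.2 h.2.1 h.2.2
  have hor : (w ∈ S.J x ∧ u ∈ S.J x) ∨ (w ∈ S.J z ∧ u ∈ S.J z) := by
    have hp1 := S.p_l e
    have hp2 := S.p_r e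
    rcases S.T_sub x z e h1 with a1 | a1 <;> rcases S.T_sub x z e h2 with a2 | a2
    · exact Or.inl ⟨a1, a2⟩
    · rcases (SAF.dist_edge D.tree a (S.p x z)).1 with h | h
      · right
        refine ⟨S.js.conv z _ hp2 _ a2 _ ?_, a2⟩
        rw [SimpleGraph.dist_eq_one_iff_adj.2 a, h]
      · left
        refine ⟨a1, S.js.conv x _ hp1 _ a1 _ ?_⟩
        rw [SimpleGraph.dist_eq_one_iff_adj.2 a.symm, h]
    · rcases (SAF.dist_edge D.tree a (S.p x z)).1 with h | h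
      · left
        refine ⟨S.js.conv x _ hp1 _ a2 _ ?_, a2⟩
        rw [SimpleGraph.dist_eq_one_iff_adj.2 a, h]
      · right
        refine ⟨a1, S.js.conv z _ hp2 _ a1 _ ?_⟩
        rw [SimpleGraph.dist_eq_one_iff_adj.2 a.symm, h]
    · exact Or.inr ⟨a1, a2⟩
  tauto

theorem finite_of_three {α : Type} {s : Set α}
    (h : ∀ a ∈ s, ∀ b ∈ s, ∀ c ∈ s, a = b ∨ a = c ∨ b = c) : s.Finite := by
  by_cases h1 : ∃ a, a ∈ s
  · obtain ⟨a, ha⟩ := h1
    by_cases h2 : ∃ b ∈ s, b ≠ a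
    · obtain ⟨b, hb, hne⟩ := h2
      apply (Set.toFinite ({a, b} : Set α)).subset
      intro c hc
      rcases h a ha b hb c hc with e | e | e
      · exact absurd e.symm hne
      · exact Or.inl e.symm
      · exact Or.inr e.symm
    · push Not at h2
      apply (Set.finite_singleton a).subset
      intro c hc
      exact h2 c hc
  · push Not at h1
    have : s = ∅ := Set.eq_empty_of_forall_notMem h1
    rw [this]
    exact Set.finite_empty

theorem Sy.dirs_finite (x : V) (w : D.X) (hw : w ∈ S.J x) :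
    {u | D.G.Adj w u ∧ u ∈ S.J x}.Finite := by
  apply finite_of_three
  rintro a ⟨a1, a2⟩ b ⟨b1, b2⟩ c ⟨c1, c2⟩
  rcases S.js.two x w hw (Sum.inr a) (Or.inr ⟨a, rfl, a1, a2⟩) (Sum.inr b) (Or.inr ⟨b, rfl, b1, b2⟩)
    (Sum.inr c) (Or.inr ⟨c, rfl, c1, c2⟩) with e | e | e
  · exact Or.inl (Sum.inr_injective e)
  · exact Or.inr (Or.inl (Sum.inr_injective e))
  · exact Or.inr (Or.inr (Sum.inr_injective e))

theorem finOrb_of_finite {G Y : Type} [Group G] [MulAction G Y] {s : Set Y} (hs : s.Finite) :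
    FinOrb G s := Set.Finite.image _ hs

theorem Sy.fJ2 : FinOrb H {q : V × D.X × D.X | D.G.Adj q.2.1 q.2.2 ∧ q.2.1 ∈ S.J q.1 ∧
    q.2.2 ∈ S.J q.1} := by
  have h1 := SAF.finOrb_fibre (Z := D.X) _ S.js.fin
    (fun y : V × D.X => {u | D.G.Adj y.2 u ∧ u ∈ S.J y.1})
    (fun h y _ z hz => ⟨D.adj_smul h _ _ hz.1, S.js.smul h _ _ hz.2⟩)
    (fun y hy => finOrb_of_finite (S.dirs_finite y.1 y.2 hy))
  have h2 := FinOrb.image_equi (F := fun p : (V × D.X) × D.X => (p.1.1, p.1.2, p.2))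
    (fun _ _ => rfl) h1
  apply SAF.FinOrb.mono _ h2
  rintro ⟨x, w, u⟩ ⟨e1, e2, e3⟩
  exact ⟨((x, w), u), ⟨e2, e1, e3⟩, rfl⟩

theorem Sy.fE2 (ht : S.TFin) : FinOrb H {q : (V × V) × D.X × D.X | K.E q.1.1 q.1.2 ∧
    q.2.1 ∈ S.T q.1.1 q.1.2 ∧ q.2.2 ∈ S.T q.1.1 q.1.2 ∧ D.G.Adj q.2.1 q.2.2} := by
  have h1 := SAF.finOrb_fibre (Z := D.X) _ ht
    (fun y : (V × V) × D.X => {u | D.G.Adj y.2 u ∧ u ∈ S.T y.1.1 y.1.2})
    (fun h y hy z hz => ⟨D.adj_smul h _ _ hz.1, S.T_smul h _ _ _ hy.1 hz.2⟩)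
    (fun y hy => by
      apply finOrb_of_finite
      obtain ⟨e, hw⟩ := hy
      by_cases h1 : y.2 ∈ S.J y.1.1
      · by_cases h2 : y.2 ∈ S.J y.1.2
        · apply ((S.dirs_finite _ _ h1).union (S.dirs_finite _ _ h2)).subset
          rintro u ⟨a, hu⟩
          rcases S.DE_cross a ⟨e, hw, hu⟩ with ⟨c, -⟩ | ⟨-, c⟩
          · exact Or.inl ⟨a, c.2⟩
          · exact Or.inr ⟨a, c.2⟩
        · apply (S.dirs_finite _ _ h1).subset
          rintro u ⟨a, hu⟩
          rcases S.DE_cross a ⟨e, hw, hu⟩ with ⟨c, -⟩ | ⟨-, c⟩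
          · exact ⟨a, c.2⟩
          · exact absurd c.1 h2
      · have h2 : y.2 ∈ S.J y.1.2 := (S.T_sub _ _ e hw).resolve_left h1
        apply (S.dirs_finite _ _ h2).subset
        rintro u ⟨a, hu⟩
        rcases S.DE_cross a ⟨e, hw, hu⟩ with ⟨c, -⟩ | ⟨-, c⟩
        · exact absurd c.1 h1
        · exact ⟨a, c.2⟩)
  have h2 := FinOrb.image_equi (F := fun p : ((V × V) × D.X) × D.X => (p.1.1, p.1.2, p.2))
    (fun _ _ => rfl) h1
  apply SAF.FinOrb.mono _ h2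
  rintro ⟨xy, w, u⟩ ⟨e1, e2, e3, e4⟩
  exact ⟨((xy, w), u), ⟨⟨e1, e2⟩, e4, e3⟩, rfl⟩

theorem Sy.fV (ht : S.TFin) : FinOrb H {q : V × D.X | q.2 ∈ S.TV q.1} := by
  have h1 := FinOrb.image_equi (F := fun p : (V × V) × D.X => (p.1.1, p.2))
    (fun _ _ => rfl) ht
  apply SAF.FinOrb.mono _ (SAF.finOrb_union S.js.fin h1)
  rintro ⟨x, w⟩ (h | ⟨y, e, h⟩)
  · exact Or.inl h
  · exact Or.inr ⟨((x, y), w), ⟨e, h⟩, rfl⟩

theorem Sy.fV2 (ht : S.TFin) : FinOrb H {q : V × D.X × D.X | q.2.1 ∈ S.TV q.1 ∧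
    q.2.2 ∈ S.TV q.1 ∧ D.G.Adj q.2.1 q.2.2} := by
  have h1 := FinOrb.image_equi (F := fun p : (V × V) × D.X × D.X => (p.1.1, p.2))
    (fun _ _ => rfl) (S.fE2 ht)
  apply SAF.FinOrb.mono _ (SAF.finOrb_union S.fJ2 h1)
  rintro ⟨x, w, u⟩ ⟨h1, h2, a⟩
  rcases S.TV_edge a h1 h2 with h | ⟨y, e, h3, h4⟩
  · exact Or.inl ⟨a, h⟩
  · exact Or.inr ⟨((x, y), w, u), ⟨e, h3, h4, a⟩, rfl⟩

theorem exists_nb (D : Decomp H) (w : D.X) : ∃ u, D.G.Adj w u := by
  obtain ⟨h, hh⟩ := D.nofix w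
  obtain ⟨c, e, -⟩ := SAF.exists_next D.tree (Ne.symm hh)
  exact ⟨c, e⟩

end

section

variable {H V : Type} [Group H] [MulAction H V] {K : PX H V} {D : Decomp H}

/-- the structure `TS` of a connected system -/
noncomputable def Sy.ts (S : Sy K.pq D) (hcl : K.Clean) (hc : S.Conn) (ht : S.TFin) (hn : S.NL)
    (hsk : ∀ x, K.Sink x → ∀ w u, D.G.Adj w u → w ∈ S.J x → u ∈ S.J x → ¬ Heavy H (x, w, u))
    (hbr : ∀ w u, D.G.Adj w u → ∀ x y, K.E x y → w ∈ S.T x y → u ∈ S.T x y → Heavy H (x, y) ∨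
      Br (fun a b => K.E a b ∧ w ∈ S.T a b ∧ u ∈ S.T a b)
      {z | w ∈ S.TV z ∧ u ∈ S.TV z ∧ Heavy H (z, w, u)} x y) : TS H V D.X where
  K := K
  clean := hcl
  T := D.G
  act := tact D
  edgeC := D.edgeC
  finX := D.finV
  finT := D.finE
  J := S.J
  J_smul := S.js.smul
  J_conv := S.js.conv
  J_ne := S.js.ne
  p := S.p
  p_l := fun _ _ e => S.p_l e
  p_r := fun _ _ e => S.p_r e
  p_u := fun _ _ _ e h1 h2 => S.p_u e h1 h2
  pole := by
    intro x w u a h1 h2 hh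
    by_cases hx : ∃ a, K.ar x a
    · obtain ⟨b, hb, hb2⟩ := S.js.cross x hx w u a h1 h2
      refine ⟨b, hb, ?_⟩
      have h3 := hb2 (S.p_r (x := x) (y := b) (Or.inl hb))
      rw [SimpleGraph.dist_comm, SimpleGraph.dist_comm (u := u)]
      exact h3
    · exact absurd hh (hsk x (fun b hb => hx ⟨b, hb⟩) w u a h1 h2)
  TV := S.TV
  TV_smul := by
    rintro h x w (hw | ⟨y, e, hw⟩)
    · exact Or.inl (S.js.smul h _ _ hw)
    · exact Or.inr ⟨h • y, K.pq.E_smul h e, S.T_smul h _ _ _ e hw⟩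
  TV_conv := S.TV_conv
  J_TV := fun _ _ h => Or.inl h
  TE := S.T
  TE_symm := by
    intro x y w e hw
    rw [← S.T_symm x y e]
    exact hw
  TE_smul := S.T_smul
  TE_conv := S.T_conv
  TE_TV := fun x y w e hw => Or.inr ⟨y, e, hw⟩
  TE_J := fun x y w e hw => S.T_sub x y e hw
  p_TE := fun x y e => S.p_T e
  TE_fin := by
    intro x y e hh
    have h1 : Infinite ↥(stabilizer H x ⊓ stabilizer H y) := by
      rw [← not_finite_iff_infinite]
      intro hf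
      apply hh
      apply finite_of_le _ hf
      intro g hg
      rw [mem_stabilizer_iff] at hg
      exact ⟨congrArg Prod.fst hg, congrArg Prod.snd hg⟩
    obtain ⟨h2, h3⟩ := hn x y e h1
    exact (h2.union h3).subset (S.T_sub x y e)
  fV := S.fV ht
  fV2 := S.fV2 ht
  fE := ht
  fE2 := S.fE2 ht
  c := S.cc
  c_TE := by
    intro i j
    have h2 := S.T_pent 1 i (S.cc i) (by
      intro k
      rw [one_smul, one_smul]
      exact S.cc_spec i k) j
    rw [one_smul, one_smul] at h2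
    exact h2
  neN := by
    intro w
    obtain ⟨u, e⟩ := exists_nb D w
    obtain ⟨x, hx, -⟩ := hc.crossed w u e
    exact ⟨x, Or.inl hx⟩
  connN := fun w x y hx hy => hc.connN (S := S) hx hy
  connD := fun w u x y a h1 h2 h3 h4 => hc.connD (S := S) a h1 h2 h3 h4
  br := hbr

end

end Pool.Agent.BT
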