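import Pool.Agent.BT.Defs
import Pool.Agent.SAF.A11
import Pool.Agent.SAF.A34
import Pool.Agent.SAG.AG

/-!
# BT: Theorem A, part 1: local vertices, their components, equivariance
-/

namespace Pool.Agent.BT

open MulAction
open Pool.Agent.SAF (InC orbs FinOrb oc Decomp SAn SA Conv hull dist_edge exists_cut)

/-! ### sides of an edge -/

namespace TA

variable {X : Type} {G : SimpleGraph X}

theorem bey_or (hG : G.IsTree) {w w' : X} (h : G.Adj w w') (x : X) :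
    x ∈ bey G w w' ∨ x ∈ bey G w' w := by
  rcases (dist_edge hG h x).1 with e | e
  · exact Or.inr e
  · exact Or.inl e

theorem bey_not {w w' x : X} (h1 : x ∈ bey G w w') (h2 : x ∈ bey G w' w) : False := by
  have e1 : G.dist x w = G.dist x w' + 1 := h1
  have e2 : G.dist x w' = G.dist x w + 1 := h2
  omega

theorem bey_self {w w' : X} (h : G.Adj w w') : w' ∈ bey G w w' := by
  have : G.dist w' w = 1 := SimpleGraph.dist_eq_one_iff_adj.2 h.symm
  show G.dist w' w = G.dist w' w' + 1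
  rw [SimpleGraph.dist_self, this]

theorem conv_cr (hG : G.IsTree) {C : Set X} (hC : Conv G C) {w w' a b : X} (h : G.Adj w w')
    (ha : a ∈ C) (hb : b ∈ C) (h1 : a ∈ bey G w' w) (h2 : b ∈ bey G w w') : w ∈ C ∧ w' ∈ C :=
  hC.edge hG h ha hb h1 h2

theorem conv_sd (hG : G.IsTree) {C : Set X} (hC : Conv G C) {w w' a : X} (h : G.Adj w w')
    (hn : ¬ (w ∈ C ∧ w' ∈ C)) (ha : a ∈ C) (h1 : a ∈ bey G w w') : C ⊆ bey G w w' := by
  intro b hb
  rcases bey_or hG h b with e | e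
  · exact e
  · exact absurd (conv_cr hG hC h hb ha e h1) hn

theorem conv_sd' (hG : G.IsTree) {C : Set X} (hC : Conv G C) {w w' a : X} (h : G.Adj w w')
    (hn : ¬ (w ∈ C ∧ w' ∈ C)) (ha : a ∈ C) (h1 : a ∈ bey G w' w) : C ⊆ bey G w' w :=
  conv_sd hG hC h.symm (fun e => hn ⟨e.2, e.1⟩) ha h1

theorem bey_smul {H : Type} [Group H] [MulAction H X] (hs : ∀ (h : H) (x y : X), G.Adj x y →
    G.Adj (h • x) (h • y)) (hG : G.IsTree) (ni : ∀ (h : H) (x y : X), G.Adj x y →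
    ¬ (h • x = y ∧ h • y = x)) (h : H) {w w' x : X} (e : x ∈ bey G w w') :
    h • x ∈ bey G (h • w) (h • w') := by
  have ta : SAF.TAct H G := ⟨hG, hs, ni⟩
  show G.dist (h • x) (h • w) = G.dist (h • x) (h • w') + 1
  rw [ta.dist_smul, ta.dist_smul]
  exact e

end TA

open TA

namespace Sy

variable {H : Type} [Group H] {V : Type} [MulAction H V] {K : PQ H V} {D : Decomp H} (S : Sy K D)

/-- `x` crosses the edge `w w'` -/
def Cs (w w' : D.X) (x : V) : Prop := w ∈ S.J x ∧ w' ∈ S.J x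

/-- the common point of adjacent subtrees -/
theorem one_eq {x y : V} (e : K.E x y) {a b : D.X} (h1 : a ∈ S.J x) (h2 : a ∈ S.J y)
    (h3 : b ∈ S.J x) (h4 : b ∈ S.J y) : a = b := by
  obtain ⟨p, hp⟩ := S.js.one x y e
  have ha : a ∈ S.J x ∩ S.J y := ⟨h1, h2⟩
  have hb : b ∈ S.J x ∩ S.J y := ⟨h3, h4⟩
  rw [hp] at ha hb
  rw [Set.mem_singleton_iff.1 ha, Set.mem_singleton_iff.1 hb]

theorem one_ex {x y : V} (e : K.E x y) : ∃ p, p ∈ S.J x ∧ p ∈ S.J y := by
  obtain ⟨p, hp⟩ := S.js.one x y e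
  have : p ∈ S.J x ∩ S.J y := by rw [hp]; exact rfl
  exact ⟨p, this.1, this.2⟩

theorem not_both {w w' : D.X} (h : D.G.Adj w w') {x y : V} (e : K.E x y) (hx : S.Cs w w' x)
    (hy : S.Cs w w' y) : False :=
  h.ne (S.one_eq e hx.1 hy.1 hx.2 hy.2)

theorem CN.symm' {w w' : D.X} {x z : V} (h : S.CN w w' x z) : S.CN w w' z x := by
  obtain ⟨a, b1, b2, b3, b4, y, e1, e2, c1, c2, c3, c4⟩ := h
  exact ⟨a, b3, b4, b1, b2, y, e2, e1, c3, c4, c1, c2⟩

theorem CN.swap {w w' : D.X} {x z : V} (h : S.CN w w' x z) : S.CN w' w x z := by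
  obtain ⟨a, b1, b2, b3, b4, y, e1, e2, c1, c2, c3, c4⟩ := h
  exact ⟨a.symm, b2, b1, b4, b3, y, e1, e2, c2, c1, c4, c3⟩

theorem CN.smul {w w' : D.X} {x z : V} (h : H) (k : S.CN w w' x z) :
    S.CN (h • w) (h • w') (h • x) (h • z) := by
  obtain ⟨a, b1, b2, b3, b4, y, e1, e2, c1, c2, c3, c4⟩ := k
  exact ⟨D.adj_smul h _ _ a, S.js.smul h _ _ b1, S.js.smul h _ _ b2,
    S.js.smul h _ _ b3, S.js.smul h _ _ b4, h • y, K.E_smul h e1, K.E_smul h e2,
    S.T_smul h _ _ _ e1 c1, S.T_smul h _ _ _ e1 c2, S.T_smul h _ _ _ e2 c3,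
    S.T_smul h _ _ _ e2 c4⟩

theorem CN.l {w w' : D.X} {x z : V} (k : S.CN w w' x z) : S.Cs w w' x := by
  obtain ⟨a, b1, b2, b3, b4, y, e1, e2, c1, c2, c3, c4⟩ := k
  exact ⟨b1, b2⟩

theorem CN.r {w w' : D.X} {x z : V} (k : S.CN w w' x z) : S.Cs w w' z :=
  CN.l S (CN.symm' S k)

theorem SR.mem {w : D.X} {x z : V} (k : S.SR w x z) : w ∈ S.J x ∧ w ∈ S.J z := by
  rcases k with ⟨e, h1, h2⟩ | ⟨w', k⟩
  · exact ⟨h1, h2⟩
  · exact ⟨(CN.l S k).1, (CN.r S k).1⟩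

theorem SR.symm' {w : D.X} {x z : V} (k : S.SR w x z) : S.SR w z x := by
  rcases k with ⟨e, h1, h2⟩ | ⟨w', k⟩
  · exact Or.inl ⟨e.symm, h2, h1⟩
  · exact Or.inr ⟨w', CN.symm' S k⟩

theorem SR.smul {w : D.X} {x z : V} (h : H) (k : S.SR w x z) : S.SR (h • w) (h • x) (h • z) := by
  rcases k with ⟨e, h1, h2⟩ | ⟨w', k⟩
  · exact Or.inl ⟨K.E_smul h e, S.js.smul h _ _ h1, S.js.smul h _ _ h2⟩
  · exact Or.inr ⟨h • w', CN.smul S h k⟩

/-! ### local vertices -/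

/-- local vertices -/
def V1 : Type := {q : V × D.X // q.2 ∈ S.J q.1}

instance actV1 : MulAction H S.V1 where
  smul h q := ⟨(h • q.1.1, h • q.1.2), S.js.smul h _ _ q.2⟩
  one_smul q := Subtype.ext (one_smul H q.1)
  mul_smul a b q := Subtype.ext (mul_smul a b q.1)

/-- the generating relation -/
def lr (q r : S.V1) : Prop := q.1.2 = r.1.2 ∧ S.SR q.1.2 q.1.1 r.1.1

/-- same component -/
def ls : Setoid S.V1 := Relation.EqvGen.setoid S.lr

theorem lr_smul (h : H) (q r : S.V1) (e : S.lr q r) : S.lr (h • q) (h • r) := by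
  refine ⟨?_, ?_⟩
  · change h • q.1.2 = h • r.1.2
    rw [e.1]
  · exact SR.smul S h e.2

theorem ls_smul (h : H) (q r : S.V1) (e : S.ls q r) : S.ls (h • q) (h • r) := by
  induction e with
  | rel x y hxy => exact Relation.EqvGen.rel _ _ (S.lr_smul h x y hxy)
  | refl x => exact Relation.EqvGen.refl _
  | symm x y _ ih => exact Relation.EqvGen.symm _ _ ih
  | trans x y z _ _ ih1 ih2 => exact Relation.EqvGen.trans _ _ _ ih1 ih2

/-- vertices of the new tree -/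
def LV : Type := Quotient S.ls

/-- the component of a local vertex -/
def cm (q : S.V1) : S.LV := Quotient.mk S.ls q

instance actLV : MulAction H S.LV where
  smul h := Quotient.map (fun p => h • p) (fun p q e => S.ls_smul h p q e)
  one_smul l := by
    induction l using Quotient.inductionOn with
    | h p => exact congrArg (Quotient.mk S.ls) (one_smul H p)
  mul_smul a b l := by
    induction l using Quotient.inductionOn with
    | h p => exact congrArg (Quotient.mk S.ls) (mul_smul a b p)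

theorem ls_snd (q r : S.V1) (e : S.ls q r) : q.1.2 = r.1.2 := by
  induction e with
  | rel x y hxy => exact hxy.1
  | refl x => rfl
  | symm x y _ ih => exact ih.symm
  | trans x y z _ _ ih1 ih2 => exact ih1.trans ih2

/-- the point of the old tree under a vertex of the new tree -/
def pr : S.LV → D.X := Quotient.lift (fun q => q.1.2) (fun q r e => S.ls_snd q r e)

theorem cm_smul (h : H) (q : S.V1) : S.cm (h • q) = h • S.cm q := rfl

theorem pr_cm (q : S.V1) : S.pr (S.cm q) = q.1.2 := rfl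

theorem pr_smul (h : H) (l : S.LV) : S.pr (h • l) = h • S.pr l := by
  induction l using Quotient.inductionOn with
  | h p => rfl

/-- the new subtree of `x` -/
def J' (x : V) : Set S.LV := {l | ∃ h : S.pr l ∈ S.J x, S.cm ⟨(x, S.pr l), h⟩ = l}

theorem J'_iff (x : V) (l : S.LV) : l ∈ S.J' x ↔ ∃ q : S.V1, q.1.1 = x ∧ S.cm q = l := by
  constructor
  · rintro ⟨h, e⟩
    exact ⟨_, rfl, e⟩
  · rintro ⟨q, rfl, rfl⟩
    exact ⟨q.2, rfl⟩

theorem J'_cm (q : S.V1) : S.cm q ∈ S.J' q.1.1 := (S.J'_iff _ _).2 ⟨q, rfl, rfl⟩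

theorem J'_pr {x : V} {l : S.LV} (h : l ∈ S.J' x) : S.pr l ∈ S.J x := h.choose

theorem J'_smul (h : H) (x : V) (l : S.LV) (e : l ∈ S.J' x) : h • l ∈ S.J' (h • x) := by
  obtain ⟨q, rfl, rfl⟩ := (S.J'_iff _ _).1 e
  exact (S.J'_iff _ _).2 ⟨h • q, rfl, rfl⟩

theorem J'_inj {l l' : S.LV} {x : V} (h : l ∈ S.J' x) (h' : l' ∈ S.J' x) (e : S.pr l = S.pr l') :
    l = l' := by
  obtain ⟨a, ha⟩ := h
  obtain ⟨b, hb⟩ := h'
  rw [← ha, ← hb]
  exact congrArg S.cm (Subtype.ext (Prod.ext rfl e))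

/-- transport along a generating pair -/
theorem J'_SR {x z : V} {l : S.LV} (h : l ∈ S.J' x) (k : S.SR (S.pr l) x z) : l ∈ S.J' z := by
  obtain ⟨a, ha⟩ := h
  have hm := (SR.mem S k).2
  refine ⟨hm, ?_⟩
  have h1 : S.cm ⟨(x, S.pr l), a⟩ = S.cm ⟨(z, S.pr l), hm⟩ :=
    Quotient.sound (Relation.EqvGen.rel _ _ ⟨rfl, k⟩)
  exact h1.symm.trans ha

theorem J'_E {x y : V} {l : S.LV} (e : K.E x y) (h : l ∈ S.J' x) (h' : S.pr l ∈ S.J y) :
    l ∈ S.J' y := S.J'_SR h (Or.inl ⟨e, S.J'_pr h, h'⟩)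

/-- adjacency of the new tree -/
def LAdj (l l' : S.LV) : Prop := D.G.Adj (S.pr l) (S.pr l') ∧ ∃ x, l ∈ S.J' x ∧ l' ∈ S.J' x

/-- the new tree -/
def LG : SimpleGraph S.LV where
  Adj := S.LAdj
  symm := ⟨fun _ _ h => ⟨h.1.symm, h.2.imp (fun _ e => ⟨e.2, e.1⟩)⟩⟩
  loopless := ⟨fun _ h => D.G.loopless.irrefl _ h.1⟩

theorem LAdj_smul (h : H) (l l' : S.LV) (e : S.LAdj l l') : S.LAdj (h • l) (h • l') := by
  refine ⟨?_, ?_⟩
  · rw [S.pr_smul, S.pr_smul]
    exact D.adj_smul h _ _ e.1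
  · obtain ⟨x, hx, hx'⟩ := e.2
    exact ⟨h • x, S.J'_smul h x l hx, S.J'_smul h x l' hx'⟩

end Sy

end Pool.Agent.BT
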