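import Pool.Agent.BT.ThA1

/-!
# BT: Theorem A, part 2: the cut function of a wall
-/

namespace Pool.Agent.BT

open MulAction
open Pool.Agent.SAF (InC orbs FinOrb oc Decomp SAn SA Conv hull dist_edge exists_cut)

namespace TA

theorem z2d (a : ZMod 2) : a + a = 0 := CharTwo.add_self_eq_zero a

/-- three convex sets which meet pairwise have a common point -/
theorem helly_aux {X : Type} {G : SimpleGraph X} (hG : G.IsTree) {A B C : Set X}
    (hA : Conv G A) (hB : Conv G B) (hC : Conv G C) {p r u : X} (p0 : p ∈ A) (p1 : p ∈ C)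
    (r0 : r ∈ B) (r1 : r ∈ C) (u0 : u ∈ A) (u1 : u ∈ B) : ∃ m, m ∈ A ∧ m ∈ B ∧ m ∈ C := by
  have key : ∀ (n : ℕ) (u : X), G.dist u p = n → u ∈ A → u ∈ B →
      ∃ m, m ∈ A ∧ m ∈ B ∧ m ∈ C := by
    intro n
    induction n with
    | zero =>
      intro u h hA' hB'
      have : u = p := (hG.connected.dist_eq_zero_iff).1 h
      subst this
      exact ⟨u, hA', hB', p1⟩
    | succ n ih =>
      intro u h hA' hB'
      have hne : u ≠ p := by
        rintro rfl
        rw [SimpleGraph.dist_self] at h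
        omega
      obtain ⟨v, hv, e⟩ := SAF.exists_next hG hne
      have h1 : G.dist u v = 1 := SimpleGraph.dist_eq_one_iff_adj.2 hv
      have hvA : v ∈ A := hA u hA' p p0 v (by omega)
      by_cases hvB : v ∈ B
      · exact ih v (by omega) hvA hvB
      · rcases bey_or hG hv r with k | k
        · exact absurd (conv_cr hG hB hv hB' r0 (bey_self hv.symm) k).2 hvB
        · have kp : p ∈ bey G u v := by
            show G.dist p u = G.dist p v + 1
            have s1 : G.dist p u = G.dist u p := SimpleGraph.dist_comm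
            have s2 : G.dist p v = G.dist v p := SimpleGraph.dist_comm
            omega
          exact ⟨u, hA', hB', (conv_cr hG hC hv r1 p1 k kp).1⟩
  exact key _ u rfl u0 u1

end TA

open TA

namespace Sy

variable {H : Type} [Group H] {V : Type} [MulAction H V] {K : PQ H V} {D : Decomp H} (S : Sy K D)

/-- centres exist -/
def Cen : Prop := ∀ v : Fin 5 → V, (∀ k, K.E (v k) (v (k + 1))) →
  ∃ c, ∀ k, c ∈ S.J (v k) ∪ S.J (v (k + 1))

/-- a closed walk of length five with a centre in the subtrees `T` -/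
def W5 (a0 a1 a2 a3 a4 : V) : Prop :=
  K.E a0 a1 ∧ K.E a1 a2 ∧ K.E a2 a3 ∧ K.E a3 a4 ∧ K.E a4 a0 ∧
    ∃ c, (c ∈ S.J a0 ∪ S.J a1 ∧ c ∈ S.T a0 a1) ∧ (c ∈ S.J a1 ∪ S.J a2 ∧ c ∈ S.T a1 a2) ∧
      (c ∈ S.J a2 ∪ S.J a3 ∧ c ∈ S.T a2 a3) ∧ (c ∈ S.J a3 ∪ S.J a4 ∧ c ∈ S.T a3 a4) ∧
      (c ∈ S.J a4 ∪ S.J a0 ∧ c ∈ S.T a4 a0)

theorem W5.rot {a0 a1 a2 a3 a4 : V} (h : S.W5 a0 a1 a2 a3 a4) : S.W5 a1 a2 a3 a4 a0 := by
  obtain ⟨e0, e1, e2, e3, e4, c, c0, c1, c2, c3, c4⟩ := h
  exact ⟨e1, e2, e3, e4, e0, c, c1, c2, c3, c4, c0⟩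

theorem cn_aux {w w' : D.X} (h : D.G.Adj w w') {a0 a1 a2 : V} {c : D.X} (e0 : K.E a0 a1)
    (e1 : K.E a1 a2) (h0 : S.Cs w w' a0) (h2 : S.Cs w w' a2) (hs : S.J a1 ⊆ bey D.G w w')
    (hc : c ∈ bey D.G w' w) (c0 : c ∈ S.T a0 a1) (c1 : c ∈ S.T a1 a2) : S.CN w w' a0 a2 := by
  obtain ⟨p, p0, p1⟩ := S.one_ex e0
  obtain ⟨q, q1, q2⟩ := S.one_ex e1
  have hp : p ∈ S.T a0 a1 := S.T_inter _ _ e0 ⟨p0, p1⟩
  have hq : q ∈ S.T a1 a2 := S.T_inter _ _ e1 ⟨q1, q2⟩
  have k0 := conv_cr D.tree (S.T_conv _ _ e0) h c0 hp hc (hs p1)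
  have k1 := conv_cr D.tree (S.T_conv _ _ e1) h c1 hq hc (hs q1)
  rw [S.T_symm _ _ e1] at k1
  exact ⟨h, h0.1, h0.2, h2.1, h2.2, a1, e0, e1.symm, k0.1, k0.2, k1.1, k1.2⟩

/-- a predicate on the vertices crossing `w w'`, invariant under `CN` -/
structure Cl (w w' : D.X) (C : V → Prop) : Prop where
  adj : D.G.Adj w w'
  mem : ∀ x, C x → S.Cs w w' x
  cl : ∀ x z, S.CN w w' x z → (C x ↔ C z)

variable {S} {w w' : D.X} {C : V → Prop} (hC : S.Cl w w' C)

open Classical in
/-- indicator of the class -/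
noncomputable def ci (C : V → Prop) (x : V) : ZMod 2 := if C x then 1 else 0

open Classical in
/-- side of a vertex -/
noncomputable def si (S : Sy K D) (w w' : D.X) (x : V) : ZMod 2 :=
  if S.J x ⊆ bey D.G w w' then 1 else 0

open Classical in
/-- side of a point -/
noncomputable def sd (w w' u : D.X) : ZMod 2 := if u ∈ bey D.G w w' then 1 else 0

/-- the cochain -/
noncomputable def ph (S : Sy K D) (w w' : D.X) (C : V → Prop) (x y : V) : ZMod 2 :=
  ci C x * si S w w' y + ci C y * si S w w' x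

theorem ph_symm (x y : V) : ph S w w' C x y = ph S w w' C y x := by
  unfold ph
  ring

theorem si_eq (h : D.G.Adj w w') {x : V} (hn : ¬ S.Cs w w' x) {u : D.X}
    (hu : u ∈ S.J x) : si S w w' x = sd w w' u := by
  classical
  unfold si sd
  by_cases k : u ∈ bey D.G w w'
  · rw [if_pos k, if_pos (conv_sd D.tree (S.js.conv x) h hn hu k)]
  · rw [if_neg k, if_neg (fun k' => k (k' hu))]

theorem si_adj (h : D.G.Adj w w') {x y : V} (e : K.E x y) (hx : ¬ S.Cs w w' x)
    (hy : ¬ S.Cs w w' y) : si S w w' x = si S w w' y := by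
  obtain ⟨p, p0, p1⟩ := S.one_ex e
  rw [si_eq h hx p0, si_eq h hy p1]

theorem nc_r (h : D.G.Adj w w') {x y : V} (e : K.E x y) (hx : S.Cs w w' x) : ¬ S.Cs w w' y :=
  fun k => S.not_both h e hx k

theorem nc_l (h : D.G.Adj w w') {x y : V} (e : K.E x y) (hy : S.Cs w w' y) : ¬ S.Cs w w' x :=
  fun k => S.not_both h e k hy

theorem ci_nc (hC : S.Cl w w' C) {x : V} (h : ¬ S.Cs w w' x) : ci C x = 0 := by
  classical
  unfold ci
  rw [if_neg (fun k => h (hC.mem x k))]

theorem ci_cn (hC : S.Cl w w' C) {x z : V} (h : S.CN w w' x z) : ci C x = ci C z := by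
  classical
  unfold ci
  by_cases k : C x
  · rw [if_pos k, if_pos ((hC.cl x z h).1 k)]
  · rw [if_neg k, if_neg (fun k' => k ((hC.cl x z h).2 k'))]

/-- two non-crossing vertices with different sides -/
theorem si_ne {x y : V} (h : D.G.Adj w w') (nx : ¬ S.Cs w w' x)
    (ny : ¬ S.Cs w w' y) (hne : si S w w' x ≠ si S w w' y) :
    (S.J x ⊆ bey D.G w w' ∧ S.J y ⊆ bey D.G w' w) ∨
      (S.J x ⊆ bey D.G w' w ∧ S.J y ⊆ bey D.G w w') := by
  classical
  obtain ⟨a, ha⟩ := S.js.ne x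
  obtain ⟨b, hb⟩ := S.js.ne y
  rw [si_eq h nx ha, si_eq h ny hb] at hne
  unfold sd at hne
  rcases bey_or D.tree h a with ka | ka
  · rcases bey_or D.tree h b with kb | kb
    · rw [if_pos ka, if_pos kb] at hne
      exact absurd rfl hne
    · exact Or.inl ⟨conv_sd D.tree (S.js.conv x) h nx ha ka,
        conv_sd' D.tree (S.js.conv y) h ny hb kb⟩
  · rcases bey_or D.tree h b with kb | kb
    · exact Or.inr ⟨conv_sd' D.tree (S.js.conv x) h nx ha ka,
        conv_sd D.tree (S.js.conv y) h ny hb kb⟩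
    · rw [if_neg (fun k => bey_not k ka), if_neg (fun k => bey_not k kb)] at hne
      exact absurd rfl hne

theorem ph3 (hC : S.Cl w w' C) {x y z : V} (e1 : K.E x y) (e2 : K.E y z) (e3 : K.E z x) :
    ph S w w' C x y + ph S w w' C y z + ph S w w' C z x = 0 := by
  have key : ∀ x y z : V, K.E x y → K.E y z → K.E z x →
      ci C x * (si S w w' y + si S w w' z) = 0 := by
    intro x y z e1 e2 e3
    by_cases hx : S.Cs w w' x
    · rw [si_adj hC.adj e2 (nc_r hC.adj e1 hx) (nc_l hC.adj e3 hx), z2d, mul_zero]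
    · rw [ci_nc hC hx, zero_mul]
  have k1 := key x y z e1 e2 e3
  have k2 := key y z x e2 e3 e1
  have k3 := key z x y e3 e1 e2
  unfold ph
  linear_combination k1 + k2 + k3

theorem four_aux (hC : S.Cl w w' C) {x y z t : V} (e1 : K.E x y) (e2 : K.E y z) (e3 : K.E z t)
    (e4 : K.E t x) : (ci C x + ci C z) * (si S w w' y + si S w w' t) = 0 := by
  by_cases hs : si S w w' y = si S w w' t
  · rw [hs, z2d, mul_zero]
  · by_cases hxz : x = z
    · rw [hxz, z2d, zero_mul]
    have h := hC.adj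
    have main : ∀ (hy : ¬ S.Cs w w' y) (ht : ¬ S.Cs w w' t), S.Cs w w' x → S.Cs w w' z →
        ci C x = ci C z := by
      intro hy ht hx hz
      rcases si_ne h hy ht hs with ⟨k1, k2⟩ | ⟨k1, k2⟩
      · rcases S.T_four x y z t e1 e2 e3 e4 hxz w w' h hx.1 hx.2 hz.1 hz.2 k1 k2 with
          ⟨t1, t2, t3, t4⟩ | ⟨t1, t2, t3, t4⟩
        · exact ci_cn hC ⟨h, hx.1, hx.2, hz.1, hz.2, y, e1, e2.symm, t1, t2, t3, t4⟩
        · exact ci_cn hC ⟨h, hx.1, hx.2, hz.1, hz.2, t, e4.symm, e3, t1, t2, t3, t4⟩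
      · rcases S.T_four x t z y e4.symm e3.symm e2.symm e1.symm hxz
          w w' h hx.1 hx.2 hz.1 hz.2 k2 k1 with ⟨t1, t2, t3, t4⟩ | ⟨t1, t2, t3, t4⟩
        · exact ci_cn hC ⟨h, hx.1, hx.2, hz.1, hz.2, t, e4.symm, e3, t1, t2, t3, t4⟩
        · exact ci_cn hC ⟨h, hx.1, hx.2, hz.1, hz.2, y, e1, e2.symm, t1, t2, t3, t4⟩
    have cross : ∀ z : V, K.E y z → K.E z t → ¬ S.Cs w w' y → ¬ S.Cs w w' t →
        S.Cs w w' z := by
      intro z e2 e3 hy ht
      obtain ⟨p, p0, p1⟩ := S.one_ex e2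
      obtain ⟨q, q0, q1⟩ := S.one_ex e3
      rcases si_ne h hy ht hs with ⟨k1, k2⟩ | ⟨k1, k2⟩
      · exact conv_cr D.tree (S.js.conv z) h q0 p1 (k2 q1) (k1 p0)
      · exact conv_cr D.tree (S.js.conv z) h p1 q0 (k1 p0) (k2 q1)
    by_cases hx : S.Cs w w' x
    · have hy := nc_r h e1 hx
      have ht := nc_l h e4 hx
      have hz := cross z e2 e3 hy ht
      rw [main hy ht hx hz, z2d, zero_mul]
    · by_cases hz : S.Cs w w' z
      · have hy := nc_l h e2 hz
        have ht := nc_r h e3 hz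
        exact absurd (cross x e1.symm e4.symm hy ht) hx
      · rw [ci_nc hC hx, ci_nc hC hz, add_zero, zero_mul]

theorem ph4 (hC : S.Cl w w' C) {x y z t : V} (e1 : K.E x y) (e2 : K.E y z) (e3 : K.E z t)
    (e4 : K.E t x) :
    ph S w w' C x y + ph S w w' C y z + ph S w w' C z t + ph S w w' C t x = 0 := by
  have k1 := four_aux hC e1 e2 e3 e4
  have k2 := four_aux hC e2 e3 e4 e1
  unfold ph
  linear_combination k1 + k2

theorem five_a (hC : S.Cl w w' C) {a0 a1 a2 a3 a4 : V} (W : S.W5 a0 a1 a2 a3 a4)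
    (h0 : S.Cs w w' a0) (h2 : S.Cs w w' a2) :
    ph S w w' C a0 a1 + ph S w w' C a1 a2 + ph S w w' C a2 a3 + ph S w w' C a3 a4 +
      ph S w w' C a4 a0 = 0 := by
  obtain ⟨e0, e1, e2, e3, e4, c, c0, c1, c2, c3, c4⟩ := W
  have h := hC.adj
  have n1 := nc_r h e0 h0
  have n3 := nc_r h e2 h2
  have n4 := nc_l h e4 h0
  have z1 := ci_nc hC n1
  have z3 := ci_nc hC n3
  have z4 := ci_nc hC n4
  have s34 := si_adj h e3 n3 n4
  unfold ph
  rw [z1, z3, z4, s34]
  by_cases hs : si S w w' a1 = si S w w' a4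
  · rw [hs]
    have k1 := z2d (ci C a0 * si S w w' a4)
    have k2 := z2d (ci C a2 * si S w w' a4)
    linear_combination k1 + k2
  · have hcn : ci C a0 = ci C a2 := by
      rcases si_ne h n1 n4 hs with ⟨k1, k4⟩ | ⟨k1, k4⟩
      · have k3 : S.J a3 ⊆ bey D.G w' w := by
          obtain ⟨p, p0, p1⟩ := S.one_ex e3
          exact conv_sd' D.tree (S.js.conv a3) h n3 p0 (k4 p1)
        have hc : c ∈ bey D.G w' w := by
          rcases c3.1 with k | k
          · exact k3 k
          · exact k4 k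
        exact ci_cn hC (S.cn_aux h e0 e1 h0 h2 k1 hc c0.2 c1.2)
      · have k3 : S.J a3 ⊆ bey D.G w w' := by
          obtain ⟨p, p0, p1⟩ := S.one_ex e3
          exact conv_sd D.tree (S.js.conv a3) h n3 p0 (k4 p1)
        have hc : c ∈ bey D.G w w' := by
          rcases c3.1 with k | k
          · exact k3 k
          · exact k4 k
        exact ci_cn hC (CN.swap S (S.cn_aux h.symm e0 e1 ⟨h0.2, h0.1⟩ ⟨h2.2, h2.1⟩ k1 hc
          c0.2 c1.2))
    rw [hcn]
    have k1 := z2d (ci C a2 * si S w w' a1)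
    have k2 := z2d (ci C a2 * si S w w' a4)
    linear_combination k1 + k2

theorem five_b (hC : S.Cl w w' C) {a0 a1 a2 a3 a4 : V} (W : S.W5 a0 a1 a2 a3 a4)
    (h02 : ¬ (S.Cs w w' a0 ∧ S.Cs w w' a2)) (h03 : ¬ (S.Cs w w' a3 ∧ S.Cs w w' a0)) :
    ci C a0 * (si S w w' a1 + si S w w' a4) = 0 := by
  obtain ⟨e0, e1, e2, e3, e4, -⟩ := W
  have h := hC.adj
  by_cases h0 : S.Cs w w' a0
  · have n1 := nc_r h e0 h0
    have n4 := nc_l h e4 h0
    have n2 : ¬ S.Cs w w' a2 := fun k => h02 ⟨h0, k⟩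
    have n3 : ¬ S.Cs w w' a3 := fun k => h03 ⟨k, h0⟩
    rw [si_adj h e1 n1 n2, si_adj h e2 n2 n3, si_adj h e3 n3 n4, z2d, mul_zero]
  · rw [ci_nc hC h0, zero_mul]

theorem ph5 (hC : S.Cl w w' C) {a0 a1 a2 a3 a4 : V} (W : S.W5 a0 a1 a2 a3 a4) :
    ph S w w' C a0 a1 + ph S w w' C a1 a2 + ph S w w' C a2 a3 + ph S w w' C a3 a4 +
      ph S w w' C a4 a0 = 0 := by
  have W1 := W.rot
  have W2 := W1.rot
  have W3 := W2.rot
  have W4 := W3.rot
  by_cases h02 : S.Cs w w' a0 ∧ S.Cs w w' a2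
  · exact five_a hC W h02.1 h02.2
  by_cases h13 : S.Cs w w' a1 ∧ S.Cs w w' a3
  · linear_combination five_a hC W1 h13.1 h13.2
  by_cases h24 : S.Cs w w' a2 ∧ S.Cs w w' a4
  · linear_combination five_a hC W2 h24.1 h24.2
  by_cases h30 : S.Cs w w' a3 ∧ S.Cs w w' a0
  · linear_combination five_a hC W3 h30.1 h30.2
  by_cases h41 : S.Cs w w' a4 ∧ S.Cs w w' a1
  · linear_combination five_a hC W4 h41.1 h41.2
  have k0 := five_b hC W h02 h30
  have k1 := five_b hC W1 h13 h41
  have k2 := five_b hC W2 h24 h02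
  have k3 := five_b hC W3 h30 h13
  have k4 := five_b hC W4 h41 h24
  unfold ph
  linear_combination k0 + k1 + k2 + k3 + k4

theorem W5_pent (hcen : S.Cen) (h : H) (i : K.I) :
    S.W5 (h • K.pt i 0) (h • K.pt i 1) (h • K.pt i 2) (h • K.pt i 3) (h • K.pt i 4) := by
  have he : ∀ j, K.E (h • K.pt i j) (h • K.pt i (j + 1)) := fun j => K.E_smul h (K.pt_E i j)
  obtain ⟨c, hc⟩ := hcen (fun j => h • K.pt i j) he
  have ht := S.T_pent h i c hc
  exact ⟨he 0, he 1, he 2, he 3, he 4, c, ⟨hc 0, ht 0⟩, ⟨hc 1, ht 1⟩, ⟨hc 2, ht 2⟩,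
    ⟨hc 3, ht 3⟩, ⟨hc 4, ht 4⟩⟩

/-- the potential of the wall -/
theorem exists_pot (hcen : S.Cen) (hC : S.Cl w w' C) :
    ∃ g : V → ZMod 2, ∀ x y, K.E x y → ph S w w' C x y = g x + g y := by
  apply K.H1 (ph S w w' C) (fun x y => ph_symm x y)
  · intro x y z t e1 e2 e3 e4
    exact ph4 hC e1 e2 e3 e4
  · intro x y z e1 e2 e3
    exact ph3 hC e1 e2 e3
  · intro i h
    rw [Fin.sum_univ_five]
    exact ph5 hC (W5_pent hcen h i)

/-- the function on local vertices -/
theorem exists_loc (hcen : S.Cen) (hC : S.Cl w w' C) :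
    ∃ G : V → D.X → ZMod 2,
      (∀ u x z, S.SR u x z → G x u = G z u) ∧
      (∀ x u u', u ∈ S.J x → u' ∈ S.J x → D.G.Adj u u' →
        (G x u ≠ G x u' ↔ (C x ∧ ((u = w ∧ u' = w') ∨ (u = w' ∧ u' = w))))) := by
  classical
  obtain ⟨g, hg⟩ := exists_pot hcen hC
  have h := hC.adj
  -- the side function changes exactly on the edge
  have hsd : ∀ u u', D.G.Adj u u' →
      (sd w w' u ≠ sd w w' u' ↔ ((u = w ∧ u' = w') ∨ (u = w' ∧ u' = w))) := by
    obtain ⟨f, hf, hf0, hf1⟩ := exists_cut D.G D.tree w w' h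
    have hfs : ∀ u, sd w w' u = f u := by
      intro u
      unfold sd
      rcases bey_or D.tree h u with k | k
      · rw [if_pos k]
        exact ((hf1 u).2 k).symm
      · rw [if_neg (fun k' => bey_not k' k)]
        exact ((hf0 u).2 k).symm
    intro u u' huu
    rw [hfs, hfs]
    exact hf u u' huu
  have hloc : ∀ x y u, K.E x y → u ∈ S.J x → u ∈ S.J y →
      g x + ci C x * sd w w' u = g y + ci C y * sd w w' u := by
    intro x y u e hx hy
    have k := hg x y e
    unfold ph at k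
    have main : ci C x * (si S w w' y + sd w w' u) = 0 := by
      by_cases c : S.Cs w w' x
      · rw [si_eq h (nc_r h e c) hy, z2d, mul_zero]
      · rw [ci_nc hC c, zero_mul]
    have main' : ci C y * (si S w w' x + sd w w' u) = 0 := by
      by_cases c : S.Cs w w' y
      · rw [si_eq h (nc_l h e c) hx, z2d, mul_zero]
      · rw [ci_nc hC c, zero_mul]
    have c1 := z2d (g y)
    have c2 := z2d (ci C x * sd w w' u)
    have c3 := z2d (ci C y * sd w w' u)
    linear_combination -k + main + main' - c1 - c3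
  refine ⟨fun x u => g x + ci C x * sd w w' u, ?_, ?_⟩
  · intro u x z k
    rcases k with ⟨e, h1, h2⟩ | ⟨u', hh, b1, b2, b3, b4, q, e1, e2, t1, t2, t3, t4⟩
    · exact hloc x z u e h1 h2
    · -- common neighbour
      dsimp only
      obtain ⟨p, p0, p1⟩ := S.one_ex e1
      obtain ⟨r, r0, r1⟩ := S.one_ex e2
      -- the three sets have a common point
      have hpr : p ∈ S.J z := by
        obtain ⟨m, m1, m2, m3⟩ := helly_aux D.tree (S.js.conv x) (S.js.conv z)
          (S.js.conv q) p0 p1 r0 r1 b1 b3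
        rw [S.one_eq e1 p0 p1 m1 m3]
        exact m2
      have k1 := hloc x q p e1 p0 p1
      have k2 := hloc z q p e2 hpr p1
      have key : ci C x * (sd w w' u + sd w w' p) = ci C z * (sd w w' u + sd w w' p) := by
        by_cases hs : sd w w' u = sd w w' p
        · rw [hs, z2d, mul_zero, mul_zero]
        · have hcn : S.CN w w' x z := by
            have hTx : p ∈ S.T x q := S.T_inter _ _ e1 ⟨p0, p1⟩
            have hTz : p ∈ S.T z q := S.T_inter _ _ e2 ⟨hpr, p1⟩
            have hcr : ∀ Cc : Set D.X, Conv D.G Cc → u ∈ Cc → p ∈ Cc → w ∈ Cc ∧ w' ∈ Cc := by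
              intro Cc hCc hu hp
              unfold sd at hs
              rcases bey_or D.tree h u with ku | ku
              · rcases bey_or D.tree h p with kp | kp
                · rw [if_pos ku, if_pos kp] at hs
                  exact absurd rfl hs
                · exact conv_cr D.tree hCc h hp hu kp ku
              · rcases bey_or D.tree h p with kp | kp
                · exact conv_cr D.tree hCc h hu hp ku kp
                · rw [if_neg (fun k => bey_not k ku), if_neg (fun k => bey_not k kp)] at hs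
                  exact absurd rfl hs
            have j1 := hcr _ (S.js.conv x) b1 p0
            have j2 := hcr _ (S.js.conv z) b3 hpr
            have j3 := hcr _ (S.T_conv x q e1) t1 hTx
            have j4 := hcr _ (S.T_conv z q e2) t3 hTz
            exact ⟨h, j1.1, j1.2, j2.1, j2.2, q, e1, e2, j3.1, j3.2, j4.1, j4.2⟩
          rw [ci_cn hC hcn]
      have c1 := z2d (ci C x * sd w w' p)
      have c2 := z2d (ci C z * sd w w' p)
      linear_combination k1 - k2 + key - c1 + c2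
  · intro x u u' hu hu' huu
    dsimp only
    unfold ci
    by_cases c : C x
    · rw [if_pos c, one_mul, one_mul]
      constructor
      · intro hne
        exact ⟨c, (hsd u u' huu).1 (fun e => hne (by rw [e]))⟩
      · rintro ⟨-, hh⟩ e
        exact (hsd u u' huu).2 hh (add_left_cancel e)
    · rw [if_neg c, zero_mul, zero_mul]
      constructor
      · intro hne
        exact absurd rfl hne
      · rintro ⟨hh, -⟩
        exact absurd hh c

end Sy

end Pool.Agent.BT
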