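import Pool.Agent.BT.ThA2

/-!
# BT: Theorem A, part 3: the new tree
-/

namespace Pool.Agent.BT

open MulAction
open Pool.Agent.SAF (InC orbs FinOrb oc Decomp SAn SA Conv hull isTree_of_cut conv_of_rtg
  exists_next)
open Pool.Agent.SAG (InC.mono)
open TA

namespace Sy

variable {H : Type} [Group H] {V : Type} [MulAction H V] {K : PQ H V} {D : Decomp H} (S : Sy K D)

theorem J'_SR_iff {x z : V} {l : S.LV} (k : S.SR (S.pr l) x z) : l ∈ S.J' x ↔ l ∈ S.J' z :=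
  ⟨fun h => S.J'_SR h k, fun h => S.J'_SR h (SR.symm' S k)⟩

/-- transport along a wall -/
theorem J'_wall {l l' : S.LV} {x z : V} (k : Relation.EqvGen (S.CN (S.pr l) (S.pr l')) x z) :
    (l ∈ S.J' x ↔ l ∈ S.J' z) ∧ (l' ∈ S.J' x ↔ l' ∈ S.J' z) := by
  induction k with
  | rel x y h =>
    exact ⟨S.J'_SR_iff (Or.inr ⟨_, h⟩), S.J'_SR_iff (Or.inr ⟨_, CN.swap S h⟩)⟩
  | refl x => exact ⟨Iff.rfl, Iff.rfl⟩
  | symm x y _ ih => exact ⟨ih.1.symm, ih.2.symm⟩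
  | trans x y z _ _ ih1 ih2 => exact ⟨ih1.1.trans ih2.1, ih1.2.trans ih2.2⟩

/-- the class of `x` over the edge `w w'` -/
def Wc (w w' : D.X) (x0 x : V) : Prop :=
  S.Cs w w' x ∧ Relation.EqvGen (S.CN w w') x0 x

theorem Wc_cl {w w' : D.X} (h : D.G.Adj w w') (x0 : V) : S.Cl w w' (S.Wc w w' x0) where
  adj := h
  mem x hx := hx.1
  cl x z k := by
    constructor
    · rintro ⟨-, e⟩
      exact ⟨CN.r S k, e.trans _ _ _ (Relation.EqvGen.rel _ _ k)⟩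
    · rintro ⟨-, e⟩
      exact ⟨CN.l S k, e.trans _ _ _ ((Relation.EqvGen.rel _ _ k).symm _ _)⟩

/-- the cut function on the new tree -/
theorem exists_cutL (hcen : S.Cen) {w w' : D.X} {C : V → Prop} (hC : S.Cl w w' C) :
    ∃ g : S.LV → ZMod 2, ∀ x l l', l ∈ S.J' x → l' ∈ S.J' x → D.G.Adj (S.pr l) (S.pr l') →
      (g l ≠ g l' ↔ (C x ∧ ((S.pr l = w ∧ S.pr l' = w') ∨ (S.pr l = w' ∧ S.pr l' = w)))) := by
  obtain ⟨G, hG1, hG2⟩ := exists_loc hcen hC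
  have hl : ∀ q r : S.V1, Relation.EqvGen S.lr q r → G q.1.1 q.1.2 = G r.1.1 r.1.2 := by
    intro q r k
    induction k with
    | rel x y h =>
      have := hG1 _ _ _ h.2
      rw [this, h.1]
    | refl x => rfl
    | symm x y _ ih => exact ih.symm
    | trans x y z _ _ ih1 ih2 => exact ih1.trans ih2
  refine ⟨Quotient.lift (fun q => G q.1.1 q.1.2) hl, ?_⟩
  intro x l l' h1 h2 h3
  obtain ⟨a, ha⟩ := id h1
  obtain ⟨b, hb⟩ := id h2
  have e1 : Quotient.lift (fun q : S.V1 => G q.1.1 q.1.2) hl l = G x (S.pr l) := by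
    conv_lhs => rw [← ha]
    rfl
  have e2 : Quotient.lift (fun q : S.V1 => G q.1.1 q.1.2) hl l' = G x (S.pr l') := by
    conv_lhs => rw [← hb]
    rfl
  rw [e1, e2]
  exact hG2 x _ _ a b h3

/-- lifting of paths in a convex subset of `J x` -/
theorem lift_path {x : V} {C0 : Set D.X} (hC0 : Conv D.G C0) (hs : C0 ⊆ S.J x) {l m : S.LV}
    (hl : l ∈ S.J' x) (hl0 : S.pr l ∈ C0) (hm : m ∈ S.J' x) (hm0 : S.pr m ∈ C0) :
    Relation.ReflTransGen (fun a b => S.LG.Adj a b ∧ (a ∈ S.J' x ∧ S.pr a ∈ C0) ∧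
      (b ∈ S.J' x ∧ S.pr b ∈ C0)) l m := by
  have h := hC0.rtg D.tree hl0 hm0
  have key : ∀ c, Relation.ReflTransGen (fun u v => D.G.Adj u v ∧ u ∈ C0 ∧ v ∈ C0) (S.pr l) c →
      ∀ n : S.LV, n ∈ S.J' x → S.pr n = c →
      Relation.ReflTransGen (fun a b => S.LG.Adj a b ∧ (a ∈ S.J' x ∧ S.pr a ∈ C0) ∧
        (b ∈ S.J' x ∧ S.pr b ∈ C0)) l n := by
    intro c hc
    induction hc with
    | refl =>
      intro n hn e
      rw [S.J'_inj hn hl e]
    | @tail b c _ h2 ih =>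
      intro n hn e
      let m0 : S.LV := S.cm ⟨(x, b), hs h2.2.1⟩
      have hm0 : m0 ∈ S.J' x := S.J'_cm ⟨(x, b), hs h2.2.1⟩
      have e0 : S.pr m0 = b := rfl
      refine (ih m0 hm0 e0).tail ⟨⟨?_, x, hm0, hn⟩, ⟨hm0, ?_⟩, ⟨hn, ?_⟩⟩
      · rw [e0, e]
        exact h2.1
      · rw [e0]
        exact h2.2.1
      · rw [e]
        exact h2.2.2
  exact key _ h m hm rfl

theorem rtg_reach {X : Type} {G : SimpleGraph X} {r : X → X → Prop}
    (hr : ∀ a b, r a b → G.Adj a b) {x y : X} (h : Relation.ReflTransGen r x y) :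
    G.Reachable x y := by
  induction h with
  | refl => exact SimpleGraph.Reachable.refl _
  | tail _ h2 ih => exact ih.trans (hr _ _ h2).reachable

theorem J'_reach {x : V} {l m : S.LV} (hl : l ∈ S.J' x) (hm : m ∈ S.J' x) :
    S.LG.Reachable l m :=
  rtg_reach (fun _ _ h => h.1) (S.lift_path (S.js.conv x) (fun _ h => h) hl
    (S.J'_pr hl) hm (S.J'_pr hm))

theorem J'_ne (x : V) : ∃ l, l ∈ S.J' x := by
  obtain ⟨w, hw⟩ := S.js.ne x
  exact ⟨S.cm ⟨(x, w), hw⟩, S.J'_cm ⟨(x, w), hw⟩⟩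

theorem J'_ex {x : V} {w : D.X} (hw : w ∈ S.J x) : ∃ l, l ∈ S.J' x ∧ S.pr l = w :=
  ⟨S.cm ⟨(x, w), hw⟩, S.J'_cm ⟨(x, w), hw⟩, rfl⟩

theorem LG_conn : S.LG.Connected := by
  obtain ⟨x0⟩ := K.ne
  obtain ⟨l0, hl0⟩ := S.J'_ne x0
  have hne : Nonempty S.LV := ⟨l0⟩
  have key : ∀ y, Relation.ReflTransGen K.E x0 y → ∀ m, m ∈ S.J' y → S.LG.Reachable l0 m := by
    intro y h
    induction h with
    | refl =>
      intro m hm
      exact S.J'_reach hl0 hm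
    | @tail b c _ h2 ih =>
      intro m hm
      obtain ⟨p, p0, p1⟩ := S.one_ex h2
      obtain ⟨n, hn, en⟩ := S.J'_ex p0
      have hn' : n ∈ S.J' c := S.J'_E h2 hn (by rw [en]; exact p1)
      exact (ih n hn).trans (S.J'_reach hn' hm)
  refine ⟨fun a b => ?_⟩
  have all : ∀ a : S.LV, S.LG.Reachable l0 a := by
    intro a
    induction a using Quotient.inductionOn with
    | h q => exact key q.1.1 (K.conn x0 q.1.1) _ (S.J'_cm q)
  exact (all a).symm.trans (all b)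

theorem LG_tree (hcen : S.Cen) : S.LG.IsTree := by
  apply isTree_of_cut _ S.LG_conn
  intro l l' hl
  obtain ⟨ha, x0, h0, h0'⟩ : S.LAdj l l' := hl
  obtain ⟨g, hg⟩ := S.exists_cutL hcen (S.Wc_cl ha x0)
  refine ⟨g, ?_, ?_⟩
  · exact (hg x0 l l' h0 h0' ha).2 ⟨⟨⟨S.J'_pr h0, S.J'_pr h0'⟩,
      Relation.EqvGen.refl _⟩, Or.inl ⟨rfl, rfl⟩⟩
  · intro a b hab hne
    obtain ⟨hab1, y, hy, hy'⟩ : S.LAdj a b := hab
    obtain ⟨⟨-, hw⟩, hh⟩ := (hg y a b hy hy' hab1).1 hne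
    have t := S.J'_wall hw
    have t1 := t.1.1 h0
    have t2 := t.2.1 h0'
    rcases hh with ⟨e1, e2⟩ | ⟨e1, e2⟩
    · exact Or.inl ⟨S.J'_inj hy t1 e1, S.J'_inj hy' t2 e2⟩
    · exact Or.inr ⟨S.J'_inj hy t2 e1, S.J'_inj hy' t1 e2⟩

theorem dist_pr_le (l m : S.LV) : D.G.dist (S.pr l) (S.pr m) ≤ S.LG.dist l m := by
  obtain ⟨p, hp⟩ := S.LG_conn.exists_walk_length_eq_dist l m
  let f : S.LG →g D.G := ⟨S.pr, fun {a b} h => (h : S.LAdj a b).1⟩
  have h1 := SimpleGraph.dist_le (p.map f)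
  rw [SimpleGraph.Walk.length_map, hp] at h1
  exact h1

/-- the projection is isometric on the new subtrees -/
theorem iso {x : V} : ∀ (n : ℕ) (l m : S.LV), l ∈ S.J' x → m ∈ S.J' x →
    D.G.dist (S.pr l) (S.pr m) = n → S.LG.dist l m = n := by
  intro n
  induction n with
  | zero =>
    intro l m hl hm h
    have e : S.pr l = S.pr m := (D.tree.connected.dist_eq_zero_iff).1 h
    rw [S.J'_inj hl hm e, SimpleGraph.dist_self]
  | succ n ih =>
    intro l m hl hm h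
    have hne : S.pr l ≠ S.pr m := by
      intro e
      rw [e, SimpleGraph.dist_self] at h
      omega
    obtain ⟨v, hv, ev⟩ := exists_next D.tree hne
    have h1 : D.G.dist (S.pr l) v = 1 := SimpleGraph.dist_eq_one_iff_adj.2 hv
    have hvJ : v ∈ S.J x := S.js.conv x _ (S.J'_pr hl) _ (S.J'_pr hm) v (by omega)
    obtain ⟨k, hk, ek⟩ := S.J'_ex hvJ
    have h2 := ih k m hk hm (by rw [ek]; omega)
    have h3 : S.LG.Adj l k := ⟨by rw [ek]; exact hv, x, hl, hk⟩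
    have h4 : S.LG.dist l k = 1 := SimpleGraph.dist_eq_one_iff_adj.2 h3
    have h5 : S.LG.dist l m ≤ S.LG.dist l k + S.LG.dist k m := S.LG_conn.dist_triangle
    have h6 := S.dist_pr_le l m
    omega

theorem iso' {x : V} {l m : S.LV} (hl : l ∈ S.J' x) (hm : m ∈ S.J' x) :
    S.LG.dist l m = D.G.dist (S.pr l) (S.pr m) := S.iso _ l m hl hm rfl

theorem bey_iff {x : V} {l l' m : S.LV} (hl : l ∈ S.J' x) (hl' : l' ∈ S.J' x)
    (hm : m ∈ S.J' x) : m ∈ bey S.LG l l' ↔ S.pr m ∈ bey D.G (S.pr l) (S.pr l') := by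
  show S.LG.dist m l = S.LG.dist m l' + 1 ↔
    D.G.dist (S.pr m) (S.pr l) = D.G.dist (S.pr m) (S.pr l') + 1
  rw [S.iso' hm hl, S.iso' hm hl']

theorem J'_conv (hcen : S.Cen) (x : V) : Conv S.LG (S.J' x) := by
  apply conv_of_rtg (S.LG_tree hcen)
  intro a ha b hb
  have h := S.lift_path (S.js.conv x) (fun _ h => h) ha (S.J'_pr ha) hb (S.J'_pr hb)
  refine Relation.ReflTransGen.mono ?_ _ _ h
  intro u v k
  exact ⟨k.1, k.2.1.1, k.2.2.1⟩

/-- the sets `T` over the new tree -/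
def T' (x y : V) : Set S.LV := {l | S.pr l ∈ S.T x y ∧ (l ∈ S.J' x ∨ l ∈ S.J' y)}

theorem T'_conv (hcen : S.Cen) {x y : V} (e : K.E x y) : Conv S.LG (S.T' x y) := by
  obtain ⟨p, p0, p1⟩ := S.one_ex e
  obtain ⟨n, hn, en⟩ := S.J'_ex p0
  have hn' : n ∈ S.J' y := S.J'_E e hn (by rw [en]; exact p1)
  have hT : S.pr n ∈ S.T x y := by
    rw [en]
    exact S.T_inter _ _ e ⟨p0, p1⟩
  have key : ∀ a, a ∈ S.T' x y → Relation.ReflTransGen
      (fun u v => S.LG.Adj u v ∧ u ∈ S.T' x y ∧ v ∈ S.T' x y) a n := by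
    rintro a ⟨ha, ha' | ha'⟩
    · have h := S.lift_path (C0 := S.T x y ∩ S.J x) ((S.T_conv x y e).inter (S.js.conv x))
        (fun _ h => h.2) ha' ⟨ha, S.J'_pr ha'⟩ hn ⟨hT, S.J'_pr hn⟩
      refine Relation.ReflTransGen.mono ?_ _ _ h
      intro u v k
      exact ⟨k.1, ⟨k.2.1.2.1, Or.inl k.2.1.1⟩, ⟨k.2.2.2.1, Or.inl k.2.2.1⟩⟩
    · have h := S.lift_path (C0 := S.T x y ∩ S.J y) ((S.T_conv x y e).inter (S.js.conv y))
        (fun _ h => h.2) ha' ⟨ha, S.J'_pr ha'⟩ hn' ⟨hT, S.J'_pr hn'⟩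
      refine Relation.ReflTransGen.mono ?_ _ _ h
      intro u v k
      exact ⟨k.1, ⟨k.2.1.2.1, Or.inr k.2.1.1⟩, ⟨k.2.2.2.1, Or.inr k.2.2.1⟩⟩
  apply conv_of_rtg (S.LG_tree hcen)
  intro a ha b hb
  refine (key a ha).trans ?_
  have h := key b hb
  have sym : ∀ u v : S.LV, Relation.ReflTransGen
      (fun u v => S.LG.Adj u v ∧ u ∈ S.T' x y ∧ v ∈ S.T' x y) u v →
      Relation.ReflTransGen (fun u v => S.LG.Adj u v ∧ u ∈ S.T' x y ∧ v ∈ S.T' x y) v u := by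
    intro u v h
    induction h with
    | refl => exact Relation.ReflTransGen.refl
    | tail _ h2 ih => exact Relation.ReflTransGen.head ⟨h2.1.symm, h2.2.2, h2.2.1⟩ ih
  exact sym _ _ h

theorem finite_of_three {X : Type} {s : Set X}
    (h : ∀ a ∈ s, ∀ b ∈ s, ∀ c ∈ s, a = b ∨ a = c ∨ b = c) : s.Finite := by
  by_contra hi
  have hi' : s.Infinite := hi
  obtain ⟨a, ha⟩ := hi'.nonempty
  obtain ⟨b, hb, hba⟩ := (hi'.sdiff (Set.finite_singleton a)).nonempty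
  obtain ⟨c, hc, hcab⟩ := (hi'.sdiff ((Set.finite_singleton a).union
    (Set.finite_singleton b))).nonempty
  rcases h a ha b hb c hc with e | e | e
  · exact hba e.symm
  · exact hcab (Or.inl e.symm)
  · exact hcab (Or.inr e.symm)

theorem nb_finite {x : V} {w : D.X} (hw : w ∈ S.J x) :
    {w' | D.G.Adj w w' ∧ w' ∈ S.J x}.Finite := by
  apply finite_of_three
  intro a ha b hb c hc
  have k := S.js.two x w hw (Sum.inr a) (Or.inr ⟨a, rfl, ha.1, ha.2⟩) (Sum.inr b)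
    (Or.inr ⟨b, rfl, hb.1, hb.2⟩) (Sum.inr c) (Or.inr ⟨c, rfl, hc.1, hc.2⟩)
  rcases k with k | k | k
  · exact Or.inl (Sum.inr.inj k)
  · exact Or.inr (Or.inl (Sum.inr.inj k))
  · exact Or.inr (Or.inr (Sum.inr.inj k))

theorem V1_fin : FinOrb H (Set.univ : Set S.V1) := by
  apply FinOrb.of_inj S.js.fin (fun q : S.V1 => q.1) (fun q _ => q.2)
  rintro a _ b _ ⟨h, e⟩
  exact ⟨h, Subtype.ext e⟩

theorem LG_finV : FinOrb H (Set.univ : Set S.LV) := by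
  apply FinOrb.image S.V1_fin S.cm
  · intro b _
    obtain ⟨p, rfl⟩ := Quotient.exists_rep b
    exact ⟨p, Set.mem_univ _, 1, one_smul H _⟩
  · rintro a _ b _ ⟨h, rfl⟩
    exact ⟨h, rfl⟩

theorem LG_finE : FinOrb H {p : S.LV × S.LV | S.LG.Adj p.1 p.2} := by
  have h1 : FinOrb H {r : S.V1 × S.V1 | r.1 ∈ (Set.univ : Set S.V1) ∧
      r.2 ∈ (fun q : S.V1 => {t : S.V1 | t.1.1 = q.1.1 ∧ D.G.Adj q.1.2 t.1.2}) r.1} := by
    apply SAF.finOrb_fibre (Set.univ : Set S.V1) S.V1_fin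
      (fun q : S.V1 => {t : S.V1 | t.1.1 = q.1.1 ∧ D.G.Adj q.1.2 t.1.2})
    · rintro h q _ t ⟨e1, e2⟩
      refine ⟨congrArg (h • ·) e1, D.adj_smul h _ _ e2⟩
    · intro q _
      have hf : {t : S.V1 | t.1.1 = q.1.1 ∧ D.G.Adj q.1.2 t.1.2}.Finite := by
        apply Set.Finite.of_finite_image (f := fun t : S.V1 => t.1.2)
        · apply (S.nb_finite q.2).subset
          rintro _ ⟨t, ⟨e1, e2⟩, rfl⟩
          refine ⟨e2, ?_⟩
          have := t.2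
          rw [e1] at this
          exact this
        · rintro t ⟨e1, e2⟩ t' ⟨e1', e2'⟩ e
          exact Subtype.ext (Prod.ext (e1.trans e1'.symm) e)
      exact hf.image _
  apply FinOrb.image h1 (fun r => (S.cm r.1, S.cm r.2))
  · rintro ⟨l, l'⟩ hl
    obtain ⟨ha, x, ⟨a, ea⟩, ⟨b, eb⟩⟩ : S.LAdj l l' := hl
    exact ⟨(⟨(x, S.pr l), a⟩, ⟨(x, S.pr l'), b⟩), ⟨Set.mem_univ _, rfl, ha⟩, 1, by
      rw [one_smul]
      exact Prod.ext ea eb⟩
  · rintro a _ b _ ⟨h, rfl⟩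
    exact ⟨h, rfl⟩

theorem LG_edgeC (l l' : S.LV) (h : S.LG.Adj l l') : InC ↥(stabilizer H l ⊓ stabilizer H l') := by
  have hle : ∀ l : S.LV, stabilizer H l ≤ stabilizer H (S.pr l) := by
    intro l h hh
    have hh' : h • l = l := hh
    show h • S.pr l = S.pr l
    rw [← S.pr_smul, hh']
  exact InC.mono (inf_le_inf (hle l) (hle l')) (D.edgeC _ _ (h : S.LAdj l l').1)

/-- the new decomposition -/
def LD (hcen : S.Cen) : Decomp H where
  X := S.LV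
  G := S.LG
  tree := S.LG_tree hcen
  adj_smul h x y e := S.LAdj_smul h x y e
  noinv := by
    rintro h l l' hl ⟨h1, h2⟩
    have hl' : S.LAdj l l' := hl
    apply D.noinv h _ _ hl'.1
    rw [← S.pr_smul, ← S.pr_smul, h1, h2]
    exact ⟨rfl, rfl⟩
  finV := S.LG_finV
  finE := S.LG_finE
  edgeC := S.LG_edgeC
  nofix l := by
    obtain ⟨h, hh⟩ := D.nofix (S.pr l)
    refine ⟨h, fun e => hh ?_⟩
    rw [← S.pr_smul, e]

end Sy

end Pool.Agent.BT
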