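import Pool.Agent.BT.Line2

/-!
# BT: exactness of the tree of groups `P - A - M - B - Q` in the case of equal masses
-/

namespace Pool.Agent.BT

open MulAction

variable {H : Type} [Group H]

theorem RInv.mono {A B : Subgroup H} (h : A ≤ B) {f : H → ZMod 2} (hf : RInv B f) : RInv A f :=
  fun x a ha => hf x a (h ha)

theorem RInv.add {A : Subgroup H} {f g : H → ZMod 2} (hf : RInv A f) (hg : RInv A g) :
    RInv A (fun h => f h + g h) := by
  intro x a ha
  show f (x * a) + g (x * a) = f x + g x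
  rw [hf x a ha, hg x a ha]

theorem RInv.zero (A : Subgroup H) : RInv A (fun _ => 0) := fun _ _ _ => rfl

theorem zmod2_add_self (x : ZMod 2) : x + x = 0 := CharTwo.add_self_eq_zero x

/-- the solution of the tree of groups `P - A - M - B - Q` -/
def Sol (P Q M : Subgroup H) (φ1 φ2 : H → ZMod 2) : Prop :=
  ∃ αP αQ κ : H → ZMod 2, RInv P αP ∧ RInv Q αQ ∧ RInv M κ ∧
    (¬ Finite ↥P → ∀ h, αP h = 0) ∧ (¬ Finite ↥Q → ∀ h, αQ h = 0) ∧
    (¬ Finite ↥M → ∀ h, κ h = 0) ∧ (∀ h, φ1 h = αP h + κ h) ∧ (∀ h, φ2 h = αQ h + κ h)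

theorem Sol.symm {P Q M : Subgroup H} {φ1 φ2 : H → ZMod 2} (h : Sol P Q M φ1 φ2) :
    Sol Q P M φ2 φ1 := by
  obtain ⟨αP, αQ, κ, h1, h2, h3, h4, h5, h6, h7, h8⟩ := h
  exact ⟨αQ, αP, κ, h2, h1, h3, h5, h4, h6, h8, h7⟩

theorem fin_of_iw {A B : Subgroup H} (hA : Finite ↥A) (e : iw B = iw A / 2) : Finite ↥B := by
  have := iw_pos.2 hA
  exact iw_pos.1 (by rw [e]; linarith)

/-- `A = P` and `P ≤ B` -/
theorem sol_hair {P Q B : Subgroup H} (hPB : P ≤ B)
    (φ1 φ2 : H → ZMod 2) (h1 : RInv P φ1) (h2 : RInv B φ2)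
    (z1 : ¬ Finite ↥P → ∀ h, φ1 h = 0) (z2 : ¬ Finite ↥B → ∀ h, φ2 h = 0) :
    Sol P Q (P ⊔ B) φ1 φ2 := by
  rw [sup_eq_right.2 hPB]
  refine ⟨fun h => φ1 h + φ2 h, fun _ => 0, φ2, h1.add (h2.mono hPB), RInv.zero _, h2, ?_,
    fun _ _ => rfl, z2, ?_, ?_⟩
  · intro hP h
    show φ1 h + φ2 h = 0
    rw [z1 hP, z2 (fun hB => hP (finite_of_le hPB hB)), add_zero]
  · intro h
    show φ1 h = φ1 h + φ2 h + φ2 h
    rw [add_assoc, zmod2_add_self, add_zero]
  · intro h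
    show φ2 h = 0 + φ2 h
    rw [zero_add]

/-- `A = P`, `B` of index two in `M = P ⊔ B` and in `Q`, `P ⊔ Q` infinite -/
theorem sol_line {P Q B : Subgroup H} (hBQ : B ≤ Q) (hB : Finite ↥B)
    (eQ : iw Q = iw B / 2) (eM : iw (P ⊔ B) = iw B / 2) (hN : ¬ Finite ↥(P ⊔ Q))
    (φ1 φ2 : H → ZMod 2) (h1 : RInv P φ1) (h2 : RInv B φ2) :
    Sol P Q (P ⊔ B) φ1 φ2 := by
  have hM : Finite ↥(P ⊔ B) := fin_of_iw hB eM
  have hQ : Finite ↥Q := fin_of_iw hB eQ
  have hP : Finite ↥P := finite_of_le le_sup_left hM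
  obtain ⟨κ, αQ, hκ, hαQ, hsum⟩ := line_group (C := B) (X := P ⊔ B) (Y := Q) le_sup_right hBQ hB
    eM eQ (by
      intro hf
      apply hN
      apply finite_of_le _ hf
      exact sup_le (le_sup_left.trans le_sup_left) le_sup_right) φ2 h2
  refine ⟨fun h => φ1 h + κ h, αQ, κ, h1.add (hκ.mono le_sup_left), hαQ, hκ, ?_, ?_, ?_, ?_, ?_⟩
  · exact fun hf => absurd hP hf
  · exact fun hf => absurd hQ hf
  · exact fun hf => absurd hM hf
  · intro h
    show φ1 h = φ1 h + κ h + κ h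
    rw [add_assoc, zmod2_add_self, add_zero]
  · intro h
    rw [hsum, add_comm]

theorem sol_eq {P Q : Subgroup H}
    (φ1 φ2 : H → ZMod 2) (h1 : RInv P φ1) (h2 : RInv Q φ2)
    (z1 : ¬ Finite ↥P → ∀ h, φ1 h = 0) (z2 : ¬ Finite ↥Q → ∀ h, φ2 h = 0) (M : Subgroup H) :
    Sol P Q M φ1 φ2 :=
  ⟨φ1, φ2, fun _ => 0, h1, h2, RInv.zero _, z1, z2, fun _ _ => rfl,
    fun _ => (add_zero _).symm, fun _ => (add_zero _).symm⟩

/-- different orbits -/
theorem tree_diff {P Q A B : Subgroup H} (hA : A ≤ P) (hB : B ≤ Q)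
    (e : iw A + iw B - iw (A ⊔ B) ≤ iw P + iw Q - iw (P ⊔ Q))
    (φ1 φ2 : H → ZMod 2) (h1 : RInv A φ1) (h2 : RInv B φ2)
    (z1 : ¬ Finite ↥A → ∀ h, φ1 h = 0) (z2 : ¬ Finite ↥B → ∀ h, φ2 h = 0) :
    Sol P Q (A ⊔ B) φ1 φ2 := by
  have m1 := iw_mono B hA
  have m2 := iw_mono P hB
  rw [sup_comm Q P, sup_comm B P] at m2
  have e1 : iw P - iw (P ⊔ B) = iw A - iw (A ⊔ B) := by linarith
  have e2 : iw Q - iw (Q ⊔ P) = iw B - iw (B ⊔ P) := by
    rw [sup_comm Q P, sup_comm B P]; linarith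
  have e0 : iw A + iw B - iw (A ⊔ B) = iw P + iw Q - iw (P ⊔ Q) := by linarith
  clear m1 m2 e
  -- the infinite cases
  by_cases hAf : Finite ↥A
  swap
  · have hPf : ¬ Finite ↥P := fun h => hAf (finite_of_le hA h)
    have hMf : ¬ Finite ↥(A ⊔ B) := fun h => hAf (finite_of_le le_sup_left h)
    have hNf : ¬ Finite ↥(P ⊔ Q) := fun h => hPf (finite_of_le le_sup_left h)
    rw [iw_eq_zero.2 hAf, iw_eq_zero.2 hPf, iw_eq_zero.2 hMf, iw_eq_zero.2 hNf] at e0
    by_cases hBf : Finite ↥B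
    · have hBQ : B = Q := eq_of_iw_eq hB hBf (by linarith)
      subst hBQ
      refine ⟨fun _ => 0, φ2, fun _ => 0, RInv.zero _, h2, RInv.zero _, fun _ _ => rfl, z2,
        fun _ _ => rfl, fun h => ?_, fun h => (add_zero _).symm⟩
      rw [z1 hAf, add_zero]
    · refine ⟨fun _ => 0, fun _ => 0, fun _ => 0, RInv.zero _, RInv.zero _, RInv.zero _,
        fun _ _ => rfl, fun _ _ => rfl, fun _ _ => rfl, fun h => ?_, fun h => ?_⟩
      · rw [z1 hAf, add_zero]
      · rw [z2 hBf, add_zero]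
  by_cases hBf : Finite ↥B
  swap
  · have hQf : ¬ Finite ↥Q := fun h => hBf (finite_of_le hB h)
    have hMf : ¬ Finite ↥(A ⊔ B) := fun h => hBf (finite_of_le le_sup_right h)
    have hNf : ¬ Finite ↥(P ⊔ Q) := fun h => hQf (finite_of_le le_sup_right h)
    rw [iw_eq_zero.2 hBf, iw_eq_zero.2 hQf, iw_eq_zero.2 hMf, iw_eq_zero.2 hNf] at e0
    have hAP : A = P := eq_of_iw_eq hA hAf (by linarith)
    subst hAP
    refine ⟨φ1, fun _ => 0, fun _ => 0, h1, RInv.zero _, RInv.zero _, z1, fun _ _ => rfl,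
      fun _ _ => rfl, fun h => (add_zero _).symm, fun h => ?_⟩
    rw [z2 hBf, add_zero]
  rcases iw_mono_eq B hA e1 with c1 | c1 | c1 | ⟨c1, c2, c3, c4, c5⟩
  · subst c1
    rcases iw_mono_eq A hB e2 with d1 | d1 | d1 | ⟨d1, d2, d3, d4, d5⟩
    · subst d1
      exact sol_eq φ1 φ2 h1 h2 z1 z2 _
    · exact sol_hair d1 φ1 φ2 h1 h2 z1 z2
    · exact absurd hBf d1
    · exact sol_line hB hBf d3 (by rw [sup_comm]; exact d4) (by rw [sup_comm]; exact d5)
        φ1 φ2 h1 h2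
  · -- `B ≤ A`
    rcases iw_mono_eq P hB e2 with d1 | d1 | d1 | ⟨d1, d2, d3, d4, d5⟩
    · subst d1
      rw [sup_comm]
      exact (sol_hair c1 φ2 φ1 h2 h1 z2 z1).symm
    · have hAP : A = P := le_antisymm hA (d1.trans c1)
      subst hAP
      exact sol_hair d1 φ1 φ2 h1 h2 z1 z2
    · exact absurd hBf d1
    · rw [sup_eq_right.2 (c1.trans hA)] at d4
      have hPf : Finite ↥P := fin_of_iw hBf d4
      rcases c1.eq_or_lt with hBA | hBA
      · -- `A = B`
        subst hBA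
        obtain ⟨αP, αQ, hαP, hαQ, hsum⟩ := line_group (C := B) (X := P) (Y := Q) hA hB hBf
          d4 d3 (by rw [sup_comm]; exact d5) (fun h => φ1 h + φ2 h) (h1.add h2)
        rw [sup_idem]
        refine ⟨αP, αQ, fun h => φ1 h + αP h, hαP, hαQ, h1.add (hαP.mono hA), ?_, ?_, ?_, ?_, ?_⟩
        · exact fun hf => absurd hPf hf
        · exact fun hf => absurd (fin_of_iw hBf d3) hf
        · exact fun hf => absurd hBf hf
        · intro h
          show φ1 h = αP h + (φ1 h + αP h)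
          have := zmod2_add_self (αP h)
          linear_combination -this
        · intro h
          show φ2 h = αQ h + (φ1 h + αP h)
          have h3 := hsum h
          have h4 := zmod2_add_self (φ1 h)
          linear_combination h3 - h4
      · have h5 := iw_half hBA hBf
        have h6 := iw_anti hA
        have hAP : A = P := eq_of_iw_eq hA hAf (by linarith)
        subst hAP
        exact sol_line hB hBf d3 (by rw [sup_eq_left.2 c1]; exact d4)
          (by rw [sup_comm]; exact d5) φ1 φ2 h1 h2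
  · exact absurd hAf c1
  · -- the exceptional case for `A < P`
    have hMf : Finite ↥(A ⊔ B) := fin_of_iw hAf c4
    rcases iw_mono_eq P hB e2 with d1 | d1 | d1 | ⟨d1, d2, d3, d4, d5⟩
    · subst d1
      have := sol_line (P := B) (Q := P) (B := A) hA hAf c3 (by rw [sup_comm]; exact c4)
        (by rw [sup_comm]; exact c5) φ2 φ1 h2 h1
      rw [sup_comm]
      exact this.symm
    · exact absurd (by rw [sup_eq_right.2 d1]; exact hBf) c5
    · exact absurd hBf d1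
    · exact absurd (by rw [sup_comm]; exact fin_of_iw hBf d4) c5

/-- same orbit, different orbits of darts -/
theorem tree_same {P Q A B : Subgroup H} (g : H) (hQ : ∀ a, a ∈ Q ↔ g⁻¹ * a * g ∈ P)
    (eQ : iw Q = iw P) (hA : A ≤ P) (hB : B ≤ Q)
    (e : iw A + iw B - iw (A ⊔ B) ≤ iw P - iw (P ⊔ Subgroup.zpowers g))
    (φ1 φ2 : H → ZMod 2) (h1 : RInv A φ1) (h2 : RInv B φ2)
    (z1 : ¬ Finite ↥A → ∀ h, φ1 h = 0) (z2 : ¬ Finite ↥B → ∀ h, φ2 h = 0) :
    ∃ αP κ : H → ZMod 2, RInv P αP ∧ RInv (A ⊔ B) κ ∧ (¬ Finite ↥P → ∀ h, αP h = 0) ∧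
      (¬ Finite ↥(A ⊔ B) → ∀ h, κ h = 0) ∧ (∀ h, φ1 h = αP h + κ h) ∧
      (∀ h, φ2 h = αP (h * g) + κ h) := by
  have a1 := iw_anti hA
  have a2 := iw_anti hB
  have a3 := iw_anti (A := A) (B := A ⊔ B) le_sup_left
  have a4 := iw_anti (A := B) (B := A ⊔ B) le_sup_right
  have a5 := iw_nonneg (P ⊔ Subgroup.zpowers g)
  have hAe : iw P = iw A := by linarith
  have hBe : iw Q = iw B := by linarith
  have hMe : iw (A ⊔ B) = iw A := by linarith
  have hNe : iw (P ⊔ Subgroup.zpowers g) = 0 := by linarith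
  by_cases hP : Finite ↥P
  · have hAf : Finite ↥A := finite_of_le hA hP
    have hQf : Finite ↥Q := iw_pos.1 (by rw [eQ]; exact iw_pos.2 hP)
    have hBf : Finite ↥B := finite_of_le hB hQf
    have hAP : A = P := eq_of_iw_eq hA hAf hAe
    have hBQ : B = Q := eq_of_iw_eq hB hBf hBe
    have hAM : A = A ⊔ B := eq_of_iw_eq le_sup_left hAf hMe
    have hBM : B = A ⊔ B := eq_of_iw_eq le_sup_right hBf (by rw [hMe, ← hAe, ← hBe, eQ])
    have hAB : A = B := hAM.trans hBM.symm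
    subst hAP hBQ
    subst hAB
    rw [sup_idem]
    obtain ⟨a, ha, hag⟩ := zline_group (C := A) hAf g (by
      intro c
      rw [hQ (g * c * g⁻¹)]
      have : g⁻¹ * (g * c * g⁻¹) * g = c := by group
      rw [this]) (iw_eq_zero.1 hNe) (fun h => φ1 h + φ2 h) (h1.add h2)
    refine ⟨a, fun h => φ1 h + a h, ha, h1.add ha, ?_, ?_, ?_, ?_⟩
    · exact fun hf => absurd hAf hf
    · exact fun hf => absurd hAf hf
    · intro h
      show φ1 h = a h + (φ1 h + a h)
      have := zmod2_add_self (a h)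
      linear_combination -this
    · intro h
      show φ2 h = a (h * g) + (φ1 h + a h)
      rw [hag]
      have h3 := zmod2_add_self (a h)
      have h4 := zmod2_add_self (φ1 h)
      linear_combination -h3 - h4
  · have hAf : ¬ Finite ↥A := by
      rw [← iw_eq_zero, ← hAe, iw_eq_zero]; exact hP
    have hBf : ¬ Finite ↥B := by
      rw [← iw_eq_zero, ← hBe, eQ, iw_eq_zero]; exact hP
    refine ⟨fun _ => 0, fun _ => 0, RInv.zero _, RInv.zero _, fun _ _ => rfl, fun _ _ => rfl,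
      fun h => ?_, fun h => ?_⟩
    · rw [z1 hAf, add_zero]
    · rw [z2 hBf, add_zero]

/-- same orbit of darts -/
theorem tree_dart {P A : Subgroup H} (k : H) (hA : A ≤ P)
    (e : iw A - iw (A ⊔ Subgroup.zpowers k) ≤ iw P - iw (P ⊔ Subgroup.zpowers k))
    (φ1 : H → ZMod 2) (h1 : RInv A φ1) (z1 : ¬ Finite ↥A → ∀ h, φ1 h = 0) :
    ∃ αP κ : H → ZMod 2, RInv P αP ∧ RInv (A ⊔ Subgroup.zpowers k) κ ∧
      (¬ Finite ↥P → ∀ h, αP h = 0) ∧
      (¬ Finite ↥(A ⊔ Subgroup.zpowers k) → ∀ h, κ h = 0) ∧ (∀ h, φ1 h = αP h + κ h) := by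
  have m1 := iw_mono (Subgroup.zpowers k) hA
  rcases iw_mono_eq (Subgroup.zpowers k) hA (le_antisymm m1 e) with c1 | c1 | c1 |
    ⟨c1, c2, c3, c4, c5⟩
  · subst c1
    exact ⟨φ1, fun _ => 0, h1, RInv.zero _, z1, fun _ _ => rfl, fun h => (add_zero _).symm⟩
  · rw [sup_eq_left.2 c1]
    exact ⟨fun _ => 0, φ1, RInv.zero _, h1, fun _ _ => rfl, z1, fun h => (zero_add _).symm⟩
  · refine ⟨fun _ => 0, fun _ => 0, RInv.zero _, RInv.zero _, fun _ _ => rfl, fun _ _ => rfl,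
      fun h => ?_⟩
    rw [z1 c1, add_zero]
  · by_cases hAf : Finite ↥A
    · obtain ⟨a, κ, ha, hκ, hsum⟩ := line_group (C := A) (X := P)
        (Y := A ⊔ Subgroup.zpowers k) hA le_sup_left hAf c3 c4 (by
          intro hf
          apply c5
          apply finite_of_le _ hf
          exact sup_le le_sup_left (le_sup_right.trans le_sup_right)) φ1 h1
      exact ⟨a, κ, ha, hκ, fun hf => absurd (fin_of_iw hAf c3) hf,
        fun hf => absurd (fin_of_iw hAf c4) hf, hsum⟩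
    · refine ⟨fun _ => 0, fun _ => 0, RInv.zero _, RInv.zero _, fun _ _ => rfl, fun _ _ => rfl,
        fun h => ?_⟩
      rw [z1 hAf, add_zero]

end Pool.Agent.BT
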