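import Pool.Agent.BT.XEq

/-!
# BT: the bridge property in the form needed for `TS`
-/

namespace Pool.Agent.BT

open MulAction
open Pool.Agent.SAF (orbs FinOrb mk_eq_iff FinOrb_iff TAct Conv InC exists_next dist_edge)

namespace JT

variable {H V X : Type} [Group H] [MulAction H V] [MulAction H X] (S : JT H V X)

/-- one end of an edge over `w u` crosses -/
theorem one_crosses {a b : V} {w u : X} (e : S.K.E a b) (h : S.T.Adj w u)
    (hw : w ∈ S.J a ∨ w ∈ S.J b) (hu : u ∈ S.J a ∨ u ∈ S.J b) :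
    S.xs.Cr a w u ∨ S.xs.Cr b w u := by
  have hT := S.act.tree
  have h1 : S.T.dist w u = 1 := SimpleGraph.dist_eq_one_iff_adj.2 h
  have h2 : S.T.dist u w = 1 := SimpleGraph.dist_eq_one_iff_adj.2 h.symm
  have key : ∀ a b : V, S.K.E a b → w ∈ S.J a → u ∈ S.J b → S.xs.Cr a w u ∨ S.xs.Cr b w u := by
    intro a b e hw hu
    rcases (dist_edge hT h (S.p a b)).1 with d | d
    · right
      have := (S.J_conv b).edge hT h (S.p_r a b e) hu d (by rw [SimpleGraph.dist_self]; omega)
      exact ⟨h, this.1, this.2⟩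
    · left
      have := (S.J_conv a).edge hT h hw (S.p_l a b e) (by rw [SimpleGraph.dist_self]; omega) d
      exact ⟨h, this.1, this.2⟩
  rcases hw with hw | hw <;> rcases hu with hu | hu
  · exact Or.inl ⟨h, hw, hu⟩
  · exact key a b e hw hu
  · exact (key b a e.symm hw hu).symm
  · exact Or.inr ⟨h, hw, hu⟩

/-- THE BRIDGE PROPERTY of the graphs over the edges, minimality only for the clean quotients of the
local piece -/
theorem br_red (hst : ∀ x : V, InC ↥(stabilizer H x)) (q0 : orbitRel.Quotient H X)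
    (hmin : ∀ (V' : Type) [MulAction ↥(stabilizer H (Quotient.out q0)) V']
      (K' : PX ↥(stabilizer H (Quotient.out q0)) V') (f : S.xs.YW (Quotient.out q0) → V'),
      Red (S.pxw (Quotient.out q0)) K' f → K'.Clean → S.K.hg.bb ≤ K'.hg.bb)
    {TE : V → V → Set X} (TE_J : ∀ x y w, S.K.E x y → w ∈ TE x y → w ∈ S.J x ∨ w ∈ S.J y)
    (P : V → Prop) {w u : X} (h : S.T.Adj w u) {x y : V} (hl : ¬ Heavy H (x, y)) :
    Br (fun a b => S.K.E a b ∧ w ∈ TE a b ∧ u ∈ TE a b)
      {z | P z ∧ Heavy H (z, w, u)} x y := by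
  unfold Heavy at hl
  rw [not_not] at hl
  obtain ⟨σ, h1, h2⟩ := S.bridge_red hst q0 hmin x y hl w u
  refine ⟨σ, ?_, ?_⟩
  · rintro z ⟨_, hz⟩
    apply h2
    intro hf
    apply hz
    refine finite_of_le ?_ hf
    intro g hg
    rw [mem_stabilizer_iff] at hg
    have e1 : g • z = z := congrArg Prod.fst hg
    have e2 : g • w = w := congrArg (fun p : V × X × X => p.2.1) hg
    have e3 : g • u = u := congrArg (fun p : V × X × X => p.2.2) hg
    exact ⟨e1, e2, e3⟩
  · rintro a b ⟨e, hw, hu⟩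
    rcases S.one_crosses e h (TE_J a b w e hw) (TE_J a b u e hu) with c | c
    · have := h1 b a e.symm c
      rw [add_comm, this, XS.ind_symm]
      rfl
    · rw [h1 a b e c]
      rfl

/-- THE BRIDGE PROPERTY of the graphs over the edges -/
theorem br (hst : ∀ x : V, InC ↥(stabilizer H x)) (q0 : orbitRel.Quotient H X)
    (hmin : ∀ (V' : Type) [MulAction ↥(stabilizer H (Quotient.out q0)) V']
      (K' : PX ↥(stabilizer H (Quotient.out q0)) V'),
      S.K.A ≤ K'.A ∧ (K'.A = S.K.A → S.K.hg.bb ≤ K'.hg.bb))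
    {TE : V → V → Set X} (TE_J : ∀ x y w, S.K.E x y → w ∈ TE x y → w ∈ S.J x ∨ w ∈ S.J y)
    (P : V → Prop) {w u : X} (h : S.T.Adj w u) {x y : V} (hl : ¬ Heavy H (x, y)) :
    Br (fun a b => S.K.E a b ∧ w ∈ TE a b ∧ u ∈ TE a b)
      {z | P z ∧ Heavy H (z, w, u)} x y := by
  apply S.br_red hst q0 ?_ TE_J P h hl
  intro V' _ K' f r _
  have := hmin V' K'
  exact this.2 (le_antisymm ((r.card_le).trans (S.pxw_A_le _)) this.1)

end JT

end Pool.Agent.BT
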