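import Pool.Agent.BT.XPX3
import Pool.Agent.BT.XCount
import Pool.Agent.BT.PNeut

/-!
# BT: equality, the bridge
-/

namespace Pool.Agent.BT

open MulAction
open Pool.Agent.SAF (orbs FinOrb mk_eq_iff FinOrb_iff TAct Conv InC exists_next dist_edge)

theorem HG.bb_congr {H V : Type} [Group H] [MulAction H V] {G G' : HG H V}
    (h : G.darts = G'.darts) : G.bb = G'.bb := by
  unfold HG.bb
  rw [h]

namespace JT

variable {H V X : Type} [Group H] [MulAction H V] [MulAction H X] (S : JT H V X)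

theorem finOrb_darts1 (hst : ∀ x : V, InC ↥(stabilizer H x)) : FinOrb H S.xs.G1.darts := by
  have h0 : FinOrb H S.K.hg.darts := (S.K.px hst).fin_darts
  have hPO : FinOrb H S.xs.PO := S.finOrb_V1.mono (Set.subset_univ _)
  have h1 : FinOrb H S.xs.dh := by
    apply Pool.Agent.SAF.FinOrb.of_inj h0 (fun p : S.xs.V1 × S.xs.V1 => (p.1.1.1, p.2.1.1))
    · intro p hp
      obtain ⟨x, y, w, hx, hy, e1, e2, e⟩ := S.xs.mem_dh hp
      rw [e1, e2]
      exact ⟨e, fun h => S.K.E_irr x (by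
        have h' : x = y := h
        have e' : S.K.E x y := e
        rwa [← h'] at e')⟩
    · intro a ha b hb ⟨h, e⟩
      obtain ⟨x, y, w, hx, hy, e1, e2, exy⟩ := S.xs.mem_dh ha
      obtain ⟨x', y', w', hx', hy', e1', e2', exy'⟩ := S.xs.mem_dh hb
      obtain ⟨a1, a2⟩ := a
      obtain ⟨b1, b2⟩ := b
      have e1 : a1 = _ := e1
      have e2 : a2 = _ := e2
      have e1' : b1 = _ := e1'
      have e2' : b2 = _ := e2'
      subst e1 e2 e1' e2'
      have f1 : h • x = x' := congrArg Prod.fst e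
      have f2 : h • y = y' := congrArg Prod.snd e
      subst f1 f2
      have f3 : h • w = w' := (S.p_u (h • x) (h • y) (h • w) exy' (S.J_smul h x w hx)
        (S.J_smul h y w hy)).trans (S.p_u (h • x) (h • y) w' exy' hx' hy').symm
      subst f3
      exact ⟨h, rfl⟩
  have h2 : FinOrb H S.xs.du := by
    apply Pool.Agent.SAF.FinOrb.of_inj hPO (fun p : S.xs.V1 × S.xs.V1 => p.2)
      (fun p hp => hp.2.2)
    intro a ha b hb ⟨h, e⟩
    obtain ⟨x, w, w', k, e1, e2⟩ := S.xs.mem_du ha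
    obtain ⟨x', v, v', k', e1', e2'⟩ := S.xs.mem_du hb
    refine ⟨h, Prod.ext ?_ e⟩
    show h • a.1 = b.1
    have e : h • a.2 = b.2 := e
    rw [e2, e2'] at e
    rw [e1, e1']
    have f : ((h • x, h • w, h • w') : V × X × X) = (x', v, v') := congrArg Subtype.val e
    obtain ⟨f1, f2⟩ := Prod.mk.inj f
    obtain ⟨f3, f4⟩ := Prod.mk.inj f2
    apply Subtype.ext
    show ((h • x, h • w, h • w) : V × X × X) = (x', v, v)
    rw [f1, f3]
  have h3 : FinOrb H S.xs.dd := by
    apply Pool.Agent.SAF.FinOrb.of_inj hPO (fun p : S.xs.V1 × S.xs.V1 => p.1)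
      (fun p hp => hp.2.1)
    intro a ha b hb ⟨h, e⟩
    obtain ⟨x, w, w', k, e1, e2⟩ := S.xs.mem_dd ha
    obtain ⟨x', v, v', k', e1', e2'⟩ := S.xs.mem_dd hb
    refine ⟨h, Prod.ext e ?_⟩
    show h • a.2 = b.2
    have e : h • a.1 = b.1 := e
    rw [e1, e1'] at e
    rw [e2, e2']
    have f : ((h • x, h • w, h • w') : V × X × X) = (x', v, v') := congrArg Subtype.val e
    obtain ⟨f1, f2⟩ := Prod.mk.inj f
    obtain ⟨f3, f4⟩ := Prod.mk.inj f2
    apply Subtype.ext
    show ((h • x, h • w, h • w) : V × X × X) = (x', v, v)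
    rw [f1, f3]
  have h4 : FinOrb H S.xs.dt := by
    apply Pool.Agent.SAF.FinOrb.of_inj hPO (fun p : S.xs.V1 × S.xs.V1 => p.1)
      (fun p hp => hp.2.1)
    intro a ha b hb ⟨h, e⟩
    obtain ⟨x, w, w', k, e1, e2⟩ := S.xs.mem_dt ha
    obtain ⟨x', v, v', k', e1', e2'⟩ := S.xs.mem_dt hb
    refine ⟨h, Prod.ext e ?_⟩
    show h • a.2 = b.2
    have e : h • a.1 = b.1 := e
    rw [e1, e1'] at e
    rw [e2, e2']
    have f : ((h • x, h • w, h • w') : V × X × X) = (x', v, v') := congrArg Subtype.val e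
    obtain ⟨f1, f2⟩ := Prod.mk.inj f
    obtain ⟨f3, f4⟩ := Prod.mk.inj f2
    apply Subtype.ext
    show ((h • x, h • w', h • w) : V × X × X) = (x', v', v)
    rw [f1, f3, f4]
  rw [S.xs.darts_eq]
  unfold FinOrb orbs at h1 h2 h3 h4 ⊢
  rw [Set.image_union, Set.image_union, Set.image_union]
  exact (h1.union h2).union (h3.union h4)

theorem tmass (hst : ∀ x : V, InC ↥(stabilizer H x)) : S.xs.TMass := by
  intro x
  have hT := S.act.tree
  have Jx : ∀ (h : ↥(stabilizer H x)) (w : X), w ∈ S.J x → h • w ∈ S.J x := by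
    intro h w hw
    have := S.J_smul h.1 x w hw
    rwa [show h.1 • x = x from h.2] at this
  apply tree_mass_rel (S.J x) (fun w u => S.xs.Cr x w u)
  · intro w u h
    exact h.symm
  · intro w h
    exact S.T.loopless.irrefl _ h.1
  · intro w u h
    exact h.2.1
  · exact Jx
  · intro h w u c
    exact ⟨S.act.adj_smul h.1 _ _ c.1, Jx h _ c.2.1, Jx h _ c.2.2⟩
  · exact S.J_ne x
  · intro a ha b hb
    have := (S.J_conv x).rtg hT ha hb
    exact this
  · intro v w c
    obtain ⟨g, hg, h0, h1⟩ := Pool.Agent.SAF.exists_cut S.T hT v w c.1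
    refine ⟨g, (hg v w c.1).2 (Or.inl ⟨rfl, rfl⟩), ?_⟩
    intro a b hab hne
    exact (hg a b hab.1).1 hne
  · intro h a b c hh
    exact S.act.noinv h.1 a b c.1 hh
  · apply Pool.Agent.SAF.FinOrb.of_inj S.fJ (fun w => (x, w)) (fun w hw => hw)
    rintro a _ b _ ⟨h, e⟩
    exact ⟨⟨h, congrArg Prod.fst e⟩, congrArg Prod.snd e⟩
  · apply Pool.Agent.SAF.FinOrb.of_inj S.fJ2 (fun p : X × X => (x, p)) (fun w hw => hw)
    rintro a _ b _ ⟨h, e⟩
    exact ⟨⟨h, congrArg Prod.fst e⟩, congrArg Prod.snd e⟩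
  · exact hst x

end JT

/-- the darts of a reduction -/
theorem Red.darts_eq {H V V' : Type} [Group H] [MulAction H V] [MulAction H V'] {K : PX H V}
    {K' : PX H V'} {f : V → V'} (r : Red K K' f) :
    (K.hg.map f r.equi).darts = K'.hg.darts := by
  ext ⟨a, b⟩
  constructor
  · rintro ⟨⟨x, y, rfl, rfl, e⟩, hne⟩
    rcases r.e1 x y e with h | h
    · exact absurd h hne
    · exact ⟨h, hne⟩
  · rintro ⟨e, hne⟩
    obtain ⟨x, y, e', h1, h2⟩ := r.e2 a b e
    exact ⟨⟨x, y, h1, h2, e'⟩, hne⟩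

theorem Red.map_E {H V V' : Type} [Group H] [MulAction H V] [MulAction H V'] {K : PX H V}
    {K' : PX H V'} {f : V → V'} (r : Red K K' f) {a b : V'} (h : (K.hg.map f r.equi).E a b) :
    a = b ∨ K'.E a b := by
  obtain ⟨x, y, rfl, rfl, e⟩ := h
  exact r.e1 x y e

theorem lazy3 {V : Type} {E R : V → V → Prop} (h : ∀ a b, R a b → a = b ∨ E a b)
    (c3 : ∀ x y z, E x y → E y z → E z x → False) {a b c : V} (h1 : R a b) (h2 : R b c)
    (h3 : R c a) : a = b ∨ b = c ∨ c = a := by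
  rcases h _ _ h1 with e1 | e1
  · exact Or.inl e1
  rcases h _ _ h2 with e2 | e2
  · exact Or.inr (Or.inl e2)
  rcases h _ _ h3 with e3 | e3
  · exact Or.inr (Or.inr e3)
  exact (c3 _ _ _ e1 e2 e3).elim

theorem lazy4 {V : Type} {E R : V → V → Prop} (h : ∀ a b, R a b → a = b ∨ E a b)
    (c3 : ∀ x y z, E x y → E y z → E z x → False)
    (c4 : ∀ x y z w, E x y → E y z → E z w → E w x → x = z ∨ y = w) {a b c d : V}
    (h1 : R a b) (h2 : R b c) (h3 : R c d) (h4 : R d a) :
    a = c ∨ b = d ∨ (a = b ∧ c = d) ∨ (b = c ∧ d = a) := by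
  by_cases e1 : a = b
  · subst e1
    rcases lazy3 h c3 h2 h3 h4 with e | e | e
    · exact Or.inl e
    · exact Or.inr (Or.inr (Or.inl ⟨rfl, e⟩))
    · exact Or.inr (Or.inl e.symm)
  by_cases e2 : b = c
  · subst e2
    rcases lazy3 h c3 h1 h3 h4 with e | e | e
    · exact absurd e e1
    · exact Or.inr (Or.inl e)
    · exact Or.inr (Or.inr (Or.inr ⟨rfl, e⟩))
  by_cases e3 : c = d
  · subst e3
    rcases lazy3 h c3 h1 h2 h4 with e | e | e
    · exact absurd e e1
    · exact absurd e e2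
    · exact Or.inl e.symm
  by_cases e4 : d = a
  · subst e4
    rcases lazy3 h c3 h1 h2 h3 with e | e | e
    · exact absurd e e1
    · exact absurd e e2
    · exact absurd e e3
  rcases c4 a b c d ((h _ _ h1).resolve_left e1) ((h _ _ h2).resolve_left e2)
    ((h _ _ h3).resolve_left e3) ((h _ _ h4).resolve_left e4) with e | e
  · exact Or.inl e
  · exact Or.inr (Or.inl e)

namespace JT

variable {H V X : Type} [Group H] [MulAction H V] [MulAction H X] (S : JT H V X)

/-- the clean quotients of the local pieces at the orbit representatives -/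
structure CQ (S : JT H V X) where
  V' : orbitRel.Quotient H X → Type
  act : ∀ q, MulAction ↥(stabilizer H (Quotient.out q)) (V' q)
  K' : ∀ q, @PX ↥(stabilizer H (Quotient.out q)) (V' q) _ (act q)
  f : ∀ q, S.xs.YW (Quotient.out q) → V' q
  red : ∀ q, @Red _ _ _ _ _ (act q) (S.pxw (Quotient.out q)) (K' q) (f q)
  clean : ∀ q, @PX.Clean _ _ _ (act q) (K' q)

theorem exists_CQ : Nonempty S.CQ := by
  choose V' act K' f h using fun q : orbitRel.Quotient H X => exists_clean (S.pxw (Quotient.out q))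
  exact ⟨⟨V', act, K', f, fun q => (h q).1, fun q => (h q).2⟩⟩

theorem Mg.cast {H V V' : Type} [Group H] [MulAction H V] {G G' : HG H V} (h : G = G') {f : V → V'}
    {x y : V} (m : Mg G f x y) : Mg G' f x y := h ▸ m

/-- the local quotients -/
def CQ.loc {S : JT H V X} (Q : S.CQ) : S.xs.LocQ where
  V' := Q.V'
  act := Q.act
  f := Q.f
  equi q := by
    let _ := Q.act q
    exact (Q.red q).equi
  surj q := by
    let _ := Q.act q
    exact (Q.red q).surj
  tinj q w' w'' h h' e := by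
    let _ := Q.act q
    have h1 := (Q.red q).sinj _ _ (S.tv_sink (w := Quotient.out q) h) (S.tv_sink h') e
    have e1 : ((Quotient.out q, Sum.inr w') : X × (V ⊕ X)) = (Quotient.out q, Sum.inr w'') :=
      congrArg (fun z : S.xs.YW (Quotient.out q) => z.1.1) h1
    exact Sum.inr.inj (Prod.mk.inj e1).2
  c3 q a b c h1 h2 h3 := by
    let _ := Q.act q
    refine lazy3 (R := (HG.map (S.xs.GW (Quotient.out q)) (Q.f q) (Q.red q).equi).E)
      (E := (Q.K' q).E) ?_ (Q.clean q).c3 h1 h2 h3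
    intro a b hab
    apply (Q.red q).map_E
    rw [S.pxw_hg]
    exact hab
  c4 q a b c d h1 h2 h3 h4 := by
    let _ := Q.act q
    refine lazy4 (R := (HG.map (S.xs.GW (Quotient.out q)) (Q.f q) (Q.red q).equi).E)
      (E := (Q.K' q).E) ?_ (Q.clean q).c3 (Q.clean q).c4 h1 h2 h3 h4
    intro a b hab
    apply (Q.red q).map_E
    rw [S.pxw_hg]
    exact hab
  mg q a b e := by
    let _ := Q.act q
    have := (Q.red q).mg a b e
    rwa [S.pxw_hg] at this
  fg q v := by
    let _ := Q.act q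
    exact (Group.fg_iff_subgroup_fg _).1 (inC_fg ((Q.K' q).stab v))

theorem CQ.bb_eq {S : JT H V X} (Q : S.CQ) (q : orbitRel.Quotient H X) :
    @HG.bb _ _ _ (Q.act q) (@HG.map _ _ _ _ _ (Q.act q) (S.xs.GW (Quotient.out q)) (Q.f q)
      (Q.loc.equi q)) = @HG.bb _ _ _ (Q.act q) (@PX.hg _ _ _ (Q.act q) (Q.K' q)) := by
  let _ := Q.act q
  apply HG.bb_congr
  rw [← (Q.red q).darts_eq]
  have : ∀ (G : HG ↥(stabilizer H (Quotient.out q)) (S.xs.YW (Quotient.out q)))
      (_ : (S.pxw (Quotient.out q)).hg = G),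
      (HG.map G (Q.f q) (Q.red q).equi).darts =
        (HG.map (S.pxw (Quotient.out q)).hg (Q.f q) (Q.red q).equi).darts := by
    rintro _ rfl
    rfl
  exact this _ (S.pxw_hg _)

theorem finOrb_dartsL (hst : ∀ x : V, InC ↥(stabilizer H x)) : FinOrb H S.xs.GLoc.darts := by
  have h1 := FinOrb.image_equi (F := fun p : S.xs.V1 × S.xs.V1 => (S.xs.pi1 p.1, S.xs.pi1 p.2))
    (by
      intro h p
      show (S.xs.pi1 (h • p.1), S.xs.pi1 (h • p.2)) = (h • S.xs.pi1 p.1, h • S.xs.pi1 p.2)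
      rw [S.xs.pi1_smul, S.xs.pi1_smul]) (S.finOrb_darts1 hst)
  apply h1.mono
  rintro ⟨a, b⟩ ⟨e, hne⟩
  obtain ⟨a', b', rfl, rfl, e'⟩ := S.xs.lift_loc e
  refine ⟨(a', b'), ⟨e', ?_⟩, rfl⟩
  intro h
  exact hne (congrArg S.xs.pi1 h)

theorem CD_eq : S.xs.CD = {p : X × X | S.T.Adj p.1 p.2} := by
  ext p
  constructor
  · rintro ⟨x, hx⟩
    exact hx.1
  · intro h
    exact S.crossed h

/-- the mass of all vertex orbits but one -/
theorem mass_off (q0 : orbitRel.Quotient H X) [DecidableEq (orbitRel.Quotient H X)] :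
    mass H {w : X | ∀ h : H, h • Quotient.out q0 ≠ w} =
      ∑ q ∈ S.finX.toFinset.erase q0, iw (⊤ : Subgroup ↥(stabilizer H (Quotient.out q))) := by
  have hs : FinOrb H {w : X | ∀ h : H, h • Quotient.out q0 ≠ w} := S.finX.mono (Set.subset_univ _)
  rw [mass_eq_sum hs]
  have h1 : hs.toFinset = S.finX.toFinset.erase q0 := by
    ext q
    rw [Set.Finite.mem_toFinset, Finset.mem_erase, Set.Finite.mem_toFinset]
    constructor
    · rintro ⟨w, hw, rfl⟩
      refine ⟨?_, ⟨w, trivial, rfl⟩⟩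
      rintro rfl
      have h2 : (Quotient.mk'' w : orbitRel.Quotient H X) =
        Quotient.mk'' (Quotient.out (Quotient.mk'' w : orbitRel.Quotient H X)) :=
        (Quotient.out_eq' (s₁ := orbitRel H X) _).symm
      obtain ⟨h, e⟩ := mk_eq_iff.1 h2
      exact hw h e
    · rintro ⟨hne, _⟩
      refine ⟨Quotient.out q, ?_, Quotient.out_eq' (s₁ := orbitRel H X) q⟩
      intro h e
      apply hne
      have h2 : (Quotient.mk'' (Quotient.out q) : orbitRel.Quotient H X) =
        Quotient.mk'' (Quotient.out q0) := mk_eq_iff.2 ⟨h, e⟩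
      have h3 : (Quotient.mk'' (Quotient.out q) : orbitRel.Quotient H X) = q :=
        Quotient.out_eq' (s₁ := orbitRel H X) q
      have h4 : (Quotient.mk'' (Quotient.out q0) : orbitRel.Quotient H X) = q0 :=
        Quotient.out_eq' (s₁ := orbitRel H X) q0
      rw [← h3, h2, h4]
  rw [h1]
  apply Finset.sum_congr rfl
  intro q _
  unfold wq iw
  rw [Nat.card_congr (Subgroup.topEquiv (G := ↥(stabilizer H (Quotient.out q)))).toEquiv]

/-- THE MAIN THEOREM: the bridge; the minimality is only needed for the clean quotients of the local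
piece -/
theorem bridge_red (hst : ∀ x : V, InC ↥(stabilizer H x)) (q0 : orbitRel.Quotient H X)
    (hmin : ∀ (V' : Type) [MulAction ↥(stabilizer H (Quotient.out q0)) V']
      (K' : PX ↥(stabilizer H (Quotient.out q0)) V') (f : S.xs.YW (Quotient.out q0) → V'),
      Red (S.pxw (Quotient.out q0)) K' f → K'.Clean → S.K.hg.bb ≤ K'.hg.bb) :
    ∀ x0 y0 : V, Finite ↥(stabilizer H (x0, y0)) → ∀ w u : X, ∃ σ : V → ZMod 2,
      (∀ q z, S.K.E q z → S.xs.Cr z w u → σ q + σ z = XS.ind x0 y0 q z) ∧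
      ∀ s, ¬ Finite ↥(stabilizer H s ⊓ (stabilizer H w ⊓ stabilizer H u) : Subgroup H) →
        σ s = 0 := by
  classical
  obtain ⟨Q⟩ := S.exists_CQ
  have hD := S.finOrb_darts1 hst
  have hV := S.finOrb_V1
  obtain ⟨V0, _, R, hfg, hbb⟩ := Q.loc.exists_XR S.finX S.finOrb_Y0 (S.finOrb_dartsL hst)
  have hF : Folds S.xs.G1 (XS.FF R) := XS.FF_folds R S.xs_walls hV hfg
  have hD' : FinOrb H (S.xs.G1.map (XS.FF R) (XS.FF_smul R)).darts :=
    S.xs.G1.finOrb_darts_map hD _ _
  have h1 := XS.bb_map R hD'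
  have h2 : S.xs.G1.bb = S.K.hg.bb := S.xs.bb_G1 hV hD S.K.fin (S.tmass hst)
  have hq0 : q0 ∈ S.finX.toFinset := by
    rw [Set.Finite.mem_toFinset]
    exact ⟨Quotient.out q0, trivial, Quotient.out_eq' (s₁ := orbitRel H X) q0⟩
  have h3 : S.K.hg.bb ≤ (S.xs.G1.map (XS.FF R) (XS.FF_smul R)).bb := by
    rw [h1, hbb, S.CD_eq, ← Finset.add_sum_erase _ _ hq0]
    have e1 : S.K.hg.bb ≤ @HG.bb _ _ _ (Q.loc.act q0) (@HG.map _ _ _ _ _ (Q.loc.act q0)
        (S.xs.GW (Quotient.out q0)) (Q.loc.f q0) (Q.loc.equi q0)) := by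
      refine le_trans ?_ (Q.bb_eq q0).ge
      let _ := Q.act q0
      exact hmin (Q.V' q0) (Q.K' q0) (Q.f q0) (Q.red q0) (Q.clean q0)
    have e2 : - ∑ q ∈ S.finX.toFinset.erase q0,
        iw (⊤ : Subgroup ↥(stabilizer H (Quotient.out q))) ≤
        ∑ q ∈ S.finX.toFinset.erase q0, @HG.bb _ _ _ (Q.loc.act q)
          (@HG.map _ _ _ _ _ (Q.loc.act q) (S.xs.GW (Quotient.out q)) (Q.loc.f q)
            (Q.loc.equi q)) := by
      rw [← Finset.sum_neg_distrib]
      apply Finset.sum_le_sum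
      intro q _
      refine le_trans ?_ (Q.bb_eq q).ge
      let _ := Q.act q
      exact HG.bb_ge _ (Q.K' q).fin_darts (Q.K' q).fin (Q.K' q).ne (Q.K' q).conn
    have e3 := tree_count S.act S.finX S.finT (Quotient.out q0)
    rw [S.mass_off q0] at e3
    linarith
  intro x0 y0 hl w u
  exact XS.bridge hV hD R hF (h2.le.trans h3) hl w u

/-- THE MAIN THEOREM: centres and the bridge -/
theorem bridge_main (hst : ∀ x : V, InC ↥(stabilizer H x)) (q0 : orbitRel.Quotient H X)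
    (hmin : ∀ (V' : Type) [MulAction ↥(stabilizer H (Quotient.out q0)) V']
      (K' : PX ↥(stabilizer H (Quotient.out q0)) V'),
      S.K.A ≤ K'.A ∧ (K'.A = S.K.A → S.K.hg.bb ≤ K'.hg.bb)) :
    (∀ i, ∃ h : H, h • Quotient.out q0 = S.c i) ∧
    ∀ x0 y0 : V, Finite ↥(stabilizer H (x0, y0)) → ∀ w u : X, ∃ σ : V → ZMod 2,
      (∀ q z, S.K.E q z → S.xs.Cr z w u → σ q + σ z = XS.ind x0 y0 q z) ∧
      ∀ s, ¬ Finite ↥(stabilizer H s ⊓ (stabilizer H w ⊓ stabilizer H u) : Subgroup H) →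
        σ s = 0 := by
  refine ⟨fun i => S.centre_of_card (le_antisymm (S.pxw_A_le _) (hmin _ (S.pxw _)).1) i, ?_⟩
  apply S.bridge_red hst q0
  intro V' _ K' f r _
  have := hmin V' K'
  exact this.2 (le_antisymm ((r.card_le).trans (S.pxw_A_le _)) this.1)

end JT

end Pool.Agent.BT
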