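import Pool.Agent.BT.XWall
import Pool.Agent.BT.TM

/-!
# BT: `bb` of the blown up graph and of its quotient
-/

namespace Pool.Agent.BT

open MulAction
open Pool.Agent.SAF (orbs FinOrb mk_eq_iff FinOrb_iff exists_rep Conv)

namespace XS

variable {H V X : Type} [Group H] [MulAction H V] [MulAction H X] (S : XS H V X)

/-- the points -/
def PT : Set S.V1 := {q | q.1.2.2 = q.1.2.1}

/-- the ports -/
def PO : Set S.V1 := {q | q.1.2.2 ≠ q.1.2.1}

theorem PT_smul (h : H) (q : S.V1) (hq : q ∈ S.PT) : h • q ∈ S.PT := by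
  show h • q.1.2.2 = h • q.1.2.1
  rw [show q.1.2.2 = q.1.2.1 from hq]

theorem PO_smul (h : H) (q : S.V1) (hq : q ∈ S.PO) : h • q ∈ S.PO := by
  intro e
  exact hq (smul_left_cancel h (show h • q.1.2.2 = h • q.1.2.1 from e))

theorem PT_union_PO : S.PT ∪ S.PO = Set.univ := by
  ext q
  simp only [Set.mem_univ, iff_true]
  exact em _

theorem pt_mem (x : V) (w : X) (h : w ∈ S.J x) : S.pt x w h ∈ S.PT := rfl

theorem port_mem (x : V) (w w' : X) (h : S.Cr x w w') : S.port x w w' h ∈ S.PO :=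
  fun e => S.T.ne_of_adj h.1 (show w' = w from e).symm

/-- horizontal darts -/
def dh : Set (S.V1 × S.V1) := {p | p ∈ S.G1.darts ∧ p.1 ∈ S.PT ∧ p.2 ∈ S.PT}

def du : Set (S.V1 × S.V1) := {p | p ∈ S.G1.darts ∧ p.1 ∈ S.PT ∧ p.2 ∈ S.PO}

def dd : Set (S.V1 × S.V1) := {p | p ∈ S.G1.darts ∧ p.1 ∈ S.PO ∧ p.2 ∈ S.PT}

def dt : Set (S.V1 × S.V1) := {p | p ∈ S.G1.darts ∧ p.1 ∈ S.PO ∧ p.2 ∈ S.PO}

theorem darts_eq : S.G1.darts = (S.dh ∪ S.du) ∪ (S.dd ∪ S.dt) := by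
  ext p
  constructor
  · intro hp
    by_cases h1 : p.1 ∈ S.PT
    · by_cases h2 : p.2 ∈ S.PT
      · exact Or.inl (Or.inl ⟨hp, h1, h2⟩)
      · exact Or.inl (Or.inr ⟨hp, h1, h2⟩)
    · by_cases h2 : p.2 ∈ S.PT
      · exact Or.inr (Or.inl ⟨hp, h1, h2⟩)
      · exact Or.inr (Or.inr ⟨hp, h1, h2⟩)
  · rintro ((h | h) | (h | h)) <;> exact h.1

/-- the shape of the edges -/
theorem G1_cases {a b : S.V1} (e : S.G1.E a b) :
    (∃ x y w hx hy, a = S.pt x w hx ∧ b = S.pt y w hy ∧ S.G.E x y) ∨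
    (∃ x w w' h, a = S.pt x w h.2.1 ∧ b = S.port x w w' h) ∨
    (∃ x w w' h, a = S.port x w w' h ∧ b = S.pt x w h.2.1) ∨
    (∃ x w w' h, a = S.port x w w' h ∧ b = S.port x w' w h.symm) := by
  obtain ⟨⟨x, w, w'⟩, ha⟩ := a
  obtain ⟨⟨y, v, v'⟩, hb⟩ := b
  have e' : S.R1 (x, w, w') (y, v, v') := e
  cases e' with
  | hor _ _ _ e2 => exact Or.inl ⟨x, y, w, ha.1, hb.1, rfl, rfl, e2⟩
  | up _ _ _ e2 =>
    have h1 : v' ∈ S.J x := by
      rcases hb.2 with h | h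
      · exact absurd (show v' = w from h).symm (S.T.ne_of_adj e2)
      · exact h.2
    exact Or.inr (Or.inl ⟨x, w, v', ⟨e2, ha.1, h1⟩, rfl, rfl⟩)
  | dn _ _ _ e2 =>
    have h1 : w' ∈ S.J x := by
      rcases ha.2 with h | h
      · exact absurd (show w' = w from h).symm (S.T.ne_of_adj e2)
      · exact h.2
    exact Or.inr (Or.inr (Or.inl ⟨x, w, w', ⟨e2, ha.1, h1⟩, rfl, rfl⟩))
  | tr _ _ _ e2 =>
    have h1 : w' ∈ S.J x := by
      rcases ha.2 with h | h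
      · exact absurd (show w' = w from h).symm (S.T.ne_of_adj e2)
      · exact h.2
    exact Or.inr (Or.inr (Or.inr ⟨x, w, w', ⟨e2, ha.1, h1⟩, rfl, rfl⟩))


theorem mem_dh {p : S.V1 × S.V1} (hp : p ∈ S.dh) : ∃ x y w hx hy, p.1 = S.pt x w hx ∧
    p.2 = S.pt y w hy ∧ S.G.E x y := by
  rcases S.G1_cases hp.1.1 with h | ⟨x, w, w', h, e1, e2⟩ | ⟨x, w, w', h, e1, e2⟩ |
    ⟨x, w, w', h, e1, e2⟩
  · exact h
  · exact absurd hp.2.2 (by rw [e2]; exact S.port_mem x w w' h)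
  · exact absurd hp.2.1 (by rw [e1]; exact S.port_mem x w w' h)
  · exact absurd hp.2.1 (by rw [e1]; exact S.port_mem x w w' h)

theorem mem_du {p : S.V1 × S.V1} (hp : p ∈ S.du) : ∃ x w w' h, p.1 = S.pt x w h.2.1 ∧
    p.2 = S.port x w w' h := by
  rcases S.G1_cases hp.1.1 with ⟨x, y, w, hx, hy, e1, e2, _⟩ | h | ⟨x, w, w', h, e1, e2⟩ |
    ⟨x, w, w', h, e1, e2⟩
  · exact absurd (by rw [e2]; rfl : p.2 ∈ S.PT) hp.2.2
  · exact h
  · exact absurd hp.2.1 (by rw [e1]; exact S.port_mem x w w' h)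
  · exact absurd hp.2.1 (by rw [e1]; exact S.port_mem x w w' h)

theorem mem_dd {p : S.V1 × S.V1} (hp : p ∈ S.dd) : ∃ x w w' h, p.1 = S.port x w w' h ∧
    p.2 = S.pt x w h.2.1 := by
  rcases S.G1_cases hp.1.1 with ⟨x, y, w, hx, hy, e1, e2, _⟩ | ⟨x, w, w', h, e1, e2⟩ | h |
    ⟨x, w, w', h, e1, e2⟩
  · exact absurd (by rw [e1]; rfl : p.1 ∈ S.PT) hp.2.1
  · exact absurd (by rw [e1]; rfl : p.1 ∈ S.PT) hp.2.1
  · exact h
  · exact absurd hp.2.2 (by rw [e2]; exact S.port_mem x w' w h.symm)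

theorem mem_dt {p : S.V1 × S.V1} (hp : p ∈ S.dt) : ∃ x w w' h, p.1 = S.port x w w' h ∧
    p.2 = S.port x w' w h.symm := by
  rcases S.G1_cases hp.1.1 with ⟨x, y, w, hx, hy, e1, e2, _⟩ | ⟨x, w, w', h, e1, e2⟩ |
    ⟨x, w, w', h, e1, e2⟩ | h
  · exact absurd (by rw [e1]; rfl : p.1 ∈ S.PT) hp.2.1
  · exact absurd (by rw [e1]; rfl : p.1 ∈ S.PT) hp.2.1
  · exact absurd (by rw [e2]; rfl : p.2 ∈ S.PT) hp.2.2
  · exact h

section fin

variable (hV : FinOrb H (Set.univ : Set S.V1)) (hD : FinOrb H S.G1.darts)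

include hD in
theorem mass_dh : mass H S.dh = mass H S.G.darts := by
  have hF : ∀ (h : H) (p : S.V1 × S.V1),
      (fun p : S.V1 × S.V1 => (p.1.1.1, p.2.1.1)) (h • p) =
        h • (fun p : S.V1 × S.V1 => (p.1.1.1, p.2.1.1)) p := fun _ _ => rfl
  have h1 : (fun p : S.V1 × S.V1 => (p.1.1.1, p.2.1.1)) '' S.dh = S.G.darts := by
    ext p
    constructor
    · rintro ⟨q, hq, rfl⟩
      obtain ⟨x, y, w, hx, hy, e1, e2, e⟩ := S.mem_dh hq
      rw [show (fun p : S.V1 × S.V1 => (p.1.1.1, p.2.1.1)) q = (q.1.1.1, q.2.1.1) from rfl,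
        e1, e2]
      exact ⟨e, fun h => S.irr x (by
        have h' : x = y := h
        have e' : S.G.E x y := e
        rwa [← h'] at e')⟩
    · rintro ⟨e, hne⟩
      obtain ⟨x, y⟩ := p
      refine ⟨(S.pt x (S.p x y) (S.p_l x y e), S.pt y (S.p x y) (S.p_r x y e)),
        ⟨⟨R1.hor x y _ e, ?_⟩, rfl, rfl⟩, rfl⟩
      intro h
      apply hne
      exact congrArg (fun q : S.V1 => q.1.1) h
  rw [← h1]
  symm
  apply mass_image_inj hF
  · exact hD.mono (fun p hp => hp.1)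
  · intro h p hp
    exact ⟨S.G1.darts_smul h p hp.1, S.PT_smul h _ hp.2.1, S.PT_smul h _ hp.2.2⟩
  · intro a ha b hb e
    obtain ⟨x, y, w, hx, hy, e1, e2, exy⟩ := S.mem_dh ha
    obtain ⟨x', y', w', hx', hy', e1', e2', exy'⟩ := S.mem_dh hb
    obtain ⟨a1, a2⟩ := a
    obtain ⟨b1, b2⟩ := b
    have e1 : a1 = _ := e1
    have e2 : a2 = _ := e2
    have e1' : b1 = _ := e1'
    have e2' : b2 = _ := e2'
    subst e1 e2 e1' e2'
    have f1 : x = x' := congrArg Prod.fst e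
    have f2 : y = y' := congrArg Prod.snd e
    subst f1 f2
    have f3 : w = w' := (S.p_u x y w exy hx hy).trans (S.p_u x y w' exy hx' hy').symm
    subst f3
    rfl

include hD in
theorem mass_du : mass H S.du = mass H S.PO := by
  have h1 : (Prod.snd : S.V1 × S.V1 → S.V1) '' S.du = S.PO := by
    ext p
    constructor
    · rintro ⟨q, hq, rfl⟩
      exact hq.2.2
    · intro hp
      rcases S.V1_cases p with ⟨x, w, h, rfl⟩ | ⟨x, w, w', h, rfl⟩
      · exact absurd rfl hp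
      · refine ⟨(S.pt x w h.2.1, S.port x w w' h), ⟨⟨R1.up x w w' h.1, ?_⟩, rfl, hp⟩, rfl⟩
        intro e
        exact hp (by rw [show S.port x w w' h = S.pt x w h.2.1 from e.symm]; rfl)
  rw [← h1]
  symm
  apply mass_image_inj (fun _ _ => rfl)
  · exact hD.mono (fun p hp => hp.1)
  · intro h p hp
    exact ⟨S.G1.darts_smul h p hp.1, S.PT_smul h _ hp.2.1, S.PO_smul h _ hp.2.2⟩
  · intro a ha b hb e
    obtain ⟨x, w, w', h, e1, e2⟩ := S.mem_du ha
    obtain ⟨x', v, v', h', e1', e2'⟩ := S.mem_du hb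
    obtain ⟨a1, a2⟩ := a
    obtain ⟨b1, b2⟩ := b
    have e1 : a1 = _ := e1
    have e2 : a2 = _ := e2
    have e1' : b1 = _ := e1'
    have e2' : b2 = _ := e2'
    subst e1 e2 e1' e2'
    have f : ((x, w, w') : V × X × X) = (x', v, v') := congrArg Subtype.val e
    obtain ⟨rfl, f2⟩ := Prod.mk.inj f
    obtain ⟨rfl, rfl⟩ := Prod.mk.inj f2
    rfl

include hD in
theorem mass_dd : mass H S.dd = mass H S.PO := by
  rw [← mass_du S hD]
  have h1 : (Prod.swap : S.V1 × S.V1 → S.V1 × S.V1) '' S.du = S.dd := by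
    ext ⟨a, b⟩
    constructor
    · rintro ⟨⟨c, d⟩, hq, e⟩
      obtain ⟨rfl, rfl⟩ := Prod.mk.inj e
      exact ⟨⟨S.G1.symm _ _ hq.1.1, fun h => hq.1.2 h.symm⟩, hq.2.2, hq.2.1⟩
    · intro hq
      exact ⟨(b, a), ⟨⟨S.G1.symm _ _ hq.1.1, fun h => hq.1.2 h.symm⟩, hq.2.2, hq.2.1⟩, rfl⟩
  rw [← h1]
  apply mass_image_inj (fun _ _ => rfl)
  · exact hD.mono (fun p hp => hp.1)
  · intro h p hp
    exact ⟨S.G1.darts_smul h p hp.1, S.PT_smul h _ hp.2.1, S.PO_smul h _ hp.2.2⟩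
  · intro a _ b _ e
    exact Prod.swap_injective e

include hD in
theorem mass_dt : mass H S.dt = mass H S.PO := by
  have h1 : (Prod.fst : S.V1 × S.V1 → S.V1) '' S.dt = S.PO := by
    ext p
    constructor
    · rintro ⟨q, hq, rfl⟩
      exact hq.2.1
    · intro hp
      rcases S.V1_cases p with ⟨x, w, h, rfl⟩ | ⟨x, w, w', h, rfl⟩
      · exact absurd rfl hp
      · refine ⟨(S.port x w w' h, S.port x w' w h.symm), ⟨⟨R1.tr x w w' h.1, ?_⟩, hp,
          S.port_mem x w' w h.symm⟩, rfl⟩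
        intro e
        have e2 : ((x, w, w') : V × X × X) = (x, w', w) := congrArg Subtype.val e
        exact S.T.ne_of_adj h.1 (Prod.mk.inj (Prod.mk.inj e2).2).1
  rw [← h1]
  symm
  apply mass_image_inj (fun _ _ => rfl)
  · exact hD.mono (fun p hp => hp.1)
  · intro h p hp
    exact ⟨S.G1.darts_smul h p hp.1, S.PO_smul h _ hp.2.1, S.PO_smul h _ hp.2.2⟩
  · intro a ha b hb e
    obtain ⟨x, w, w', h, e1, e2⟩ := S.mem_dt ha
    obtain ⟨x', v, v', h', e1', e2'⟩ := S.mem_dt hb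
    obtain ⟨a1, a2⟩ := a
    obtain ⟨b1, b2⟩ := b
    have e1 : a1 = _ := e1
    have e2 : a2 = _ := e2
    have e1' : b1 = _ := e1'
    have e2' : b2 = _ := e2'
    subst e1 e2 e1' e2'
    have f : ((x, w, w') : V × X × X) = (x', v, v') := congrArg Subtype.val e
    obtain ⟨rfl, f2⟩ := Prod.mk.inj f
    obtain ⟨rfl, rfl⟩ := Prod.mk.inj f2
    rfl

include hD in
theorem mass_darts1 : mass H S.G1.darts = mass H S.G.darts + 3 * mass H S.PO := by
  have f1 : FinOrb H S.dh := hD.mono (fun p hp => hp.1)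
  have f2 : FinOrb H S.du := hD.mono (fun p hp => hp.1)
  have f3 : FinOrb H S.dd := hD.mono (fun p hp => hp.1)
  have f4 : FinOrb H S.dt := hD.mono (fun p hp => hp.1)
  have g1 : ∀ (h : H) (p : S.V1 × S.V1), p ∈ S.dh → h • p ∈ S.dh := fun h p hp =>
    ⟨S.G1.darts_smul h p hp.1, S.PT_smul h _ hp.2.1, S.PT_smul h _ hp.2.2⟩
  have g2 : ∀ (h : H) (p : S.V1 × S.V1), p ∈ S.du → h • p ∈ S.du := fun h p hp =>
    ⟨S.G1.darts_smul h p hp.1, S.PT_smul h _ hp.2.1, S.PO_smul h _ hp.2.2⟩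
  have g3 : ∀ (h : H) (p : S.V1 × S.V1), p ∈ S.dd → h • p ∈ S.dd := fun h p hp =>
    ⟨S.G1.darts_smul h p hp.1, S.PO_smul h _ hp.2.1, S.PT_smul h _ hp.2.2⟩
  rw [S.darts_eq, mass_union, mass_union, mass_union, mass_dh S hD, mass_du S hD, mass_dd S hD,
    mass_dt S hD]
  · ring
  · exact f3
  · exact f4
  · exact g3
  · intro p hp hp'
    exact hp'.2.2 hp.2.2
  · exact f1
  · exact f2
  · exact g1
  · intro p hp hp'
    exact hp'.2.2 hp.2.2
  · exact hD.mono (by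
      rintro p (hp | hp)
      · exact hp.1
      · exact hp.1)
  · exact hD.mono (by
      rintro p (hp | hp)
      · exact hp.1
      · exact hp.1)
  · rintro h p (hp | hp)
    · exact Or.inl (g1 h p hp)
    · exact Or.inr (g2 h p hp)
  · rintro p (hp | hp) (hp' | hp')
    · exact hp'.2.1 hp.2.1
    · exact hp'.2.1 hp.2.1
    · exact hp'.2.1 hp.2.1
    · exact hp'.2.1 hp.2.1

include hV in
theorem mass_V1 : mass H (Set.univ : Set S.V1) = mass H S.PT + mass H S.PO := by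
  rw [← S.PT_union_PO]
  apply mass_union
  · exact hV.mono (Set.subset_univ _)
  · exact hV.mono (Set.subset_univ _)
  · exact S.PT_smul
  · intro x hx hx'
    exact hx' hx

/-- the tree identity for the subtrees `J x` -/
def TMass : Prop := ∀ x, mass ↥(stabilizer H x) (S.J x) -
  mass ↥(stabilizer H x) {p : X × X | S.Cr x p.1 p.2} / 2 = iw (⊤ : Subgroup ↥(stabilizer H x))

theorem mass_PT_fib (x : V) (hf : FinOrb ↥(stabilizer H x) (fib (fun q : S.V1 => q.1.1) S.PT x)) :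
    mass ↥(stabilizer H x) (fib (fun q : S.V1 => q.1.1) S.PT x) =
      mass ↥(stabilizer H x) (S.J x) := by
  have h1 : (fun q : S.V1 => q.1.2.1) '' (fib (fun q : S.V1 => q.1.1) S.PT x) = S.J x := by
    ext w
    constructor
    · rintro ⟨q, ⟨hq, rfl⟩, rfl⟩
      exact q.2.1
    · intro hw
      exact ⟨S.pt x w hw, ⟨rfl, rfl⟩, rfl⟩
  rw [← h1]
  symm
  apply mass_image_inj (fun _ _ => rfl) hf
  · rintro ⟨h, hh⟩ q ⟨hq, e⟩
    refine ⟨S.PT_smul h q hq, ?_⟩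
    show h • q.1.1 = x
    have e' : q.1.1 = x := e
    rw [e']
    exact hh
  · rintro ⟨⟨a, w, w'⟩, ha⟩ ⟨ha1, ha2⟩ ⟨⟨b, v, v'⟩, hb⟩ ⟨hb1, hb2⟩ e
    apply Subtype.ext
    have e1 : w = v := e
    have e2 : a = x := ha2
    have e3 : b = x := hb2
    have e4 : w' = w := ha1
    have e5 : v' = v := hb1
    subst e1 e2 e4 e5
    exact Prod.ext e3.symm rfl

theorem mass_PO_fib (x : V) (hf : FinOrb ↥(stabilizer H x) (fib (fun q : S.V1 => q.1.1) S.PO x)) :
    mass ↥(stabilizer H x) (fib (fun q : S.V1 => q.1.1) S.PO x) =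
      mass ↥(stabilizer H x) {p : X × X | S.Cr x p.1 p.2} := by
  have h1 : (fun q : S.V1 => q.1.2) '' (fib (fun q : S.V1 => q.1.1) S.PO x) =
      {p : X × X | S.Cr x p.1 p.2} := by
    ext w
    constructor
    · rintro ⟨q, ⟨hq, rfl⟩, rfl⟩
      rcases S.V1_cases q with ⟨x, w, h, rfl⟩ | ⟨x, w, w', h, rfl⟩
      · exact absurd rfl hq
      · exact h
    · intro hw
      exact ⟨S.port x w.1 w.2 hw, ⟨S.port_mem _ _ _ _, rfl⟩, rfl⟩
  rw [← h1]
  symm
  apply mass_image_inj (fun _ _ => rfl) hf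
  · rintro ⟨h, hh⟩ q ⟨hq, e⟩
    refine ⟨S.PO_smul h q hq, ?_⟩
    show h • q.1.1 = x
    have e' : q.1.1 = x := e
    rw [e']
    exact hh
  · rintro ⟨⟨a, w, w'⟩, ha⟩ ⟨ha1, ha2⟩ ⟨⟨b, v, v'⟩, hb⟩ ⟨hb1, hb2⟩ e
    apply Subtype.ext
    have e1 : ((w, w') : X × X) = (v, v') := e
    have e2 : a = x := ha2
    have e3 : b = x := hb2
    obtain ⟨rfl, rfl⟩ := Prod.mk.inj e1
    exact Prod.ext (e2.trans e3.symm) rfl

include hV in
theorem mass_PT_PO (hVV : FinOrb H (Set.univ : Set V)) (hT : S.TMass) :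
    mass H S.PT - mass H S.PO / 2 = mass H (Set.univ : Set V) := by
  have hπ : ∀ (h : H) (q : S.V1), (fun q : S.V1 => q.1.1) (h • q) =
      h • (fun q : S.V1 => q.1.1) q := fun _ _ => rfl
  have f1 : FinOrb H S.PT := hV.mono (Set.subset_univ _)
  have f2 : FinOrb H S.PO := hV.mono (Set.subset_univ _)
  rw [mass_fib (π := fun q : S.V1 => q.1.1) hπ f1 S.PT_smul Quotient.out hVV.toFinset
      (fun q _ => Quotient.out_eq' (s₁ := orbitRel H V) q)
      (fun x _ => by rw [Set.Finite.mem_toFinset]; exact ⟨_, trivial, rfl⟩),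
    mass_fib (π := fun q : S.V1 => q.1.1) hπ f2 S.PO_smul Quotient.out hVV.toFinset
      (fun q _ => Quotient.out_eq' (s₁ := orbitRel H V) q)
      (fun x _ => by rw [Set.Finite.mem_toFinset]; exact ⟨_, trivial, rfl⟩),
    mass_eq_sum hVV, Finset.sum_div, ← Finset.sum_sub_distrib]
  apply Finset.sum_congr rfl
  intro q _
  rw [S.mass_PT_fib _ (finOrb_fib hπ f1 _), S.mass_PO_fib _ (finOrb_fib hπ f2 _), hT]
  unfold wq iw
  rw [Nat.card_congr (Subgroup.topEquiv (G := ↥(stabilizer H (Quotient.out q)))).toEquiv]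

include hV hD in
/-- THE FIRST IDENTITY -/
theorem bb_G1 (hVV : FinOrb H (Set.univ : Set V)) (hT : S.TMass) : S.G1.bb = S.G.bb := by
  have h1 := S.mass_PT_PO hV hVV hT
  unfold HG.bb
  rw [S.mass_darts1 hD, S.mass_V1 hV, ← h1]
  ring

end fin


/-! ### the quotient -/

/-- the crossed edges, ordered -/
def CD : Set (X × X) := {p | ∃ x, S.Cr x p.1 p.2}

variable {S} {V0 : Type} [MulAction H V0] (R : XR S V0)

/-- the vertex of the tree under a vertex of the quotient -/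
noncomputable def beta (v : V0) : X := (R.surj v).choose.1.1

theorem beta_f (y : S.Y0) : beta R (R.f y) = y.1.1 := R.base _ _ (R.surj (R.f y)).choose_spec

theorem beta_smul (h : H) (v : V0) : beta R (h • v) = h • beta R v := by
  obtain ⟨y, rfl⟩ := R.surj v
  rw [← R.equi, beta_f, beta_f]
  rfl

theorem beta_loc {a b : V0} (e : (S.GLoc.map R.f R.equi).E a b) : beta R a = beta R b := by
  obtain ⟨⟨⟨w, x⟩, hx⟩, ⟨⟨v, y⟩, hy⟩, rfl, rfl, e'⟩ := e
  rw [beta_f, beta_f]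
  have e2 : S.RL (w, x) (v, y) := e'
  cases e2 <;> rfl

/-- the darts between `t`-vertices -/
def TD : Set (V0 × V0) :=
  {p | ∃ w w' h h', p = (R.f (S.yt w w' h), R.f (S.yt w' w h'))}

theorem TD_smul (h : H) (p : V0 × V0) (hp : p ∈ TD R) : h • p ∈ TD R := by
  obtain ⟨w, w', k, k', rfl⟩ := hp
  refine ⟨h • w, h • w', ?_, ?_, ?_⟩
  · obtain ⟨x, hx⟩ := k
    exact ⟨h • x, hx.smul S h⟩
  · obtain ⟨x, hx⟩ := k'
    exact ⟨h • x, hx.smul S h⟩
  · show (h • R.f _, h • R.f _) = _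
    rw [← R.equi, ← R.equi]
    rfl

theorem map_darts : (S.G1.map (FF R) (FF_smul R)).darts =
    (S.GLoc.map R.f R.equi).darts ∪ TD R := by
  ext ⟨u, v⟩
  constructor
  · rintro ⟨⟨a, b, ea, eb, e⟩, hne⟩
    have ea : FF R a = u := ea
    have eb : FF R b = v := eb
    subst ea eb
    rcases S.G1_cases e with ⟨x, y, w, hx, hy, rfl, rfl, e2⟩ | ⟨x, w, w', h, rfl, rfl⟩ |
      ⟨x, w, w', h, rfl, rfl⟩ | ⟨x, w, w', h, rfl, rfl⟩
    · exact Or.inl ⟨L_hor R w hx hy e2, hne⟩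
    · exact Or.inl ⟨L_up R h, hne⟩
    · exact Or.inl ⟨(S.GLoc.map R.f R.equi).symm _ _ (L_up R h), hne⟩
    · refine Or.inr ⟨w, w', ⟨x, h⟩, ⟨x, h.symm⟩, ?_⟩
      unfold FF
      rw [S.pi1_port, S.pi1_port]
  · rintro (⟨⟨a, b, ea, eb, e⟩, hne⟩ | ⟨w, w', ⟨x, h⟩, h', e⟩)
    · have ea : R.f a = u := ea
      have eb : R.f b = v := eb
      subst ea eb
      obtain ⟨a', b', e1, e2, e3⟩ := S.lift_loc e
      refine ⟨⟨a', b', ?_, ?_, e3⟩, hne⟩
      · show R.f (S.pi1 a') = R.f a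
        rw [e1]
      · show R.f (S.pi1 b') = R.f b
        rw [e2]
    · obtain ⟨rfl, rfl⟩ := Prod.mk.inj e
      refine ⟨⟨S.port x w w' h, S.port x w' w h.symm, ?_, ?_, R1.tr x w w' h.1⟩, ?_⟩
      · show R.f (S.pi1 _) = _
        rw [S.pi1_port]
      · show R.f (S.pi1 _) = _
        rw [S.pi1_port]
      · intro e2
        exact S.T.ne_of_adj h.1 (R.base _ _ e2)

theorem mass_TD (hf : FinOrb H (TD R)) : mass H (TD R) = mass H S.CD := by
  have hF : ∀ (h : H) (p : V0 × V0), (fun p : V0 × V0 => (beta R p.1, beta R p.2)) (h • p) =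
      h • (fun p : V0 × V0 => (beta R p.1, beta R p.2)) p := by
    intro h p
    show (beta R (h • p.1), beta R (h • p.2)) = (h • beta R p.1, h • beta R p.2)
    rw [beta_smul, beta_smul]
  have h1 : (fun p : V0 × V0 => (beta R p.1, beta R p.2)) '' TD R = S.CD := by
    ext ⟨w, w'⟩
    constructor
    · rintro ⟨_, ⟨v, v', k, k', rfl⟩, e⟩
      have e' : (beta R (R.f (S.yt v v' k)), beta R (R.f (S.yt v' v k'))) = (w, w') := e
      rw [beta_f, beta_f] at e'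
      obtain ⟨rfl, rfl⟩ := Prod.mk.inj e'
      exact k
    · rintro ⟨x, hx⟩
      refine ⟨_, ⟨w, w', ⟨x, hx⟩, ⟨x, hx.symm⟩, rfl⟩, ?_⟩
      show (beta R (R.f _), beta R (R.f _)) = _
      rw [beta_f, beta_f]
      rfl
  rw [← h1]
  symm
  apply mass_image_inj hF hf (TD_smul R)
  rintro _ ⟨v, v', k, k', rfl⟩ _ ⟨w, w', l, l', rfl⟩ e
  have e' : (beta R (R.f (S.yt v v' k)), beta R (R.f (S.yt v' v k'))) =
    (beta R (R.f (S.yt w w' l)), beta R (R.f (S.yt w' w l'))) := e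
  rw [beta_f, beta_f, beta_f, beta_f] at e'
  have e2 : ((v, v') : X × X) = (w, w') := e'
  obtain ⟨rfl, rfl⟩ := Prod.mk.inj e2
  rfl

/-- THE SECOND IDENTITY -/
theorem bb_map (hD : FinOrb H (S.G1.map (FF R) (FF_smul R)).darts) :
    (S.G1.map (FF R) (FF_smul R)).bb = (S.GLoc.map R.f R.equi).bb + mass H S.CD / 2 := by
  have h1 : FinOrb H (S.GLoc.map R.f R.equi).darts :=
    hD.mono (by rw [map_darts]; exact Set.subset_union_left)
  have h2 : FinOrb H (TD R) :=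
    hD.mono (by rw [map_darts]; exact Set.subset_union_right)
  unfold HG.bb
  rw [map_darts, mass_union h1 h2 (HG.darts_smul _), mass_TD R h2]
  · ring
  · rintro ⟨a, b⟩ ⟨e, _⟩ ⟨w, w', h, h', e2⟩
    obtain ⟨rfl, rfl⟩ := Prod.mk.inj e2
    have e3 := beta_loc R e
    rw [beta_f, beta_f] at e3
    obtain ⟨x, hx⟩ := h
    exact S.T.ne_of_adj hx.1 e3

end XS

end Pool.Agent.BT
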