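import Pool.Agent.BT.XBridge

/-!
# BT: the quotient `V0` of the local pieces, from quotients of the pieces at orbit representatives
-/

namespace Pool.Agent.BT

open MulAction
open Pool.Agent.SAF (orbs FinOrb mk_eq_iff FinOrb_iff exists_rep Conv)

namespace XS

variable {H V X : Type} [Group H] [MulAction H V] [MulAction H X] (S : XS H V X)

/-- the local piece at `w` -/
def YW (w : X) : Type := {y : S.Y0 // y.1.1 = w}

instance actYW (w : X) : MulAction ↥(stabilizer H w) (S.YW w) where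
  smul h y := ⟨h.1 • y.1, by
    show h.1 • y.1.1.1 = w
    rw [y.2]
    exact h.2⟩
  one_smul y := Subtype.ext (one_smul H y.1)
  mul_smul a b y := Subtype.ext (mul_smul a.1 b.1 y.1)

/-- the local graph at `w` -/
def GW (w : X) : HG ↥(stabilizer H w) (S.YW w) where
  E a b := S.GLoc.E a.1 b.1
  symm _ _ h := S.GLoc.symm _ _ h
  smul h _ _ e := S.GLoc.smul h.1 _ _ e

/-- quotients of the local pieces at the orbit representatives -/
structure LocQ where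
  V' : orbitRel.Quotient H X → Type
  act : ∀ q, MulAction ↥(stabilizer H (Quotient.out q)) (V' q)
  f : ∀ q, S.YW (Quotient.out q) → V' q
  equi : ∀ q (h : ↥(stabilizer H (Quotient.out q))) (y : S.YW (Quotient.out q)),
    f q (h • y) = (act q).toSMul.smul h (f q y)
  surj : ∀ q, Function.Surjective (f q)
  tinj : ∀ q w' w'' h h', f q ⟨S.yt (Quotient.out q) w' h, rfl⟩ =
    f q ⟨S.yt (Quotient.out q) w'' h', rfl⟩ → w' = w''
  c3 : ∀ q (a b c : V' q),
    (@HG.map _ _ _ _ _ (act q) (S.GW (Quotient.out q)) (f q) (equi q)).E a b →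
    (@HG.map _ _ _ _ _ (act q) (S.GW (Quotient.out q)) (f q) (equi q)).E b c →
    (@HG.map _ _ _ _ _ (act q) (S.GW (Quotient.out q)) (f q) (equi q)).E c a →
    a = b ∨ b = c ∨ c = a
  c4 : ∀ q (a b c d : V' q),
    (@HG.map _ _ _ _ _ (act q) (S.GW (Quotient.out q)) (f q) (equi q)).E a b →
    (@HG.map _ _ _ _ _ (act q) (S.GW (Quotient.out q)) (f q) (equi q)).E b c →
    (@HG.map _ _ _ _ _ (act q) (S.GW (Quotient.out q)) (f q) (equi q)).E c d →
    (@HG.map _ _ _ _ _ (act q) (S.GW (Quotient.out q)) (f q) (equi q)).E d a →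
    a = c ∨ b = d ∨ (a = b ∧ c = d) ∨ (b = c ∧ d = a)
  mg : ∀ q (a b : S.YW (Quotient.out q)), f q a = f q b →
    @Mg _ _ (V' q) _ _ (S.GW (Quotient.out q)) (f q) a b
  fg : ∀ q (v : V' q), (@stabilizer _ _ _ (act q) v).FG


attribute [local instance] LocQ.act

section build

variable {S} (Q : S.LocQ)

theorem LocQ.equi' (q : orbitRel.Quotient H X) (h : ↥(stabilizer H (Quotient.out q)))
    (y : S.YW (Quotient.out q)) : Q.f q (h • y) = h • Q.f q y := Q.equi q h y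

theorem fg_map {G K : Type} [Group G] [Group K] {P : Subgroup G} (h : P.FG) (e : G →* K) :
    (P.map e).FG := by
  rw [Subgroup.fg_iff] at h ⊢
  obtain ⟨s, hs, hf⟩ := h
  exact ⟨e '' s, by rw [← MonoidHom.map_closure, hs], hf.image e⟩

/-- the kernel of the quotient map -/
def LocQ.Rr (a b : S.Y0) : Prop :=
  ∃ (q : orbitRel.Quotient H X) (k : H) (a' b' : S.YW (Quotient.out q)),
    a = k • a'.1 ∧ b = k • b'.1 ∧ Q.f q a' = Q.f q b'

omit [MulAction H V] in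
theorem out_eq_of {q q' : orbitRel.Quotient H X} {h : H}
    (e : h • Quotient.out q = Quotient.out q') : q = q' := by
  have h1 : (Quotient.mk'' (Quotient.out q) : orbitRel.Quotient H X) = q :=
    Quotient.out_eq' (s₁ := orbitRel H X) q
  have h2 : (Quotient.mk'' (Quotient.out q') : orbitRel.Quotient H X) = q' :=
    Quotient.out_eq' (s₁ := orbitRel H X) q'
  rw [← h1, ← h2]
  exact (mk_eq_iff.2 ⟨h, e⟩).symm

/-- a point of the piece at `w` -/
def yw (w : X) (y : S.Y0) (h : y.1.1 = w) : S.YW w := ⟨y, h⟩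

theorem base_smul (h : H) (y : S.Y0) : (h • y).1.1 = h • y.1.1 := rfl

theorem exists_k (w : X) : ∃ k : H,
    k • Quotient.out (Quotient.mk'' w : orbitRel.Quotient H X) = w := by
  apply mk_eq_iff.1
  exact (Quotient.out_eq' (s₁ := orbitRel H X) _).symm

theorem LocQ.Rr_refl (a : S.Y0) : Q.Rr a a := by
  obtain ⟨k, hk⟩ := exists_k (H := H) a.1.1
  have e : (k⁻¹ • a).1.1 = Quotient.out (Quotient.mk'' a.1.1 : orbitRel.Quotient H X) := by
    rw [base_smul, inv_smul_eq_iff, hk]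
  exact ⟨_, k, ⟨k⁻¹ • a, e⟩, ⟨k⁻¹ • a, e⟩, (smul_inv_smul k a).symm, (smul_inv_smul k a).symm, rfl⟩

theorem LocQ.Rr_symm {a b : S.Y0} (h : Q.Rr a b) : Q.Rr b a := by
  obtain ⟨q, k, a', b', e1, e2, e3⟩ := h
  exact ⟨q, k, b', a', e2, e1, e3.symm⟩

/-- change of the coordinates -/
theorem LocQ.Rr_coord {b c : S.Y0} (h : Q.Rr b c) {q : orbitRel.Quotient H X} {k : H}
    {b' : S.YW (Quotient.out q)} (e : b = k • b'.1) :
    ∃ c' : S.YW (Quotient.out q), c = k • c'.1 ∧ Q.f q b' = Q.f q c' := by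
  obtain ⟨q', l, b'', c'', e1, e2, e3⟩ := h
  have h1 : k • Quotient.out q = l • Quotient.out q' := by
    have h2 : (k • b'.1).1.1 = (l • b''.1).1.1 := by rw [← e, ← e1]
    rw [base_smul, base_smul, b'.2, b''.2] at h2
    exact h2
  have h3 : (l⁻¹ * k) • Quotient.out q = Quotient.out q' := by
    rw [mul_smul, h1, inv_smul_smul]
  have hq := out_eq_of h3
  subst hq
  have hg : l⁻¹ * k ∈ stabilizer H (Quotient.out q) := h3
  have hb : b'' = (⟨l⁻¹ * k, hg⟩ : ↥(stabilizer H (Quotient.out q))) • b' := by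
    apply Subtype.ext
    show b''.1 = (l⁻¹ * k) • b'.1
    rw [mul_smul, ← e, e1, inv_smul_smul]
  refine ⟨(⟨l⁻¹ * k, hg⟩ : ↥(stabilizer H (Quotient.out q)))⁻¹ • c'', ?_, ?_⟩
  · show c = k • ((l⁻¹ * k)⁻¹ • c''.1)
    rw [smul_smul, mul_inv_rev, inv_inv, mul_inv_cancel_left]
    exact e2
  · rw [Q.equi', ← e3, hb, Q.equi', inv_smul_smul]

theorem LocQ.Rr_trans {a b c : S.Y0} (h : Q.Rr a b) (h' : Q.Rr b c) : Q.Rr a c := by
  obtain ⟨q, k, a', b', e1, e2, e3⟩ := h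
  obtain ⟨c', e4, e5⟩ := Q.Rr_coord h' e2
  exact ⟨q, k, a', c', e1, e4, e3.trans e5⟩

theorem LocQ.Rr_smul (h : H) {a b : S.Y0} (r : Q.Rr a b) : Q.Rr (h • a) (h • b) := by
  obtain ⟨q, k, a', b', e1, e2, e3⟩ := r
  refine ⟨q, h * k, a', b', ?_, ?_, e3⟩
  · rw [e1, mul_smul]
  · rw [e2, mul_smul]

/-- the kernel as a setoid -/
def LocQ.st : Setoid S.Y0 := ⟨Q.Rr, Q.Rr_refl, Q.Rr_symm, Q.Rr_trans⟩

/-- the quotient -/
def LocQ.V0 : Type := Quotient Q.st

/-- the quotient map -/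
def LocQ.cl (y : S.Y0) : Q.V0 := Quotient.mk Q.st y

instance LocQ.actV0 : MulAction H Q.V0 where
  smul h := Quotient.map (fun y => h • y) (fun _ _ r => Q.Rr_smul h r)
  one_smul v := by
    induction v using Quotient.inductionOn with
    | h y => exact congrArg Q.cl (one_smul H y)
  mul_smul a b v := by
    induction v using Quotient.inductionOn with
    | h y => exact congrArg Q.cl (mul_smul a b y)

theorem LocQ.cl_smul (h : H) (y : S.Y0) : Q.cl (h • y) = h • Q.cl y := rfl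

theorem LocQ.cl_eq {a b : S.Y0} : Q.cl a = Q.cl b ↔ Q.Rr a b := by
  constructor
  · intro e
    exact Quotient.exact (s := Q.st) e
  · intro r
    exact Quotient.sound (s := Q.st) r

theorem LocQ.cl_surj : Function.Surjective Q.cl := by
  intro v
  induction v using Quotient.inductionOn with
  | h y => exact ⟨y, rfl⟩

theorem LocQ.cl_iff {q : orbitRel.Quotient H X} {a b : S.YW (Quotient.out q)} :
    Q.cl a.1 = Q.cl b.1 ↔ Q.f q a = Q.f q b := by
  rw [LocQ.cl_eq]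
  constructor
  · intro r
    obtain ⟨c', e1, e2⟩ := Q.Rr_coord r (q := q) (k := 1) (b' := a) (one_smul H _).symm
    rw [e2]
    congr 1
    apply Subtype.ext
    rw [e1, one_smul]
  · intro e
    exact ⟨q, 1, a, b, (one_smul H _).symm, (one_smul H _).symm, e⟩

theorem LocQ.cl_base {a b : S.Y0} (e : Q.cl a = Q.cl b) : a.1.1 = b.1.1 := by
  obtain ⟨q, k, a', b', e1, e2, _⟩ := Q.cl_eq.1 e
  rw [e1, e2, base_smul, base_smul, a'.2, b'.2]

/-- the base point -/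
noncomputable def LocQ.bs (v : Q.V0) : X := (Q.cl_surj v).choose.1.1

theorem LocQ.bs_cl (y : S.Y0) : Q.bs (Q.cl y) = y.1.1 :=
  Q.cl_base (Q.cl_surj (Q.cl y)).choose_spec

theorem LocQ.bs_smul (h : H) (v : Q.V0) : Q.bs (h • v) = h • Q.bs v := by
  obtain ⟨y, rfl⟩ := Q.cl_surj v
  rw [← Q.cl_smul, Q.bs_cl, Q.bs_cl]
  rfl

/-- the inclusion of the pieces -/
noncomputable def LocQ.ph (q : orbitRel.Quotient H X) (v : Q.V' q) : Q.V0 :=
  Q.cl (Q.surj q v).choose.1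

theorem LocQ.ph_f (q : orbitRel.Quotient H X) (y : S.YW (Quotient.out q)) :
    Q.ph q (Q.f q y) = Q.cl y.1 :=
  Q.cl_iff.2 (Q.surj q (Q.f q y)).choose_spec

theorem LocQ.ph_inj (q : orbitRel.Quotient H X) : Function.Injective (Q.ph q) := by
  intro v v' e
  obtain ⟨y, rfl⟩ := Q.surj q v
  obtain ⟨y', rfl⟩ := Q.surj q v'
  rw [Q.ph_f, Q.ph_f] at e
  exact Q.cl_iff.1 e

theorem LocQ.ph_smul (q : orbitRel.Quotient H X) (h : ↥(stabilizer H (Quotient.out q)))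
    (v : Q.V' q) : Q.ph q (h • v) = h • Q.ph q v := by
  obtain ⟨y, rfl⟩ := Q.surj q v
  rw [← Q.equi', Q.ph_f, Q.ph_f]
  rfl

theorem LocQ.bs_ph (q : orbitRel.Quotient H X) (v : Q.V' q) :
    Q.bs (Q.ph q v) = Quotient.out q := by
  obtain ⟨y, rfl⟩ := Q.surj q v
  rw [Q.ph_f, Q.bs_cl]
  exact y.2

theorem LocQ.exists_ph {q : orbitRel.Quotient H X} {k : H} {a : Q.V0}
    (e : k • Quotient.out q = Q.bs a) : ∃ v : Q.V' q, a = k • Q.ph q v := by
  obtain ⟨y, rfl⟩ := Q.cl_surj a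
  rw [Q.bs_cl] at e
  have h1 : (k⁻¹ • y).1.1 = Quotient.out q := by
    rw [base_smul, inv_smul_eq_iff, e]
  refine ⟨Q.f q (yw _ (k⁻¹ • y) h1), ?_⟩
  rw [Q.ph_f, ← Q.cl_smul]
  show Q.cl y = Q.cl (k • k⁻¹ • y)
  rw [smul_inv_smul]

/-- the quotient of the local pieces -/
def LocQ.GV : HG H Q.V0 := S.GLoc.map Q.cl Q.cl_smul

/-- the quotient of one piece -/
noncomputable def LocQ.GVq (q : orbitRel.Quotient H X) : HG ↥(stabilizer H (Quotient.out q)) (Q.V' q) :=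
  (S.GW (Quotient.out q)).map (Q.f q) (Q.equi q)

theorem LocQ.E_bs {a b : Q.V0} (e : Q.GV.E a b) : Q.bs a = Q.bs b := by
  obtain ⟨⟨⟨w, x⟩, hx⟩, ⟨⟨v, y⟩, hy⟩, rfl, rfl, e'⟩ := e
  refine (Q.bs_cl _).trans (Eq.trans ?_ (Q.bs_cl _).symm)
  have e2 : S.RL (w, x) (v, y) := e'
  cases e2 <;> rfl

theorem LocQ.E_ph {q : orbitRel.Quotient H X} {v v' : Q.V' q} :
    Q.GV.E (Q.ph q v) (Q.ph q v') ↔ (Q.GVq q).E v v' := by
  constructor
  · rintro ⟨a, b, ea, eb, e⟩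
    have ha : a.1.1 = Quotient.out q := by rw [← Q.bs_cl, ea, Q.bs_ph]
    have hb : b.1.1 = Quotient.out q := by rw [← Q.bs_cl, eb, Q.bs_ph]
    refine ⟨yw _ a ha, yw _ b hb, ?_, ?_, e⟩
    · apply Q.ph_inj
      rw [Q.ph_f]
      exact ea
    · apply Q.ph_inj
      rw [Q.ph_f]
      exact eb
  · rintro ⟨a, b, rfl, rfl, e⟩
    exact ⟨a.1, b.1, (Q.ph_f q a).symm, (Q.ph_f q b).symm, e⟩

theorem LocQ.E_ph' {q : orbitRel.Quotient H X} {k : H} {v v' : Q.V' q}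
    (e : Q.GV.E (k • Q.ph q v) (k • Q.ph q v')) : (Q.GVq q).E v v' := by
  have h := Q.GV.smul k⁻¹ _ _ e
  rw [inv_smul_smul, inv_smul_smul] at h
  exact Q.E_ph.1 h

theorem LocQ.mg_up {q : orbitRel.Quotient H X} {a b : S.YW (Quotient.out q)}
    (m : Mg (S.GW (Quotient.out q)) (Q.f q) a b) : Mg S.GLoc Q.cl a.1 b.1 := by
  induction m with
  | refl x => exact Mg.refl _
  | symm x y _ ih => exact ih.symm _ _
  | trans x y z _ _ ih1 ih2 => exact ih1.trans _ _ _ ih2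
  | smul h x y _ ih => exact Mg.smul h.1 _ _ ih
  | adj x y e exy => exact Mg.adj _ _ (Q.cl_iff.2 e) exy
  | nb x y z z' e _ e1 e2 ih => exact Mg.nb _ _ _ _ (Q.cl_iff.2 e) ih e1 e2

/-- the quotient as a structure -/
noncomputable def LocQ.xr : XR S Q.V0 where
  f := Q.cl
  equi := Q.cl_smul
  surj := Q.cl_surj
  base _ _ e := Q.cl_base e
  tinj := by
    intro w w' w'' h h' e
    obtain ⟨k, hk⟩ := exists_k (H := H) w
    have hk' : k⁻¹ • w = Quotient.out (Quotient.mk'' w : orbitRel.Quotient H X) := by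
      rw [inv_smul_eq_iff, hk]
    obtain ⟨x, hx⟩ := h
    obtain ⟨x', hx'⟩ := h'
    have c1 : S.Cr (k⁻¹ • x) (Quotient.out (Quotient.mk'' w : orbitRel.Quotient H X))
        (k⁻¹ • w') := by
      rw [← hk']
      exact hx.smul S k⁻¹
    have c2 : S.Cr (k⁻¹ • x') (Quotient.out (Quotient.mk'' w : orbitRel.Quotient H X))
        (k⁻¹ • w'') := by
      rw [← hk']
      exact hx'.smul S k⁻¹
    have h1 := Q.tinj (Quotient.mk'' w) (k⁻¹ • w') (k⁻¹ • w'') ⟨_, c1⟩ ⟨_, c2⟩ (by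
      apply (Q.cl_iff (a := yw _ (S.yt (Quotient.out (Quotient.mk'' w : orbitRel.Quotient H X))
        (k⁻¹ • w') ⟨_, c1⟩) rfl) (b := yw _ (S.yt (Quotient.out (Quotient.mk'' w :
        orbitRel.Quotient H X)) (k⁻¹ • w'') ⟨_, c2⟩) rfl)).1
      have e2 : Q.cl (k⁻¹ • S.yt w w' ⟨x, hx⟩) = Q.cl (k⁻¹ • S.yt w w'' ⟨x', hx'⟩) := by
        rw [Q.cl_smul, Q.cl_smul, e]
      have e3 : S.yt (Quotient.out (Quotient.mk'' w : orbitRel.Quotient H X)) (k⁻¹ • w')
          ⟨_, c1⟩ = k⁻¹ • S.yt w w' ⟨x, hx⟩ := by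
        apply Subtype.ext
        show (_, Sum.inr (k⁻¹ • w')) = (k⁻¹ • w, Sum.inr (k⁻¹ • w'))
        rw [hk']
      have e4 : S.yt (Quotient.out (Quotient.mk'' w : orbitRel.Quotient H X)) (k⁻¹ • w'')
          ⟨_, c2⟩ = k⁻¹ • S.yt w w'' ⟨x', hx'⟩ := by
        apply Subtype.ext
        show (_, Sum.inr (k⁻¹ • w'')) = (k⁻¹ • w, Sum.inr (k⁻¹ • w''))
        rw [hk']
      show Q.cl (S.yt _ _ _) = Q.cl (S.yt _ _ _)
      rw [e3, e4, e2])
    exact smul_left_cancel _ h1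
  c3 := by
    intro a b c e1 e2 e3
    obtain ⟨q, k, hk⟩ : ∃ (q : orbitRel.Quotient H X) (k : H), k • Quotient.out q = Q.bs a :=
      ⟨_, exists_k (H := H) (Q.bs a)⟩
    have b1 := Q.E_bs e1
    have b2 := Q.E_bs e2
    obtain ⟨va, rfl⟩ := Q.exists_ph hk
    obtain ⟨vb, rfl⟩ := Q.exists_ph (hk.trans b1)
    obtain ⟨vc, rfl⟩ := Q.exists_ph (hk.trans (b1.trans b2))
    rcases Q.c3 _ va vb vc (Q.E_ph' e1) (Q.E_ph' e2) (Q.E_ph' e3) with h | h | h
    · exact Or.inl (by rw [h])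
    · exact Or.inr (Or.inl (by rw [h]))
    · exact Or.inr (Or.inr (by rw [h]))
  c4 := by
    intro a b c d e1 e2 e3 e4
    obtain ⟨q, k, hk⟩ : ∃ (q : orbitRel.Quotient H X) (k : H), k • Quotient.out q = Q.bs a :=
      ⟨_, exists_k (H := H) (Q.bs a)⟩
    have b1 := Q.E_bs e1
    have b2 := Q.E_bs e2
    have b3 := Q.E_bs e3
    obtain ⟨va, rfl⟩ := Q.exists_ph hk
    obtain ⟨vb, rfl⟩ := Q.exists_ph (hk.trans b1)
    obtain ⟨vc, rfl⟩ := Q.exists_ph (hk.trans (b1.trans b2))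
    obtain ⟨vd, rfl⟩ := Q.exists_ph (hk.trans (b1.trans (b2.trans b3)))
    rcases Q.c4 _ va vb vc vd (Q.E_ph' e1) (Q.E_ph' e2) (Q.E_ph' e3) (Q.E_ph' e4) with
      h | h | ⟨h, h'⟩ | ⟨h, h'⟩
    · exact Or.inl (by rw [h])
    · exact Or.inr (Or.inl (by rw [h]))
    · exact Or.inr (Or.inr (Or.inl ⟨by rw [h], by rw [h']⟩))
    · exact Or.inr (Or.inr (Or.inr ⟨by rw [h], by rw [h']⟩))
  mg := by
    intro a b e
    obtain ⟨q, k, a', b', rfl, rfl, e'⟩ := Q.cl_eq.1 e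
    exact Mg.smul k _ _ (Q.mg_up (Q.mg q a' b' e'))

theorem LocQ.V0_fg (v : Q.V0) : (stabilizer H v).FG := by
  obtain ⟨q, k, hk⟩ : ∃ (q : orbitRel.Quotient H X) (k : H), k • Quotient.out q = Q.bs v :=
    ⟨_, exists_k (H := H) (Q.bs v)⟩
  obtain ⟨u, rfl⟩ := Q.exists_ph hk
  rw [stabilizer_smul_eq_stabilizer_map_conj]
  apply fg_map
  have h1 : stabilizer H (Q.ph q u) =
      (stabilizer ↥(stabilizer H (Quotient.out q)) u).map (Subgroup.subtype _) := by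
    ext h
    constructor
    · intro hh
      have hh' : h • Q.ph q u = Q.ph q u := hh
      have hq : h ∈ stabilizer H (Quotient.out q) := by
        rw [mem_stabilizer_iff]
        have := congrArg Q.bs hh'
        rw [Q.bs_smul, Q.bs_ph] at this
        exact this
      refine ⟨⟨h, hq⟩, ?_, rfl⟩
      apply Q.ph_inj
      rw [Q.ph_smul]
      exact hh'
    · rintro ⟨⟨h', hq⟩, hh, rfl⟩
      have hh' : (⟨h', hq⟩ : ↥(stabilizer H (Quotient.out q))) • u = u := hh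
      have h2 := Q.ph_smul q ⟨h', hq⟩ u
      rw [hh'] at h2
      exact h2.symm
  rw [h1]
  exact fg_map (Q.fg q u) _

theorem LocQ.mass_univ_q (q : orbitRel.Quotient H X)
    (hf : FinOrb ↥(stabilizer H (Quotient.out q)) (fib Q.bs (Set.univ : Set Q.V0) (Quotient.out q))) :
    mass ↥(stabilizer H (Quotient.out q)) (fib Q.bs (Set.univ : Set Q.V0) (Quotient.out q)) =
      mass ↥(stabilizer H (Quotient.out q)) (Set.univ : Set (Q.V' q)) := by
  have h1 : Q.ph q '' Set.univ = fib Q.bs (Set.univ : Set Q.V0) (Quotient.out q) := by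
    ext v
    constructor
    · rintro ⟨u, _, rfl⟩
      exact ⟨trivial, Q.bs_ph q u⟩
    · rintro ⟨_, e⟩
      obtain ⟨u, hu⟩ := Q.exists_ph (k := 1) (a := v) (by rw [one_smul]; exact e.symm)
      exact ⟨u, trivial, by rw [hu, one_smul]⟩
  have h2 : FinOrb ↥(stabilizer H (Quotient.out q)) (Set.univ : Set (Q.V' q)) := by
    apply Pool.Agent.SAF.FinOrb.of_inj hf (Q.ph q) (fun u _ => ⟨trivial, Q.bs_ph q u⟩)
    rintro a _ b _ ⟨h, e⟩
    exact ⟨h, Q.ph_inj q ((Q.ph_smul q h a).trans e)⟩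
  rw [← h1]
  exact mass_image_inj (Q.ph_smul q) h2 (fun _ _ _ => trivial)
    (fun a _ b _ e => Q.ph_inj q e)

theorem LocQ.mass_darts_q (q : orbitRel.Quotient H X)
    (hf : FinOrb ↥(stabilizer H (Quotient.out q))
      (fib (fun p : Q.V0 × Q.V0 => Q.bs p.1) Q.GV.darts (Quotient.out q))) :
    mass ↥(stabilizer H (Quotient.out q))
      (fib (fun p : Q.V0 × Q.V0 => Q.bs p.1) Q.GV.darts (Quotient.out q)) =
      mass ↥(stabilizer H (Quotient.out q)) (Q.GVq q).darts := by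
  have hF : ∀ (h : ↥(stabilizer H (Quotient.out q))) (p : Q.V' q × Q.V' q),
      (fun p : Q.V' q × Q.V' q => (Q.ph q p.1, Q.ph q p.2)) (h • p) =
        h • (fun p : Q.V' q × Q.V' q => (Q.ph q p.1, Q.ph q p.2)) p := by
    intro h p
    show (Q.ph q (h • p.1), Q.ph q (h • p.2)) = (h • Q.ph q p.1, h • Q.ph q p.2)
    rw [Q.ph_smul, Q.ph_smul]
  have hm : ∀ p ∈ (Q.GVq q).darts, (Q.ph q p.1, Q.ph q p.2) ∈
      fib (fun p : Q.V0 × Q.V0 => Q.bs p.1) Q.GV.darts (Quotient.out q) := by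
    rintro ⟨a, b⟩ ⟨e, hne⟩
    exact ⟨⟨Q.E_ph.2 e, fun h => hne (Q.ph_inj q h)⟩, Q.bs_ph q a⟩
  have h1 : (fun p : Q.V' q × Q.V' q => (Q.ph q p.1, Q.ph q p.2)) '' (Q.GVq q).darts =
      fib (fun p : Q.V0 × Q.V0 => Q.bs p.1) Q.GV.darts (Quotient.out q) := by
    ext ⟨v, v'⟩
    constructor
    · rintro ⟨p, hp, e⟩
      rw [← e]
      exact hm p hp
    · rintro ⟨⟨e, hne⟩, eb⟩
      have eb' : Q.bs v = Quotient.out q := eb
      have eb2 : Q.bs v' = Quotient.out q := (Q.E_bs e).symm.trans eb'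
      obtain ⟨u, hu⟩ := Q.exists_ph (k := 1) (a := v) (by rw [one_smul]; exact eb'.symm)
      obtain ⟨u', hu'⟩ := Q.exists_ph (k := 1) (a := v') (by rw [one_smul]; exact eb2.symm)
      rw [one_smul] at hu hu'
      subst hu hu'
      exact ⟨(u, u'), ⟨Q.E_ph.1 e, fun h => hne (congrArg (Q.ph q) h)⟩, rfl⟩
  have hinj : ∀ a b : Q.V' q × Q.V' q, (Q.ph q a.1, Q.ph q a.2) = (Q.ph q b.1, Q.ph q b.2) →
      a = b := by
    rintro ⟨a1, a2⟩ ⟨b1, b2⟩ e
    obtain ⟨e1, e2⟩ := Prod.mk.inj e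
    exact Prod.ext (Q.ph_inj q e1) (Q.ph_inj q e2)
  have h2 : FinOrb ↥(stabilizer H (Quotient.out q)) (Q.GVq q).darts := by
    apply Pool.Agent.SAF.FinOrb.of_inj hf
      (fun p : Q.V' q × Q.V' q => (Q.ph q p.1, Q.ph q p.2)) hm
    rintro a _ b _ ⟨h, e⟩
    refine ⟨h, hinj _ _ ?_⟩
    have e2 := (hF h a).trans e
    exact e2
  rw [← h1]
  exact mass_image_inj hF h2 (fun h p hp => (Q.GVq q).darts_smul h p hp)
    (fun a _ b _ e => hinj a b e)

theorem LocQ.bb_GV (hX : FinOrb H (Set.univ : Set X)) (hY : FinOrb H (Set.univ : Set S.Y0))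
    (hD : FinOrb H S.GLoc.darts) :
    Q.GV.bb = ∑ q ∈ hX.toFinset, (Q.GVq q).bb := by
  have f1 : FinOrb H (Set.univ : Set Q.V0) := by
    have := FinOrb.image_equi (F := Q.cl) Q.cl_smul hY
    rwa [Set.image_univ, Q.cl_surj.range_eq] at this
  have f2 : FinOrb H Q.GV.darts := S.GLoc.finOrb_darts_map hD Q.cl Q.cl_smul
  have hπ1 : ∀ (h : H) (v : Q.V0), Q.bs (h • v) = h • Q.bs v := Q.bs_smul
  have hπ2 : ∀ (h : H) (p : Q.V0 × Q.V0), (fun p : Q.V0 × Q.V0 => Q.bs p.1) (h • p) =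
      h • (fun p : Q.V0 × Q.V0 => Q.bs p.1) p := fun h p => Q.bs_smul h p.1
  unfold HG.bb
  rw [mass_fib (π := fun p : Q.V0 × Q.V0 => Q.bs p.1) hπ2 f2 Q.GV.darts_smul Quotient.out
      hX.toFinset (fun q _ => Quotient.out_eq' (s₁ := orbitRel H X) q)
      (fun x _ => (Set.Finite.mem_toFinset hX).2 ⟨_, trivial, rfl⟩),
    mass_fib (π := Q.bs) hπ1 f1 (fun _ _ _ => trivial) Quotient.out
      hX.toFinset (fun q _ => Quotient.out_eq' (s₁ := orbitRel H X) q)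
      (fun x _ => (Set.Finite.mem_toFinset hX).2 ⟨_, trivial, rfl⟩),
    Finset.sum_div, ← Finset.sum_sub_distrib]
  apply Finset.sum_congr rfl
  intro q _
  rw [Q.mass_darts_q q (finOrb_fib hπ2 f2 _), Q.mass_univ_q q (finOrb_fib hπ1 f1 _)]

end build

/-- THE QUOTIENT: there is a quotient of all the pieces; its `bb` is the sum over the orbits -/
theorem LocQ.exists_XR {S : XS H V X} (Q : S.LocQ) (hX : FinOrb H (Set.univ : Set X))
    (hY : FinOrb H (Set.univ : Set S.Y0)) (hD : FinOrb H S.GLoc.darts) :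
    ∃ (V0 : Type) (_ : MulAction H V0) (R : XR S V0),
      (∀ v : V0, (stabilizer H v).FG) ∧
      (S.GLoc.map R.f R.equi).bb = ∑ q ∈ hX.toFinset,
        @HG.bb _ _ _ (Q.act q)
          (@HG.map _ _ _ _ _ (Q.act q) (S.GW (Quotient.out q)) (Q.f q) (Q.equi q)) := by
  exact ⟨Q.V0, Q.actV0, Q.xr, Q.V0_fg, Q.bb_GV hX hY hD⟩

end XS

end Pool.Agent.BT
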