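import Pool.Agent.BT.JT
import Pool.Agent.BT.XV0

/-!
# BT: the local pieces as pentagon complexes: directions, the map `rho`
-/

namespace Pool.Agent.BT

open MulAction
open Pool.Agent.SAF (orbs FinOrb mk_eq_iff FinOrb_iff TAct Conv InC exists_next dist_edge)

namespace JT

variable {H V X : Type} [Group H] [MulAction H V] [MulAction H X] (S : JT H V X)

theorem crossed {w u : X} (h : S.T.Adj w u) : ∃ x, S.xs.Cr x w u := by
  by_contra hno
  push Not at hno
  obtain ⟨x0, hx0⟩ := S.cover w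
  obtain ⟨y0, hy0⟩ := S.cover u
  have hT := S.act.tree
  have h1 : S.T.dist w u = 1 := SimpleGraph.dist_eq_one_iff_adj.2 h
  have step : ∀ z, (∃ y ∈ S.J z, S.T.dist y u = S.T.dist y w + 1) →
      ∀ y ∈ S.J z, S.T.dist y u = S.T.dist y w + 1 := by
    rintro z ⟨y, hy, ey⟩ y' hy'
    rcases (dist_edge hT h y').1 with e | e
    · exact e
    · exfalso
      obtain ⟨a, b⟩ := (S.J_conv z).edge hT h hy hy' ey e
      exact hno z ⟨h, a, b⟩
  have key : ∀ z, Relation.ReflTransGen (fun a b => S.K.ar a b ∨ S.K.ar b a) x0 z →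
      ∀ y ∈ S.J z, S.T.dist y u = S.T.dist y w + 1 := by
    intro z hz
    induction hz with
    | refl => exact step x0 ⟨w, hx0, by rw [SimpleGraph.dist_self]; exact h1⟩
    | tail _ e ih =>
      rename_i b c _
      exact step c ⟨S.p b c, S.p_r b c e, ih _ (S.p_l b c e)⟩
  have := key y0 (S.K.conn x0 y0) u hy0
  rw [SimpleGraph.dist_self] at this
  omega

theorem exists_dir {w : X} {z : V} (h : w ∉ S.J z) :
    ∃ u, S.T.Adj w u ∧ ∀ y ∈ S.J z, S.T.dist w y = S.T.dist u y + 1 := by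
  have hT := S.act.tree
  obtain ⟨y0, hy0⟩ := S.J_ne z
  have hne : w ≠ y0 := by
    rintro rfl
    exact h hy0
  obtain ⟨u, hu, e⟩ := exists_next hT hne
  refine ⟨u, hu, fun y hy => ?_⟩
  have s1 : S.T.dist w y = S.T.dist y w := SimpleGraph.dist_comm
  have s2 : S.T.dist u y = S.T.dist y u := SimpleGraph.dist_comm
  have s3 : S.T.dist w y0 = S.T.dist y0 w := SimpleGraph.dist_comm
  have s4 : S.T.dist u y0 = S.T.dist y0 u := SimpleGraph.dist_comm
  rcases (dist_edge hT hu y).1 with e2 | e2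
  · exact absurd ((S.J_conv z).edge hT hu hy hy0 e2 (by omega)).1 h
  · omega

open Classical in
/-- the neighbour of `w` in the direction of `J z` -/
noncomputable def dir (w : X) (z : V) : X :=
  if h : w ∉ S.J z then (S.exists_dir h).choose else w

theorem dir_adj {w : X} {z : V} (h : w ∉ S.J z) : S.T.Adj w (S.dir w z) := by
  unfold dir
  rw [dif_pos h]
  exact (S.exists_dir h).choose_spec.1

theorem dir_dist {w : X} {z : V} (h : w ∉ S.J z) {y : X} (hy : y ∈ S.J z) :
    S.T.dist w y = S.T.dist (S.dir w z) y + 1 := by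
  unfold dir
  rw [dif_pos h]
  exact (S.exists_dir h).choose_spec.2 y hy

theorem dir_eq {w u : X} {z : V} (h : w ∉ S.J z) (hu : S.T.Adj w u) {y : X} (hy : y ∈ S.J z)
    (e : S.T.dist w y = S.T.dist u y + 1) : S.dir w z = u := by
  have h1 := S.dir_dist h hy
  have s1 : S.T.dist w y = S.T.dist y w := SimpleGraph.dist_comm
  have s2 : S.T.dist u y = S.T.dist y u := SimpleGraph.dist_comm
  have s3 : S.T.dist (S.dir w z) y = S.T.dist y (S.dir w z) := SimpleGraph.dist_comm
  exact x_next_unique S.act.tree (b := y) (S.dir_adj h) hu (by omega) (by omega)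

theorem J_smul_iff (h : H) (w : X) (z : V) : h • w ∈ S.J (h • z) ↔ w ∈ S.J z := by
  constructor
  · intro hh
    have := S.J_smul h⁻¹ _ _ hh
    rwa [inv_smul_smul, inv_smul_smul] at this
  · exact S.J_smul h z w

theorem dir_smul (h : H) {w : X} {z : V} (hz : w ∉ S.J z) :
    S.dir (h • w) (h • z) = h • S.dir w z := by
  obtain ⟨y, hy⟩ := S.J_ne z
  apply S.dir_eq (fun hh => hz ((S.J_smul_iff h w z).1 hh)) (S.act.adj_smul h _ _ (S.dir_adj hz))
    (S.J_smul h z y hy)
  rw [S.act.dist_smul, S.act.dist_smul]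
  exact S.dir_dist hz hy

/-- if `w` is in `J z` and not in `J z'` then `z` crosses the edge at `w` in the direction of `z'` -/
theorem dir_cross {w : X} {z z' : V} (e : S.K.E z z') (hz : w ∈ S.J z) (hz' : w ∉ S.J z') :
    S.xs.Cr z w (S.dir w z') := by
  have h1 := S.dir_dist hz' (S.p_r z z' e)
  have h2 : S.T.dist w (S.dir w z') = 1 := SimpleGraph.dist_eq_one_iff_adj.2 (S.dir_adj hz')
  exact ⟨S.dir_adj hz', hz, S.J_conv z w hz _ (S.p_l z z' e) _ (by omega)⟩

theorem dir_far {w : X} {z z' : V} (e : S.K.E z z') (hz : w ∉ S.J z) (hz' : w ∉ S.J z') :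
    S.dir w z = S.dir w z' :=
  S.dir_eq hz (S.dir_adj hz') (S.p_l z z' e) (S.dir_dist hz' (S.p_r z z' e))

open Classical in
/-- the image of a vertex at `w`, as a raw point -/
noncomputable def rr0 (w : X) (z : V) : X × (V ⊕ X) :=
  if w ∈ S.J z then (w, Sum.inl z) else (w, Sum.inr (S.dir w z))

theorem rr0_near {w : X} {z : V} (h : w ∈ S.J z) : S.rr0 w z = (w, Sum.inl z) := if_pos h

theorem rr0_far {w : X} {z : V} (h : w ∉ S.J z) : S.rr0 w z = (w, Sum.inr (S.dir w z)) := if_neg h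

theorem rr0_smul (h : H) (w : X) (z : V) : S.rr0 (h • w) (h • z) = h • S.rr0 w z := by
  by_cases hz : w ∈ S.J z
  · rw [S.rr0_near hz, S.rr0_near (S.J_smul h z w hz)]
    rfl
  · rw [S.rr0_far hz, S.rr0_far (fun hh => hz ((S.J_smul_iff h w z).1 hh)), S.dir_smul h hz]
    rfl

/-- the image of a vertex at `w` -/
noncomputable def rho (w : X) (z : V) : S.xs.YW w :=
  ⟨⟨S.rr0 w z, by
    by_cases hz : w ∈ S.J z
    · rw [S.rr0_near hz]
      exact hz
    · rw [S.rr0_far hz]
      exact S.crossed (S.dir_adj hz)⟩, by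
    show (S.rr0 w z).1 = w
    by_cases hz : w ∈ S.J z
    · rw [S.rr0_near hz]
    · rw [S.rr0_far hz]⟩

theorem rho_val (w : X) (z : V) : (S.rho w z).1.1 = S.rr0 w z := rfl

theorem rho_smul {w : X} (h : ↥(stabilizer H w)) (z : V) :
    S.rho w (h.1 • z) = h • S.rho w z := by
  apply Subtype.ext
  apply Subtype.ext
  show S.rr0 w (h.1 • z) = h.1 • S.rr0 w z
  have hw : h.1 • w = w := h.2
  rw [← S.rr0_smul, hw]

/-- arrows of the local pieces -/
inductive AY : X × (V ⊕ X) → X × (V ⊕ X) → Prop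
  | hor (x a : V) (w : X) : S.K.ar x a → AY (w, Sum.inl x) (w, Sum.inl a)
  | up (x : V) (w w' : X) : S.xs.Cr x w w' → AY (w, Sum.inl x) (w, Sum.inr w')

theorem AY_smul (h : H) {a b : X × (V ⊕ X)} (e : S.AY a b) : S.AY (h • a) (h • b) := by
  cases e with
  | hor x a w e => exact AY.hor _ _ _ (S.K.ar_smul h _ _ e)
  | up x w w' e => exact AY.up _ _ _ (XS.Cr.smul S.xs h e)

theorem RL_iff {a b : X × (V ⊕ X)} : S.xs.RL a b ↔ S.AY a b ∨ S.AY b a := by
  constructor
  · intro h
    cases h with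
    | hor x y w e =>
      rcases e with e | e
      · exact Or.inl (AY.hor x y w e)
      · exact Or.inr (AY.hor y x w e)
    | up x w w' e => exact Or.inl (AY.up x w w' e)
    | dn x w w' e => exact Or.inr (AY.up x w w' e)
  · rintro (h | h)
    · cases h with
      | hor x y w e => exact XS.RL.hor x y w (Or.inl e)
      | up x w w' e => exact XS.RL.up x w w' e
    · cases h with
      | hor x y w e => exact XS.RL.hor y x w (Or.inr e)
      | up x w w' e => exact XS.RL.dn x w w' e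

/-- adjacent vertices have equal or adjacent images, and adjacent if one is near -/
theorem rr0_E {w : X} {z z' : V} (e : S.K.E z z') :
    (w ∉ S.J z ∧ w ∉ S.J z' ∧ S.rr0 w z = S.rr0 w z') ∨ S.xs.RL (S.rr0 w z) (S.rr0 w z') := by
  by_cases hz : w ∈ S.J z
  · by_cases hz' : w ∈ S.J z'
    · rw [S.rr0_near hz, S.rr0_near hz']
      exact Or.inr (XS.RL.hor z z' w e)
    · rw [S.rr0_near hz, S.rr0_far hz']
      exact Or.inr (XS.RL.up z w _ (S.dir_cross e hz hz'))
  · by_cases hz' : w ∈ S.J z'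
    · rw [S.rr0_far hz, S.rr0_near hz']
      exact Or.inr (XS.RL.dn z' w _ (S.dir_cross e.symm hz' hz))
    · refine Or.inl ⟨hz, hz', ?_⟩
      rw [S.rr0_far hz, S.rr0_far hz', S.dir_far e hz hz']

end JT

end Pool.Agent.BT
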