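import Pool.Agent.BT.XPX1

/-!
# BT: the local pieces as pentagon complexes: `H^1 = 0`
-/

namespace Pool.Agent.BT

open MulAction
open Pool.Agent.SAF (orbs FinOrb mk_eq_iff FinOrb_iff TAct Conv InC exists_next dist_edge)

namespace JT

variable {H V X : Type} [Group H] [MulAction H V] [MulAction H X] (S : JT H V X)

/-- adjacency in the piece at `w` -/
def LE (w : X) (a b : S.xs.YW w) : Prop := S.xs.RL a.1.1 b.1.1

/-- a point of the piece -/
def nr (w : X) (x : V) (h : w ∈ S.J x) : S.xs.YW w := ⟨S.xs.yp x w h, rfl⟩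

/-- a `t`-vertex of the piece -/
def tv (w u : X) (h : ∃ x, S.xs.Cr x w u) : S.xs.YW w := ⟨S.xs.yt w u h, rfl⟩

theorem YW_cases {w : X} (y : S.xs.YW w) : (∃ x h, y = S.nr w x h) ∨ ∃ u h, y = S.tv w u h := by
  obtain ⟨⟨⟨w1, x | u⟩, h⟩, e⟩ := y
  · have e : w1 = w := e
    subst e
    exact Or.inl ⟨x, h, rfl⟩
  · have e : w1 = w := e
    subst e
    exact Or.inr ⟨u, h, rfl⟩

theorem LE_symm {w : X} {a b : S.xs.YW w} (h : S.LE w a b) : S.LE w b a := S.xs.RL_symm h

theorem rho_near {w : X} {x : V} (h : w ∈ S.J x) : S.rho w x = S.nr w x h :=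
  Subtype.ext (Subtype.ext (S.rr0_near h))

theorem LE_irr {w : X} {a : S.xs.YW w} (h : S.LE w a a) : False := by
  rcases S.YW_cases a with ⟨x, hx, rfl⟩ | ⟨u, hu, rfl⟩
  · have h' : S.xs.RL (w, Sum.inl x) (w, Sum.inl x) := h
    cases h' with
    | hor _ _ _ e => exact S.K.E_irr x e
  · have h' : S.xs.RL (w, Sum.inr u) (w, Sum.inr u) := h
    cases h'

theorem LE.ne {w : X} {a b : S.xs.YW w} (h : S.LE w a b) : a ≠ b := by
  rintro rfl
  exact S.LE_irr h

/-- consecutive images -/
theorem rho_step {w : X} {z z' : V} (e : S.K.E z z') :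
    S.rho w z = S.rho w z' ∨ S.LE w (S.rho w z) (S.rho w z') := by
  rcases S.rr0_E (w := w) e with ⟨_, _, h⟩ | h
  · exact Or.inl (Subtype.ext (Subtype.ext h))
  · exact Or.inr h

theorem rho_step' {w : X} {z z' : V} (e : S.K.E z z') (h : w ∈ S.J z ∨ w ∈ S.J z') :
    S.LE w (S.rho w z) (S.rho w z') := by
  rcases S.rr0_E (w := w) e with ⟨h1, h2, _⟩ | h'
  · rcases h with h | h
    · exact absurd h h1
    · exact absurd h h2
  · exact h'

theorem LE_tv {w u : X} {x : V} (h : S.xs.Cr x w u) : S.LE w (S.rho w x) (S.tv w u ⟨x, h⟩) := by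
  rw [S.rho_near h.2.1]
  exact XS.RL.up x w u h

/-- a vertex whose image is adjacent to the `t`-vertex crosses -/
theorem cr_of_LE {w u : X} {z : V} (hu : ∃ x, S.xs.Cr x w u)
    (h : S.LE w (S.rho w z) (S.tv w u hu)) : S.xs.Cr z w u := by
  by_cases hz : w ∈ S.J z
  · rw [S.rho_near hz] at h
    have h' : S.xs.RL (w, Sum.inl z) (w, Sum.inr u) := h
    cases h' with
    | up _ _ _ e => exact e
  · have h' : S.xs.RL (S.rr0 w z) (w, Sum.inr u) := h
    rw [S.rr0_far hz] at h'
    cases h'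

theorem zz (a : ZMod 2) : a + a = 0 := CharTwo.add_self_eq_zero a

section H1

variable {w : X} {φ : S.xs.YW w → S.xs.YW w → ZMod 2} (hs : ∀ x y, φ x y = φ y x)
  (h4 : ∀ x y z t, S.LE w x y → S.LE w y z → S.LE w z t → S.LE w t x →
    φ x y + φ y z + φ z t + φ t x = 0)
  (h3 : ∀ x y z, S.LE w x y → S.LE w y z → S.LE w z x → φ x y + φ y z + φ z x = 0)

include hs h4 in
/-- closed walks of length five with centre off `w` -/
theorem pent_off {v : Fin 5 → V} (hv : ∀ j, S.K.E (v j) (v (j + 1))) {c : X} (hc : c ≠ w)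
    (hcJ : ∀ j, c ∈ S.J (v j) ∨ c ∈ S.J (v (j + 1))) :
    ∑ j : Fin 5, lz φ (S.rho w (v j)) (S.rho w (v (j + 1))) = 0 := by
  classical
  have hT := S.act.tree
  obtain ⟨u, hu, eu⟩ := exists_next hT hc.symm
  have hcr := S.crossed hu
  have e1 : S.T.dist w u = 1 := SimpleGraph.dist_eq_one_iff_adj.2 hu
  -- a vertex which contains `c` is of the first two types
  have typ : ∀ z, c ∈ S.J z → S.xs.Cr z w u ∨ S.rho w z = S.tv w u hcr := by
    intro z hz
    by_cases hwz : w ∈ S.J z
    · exact Or.inl ⟨hu, hwz, S.J_conv z w hwz c hz u (by omega)⟩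
    · right
      apply Subtype.ext
      apply Subtype.ext
      show S.rr0 w z = (w, Sum.inr u)
      rw [S.rr0_far hwz, S.dir_eq hwz hu hz eu]
  -- corners
  have cor : ∀ z z', S.K.E z z' → c ∉ S.J z → (c ∈ S.J z') → ¬ S.xs.Cr z w u →
      S.rho w z ≠ S.tv w u hcr → S.xs.Cr z' w u := by
    intro z z' e _ hz' h1 h2
    rcases typ z' hz' with h | h
    · exact h
    · exfalso
      rcases S.rho_step (w := w) e with h5 | h5
      · exact h2 (h5.trans h)
      · rw [h] at h5
        exact h1 (S.cr_of_LE hcr h5)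
  let F : Fin 5 → ZMod 2 := fun j =>
    if S.xs.Cr (v j) w u then φ (S.tv w u hcr) (S.rho w (v j)) else
      if S.rho w (v j) = S.tv w u hcr then 0 else
        φ (S.rho w (v j)) (S.rho w (v (j + 1))) + φ (S.tv w u hcr) (S.rho w (v (j + 1)))
  have key : ∀ j, lz φ (S.rho w (v j)) (S.rho w (v (j + 1))) = F j + F (j + 1) := by
    intro j
    have e := hv j
    by_cases c1 : S.xs.Cr (v j) w u
    · have c2 : ¬ S.xs.Cr (v (j + 1)) w u := XS.not_cr e c1
      have hE : S.LE w (S.rho w (v j)) (S.rho w (v (j + 1))) := S.rho_step' e (Or.inl c1.2.1)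
      simp only [F]
      rw [if_pos c1, if_neg c2, lz_ne φ (LE.ne S hE)]
      by_cases t2 : S.rho w (v (j + 1)) = S.tv w u hcr
      · rw [if_pos t2, t2, add_zero]
        exact hs _ _
      · rw [if_neg t2]
        have n2 : c ∉ S.J (v (j + 1)) := fun h => (typ _ h).elim c2 t2
        have n3 : c ∈ S.J (v (j + 1 + 1)) := (hcJ (j + 1)).resolve_left n2
        have c3 : S.xs.Cr (v (j + 1 + 1)) w u := cor _ _ (hv (j + 1)) n2 n3 c2 t2
        have := h4 (S.tv w u hcr) (S.rho w (v j)) (S.rho w (v (j + 1)))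
          (S.rho w (v (j + 1 + 1))) (S.LE_symm (S.LE_tv c1)) hE
          (S.rho_step' (hv (j + 1)) (Or.inr c3.2.1)) (S.LE_tv c3)
        rw [hs (S.rho w (v (j + 1 + 1))) (S.tv w u hcr)] at this
        have k := zz (φ (S.rho w (v j)) (S.rho w (v (j + 1))))
        linear_combination - this + k
    · by_cases t1 : S.rho w (v j) = S.tv w u hcr
      · simp only [F]
        rw [if_neg c1, if_pos t1, zero_add]
        by_cases c2 : S.xs.Cr (v (j + 1)) w u
        · rw [if_pos c2, ← t1, lz_ne φ]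
          exact LE.ne S (S.rho_step' e (Or.inr c2.2.1))
        · rw [if_neg c2]
          by_cases t2 : S.rho w (v (j + 1)) = S.tv w u hcr
          · rw [if_pos t2, t1, t2, lz_self]
          · exfalso
            have n2 : c ∉ S.J (v (j + 1)) := fun h => (typ _ h).elim c2 t2
            have n1 : c ∈ S.J (v j) := (hcJ j).resolve_right n2
            exact c1 (cor _ _ e.symm n2 n1 c2 t2)
      · have n1 : c ∉ S.J (v j) := fun h => (typ _ h).elim c1 t1
        have n2 : c ∈ S.J (v (j + 1)) := (hcJ j).resolve_left n1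
        have c2 : S.xs.Cr (v (j + 1)) w u := cor _ _ e n1 n2 c1 t1
        simp only [F]
        rw [if_neg c1, if_neg t1, if_pos c2,
          lz_ne φ (LE.ne S (S.rho_step' e (Or.inr c2.2.1)))]
        have k := zz (φ (S.tv w u hcr) (S.rho w (v (j + 1))))
        linear_combination - k
  rw [Finset.sum_congr rfl (fun j _ => key j), Fin.sum_univ_five]
  show F 0 + F 1 + (F 1 + F 2) + (F 2 + F 3) + (F 3 + F 4) + (F 4 + F 0) = 0
  linear_combination zz (F 0) + zz (F 1) + zz (F 2) + zz (F 3) + zz (F 4)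

include hs h4 h3 in
theorem h1_local
    (hp : ∀ i (h : H), h • S.c i = w →
      ∑ j : Fin 5, φ (S.rho w (h • S.K.pt i j)) (S.rho w (h • S.K.pt i (j + 1))) = 0) :
    ∃ g : S.xs.YW w → ZMod 2, ∀ x y, S.LE w x y → φ x y = g x + g y := by
  classical
  obtain ⟨g, hg⟩ := S.K.H1 (fun x y => lz φ (S.rho w x) (S.rho w y))
    (fun x y => lz_symm φ hs _ _)
    (fun x y z t e1 e2 e3 e4 => lz4 (E := S.LE w) hs h3 h4 (S.rho_step e1) (S.rho_step e2)
      (S.rho_step e3) (S.rho_step e4))
    (fun x y z e1 e2 e3 => lz3 (E := S.LE w) hs h3 (S.rho_step e1) (S.rho_step e2)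
      (S.rho_step e3))
    (fun i h => by
      have hE : ∀ j, S.K.E (h • S.K.pt i j) (h • S.K.pt i (j + 1)) :=
        fun j => S.K.E_smul h (S.K.pt_E i j)
      have hcJ : ∀ j, h • S.c i ∈ S.J (h • S.K.pt i j) ∨ h • S.c i ∈ S.J (h • S.K.pt i (j + 1)) :=
        fun j => (S.c_J i j).imp (S.J_smul h _ _) (S.J_smul h _ _)
      by_cases hc : h • S.c i = w
      · rw [← hp i h hc]
        apply Finset.sum_congr rfl
        intro j _
        apply lz_ne
        apply LE.ne S
        apply S.rho_step' (hE j)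
        have := hcJ j
        rwa [hc] at this
      · exact S.pent_off hs h4 (v := fun j => h • S.K.pt i j) hE hc hcJ)
  -- the vertices over an edge
  have hw : ∀ u (hu : ∃ x, S.xs.Cr x w u) x y, S.xs.Cr x w u → S.xs.Cr y w u →
      g x + φ (S.rho w x) (S.tv w u hu) = g y + φ (S.rho w y) (S.tv w u hu) := by
    intro u hu x y hx hy
    induction S.xs_walls w u x y hx hy with
    | refl => rfl
    | tail _ e ih =>
      rename_i b c _
      obtain ⟨cb, cc, q, e1, e2⟩ := e
      rw [ih cb]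
      have l1 : S.LE w (S.rho w q) (S.rho w b) := S.rho_step' e1 (Or.inr cb.2.1)
      have l2 : S.LE w (S.rho w q) (S.rho w c) := S.rho_step' e2 (Or.inr cc.2.1)
      have g1 := hg q b e1
      have g2 := hg q c e2
      simp only [lz_ne φ (LE.ne S l1)] at g1
      simp only [lz_ne φ (LE.ne S l2)] at g2
      have := h4 (S.rho w q) (S.rho w b) (S.tv w u hu) (S.rho w c) l1 (S.LE_tv cb)
        (S.LE_symm (S.LE_tv cc)) (S.LE_symm l2)
      rw [hs (S.tv w u hu) (S.rho w c), hs (S.rho w c) (S.rho w q), g1, g2] at this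
      have k1 := zz (g q)
      have k2 := zz (g c)
      have k3 := zz (φ (S.rho w c) (S.tv w u hu))
      linear_combination this - k1 - k2 - k3
  let f : S.xs.YW w → ZMod 2 := fun y =>
    if h : ∃ x hx, y = S.nr w x hx then g h.choose else
      if h : ∃ u hu, y = S.tv w u hu then
        g h.choose_spec.choose.choose +
          φ (S.rho w h.choose_spec.choose.choose) (S.tv w h.choose h.choose_spec.choose)
      else 0
  have inj_nr : ∀ {x y : V} {hx hy}, S.nr w x hx = S.nr w y hy → x = y := by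
    intro x y hx hy e
    have e1 : ((w, Sum.inl x) : X × (V ⊕ X)) = (w, Sum.inl y) :=
      congrArg (fun z : S.xs.YW w => z.1.1) e
    exact Sum.inl.inj (Prod.mk.inj e1).2
  have inj_tv : ∀ {x y : X} {hx hy}, S.tv w x hx = S.tv w y hy → x = y := by
    intro x y hx hy e
    have e1 : ((w, Sum.inr x) : X × (V ⊕ X)) = (w, Sum.inr y) :=
      congrArg (fun z : S.xs.YW w => z.1.1) e
    exact Sum.inr.inj (Prod.mk.inj e1).2
  have hne : ∀ {x : V} {u : X} {hx hu}, S.nr w x hx ≠ S.tv w u hu := by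
    intro x u hx hu e
    have e1 : ((w, Sum.inl x) : X × (V ⊕ X)) = (w, Sum.inr u) :=
      congrArg (fun z : S.xs.YW w => z.1.1) e
    exact absurd (Prod.mk.inj e1).2 (by simp)
  have f_nr : ∀ x hx, f (S.nr w x hx) = g x := by
    intro x hx
    have h : ∃ x' hx', S.nr w x hx = S.nr w x' hx' := ⟨x, hx, rfl⟩
    simp only [f]
    rw [dif_pos h]
    congr 1
    exact (inj_nr h.choose_spec.choose_spec).symm
  have f_tv : ∀ u hu x, S.xs.Cr x w u → f (S.tv w u hu) = g x + φ (S.rho w x) (S.tv w u hu) := by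
    intro u hu x hx
    have h0 : ¬ ∃ x' hx', S.tv w u hu = S.nr w x' hx' := by
      rintro ⟨x', hx', e⟩
      exact hne e.symm
    have h : ∃ u' hu', S.tv w u hu = S.tv w u' hu' := ⟨u, hu, rfl⟩
    simp only [f]
    rw [dif_neg h0, dif_pos h]
    have e1 : h.choose = u := (inj_tv h.choose_spec.choose_spec).symm
    have e2 : S.xs.Cr h.choose_spec.choose.choose w h.choose := h.choose_spec.choose.choose_spec
    have e3 : S.tv w h.choose h.choose_spec.choose = S.tv w u hu :=
      h.choose_spec.choose_spec.symm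
    rw [e3]
    have e4 : ∀ z x', z = u → S.xs.Cr x' w z → S.xs.Cr x' w u := by
      rintro z x' rfl h'
      exact h'
    exact hw u hu _ _ (e4 _ _ e1 e2) hx
  refine ⟨f, ?_⟩
  have half : ∀ x u (hx : S.xs.Cr x w u), φ (S.nr w x hx.2.1) (S.tv w u ⟨x, hx⟩) =
      f (S.nr w x hx.2.1) + f (S.tv w u ⟨x, hx⟩) := by
    intro x u hx
    rw [f_nr, f_tv u ⟨x, hx⟩ x hx, S.rho_near hx.2.1]
    have k := zz (g x)
    linear_combination - k
  intro a b e
  rcases S.YW_cases a with ⟨x, hx, rfl⟩ | ⟨u, hu, rfl⟩ <;>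
    rcases S.YW_cases b with ⟨y, hy, rfl⟩ | ⟨u', hu', rfl⟩
  · have e' : S.xs.RL (w, Sum.inl x) (w, Sum.inl y) := e
    cases e' with
    | hor _ _ _ exy =>
      have := hg x y exy
      have hn := LE.ne S e
      rw [f_nr, f_nr, ← this]
      simp only [S.rho_near hx, S.rho_near hy]
      rw [lz_ne φ hn]
  · have e' : S.xs.RL (w, Sum.inl x) (w, Sum.inr u') := e
    cases e' with
    | up _ _ _ exy => exact half x u' exy
  · have e' : S.xs.RL (w, Sum.inr u) (w, Sum.inl y) := e
    cases e' with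
    | dn _ _ _ exy =>
      rw [hs, add_comm]
      exact half y u exy
  · have e' : S.xs.RL (w, Sum.inr u) (w, Sum.inr u') := e
    cases e'

end H1

end JT

end Pool.Agent.BT
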