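import Pool.Agent.BT.XPX2

/-!
# BT: the local pieces as pentagon complexes
-/

namespace Pool.Agent.BT

open MulAction
open Pool.Agent.SAF (orbs FinOrb mk_eq_iff FinOrb_iff TAct Conv InC exists_next dist_edge)

namespace JT

variable {H V X : Type} [Group H] [MulAction H V] [MulAction H X] (S : JT H V X)

/-- the rank of a local vertex -/
def rkY (y : X × (V ⊕ X)) : ℕ :=
  match y.2 with
  | Sum.inl x => S.K.rk x + 1
  | Sum.inr _ => 0

theorem rkY_smul (h : H) (y : X × (V ⊕ X)) : S.rkY (h • y) = S.rkY y := by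
  obtain ⟨w, x | u⟩ := y
  · show S.K.rk (h • x) + 1 = S.K.rk x + 1
    rw [S.K.rk_smul]
  · rfl

theorem rkY_lt {a b : X × (V ⊕ X)} (e : S.AY a b) : S.rkY b < S.rkY a := by
  cases e with
  | hor x a w e =>
    show S.K.rk a + 1 < S.K.rk x + 1
    have := S.K.ar_rk _ _ e
    omega
  | up x w w' e =>
    show 0 < S.K.rk x + 1
    omega

theorem finOrb_Y0 : FinOrb H (Set.univ : Set S.xs.Y0) := by
  classical
  have h1 : FinOrb H {y : S.xs.Y0 | ∃ x w h, y = S.xs.yp x w h} := by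
    apply Pool.Agent.SAF.FinOrb.image S.fJ (fun q : V × X =>
      if h : q.2 ∈ S.J q.1 then S.xs.yp q.1 q.2 h else Classical.choice ⟨S.xs.yp
        (Classical.choice S.K.ne) (S.J_ne _).choose (S.J_ne _).choose_spec⟩)
    · rintro _ ⟨x, w, h, rfl⟩
      refine ⟨(x, w), h, 1, ?_⟩
      rw [one_smul]
      exact dif_pos h
    · rintro ⟨x, w⟩ hx ⟨y, v⟩ hy ⟨h, e⟩
      refine ⟨h, ?_⟩
      have d : ∀ (q : V × X) (hq : q.2 ∈ S.J q.1) (z : S.xs.Y0),
          (if h : q.2 ∈ S.J q.1 then S.xs.yp q.1 q.2 h else z) = S.xs.yp q.1 q.2 hq :=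
        fun q hq z => dif_pos hq
      refine Eq.trans (congrArg (fun z => h • z) (d (x, w) hx _)) (Eq.trans ?_
        (d (y, v) hy _).symm)
      apply Subtype.ext
      have e1 : h • x = y := congrArg Prod.fst e
      have e2 : h • w = v := congrArg Prod.snd e
      show ((h • w, Sum.inl (h • x)) : X × (V ⊕ X)) = (v, Sum.inl y)
      rw [e1, e2]
  have h2 : FinOrb H {y : S.xs.Y0 | ∃ w w' h, y = S.xs.yt w w' h} := by
    apply Pool.Agent.SAF.FinOrb.of_inj S.finT (fun y : S.xs.Y0 =>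
      match y.1.2 with
      | Sum.inl _ => (y.1.1, y.1.1)
      | Sum.inr w' => (y.1.1, w'))
    · rintro _ ⟨w, w', h, rfl⟩
      obtain ⟨x, hx⟩ := h
      exact hx.1
    · rintro _ ⟨w, w', h, rfl⟩ _ ⟨v, v', k, rfl⟩ ⟨g, e⟩
      refine ⟨g, Subtype.ext ?_⟩
      have e1 : g • w = v := congrArg Prod.fst e
      have e2 : g • w' = v' := congrArg Prod.snd e
      show ((g • w, Sum.inr (g • w')) : X × (V ⊕ X)) = (v, Sum.inr v')
      rw [e1, e2]
  have h3 : (Set.univ : Set S.xs.Y0) =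
      {y : S.xs.Y0 | ∃ x w h, y = S.xs.yp x w h} ∪ {y : S.xs.Y0 | ∃ w w' h, y = S.xs.yt w w' h} := by
    ext y
    simp only [Set.mem_univ, true_iff]
    exact S.xs.Y0_cases y
  rw [h3]
  unfold FinOrb orbs at h1 h2 ⊢
  rw [Set.image_union]
  exact h1.union h2

theorem finOrb_YW (w : X) : FinOrb ↥(stabilizer H w) (Set.univ : Set (S.xs.YW w)) := by
  apply Pool.Agent.SAF.FinOrb.of_inj S.finOrb_Y0 (fun y : S.xs.YW w => y.1) (fun _ _ => trivial)
  rintro a _ b _ ⟨h, e⟩
  have hw : h • w = w := by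
    have e1 : (h • a.1).1.1 = b.1.1.1 := congrArg (fun y : S.xs.Y0 => y.1.1) e
    have e2 : h • a.1.1.1 = b.1.1.1 := e1
    rwa [a.2, b.2] at e2
  exact ⟨⟨h, hw⟩, Subtype.ext e⟩

theorem inC_YW {w : X} (y : S.xs.YW w) : InC ↥(stabilizer ↥(stabilizer H w) y) := by
  -- the stabiliser in `H`
  obtain ⟨B, hB, hBw, hC⟩ : ∃ B : Subgroup H, (∀ h : ↥(stabilizer H w), h • y = y → h.1 ∈ B) ∧
      B ≤ stabilizer H w ∧ InC ↥B := by
    rcases S.YW_cases y with ⟨x, hx, rfl⟩ | ⟨u, ⟨x, hx⟩, rfl⟩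
    · refine ⟨stabilizer H x ⊓ stabilizer H w, ?_, inf_le_right, S.stabC x w hx⟩
      intro h e
      refine ⟨?_, h.2⟩
      have e1 : ((h.1 • w, Sum.inl (h.1 • x)) : X × (V ⊕ X)) = (w, Sum.inl x) :=
        congrArg (fun z : S.xs.YW w => z.1.1) e
      exact Sum.inl.inj (Prod.mk.inj e1).2
    · refine ⟨stabilizer H w ⊓ stabilizer H u, ?_, inf_le_left, S.edgeC w u hx.1⟩
      intro h e
      refine ⟨h.2, ?_⟩
      have e1 : ((h.1 • w, Sum.inr (h.1 • u)) : X × (V ⊕ X)) = (w, Sum.inr u) :=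
        congrArg (fun z : S.xs.YW w => z.1.1) e
      exact Sum.inr.inj (Prod.mk.inj e1).2
  have h1 : stabilizer ↥(stabilizer H w) y ≤ B.subgroupOf (stabilizer H w) := by
    intro h hh
    exact hB h hh
  have h2 : InC ↥(B.subgroupOf (stabilizer H w)) :=
    Pool.Agent.SAF.InC.iso (Subgroup.subgroupOfEquivOfLe hBw).symm hC
  exact Pool.Agent.SAG.InC.mono h1 h2

/-- the pentagons with centre in the orbit of `w` -/
def IW (w : X) : Type := {i : S.K.I // ∃ h : H, h • w = S.c i}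

/-- THE LOCAL PIECE -/
noncomputable def pxw (w : X) : PX ↥(stabilizer H w) (S.xs.YW w) where
  ar a b := S.AY a.1.1 b.1.1
  rk a := S.rkY a.1.1
  I := S.IW w
  finI := by
    have := S.K.finI
    unfold IW
    infer_instance
  pt i j := S.rho w (i.2.choose⁻¹ • S.K.pt i.1 j)
  ar_rk v a e := S.rkY_lt e
  ar_smul h v a e := S.AY_smul h.1 e
  rk_smul h v := S.rkY_smul h.1 _
  two := by
    intro v a b c ha hb hc
    have key : ∀ a : S.xs.YW w, S.AY v.1.1 a.1.1 → ∃ x hx, v = S.nr w x hx ∧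
        ((∃ y hy, a = S.nr w y hy ∧ S.K.ar x y) ∨
          (∃ u hu, a = S.tv w u hu ∧ S.T.Adj w u ∧ u ∈ S.J x)) := by
      intro a ha
      rcases S.YW_cases v with ⟨x, hx, rfl⟩ | ⟨u, hu, rfl⟩
      · refine ⟨x, hx, rfl, ?_⟩
        rcases S.YW_cases a with ⟨y, hy, rfl⟩ | ⟨u, hu, rfl⟩
        · left
          have h' : S.AY (w, Sum.inl x) (w, Sum.inl y) := ha
          cases h' with
          | hor _ _ _ e => exact ⟨y, hy, rfl, e⟩
        · right
          have h' : S.AY (w, Sum.inl x) (w, Sum.inr u) := ha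
          cases h' with
          | up _ _ _ e => exact ⟨u, hu, rfl, e.1, e.2.2⟩
      · have h' : S.AY (w, Sum.inr u) a.1.1 := ha
        cases h'
    obtain ⟨x, hx, e0, ca⟩ := key a ha
    obtain ⟨x', hx', e0', cb⟩ := key b hb
    obtain ⟨x'', hx'', e0'', cc⟩ := key c hc
    have i1 : x' = x := by
      have e1 : ((w, Sum.inl x) : X × (V ⊕ X)) = (w, Sum.inl x') :=
        congrArg (fun z : S.xs.YW w => z.1.1) (e0.symm.trans e0')
      exact (Sum.inl.inj (Prod.mk.inj e1).2).symm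
    have i2 : x'' = x := by
      have e1 : ((w, Sum.inl x) : X × (V ⊕ X)) = (w, Sum.inl x'') :=
        congrArg (fun z : S.xs.YW w => z.1.1) (e0.symm.trans e0'')
      exact (Sum.inl.inj (Prod.mk.inj e1).2).symm
    subst i1 i2
    rcases ca with ⟨y, hy, rfl, ey⟩ | ⟨u, hu, rfl, eu, fu⟩ <;>
      rcases cb with ⟨y', hy', rfl, ey'⟩ | ⟨u', hu', rfl, eu', fu'⟩ <;>
      rcases cc with ⟨y'', hy'', rfl, ey''⟩ | ⟨u'', hu'', rfl, eu'', fu''⟩
    · rcases S.K.two _ _ _ _ ey ey' ey'' with h | h | h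
      · subst h; exact Or.inl rfl
      · subst h; exact Or.inr (Or.inl rfl)
      · subst h; exact Or.inr (Or.inr rfl)
    · by_cases h : y = y'
      · subst h; exact Or.inl rfl
      · exact absurd fu'' (S.two1 _ w y y' u'' hx ey ey' hy hy' h eu'')
    · by_cases h : y = y''
      · subst h; exact Or.inr (Or.inr rfl)
      · exact absurd fu' (S.two1 _ w y y'' u' hx ey ey'' hy hy'' h eu')
    · have h := S.two2 _ w y u' u'' hx ey hy eu' eu'' fu' fu''
      subst h; exact Or.inr (Or.inl rfl)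
    · by_cases h : y' = y''
      · subst h; exact Or.inr (Or.inl rfl)
      · exact absurd fu (S.two1 _ w y' y'' u hx ey' ey'' hy' hy'' h eu)
    · have h := S.two2 _ w y' u u'' hx ey' hy' eu eu'' fu fu''
      subst h; exact Or.inr (Or.inr rfl)
    · have h := S.two2 _ w y'' u u' hx ey'' hy'' eu eu' fu fu'
      subst h; exact Or.inl rfl
    · rcases S.two3 _ w u u' u'' hx eu eu' eu'' fu fu' fu'' with h | h | h
      · subst h; exact Or.inl rfl
      · subst h; exact Or.inr (Or.inl rfl)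
      · subst h; exact Or.inr (Or.inr rfl)
  pt_E := by
    intro i j
    have hk := i.2.choose_spec
    have e := S.K.E_smul (i.2.choose⁻¹) (S.K.pt_E i.1 j)
    apply S.RL_iff.1
    apply S.rho_step' e
    have hw : i.2.choose⁻¹ • S.c i.1 = w := inv_smul_eq_iff.2 hk.symm
    have := (S.c_J i.1 j).imp (S.J_smul i.2.choose⁻¹ _ _) (S.J_smul i.2.choose⁻¹ _ _)
    rwa [hw] at this
  ne := by
    obtain ⟨x, hx⟩ := S.cover w
    exact ⟨S.nr w x hx⟩
  conn := by
    have hE : ∀ a b, S.LE w a b → S.AY a.1.1 b.1.1 ∨ S.AY b.1.1 a.1.1 := fun a b h => S.RL_iff.1 h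
    have near : ∀ x y, w ∈ S.J x → w ∈ S.J y →
        Relation.ReflTransGen (fun a b : S.xs.YW w => S.AY a.1.1 b.1.1 ∨ S.AY b.1.1 a.1.1)
          (S.rho w x) (S.rho w y) := by
      intro x y _ _
      have hc := S.K.conn x y
      clear * - hc hE
      induction hc with
      | refl => exact Relation.ReflTransGen.refl
      | tail _ e ih =>
        rename_i b c _
        rcases S.rho_step (w := w) e with h | h
        · rw [← h]; exact ih
        · exact ih.tail (hE _ _ h)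
    -- every vertex is joined to a near one
    have tonear : ∀ a : S.xs.YW w, ∃ x, w ∈ S.J x ∧
        Relation.ReflTransGen (fun a b : S.xs.YW w => S.AY a.1.1 b.1.1 ∨ S.AY b.1.1 a.1.1)
          a (S.rho w x) ∧
        Relation.ReflTransGen (fun a b : S.xs.YW w => S.AY a.1.1 b.1.1 ∨ S.AY b.1.1 a.1.1)
          (S.rho w x) a := by
      intro a
      rcases S.YW_cases a with ⟨x, hx, rfl⟩ | ⟨u, ⟨x, hx⟩, rfl⟩
      · refine ⟨x, hx, ?_, ?_⟩
        · rw [S.rho_near hx]
        · rw [S.rho_near hx]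
      · refine ⟨x, hx.2.1, ?_, ?_⟩
        · exact Relation.ReflTransGen.single (hE _ _ (S.LE_symm (S.LE_tv hx)))
        · exact Relation.ReflTransGen.single (hE _ _ (S.LE_tv hx))
    intro a b
    obtain ⟨x, hx, h1, _⟩ := tonear a
    obtain ⟨y, hy, _, h2⟩ := tonear b
    exact h1.trans ((near x y hx hy).trans h2)
  H1 := by
    intro φ hs h4 h3 hp
    have hE : ∀ a b, S.LE w a b → S.AY a.1.1 b.1.1 ∨ S.AY b.1.1 a.1.1 := fun a b h => S.RL_iff.1 h
    have hE' : ∀ a b : S.xs.YW w, (S.AY a.1.1 b.1.1 ∨ S.AY b.1.1 a.1.1) → S.LE w a b :=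
      fun a b h => S.RL_iff.2 h
    obtain ⟨g, hg⟩ := S.h1_local (w := w) (φ := φ) hs
      (fun x y z t e1 e2 e3 e4 => h4 x y z t (hE _ _ e1) (hE _ _ e2) (hE _ _ e3) (hE _ _ e4))
      (fun x y z e1 e2 e3 => h3 x y z (hE _ _ e1) (hE _ _ e2) (hE _ _ e3))
      (by
        intro i h hc
        have hi : ∃ k : H, k • w = S.c i := ⟨h⁻¹, by rw [← hc, inv_smul_smul]⟩
        have hk := hi.choose_spec
        have hmem : (h * hi.choose) • w = w := by rw [mul_smul, hk, hc]
        have := hp ⟨i, hi⟩ ⟨h * hi.choose, hmem⟩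
        rw [← this]
        apply Finset.sum_congr rfl
        intro j _
        have e : ∀ z, (⟨h * hi.choose, hmem⟩ : ↥(stabilizer H w)) •
            S.rho w (hi.choose⁻¹ • z) = S.rho w (h • z) := by
          intro z
          rw [← S.rho_smul]
          show S.rho w ((h * hi.choose) • hi.choose⁻¹ • z) = S.rho w (h • z)
          rw [smul_smul, mul_assoc, mul_inv_cancel, mul_one]
        show φ (S.rho w (h • S.K.pt i j)) (S.rho w (h • S.K.pt i (j + 1))) =
          φ ((⟨h * hi.choose, hmem⟩ : ↥(stabilizer H w)) • S.rho w (hi.choose⁻¹ • S.K.pt i j))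
            ((⟨h * hi.choose, hmem⟩ : ↥(stabilizer H w)) •
              S.rho w (hi.choose⁻¹ • S.K.pt i (j + 1)))
        rw [e, e])
    exact ⟨g, fun x y e => hg x y (hE' _ _ e)⟩
  fin := S.finOrb_YW w
  stab := S.inC_YW

theorem pxw_E {w : X} (a b : S.xs.YW w) : (S.pxw w).E a b ↔ (S.xs.GW w).E a b :=
  S.RL_iff.symm

theorem pxw_hg (w : X) : (S.pxw w).hg = S.xs.GW w := by
  have h : (S.pxw w).hg.E = (S.xs.GW w).E := by
    funext a b
    exact propext (S.pxw_E a b)
  cases h1 : (S.pxw w).hg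
  cases h2 : S.xs.GW w
  rw [h1, h2] at h
  simp only at h
  subst h
  rfl

instance finIW (w : X) : Finite (S.IW w) := by
  have := S.K.finI
  unfold IW
  infer_instance

theorem pxw_A_le (w : X) : (S.pxw w).A ≤ S.K.A := by
  have := S.K.finI
  exact Nat.card_le_card_of_injective (fun i : S.IW w => i.1) Subtype.val_injective

/-- if all the pentagons are needed at `w` then all centres are in the orbit of `w` -/
theorem centre_of_card {w : X} (h : (S.pxw w).A = S.K.A) (i : S.K.I) : ∃ h : H, h • w = S.c i := by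
  have := S.K.finI
  by_contra hno
  have h2 : Function.Bijective (fun i : S.IW w => i.1) := by
    have := Nat.bijective_iff_injective_and_card (fun i : S.IW w => i.1)
    exact this.2 ⟨Subtype.val_injective, h⟩
  obtain ⟨j, hj⟩ := h2.2 i
  exact hno (hj ▸ j.2)

/-- `t`-vertices are sinks -/
theorem tv_sink {w u : X} (h : ∃ x, S.xs.Cr x w u) : (S.pxw w).Sink (S.tv w u h) := by
  intro a e
  have h' : S.AY (w, Sum.inr u) a.1.1 := e
  cases h'

end JT

end Pool.Agent.BT
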