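import Pool.Agent.BT.FoldList
import Pool.Agent.SAF.A11

/-!
# BT: the blown up graph `K_1` and its quotient `K_0'`

`XS`: a graph `G` on an `H`-set `V` and subtrees `J x` of a tree `T`, adjacent vertices meet in one
point. `V1`: points `(x,w,w)` and ports `(x,w,w')` of `J x`; `G1` the graph on it. `Y0`: the local
pieces `X_w` (disjoint): points `(w, x)` and `t`-vertices `(w, w')`; `GL` the local graph, `GY` with
the edges `(w,w') - (w',w)`. `pi1 : V1 → Y0`. `XR`: a quotient `F0 : Y0 → V0` which is a finite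
sequence of moves, does not identify `t`-vertices and has no short cycles.
-/

namespace Pool.Agent.BT

open MulAction
open Pool.Agent.SAF (orbs FinOrb mk_eq_iff FinOrb_iff exists_rep Conv)

structure XS (H V X : Type) [Group H] [MulAction H V] [MulAction H X] where
  G : HG H V
  irr : ∀ x, ¬ G.E x x
  T : SimpleGraph X
  tree : T.IsTree
  T_smul : ∀ (h : H) (a b : X), T.Adj a b → T.Adj (h • a) (h • b)
  J : V → Set X
  J_smul : ∀ (h : H) (x : V) (w : X), w ∈ J x → h • w ∈ J (h • x)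
  J_conv : ∀ x, Conv T (J x)
  p : V → V → X
  p_l : ∀ x y, G.E x y → p x y ∈ J x
  p_r : ∀ x y, G.E x y → p x y ∈ J y
  p_u : ∀ x y w, G.E x y → w ∈ J x → w ∈ J y → w = p x y

namespace XS

variable {H V X : Type} [Group H] [MulAction H V] [MulAction H X] (S : XS H V X)

/-! ### the blown up graph -/

/-- points and ports -/
def P1 (q : V × X × X) : Prop :=
  q.2.1 ∈ S.J q.1 ∧ (q.2.2 = q.2.1 ∨ (S.T.Adj q.2.1 q.2.2 ∧ q.2.2 ∈ S.J q.1))

theorem P1_smul (h : H) (q : V × X × X) (hq : S.P1 q) : S.P1 (h • q) := by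
  refine ⟨S.J_smul h _ _ hq.1, ?_⟩
  rcases hq.2 with e | e
  · exact Or.inl (congrArg (fun z => h • z) e)
  · exact Or.inr ⟨S.T_smul h _ _ e.1, S.J_smul h _ _ e.2⟩

/-- the vertices of the blown up graph -/
def V1 : Type := {q : V × X × X // S.P1 q}

instance actV1 : MulAction H S.V1 where
  smul h q := ⟨h • q.1, S.P1_smul h _ q.2⟩
  one_smul q := Subtype.ext (one_smul H q.1)
  mul_smul a b q := Subtype.ext (mul_smul a b q.1)

theorem V1_val (h : H) (q : S.V1) : (h • q).1 = h • q.1 := rfl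

/-- edges of the blown up graph on triples -/
inductive R1 : V × X × X → V × X × X → Prop
  | hor (x y : V) (w : X) : S.G.E x y → R1 (x, w, w) (y, w, w)
  | up (x : V) (w w' : X) : S.T.Adj w w' → R1 (x, w, w) (x, w, w')
  | dn (x : V) (w w' : X) : S.T.Adj w w' → R1 (x, w, w') (x, w, w)
  | tr (x : V) (w w' : X) : S.T.Adj w w' → R1 (x, w, w') (x, w', w)

theorem R1_symm {a b : V × X × X} (h : S.R1 a b) : S.R1 b a := by
  cases h with
  | hor x y w e => exact R1.hor y x w (S.G.symm _ _ e)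
  | up x w w' e => exact R1.dn x w w' e
  | dn x w w' e => exact R1.up x w w' e
  | tr x w w' e => exact R1.tr x w' w e.symm

theorem R1_smul (h : H) {a b : V × X × X} (e : S.R1 a b) : S.R1 (h • a) (h • b) := by
  cases e with
  | hor x y w e => exact R1.hor _ _ _ (S.G.smul h _ _ e)
  | up x w w' e => exact R1.up _ _ _ (S.T_smul h _ _ e)
  | dn x w w' e => exact R1.dn _ _ _ (S.T_smul h _ _ e)
  | tr x w w' e => exact R1.tr _ _ _ (S.T_smul h _ _ e)

/-- the blown up graph -/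
def G1 : HG H S.V1 where
  E a b := S.R1 a.1 b.1
  symm _ _ h := S.R1_symm h
  smul h _ _ e := S.R1_smul h e

/-- `x` crosses the edge `w w'` -/
def Cr (x : V) (w w' : X) : Prop := S.T.Adj w w' ∧ w ∈ S.J x ∧ w' ∈ S.J x

theorem Cr.symm {x : V} {w w' : X} (h : S.Cr x w w') : S.Cr x w' w := ⟨h.1.symm, h.2.2, h.2.1⟩

theorem Cr.smul (h : H) {x : V} {w w' : X} (c : S.Cr x w w') : S.Cr (h • x) (h • w) (h • w') :=
  ⟨S.T_smul h _ _ c.1, S.J_smul h _ _ c.2.1, S.J_smul h _ _ c.2.2⟩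

/-- a point -/
def pt (x : V) (w : X) (h : w ∈ S.J x) : S.V1 := ⟨(x, w, w), h, Or.inl rfl⟩

/-- a port -/
def port (x : V) (w w' : X) (h : S.Cr x w w') : S.V1 := ⟨(x, w, w'), h.2.1, Or.inr ⟨h.1, h.2.2⟩⟩

theorem V1_cases (q : S.V1) : (∃ x w h, q = S.pt x w h) ∨ ∃ x w w' h, q = S.port x w w' h := by
  obtain ⟨⟨x, w, w'⟩, h1, h2⟩ := q
  rcases h2 with e | e
  · have e' : w' = w := e
    subst e'
    exact Or.inl ⟨x, w', h1, rfl⟩
  · exact Or.inr ⟨x, w, w', ⟨e.1, h1, e.2⟩, rfl⟩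

/-! ### the local pieces -/

/-- points and `t`-vertices -/
def PY (y : X × (V ⊕ X)) : Prop :=
  match y.2 with
  | Sum.inl x => y.1 ∈ S.J x
  | Sum.inr w' => ∃ x, S.Cr x y.1 w'

theorem PY_smul (h : H) (y : X × (V ⊕ X)) (hy : S.PY y) : S.PY (h • y) := by
  obtain ⟨w, x | w'⟩ := y
  · exact S.J_smul h _ _ hy
  · obtain ⟨x, hx⟩ := hy
    exact ⟨h • x, Cr.smul S h hx⟩

def Y0 : Type := {y : X × (V ⊕ X) // S.PY y}

instance actY0 : MulAction H S.Y0 where
  smul h q := ⟨h • q.1, S.PY_smul h _ q.2⟩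
  one_smul q := Subtype.ext (one_smul H q.1)
  mul_smul a b q := Subtype.ext (mul_smul a b q.1)

/-- a point of a piece -/
def yp (x : V) (w : X) (h : w ∈ S.J x) : S.Y0 := ⟨(w, Sum.inl x), h⟩

/-- a `t`-vertex of a piece -/
def yt (w w' : X) (h : ∃ x, S.Cr x w w') : S.Y0 := ⟨(w, Sum.inr w'), h⟩

theorem Y0_cases (q : S.Y0) : (∃ x w h, q = S.yp x w h) ∨ ∃ w w' h, q = S.yt w w' h := by
  obtain ⟨⟨w, x | w'⟩, h⟩ := q
  · exact Or.inl ⟨x, w, h, rfl⟩
  · exact Or.inr ⟨w, w', h, rfl⟩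

/-- local edges -/
inductive RL : X × (V ⊕ X) → X × (V ⊕ X) → Prop
  | hor (x y : V) (w : X) : S.G.E x y → RL (w, Sum.inl x) (w, Sum.inl y)
  | up (x : V) (w w' : X) : S.Cr x w w' → RL (w, Sum.inl x) (w, Sum.inr w')
  | dn (x : V) (w w' : X) : S.Cr x w w' → RL (w, Sum.inr w') (w, Sum.inl x)

/-- local edges and the edges between two `t`-vertices -/
inductive RY : X × (V ⊕ X) → X × (V ⊕ X) → Prop
  | loc (a b : X × (V ⊕ X)) : S.RL a b → RY a b
  | tr (w w' : X) : S.T.Adj w w' → RY (w, Sum.inr w') (w', Sum.inr w)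

theorem RL_symm {a b : X × (V ⊕ X)} (h : S.RL a b) : S.RL b a := by
  cases h with
  | hor x y w e => exact RL.hor y x w (S.G.symm _ _ e)
  | up x w w' e => exact RL.dn x w w' e
  | dn x w w' e => exact RL.up x w w' e

theorem RL_smul (h : H) {a b : X × (V ⊕ X)} (e : S.RL a b) : S.RL (h • a) (h • b) := by
  cases e with
  | hor x y w e => exact RL.hor _ _ _ (S.G.smul h _ _ e)
  | up x w w' e => exact RL.up _ _ _ (Cr.smul S h e)
  | dn x w w' e => exact RL.dn _ _ _ (Cr.smul S h e)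

theorem RY_symm {a b : X × (V ⊕ X)} (h : S.RY a b) : S.RY b a := by
  cases h with
  | loc _ _ e => exact RY.loc _ _ (S.RL_symm e)
  | tr w w' e => exact RY.tr w' w e.symm

theorem RY_smul (h : H) {a b : X × (V ⊕ X)} (e : S.RY a b) : S.RY (h • a) (h • b) := by
  cases e with
  | loc _ _ e => exact RY.loc _ _ (S.RL_smul h e)
  | tr w w' e => exact RY.tr _ _ (S.T_smul h _ _ e)

/-- the disjoint union of the local pieces -/
def GLoc : HG H S.Y0 where
  E a b := S.RL a.1 b.1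
  symm _ _ h := S.RL_symm h
  smul h _ _ e := S.RL_smul h e

/-- the local pieces and the edges between the `t`-vertices -/
def GY : HG H S.Y0 where
  E a b := S.RY a.1 b.1
  symm _ _ h := S.RY_symm h
  smul h _ _ e := S.RY_smul h e

/-! ### the projection -/

open Classical in
/-- the projection on triples -/
noncomputable def rr (q : V × X × X) : X × (V ⊕ X) :=
  (q.2.1, if q.2.2 = q.2.1 then Sum.inl q.1 else Sum.inr q.2.2)

theorem rr_pt (x : V) (w : X) : rr (x, w, w) = (w, Sum.inl x) := by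
  unfold rr
  rw [if_pos rfl]

theorem rr_port (x : V) {w w' : X} (h : w' ≠ w) : rr (x, w, w') = (w, Sum.inr w') := by
  unfold rr
  rw [if_neg h]

theorem rr_smul (h : H) (q : V × X × X) : rr (h • q) = h • rr q := by
  obtain ⟨x, w, w'⟩ := q
  by_cases e : w' = w
  · subst e
    rw [rr_pt]
    exact rr_pt _ _
  · rw [rr_port x e]
    exact rr_port _ (fun e' => e (smul_left_cancel h e'))

/-- the projection -/
noncomputable def pi1 (q : S.V1) : S.Y0 := ⟨rr q.1, by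
  obtain ⟨⟨x, w, w'⟩, h1, h2⟩ := q
  rcases h2 with e | e
  · have e' : w' = w := e
    subst e'
    rw [rr_pt]
    exact h1
  · have e1 : w' ≠ w := fun h => S.T.ne_of_adj e.1 h.symm
    rw [rr_port x e1]
    exact ⟨x, e.1, h1, e.2⟩⟩

theorem pi1_smul (h : H) (q : S.V1) : S.pi1 (h • q) = h • S.pi1 q :=
  Subtype.ext (rr_smul h q.1)

theorem pi1_pt (x : V) (w : X) (h : w ∈ S.J x) : S.pi1 (S.pt x w h) = S.yp x w h :=
  Subtype.ext (rr_pt x w)

theorem pi1_port (x : V) (w w' : X) (h : S.Cr x w w') :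
    S.pi1 (S.port x w w' h) = S.yt w w' ⟨x, h⟩ :=
  Subtype.ext (rr_port x (fun e => S.T.ne_of_adj h.1 e.symm))

theorem pi1_surj : Function.Surjective S.pi1 := by
  intro y
  rcases S.Y0_cases y with ⟨x, w, h, rfl⟩ | ⟨w, w', ⟨x, h⟩, rfl⟩
  · exact ⟨_, S.pi1_pt x w h⟩
  · exact ⟨_, S.pi1_port x w w' h⟩

/-- the local edges come from edges of `G1` -/
theorem lift_loc {a b : S.Y0} (e : S.GLoc.E a b) :
    ∃ a' b' : S.V1, S.pi1 a' = a ∧ S.pi1 b' = b ∧ S.G1.E a' b' := by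
  obtain ⟨⟨w1, a⟩, ha⟩ := a
  obtain ⟨⟨w2, b⟩, hb⟩ := b
  have e' : S.RL (w1, a) (w2, b) := e
  cases e' with
  | hor x y _ e2 =>
    exact ⟨S.pt x w1 ha, S.pt y w1 hb, S.pi1_pt _ _ _, S.pi1_pt _ _ _, R1.hor x y w1 e2⟩
  | up x _ w' c =>
    exact ⟨S.pt x w1 ha, S.port x w1 w' c, S.pi1_pt _ _ _, S.pi1_port _ _ _ _, R1.up x w1 w' c.1⟩
  | dn x _ w' c =>
    exact ⟨S.port x w1 w' c, S.pt x w1 hb, S.pi1_port _ _ _ _, S.pi1_pt _ _ _, R1.dn x w1 w' c.1⟩

end XS

/-- a quotient of the local pieces -/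
structure XR {H V X : Type} [Group H] [MulAction H V] [MulAction H X] (S : XS H V X)
    (V0 : Type) [MulAction H V0] where
  f : S.Y0 → V0
  equi : ∀ (h : H) (y : S.Y0), f (h • y) = h • f y
  surj : Function.Surjective f
  base : ∀ a b : S.Y0, f a = f b → a.1.1 = b.1.1
  tinj : ∀ w w' w'' h h', f (S.yt w w' h) = f (S.yt w w'' h') → w' = w''
  c3 : ∀ a b c : V0, (S.GLoc.map f equi).E a b → (S.GLoc.map f equi).E b c →
    (S.GLoc.map f equi).E c a → a = b ∨ b = c ∨ c = a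
  c4 : ∀ a b c d : V0, (S.GLoc.map f equi).E a b → (S.GLoc.map f equi).E b c →
    (S.GLoc.map f equi).E c d → (S.GLoc.map f equi).E d a →
    a = c ∨ b = d ∨ (a = b ∧ c = d) ∨ (b = c ∧ d = a)
  mg : ∀ a b : S.Y0, f a = f b → Mg S.GLoc f a b

end Pool.Agent.BT
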