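import Pool.Agent.BT.XSys

/-!
# BT: walls; the quotient map `V1 → V0` is a finite sequence of moves
-/

namespace Pool.Agent.BT

open MulAction
open Pool.Agent.SAF (orbs FinOrb mk_eq_iff FinOrb_iff exists_rep Conv exists_next dist_edge)

/-- three convex sets which meet pairwise have a common point -/
theorem x_helly3 {X : Type} {T : SimpleGraph X} (hT : T.IsTree) {A B C : Set X} (hA : Conv T A)
    (hB : Conv T B) (hC : Conv T C) {y z : X} (hyA : y ∈ A) (hyC : y ∈ C) (hzB : z ∈ B)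
    (hzC : z ∈ C) : ∀ (n : ℕ) (x : X), T.dist x y = n → x ∈ A → x ∈ B →
    ∃ m, m ∈ A ∧ m ∈ B ∧ m ∈ C := by
  intro n
  induction n with
  | zero =>
    intro x h hxA hxB
    have : x = y := (hT.connected.dist_eq_zero_iff).1 h
    subst this
    exact ⟨x, hxA, hxB, hyC⟩
  | succ n ih =>
    intro x h hxA hxB
    have hne : x ≠ y := by
      rintro rfl
      rw [SimpleGraph.dist_self] at h
      omega
    obtain ⟨x', hx', e⟩ := exists_next hT hne
    have h1 : T.dist x x' = 1 := SimpleGraph.dist_eq_one_iff_adj.2 hx'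
    have hA' : x' ∈ A := hA x hxA y hyA x' (by omega)
    by_cases hB' : x' ∈ B
    · exact ih x' (by omega) hA' hB'
    · rcases (dist_edge hT hx' z).1 with h2 | h2
      · have s1 : T.dist y x = T.dist x y := SimpleGraph.dist_comm
        have s2 : T.dist y x' = T.dist x' y := SimpleGraph.dist_comm
        exact ⟨x, hxA, hxB, (hC.edge hT hx' hzC hyC h2 (by omega)).1⟩
      · exact absurd (hB.edge hT hx' hxB hzB (by rw [SimpleGraph.dist_self]; omega) h2).2 hB'

/-- the square lemma -/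
theorem mg_square {H V V' : Type} [Group H] [MulAction H V] [MulAction H V'] {G : HG H V}
    {F : V → V'} {a a' b b' c c' : V} (m : Mg G F a a') (ab : G.E a b) (bc : G.E b c)
    (ab' : G.E a' b') (bc' : G.E b' c') (ea : F a = F a') (ec : F c = F c')
    (hd : F a = F c ∨ F b = F b' ∨ (F a = F b ∧ F c = F b') ∨ (F b = F c ∧ F b' = F a)) :
    Mg G F c c' := by
  rcases hd with e | e | ⟨e1, e2⟩ | ⟨e1, e2⟩
  · have h1 : Mg G F a c := Mg.nb a c b b e (Mg.refl b) (G.symm _ _ ab) bc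
    have h2 : Mg G F a' c' := Mg.nb a' c' b' b' (ea.symm.trans (e.trans ec)) (Mg.refl b')
      (G.symm _ _ ab') bc'
    exact (h1.symm _ _).trans _ _ _ (m.trans _ _ _ h2)
  · have h1 : Mg G F b b' := Mg.nb b b' a a' e m ab ab'
    exact Mg.nb c c' b b' ec h1 bc bc'
  · have h1 : Mg G F a b := Mg.adj a b e1 ab
    have h2 : Mg G F c' b' := Mg.adj c' b' (ec.symm.trans e2) (G.symm _ _ bc')
    have h3 : Mg G F c b' := Mg.nb c b' b a' e2 ((h1.symm _ _).trans _ _ _ m) bc ab'
    exact h3.trans _ _ _ (h2.symm _ _)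
  · have h1 : Mg G F b c := Mg.adj b c e1 bc
    have h2 : Mg G F a' b' := Mg.adj a' b' (ea.symm.trans e2.symm) ab'
    have h3 : Mg G F c' b := Mg.nb c' b b' a (ec.symm.trans e1.symm)
      ((h2.symm _ _).trans _ _ _ (m.symm _ _)) bc' ab
    exact (h1.symm _ _).trans _ _ _ (h3.symm _ _)

namespace XS

variable {H V X : Type} [Group H] [MulAction H V] [MulAction H X] (S : XS H V X)

/-- `x` and `y` cross the edge and have a common neighbour -/
def Wn (w w' : X) (x y : V) : Prop :=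
  S.Cr x w w' ∧ S.Cr y w w' ∧ ∃ q, S.G.E q x ∧ S.G.E q y

variable {S} {V0 : Type} [MulAction H V0] (R : XR S V0)

/-- the quotient map on `V1` -/
noncomputable def FF (q : S.V1) : V0 := R.f (S.pi1 q)

theorem FF_smul (h : H) (q : S.V1) : FF R (h • q) = h • FF R q := by
  unfold FF
  rw [S.pi1_smul, R.equi]

theorem FF_surj : Function.Surjective (FF R) := R.surj.comp S.pi1_surj

theorem FF_port {x y : V} {w w' : X} (hx : S.Cr x w w') (hy : S.Cr y w w') :
    FF R (S.port x w w' hx) = FF R (S.port y w w' hy) := by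
  unfold FF
  rw [S.pi1_port, S.pi1_port]

theorem E_up {x : V} {w w' : X} (hx : S.Cr x w w') :
    S.G1.E (S.pt x w hx.2.1) (S.port x w w' hx) := R1.up x w w' hx.1

theorem E_dn {x : V} {w w' : X} (hx : S.Cr x w w') :
    S.G1.E (S.port x w w' hx) (S.pt x w hx.2.1) := R1.dn x w w' hx.1

theorem E_tr {x : V} {w w' : X} (hx : S.Cr x w w') :
    S.G1.E (S.port x w w' hx) (S.port x w' w hx.symm) := R1.tr x w w' hx.1

theorem E_hor {x y : V} (w : X) (hx : w ∈ S.J x) (hy : w ∈ S.J y) (e : S.G.E x y) :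
    S.G1.E (S.pt x w hx) (S.pt y w hy) := R1.hor x y w e

theorem L_up {x : V} {w w' : X} (hx : S.Cr x w w') :
    (S.GLoc.map R.f R.equi).E (FF R (S.pt x w hx.2.1)) (FF R (S.port x w w' hx)) := by
  unfold FF
  rw [S.pi1_port, S.pi1_pt]
  exact ⟨_, _, rfl, rfl, RL.up x w w' hx⟩

theorem L_hor {x y : V} (w : X) (hx : w ∈ S.J x) (hy : w ∈ S.J y) (e : S.G.E x y) :
    (S.GLoc.map R.f R.equi).E (FF R (S.pt x w hx)) (FF R (S.pt y w hy)) := by
  unfold FF
  rw [S.pi1_pt, S.pi1_pt]
  exact ⟨_, _, rfl, rfl, RL.hor x y w e⟩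

/-- `p` of a corner -/
theorem corner_p {q u u' : V} {w w' : X} (hu : S.Cr u w w') (hu' : S.Cr u' w w')
    (e : S.G.E q u) (e' : S.G.E q u') :
    S.p q u' = S.p q u := by
  obtain ⟨m, m1, m2, m3⟩ := x_helly3 S.tree (S.J_conv u) (S.J_conv u') (S.J_conv q)
    (S.p_r q u e) (S.p_l q u e) (S.p_r q u' e') (S.p_l q u' e') _ w rfl hu.2.1 hu'.2.1
  rw [← S.p_u q u m e m3 m1, ← S.p_u q u' m e' m3 m2]

/-- all the ports of two crossing vertices with a common neighbour -/
theorem port_step {q u u' : V} (e : S.G.E q u) (e' : S.G.E q u') (ep : S.p q u' = S.p q u) :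
    ∀ (n : ℕ) (w w' : X) (hu : S.Cr u w w') (hu' : S.Cr u' w w'), S.T.dist (S.p q u) w = n →
      S.T.dist (S.p q u) w' = n + 1 →
      Mg S.G1 (FF R) (S.port u w w' hu) (S.port u' w w' hu') := by
  have hq : S.p q u ∈ S.J q := S.p_l q u e
  have hpu : S.p q u ∈ S.J u := S.p_r q u e
  have hpu' : S.p q u ∈ S.J u' := by rw [← ep]; exact S.p_r q u' e'
  have G1s := S.G1.symm
  intro n
  induction n with
  | zero =>
    intro w w' hu hu' h0 h1
    have hw : S.p q u = w := (S.tree.connected.dist_eq_zero_iff).1 h0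
    have hqw : w ∈ S.J q := hw ▸ hq
    apply mg_square (G := S.G1) (F := FF R) (a := S.pt q w hqw) (a' := S.pt q w hqw)
      (b := S.pt u w hu.2.1) (b' := S.pt u' w hu'.2.1) (Mg.refl _)
    · exact E_hor w hqw hu.2.1 e
    · exact E_up hu
    · exact E_hor w hqw hu'.2.1 e'
    · exact E_up hu'
    · rfl
    · exact FF_port R hu hu'
    · apply R.c4
      · exact L_hor R w hqw hu.2.1 e
      · exact L_up R hu
      · rw [FF_port R hu hu']
        exact (S.GLoc.map R.f R.equi).symm _ _ (L_up R hu')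
      · exact (S.GLoc.map R.f R.equi).symm _ _ (L_hor R w hqw hu'.2.1 e')
  | succ n ih =>
    intro w w' hu hu' h0 h1
    have hne : w ≠ S.p q u := by
      rintro h
      rw [← h, SimpleGraph.dist_self] at h0
      omega
    obtain ⟨v, hv, ev⟩ := exists_next S.tree hne
    have s1 : S.T.dist (S.p q u) w = S.T.dist w (S.p q u) := SimpleGraph.dist_comm
    have s2 : S.T.dist (S.p q u) v = S.T.dist v (S.p q u) := SimpleGraph.dist_comm
    have s3 : S.T.dist w v = 1 := SimpleGraph.dist_eq_one_iff_adj.2 hv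
    have hvu : v ∈ S.J u := S.J_conv u w hu.2.1 _ hpu v (by omega)
    have hvu' : v ∈ S.J u' := S.J_conv u' w hu'.2.1 _ hpu' v (by omega)
    have cu : S.Cr u v w := ⟨hv.symm, hvu, hu.2.1⟩
    have cu' : S.Cr u' v w := ⟨hv.symm, hvu', hu'.2.1⟩
    have m1 := ih v w cu cu' (by omega) (by omega)
    have m2 : Mg S.G1 (FF R) (S.port u w v cu.symm) (S.port u' w v cu'.symm) :=
      Mg.nb _ _ _ _ (FF_port R cu.symm cu'.symm) m1 (E_tr cu) (E_tr cu')
    apply mg_square (G := S.G1) (F := FF R) (b := S.pt u w hu.2.1) (b' := S.pt u' w hu'.2.1) m2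
    · exact E_dn cu.symm
    · exact E_up hu
    · exact E_dn cu'.symm
    · exact E_up hu'
    · exact FF_port R cu.symm cu'.symm
    · exact FF_port R hu hu'
    · apply R.c4
      · exact (S.GLoc.map R.f R.equi).symm _ _ (L_up R cu.symm)
      · exact L_up R hu
      · rw [FF_port R hu hu']
        exact (S.GLoc.map R.f R.equi).symm _ _ (L_up R hu')
      · rw [FF_port R cu.symm cu'.symm]
        exact L_up R cu'.symm

/-- the ports over a wall -/
theorem port_wn {w w' : X} {u u' : V} (hu : S.Cr u w w') (hu' : S.Cr u' w w')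
    (h : S.Wn w w' u u') : Mg S.G1 (FF R) (S.port u w w' hu) (S.port u' w w' hu') := by
  obtain ⟨_, _, q, e, e'⟩ := h
  have ep := corner_p hu hu' e e'
  rcases (dist_edge S.tree hu.1 (S.p q u)).1 with h1 | h1
  · exact port_step R e e' ep _ w w' hu hu' rfl h1
  · have m := port_step R e e' ep _ w' w hu.symm hu'.symm rfl h1
    exact Mg.nb _ _ _ _ (FF_port R hu hu') m (E_tr hu.symm) (E_tr hu'.symm)

/-- walls are connected -/
def Walls (S : XS H V X) : Prop :=
  ∀ w w' x y, S.Cr x w w' → S.Cr y w w' → Relation.ReflTransGen (S.Wn w w') x y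

theorem port_walls (hW : Walls S) {w w' : X} {u u' : V} (hu : S.Cr u w w')
    (hu' : S.Cr u' w w') : Mg S.G1 (FF R) (S.port u w w' hu) (S.port u' w w' hu') := by
  have key : ∀ y, Relation.ReflTransGen (S.Wn w w') u y → ∃ hy : S.Cr y w w',
      Mg S.G1 (FF R) (S.port u w w' hu) (S.port y w w' hy) := by
    intro y h
    induction h with
    | refl => exact ⟨hu, Mg.refl _⟩
    | tail _ e ih =>
      obtain ⟨hb, m⟩ := ih
      exact ⟨e.2.1, m.trans _ _ _ (port_wn R hb e.2.1 e)⟩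
  obtain ⟨_, m⟩ := key u' (hW w w' u u' hu hu')
  exact m

/-- the fibres of the projection -/
theorem mg_pi1 (hW : Walls S) {a b : S.V1} (e : S.pi1 a = S.pi1 b) : Mg S.G1 (FF R) a b := by
  rcases S.V1_cases a with ⟨x, w, h, rfl⟩ | ⟨x, w, w', h, rfl⟩ <;>
    rcases S.V1_cases b with ⟨y, v, k, rfl⟩ | ⟨y, v, v', k, rfl⟩
  · rw [S.pi1_pt, S.pi1_pt] at e
    have e1 := congrArg (fun z : S.Y0 => z.1) e
    have e2 : ((w, Sum.inl x) : X × (V ⊕ X)) = (v, Sum.inl y) := e1
    obtain ⟨rfl, e3⟩ := Prod.mk.inj e2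
    have e4 : x = y := Sum.inl.inj e3
    subst e4
    exact Mg.refl _
  · rw [S.pi1_pt, S.pi1_port] at e
    have e1 := congrArg (fun z : S.Y0 => z.1) e
    have e2 : ((w, Sum.inl x) : X × (V ⊕ X)) = (v, Sum.inr v') := e1
    exact absurd (Prod.mk.inj e2).2 (by simp)
  · rw [S.pi1_pt, S.pi1_port] at e
    have e1 := congrArg (fun z : S.Y0 => z.1) e
    have e2 : ((w, Sum.inr w') : X × (V ⊕ X)) = (v, Sum.inl y) := e1
    exact absurd (Prod.mk.inj e2).2 (by simp)
  · rw [S.pi1_port, S.pi1_port] at e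
    have e1 := congrArg (fun z : S.Y0 => z.1) e
    have e2 : ((w, Sum.inr w') : X × (V ⊕ X)) = (v, Sum.inr v') := e1
    obtain ⟨rfl, e3⟩ := Prod.mk.inj e2
    have e4 : w' = v' := Sum.inr.inj e3
    subst e4
    exact port_walls R hW h k

/-- lifting of a local derivation -/
theorem mg_lift (hW : Walls S) {α β : S.Y0} (m : Mg S.GLoc R.f α β) :
    ∀ a b : S.V1, S.pi1 a = α → S.pi1 b = β → Mg S.G1 (FF R) a b := by
  induction m with
  | refl x =>
    intro a b ha hb
    exact mg_pi1 R hW (ha.trans hb.symm)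
  | symm x y _ ih =>
    intro a b ha hb
    exact (ih b a hb ha).symm _ _
  | trans x y z _ _ ih1 ih2 =>
    intro a b ha hb
    obtain ⟨c, hc⟩ := S.pi1_surj y
    exact (ih1 a c ha hc).trans _ _ _ (ih2 c b hc hb)
  | smul h x y _ ih =>
    intro a b ha hb
    have m := ih (h⁻¹ • a) (h⁻¹ • b) (by rw [S.pi1_smul, ha, inv_smul_smul])
      (by rw [S.pi1_smul, hb, inv_smul_smul])
    have m2 := m.smul h _ _
    rwa [smul_inv_smul, smul_inv_smul] at m2
  | adj x y e exy =>
    intro a b ha hb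
    obtain ⟨a', b', ha', hb', e'⟩ := S.lift_loc exy
    have h1 : Mg S.G1 (FF R) a' b' := Mg.adj _ _ (by
      unfold FF
      rw [ha', hb', e]) e'
    exact (mg_pi1 R hW (ha.trans ha'.symm)).trans _ _ _
      (h1.trans _ _ _ (mg_pi1 R hW (hb'.trans hb.symm)))
  | nb x y z z' e _ ezx ezy ih =>
    intro a b ha hb
    obtain ⟨c, a', hc, ha', e1⟩ := S.lift_loc ezx
    obtain ⟨c', b', hc', hb', e2⟩ := S.lift_loc ezy
    have h1 : Mg S.G1 (FF R) a' b' := Mg.nb _ _ _ _ (by
      unfold FF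
      rw [ha', hb', e]) (ih c c' hc hc') e1 e2
    exact (mg_pi1 R hW (ha.trans ha'.symm)).trans _ _ _
      (h1.trans _ _ _ (mg_pi1 R hW (hb'.trans hb.symm)))

theorem mg_all (hW : Walls S) {a b : S.V1} (e : FF R a = FF R b) : Mg S.G1 (FF R) a b :=
  mg_lift R hW (R.mg _ _ e) a b rfl rfl

/-- the quotient map is a finite sequence of moves -/
theorem FF_folds (hW : Walls S) (hV : FinOrb H (Set.univ : Set S.V1))
    (hfg : ∀ v : V0, (stabilizer H v).FG) : Folds S.G1 (FF R) :=
  folds_of_mg (FF_smul R) (FF_surj R) hV hfg (fun _ _ e => mg_all R hW e)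

end XS

end Pool.Agent.BT
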